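import Pool.Agent.Lib.MP_ac5134_an.AddQ2
import Pool.Agent.Lib.MP_ac5134_an.FR.BFinal

/-!
Families of tubes with additive structure: the norm inequality and the volume inequality.
-/

namespace Pool.Agent.MPac5134

open MeasureTheory Matrix Pool.Agent.MPac5134.Lat
open scoped ENNReal Pointwise

variable {d : ℕ}

/-- The set `G` has at least `|G|³ / L` additive quadruples `g₁ + g₂ = g₃ + g₄`. -/
def ManyQuadruples {α : Type*} [DecidableEq α] [AddCommGroup α] (L : ℝ) (G : Finset α) : Prop :=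
  (G.card : ℝ) ^ 3 ≤ L * G.addEnergy G

/-- The set `G` is contained in a set `H` with at most `L M` elements and doubling at most `L`. -/
def SmallDoubling {α : Type*} [DecidableEq α] [AddCommGroup α] (L M : ℝ) (G : Finset α) : Prop :=
  ∃ H : Finset α, G ⊆ H ∧ (H.card : ℝ) ≤ L * M ∧ ((H + H).card : ℝ) ≤ L * H.card

/-- the set of the labels of a family of tubes -/
noncomputable def labels {ι : Type*} [Fintype ι] (N : ℝ) (θ : ι → Cap d) (c : ι → Sp d) :
    Finset (Fin d ⊕ Fin (d + 1) → ℤ) := Finset.univ.image (fun i => label N (θ i) (c i))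

theorem log_le {δ N : ℝ} (hδ : 0 < δ) (hN : 1 ≤ N) : 1 + Real.log N ≤ (1 + 1 / δ) * N ^ δ := by
  have h1 := Real.log_le_rpow_div (by linarith : 0 ≤ N) hδ
  have h2 : 1 ≤ N ^ δ := Real.one_le_rpow hN hδ.le
  have h3 : N ^ δ / δ = 1 / δ * N ^ δ := by ring
  rw [h3] at h1
  linarith

/-- the integer bound for the doubling -/
theorem exists_int {B x : ℝ} (hB : 1 ≤ B) (hx : 1 ≤ x) :
    ∃ D : ℕ, 1 ≤ D ∧ B * x ^ ((1:ℝ) / 2000) ≤ D ∧ (D:ℝ) ≤ 2 * B * x ^ ((1:ℝ) / 2000) := by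
  have h1 : 1 ≤ B * x ^ ((1:ℝ) / 2000) :=
    one_le_mul_of_one_le_of_one_le hB (Real.one_le_rpow hx (by norm_num))
  refine ⟨⌈B * x ^ ((1:ℝ) / 2000)⌉₊, Nat.one_le_ceil_iff.mpr (by linarith), Nat.le_ceil _, ?_⟩
  have := (Nat.ceil_lt_add_one (by linarith : 0 ≤ B * x ^ ((1:ℝ) / 2000))).le
  linarith

/-- the constant of the Balog–Szemerédi–Gowers theorem -/
def bsgNat (D : ℕ) : ℕ := (128 * D ^ 2 * (4096 * (2 * D) ^ 8) ^ 2) ^ 2 + 16 * D

theorem bsgNat_le {D : ℕ} (hD : 1 ≤ D) : ((bsgNat D : ℕ) : ℝ) ≤ 2 ^ 95 * (D:ℝ) ^ 36 := by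
  have hD' : (1:ℝ) ≤ D := by exact_mod_cast hD
  unfold bsgNat
  push_cast
  have h1 : (128 * (D:ℝ) ^ 2 * (4096 * (2 * D) ^ 8) ^ 2) ^ 2 = 2 ^ 94 * (D:ℝ) ^ 36 := by
    rw [mul_pow (2:ℝ) (D:ℝ) 8]; ring
  have h2 : (D:ℝ) ≤ (D:ℝ) ^ 36 := by
    calc (D:ℝ) = (D:ℝ) ^ 1 := (pow_one _).symm
      _ ≤ (D:ℝ) ^ 36 := pow_le_pow_right₀ hD' (by norm_num)
  rw [h1]
  have h3 : (16:ℝ) * D ≤ 2 ^ 94 * (D:ℝ) ^ 36 := by
    have : (16:ℝ) ≤ 2 ^ 94 := by norm_num
    gcongr
  calc (2:ℝ) ^ 94 * (D:ℝ) ^ 36 + 16 * D ≤ 2 ^ 94 * (D:ℝ) ^ 36 + 2 ^ 94 * (D:ℝ) ^ 36 := by linarith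
    _ = _ := by ring

theorem additive_families (hd : 0 < d) (K : ℕ) {B κ ε : ℝ} (hB : 1 ≤ B) (hκ : 0 < κ)
    (hε : 0 < ε) :
    ∃ C : ℝ, 0 < C ∧ ∀ N : ℝ, 1 ≤ N → ∀ (ι : Type) [Fintype ι] (θ : ι → Cap d) (c : ι → Sp d),
      IsCapFamily K κ N θ →
      (ManyQuadruples (B * (1 + Real.log N) ^ ((1:ℝ) / 2000)) (labels N θ c) ∨
        SmallDoubling (B * (1 + Real.log N) ^ ((1:ℝ) / 2000)) (N ^ d) (labels N θ c)) →
      ∃ S : Finset ι, (SmallDoubling (B * (1 + Real.log N) ^ ((1:ℝ) / 2000)) (N ^ d)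
          (labels N θ c) → S = Finset.univ) ∧
        (Fintype.card ι : ℝ) ≤ C * (1 + Real.log N) * S.card ∧
        (∀ p : ℝ≥0∞, 1 ≤ p → eLpNorm (multOn S N θ c) p volume ≤
          ENNReal.ofReal (C * N ^ ε) * eLpNorm (mult N θ (fun _ => 0)) p volume) ∧
        ∑ i, volume (tube N (θ i) (c i)) ≤
          ENNReal.ofReal (C * N ^ ε) * volume (⋃ i ∈ S, tube N (θ i) (c i)) := by
  classical
  have hd' : (0:ℝ) < d := by exact_mod_cast hd
  obtain ⟨κ1, hκ1⟩ : ∃ κ1 : ℝ, κ1 = min κ 1 := ⟨_, rfl⟩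
  have hκ10 : 0 < κ1 := by rw [hκ1]; exact lt_min hκ one_pos
  have hκ11 : κ1 ≤ 1 := by rw [hκ1]; exact min_le_right _ _
  have hκ1κ : κ1 ≤ κ := by rw [hκ1]; exact min_le_left _ _
  obtain ⟨δ, hδ⟩ : ∃ δ : ℝ, δ = ε / (3 * d + 1) := ⟨_, rfl⟩
  have hδ0 : 0 < δ := by rw [hδ]; positivity
  have hδε : δ ≤ ε := by
    rw [hδ]; exact div_le_self hε.le (by linarith)
  -- constants
  obtain ⟨B', hB'⟩ : ∃ B' : ℝ, B' = 2 ^ 95 * (2 * B) ^ 36 + K * 5 ^ d := ⟨_, rfl⟩
  have hK0 : (0:ℝ) ≤ K := Nat.cast_nonneg K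
  have h2B : 1 ≤ (2 * B) ^ 36 := one_le_pow₀ (by linarith)
  have hB'1 : 1 ≤ B' := by
    have h1 : (0:ℝ) ≤ K * 5 ^ d := by positivity
    have h2 : (1:ℝ) ≤ 2 ^ 95 * (2 * B) ^ 36 :=
      one_le_mul_of_one_le_of_one_le (by norm_num) h2B
    rw [hB']; linarith
  have h2BB' : 2 * B ≤ B' := by
    have h1 : (0:ℝ) ≤ K * 5 ^ d := by positivity
    have h2 : 2 * B ≤ (2 * B) ^ 36 := by
      calc 2 * B = (2 * B) ^ 1 := (pow_one _).symm
        _ ≤ (2 * B) ^ 36 := pow_le_pow_right₀ (by linarith) (by norm_num)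
    have h3 : (2 * B) ^ 36 ≤ 2 ^ 95 * (2 * B) ^ 36 :=
      le_mul_of_one_le_left (by positivity) (by norm_num)
    rw [hB']; linarith
  obtain ⟨C1, hC1, hweak⟩ := add_weak_quant hd K hB'1 hκ10 hδ0
  obtain ⟨C2, hC2, hnorm⟩ := norm_sub hd K hκ
  obtain ⟨b, hb, hunion⟩ := union_explicit hd K hδ0
  obtain ⟨P, hP⟩ : ∃ P : ℝ, P = 2 * (K + 1) * B' := ⟨_, rfl⟩
  have hP1 : 1 ≤ P := by
    rw [hP]
    exact one_le_mul_of_one_le_of_one_le (by linarith) hB'1
  obtain ⟨C3, hC3⟩ : ∃ C3 : ℝ, C3 = P * (1 + 1 / δ) *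
    (2 * (b * (P / κ1 * (1 + 1 / δ)) * C1) ^ d) := ⟨_, rfl⟩
  have h1δ : 0 < 1 + 1 / δ := by positivity
  have hC30 : 0 < C3 := by rw [hC3]; positivity
  refine ⟨P + C2 * C1 + C3, by positivity, ?_⟩
  intro N hN ι _ θ c hfam hyp
  have hN0 : 0 < N := by linarith
  have hlog : 0 ≤ Real.log N := Real.log_nonneg hN
  obtain ⟨x, hx⟩ : ∃ x : ℝ, x = 1 + Real.log N := ⟨_, rfl⟩
  rw [← hx] at hyp ⊢
  have hx1 : 1 ≤ x := by linarith
  have hx0 : 0 < x := by linarith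
  have hxδ : x ≤ (1 + 1 / δ) * N ^ δ := by rw [hx]; exact log_le hδ0 hN
  have hx36 : x ^ ((36:ℝ) / 2000) ≤ x := by
    calc x ^ ((36:ℝ) / 2000) ≤ x ^ (1:ℝ) := Real.rpow_le_rpow_of_exponent_le hx1 (by norm_num)
      _ = x := Real.rpow_one x
  have hx1' : x ^ ((1:ℝ) / 2000) ≤ x ^ ((36:ℝ) / 2000) :=
    Real.rpow_le_rpow_of_exponent_le hx1 (by norm_num)
  have hx36' : 1 ≤ x ^ ((36:ℝ) / 2000) := Real.one_le_rpow hx1 (by norm_num)
  have hNδ : 1 ≤ N ^ δ := Real.one_le_rpow hN hδ0.le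
  have hW : 1 ≤ C1 * N ^ δ := one_le_mul_of_one_le_of_one_le hC1 hNδ
  obtain ⟨D0, hD0, hD0a, hD0b⟩ := exists_int hB hx1
  have hD0r : (1:ℝ) ≤ D0 := by exact_mod_cast hD0
  -- it is enough to find `S` with a large part of the tubes and a weak type estimate
  have key : ∀ (S : Finset ι) (E : ℕ), (E:ℝ) + 1 ≤ 2 * B' * x ^ ((36:ℝ) / 2000) →
      (Fintype.card ι : ℝ) ≤ (K + 1) * (E + 1) * S.card →
      IsCapFamily K (κ1 / ((K + 1) * (E + 1))) N (fun i : {i // i ∈ S} => θ i) →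
      WeakBound N (C1 * N ^ δ) (fun i : {i // i ∈ S} => θ i) (fun i : {i // i ∈ S} => c i) →
      (Fintype.card ι : ℝ) ≤ (P + C2 * C1 + C3) * x * S.card ∧
        (∀ p : ℝ≥0∞, 1 ≤ p → eLpNorm (multOn S N θ c) p volume ≤
          ENNReal.ofReal ((P + C2 * C1 + C3) * N ^ ε) *
            eLpNorm (mult N θ (fun _ => 0)) p volume) ∧
        ∑ i, volume (tube N (θ i) (c i)) ≤
          ENNReal.ofReal ((P + C2 * C1 + C3) * N ^ ε) *
            volume (⋃ i ∈ S, tube N (θ i) (c i)) := by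
    intro S E hE hcard hfamS hwS
    have hE0 : (0:ℝ) ≤ E := Nat.cast_nonneg E
    have hKE : ((K:ℝ) + 1) * (E + 1) ≤ P * x := by
      calc ((K:ℝ) + 1) * (E + 1) ≤ (K + 1) * (2 * B' * x ^ ((36:ℝ) / 2000)) := by gcongr
        _ ≤ (K + 1) * (2 * B' * x) := by gcongr
        _ = P * x := by rw [hP]; ring
    have hNεδ : N ^ δ ≤ N ^ ε := Real.rpow_le_rpow_of_exponent_le hN hδε
    have hcardx : (Fintype.card ι : ℝ) ≤ P * x * S.card := by
      refine hcard.trans ?_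
      gcongr
    have hCC : 0 ≤ C2 * C1 := by positivity
    refine ⟨hcardx.trans ?_, ?_, ?_⟩
    · have : P ≤ P + C2 * C1 + C3 := by linarith
      gcongr
    · intro p hp
      refine (hnorm N hN ι θ c hfam S _ hW hwS p hp).trans
        (mul_le_mul' (ENNReal.ofReal_le_ofReal ?_) le_rfl)
      calc C2 * (C1 * N ^ δ) = C2 * C1 * N ^ δ := by ring
        _ ≤ (P + C2 * C1 + C3) * N ^ ε := by
          have : C2 * C1 ≤ P + C2 * C1 + C3 := by linarith
          gcongr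
    · obtain ⟨κ2, hκ2⟩ : ∃ κ2 : ℝ, κ2 = κ1 / ((K + 1) * (E + 1)) := ⟨_, rfl⟩
      rw [← hκ2] at hfamS
      have hKE1 : (1:ℝ) ≤ (K + 1) * (E + 1) :=
        one_le_mul_of_one_le_of_one_le (by linarith) (by linarith)
      have hκ20 : 0 < κ2 := by rw [hκ2]; positivity
      have hκ21 : κ2 ≤ 1 := by
        rw [hκ2, div_le_one (by linarith)]; linarith
      have h1 := hunion κ2 hκ20 hκ21 N hN {i // i ∈ S} _ _ hfamS _ hW hwS
      have hU : (⋃ i : {i // i ∈ S}, tube N (θ i) (c i)) = ⋃ i ∈ S, tube N (θ i) (c i) := by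
        ext y; simp
      rw [hU] at h1
      simp only [volume_tube hN0.le, Finset.sum_const, Finset.card_univ, nsmul_eq_mul,
        Fintype.card_coe] at h1 ⊢
      have h2 : ((Fintype.card ι : ℕ) : ℝ≥0∞) ≤ ENNReal.ofReal (P * x) * (S.card : ℕ) := by
        rw [← ENNReal.ofReal_natCast, ← ENNReal.ofReal_natCast,
          ← ENNReal.ofReal_mul (by positivity)]
        exact ENNReal.ofReal_le_ofReal hcardx
      have h3 : 2 * (b / κ2 * (C1 * N ^ δ * N ^ δ)) ^ d ≤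
          (2 * (b * (P / κ1 * (1 + 1 / δ)) * C1) ^ d) * N ^ (3 * δ * d) := by
        have e1 : b / κ2 ≤ b * (P / κ1 * ((1 + 1 / δ) * N ^ δ)) := by
          have e2 : b / κ2 = b * (((K + 1) * (E + 1)) / κ1) := by
            rw [hκ2]; field_simp
          rw [e2]
          have e3 : ((K:ℝ) + 1) * (E + 1) / κ1 ≤ P / κ1 * ((1 + 1 / δ) * N ^ δ) := by
            calc ((K:ℝ) + 1) * (E + 1) / κ1 ≤ P * x / κ1 := by gcongr
              _ = P / κ1 * x := by ring
              _ ≤ _ := by gcongr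
          gcongr
        have e4 : N ^ (3 * δ * d) = (N ^ δ * N ^ δ * N ^ δ) ^ d := by
          rw [← Real.rpow_add hN0, ← Real.rpow_add hN0, ← Real.rpow_natCast (N ^ (δ + δ + δ)) d,
            ← Real.rpow_mul hN0.le]
          congr 1; ring
        calc 2 * (b / κ2 * (C1 * N ^ δ * N ^ δ)) ^ d
            ≤ 2 * (b * (P / κ1 * ((1 + 1 / δ) * N ^ δ)) * (C1 * N ^ δ * N ^ δ)) ^ d := by
              gcongr
          _ = 2 * ((b * (P / κ1 * (1 + 1 / δ)) * C1) * (N ^ δ * N ^ δ * N ^ δ)) ^ d := by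
              congr 2; ring
          _ = _ := by rw [mul_pow (b * (P / κ1 * (1 + 1 / δ)) * C1), e4]; ring
      calc ((Fintype.card ι : ℕ) : ℝ≥0∞) * ENNReal.ofReal (N ^ (d + 2))
          ≤ ENNReal.ofReal (P * x) * (S.card : ℕ) * ENNReal.ofReal (N ^ (d + 2)) := by gcongr
        _ = ENNReal.ofReal (P * x) * ((S.card : ℕ) * ENNReal.ofReal (N ^ (d + 2))) := by
            rw [mul_assoc]
        _ ≤ ENNReal.ofReal (P * x) * (ENNReal.ofReal (2 * (b / κ2 * (C1 * N ^ δ * N ^ δ)) ^ d) *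
              volume (⋃ i ∈ S, tube N (θ i) (c i))) := mul_le_mul' le_rfl h1
        _ = ENNReal.ofReal (P * x * (2 * (b / κ2 * (C1 * N ^ δ * N ^ δ)) ^ d)) *
              volume (⋃ i ∈ S, tube N (θ i) (c i)) := by
            rw [← mul_assoc, ← ENNReal.ofReal_mul (by positivity)]
        _ ≤ _ := by
            refine mul_le_mul' (ENNReal.ofReal_le_ofReal ?_) le_rfl
            have e5 : N ^ δ * N ^ (3 * δ * d) = N ^ ε := by
              rw [← Real.rpow_add hN0, hδ]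
              congr 1
              field_simp
              ring
            calc P * x * (2 * (b / κ2 * (C1 * N ^ δ * N ^ δ)) ^ d)
                ≤ P * ((1 + 1 / δ) * N ^ δ) *
                  ((2 * (b * (P / κ1 * (1 + 1 / δ)) * C1) ^ d) * N ^ (3 * δ * d)) := by gcongr
              _ = C3 * (N ^ δ * N ^ (3 * δ * d)) := by rw [hC3]; ring
              _ = C3 * N ^ ε := by rw [e5]
              _ ≤ _ := by
                have : C3 ≤ P + C2 * C1 + C3 := by linarith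
                gcongr
  by_cases hsd : SmallDoubling (B * x ^ ((1:ℝ) / 2000)) (N ^ d) (labels N θ c)
  · -- all tubes
    refine ⟨Finset.univ, fun _ => rfl, ?_⟩
    obtain ⟨H, hGH, hHc, hHH⟩ := hsd
    have hfam' : IsCapFamily K (κ1 / ((K + 1) * ((0:ℕ) + 1))) N
        (fun i : {i // i ∈ (Finset.univ : Finset ι)} => θ i) := by
      constructor
      · intro z s hs
        have h3 := hfam.overlap z (s.map (Function.Embedding.subtype _)) (by
          intro i hi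
          rw [Finset.mem_map] at hi
          obtain ⟨j, hj, rfl⟩ := hi
          exact hs j hj)
        rwa [Finset.card_map] at h3
      · rw [Fintype.card_coe, Finset.card_univ]
        refine le_trans ?_ hfam.many
        have : κ1 / (((K:ℝ) + 1) * ((0:ℕ) + 1)) ≤ κ := by
          refine le_trans (div_le_self hκ10.le ?_) hκ1κ
          push_cast; linarith
        gcongr
    refine key Finset.univ 0 ?_ ?_ hfam' ?_
    · have h1 : 1 ≤ B' * x ^ ((36:ℝ) / 2000) := one_le_mul_of_one_le_of_one_le hB'1 hx36'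
      push_cast; linarith
    · rw [Finset.card_univ]
      have : (0:ℝ) ≤ Fintype.card ι := Nat.cast_nonneg _
      push_cast
      nlinarith
    · refine hweak N hN D0 hD0 ?_ _ ?_ ?_ _ _ _ hfam' H ?_ ?_ ?_
      · calc (D0:ℝ) ≤ 2 * B * x ^ ((1:ℝ) / 2000) := hD0b
          _ ≤ B' * x ^ ((36:ℝ) / 2000) := by gcongr
          _ = _ := by rw [hx]
      · positivity
      · rw [one_div_div]
        push_cast
        have : (K:ℝ) + 1 ≤ (K + 1) * (D0 + 1) := le_mul_of_one_le_right (by linarith) (by linarith)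
        calc ((K:ℝ) + 1) * (0 + 1) / κ1 = (K + 1) / κ1 := by ring
          _ ≤ (K + 1) / κ1 * (D0 + 1) := le_mul_of_one_le_right (by positivity) (by linarith)
      · intro i
        exact hGH (Finset.mem_image_of_mem _ (Finset.mem_univ _))
      · refine hHc.trans ?_
        gcongr
      · have h1 : ((H + H).card : ℝ) ≤ D0 * H.card := hHH.trans (by gcongr)
        exact_mod_cast h1
  · have hmq : ManyQuadruples (B * x ^ ((1:ℝ) / 2000)) (labels N θ c) := by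
      rcases hyp with h | h
      · exact h
      · exact absurd h hsd
    -- the set of labels is not empty
    have hι : 0 < Fintype.card ι := by
      have h1 : (0:ℝ) < Fintype.card ι := lt_of_lt_of_le (by positivity) hfam.many
      exact_mod_cast h1
    obtain ⟨i0⟩ := Fintype.card_pos_iff.mp hι
    have hGne : (labels N θ c).Nonempty := ⟨_, Finset.mem_image_of_mem _ (Finset.mem_univ i0)⟩
    have hE : (labels N θ c).card ^ 3 ≤ D0 * (labels N θ c).addEnergy (labels N θ c) := by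
      have h1 : ((labels N θ c).card : ℝ) ^ 3 ≤
          D0 * (labels N θ c).addEnergy (labels N θ c) := by
        refine le_trans hmq ?_
        gcongr
      exact_mod_cast h1
    obtain ⟨G', hG'G, hGc, hG'2⟩ := BSG.bsg_explicit D0 (labels N θ c) hGne hE
    have hEe : (128 * D0 ^ 2 * (4096 * (2 * D0) ^ 8) ^ 2) ^ 2 + 16 * D0 = bsgNat D0 := rfl
    rw [hEe] at hGc hG'2
    obtain ⟨E, hEdef⟩ : ∃ E : ℕ, E = bsgNat D0 := ⟨_, rfl⟩
    rw [← hEdef] at hGc hG'2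
    have hEle : (E:ℝ) ≤ 2 ^ 95 * (2 * B) ^ 36 * x ^ ((36:ℝ) / 2000) := by
      rw [hEdef]
      refine (bsgNat_le hD0).trans ?_
      have h1 : (D0:ℝ) ^ 36 ≤ (2 * B * x ^ ((1:ℝ) / 2000)) ^ 36 :=
        pow_le_pow_left₀ (by linarith) hD0b 36
      have h2 : (2 * B * x ^ ((1:ℝ) / 2000)) ^ 36 = (2 * B) ^ 36 * x ^ ((36:ℝ) / 2000) := by
        rw [mul_pow (2 * B), ← Real.rpow_natCast (x ^ ((1:ℝ) / 2000)) 36, ← Real.rpow_mul hx0.le]
        norm_num
      rw [h2] at h1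
      calc (2:ℝ) ^ 95 * (D0:ℝ) ^ 36 ≤ 2 ^ 95 * ((2 * B) ^ 36 * x ^ ((36:ℝ) / 2000)) := by gcongr
        _ = _ := by ring
    refine ⟨Finset.univ.filter (fun i => label N (θ i) (c i) ∈ G'), fun h => absurd h hsd, ?_⟩
    obtain ⟨hcard, hfamS⟩ := sub_family (S := Finset.univ.filter
      (fun i => label N (θ i) (c i) ∈ G')) (⟨hfam.overlap, le_trans (by gcongr) hfam.many⟩ :
        IsCapFamily K κ1 N θ) rfl hG'G hGc (fun i => by simp)
    have hKd : (0:ℝ) ≤ K * 5 ^ d := by positivity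
    have hKx : (K:ℝ) * 5 ^ d ≤ K * 5 ^ d * x ^ ((36:ℝ) / 2000) := le_mul_of_one_le_right hKd hx36'
    have hB'x : 2 ^ 95 * (2 * B) ^ 36 * x ^ ((36:ℝ) / 2000) + K * 5 ^ d * x ^ ((36:ℝ) / 2000) =
        B' * x ^ ((36:ℝ) / 2000) := by rw [hB']; ring
    refine key _ E ?_ hcard hfamS ?_
    · have h1 : 1 ≤ B' * x ^ ((36:ℝ) / 2000) := one_le_mul_of_one_le_of_one_le hB'1 hx36'
      linarith
    · refine hweak N hN (E + K * 5 ^ d) ?_ ?_ _ ?_ ?_ _ _ _ hfamS G' ?_ ?_ ?_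
      · rw [hEdef]; unfold bsgNat; omega
      · push_cast
        rw [← hx]
        linarith
      · positivity
      · rw [one_div_div]
        push_cast
        have hE0 : (0:ℝ) ≤ E := Nat.cast_nonneg E
        calc ((K:ℝ) + 1) * (E + 1) / κ1 = (K + 1) / κ1 * (E + 1) := by ring
          _ ≤ (K + 1) / κ1 * (E + K * 5 ^ d + 1) := by gcongr; linarith
      · intro i
        exact (Finset.mem_filter.1 i.2).2
      · have h3 : (G'.card : ℝ) ≤ Fintype.card ι := by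
          have h4 : G'.card ≤ Fintype.card ι :=
            (Finset.card_le_card hG'G).trans Finset.card_image_le
          exact_mod_cast h4
        have h4 := card_le hN θ hfam.overlap
        have h5 : (0:ℝ) ≤ E * N ^ d := by positivity
        push_cast
        linarith
      · exact hG'2.trans (Nat.mul_le_mul_right _ (Nat.le_add_right _ _))

end Pool.Agent.MPac5134
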