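import Pool.Agent.Lib.MP_ac5134_an.AddMult

/-!
Volume of the part of a tube over a set of heights.
-/

namespace Pool.Agent.MPac5134

open MeasureTheory
open scoped ENNReal InnerProductSpace

variable {d : ℕ} {ι : Type*}

/-- sheared set over a measurable set of heights -/
theorem volume_shearSet_le (φ : ℝ → Fin d → ℝ) (hφ : Continuous φ) {F : Set ℝ}
    (hF : MeasurableSet F) {R : ℝ} :
    volume {x : Sp d | x (Fin.last d) ∈ F ∧ ∀ k : Fin d,
      |x k.castSucc - φ (x (Fin.last d)) k| ≤ R} ≤ volume F * ENNReal.ofReal (2 * R) ^ d := by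
  have h3 := PiLp.volume_preserving_ofLp (Fin (d + 1))
  have h4 := volume_preserving_piFinSuccAbove (fun _ : Fin (d + 1) => ℝ) (Fin.last d)
  have h := h4.comp h3
  set S : Set (ℝ × (Fin d → ℝ)) := {q | q.1 ∈ F ∧ ∀ k, |q.2 k - φ q.1 k| ≤ R}
    with hS
  have hSm : MeasurableSet S := by
    have h1 : MeasurableSet {q : ℝ × (Fin d → ℝ) | q.1 ∈ F} := measurable_fst hF
    have h2 : MeasurableSet {q : ℝ × (Fin d → ℝ) | ∀ k, |q.2 k - φ q.1 k| ≤ R} := by
      have : {q : ℝ × (Fin d → ℝ) | ∀ k, |q.2 k - φ q.1 k| ≤ R} =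
          ⋂ k, {q | |q.2 k - φ q.1 k| ≤ R} := by ext; simp
      rw [this]
      refine MeasurableSet.iInter fun k => ?_
      have hc : Continuous fun q : ℝ × (Fin d → ℝ) => |q.2 k - φ q.1 k| := by
        have : Continuous fun q : ℝ × (Fin d → ℝ) => φ q.1 := hφ.comp continuous_fst
        fun_prop
      exact (isClosed_le hc continuous_const).measurableSet
    exact h1.inter h2
  have hset : {x : Sp d | x (Fin.last d) ∈ F ∧ ∀ k : Fin d,
      |x k.castSucc - φ (x (Fin.last d)) k| ≤ R} =
      ((MeasurableEquiv.piFinSuccAbove (fun _ : Fin (d + 1) => ℝ) (Fin.last d)) ∘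
        @WithLp.ofLp 2 (Fin (d + 1) → ℝ)) ⁻¹' S := by
    ext x
    simp only [hS, Set.mem_preimage, Function.comp_apply, Set.mem_ofPred_eq,
      MeasurableEquiv.piFinSuccAbove_apply, Fin.insertNthEquiv_symm_apply, Fin.removeNth_apply,
      Fin.succAbove_last]
  rw [hset, h.measure_preimage hSm.nullMeasurableSet]
  have hvol : (volume : Measure (ℝ × (Fin d → ℝ))) = (volume : Measure ℝ).prod volume := rfl
  rw [hvol, Measure.prod_apply hSm]
  have hslice : ∀ t, volume (Prod.mk t ⁻¹' S) ≤
      F.indicator (fun _ => ENNReal.ofReal (2 * R) ^ d) t := by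
    intro t
    by_cases ht : t ∈ F
    · rw [Set.indicator_of_mem ht]
      have hsub : Prod.mk t ⁻¹' S ⊆ Set.Icc (fun k => φ t k - R) (fun k => φ t k + R) := by
        intro y hy
        have hy2 : ∀ k, |y k - φ t k| ≤ R := hy.2
        constructor
        · intro k
          have := (abs_le.1 (hy2 k)).1
          simp only; linarith
        · intro k
          have := (abs_le.1 (hy2 k)).2
          simp only; linarith
      refine (measure_mono hsub).trans ?_
      rw [Real.volume_Icc_pi]
      have e : ∀ k : Fin d, φ t k + R - (φ t k - R) = 2 * R := by intro k; ring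
      simp_rw [e]
      simp
    · rw [Set.indicator_of_notMem ht]
      have : Prod.mk t ⁻¹' S = ∅ := by
        ext y
        simp only [Set.mem_preimage, Set.mem_empty_iff_false, iff_false]
        intro hy
        exact ht hy.1
      rw [this, measure_empty]
  refine (lintegral_mono hslice).trans ?_
  rw [lintegral_indicator_const hF, mul_comm]

/-- the part of a tube over a set of heights -/
theorem volume_tube_inter_le {N : ℝ} (hN : 1 ≤ N) (θ : Cap d) (c : Sp d) {E : Set ℝ}
    (hE : MeasurableSet E) (t : ℝ) :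
    volume (tube N θ c ∩ {x : Sp d | x (Fin.last d) / N ^ 2 - t ∈ E}) ≤
      ENNReal.ofReal (N ^ 2) * volume E * ENNReal.ofReal (3 * d * N) ^ d := by
  have hN2 : 0 < N ^ 2 := by positivity
  set F : Set ℝ := {τ : ℝ | τ / N ^ 2 - t ∈ E} with hF
  have hFm : MeasurableSet F := by
    have hm : Measurable fun τ : ℝ => τ / N ^ 2 - t := by fun_prop
    exact hm hE
  have hFv : volume F = ENNReal.ofReal (N ^ 2) * volume E := by
    have e1 : F = ((N ^ 2)⁻¹ * ·) ⁻¹' ((fun u : ℝ => u + (-t)) ⁻¹' E) := by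
      ext τ
      simp only [hF, Set.mem_preimage, Set.mem_ofPred_eq]
      rw [div_eq_inv_mul, sub_eq_add_neg]
    rw [e1, Real.volume_preimage_mul_left (by positivity), measure_preimage_add_right, inv_inv,
      abs_of_pos hN2]
  have hsub : tube N θ c ∩ {x : Sp d | x (Fin.last d) / N ^ 2 - t ∈ E} ⊆
      {x : Sp d | x (Fin.last d) ∈ F ∧ ∀ k : Fin d, |x k.castSucc -
        (fun (τ : ℝ) (k : Fin d) => c k.castSucc - 2 * θ.foot k * (τ - c (Fin.last d)))
          (x (Fin.last d)) k| ≤ 3 * d * N / 2} := by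
    rintro x ⟨hx1, hx2⟩
    refine ⟨hx2, fun k => ?_⟩
    have h1 := tube_functional (by linarith) θ c hx1 k
    rw [PiLp.sub_apply, PiLp.sub_apply] at h1
    have e : x k.castSucc - (c k.castSucc - 2 * θ.foot k * (x (Fin.last d) - c (Fin.last d))) =
        x k.castSucc - c k.castSucc + 2 * θ.foot k * (x (Fin.last d) - c (Fin.last d)) := by ring
    simp only
    rw [e]; exact h1
  refine (measure_mono hsub).trans ?_
  have hφ : Continuous (fun (τ : ℝ) (k : Fin d) =>
      c k.castSucc - 2 * θ.foot k * (τ - c (Fin.last d))) := by fun_prop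
  refine (volume_shearSet_le _ hφ hFm).trans ?_
  rw [hFv]
  have e2 : 2 * (3 * (d:ℝ) * N / 2) = 3 * d * N := by ring
  rw [e2]

end Pool.Agent.MPac5134
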