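import Mathlib

/-!
Integer vectors, quadratic forms and the one-parameter family of forms used for tube families with
additive structure.
-/

namespace Pool.Agent.MPac5134.Lat

open Matrix

/-- an integer vector as a real vector -/
def rv {ι : Type*} (n : ι → ℤ) : ι → ℝ := fun i => (n i : ℝ)

/-- the value of the quadratic form with matrix `Q` at an integer vector -/
def qf {r : ℕ} (Q : Matrix (Fin r) (Fin r) ℝ) (n : Fin r → ℤ) : ℝ := rv n ⬝ᵥ (Q *ᵥ rv n)

/-- the form `A + (X₀ - s X₁)ᵀ (X₀ - s X₁)` -/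
def formAt {r d : ℕ} (A : Matrix (Fin r) (Fin r) ℝ) (X₀ X₁ : Matrix (Fin d) (Fin r) ℝ) (s : ℝ) :
    Matrix (Fin r) (Fin r) ℝ := A + (X₀ - s • X₁)ᵀ * (X₀ - s • X₁)

theorem rv_add {ι : Type*} (m n : ι → ℤ) : rv (m + n) = rv m + rv n := by
  funext i; simp [rv]

theorem rv_sub {ι : Type*} (m n : ι → ℤ) : rv (m - n) = rv m - rv n := by
  funext i; simp [rv]

theorem rv_neg {ι : Type*} (n : ι → ℤ) : rv (-n) = -rv n := by
  funext i; simp [rv]

theorem qf_add {r : ℕ} (P Q : Matrix (Fin r) (Fin r) ℝ) (n : Fin r → ℤ) :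
    qf (P + Q) n = qf P n + qf Q n := by
  unfold qf; rw [add_mulVec, dotProduct_add]

theorem qf_transpose_mul {r d : ℕ} (X : Matrix (Fin d) (Fin r) ℝ) (n : Fin r → ℤ) :
    qf (Xᵀ * X) n = ∑ i, (X *ᵥ rv n) i ^ 2 := by
  unfold qf
  rw [← mulVec_mulVec, dotProduct_mulVec, vecMul_transpose, dotProduct]
  exact Finset.sum_congr rfl fun i _ => by ring

end Pool.Agent.MPac5134.Lat
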