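import Pool.Agent.Lib.MP_ac5134_an.Ratio

/-!
Passage to `L^p` norms.
-/

namespace Pool.Agent.MPac5134

open MeasureTheory
open scoped ENNReal InnerProductSpace

variable {d : ℕ} {ι : Type*} [Fintype ι]

theorem enorm_mult (N : ℝ) (θ : ι → Cap d) (c : ι → Sp d) (x : Sp d) :
    ‖mult N θ c x‖ₑ = ENNReal.ofReal (mult N θ c x) := by
  rw [← ofReal_norm, Real.norm_of_nonneg (mult_nonneg N θ c x)]

theorem eLpNorm_mult (N : ℝ) (θ : ι → Cap d) (c : ι → Sp d) {p : ℝ≥0∞} (hp0 : p ≠ 0)
    (hpt : p ≠ ⊤) :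
    eLpNorm (mult N θ c) p volume =
      (∫⁻ x, ENNReal.ofReal (mult N θ c x ^ p.toReal)) ^ (1 / p.toReal) := by
  rw [eLpNorm_eq_lintegral_rpow_enorm_toReal hp0 hpt]
  congr 1
  apply lintegral_congr
  intro x
  rw [enorm_mult, ENNReal.ofReal_rpow_of_nonneg (mult_nonneg N θ c x) ENNReal.toReal_nonneg]

theorem eLpNorm_top_le (N : ℝ) (θ : ι → Cap d) (c : ι → Sp d) :
    eLpNorm (mult N θ c) ⊤ volume ≤ ENNReal.ofReal (Fintype.card ι) := by
  rw [eLpNorm_exponent_top]
  apply eLpNormEssSup_le_of_ae_bound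
  filter_upwards with x
  rw [Real.norm_of_nonneg (mult_nonneg N θ c x)]
  exact mult_le_card N θ c x

theorem eLpNorm_top_ge {N : ℝ} (hN : 1 ≤ N) (θ : ι → Cap d) :
    ENNReal.ofReal (Fintype.card ι) ≤ eLpNorm (mult N θ (fun _ => 0)) ⊤ volume := by
  have hN0 : 0 < N := by linarith
  -- Chebyshev type argument through powers is avoided: use a ball where the function is maximal
  rw [eLpNorm_exponent_top]
  by_contra hcon
  rw [not_le] at hcon
  -- almost everywhere the function is smaller than the number of tubes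
  have hae : ∀ᵐ x : Sp d ∂volume, ‖mult N θ (fun _ => 0) x‖ₑ < ENNReal.ofReal (Fintype.card ι) := by
    filter_upwards [ae_le_eLpNormEssSup (f := mult N θ (fun _ => 0)) (μ := volume)] with x hx
    exact lt_of_le_of_lt hx hcon
  have hball : ∀ x : Sp d, ‖x‖ < N / 2 → mult N θ (fun _ => 0) x = Fintype.card ι := by
    intro x hn
    unfold mult
    have : ∀ i, (tube N (θ i) 0).indicator (fun _ => (1:ℝ)) x = 1 := by
      intro i
      apply Set.indicator_of_mem
      refine ⟨fun j => ?_, ?_⟩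
      · rw [sub_zero]
        exact (abs_inner_le_norm _ x _).trans hn.le
      · rw [sub_zero]
        refine (abs_inner_le_norm _ x _).trans (hn.le.trans ?_)
        have : N ≤ N ^ 2 := by nlinarith
        linarith
    simp_rw [this]
    simp
  have hzero : volume (Metric.ball (0 : Sp d) (N / 2)) = 0 := by
    apply measure_mono_null _ hae
    intro x hx
    have hx' : ‖x‖ < N / 2 := by simpa using hx
    simp only [Set.mem_compl_iff, Set.mem_ofPred_eq, not_lt]
    rw [enorm_mult, hball x hx']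
  have hpos : 0 < volume (Metric.ball (0 : Sp d) (N / 2)) :=
    Metric.measure_ball_pos volume 0 (by linarith)
  exact hpos.ne' hzero

theorem norm_of_ratio {N C a : ℝ} (hC : 1 ≤ C) (ha : 0 ≤ a) (θ : ι → Cap d)
    (c : ι → Sp d) {L : ℝ} (hL : 1 ≤ L) {p : ℝ≥0∞} (hp1 : 1 ≤ p) (hpt : p ≠ ⊤)
    (h : ∫⁻ x, ENNReal.ofReal ((mult N θ c x) ^ p.toReal) ≤
        ENNReal.ofReal (C * L ^ a) *
          ∫⁻ x, ENNReal.ofReal ((mult N θ (fun _ => 0) x) ^ p.toReal)) :
    eLpNorm (mult N θ c) p volume ≤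
      ENNReal.ofReal (C * L ^ (a / p.toReal)) * eLpNorm (mult N θ (fun _ => 0)) p volume := by
  have hp0 : p ≠ 0 := (zero_lt_one.trans_le hp1).ne'
  have hr1 : 1 ≤ p.toReal := by
    have := ENNReal.toReal_mono hpt hp1
    simpa using this
  have hr0 : 0 < p.toReal := by linarith
  rw [eLpNorm_mult N θ c hp0 hpt, eLpNorm_mult N θ _ hp0 hpt]
  have h1 := ENNReal.rpow_le_rpow h (z := 1 / p.toReal) (by positivity)
  refine h1.trans ?_
  rw [ENNReal.mul_rpow_of_nonneg _ _ (by positivity)]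
  gcongr
  rw [ENNReal.ofReal_rpow_of_nonneg (by positivity) (by positivity)]
  apply ENNReal.ofReal_le_ofReal
  rw [Real.mul_rpow (by linarith) (by positivity), ← Real.rpow_mul (by linarith)]
  have e1 : a * (1 / p.toReal) = a / p.toReal := by ring
  rw [e1]
  apply mul_le_mul_of_nonneg_right _ (by positivity)
  calc C ^ (1 / p.toReal) ≤ C ^ (1:ℝ) := by
        apply Real.rpow_le_rpow_of_exponent_le hC
        rw [div_le_one hr0]; exact hr1
    _ = C := Real.rpow_one C

end Pool.Agent.MPac5134
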