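import Pool.Agent.Lib.MP_ac5134_an.Ratio
import Pool.Agent.Lib.MP_ac5134_an.Norms

/-!
A weak type `(1 + 1/d)` estimate implies the comparison with the centred tubes for all exponents.
-/

namespace Pool.Agent.MPac5134

open MeasureTheory Set
open scoped ENNReal InnerProductSpace

variable {d : ℕ} {ι : Type*} [Fintype ι]

/-- the weak type estimate with constant `W` -/
def WeakBound (N W : ℝ) (θ : ι → Cap d) (c : ι → Sp d) : Prop :=
  ∀ lam : ℝ, 0 < lam → volume {x : Sp d | lam < mult N θ c x} ≤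
    ENNReal.ofReal (W * N ^ (2 * d + 2) * lam ^ (-(1 + 1 / (d:ℝ))))

theorem mult_ge_one {N : ℝ} {θ : ι → Cap d} {c : ι → Sp d} {x : Sp d}
    (h : 0 < mult N θ c x) : 1 ≤ mult N θ c x := by
  classical
  have h1 : mult N θ c x = ((Finset.univ.filter fun i => x ∈ tube N (θ i) (c i)).card : ℝ) := by
    unfold mult
    rw [Finset.card_filter]
    push_cast
    apply Finset.sum_congr rfl
    intro i _
    rw [indicator_apply]
  rw [h1] at h ⊢
  have h2 : 0 < (Finset.univ.filter fun i => x ∈ tube N (θ i) (c i)).card := by exact_mod_cast h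
  exact_mod_cast h2

theorem geo_add_le' {s : ℝ} (hs2 : s ≤ 2) {T : ℕ} (hT : 0 < T) (u : ℕ) :
    geo s (T + u) ≤ (1 + u * 2 ^ u) * geo s T := by
  set q : ℝ := (2:ℝ) ^ (s - 1) with hq
  have hq0 : 0 ≤ q := by positivity
  have hq2 : q ≤ 2 := by
    calc q ≤ (2:ℝ) ^ (1:ℝ) := Real.rpow_le_rpow_of_exponent_le (by norm_num) (by linarith)
      _ = 2 := Real.rpow_one 2
  unfold geo
  rw [← hq, Finset.sum_range_add]
  obtain ⟨T', rfl⟩ : ∃ T', T = T' + 1 := ⟨T - 1, by omega⟩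
  have hlast : q ^ T' ≤ ∑ i ∈ Finset.range (T' + 1), q ^ i :=
    Finset.single_le_sum (f := fun i => q ^ i) (fun i _ => by positivity)
      (Finset.mem_range.2 (Nat.lt_succ_self T'))
  have h1 : ∑ x ∈ Finset.range u, q ^ (T' + 1 + x) ≤
      u * 2 ^ u * ∑ i ∈ Finset.range (T' + 1), q ^ i := by
    calc _ ≤ ∑ _x ∈ Finset.range u, (2:ℝ) ^ u * ∑ i ∈ Finset.range (T' + 1), q ^ i := by
          apply Finset.sum_le_sum
          intro x hx
          have hx' := Finset.mem_range.1 hx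
          calc q ^ (T' + 1 + x) = q ^ (x + 1) * q ^ T' := by ring
            _ ≤ 2 ^ (x + 1) * q ^ T' := by gcongr
            _ ≤ 2 ^ u * q ^ T' := by
                gcongr
                · norm_num
                · omega
            _ ≤ _ := by gcongr
      _ = _ := by rw [Finset.sum_const, Finset.card_range, nsmul_eq_mul]; ring
  rw [add_mul, one_mul]
  gcongr

theorem geo_compare' {N : ℝ} (hN : 3 * ((d:ℝ) + 1) ≤ N) {s : ℝ} (hs2 : s ≤ 2) (v : ℕ) :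
    ∃ T : ℕ, (∀ i < T, 3 * ((d:ℝ) + 1) * 2 ^ i ≤ N) ∧
      geo s (Nat.log 2 ⌊N⌋₊ + 3 + v) ≤ (1 + (d + 5 + v : ℕ) * 2 ^ (d + 5 + v)) * geo s T := by
  have hd0 : (0:ℝ) ≤ d := Nat.cast_nonneg d
  have hb : (0:ℝ) < 3 * ((d:ℝ) + 1) := by positivity
  have hN0 : 0 < N := lt_of_lt_of_le hb hN
  set M : ℕ := ⌊N / (3 * ((d:ℝ) + 1))⌋₊ with hM
  have hM1 : 1 ≤ M := Nat.le_floor (by rw [Nat.cast_one, le_div_iff₀ hb]; linarith)
  have hMle : (M:ℝ) ≤ N / (3 * ((d:ℝ) + 1)) := Nat.floor_le (by positivity)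
  have hMlt : N / (3 * ((d:ℝ) + 1)) < M + 1 := Nat.lt_floor_add_one _
  refine ⟨Nat.log 2 M + 1, ?_, ?_⟩
  · intro i hi
    have h1 : 2 ^ i ≤ M := by
      calc 2 ^ i ≤ 2 ^ Nat.log 2 M := Nat.pow_le_pow_right (by norm_num) (by omega)
        _ ≤ M := Nat.pow_log_le_self 2 (by omega)
    have h2 : (2:ℝ) ^ i ≤ M := by exact_mod_cast h1
    calc 3 * ((d:ℝ) + 1) * 2 ^ i ≤ 3 * ((d:ℝ) + 1) * (N / (3 * ((d:ℝ) + 1))) := by
          gcongr
          exact h2.trans hMle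
      _ = N := by field_simp
  · have hlog : Nat.log 2 ⌊N⌋₊ + 3 + v ≤ (Nat.log 2 M + 1) + (d + 5 + v) := by
      have h2 : N < 3 * ((d:ℝ) + 1) * (M + 1) := by
        rw [div_lt_iff₀ hb] at hMlt
        linarith
      have h1 : M + 1 ≤ 2 ^ (Nat.log 2 M + 1) := Nat.lt_pow_succ_log_self (by norm_num) M
      have h3 : ⌊N⌋₊ < 3 * (d + 1) * (M + 1) := by
        have : (⌊N⌋₊ : ℝ) ≤ N := Nat.floor_le hN0.le
        have h4 : (⌊N⌋₊ : ℝ) < ((3 * (d + 1) * (M + 1) : ℕ) : ℝ) := by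
          push_cast; linarith
        exact_mod_cast h4
      have h5 : ⌊N⌋₊ < 2 ^ (d + 3 + (Nat.log 2 M + 1)) := by
        calc ⌊N⌋₊ < 3 * (d + 1) * (M + 1) := h3
          _ ≤ 2 ^ (d + 3) * 2 ^ (Nat.log 2 M + 1) :=
            Nat.mul_le_mul (three_mul_le_two_pow d) h1
          _ = _ := by rw [← pow_add]
      have h6 : Nat.log 2 ⌊N⌋₊ < d + 3 + (Nat.log 2 M + 1) :=
        Nat.log_lt_of_lt_pow (by
          have : 1 ≤ ⌊N⌋₊ := Nat.le_floor (by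
            rw [Nat.cast_one]; nlinarith)
          omega) h5
      omega
    have hmono : geo s (Nat.log 2 ⌊N⌋₊ + 3 + v) ≤ geo s ((Nat.log 2 M + 1) + (d + 5 + v)) := by
      unfold geo
      apply Finset.sum_le_sum_of_subset_of_nonneg
      · exact Finset.range_mono hlog
      · intro i _ _; positivity
    exact hmono.trans (geo_add_le' hs2 (by omega) (d + 5 + v))

/-- contribution of one shell, for all `s ≥ 0` -/
theorem shell_lower' (hd : 0 < d) {N κ : ℝ} (hN : 1 ≤ N) (hκ : 0 < κ) (θ : ι → Cap d)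
    (hcard : κ * N ^ d ≤ Fintype.card ι) {s : ℝ} (hs0 : 0 ≤ s) (i : ℕ)
    (hi : 3 * (d + 1) * 2 ^ i ≤ N) :
    ENNReal.ofReal ((κ / 12) * (κ / 4 ^ (d + 2)) ^ (s / d) * N ^ (2 * d + 2) *
      ((2:ℝ) ^ (s - 1)) ^ i) ≤
      ∫⁻ x in shell d (N ^ 2 / (3 * 2 ^ i)),
        ENNReal.ofReal (mult N θ (fun _ => 0) x ^ (1 + s / (d:ℝ))) := by
  have hN0 : 0 < N := by linarith
  have hd' : (0:ℝ) < d := by exact_mod_cast hd
  set u : ℝ := 3 * 2 ^ i with hu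
  have hu0 : 0 < u := by positivity
  set r : ℝ := N ^ 2 / u with hr
  have hr0 : 0 < r := by positivity
  have hr1 : (d + 1) * N ≤ r := by
    rw [hr, le_div_iff₀ hu0]
    calc (d + 1) * N * u = (3 * (d + 1) * 2 ^ i) * N := by rw [hu]; ring
      _ ≤ N * N := by gcongr
      _ = N ^ 2 := by ring
  have hr2 : 3 * r ≤ N ^ 2 := by
    rw [hr, hu]
    have h1 : (1:ℝ) ≤ 2 ^ i := one_le_pow₀ (by norm_num)
    rw [mul_div_assoc', div_le_iff₀ (by positivity)]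
    nlinarith [sq_nonneg N]
  set X : ℝ := κ * N ^ d * (N ^ d * (r / 2)) with hX
  set Y : ℝ := (4 * r) ^ (d + 1) with hY
  have hXpos : 0 < X := by positivity
  have hYpos : 0 < Y := by positivity
  have h1 : ENNReal.ofReal X ≤
      ∫⁻ x in shell d r, ENNReal.ofReal (mult N θ (fun _ => 0) x) := by
    refine le_trans ?_ (shell_mass hN hr1 hr2 θ)
    apply ENNReal.ofReal_le_ofReal
    rw [hX]
    gcongr
  have h2 := lintegral_rpow_lower (mult_nonneg N θ (fun _ => 0)) (measurable_mult N θ _)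
    hXpos hYpos (p := 1 + s / (d:ℝ)) (by have : 0 ≤ s / (d:ℝ) := by positivity
                                         linarith) h1 (volume_shell_le hr0.le)
  refine le_trans ?_ h2
  apply ENNReal.ofReal_le_ofReal
  have e1 : X / (2 * Y) = (κ / 4 ^ (d + 2)) * u ^ d := by
    have hru : N ^ 2 = r * u := by rw [hr]; field_simp
    have hNN : N ^ d * N ^ d = r ^ d * u ^ d := by
      rw [← mul_pow, ← mul_pow, ← hru]; ring
    have hX' : X = κ * (r ^ d * u ^ d) * (r / 2) := by rw [hX, ← hNN]; ring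
    rw [hX', hY, mul_pow, div_mul_eq_mul_div, div_eq_div_iff (by positivity) (by positivity)]
    ring_nf
  have e2 : (1 + s / (d:ℝ)) - 1 = s / d := by ring
  have e3 : (u ^ d) ^ (s / (d:ℝ)) = u ^ s := by
    rw [← Real.rpow_natCast, ← Real.rpow_mul hu0.le]
    congr 1
    field_simp
  rw [e1, e2, Real.mul_rpow (by positivity) (by positivity), e3]
  have e4 : X / 2 = (κ / 4) * N ^ (2 * d + 2) / u := by
    rw [hX, hr]
    field_simp
    ring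
  rw [e4]
  have e5 : u ^ s = u ^ (s - 1) * u := by
    rw [← Real.rpow_add_one hu0.ne']; congr 1; ring
  have e6 : ((2:ℝ) ^ (s - 1)) ^ i ≤ 3 * u ^ (s - 1) := by
    have e7 : ((2:ℝ) ^ (s - 1)) ^ i = ((2:ℝ) ^ i) ^ (s - 1) := by
      rw [← Real.rpow_natCast, ← Real.rpow_natCast, ← Real.rpow_mul (by norm_num),
        ← Real.rpow_mul (by norm_num), mul_comm]
    rw [e7, hu, Real.mul_rpow (by norm_num) (by positivity)]
    have e8 : (1:ℝ) ≤ 3 * 3 ^ (s - 1) := by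
      have e9 : (3:ℝ) * 3 ^ (s - 1) = 3 ^ s := by
        rw [mul_comm, ← Real.rpow_add_one (by norm_num)]; congr 1; ring
      rw [e9]
      exact Real.one_le_rpow (by norm_num) hs0
    have e10 : 0 ≤ ((2:ℝ) ^ i) ^ (s - 1) := by positivity
    nlinarith
  rw [e5]
  calc (κ / 12) * (κ / 4 ^ (d + 2)) ^ (s / (d:ℝ)) * N ^ (2 * d + 2) * ((2:ℝ) ^ (s - 1)) ^ i
      ≤ (κ / 12) * (κ / 4 ^ (d + 2)) ^ (s / (d:ℝ)) * N ^ (2 * d + 2) * (3 * u ^ (s - 1)) := by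
        gcongr
    _ = (κ / 4 ^ (d + 2)) ^ (s / (d:ℝ)) * (u ^ (s - 1) * u) *
        ((κ / 4) * N ^ (2 * d + 2) / u) := by
        field_simp
        ring

/-- sum over the shells, for all `s ≥ 0` -/
theorem shells_lower' (hd : 0 < d) {N κ : ℝ} (hN : 1 ≤ N) (hκ : 0 < κ) (θ : ι → Cap d)
    (hcard : κ * N ^ d ≤ Fintype.card ι) {s : ℝ} (hs0 : 0 ≤ s) (T : ℕ)
    (hT : ∀ i < T, 3 * ((d:ℝ) + 1) * 2 ^ i ≤ N) :
    ENNReal.ofReal ((κ / 12) * (κ / 4 ^ (d + 2)) ^ (s / d) * N ^ (2 * d + 2) * geo s T) ≤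
      ∫⁻ x, ENNReal.ofReal (mult N θ (fun _ => 0) x ^ (1 + s / (d:ℝ))) := by
  have hN0 : 0 < N := by linarith
  set F : Sp d → ℝ≥0∞ := fun x => ENNReal.ofReal (mult N θ (fun _ => 0) x ^ (1 + s / (d:ℝ)))
    with hF
  have hdisj : Set.PairwiseDisjoint (Finset.range T : Set ℕ)
      (fun i => shell d (N ^ 2 / (3 * 2 ^ i))) := by
    have key : ∀ i j : ℕ, i < j → Disjoint (shell d (N ^ 2 / (3 * 2 ^ i)))
        (shell d (N ^ 2 / (3 * 2 ^ j))) := by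
      intro i j hij
      rw [Set.disjoint_left]
      rintro x ⟨h1, _⟩ ⟨_, h4⟩
      have h5 : 2 * (N ^ 2 / (3 * 2 ^ j)) ≤ N ^ 2 / (3 * 2 ^ i) := by
        have h6 : (2:ℝ) ^ (i + 1) ≤ 2 ^ j := pow_le_pow_right₀ (by norm_num) hij
        rw [mul_div_assoc', div_le_div_iff₀ (by positivity) (by positivity)]
        have : 2 * N ^ 2 * (3 * 2 ^ i) = 3 * N ^ 2 * 2 ^ (i + 1) := by ring
        rw [this]
        calc 3 * N ^ 2 * 2 ^ (i + 1) ≤ 3 * N ^ 2 * 2 ^ j := by gcongr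
          _ = _ := by ring
      linarith
    intro i _ j _ hij
    rcases lt_or_gt_of_ne hij with h | h
    · exact key i j h
    · exact (key j i h).symm
  calc ENNReal.ofReal ((κ / 12) * (κ / 4 ^ (d + 2)) ^ (s / (d:ℝ)) * N ^ (2 * d + 2) * geo s T)
      = ∑ i ∈ Finset.range T, ENNReal.ofReal ((κ / 12) * (κ / 4 ^ (d + 2)) ^ (s / (d:ℝ)) *
          N ^ (2 * d + 2) * ((2:ℝ) ^ (s - 1)) ^ i) := by
        rw [← ENNReal.ofReal_sum_of_nonneg (fun i _ => by positivity), ← Finset.mul_sum]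
        rfl
    _ ≤ ∑ i ∈ Finset.range T, ∫⁻ x in shell d (N ^ 2 / (3 * 2 ^ i)), F x := by
        apply Finset.sum_le_sum
        intro i hi
        exact shell_lower' hd hN hκ θ hcard hs0 i (hT i (Finset.mem_range.1 hi))
    _ = ∫⁻ x in ⋃ i ∈ Finset.range T, shell d (N ^ 2 / (3 * 2 ^ i)), F x := by
        rw [lintegral_biUnion_finset hdisj (fun i _ => measurableSet_shell _)]
    _ ≤ ∫⁻ x, F x := setLIntegral_le_lintegral _ _

/-- number of dyadic levels -/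
theorem card_le_level {K : ℕ} {N : ℝ} (hN : 1 ≤ N) (θ : ι → Cap d)
    (hK : ∀ z : Fin d → ℤ, ∀ s : Finset ι, (∀ i ∈ s, cell N (θ i) = z) → s.card ≤ K)
    (hd : 0 < d) :
    (Fintype.card ι : ℝ) ≤ ((2:ℝ) ^ (Nat.log 2 ⌊N⌋₊ + K + 4)) ^ d := by
  have h1 := card_le hN θ hK
  have hN0 : 0 < N := by linarith
  have h2 : N ≤ 2 ^ (Nat.log 2 ⌊N⌋₊ + 1) := by
    have h3 : ⌊N⌋₊ < 2 ^ (Nat.log 2 ⌊N⌋₊ + 1) := Nat.lt_pow_succ_log_self (by norm_num) _
    have h4 : ⌊N⌋₊ + 1 ≤ 2 ^ (Nat.log 2 ⌊N⌋₊ + 1) := h3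
    have h5 : N < ⌊N⌋₊ + 1 := Nat.lt_floor_add_one N
    have h6 : ((⌊N⌋₊ + 1 : ℕ) : ℝ) ≤ ((2 ^ (Nat.log 2 ⌊N⌋₊ + 1) : ℕ) : ℝ) := by exact_mod_cast h4
    push_cast at h6
    linarith
  have h3 : (K:ℝ) ≤ ((2:ℝ) ^ K) ^ d := by
    have h4 : K < 2 ^ K := Nat.lt_two_pow_self
    have h5 : (K:ℝ) ≤ 2 ^ K := by exact_mod_cast h4.le
    calc (K:ℝ) ≤ 2 ^ K := h5
      _ ≤ ((2:ℝ) ^ K) ^ d := le_self_pow₀ (one_le_pow₀ (by norm_num)) (by omega)
  calc (Fintype.card ι : ℝ) ≤ K * 5 ^ d * N ^ d := h1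
    _ ≤ ((2:ℝ) ^ K) ^ d * (2 ^ 3) ^ d * (2 ^ (Nat.log 2 ⌊N⌋₊ + 1)) ^ d := by
        gcongr
        norm_num
    _ = _ := by
        rw [← mul_pow, ← mul_pow, ← pow_add, ← pow_add]
        congr 2
        omega

/-- The upper bound for `∫ f^p`, `p = 1 + s/d`, from the weak type estimate. -/
theorem upper_of_weak (hd : 0 < d) {K : ℕ} {N W : ℝ} (hN : 1 ≤ N) (hW : 1 ≤ W) (θ : ι → Cap d)
    (c : ι → Sp d)
    (hK : ∀ z : Fin d → ℤ, ∀ s : Finset ι, (∀ i ∈ s, cell N (θ i) = z) → s.card ≤ K)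
    (hw : WeakBound N W θ c) {s : ℝ} (hs0 : 0 ≤ s) :
    ∫⁻ x, ENNReal.ofReal (mult N θ c x ^ (1 + s / (d:ℝ))) ≤
      ENNReal.ofReal (2 * (K * 5 ^ d + 2 ^ (d + 1)) * W ^ (min s 1) * N ^ (2 * d + 2) *
        geo s (Nat.log 2 ⌊N⌋₊ + 3 + (K + 2))) := by
  have hN0 : 0 < N := by linarith
  have hW0 : 0 < W := by linarith
  have hd' : (0:ℝ) < d := by exact_mod_cast hd
  set p : ℝ := 1 + s / (d:ℝ) with hp
  have hp1 : 1 ≤ p := by
    have : 0 ≤ s / (d:ℝ) := by positivity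
    linarith
  have hdp : (d:ℝ) * p = d + s := by rw [hp]; field_simp
  set J : ℕ := Nat.log 2 ⌊N⌋₊ + K + 4 with hJ
  -- the cut
  obtain ⟨j0, hj0, hj0'⟩ : ∃ j0 : ℕ, W ≤ (2:ℝ) ^ j0 ∧ (2:ℝ) ^ j0 ≤ 2 * W := by
    refine ⟨Nat.log 2 ⌊W⌋₊ + 1, ?_, ?_⟩
    · have h3 : ⌊W⌋₊ < 2 ^ (Nat.log 2 ⌊W⌋₊ + 1) := Nat.lt_pow_succ_log_self (by norm_num) _
      have h4 : ⌊W⌋₊ + 1 ≤ 2 ^ (Nat.log 2 ⌊W⌋₊ + 1) := h3
      have h5 : W < ⌊W⌋₊ + 1 := Nat.lt_floor_add_one W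
      have h6 : ((⌊W⌋₊ + 1 : ℕ) : ℝ) ≤ ((2 ^ (Nat.log 2 ⌊W⌋₊ + 1) : ℕ) : ℝ) := by exact_mod_cast h4
      push_cast at h6
      linarith
    · have h3 : 2 ^ Nat.log 2 ⌊W⌋₊ ≤ ⌊W⌋₊ := Nat.pow_log_le_self 2 (by
        have : 1 ≤ ⌊W⌋₊ := Nat.le_floor (by simpa using hW)
        omega)
      have h4 : (2:ℝ) ^ Nat.log 2 ⌊W⌋₊ ≤ W := by
        calc (2:ℝ) ^ Nat.log 2 ⌊W⌋₊ ≤ (⌊W⌋₊ : ℝ) := by exact_mod_cast h3
          _ ≤ W := Nat.floor_le hW0.le
      rw [pow_succ]; linarith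
  -- pointwise decomposition; `j0' = 0` when `s ≥ 1`
  have hgeo1 : 1 ≤ geo s (Nat.log 2 ⌊N⌋₊ + 3 + (K + 2)) := one_le_geo s (by omega)
  have hlevel : ∀ x, mult N θ c x ≤ ((2:ℝ) ^ J) ^ d := fun x =>
    (mult_le_card N θ c x).trans (card_le_level hN θ hK hd)
  have key : ∀ l : ℕ, (∫⁻ x, ENNReal.ofReal (mult N θ c x ^ p)) ≤
      ENNReal.ofReal (((2:ℝ) ^ l) ^ s * (K * 5 ^ d * N ^ (2 * d + 2))) +
      ENNReal.ofReal (W * N ^ (2 * d + 2) * 2 ^ (d + 1) *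
        ∑ j ∈ Finset.Ico (l + 1) (J + 1), ((2:ℝ) ^ (s - 1)) ^ j) := by
    intro l
    have hpt : ∀ x, ENNReal.ofReal (mult N θ c x ^ p) ≤
        ENNReal.ofReal (((2:ℝ) ^ l) ^ s) * ENNReal.ofReal (mult N θ c x) +
        ∑ j ∈ Finset.Ico (l + 1) (J + 1),
          {x : Sp d | ((2:ℝ) ^ j) ^ d / 2 ^ d < mult N θ c x}.indicator
            (fun _ => ENNReal.ofReal ((((2:ℝ) ^ j) ^ d) ^ p)) x := by
      intro x
      have h0 := mult_nonneg N θ c x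
      rcases h0.eq_or_lt with hz | hpos
      · rw [← hz, Real.zero_rpow (by linarith)]
        simp
      by_cases hl : mult N θ c x ≤ ((2:ℝ) ^ l) ^ d
      · refine le_trans ?_ (self_le_add_right _ _)
        rw [← ENNReal.ofReal_mul (by positivity)]
        apply ENNReal.ofReal_le_ofReal
        have e1 : mult N θ c x ^ p = mult N θ c x ^ (s / (d:ℝ)) * mult N θ c x := by
          rw [← Real.rpow_add_one hpos.ne', hp]; congr 1; ring
        rw [e1]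
        apply mul_le_mul_of_nonneg_right _ h0
        calc mult N θ c x ^ (s / (d:ℝ)) ≤ (((2:ℝ) ^ l) ^ d) ^ (s / (d:ℝ)) :=
              Real.rpow_le_rpow h0 hl (by positivity)
          _ = ((2:ℝ) ^ l) ^ s := by
              rw [← Real.rpow_natCast ((2:ℝ) ^ l) d, ← Real.rpow_mul (by positivity)]
              congr 1
              field_simp
      · rw [not_le] at hl
        refine le_trans ?_ (self_le_add_left _ _)
        have hex : ∃ j : ℕ, mult N θ c x ≤ ((2:ℝ) ^ j) ^ d := ⟨J, hlevel x⟩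
        classical
        set j := Nat.find hex with hjdef
        have hj1 : mult N θ c x ≤ ((2:ℝ) ^ j) ^ d := Nat.find_spec hex
        have hjJ : j ≤ J := Nat.find_min' hex (hlevel x)
        have hjl : l + 1 ≤ j := by
          by_contra hcon
          have h1 : j ≤ l := by omega
          have h2 : ((2:ℝ) ^ j) ^ d ≤ ((2:ℝ) ^ l) ^ d := by
            gcongr
            norm_num
          linarith
        have hj2 : ((2:ℝ) ^ j) ^ d / 2 ^ d < mult N θ c x := by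
          have h1 : ¬ mult N θ c x ≤ ((2:ℝ) ^ (j - 1)) ^ d := Nat.find_min hex (by omega)
          rw [not_le] at h1
          have h2 : ((2:ℝ) ^ j) ^ d / 2 ^ d = ((2:ℝ) ^ (j - 1)) ^ d := by
            rw [← div_pow]
            congr 1
            obtain ⟨j', hj'⟩ : ∃ j', j = j' + 1 := ⟨j - 1, by omega⟩
            rw [hj', Nat.add_sub_cancel, pow_succ]
            field_simp
          rw [h2]; exact h1
        refine le_trans ?_ (Finset.single_le_sum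
          (f := fun j => {x : Sp d | ((2:ℝ) ^ j) ^ d / 2 ^ d < mult N θ c x}.indicator
            (fun _ => ENNReal.ofReal ((((2:ℝ) ^ j) ^ d) ^ p)) x) (fun _ _ => zero_le)
          (Finset.mem_Ico.2 ⟨hjl, Nat.lt_succ_of_le hjJ⟩))
        rw [indicator_of_mem (by exact hj2)]
        apply ENNReal.ofReal_le_ofReal
        exact Real.rpow_le_rpow h0 hj1 (by linarith)
    refine (lintegral_mono hpt).trans ?_
    rw [lintegral_add_left ((measurable_mult N θ c).ennreal_ofReal.const_mul _),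
      lintegral_const_mul' _ _ ENNReal.ofReal_ne_top, lintegral_mult hN0.le θ c]
    apply add_le_add
    · rw [← ENNReal.ofReal_mul (by positivity)]
      apply ENNReal.ofReal_le_ofReal
      have h1 := card_le hN θ hK
      calc ((2:ℝ) ^ l) ^ s * (Fintype.card ι * N ^ (d + 2))
          ≤ ((2:ℝ) ^ l) ^ s * ((K * 5 ^ d * N ^ d) * N ^ (d + 2)) := by gcongr
        _ = _ := by ring
    · have hms : ∀ j : ℕ, MeasurableSet {x : Sp d | ((2:ℝ) ^ j) ^ d / 2 ^ d < mult N θ c x} :=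
        fun j => measurableSet_lt measurable_const (measurable_mult N θ c)
      rw [lintegral_finsetSum _ fun j _ => measurable_const.indicator (hms j),
        Finset.mul_sum, ENNReal.ofReal_sum_of_nonneg (fun j _ => by positivity)]
      apply Finset.sum_le_sum
      intro j _
      rw [lintegral_indicator_const (hms j)]
      refine (mul_le_mul' le_rfl (hw _ (by positivity))).trans ?_
      rw [← ENNReal.ofReal_mul (by positivity)]
      apply ENNReal.ofReal_le_ofReal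
      apply le_of_eq
      have hb : (0:ℝ) < 2 ^ j := by positivity
      have e1 : (((2:ℝ) ^ j) ^ d) ^ p = ((2:ℝ) ^ j) ^ ((d:ℝ) + s) := by
        rw [← Real.rpow_natCast ((2:ℝ) ^ j) d, ← Real.rpow_mul hb.le, hdp]
      have e2 : (((2:ℝ) ^ j) ^ d / 2 ^ d) ^ (-(1 + 1 / (d:ℝ))) =
          ((2:ℝ) ^ j) ^ (-((d:ℝ) + 1)) * 2 ^ (d + 1) := by
        rw [Real.div_rpow (by positivity) (by positivity), ← Real.rpow_natCast ((2:ℝ) ^ j) d,
          ← Real.rpow_natCast (2:ℝ) d, ← Real.rpow_mul hb.le, ← Real.rpow_mul (by norm_num)]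
        have e3 : (d:ℝ) * -(1 + 1 / (d:ℝ)) = -((d:ℝ) + 1) := by field_simp
        rw [e3, Real.rpow_neg (by norm_num : (0:ℝ) ≤ 2), div_inv_eq_mul]
        congr 1
        have : ((d:ℝ) + 1) = ((d + 1 : ℕ) : ℝ) := by push_cast; ring
        rw [this, Real.rpow_natCast]
      have e4 : ((2:ℝ) ^ (s - 1)) ^ j = ((2:ℝ) ^ j) ^ ((d:ℝ) + s) * ((2:ℝ) ^ j) ^ (-((d:ℝ) + 1)) := by
        rw [← Real.rpow_add hb]
        have : (d:ℝ) + s + -((d:ℝ) + 1) = s - 1 := by ring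
        rw [this, ← Real.rpow_natCast, ← Real.rpow_natCast, ← Real.rpow_mul (by norm_num),
          ← Real.rpow_mul (by norm_num), mul_comm]
      rw [e1, e2, e4]
      ring
  -- conclusion
  set Gm : ℝ := geo s (Nat.log 2 ⌊N⌋₊ + 3 + (K + 2)) with hGm
  have hJe : J + 1 = Nat.log 2 ⌊N⌋₊ + 3 + (K + 2) := by omega
  have hq0 : (0:ℝ) ≤ (2:ℝ) ^ (s - 1) := by positivity
  rcases le_or_gt 1 s with hs1 | hs1
  · -- `s ≥ 1`: no cut
    rw [min_eq_right hs1, Real.rpow_one]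
    refine (key 0).trans ?_
    rw [← ENNReal.ofReal_add (by positivity)
      (mul_nonneg (by positivity) (Finset.sum_nonneg fun _ _ => by positivity))]
    apply ENNReal.ofReal_le_ofReal
    have h1 : ∑ j ∈ Finset.Ico (0 + 1) (J + 1), ((2:ℝ) ^ (s - 1)) ^ j ≤ Gm := by
      rw [hGm, ← hJe]
      unfold geo
      apply Finset.sum_le_sum_of_subset_of_nonneg
      · intro j hj
        rw [Finset.mem_Ico] at hj
        exact Finset.mem_range.2 hj.2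
      · intro i _ _; positivity
    have h2 : (0:ℝ) ≤ K * 5 ^ d * N ^ (2 * d + 2) := by positivity
    calc ((2:ℝ) ^ 0) ^ s * (K * 5 ^ d * N ^ (2 * d + 2)) +
          W * N ^ (2 * d + 2) * 2 ^ (d + 1) *
            ∑ j ∈ Finset.Ico (0 + 1) (J + 1), ((2:ℝ) ^ (s - 1)) ^ j
        ≤ 1 * (K * 5 ^ d * N ^ (2 * d + 2)) * (W * Gm) +
          W * N ^ (2 * d + 2) * 2 ^ (d + 1) * Gm := by
          rw [pow_zero, Real.one_rpow]
          have h3 : 1 ≤ W * Gm := by nlinarith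
          have h4 : 1 * (K * 5 ^ d * N ^ (2 * d + 2)) ≤
              1 * (K * 5 ^ d * N ^ (2 * d + 2)) * (W * Gm) :=
            le_mul_of_one_le_right (by linarith) h3
          have h5 : W * N ^ (2 * d + 2) * 2 ^ (d + 1) *
              ∑ j ∈ Finset.Ico (0 + 1) (J + 1), ((2:ℝ) ^ (s - 1)) ^ j ≤
              W * N ^ (2 * d + 2) * 2 ^ (d + 1) * Gm := by gcongr
          exact add_le_add h4 h5
      _ = 1 * ((K * 5 ^ d + 2 ^ (d + 1)) * W * N ^ (2 * d + 2) * Gm) := by ring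
      _ ≤ 2 * ((K * 5 ^ d + 2 ^ (d + 1)) * W * N ^ (2 * d + 2) * Gm) := by
          gcongr
          norm_num
      _ = _ := by ring
  · -- `s < 1`: cut at `j0`
    rw [min_eq_left hs1.le]
    refine (key j0).trans ?_
    rw [← ENNReal.ofReal_add (by positivity)
      (mul_nonneg (by positivity) (Finset.sum_nonneg fun _ _ => by positivity))]
    apply ENNReal.ofReal_le_ofReal
    have hb0 : (0:ℝ) < 2 ^ j0 := by positivity
    have hWs : ((2:ℝ) ^ j0) ^ s ≤ 2 * W ^ s := by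
      calc ((2:ℝ) ^ j0) ^ s ≤ (2 * W) ^ s := Real.rpow_le_rpow hb0.le hj0' hs0
        _ = 2 ^ s * W ^ s := Real.mul_rpow (by norm_num) hW0.le
        _ ≤ 2 ^ (1:ℝ) * W ^ s := by
            gcongr
            norm_num
        _ = 2 * W ^ s := by rw [Real.rpow_one]
    have h1 : W * ∑ j ∈ Finset.Ico (j0 + 1) (J + 1), ((2:ℝ) ^ (s - 1)) ^ j ≤
        ((2:ℝ) ^ j0) ^ s * Gm := by
      have h2 : ∑ j ∈ Finset.Ico (j0 + 1) (J + 1), ((2:ℝ) ^ (s - 1)) ^ j ≤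
          ((2:ℝ) ^ (s - 1)) ^ j0 * Gm := by
        rw [Finset.sum_Ico_eq_sum_range, hGm, ← hJe]
        unfold geo
        rw [Finset.mul_sum]
        have hq1 : (2:ℝ) ^ (s - 1) ≤ 1 := Real.rpow_le_one_of_one_le_of_nonpos (by norm_num)
          (by linarith)
        calc ∑ k ∈ Finset.range (J + 1 - (j0 + 1)), ((2:ℝ) ^ (s - 1)) ^ (j0 + 1 + k)
            ≤ ∑ k ∈ Finset.range (J + 1 - (j0 + 1)), ((2:ℝ) ^ (s - 1)) ^ j0 *
              ((2:ℝ) ^ (s - 1)) ^ k := by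
              apply Finset.sum_le_sum
              intro k _
              rw [← pow_add]
              exact pow_le_pow_of_le_one hq0 hq1 (by omega)
          _ ≤ _ := by
              apply Finset.sum_le_sum_of_subset_of_nonneg
              · exact Finset.range_mono (by omega)
              · intro i _ _; positivity
      have h3 : W * ((2:ℝ) ^ (s - 1)) ^ j0 ≤ ((2:ℝ) ^ j0) ^ s := by
        have e1 : ((2:ℝ) ^ (s - 1)) ^ j0 = ((2:ℝ) ^ j0) ^ (s - 1) := by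
          rw [← Real.rpow_natCast, ← Real.rpow_natCast, ← Real.rpow_mul (by norm_num),
            ← Real.rpow_mul (by norm_num), mul_comm]
        have e2 : ((2:ℝ) ^ j0) ^ s = ((2:ℝ) ^ j0) * ((2:ℝ) ^ j0) ^ (s - 1) := by
          rw [mul_comm, ← Real.rpow_add_one hb0.ne']; congr 1; ring
        rw [e1, e2]
        gcongr
      calc W * ∑ j ∈ Finset.Ico (j0 + 1) (J + 1), ((2:ℝ) ^ (s - 1)) ^ j
          ≤ W * (((2:ℝ) ^ (s - 1)) ^ j0 * Gm) := by gcongr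
        _ = (W * ((2:ℝ) ^ (s - 1)) ^ j0) * Gm := by ring
        _ ≤ _ := by gcongr
    have hWs0 : 0 ≤ W ^ s := by positivity
    calc ((2:ℝ) ^ j0) ^ s * (K * 5 ^ d * N ^ (2 * d + 2)) +
          W * N ^ (2 * d + 2) * 2 ^ (d + 1) *
            ∑ j ∈ Finset.Ico (j0 + 1) (J + 1), ((2:ℝ) ^ (s - 1)) ^ j
        = ((2:ℝ) ^ j0) ^ s * (K * 5 ^ d * N ^ (2 * d + 2)) * 1 +
          N ^ (2 * d + 2) * 2 ^ (d + 1) *
            (W * ∑ j ∈ Finset.Ico (j0 + 1) (J + 1), ((2:ℝ) ^ (s - 1)) ^ j) := by ring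
      _ ≤ ((2:ℝ) ^ j0) ^ s * (K * 5 ^ d * N ^ (2 * d + 2)) * Gm +
          N ^ (2 * d + 2) * 2 ^ (d + 1) * (((2:ℝ) ^ j0) ^ s * Gm) := by gcongr
      _ = ((2:ℝ) ^ j0) ^ s * ((K * 5 ^ d + 2 ^ (d + 1)) * N ^ (2 * d + 2) * Gm) := by ring
      _ ≤ (2 * W ^ s) * ((K * 5 ^ d + 2 ^ (d + 1)) * N ^ (2 * d + 2) * Gm) := by gcongr
      _ = _ := by ring

/-- range `0 ≤ s ≤ 2`, large `N` -/
theorem weak_ratio_mid (hd : 0 < d) {K : ℕ} {κ N W : ℝ} (hN : 3 * ((d:ℝ) + 1) ≤ N) (hκ : 0 < κ)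
    (hκ1 : κ ≤ 1) (hW : 1 ≤ W) (θ : ι → Cap d) (c : ι → Sp d) (hfam : IsCapFamily K κ N θ)
    (hw : WeakBound N W θ c) {s : ℝ} (hs0 : 0 ≤ s) (hs2 : s ≤ 2) :
    ∫⁻ x, ENNReal.ofReal ((mult N θ c x) ^ (1 + s / (d:ℝ))) ≤
      ENNReal.ofReal (2 * (K * 5 ^ d + 2 ^ (d + 1)) *
        (1 + (d + 5 + (K + 2) : ℕ) * 2 ^ (d + 5 + (K + 2))) * (12 / κ) * (4 ^ (d + 2) / κ) ^ 2 *
        W ^ (min s 1)) *
      ∫⁻ x, ENNReal.ofReal ((mult N θ (fun _ => 0) x) ^ (1 + s / (d:ℝ))) := by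
  have hd' : (0:ℝ) < d := by exact_mod_cast hd
  have hd1 : (1:ℝ) ≤ d := by exact_mod_cast hd
  have hN1 : 1 ≤ N := by nlinarith
  have hN0 : 0 < N := by linarith
  have hW0 : 0 < W := by linarith
  obtain ⟨T, hT, hgeo⟩ := geo_compare' hN hs2 (K + 2)
  have hup := upper_of_weak hd hN1 hW θ c hfam.overlap hw hs0
  have hlow := shells_lower' hd hN1 hκ θ hfam.many hs0 T hT
  refine hup.trans ?_
  refine le_trans ?_ (mul_le_mul' le_rfl hlow)
  rw [← ENNReal.ofReal_mul (by positivity)]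
  apply ENNReal.ofReal_le_ofReal
  have hgT := geo_nonneg s T
  have hs0' : 0 ≤ s / (d:ℝ) := by positivity
  have hsd : s / (d:ℝ) ≤ 2 := by rw [div_le_iff₀ hd']; linarith
  set w : ℝ := κ / 4 ^ (d + 2) with hwdef
  have hw0 : 0 < w := by positivity
  have hw1 : w ≤ 1 := by
    rw [hwdef, div_le_one (by positivity)]
    have : (1:ℝ) ≤ 4 ^ (d + 2) := one_le_pow₀ (by norm_num)
    linarith
  have hwp : w ^ 2 ≤ w ^ (s / (d:ℝ)) := by
    rw [← Real.rpow_natCast]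
    apply Real.rpow_le_rpow_of_exponent_ge hw0 hw1
    exact_mod_cast hsd
  have hwp0 : 0 < w ^ (s / (d:ℝ)) := Real.rpow_pos_of_pos hw0 _
  have hone : 1 ≤ (4 ^ (d + 2) / κ) ^ 2 * w ^ (s / (d:ℝ)) := by
    have e1 : (4 ^ (d + 2) / κ) ^ 2 * w ^ 2 = 1 := by
      rw [hwdef]; field_simp
    calc (1:ℝ) = (4 ^ (d + 2) / κ) ^ 2 * w ^ 2 := e1.symm
      _ ≤ _ := by gcongr
  have e2 : (12 / κ) * (κ / 12) = 1 := by field_simp
  set Ws : ℝ := W ^ (min s 1) with hWs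
  have hWs0 : 0 < Ws := Real.rpow_pos_of_pos hW0 _
  set Cg : ℝ := (1 + (d + 5 + (K + 2) : ℕ) * 2 ^ (d + 5 + (K + 2))) with hCg
  have hCg0 : 0 < Cg := by positivity
  calc 2 * (K * 5 ^ d + 2 ^ (d + 1)) * Ws * N ^ (2 * d + 2) *
        geo s (Nat.log 2 ⌊N⌋₊ + 3 + (K + 2))
      ≤ 2 * (K * 5 ^ d + 2 ^ (d + 1)) * Ws * N ^ (2 * d + 2) * (Cg * geo s T) := by gcongr
    _ = 2 * (K * 5 ^ d + 2 ^ (d + 1)) * Ws * N ^ (2 * d + 2) * (Cg * geo s T) * 1 * 1 := by ring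
    _ ≤ 2 * (K * 5 ^ d + 2 ^ (d + 1)) * Ws * N ^ (2 * d + 2) * (Cg * geo s T) *
        ((4 ^ (d + 2) / κ) ^ 2 * w ^ (s / (d:ℝ))) * ((12 / κ) * (κ / 12)) := by
        rw [e2]
        gcongr
    _ = _ := by ring

/-- range `p ≥ 1 + 2/d`, any `N ≥ 1` -/
theorem weak_ratio_large (hd : 0 < d) {K : ℕ} {κ N p W : ℝ} (hN : 1 ≤ N) (hκ : 0 < κ)
    (hκ1 : κ ≤ 1) (hW : 1 ≤ W) (θ : ι → Cap d) (c : ι → Sp d) (hfam : IsCapFamily K κ N θ)
    (hw : WeakBound N W θ c) (hp : 1 + 2 / (d:ℝ) ≤ p) :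
    ∫⁻ x, ENNReal.ofReal ((mult N θ c x) ^ p) ≤
      ENNReal.ofReal (2 * (K * 5 ^ d + 2 ^ (d + 1)) * (8 * 2 ^ (K + 2)) * ((d:ℝ) + 1) ^ (d + 1) *
        κ⁻¹ * κ⁻¹ ^ 2 * W) *
      ∫⁻ x, ENNReal.ofReal ((mult N θ (fun _ => 0) x) ^ p) := by
  have hN0 : 0 < N := by linarith
  have hW0 : 0 < W := by linarith
  have hd' : (0:ℝ) < d := by exact_mod_cast hd
  have hd1 : (1:ℝ) ≤ d := by exact_mod_cast hd
  set p1 : ℝ := 1 + 2 / (d:ℝ) with hp1
  have hm : 0 < κ * N ^ d := by positivity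
  have hc : (0:ℝ) < Fintype.card ι := lt_of_lt_of_le hm hfam.many
  set m : ℝ := (Fintype.card ι : ℝ) with hmdef
  have hgeo : geo 2 (Nat.log 2 ⌊N⌋₊ + 3 + (K + 2)) ≤ 8 * 2 ^ (K + 2) * N := by
    unfold geo
    have e1 : (2:ℝ) ^ ((2:ℝ) - 1) = 2 := by norm_num
    rw [e1]
    have h1 := geom_sum_eq (x := (2:ℝ)) (by norm_num) (Nat.log 2 ⌊N⌋₊ + 3 + (K + 2))
    rw [h1]
    have h2 : (2:ℝ) ^ Nat.log 2 ⌊N⌋₊ ≤ N := by
      have h3 : 2 ^ Nat.log 2 ⌊N⌋₊ ≤ ⌊N⌋₊ := Nat.pow_log_le_self 2 (by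
        have : 1 ≤ ⌊N⌋₊ := Nat.le_floor (by simpa using hN)
        omega)
      calc (2:ℝ) ^ Nat.log 2 ⌊N⌋₊ ≤ (⌊N⌋₊ : ℝ) := by exact_mod_cast h3
        _ ≤ N := Nat.floor_le hN0.le
    have h3 : (2:ℝ) ^ (Nat.log 2 ⌊N⌋₊ + 3 + (K + 2)) =
        8 * 2 ^ (K + 2) * 2 ^ Nat.log 2 ⌊N⌋₊ := by rw [pow_add, pow_add]; ring
    rw [h3]
    have h4 : (8:ℝ) * 2 ^ (K + 2) * 2 ^ Nat.log 2 ⌊N⌋₊ ≤ 8 * 2 ^ (K + 2) * N := by gcongr
    linarith
  have hup1 := upper_of_weak hd hN hW θ c hfam.overlap hw (s := 2) (by norm_num)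
  rw [← hp1, min_eq_right (by norm_num : (1:ℝ) ≤ 2), Real.rpow_one] at hup1
  have hup : ∫⁻ x, ENNReal.ofReal ((mult N θ c x) ^ p) ≤
      ENNReal.ofReal (m ^ (p - p1)) * ∫⁻ x, ENNReal.ofReal ((mult N θ c x) ^ p1) := by
    rw [← lintegral_const_mul' _ _ ENNReal.ofReal_ne_top]
    apply lintegral_mono
    intro x
    simp only
    rw [← ENNReal.ofReal_mul (by positivity)]
    apply ENNReal.ofReal_le_ofReal
    have h0 := mult_nonneg N θ c x
    have hp1pos : 0 < p1 := by positivity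
    rcases h0.eq_or_lt with h | h
    · rw [← h, Real.zero_rpow (by linarith), Real.zero_rpow hp1pos.ne', mul_zero]
    · have e1 : mult N θ c x ^ p = mult N θ c x ^ (p - p1) * mult N θ c x ^ p1 := by
        rw [← Real.rpow_add h]; congr 1; ring
      rw [e1]
      apply mul_le_mul_of_nonneg_right _ (by positivity)
      exact Real.rpow_le_rpow h0 (mult_le_card N θ c x) (by linarith)
  have hlow := core_lower hN θ (p := p)
  refine hup.trans ((mul_le_mul' le_rfl hup1).trans (le_trans ?_ (mul_le_mul' le_rfl hlow)))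
  rw [← ENNReal.ofReal_mul (by positivity), ← ENNReal.ofReal_mul (by positivity)]
  apply ENNReal.ofReal_le_ofReal
  rw [← hmdef]
  -- m^{p-p1} * m = m^p * m^{-2/d}
  have e1 : m ^ (p - p1) * m = m ^ p * m ^ (-(2 / (d:ℝ))) := by
    rw [← Real.rpow_add_one hc.ne', ← Real.rpow_add hc]
    congr 1
    rw [hp1]; ring
  have e2 : m ^ (-(2 / (d:ℝ))) * N ^ 2 ≤ κ⁻¹ ^ 2 := by
    have h1 : m ^ (-(2 / (d:ℝ))) ≤ (κ * N ^ d) ^ (-(2 / (d:ℝ))) :=
      Real.rpow_le_rpow_of_nonpos hm hfam.many (by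
        have : 0 ≤ 2 / (d:ℝ) := by positivity
        linarith)
    have h2 : (κ * N ^ d) ^ (-(2 / (d:ℝ))) = κ ^ (-(2 / (d:ℝ))) * (N ^ 2)⁻¹ := by
      rw [Real.mul_rpow hκ.le (by positivity)]
      congr 1
      rw [← Real.rpow_natCast, ← Real.rpow_mul hN0.le]
      have : (d:ℝ) * -(2 / (d:ℝ)) = -2 := by field_simp
      rw [this, Real.rpow_neg hN0.le]
      norm_cast
    have h3 : κ ^ (-(2 / (d:ℝ))) ≤ κ⁻¹ ^ 2 := by
      have h4 : κ⁻¹ ^ 2 = κ ^ (-2:ℝ) := by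
        rw [Real.rpow_neg hκ.le, inv_pow]; norm_cast
      rw [h4]
      apply Real.rpow_le_rpow_of_exponent_ge hκ hκ1
      have h2d : 2 / (d:ℝ) ≤ 2 := by rw [div_le_iff₀ hd']; linarith
      linarith
    calc m ^ (-(2 / (d:ℝ))) * N ^ 2 ≤ (κ ^ (-(2 / (d:ℝ))) * (N ^ 2)⁻¹) * N ^ 2 := by
          rw [← h2]; gcongr
      _ = κ ^ (-(2 / (d:ℝ))) := by field_simp
      _ ≤ _ := h3
  have e3 : N ^ d ≤ κ⁻¹ * m := by
    rw [inv_mul_eq_div, le_div_iff₀ hκ]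
    linarith [hfam.many]
  have hmp : 0 < m ^ p := Real.rpow_pos_of_pos hc p
  have hmp1 : 0 < m ^ (p - p1) := Real.rpow_pos_of_pos hc _
  have hgnn := geo_nonneg 2 (Nat.log 2 ⌊N⌋₊ + 3 + (K + 2))
  calc m ^ (p - p1) * (2 * (K * 5 ^ d + 2 ^ (d + 1)) * W * N ^ (2 * d + 2) *
        geo 2 (Nat.log 2 ⌊N⌋₊ + 3 + (K + 2)))
      ≤ m ^ (p - p1) * (2 * (K * 5 ^ d + 2 ^ (d + 1)) * W * N ^ (2 * d + 2) *
        (8 * 2 ^ (K + 2) * N)) := by gcongr
    _ = 2 * (K * 5 ^ d + 2 ^ (d + 1)) * W * (8 * 2 ^ (K + 2)) * N ^ 2 * N ^ (d + 1) *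
        (m ^ (p - p1) * N ^ d) := by ring
    _ ≤ 2 * (K * 5 ^ d + 2 ^ (d + 1)) * W * (8 * 2 ^ (K + 2)) * N ^ 2 * N ^ (d + 1) *
        (m ^ (p - p1) * (κ⁻¹ * m)) := by gcongr
    _ = 2 * (K * 5 ^ d + 2 ^ (d + 1)) * W * (8 * 2 ^ (K + 2)) * N ^ 2 * N ^ (d + 1) *
        κ⁻¹ * (m ^ (p - p1) * m) := by ring
    _ = 2 * (K * 5 ^ d + 2 ^ (d + 1)) * W * (8 * 2 ^ (K + 2)) * N ^ (d + 1) * κ⁻¹ *
        m ^ p * (m ^ (-(2 / (d:ℝ))) * N ^ 2) := by rw [e1]; ring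
    _ ≤ 2 * (K * 5 ^ d + 2 ^ (d + 1)) * W * (8 * 2 ^ (K + 2)) * N ^ (d + 1) * κ⁻¹ *
        m ^ p * (κ⁻¹ ^ 2) := by gcongr
    _ = 2 * (K * 5 ^ d + 2 ^ (d + 1)) * (8 * 2 ^ (K + 2)) * ((d:ℝ) + 1) ^ (d + 1) *
        κ⁻¹ * κ⁻¹ ^ 2 * W * (m ^ p * (N / ((d:ℝ) + 1)) ^ (d + 1)) := by
        rw [div_pow]
        field_simp

/-- Weak type implies strong comparison, all exponents. -/
theorem weak_to_strong (hd : 0 < d) (K : ℕ) {κ : ℝ} (hκ : 0 < κ) :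
    ∃ C : ℝ, 1 ≤ C ∧ ∀ (N : ℝ), 1 ≤ N → ∀ (ι : Type) [Fintype ι] (θ : ι → Cap d)
      (c : ι → Sp d), IsCapFamily K κ N θ → ∀ W : ℝ, 1 ≤ W → WeakBound N W θ c →
      ∀ p : ℝ, 1 ≤ p →
      ∫⁻ x, ENNReal.ofReal ((mult N θ c x) ^ p) ≤
        ENNReal.ofReal (C * W ^ (min (d * (p - 1)) 1)) *
          ∫⁻ x, ENNReal.ofReal ((mult N θ (fun _ => 0) x) ^ p) := by
  have hd' : (0:ℝ) < d := by exact_mod_cast hd
  set κ' : ℝ := min κ 1 with hκ'
  have hκ'0 : 0 < κ' := lt_min hκ one_pos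
  have hκ'1 : κ' ≤ 1 := min_le_right _ _
  set C1 : ℝ := 2 * (K * 5 ^ d + 2 ^ (d + 1)) *
        (1 + (d + 5 + (K + 2) : ℕ) * 2 ^ (d + 5 + (K + 2))) * (12 / κ') *
        (4 ^ (d + 2) / κ') ^ 2 with hC1
  set C2 : ℝ := 3 * ((d:ℝ) + 1) ^ (d + 2) with hC2
  set C3 : ℝ := 2 * (K * 5 ^ d + 2 ^ (d + 1)) * (8 * 2 ^ (K + 2)) * ((d:ℝ) + 1) ^ (d + 1) *
        κ'⁻¹ * κ'⁻¹ ^ 2 with hC3
  have h1 : 0 ≤ C1 := by positivity
  have h2 : 0 ≤ C2 := by positivity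
  have h3 : 0 ≤ C3 := by positivity
  refine ⟨1 + C1 + C2 + C3, by linarith, ?_⟩
  intro N hN ι _ θ c hfam W hW hw p hp
  have hW0 : 0 < W := by linarith
  have hfam' : IsCapFamily K κ' N θ :=
    ⟨hfam.overlap, le_trans (by
      have : κ' ≤ κ := min_le_left _ _
      gcongr) hfam.many⟩
  have hs0 : 0 ≤ d * (p - 1) := mul_nonneg hd'.le (by linarith)
  have hWs : 0 < W ^ (min (d * (p - 1)) 1) := Real.rpow_pos_of_pos hW0 _
  rcases le_or_gt (1 + 2 / (d:ℝ)) p with hbig | hsmall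
  · have hs1 : 1 ≤ d * (p - 1) := by
      have : 2 / (d:ℝ) ≤ p - 1 := by linarith
      rw [div_le_iff₀ hd'] at this
      linarith
    refine (weak_ratio_large hd hN hκ'0 hκ'1 hW θ c hfam' hw hbig).trans ?_
    rw [min_eq_right hs1, Real.rpow_one]
    gcongr
    linarith
  · rcases lt_or_ge N (3 * ((d:ℝ) + 1)) with hNs | hNl
    · refine (ratio_small hN hNs hp θ c).trans ?_
      have h4 : 1 ≤ W ^ (min (d * (p - 1)) 1) := Real.one_le_rpow hW (le_min hs0 zero_le_one)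
      refine mul_le_mul' (ENNReal.ofReal_le_ofReal ?_) le_rfl
      rw [← hC2]
      calc C2 ≤ C2 * W ^ (min (d * (p - 1)) 1) := le_mul_of_one_le_right h2 h4
        _ ≤ (1 + C1 + C2 + C3) * W ^ (min (d * (p - 1)) 1) := by
          apply mul_le_mul_of_nonneg_right _ hWs.le
          linarith
    · have e1 : p = 1 + (d * (p - 1)) / (d:ℝ) := by field_simp; ring
      have hs2 : d * (p - 1) ≤ 2 := by
        have : p - 1 ≤ 2 / (d:ℝ) := by linarith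
        rw [le_div_iff₀ hd'] at this
        linarith
      have h5 := weak_ratio_mid hd hNl hκ'0 hκ'1 hW θ c hfam' hw hs0 hs2
      rw [← e1] at h5
      refine h5.trans ?_
      gcongr
      linarith

/-- Weak type implies the comparison of norms, all exponents. -/
theorem weak_to_norm (hd : 0 < d) (K : ℕ) {κ : ℝ} (hκ : 0 < κ) :
    ∃ C : ℝ, 1 ≤ C ∧ ∀ (N : ℝ), 1 ≤ N → ∀ (ι : Type) [Fintype ι] (θ : ι → Cap d)
      (c : ι → Sp d), IsCapFamily K κ N θ → ∀ W : ℝ, 1 ≤ W → WeakBound N W θ c →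
      ∀ p : ℝ≥0∞, 1 ≤ p →
      eLpNorm (mult N θ c) p volume ≤
        ENNReal.ofReal (C * W ^ (min (1 / p.toReal) (d * (1 - 1 / p.toReal)))) *
          eLpNorm (mult N θ (fun _ => 0)) p volume := by
  obtain ⟨C, hC, h⟩ := weak_to_strong hd K hκ
  refine ⟨C, hC, ?_⟩
  intro N hN ι _ θ c hfam W hW hw p hp
  have hW0 : 0 < W := by linarith
  by_cases hpt : p = ⊤
  · subst hpt
    refine (eLpNorm_top_le N θ c).trans ((eLpNorm_top_ge hN θ).trans ?_)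
    calc _ = 1 * eLpNorm (mult N θ (fun _ => 0)) ⊤ volume := (one_mul _).symm
      _ ≤ _ := by
        gcongr
        rw [← ENNReal.ofReal_one]
        apply ENNReal.ofReal_le_ofReal
        have h1 : 1 ≤ W ^ (min (1 / (⊤:ℝ≥0∞).toReal) (d * (1 - 1 / (⊤:ℝ≥0∞).toReal))) := by
          apply Real.one_le_rpow hW
          simp
        nlinarith
  · have hr1 : 1 ≤ p.toReal := by
      have := ENNReal.toReal_mono hpt hp
      simpa using this
    have hr0 : 0 < p.toReal := by linarith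
    have h1 := h N hN ι θ c hfam W hW hw p.toReal hr1
    have hs0 : 0 ≤ min (d * (p.toReal - 1)) 1 :=
      le_min (mul_nonneg (Nat.cast_nonneg d) (by linarith)) zero_le_one
    have h2 := norm_of_ratio (N := N) hC hs0 θ c hW hp hpt h1
    have e1 : min (d * (p.toReal - 1)) 1 / p.toReal =
        min (1 / p.toReal) (d * (1 - 1 / p.toReal)) := by
      rw [← min_div_div_right hr0.le, min_comm]
      congr 1
      field_simp
    rw [e1] at h2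
    exact h2

end Pool.Agent.MPac5134
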