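import Pool.Agent.Lib.MP_ac5134_an.WeakType
import Pool.Agent.Lib.MP_ac5134_an.WeakStrong
import Pool.Agent.Lib.MP_ac5134_an.LatDefs

/-!
Tube families whose directions and positions form a set with additive structure.
-/

namespace Pool.Agent.MPac5134

open MeasureTheory Matrix Pool.Agent.MPac5134.Lat
open scoped ENNReal

variable {d : ℕ} {ι : Type*}

/-- The point at height `x_n = t` of the axis of the tube `c + θ^*`, that is of the line through
`c` with the direction `(-2 ω, 1)`: its first coordinates are `c_m + 2 ω_m (c_n - t)`. -/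
def axisPt (θ : Cap d) (c : Sp d) (t : ℝ) : Fin d → ℝ :=
  fun m => c m.castSucc + 2 * θ.foot m * (c (Fin.last d) - t)

/-- the height `⌊c_n / N²⌋` of a tube -/
noncomputable def height (N : ℝ) (c : Sp d) : ℤ := ⌊c (Fin.last d) / N ^ 2⌋

/-- The label of a tube, a point of `Z^d × Z^(d+1)`: the cell `⌊N ω⌋` of its direction, and the
cell `(⌊y / N⌋, T)` of its position, where `T = ⌊c_n / N²⌋` and `(y, T N²)` is the point of its
axis at height `T N²`. The label determines the tube up to a bounded dilation. -/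
noncomputable def label (N : ℝ) (θ : Cap d) (c : Sp d) : Fin d ⊕ Fin (d + 1) → ℤ :=
  Sum.elim (cell N θ)
    (Fin.snoc (fun m => ⌊axisPt θ c (height N c * N ^ 2) m / N⌋) (height N c) : Fin (d + 1) → ℤ)

/-- The directions and the positions are within `A / N` of affine functions of labels `n ∈ Z^r`
with `Q(n) ≤ 1`, up to one of `J` translations. -/
structure InProg (A N : ℝ) (θ : ι → Cap d) (c : ι → Sp d) {r J : ℕ}
    (Q : Matrix (Fin r) (Fin r) ℝ) (W Y : Matrix (Fin d) (Fin r) ℝ) (w y : Fin J → Fin d → ℝ)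
    (nn : ι → Fin r → ℤ) (jj : ι → Fin J) : Prop where
  short : ∀ i, qf Q (nn i) ≤ 1
  foot : ∀ i m, |(θ i).foot m - w (jj i) m - (W *ᵥ rv (nn i)) m| ≤ A / N
  pos : ∀ i m, |axisPt (θ i) (c i) (height N (c i) * N ^ 2) m / N ^ 2 - y (jj i) m -
    (Y *ᵥ rv (nn i)) m| ≤ A / N

/-- the bound for the number of caps near a point -/
noncomputable def capConst (d K : ℕ) (a : ℝ) : ℝ := K * (2 * (⌈a⌉₊ + 1) + 1 : ℕ) ^ d

theorem capConst_nonneg (d K : ℕ) (a : ℝ) : 0 ≤ capConst d K a := by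
  unfold capConst; positivity

theorem near_card {K : ℕ} {N : ℝ} (hN : 1 ≤ N) (θ : ι → Cap d)
    (hK : ∀ z : Fin d → ℤ, ∀ s : Finset ι, (∀ i ∈ s, cell N (θ i) = z) → s.card ≤ K)
    (S : Finset ι) (ω : Fin d → ℝ) {a : ℝ} (hS : ∀ i ∈ S, ∀ m, |(θ i).foot m - ω m| ≤ a / N) :
    (S.card : ℝ) ≤ capConst d K a := by
  have hN0 : 0 < N := by linarith
  have h := card_cells_le θ hK S (fun m => ⌊N * ω m⌋) (⌈a⌉₊ + 1) (by
    intro i hi m
    apply cell_diff_le
    have h1 := hS i hi m
    rw [← mul_sub, abs_mul, abs_of_pos hN0]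
    rw [le_div_iff₀ hN0] at h1
    calc N * |(θ i).foot m - ω m| ≤ a := by linarith
      _ ≤ ⌈a⌉₊ := Nat.le_ceil a)
  unfold capConst
  exact_mod_cast h

theorem qf_add_le {r : ℕ} {Q : Matrix (Fin r) (Fin r) ℝ} (hQ : Q.PosSemidef)
    (a b : Fin r → ℤ) : qf Q (a + b) ≤ 2 * qf Q a + 2 * qf Q b := by
  have h1 : 0 ≤ qf Q (a - b) := by
    have := hQ.dotProduct_mulVec_nonneg (rv (a - b))
    simpa [qf] using this
  have h2 : qf Q (a + b) + qf Q (a - b) = 2 * qf Q a + 2 * qf Q b := by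
    unfold qf
    rw [rv_add, rv_sub]
    simp only [mulVec_add, mulVec_sub, dotProduct_add, dotProduct_sub, add_dotProduct,
      sub_dotProduct]
    ring
  linarith

theorem qf_sub_le {r : ℕ} {Q : Matrix (Fin r) (Fin r) ℝ} (hQ : Q.PosSemidef)
    (a b : Fin r → ℤ) : qf Q (a - b) ≤ 2 * qf Q a + 2 * qf Q b := by
  have h1 : 0 ≤ qf Q (a + b) := by
    have := hQ.dotProduct_mulVec_nonneg (rv (a + b))
    simpa [qf] using this
  have h2 : qf Q (a + b) + qf Q (a - b) = 2 * qf Q a + 2 * qf Q b := by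
    unfold qf
    rw [rv_add, rv_sub]
    simp only [mulVec_add, mulVec_sub, dotProduct_add, dotProduct_sub, add_dotProduct,
      sub_dotProduct]
    ring
  linarith

theorem height_le {N : ℝ} (hN : 0 < N) (c : Sp d) :
    |c (Fin.last d) - height N c * N ^ 2| ≤ N ^ 2 := by
  have hN2 : 0 < N ^ 2 := by positivity
  have h1 := Int.floor_le (c (Fin.last d) / N ^ 2)
  have h2 := (Int.lt_floor_add_one (c (Fin.last d) / N ^ 2)).le
  rw [le_div_iff₀ hN2] at h1
  rw [div_le_iff₀ hN2] at h2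
  unfold height
  rw [abs_le]
  constructor <;> nlinarith

end Pool.Agent.MPac5134
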