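import Pool.Agent.Lib.MP_ac5134_an.AddDefs

/-!
The map from labels to directions has bounded fibres in a full family of caps.
-/

namespace Pool.Agent.MPac5134

open MeasureTheory Matrix Pool.Agent.MPac5134.Lat
open scoped ENNReal

variable {d : ℕ} {ι : Type*} [Fintype ι]

theorem exists_all {r : ℕ} {Q : Matrix (Fin r) (Fin r) ℝ} {B : ℝ} {q : ℝ}
    (h : ∀ T : Finset (Fin r → ℤ), (∀ n ∈ T, qf Q n ≤ q) → (T.card : ℝ) ≤ B) :
    ∃ Z : Finset (Fin r → ℤ), ∀ n, n ∈ Z ↔ qf Q n ≤ q := by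
  have hfin : {n : Fin r → ℤ | qf Q n ≤ q}.Finite := by
    by_contra hinf
    have hinf : {n : Fin r → ℤ | qf Q n ≤ q}.Infinite := hinf
    obtain ⟨T, hT, hc⟩ := hinf.exists_subset_card_eq (⌈B⌉₊ + 1)
    have h1 := h T (fun n hn => hT hn)
    rw [hc] at h1
    have h2 := Nat.le_ceil B
    push_cast at h1
    linarith
  exact ⟨hfin.toFinset, fun n => by simp⟩

theorem fibre_bound {K : ℕ} {κ A A1 N : ℝ} (hN : 1 ≤ N) (hκ : 0 < κ)
    {θ : ι → Cap d} {c : ι → Sp d} (hfam : IsCapFamily K κ N θ) {r J : ℕ}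
    {Q : Matrix (Fin r) (Fin r) ℝ} (hQ : Q.PosSemidef) {W Y : Matrix (Fin d) (Fin r) ℝ}
    {w y : Fin J → Fin d → ℝ} {nn : ι → Fin r → ℤ} {jj : ι → Fin J}
    (h : InProg A N θ c Q W Y w y nn jj)
    (hcount : ∀ T : Finset (Fin r → ℤ), (∀ n ∈ T, qf Q n ≤ 4) → (J * T.card : ℝ) ≤ A1 * N ^ d)
    (T : Finset (Fin r → ℤ)) (hT : ∀ n ∈ T, qf Q n ≤ 1 ∧ ∀ m, |(W *ᵥ rv n) m| ≤ 1 / N) :
    (T.card : ℝ) ≤ A1 * capConst d K A * capConst d K (A + 1) / κ := by
  classical
  have hN0 : 0 < N := by linarith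
  have hNd : 0 < N ^ d := by positivity
  -- the family is not empty
  have hι : 0 < Fintype.card ι := by
    have h1 : (0:ℝ) < Fintype.card ι := lt_of_lt_of_le (by positivity) hfam.many
    exact_mod_cast h1
  obtain ⟨i0⟩ := Fintype.card_pos_iff.mp hι
  have hJ : 1 ≤ J := by
    have := (jj i0).isLt; omega
  have hJ' : (1:ℝ) ≤ J := by exact_mod_cast hJ
  obtain ⟨Z, hZ⟩ := exists_all (Q := Q) (B := A1 * N ^ d) (q := 4) (fun T hT => by
    refine le_trans ?_ (hcount T hT)
    have : (0:ℝ) ≤ T.card := Nat.cast_nonneg _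
    nlinarith)
  have hZc : (J * Z.card : ℝ) ≤ A1 * N ^ d := hcount Z fun n hn => (hZ n).1 hn
  set f : ι → Fin J × (Fin r → ℤ) := fun i => (jj i, nn i) with hf
  set P : Finset (Fin J × (Fin r → ℤ)) := Finset.univ.image f with hP
  set c1 := capConst d K A with hc1
  set c2 := capConst d K (A + 1) with hc2
  have hc10 : 0 ≤ c1 := capConst_nonneg _ _ _
  have hc20 : 0 ≤ c2 := capConst_nonneg _ _ _
  -- caps with a given label
  have hlab : (Fintype.card ι : ℝ) ≤ c1 * P.card := by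
    have h1 : (Finset.univ : Finset ι).card = ∑ p ∈ P, (Finset.univ.filter fun i => f i = p).card :=
      Finset.card_eq_sum_card_image f Finset.univ
    rw [Finset.card_univ] at h1
    rw [h1]
    push_cast
    calc ∑ p ∈ P, (((Finset.univ.filter fun i => f i = p).card : ℕ) : ℝ) ≤ ∑ _p ∈ P, c1 := by
          apply Finset.sum_le_sum
          intro p _
          apply near_card hN θ hfam.overlap _ (fun m => w p.1 m + (W *ᵥ rv p.2) m)
          intro i hi m
          have hi' : f i = p := (Finset.mem_filter.1 hi).2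
          have h2 := h.foot i m
          rw [← hi']
          simp only [hf]
          rw [← sub_sub]; exact h2
      _ = c1 * P.card := by rw [Finset.sum_const, nsmul_eq_mul]; ring
  -- right inverse
  have hinv : ∀ p ∈ P, ∃ i, f i = p := by
    intro p hp
    obtain ⟨i, -, hi⟩ := Finset.mem_image.1 hp
    exact ⟨i, hi⟩
  have hne : Nonempty ι := ⟨i0⟩
  choose! g hg using hinv
  -- the sum map
  set Φ : (Fin J × (Fin r → ℤ)) × (Fin r → ℤ) → Fin J × (Fin r → ℤ) :=
    fun q => (q.1.1, q.1.2 + q.2) with hΦ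
  have hmaps : ∀ q ∈ P ×ˢ T, Φ q ∈ (Finset.univ : Finset (Fin J)) ×ˢ Z := by
    intro q hq
    obtain ⟨hq1, hq2⟩ := Finset.mem_product.1 hq
    rw [Finset.mem_product]
    refine ⟨Finset.mem_univ _, ?_⟩
    rw [hZ]
    simp only [hΦ]
    have h1 := hg _ hq1
    have h2 : qf Q q.1.2 ≤ 1 := by
      have := h.short (g q.1)
      rw [← h1]; exact this
    have h3 := (hT _ hq2).1
    have := qf_add_le hQ q.1.2 q.2
    linarith
  have hfib : ∀ b ∈ (Finset.univ : Finset (Fin J)) ×ˢ Z,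
      (((P ×ˢ T).filter fun q => Φ q = b).card : ℝ) ≤ c2 := by
    intro b _
    set F := (P ×ˢ T).filter fun q => Φ q = b with hF
    have hinj : Set.InjOn (fun q : (Fin J × (Fin r → ℤ)) × (Fin r → ℤ) => g q.1) F := by
      intro q hq q' hq' hqq
      obtain ⟨h1, h2⟩ := Finset.mem_filter.1 hq
      obtain ⟨h1', h2'⟩ := Finset.mem_filter.1 hq'
      have e1 := hg _ (Finset.mem_product.1 h1).1
      have e2 := hg _ (Finset.mem_product.1 h1').1
      have e3 : q.1 = q'.1 := by
        rw [← e1, ← e2]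
        simp only at hqq
        rw [hqq]
      have e4 : q.1.2 + q.2 = q'.1.2 + q'.2 := by
        have := h2.trans h2'.symm
        exact (Prod.ext_iff.1 this).2
      rw [e3] at e4
      exact Prod.ext e3 (add_left_cancel e4)
    rw [← Finset.card_image_of_injOn hinj]
    apply near_card hN θ hfam.overlap _ (fun m => w b.1 m + (W *ᵥ rv b.2) m)
    intro i hi m
    obtain ⟨q, hq, rfl⟩ := Finset.mem_image.1 hi
    obtain ⟨h1, h2⟩ := Finset.mem_filter.1 hq
    obtain ⟨h3, h4⟩ := Finset.mem_product.1 h1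
    have e1 := hg _ h3
    have e2 := h.foot (g q.1) m
    have e3 := (hT _ h4).2 m
    have e5 : jj (g q.1) = b.1 := by
      have : jj (g q.1) = q.1.1 := (Prod.ext_iff.1 e1).1
      rw [this]; exact (Prod.ext_iff.1 h2).1
    have e6 : nn (g q.1) = q.1.2 := (Prod.ext_iff.1 e1).2
    have e7 : b.2 = nn (g q.1) + q.2 := by rw [e6]; exact (Prod.ext_iff.1 h2).2.symm
    rw [e5] at e2
    rw [e7, rv_add, mulVec_add]
    simp only [Pi.add_apply]
    rw [add_div]
    rw [abs_le] at e2 e3 ⊢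
    constructor <;> linarith [e2.1, e2.2, e3.1, e3.2]
  have hprod : ((P ×ˢ T).card : ℝ) ≤ c2 * (J * Z.card) := by
    have h1 := Finset.card_eq_sum_card_fiberwise (f := Φ) (s := P ×ˢ T)
      (t := (Finset.univ : Finset (Fin J)) ×ˢ Z) hmaps
    rw [h1]
    push_cast
    calc _ ≤ ∑ _b ∈ (Finset.univ : Finset (Fin J)) ×ˢ Z, c2 := Finset.sum_le_sum hfib
      _ = c2 * (J * Z.card) := by
        rw [Finset.sum_const, Finset.card_product, Finset.card_univ, Fintype.card_fin,
          nsmul_eq_mul]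
        push_cast; ring
  rw [Finset.card_product] at hprod
  push_cast at hprod
  rw [le_div_iff₀ hκ]
  have h5 : κ * N ^ d * T.card ≤ (A1 * c1 * c2) * N ^ d := by
    calc κ * N ^ d * T.card ≤ (c1 * P.card) * T.card := by
          have := hfam.many.trans hlab
          gcongr
      _ = c1 * (P.card * T.card) := by ring
      _ ≤ c1 * (c2 * (J * Z.card)) := by gcongr
      _ ≤ c1 * (c2 * (A1 * N ^ d)) := by gcongr
      _ = _ := by ring
  have h6 : (T.card * κ) * N ^ d ≤ (A1 * c1 * c2) * N ^ d := by linarith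
  exact le_of_mul_le_mul_right h6 hNd

end Pool.Agent.MPac5134
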