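import Pool.Agent.Lib.MP_ac5134_an.AddProg

/-!
The norm inequality for families whose labels have small doubling, and the volume inequality for
families whose labels have many additive quadruples.
-/

namespace Pool.Agent.MPac5134

open MeasureTheory Matrix Pool.Agent.MPac5134.Lat
open scoped ENNReal Pointwise

variable {d : ℕ}

/-- the conclusion of the Balog–Szemerédi–Gowers theorem in the form used here -/
def BSGBound (D D' : ℕ) : Prop :=
  ∀ (σ : Type) [Fintype σ] [DecidableEq σ] (G : Finset (σ → ℤ)),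
    (G.card : ℝ) ^ 3 ≤ D * G.addEnergy G →
    ∃ G' ⊆ G, G.card ≤ D' * G'.card ∧ (G' + G').card ≤ D' * G'.card

/-- Part (i). -/
theorem add_norm (hd : 0 < d)
    (hcore : ∀ (r : ℕ) (B E₀ ε : ℝ), 0 < ε → ∃ C : ℝ, 0 < C ∧ CoreBound r d B E₀ ε C)
    (hfrei : ∀ D : ℕ, ∃ (R J : ℕ) (A : ℝ), FreimanBound D R J A)
    (K D : ℕ) {κ ε : ℝ} (hκ : 0 < κ) (hε : 0 < ε) :
    ∃ C : ℝ, 0 < C ∧ ∀ N : ℝ, 1 ≤ N → ∀ (ι : Type) [Fintype ι] (θ : ι → Cap d) (c : ι → Sp d),
      IsCapFamily K κ N θ → ∀ H : Finset (Fin d ⊕ Fin (d + 1) → ℤ),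
      (∀ i, label N (θ i) (c i) ∈ H) → (H.card : ℝ) ≤ D * N ^ d → (H + H).card ≤ D * H.card →
      ∀ p : ℝ≥0∞, 1 ≤ p → eLpNorm (mult N θ c) p volume ≤
        ENNReal.ofReal (C * N ^ ε) * eLpNorm (mult N θ (fun _ => 0)) p volume := by
  obtain ⟨C1, hC1, h1⟩ := add_weak hd hcore hfrei K D hκ hε
  obtain ⟨C2, hC2, h2⟩ := weak_to_norm hd K hκ
  refine ⟨C2 * C1, by positivity, ?_⟩
  intro N hN ι _ θ c hfam H hH hHc hHH p hp
  have hN0 : 0 < N := by linarith
  have hNε : 1 ≤ N ^ ε := Real.one_le_rpow hN hε.le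
  have hW : 1 ≤ C1 * N ^ ε := by nlinarith
  have h3 := h2 N hN ι θ c hfam _ hW (h1 N hN ι θ c hfam H hH hHc hHH) p hp
  refine h3.trans ?_
  set e : ℝ := min (1 / p.toReal) (d * (1 - 1 / p.toReal)) with he
  have he1 : e ≤ 1 := by
    by_cases hpt : p = ⊤
    · rw [he, hpt]; simp
    · have hr1 : 1 ≤ p.toReal := by
        have := ENNReal.toReal_mono hpt hp
        simpa using this
      refine (min_le_left _ _).trans ?_
      rw [div_le_one (by linarith)]; exact hr1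
  have h4 : (C1 * N ^ ε) ^ e ≤ C1 * N ^ ε := by
    calc (C1 * N ^ ε) ^ e ≤ (C1 * N ^ ε) ^ (1:ℝ) := Real.rpow_le_rpow_of_exponent_le hW he1
      _ = _ := Real.rpow_one _
  have h5 : C2 * (C1 * N ^ ε) ^ e ≤ C2 * C1 * N ^ ε := by
    calc C2 * (C1 * N ^ ε) ^ e ≤ C2 * (C1 * N ^ ε) := by gcongr
      _ = _ := by ring
  gcongr

/-- Part (ii). -/
theorem add_volume (hd : 0 < d)
    (hcore : ∀ (r : ℕ) (B E₀ ε : ℝ), 0 < ε → ∃ C : ℝ, 0 < C ∧ CoreBound r d B E₀ ε C)
    (hfrei : ∀ D : ℕ, ∃ (R J : ℕ) (A : ℝ), FreimanBound D R J A)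
    (hbsg : ∀ D : ℕ, ∃ D' : ℕ, BSGBound D D')
    (K D : ℕ) {κ ε : ℝ} (hκ : 0 < κ) (hε : 0 < ε) :
    ∃ C : ℝ, 0 < C ∧ ∀ N : ℝ, 1 ≤ N → ∀ (ι : Type) [Fintype ι] (θ : ι → Cap d) (c : ι → Sp d),
      IsCapFamily K κ N θ → ∀ G : Finset (Fin d ⊕ Fin (d + 1) → ℤ),
      G = Finset.univ.image (fun i => label N (θ i) (c i)) →
      (G.card : ℝ) ^ 3 ≤ D * G.addEnergy G →
      ∑ i, volume (tube N (θ i) (c i)) ≤
        ENNReal.ofReal (C * N ^ ε) * volume (⋃ i, tube N (θ i) (c i)) := by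
  classical
  have hd' : (0:ℝ) < d := by exact_mod_cast hd
  obtain ⟨D', hD'⟩ := hbsg D
  set κ' : ℝ := κ / ((K + 1) * (D' + 1)) with hκ'
  have hκ'0 : 0 < κ' := by positivity
  set δ : ℝ := ε / (2 * d) with hδ
  have hδ0 : 0 < δ := by positivity
  obtain ⟨C1, hC1, h1⟩ := add_weak hd hcore hfrei K (D' + K * 5 ^ d) hκ'0 hδ0
  obtain ⟨C2, hC2, h2⟩ := union_of_weak hd K hκ'0 hδ0
  refine ⟨(K + 1) * (D' + 1) * (C2 * C1 ^ d), by positivity, ?_⟩
  intro N hN ι _ θ c hfam G hG hE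
  have hN0 : 0 < N := by linarith
  obtain ⟨G', hG'G, hGc, hG'2⟩ := hD' _ G hE
  -- the sub-family
  set S : Finset ι := Finset.univ.filter (fun i => label N (θ i) (c i) ∈ G') with hS
  have hcardG : Fintype.card ι ≤ K * G.card := by
    rw [hG, ← Finset.card_univ]
    apply Finset.card_le_mul_card_image
    intro g _
    apply hfam.overlap (fun m => g (Sum.inl m))
    intro i hi
    have h3 := (Finset.mem_filter.1 hi).2
    funext m
    rw [← h3]; rfl
  have hSG : G'.card ≤ S.card := by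
    have h3 : G' ⊆ S.image (fun i => label N (θ i) (c i)) := by
      intro g hg
      have h4 := hG'G hg
      rw [hG, Finset.mem_image] at h4
      obtain ⟨i, -, hi⟩ := h4
      rw [Finset.mem_image]
      refine ⟨i, ?_, hi⟩
      rw [hS, Finset.mem_filter]
      exact ⟨Finset.mem_univ _, by rw [hi]; exact hg⟩
    exact (Finset.card_le_card h3).trans Finset.card_image_le
  have hιS : (Fintype.card ι : ℝ) ≤ (K + 1) * (D' + 1) * S.card := by
    have h3 : (Fintype.card ι : ℝ) ≤ K * (D' * S.card) := by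
      exact_mod_cast hcardG.trans (Nat.mul_le_mul_left K (hGc.trans (Nat.mul_le_mul_left D' hSG)))
    refine h3.trans ?_
    have h4 : (0:ℝ) ≤ S.card := Nat.cast_nonneg _
    have h5 : (0:ℝ) ≤ K := Nat.cast_nonneg _
    have h6 : (0:ℝ) ≤ D' := Nat.cast_nonneg _
    calc (K:ℝ) * (D' * S.card) ≤ (K + 1) * ((D' + 1) * S.card) := by gcongr <;> linarith
      _ = _ := by ring
  set θ' : {i // i ∈ S} → Cap d := fun i => θ i with hθ'
  set c' : {i // i ∈ S} → Sp d := fun i => c i with hc'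
  have hfam' : IsCapFamily K κ' N θ' := by
    constructor
    · intro z s hs
      have h3 := hfam.overlap z (s.map (Function.Embedding.subtype _)) (by
        intro i hi
        rw [Finset.mem_map] at hi
        obtain ⟨j, hj, rfl⟩ := hi
        exact hs j hj)
      rwa [Finset.card_map] at h3
    · rw [Fintype.card_coe, hκ', div_mul_eq_mul_div, div_le_iff₀ (by positivity)]
      have := hfam.many.trans hιS
      linarith
  have hG'c : (G'.card : ℝ) ≤ (D' + K * 5 ^ d : ℕ) * N ^ d := by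
    have h3 : (G'.card : ℝ) ≤ Fintype.card ι := by
      have h4 : G'.card ≤ Fintype.card ι := by
        refine (Finset.card_le_card hG'G).trans ?_
        rw [hG]
        exact Finset.card_image_le
      exact_mod_cast h4
    have h4 := card_le hN θ hfam.overlap
    have h5 : (0:ℝ) ≤ D' * N ^ d := by positivity
    push_cast
    linarith
  have hG'2' : (G' + G').card ≤ (D' + K * 5 ^ d) * G'.card :=
    hG'2.trans (Nat.mul_le_mul_right _ (Nat.le_add_right _ _))
  have hw := h1 N hN {i // i ∈ S} θ' c' hfam' G' (fun i => (Finset.mem_filter.1 i.2).2)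
    hG'c hG'2'
  have hNδ : 1 ≤ N ^ δ := Real.one_le_rpow hN hδ0.le
  have hW : 1 ≤ C1 * N ^ δ := by nlinarith
  have h3 := h2 N hN {i // i ∈ S} θ' c' hfam' _ hW hw
  simp only [volume_tube hN0.le, Finset.sum_const, Finset.card_univ, nsmul_eq_mul] at h3 ⊢
  have h4 : (C1 * N ^ δ * N ^ δ) ^ d = C1 ^ d * N ^ ε := by
    rw [mul_assoc, mul_pow, ← Real.rpow_add hN0, ← Real.rpow_natCast, ← Real.rpow_natCast,
      ← Real.rpow_mul hN0.le, hδ]
    congr 2
    field_simp
    ring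
  rw [h4] at h3
  have hsub : volume (⋃ i, tube N (θ' i) (c' i)) ≤ volume (⋃ i, tube N (θ i) (c i)) :=
    measure_mono (Set.iUnion_subset fun i => Set.subset_iUnion (fun i => tube N (θ i) (c i)) i.1)
  have h5 : ((Fintype.card ι : ℕ) : ℝ≥0∞) ≤
      ENNReal.ofReal ((K + 1) * (D' + 1)) * (Fintype.card {i // i ∈ S} : ℕ) := by
    rw [← ENNReal.ofReal_natCast, ← ENNReal.ofReal_natCast, ← ENNReal.ofReal_mul (by positivity)]
    apply ENNReal.ofReal_le_ofReal
    rw [Fintype.card_coe]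
    exact hιS
  calc ((Fintype.card ι : ℕ) : ℝ≥0∞) * ENNReal.ofReal (N ^ (d + 2))
      ≤ ENNReal.ofReal ((K + 1) * (D' + 1)) * (Fintype.card {i // i ∈ S} : ℕ) *
          ENNReal.ofReal (N ^ (d + 2)) := by gcongr
    _ = ENNReal.ofReal ((K + 1) * (D' + 1)) * ((Fintype.card {i // i ∈ S} : ℕ) *
          ENNReal.ofReal (N ^ (d + 2))) := by rw [mul_assoc]
    _ ≤ ENNReal.ofReal ((K + 1) * (D' + 1)) * (ENNReal.ofReal (C2 * (C1 ^ d * N ^ ε)) *
          volume (⋃ i, tube N (θ i) (c i))) :=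
        mul_le_mul' le_rfl (h3.trans (mul_le_mul' le_rfl hsub))
    _ = _ := by
        rw [← mul_assoc, ← ENNReal.ofReal_mul (by positivity)]
        congr 2
        ring

end Pool.Agent.MPac5134
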