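import Pool.Agent.Lib.MP_ac5134_an.AddFibre

/-!
Tubes through one point: their labels differ by short vectors of a quadratic form that depends on
the height of the point.
-/

namespace Pool.Agent.MPac5134

open MeasureTheory Matrix Pool.Agent.MPac5134.Lat
open scoped ENNReal

variable {d : ℕ} {ι : Type*}

theorem abs_foot_le (θ : Cap d) (k : Fin d) : |θ.foot k| ≤ 1 := by
  have h1 : θ.foot k ^ 2 ≤ 1 :=
    (Finset.single_le_sum (f := fun i => θ.foot i ^ 2) (fun i _ => sq_nonneg _)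
      (Finset.mem_univ k)).trans θ.foot_mem
  rw [← sq_le_one_iff_abs_le_one]; exact h1

/-- the value of the form at height `s` -/
theorem qf_formAt {r : ℕ} (Q : Matrix (Fin r) (Fin r) ℝ) (W Y : Matrix (Fin d) (Fin r) ℝ)
    (N s : ℝ) (n : Fin r → ℤ) :
    qf (formAt (Q + Wᵀ * W) (N • Y) ((2 * N) • W) s) n = qf Q n + ∑ i, (W *ᵥ rv n) i ^ 2 +
      ∑ i, (N * ((Y *ᵥ rv n) i - 2 * s * (W *ᵥ rv n) i)) ^ 2 := by
  unfold formAt
  rw [qf_add, qf_add, qf_transpose_mul, qf_transpose_mul]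
  congr 1
  apply Finset.sum_congr rfl
  intro i _
  congr 1
  rw [sub_mulVec, smul_mulVec, smul_mulVec, smul_mulVec]
  simp only [Pi.sub_apply, Pi.smul_apply, smul_eq_mul]
  ring

/-- the bound for the form -/
noncomputable def formBound (d : ℕ) (A : ℝ) : ℝ :=
  4 + d * (2 + 2 * A) ^ 2 + d * (3 * d + 2 * A + 4 * A * (d + 2)) ^ 2

/-- points of a tube are near its height -/
theorem tube_height {N : ℝ} (hN : 1 ≤ N) (θ : Cap d) (c : Sp d) {x : Sp d}
    (hx : x ∈ tube N θ c) : |x (Fin.last d) - height N c * N ^ 2| ≤ (d + 2) * N ^ 2 := by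
  have h1 := tube_last hN θ c hx
  have h2 := height_le (by linarith : 0 < N) c
  rw [PiLp.sub_apply] at h1
  rw [abs_le] at *
  constructor <;> linarith [h1.1, h1.2, h2.1, h2.2]

theorem tube_height' {N : ℝ} (hN : 1 ≤ N) (θ : Cap d) (c : Sp d) {x : Sp d}
    (hx : x ∈ tube N θ c) : |x (Fin.last d) / N ^ 2 - height N c| ≤ d + 2 := by
  have hN2 : 0 < N ^ 2 := by positivity
  have h1 := tube_height hN θ c hx
  have e : x (Fin.last d) - height N c * N ^ 2 = (x (Fin.last d) / N ^ 2 - height N c) * N ^ 2 := by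
    field_simp
  rw [e, abs_mul, abs_of_pos hN2] at h1
  exact le_of_mul_le_mul_right h1 hN2

/-- Two tubes through one point with the same height and the same translation. -/
theorem qf_diff_le {A N : ℝ} (hN : 1 ≤ N) (hA : 0 ≤ A) {θ : ι → Cap d} {c : ι → Sp d} {r J : ℕ}
    {Q : Matrix (Fin r) (Fin r) ℝ} (hQ : Q.PosSemidef) {W Y : Matrix (Fin d) (Fin r) ℝ}
    {w y : Fin J → Fin d → ℝ} {nn : ι → Fin r → ℤ} {jj : ι → Fin J}
    (h : InProg A N θ c Q W Y w y nn jj) {x : Sp d} {T : ℤ}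
    {i i' : ι} (hi : x ∈ tube N (θ i) (c i)) (hi' : x ∈ tube N (θ i') (c i'))
    (hT : height N (c i) = T) (hT' : height N (c i') = T) (hj : jj i = jj i') :
    qf (formAt (Q + Wᵀ * W) (N • Y) ((2 * N) • W) (x (Fin.last d) / N ^ 2 - T)) (nn i - nn i') ≤
      formBound d A := by
  have hN0 : 0 < N := by linarith
  have hN2 : 0 < N ^ 2 := by positivity
  set s : ℝ := x (Fin.last d) / N ^ 2 - T with hs
  have hxs : x (Fin.last d) = (s + T) * N ^ 2 := by rw [hs]; field_simp; ring
  have hs0 : |s| ≤ d + 2 := by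
    rw [hs, ← hT]; exact tube_height' hN (θ i) (c i) hi
  rw [qf_formAt]
  have hAN : A / N ≤ A := div_le_self hA hN
  -- the first term
  have t1 : qf Q (nn i - nn i') ≤ 4 := by
    have := qf_sub_le hQ (nn i) (nn i')
    have := h.short i
    have := h.short i'
    linarith
  -- the second term
  have t2 : ∀ k, |(W *ᵥ rv (nn i - nn i')) k| ≤ 2 + 2 * A := by
    intro k
    rw [rv_sub, mulVec_sub, Pi.sub_apply]
    have e1 := h.foot i k
    have e2 := h.foot i' k
    rw [hj] at e1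
    have e3 := abs_foot_le (θ i) k
    have e4 := abs_foot_le (θ i') k
    rw [abs_le] at *
    constructor <;> linarith [e1.1, e1.2, e2.1, e2.2, e3.1, e3.2, e4.1, e4.2]
  -- the third term
  have key : ∀ (j : ι), x ∈ tube N (θ j) (c j) → height N (c j) = T → ∀ k,
      |x k.castSucc + 2 * s * N ^ 2 * (w (jj j) k + (W *ᵥ rv (nn j)) k) -
        N ^ 2 * (y (jj j) k + (Y *ᵥ rv (nn j)) k)| ≤ (3 * d / 2 + A + 2 * A * (d + 2)) * N := by
    intro j hxj hTj k
    have h1 := tube_functional (by linarith) (θ j) (c j) hxj k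
    have h2 := h.foot j k
    have h3 := h.pos j k
    rw [hTj] at h3
    rw [PiLp.sub_apply, PiLp.sub_apply] at h1
    set f := (θ j).foot k with hf
    set W' := (W *ᵥ rv (nn j)) k with hW'
    set Y' := (Y *ᵥ rv (nn j)) k with hY'
    set b := axisPt (θ j) (c j) (T * N ^ 2) k with hb
    have hbb : b = c j k.castSucc + 2 * f * (c j (Fin.last d) - T * N ^ 2) := rfl
    have e1 : x k.castSucc + 2 * s * N ^ 2 * (w (jj j) k + W') - N ^ 2 * (y (jj j) k + Y') =
        (x k.castSucc - c j k.castSucc + 2 * f * (x (Fin.last d) - c j (Fin.last d))) +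
        (-(2 * s * N ^ 2) * (f - w (jj j) k - W')) + N ^ 2 * (b / N ^ 2 - y (jj j) k - Y') := by
      rw [hbb, hxs]; field_simp; ring
    rw [e1]
    have e2 : |-(2 * s * N ^ 2) * (f - w (jj j) k - W')| ≤ 2 * A * (d + 2) * N := by
      rw [abs_mul, abs_neg, abs_mul, abs_mul, abs_of_pos hN2, abs_of_pos (by norm_num : (0:ℝ) < 2)]
      calc 2 * |s| * N ^ 2 * |f - w (jj j) k - W'| ≤ 2 * (d + 2) * N ^ 2 * (A / N) := by gcongr
        _ = 2 * A * (d + 2) * N := by field_simp
    have e3 : |N ^ 2 * (b / N ^ 2 - y (jj j) k - Y')| ≤ A * N := by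
      rw [abs_mul, abs_of_pos hN2]
      calc N ^ 2 * |b / N ^ 2 - y (jj j) k - Y'| ≤ N ^ 2 * (A / N) := by gcongr
        _ = A * N := by field_simp
    calc _ ≤ |x k.castSucc - c j k.castSucc + 2 * f * (x (Fin.last d) - c j (Fin.last d))| +
          |-(2 * s * N ^ 2) * (f - w (jj j) k - W')| +
          |N ^ 2 * (b / N ^ 2 - y (jj j) k - Y')| := by
          refine (abs_add_le _ _).trans ?_
          gcongr
          exact abs_add_le _ _
      _ ≤ 3 * d * N / 2 + 2 * A * (d + 2) * N + A * N := by gcongr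
      _ = _ := by ring
  have t3 : ∀ k, |N * ((Y *ᵥ rv (nn i - nn i')) k - 2 * s * (W *ᵥ rv (nn i - nn i')) k)| ≤
      3 * d + 2 * A + 4 * A * (d + 2) := by
    intro k
    rw [rv_sub, mulVec_sub, mulVec_sub, Pi.sub_apply, Pi.sub_apply]
    have e1 := key i hi hT k
    have e2 := key i' hi' hT' k
    rw [hj] at e1
    set a := (Y *ᵥ rv (nn i)) k
    set a' := (Y *ᵥ rv (nn i')) k
    set b := (W *ᵥ rv (nn i)) k
    set b' := (W *ᵥ rv (nn i')) k
    have e3 : |N ^ 2 * (a - a' - 2 * s * (b - b'))| ≤ (3 * d + 2 * A + 4 * A * (d + 2)) * N := by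
      rw [abs_le] at e1 e2 ⊢
      constructor <;> linarith [e1.1, e1.2, e2.1, e2.2]
    have e4 : N ^ 2 * (a - a' - 2 * s * (b - b')) = (N * (a - a' - 2 * s * (b - b'))) * N := by
      ring
    rw [e4, abs_mul, abs_of_pos hN0] at e3
    exact le_of_mul_le_mul_right e3 hN0
  unfold formBound
  have s2 : ∑ k, (W *ᵥ rv (nn i - nn i')) k ^ 2 ≤ d * (2 + 2 * A) ^ 2 := by
    calc _ ≤ ∑ _k : Fin d, (2 + 2 * A) ^ 2 := by
          apply Finset.sum_le_sum
          intro k _
          rw [← sq_abs]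
          exact pow_le_pow_left₀ (abs_nonneg _) (t2 k) 2
      _ = _ := by rw [Finset.sum_const, Finset.card_univ, Fintype.card_fin, nsmul_eq_mul]
  have s3 : ∑ k, (N * ((Y *ᵥ rv (nn i - nn i')) k - 2 * s * (W *ᵥ rv (nn i - nn i')) k)) ^ 2 ≤
      d * (3 * d + 2 * A + 4 * A * (d + 2)) ^ 2 := by
    calc _ ≤ ∑ _k : Fin d, (3 * (d:ℝ) + 2 * A + 4 * A * (d + 2)) ^ 2 := by
          apply Finset.sum_le_sum
          intro k _
          rw [← sq_abs]
          exact pow_le_pow_left₀ (abs_nonneg _) (t3 k) 2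
      _ = _ := by rw [Finset.sum_const, Finset.card_univ, Fintype.card_fin, nsmul_eq_mul]
  linarith

/-- High multiplicity forces many short vectors. -/
theorem many_short [Fintype ι] {K : ℕ} {A N : ℝ} (hN : 1 ≤ N) (hA : 0 ≤ A) {θ : ι → Cap d}
    {c : ι → Sp d}
    (hK : ∀ z : Fin d → ℤ, ∀ s : Finset ι, (∀ i ∈ s, cell N (θ i) = z) → s.card ≤ K)
    {r J : ℕ} {Q : Matrix (Fin r) (Fin r) ℝ} (hQ : Q.PosSemidef) {W Y : Matrix (Fin d) (Fin r) ℝ}
    {w y : Fin J → Fin d → ℝ} {nn : ι → Fin r → ℤ} {jj : ι → Fin J}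
    (h : InProg A N θ c Q W Y w y nn jj) {x : Sp d} {lam : ℝ} (hlam0 : 0 < lam)
    (hlam : lam < mult N θ c x) :
    ∃ t : ℤ, |x (Fin.last d) / N ^ 2 - t| ≤ d + 2 ∧
      ∃ T : Finset (Fin r → ℤ), (∀ n ∈ T, qf (formAt (Q + Wᵀ * W) (N • Y) ((2 * N) • W)
        (x (Fin.last d) / N ^ 2 - t)) n ≤ formBound d A) ∧
        lam ≤ (2 * d + 5) * J * (capConst d K A * T.card) := by
  classical
  by_contra hcon
  push Not at hcon
  rw [mult_eq_through] at hlam
  set c1 := capConst d K A with hc1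
  have hc10 : 0 ≤ c1 := capConst_nonneg _ _ _
  set u : ℝ := x (Fin.last d) / N ^ 2 with hu
  set f : ι → ℤ × Fin J := fun i => (height N (c i), jj i) with hf
  set H : Finset ℤ := Finset.Icc ⌈u - (d + 2)⌉ ⌊u + (d + 2)⌋ with hH
  have hHc : (H.card : ℝ) ≤ 2 * d + 5 := by
    rw [hH, Int.card_Icc]
    have h1 : (⌊u + (d + 2)⌋ + 1 - ⌈u - (d + 2)⌉ : ℤ) ≤ 2 * (d:ℤ) + 5 := by
      have h2 := Int.floor_le (u + (d + 2))
      have h3 := Int.le_ceil (u - (d + 2))
      have h4 : ((⌊u + (d + 2)⌋ + 1 - ⌈u - (d + 2)⌉ : ℤ) : ℝ) ≤ ((2 * (d:ℤ) + 5 : ℤ) : ℝ) := by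
        push_cast; linarith
      exact_mod_cast h4
    have h5 : ((⌊u + (d + 2)⌋ + 1 - ⌈u - (d + 2)⌉).toNat : ℤ) ≤ 2 * (d:ℤ) + 5 := by omega
    exact_mod_cast h5
  have hthr : ∀ i ∈ through N θ c x, x ∈ tube N (θ i) (c i) := fun i hi =>
    (Finset.mem_filter.1 hi).2
  have hmaps : ∀ i ∈ through N θ c x, f i ∈ H ×ˢ (Finset.univ : Finset (Fin J)) := by
    intro i hi
    rw [Finset.mem_product]
    refine ⟨?_, Finset.mem_univ _⟩
    have h1 := tube_height' hN (θ i) (c i) (hthr i hi)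
    rw [← hu, abs_le] at h1
    rw [hH, Finset.mem_Icc, Int.ceil_le, Int.le_floor]
    simp only [hf]
    constructor <;> linarith [h1.1, h1.2]
  -- the labels of one class
  set I : ℤ × Fin J → Finset ι := fun p => (through N θ c x).filter (fun i => f i = p) with hI
  have hsum : (through N θ c x).card = ∑ p ∈ H ×ˢ (Finset.univ : Finset (Fin J)), (I p).card :=
    Finset.card_eq_sum_card_fiberwise hmaps
  have hcard : ∀ p, ((I p).card : ℝ) ≤ c1 * ((I p).image nn).card := by
    intro p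
    have h1 := Finset.card_eq_sum_card_image nn (I p)
    rw [h1]
    push_cast
    calc ∑ q ∈ (I p).image nn, ((((I p).filter fun i => nn i = q).card : ℕ) : ℝ)
        ≤ ∑ _q ∈ (I p).image nn, c1 := by
          apply Finset.sum_le_sum
          intro q _
          apply near_card hN θ hK _ (fun m => w p.2 m + (W *ᵥ rv q) m)
          intro i hi m
          obtain ⟨hi1, hi2⟩ := Finset.mem_filter.1 hi
          have hi3 : jj i = p.2 := (Prod.ext_iff.1 (Finset.mem_filter.1 hi1).2).2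
          have h2 := h.foot i m
          rw [hi2, hi3] at h2
          rw [← sub_sub]; exact h2
      _ = _ := by rw [Finset.sum_const, nsmul_eq_mul]; ring
  -- there is a tube through the point
  obtain ⟨i1, hi1⟩ : (through N θ c x).Nonempty := by
    rw [← Finset.card_pos]
    have h1 : (0:ℝ) < (through N θ c x).card := hlam0.trans hlam
    exact_mod_cast h1
  have hJ : 0 < J := by
    have := (jj i1).isLt; omega
  have hJ' : (0:ℝ) < J := by exact_mod_cast hJ
  have hD : (0:ℝ) < (2 * d + 5) * J := by positivity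
  have hsmall : ∀ p, (2 * d + 5) * (J:ℝ) * (I p).card < lam := by
    intro p
    rcases (I p).eq_empty_or_nonempty with he | ⟨i0, hi0⟩
    · rw [he]
      simpa using hlam0
    · obtain ⟨hi1, hi2⟩ := Finset.mem_filter.1 hi0
      have hp1 : height N (c i0) = p.1 := (Prod.ext_iff.1 hi2).1
      have hp2 : jj i0 = p.2 := (Prod.ext_iff.1 hi2).2
      have h0 := tube_height' hN (θ i0) (c i0) (hthr i0 hi1)
      rw [hp1] at h0
      have h1 := hcon p.1 h0 (((I p).image nn).image (fun n => n - nn i0)) (by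
        intro n hn
        obtain ⟨n', hn', rfl⟩ := Finset.mem_image.1 hn
        obtain ⟨i, hi, rfl⟩ := Finset.mem_image.1 hn'
        obtain ⟨hi3, hi4⟩ := Finset.mem_filter.1 hi
        have hq1 : height N (c i) = p.1 := (Prod.ext_iff.1 hi4).1
        have hq2 : jj i = p.2 := (Prod.ext_iff.1 hi4).2
        exact qf_diff_le hN hA hQ h (hthr i hi3) (hthr i0 hi1) hq1 hp1 (hq2.trans hp2.symm))
      rw [Finset.card_image_of_injective _ (sub_left_injective)] at h1
      calc (2 * d + 5) * (J:ℝ) * (I p).card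
          ≤ (2 * d + 5) * J * (c1 * ((I p).image nn).card) := by
            have := hcard p
            gcongr
        _ < lam := h1
  have h5 : ((through N θ c x).card : ℝ) ≤ lam := by
    rw [hsum]
    push_cast
    have h6 : ∀ p ∈ H ×ˢ (Finset.univ : Finset (Fin J)), ((I p).card : ℝ) ≤
        lam / ((2 * d + 5) * J) := by
      intro p _
      rw [le_div_iff₀ hD]
      have := hsmall p
      linarith
    calc ∑ p ∈ H ×ˢ (Finset.univ : Finset (Fin J)), ((I p).card : ℝ)
        ≤ ∑ _p ∈ H ×ˢ (Finset.univ : Finset (Fin J)), lam / ((2 * d + 5) * J) :=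
          Finset.sum_le_sum h6
      _ = (H.card * J) * (lam / ((2 * d + 5) * J)) := by
        rw [Finset.sum_const, Finset.card_product, Finset.card_univ, Fintype.card_fin,
          nsmul_eq_mul]
        push_cast; ring
      _ ≤ ((2 * d + 5) * J) * (lam / ((2 * d + 5) * J)) := by gcongr
      _ = lam := by field_simp
  linarith

end Pool.Agent.MPac5134
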