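import Pool.Agent.Lib.MP_ac5134_an.AddSub

/-!
The norm inequality for a sub-family: the constant depends on the whole family only.
-/

namespace Pool.Agent.MPac5134

open MeasureTheory Matrix Pool.Agent.MPac5134.Lat
open scoped ENNReal Pointwise

variable {d : ℕ}

/-- the point `(0, …, 0, t)` -/
noncomputable def farPt (d : ℕ) (t : ℝ) : Sp d :=
  WithLp.toLp 2 (Fin.snoc (fun _ => 0) t : Fin (d + 1) → ℝ)

theorem farPt_last (t : ℝ) : farPt d t (Fin.last d) = t := by
  simp [farPt]

open Classical in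
/-- the tubes outside `S` are moved so that they are disjoint from each other -/
noncomputable def moved {ι : Type*} (S : Finset ι) (N : ℝ) (e : ι → ℕ) (c : ι → Sp d) (i : ι) :
    Sp d := if i ∈ S then c i else farPt d (e i * (3 * (d + 1) * N ^ 2))

theorem mult_moved_le {ι : Type*} [Fintype ι] (S : Finset ι) {N : ℝ} (hN : 1 ≤ N) {e : ι → ℕ}
    (he : Function.Injective e) (θ : ι → Cap d) (c : ι → Sp d) (x : Sp d) :
    mult N θ (moved S N e c) x ≤ multOn S N θ c x + 1 := by
  classical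
  have hN2 : 0 < N ^ 2 := by positivity
  have hd1 : (0:ℝ) < (d:ℝ) + 1 := by positivity
  unfold mult multOn
  rw [← Finset.sum_add_sum_compl S]
  have h1 : ∑ i ∈ S, (tube N (θ i) (moved S N e c i)).indicator (fun _ => (1:ℝ)) x =
      ∑ i ∈ S, (tube N (θ i) (c i)).indicator (fun _ => (1:ℝ)) x := by
    apply Finset.sum_congr rfl
    intro i hi
    have : moved S N e c i = c i := by unfold moved; rw [if_pos hi]
    rw [this]
  rw [h1]
  have h2 : ∑ i ∈ Sᶜ, (tube N (θ i) (moved S N e c i)).indicator (fun _ => (1:ℝ)) x ≤ 1 := by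
    by_cases h : ∃ i ∈ Sᶜ, x ∈ tube N (θ i) (moved S N e c i)
    · obtain ⟨i, hi, hx⟩ := h
      rw [Finset.sum_eq_single_of_mem i hi]
      · rw [Set.indicator_of_mem hx]
      · intro j hj hji
        apply Set.indicator_of_notMem
        intro hxj
        have hi' : moved S N e c i = farPt d (e i * (3 * (d + 1) * N ^ 2)) := by
          unfold moved; rw [if_neg (Finset.mem_compl.1 hi)]
        have hj' : moved S N e c j = farPt d (e j * (3 * (d + 1) * N ^ 2)) := by
          unfold moved; rw [if_neg (Finset.mem_compl.1 hj)]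
        have e1 := tube_last hN (θ i) _ hx
        have e2 := tube_last hN (θ j) _ hxj
        rw [PiLp.sub_apply, hi', farPt_last] at e1
        rw [PiLp.sub_apply, hj', farPt_last] at e2
        have hne : e i ≠ e j := fun h => hji (he h).symm
        have h3 : (1:ℝ) ≤ |(e i : ℝ) - e j| := by
          have : (1:ℤ) ≤ |(e i : ℤ) - e j| := Int.one_le_abs (by omega)
          exact_mod_cast this
        have h4 : |(e i : ℝ) * (3 * (d + 1) * N ^ 2) - e j * (3 * (d + 1) * N ^ 2)| ≤
            2 * ((d + 1) * N ^ 2) := by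
          rw [abs_le] at e1 e2 ⊢
          constructor <;> linarith [e1.1, e1.2, e2.1, e2.2]
        rw [← sub_mul, abs_mul, abs_of_pos (by positivity : 0 < 3 * ((d:ℝ) + 1) * N ^ 2)] at h4
        have h5 : 0 < ((d:ℝ) + 1) * N ^ 2 := by positivity
        nlinarith
    · push Not at h
      rw [Finset.sum_eq_zero]
      · exact zero_le_one
      · intro i hi
        exact Set.indicator_of_notMem (h i hi) _
  linarith

theorem weak_moved {ι : Type*} [Fintype ι] (hd : 0 < d) (S : Finset ι) {K : ℕ} {N : ℝ}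
    (hN : 1 ≤ N) {e : ι → ℕ} (he : Function.Injective e) {θ : ι → Cap d} {c : ι → Sp d}
    (hK : ∀ z : Fin d → ℤ, ∀ s : Finset ι, (∀ i ∈ s, cell N (θ i) = z) → s.card ≤ K)
    {W : ℝ} (hW : 0 ≤ W)
    (h : WeakBound N W (fun i : {i // i ∈ S} => θ i) (fun i : {i // i ∈ S} => c i)) :
    WeakBound N (4 * (W + K * 5 ^ d)) θ (moved S N e c) := by
  intro lam hlam
  have hN0 : 0 < N := by linarith
  have hd' : (1:ℝ) ≤ d := by exact_mod_cast hd
  have hexp : 1 + 1 / (d:ℝ) ≤ 2 := by
    have : 1 / (d:ℝ) ≤ 1 := by rw [div_le_one (by linarith)]; exact hd'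
    linarith
  have h4 : (lam / 2) ^ (-(1 + 1 / (d:ℝ))) ≤ 4 * lam ^ (-(1 + 1 / (d:ℝ))) := by
    rw [Real.div_rpow hlam.le (by norm_num), Real.rpow_neg (by norm_num : (0:ℝ) ≤ 2), div_inv_eq_mul,
      mul_comm]
    have : (2:ℝ) ^ (1 + 1 / (d:ℝ)) ≤ 4 := by
      calc (2:ℝ) ^ (1 + 1 / (d:ℝ)) ≤ (2:ℝ) ^ (2:ℝ) :=
            Real.rpow_le_rpow_of_exponent_le (by norm_num) hexp
        _ = 4 := by norm_num
    gcongr
  have hlp : 0 ≤ lam ^ (-(1 + 1 / (d:ℝ))) := by positivity
  have hKd : (0:ℝ) ≤ K * 5 ^ d := by positivity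
  rcases le_or_gt 2 lam with h2 | h2
  · have hsub : {x : Sp d | lam < mult N θ (moved S N e c) x} ⊆
        {x | lam / 2 < mult N (fun i : {i // i ∈ S} => θ i) (fun i : {i // i ∈ S} => c i) x} := by
      intro x hx
      have h5 := mult_moved_le S hN he θ c x
      rw [multOn_eq] at h5
      have h6 : lam < mult N θ (moved S N e c) x := hx
      change lam / 2 < _
      linarith
    refine (measure_mono hsub).trans ((h (lam / 2) (by positivity)).trans
      (ENNReal.ofReal_le_ofReal ?_))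
    calc W * N ^ (2 * d + 2) * (lam / 2) ^ (-(1 + 1 / (d:ℝ)))
        ≤ W * N ^ (2 * d + 2) * (4 * lam ^ (-(1 + 1 / (d:ℝ)))) := by gcongr
      _ = (4 * W) * N ^ (2 * d + 2) * lam ^ (-(1 + 1 / (d:ℝ))) := by ring
      _ ≤ _ := by gcongr; linarith
  · have hsub : {x : Sp d | lam < mult N θ (moved S N e c) x} ⊆
        ⋃ i, tube N (θ i) (moved S N e c i) := by
      intro x hx
      have h6 : lam < mult N θ (moved S N e c) x := hx
      by_contra hcon
      rw [Set.mem_iUnion] at hcon
      push Not at hcon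
      have : mult N θ (moved S N e c) x = 0 := by
        unfold mult
        exact Finset.sum_eq_zero fun i _ => Set.indicator_of_notMem (hcon i) _
      linarith
    refine (measure_mono hsub).trans ((measure_iUnion_le _).trans ?_)
    rw [tsum_fintype]
    simp only [volume_tube hN0.le, Finset.sum_const, Finset.card_univ, nsmul_eq_mul]
    rw [← ENNReal.ofReal_natCast, ← ENNReal.ofReal_mul (by positivity)]
    apply ENNReal.ofReal_le_ofReal
    have h7 := card_le hN θ hK
    have h8 : (1:ℝ) ≤ (lam / 2) ^ (-(1 + 1 / (d:ℝ))) := by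
      apply Real.one_le_rpow_of_pos_of_le_one_of_nonpos (by positivity) (by linarith)
      have : 0 ≤ 1 / (d:ℝ) := by positivity
      linarith
    have h9 : N ^ (2 * d + 2) = N ^ d * N ^ (d + 2) := by rw [← pow_add]; congr 1; omega
    calc (Fintype.card ι : ℝ) * N ^ (d + 2) ≤ (K * 5 ^ d * N ^ d) * N ^ (d + 2) := by gcongr
      _ = (K * 5 ^ d) * N ^ (2 * d + 2) * 1 := by rw [h9]; ring
      _ ≤ (K * 5 ^ d) * N ^ (2 * d + 2) * (4 * lam ^ (-(1 + 1 / (d:ℝ)))) := by
          gcongr
          exact h8.trans h4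
      _ = (4 * (K * 5 ^ d)) * N ^ (2 * d + 2) * lam ^ (-(1 + 1 / (d:ℝ))) := by ring
      _ ≤ _ := by gcongr; linarith

/-- The norm inequality for a sub-family with a weak type estimate. -/
theorem norm_sub (hd : 0 < d) (K : ℕ) {κ : ℝ} (hκ : 0 < κ) :
    ∃ C : ℝ, 1 ≤ C ∧ ∀ N : ℝ, 1 ≤ N → ∀ (ι : Type) [Fintype ι] (θ : ι → Cap d) (c : ι → Sp d),
      IsCapFamily K κ N θ → ∀ (S : Finset ι) (W : ℝ), 1 ≤ W →
      WeakBound N W (fun i : {i // i ∈ S} => θ i) (fun i : {i // i ∈ S} => c i) →
      ∀ p : ℝ≥0∞, 1 ≤ p → eLpNorm (multOn S N θ c) p volume ≤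
        ENNReal.ofReal (C * W) * eLpNorm (mult N θ (fun _ => 0)) p volume := by
  obtain ⟨C, hC, h⟩ := weak_to_norm hd K hκ
  refine ⟨C * (4 * (1 + K * 5 ^ d)), by
    have : (0:ℝ) ≤ K * 5 ^ d := by positivity
    nlinarith, ?_⟩
  intro N hN ι _ θ c hfam S W hW hw p hp
  let e : ι → ℕ := fun i => (Fintype.equivFin ι i : ℕ)
  have he : Function.Injective e := by
    intro i j hij
    exact (Fintype.equivFin ι).injective (Fin.ext hij)
  have h1 := weak_moved hd S hN he hfam.overlap (by linarith) hw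
  have hKd : (0:ℝ) ≤ K * 5 ^ d := by positivity
  have hW1 : 1 ≤ 4 * (W + K * 5 ^ d) := by linarith
  have h2 := h N hN ι θ (moved S N e c) hfam _ hW1 h1 p hp
  have h3 : eLpNorm (multOn S N θ c) p volume ≤
      eLpNorm (mult N θ (moved S N e c)) p volume := by
    have e1 : multOn S N θ c = multOn S N θ (moved S N e c) := by
      funext x
      unfold multOn
      apply Finset.sum_congr rfl
      intro i hi
      have : moved S N e c i = c i := by unfold moved; rw [if_pos hi]
      rw [this]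
    rw [e1]
    exact eLpNorm_multOn_le S N θ _ p
  refine h3.trans (h2.trans ?_)
  set s : ℝ := min (1 / p.toReal) (d * (1 - 1 / p.toReal)) with hs
  have hs1 : s ≤ 1 := by
    by_cases hpt : p = ⊤
    · rw [hs, hpt]; simp
    · have hr1 : 1 ≤ p.toReal := by
        have := ENNReal.toReal_mono hpt hp
        simpa using this
      refine (min_le_left _ _).trans ?_
      rw [div_le_one (by linarith)]; exact hr1
  refine mul_le_mul' (ENNReal.ofReal_le_ofReal ?_) le_rfl
  have h4 : (4 * (W + K * 5 ^ d)) ^ s ≤ 4 * (W + K * 5 ^ d) := by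
    calc (4 * (W + K * 5 ^ d)) ^ s ≤ (4 * (W + K * 5 ^ d)) ^ (1:ℝ) :=
          Real.rpow_le_rpow_of_exponent_le hW1 hs1
      _ = _ := Real.rpow_one _
  have h5 : 4 * (W + K * 5 ^ d) ≤ 4 * (1 + K * 5 ^ d) * W := by nlinarith
  calc C * (4 * (W + K * 5 ^ d)) ^ s ≤ C * (4 * (1 + K * 5 ^ d) * W) := by
        gcongr; exact h4.trans h5
    _ = _ := by ring

end Pool.Agent.MPac5134
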