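import Pool.Agent.Lib.MP_ac5134_an.Ratio

/-!
From a bound at the critical exponent `1 + 1/d` to the volume of the union.
-/

namespace Pool.Agent.MPac5134

open MeasureTheory
open scoped ENNReal InnerProductSpace

variable {d : ℕ} {ι : Type*} [Fintype ι]

theorem union_of_crit (hd : 0 < d) {B N : ℝ} (hN : 1 ≤ N) (hB : 1 ≤ B)
    (θ : ι → Cap d) (c : ι → Sp d)
    (hcrit : ∫⁻ x, ENNReal.ofReal ((mult N θ c x) ^ (1 + 1 / (d:ℝ))) ≤
      ENNReal.ofReal (B * (Fintype.card ι * N ^ (d + 2)))) :
    ∑ i, volume (tube N (θ i) (c i)) ≤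
      ENNReal.ofReal (2 * (2 * B) ^ d) * volume (⋃ i, tube N (θ i) (c i)) := by
  have hN0 : 0 < N := by linarith
  have hB0 : 0 < B := by linarith
  have hd' : (0:ℝ) < d := by exact_mod_cast hd
  have hmass := lintegral_mult hN0.le θ c
  set U : Set (Sp d) := ⋃ i, tube N (θ i) (c i) with hU
  have hUm : MeasurableSet U := MeasurableSet.iUnion fun i => measurableSet_tube _ _ _
  set lam : ℝ := (2 * B) ^ (d:ℝ) with hlam
  have hlam0 : 0 < lam := Real.rpow_pos_of_pos (by positivity) _
  have hlam1 : lam ^ (-(1 / (d:ℝ))) = (2 * B)⁻¹ := by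
    rw [hlam, ← Real.rpow_mul (by positivity)]
    have : (d:ℝ) * -(1 / (d:ℝ)) = -1 := by field_simp
    rw [this, Real.rpow_neg_one]
  have hpt : ∀ x, ENNReal.ofReal (mult N θ c x) ≤
      ENNReal.ofReal lam * U.indicator (fun _ => (1:ℝ≥0∞)) x +
      ENNReal.ofReal (lam ^ (-(1 / (d:ℝ)))) *
        ENNReal.ofReal ((mult N θ c x) ^ (1 + 1 / (d:ℝ))) := by
    intro x
    have h0 := mult_nonneg N θ c x
    rcases h0.eq_or_lt with h | h
    · rw [← h, ENNReal.ofReal_zero]; exact bot_le
    have hxU : x ∈ U := by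
      by_contra hx
      apply h.ne'
      unfold mult
      apply Finset.sum_eq_zero
      intro i _
      apply Set.indicator_of_notMem
      intro hxi
      exact hx (Set.mem_iUnion.2 ⟨i, hxi⟩)
    rw [Set.indicator_of_mem hxU, mul_one, ← ENNReal.ofReal_mul (by positivity),
      ← ENNReal.ofReal_add (by positivity) (by positivity)]
    apply ENNReal.ofReal_le_ofReal
    rcases le_total (mult N θ c x) lam with hle | hge
    · have e3 : 0 ≤ lam ^ (-(1 / (d:ℝ))) * (mult N θ c x) ^ (1 + 1 / (d:ℝ)) := by positivity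
      linarith
    · have e1 : mult N θ c x = mult N θ c x ^ (-(1 / (d:ℝ))) *
          mult N θ c x ^ (1 + 1 / (d:ℝ)) := by
        rw [← Real.rpow_add h]
        have : -(1 / (d:ℝ)) + (1 + 1 / d) = 1 := by ring
        rw [this, Real.rpow_one]
      have e2 : mult N θ c x ^ (-(1 / (d:ℝ))) ≤ lam ^ (-(1 / (d:ℝ))) :=
        Real.rpow_le_rpow_of_nonpos hlam0 hge (by
          have : 0 < 1 / (d:ℝ) := by positivity
          linarith)
      have e4 : 0 ≤ mult N θ c x ^ (1 + 1 / (d:ℝ)) := by positivity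
      have e5 := mul_le_mul_of_nonneg_right e2 e4
      rw [← e1] at e5
      linarith
  have hX : ∑ i, volume (tube N (θ i) (c i)) = ENNReal.ofReal (Fintype.card ι * N ^ (d + 2)) := by
    simp only [volume_tube hN0.le, Finset.sum_const, Finset.card_univ, nsmul_eq_mul]
    rw [ENNReal.ofReal_mul (by positivity), ENNReal.ofReal_natCast]
  have h1 : ENNReal.ofReal (Fintype.card ι * N ^ (d + 2)) ≤
      ENNReal.ofReal lam * volume U +
        ENNReal.ofReal ((2 * B)⁻¹) * ENNReal.ofReal (B * (Fintype.card ι * N ^ (d + 2))) := by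
    rw [← hmass, ← hlam1]
    refine (lintegral_mono hpt).trans ?_
    rw [lintegral_add_left ((measurable_const.indicator hUm).const_mul _),
      lintegral_const_mul' _ _ ENNReal.ofReal_ne_top,
      lintegral_const_mul' _ _ ENNReal.ofReal_ne_top,
      lintegral_indicator_const hUm, one_mul]
    gcongr
  rw [hX]
  set X : ℝ := Fintype.card ι * N ^ (d + 2) with hXdef
  have hX0 : 0 ≤ X := by positivity
  have e1 : ENNReal.ofReal ((2 * B)⁻¹) * ENNReal.ofReal (B * X) = ENNReal.ofReal (X / 2) := by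
    rw [← ENNReal.ofReal_mul (by positivity)]
    congr 1
    field_simp
  rw [e1] at h1
  have e2 : ENNReal.ofReal X = ENNReal.ofReal (X / 2) + ENNReal.ofReal (X / 2) := by
    rw [← ENNReal.ofReal_add (by positivity) (by positivity)]
    congr 1
    ring
  have h2 : ENNReal.ofReal (X / 2) ≤ ENNReal.ofReal lam * volume U := by
    rw [e2] at h1
    exact (ENNReal.add_le_add_iff_right ENNReal.ofReal_ne_top).1 h1
  have e3 : lam = (2 * B) ^ d := by rw [hlam, Real.rpow_natCast]
  calc ENNReal.ofReal X = 2 * ENNReal.ofReal (X / 2) := by rw [e2, two_mul]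
    _ ≤ 2 * (ENNReal.ofReal lam * volume U) := by gcongr
    _ = _ := by
        rw [← mul_assoc, e3, ENNReal.ofReal_mul (by norm_num)]
        norm_num

end Pool.Agent.MPac5134
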