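import Pool.Agent.Lib.MP_ac5134_an.AddWeak
import Pool.Agent.Lib.MP_ac5134_an.FlagUnion

/-!
From sets of labels with small doubling to progressions, and from the weak type estimate to the
volume of the union.
-/

namespace Pool.Agent.MPac5134

open MeasureTheory Matrix Pool.Agent.MPac5134.Lat
open scoped ENNReal Pointwise

variable {d : ℕ}

theorem WeakBound.mono {ι : Type*} [Fintype ι] {N W W' : ℝ} (hN : 0 ≤ N) {θ : ι → Cap d}
    {c : ι → Sp d} (h : WeakBound N W θ c) (hW : W ≤ W') : WeakBound N W' θ c := by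
  intro lam hlam
  refine (h lam hlam).trans (ENNReal.ofReal_le_ofReal ?_)
  gcongr

/-- the conclusion of Freiman's theorem in the form used here -/
def FreimanBound (D R J : ℕ) (A : ℝ) : Prop :=
  ∀ (σ : Type) [Fintype σ] [DecidableEq σ] (G : Finset (σ → ℤ)), G.Nonempty →
    (G + G).card ≤ D * G.card →
    ∃ (Q : Matrix (Fin R) (Fin R) ℝ) (Ψ : Matrix σ (Fin R) ℝ) (X : Finset (σ → ℤ)), Q.PosDef ∧
      X.card ≤ J ∧
      (∀ g ∈ G, ∃ x ∈ X, ∃ n : Fin R → ℤ, qf Q n ≤ 1 ∧ ∀ i, (g i : ℝ) = x i + (Ψ *ᵥ rv n) i) ∧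
      (∀ T : Finset (Fin R → ℤ), (∀ n ∈ T, qf Q n ≤ 4) → (T.card : ℝ) ≤ A * G.card)

theorem abs_sub_floor_div_le {N : ℝ} (hN : 0 < N) (u : ℝ) : |u / N - ⌊u⌋ / N| ≤ 1 / N := by
  rw [← sub_div, abs_div, abs_of_pos hN]
  have h1 := Int.floor_le u
  have h2 := (Int.lt_floor_add_one u).le
  have h3 : |u - ⌊u⌋| ≤ 1 := by rw [abs_le]; constructor <;> linarith
  gcongr

/-- A family whose labels have small doubling lies in a progression. -/
theorem exists_prog {D R J : ℕ} {A : ℝ} (hF : FreimanBound D R J A) {N : ℝ} (hN : 1 ≤ N)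
    {ι : Type*} [Nonempty ι] (θ : ι → Cap d) (c : ι → Sp d)
    (H : Finset (Fin d ⊕ Fin (d + 1) → ℤ)) (hH : ∀ i, label N (θ i) (c i) ∈ H)
    (hHH : (H + H).card ≤ D * H.card) :
    ∃ (J' : ℕ) (Q : Matrix (Fin R) (Fin R) ℝ) (W Y : Matrix (Fin d) (Fin R) ℝ)
      (w y : Fin J' → Fin d → ℝ) (nn : ι → Fin R → ℤ) (jj : ι → Fin J'),
      J' ≤ J ∧ Q.PosDef ∧ InProg 1 N θ c Q W Y w y nn jj ∧
      ∀ T : Finset (Fin R → ℤ), (∀ n ∈ T, qf Q n ≤ 4) → (T.card : ℝ) ≤ A * H.card := by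
  classical
  have hN0 : 0 < N := by linarith
  have hne : H.Nonempty := by
    obtain ⟨i⟩ := ‹Nonempty ι›
    exact ⟨_, hH i⟩
  obtain ⟨Q, Ψ, X, hQ, hX, hlab, hcount⟩ := hF (Fin d ⊕ Fin (d + 1)) H hne (by convert hHH)
  have hch : ∀ i, ∃ x ∈ X, ∃ n : Fin R → ℤ, qf Q n ≤ 1 ∧
      ∀ k, (label N (θ i) (c i) k : ℝ) = x k + (Ψ *ᵥ rv n) k := fun i => hlab _ (hH i)
  choose x hxX n hn hlabn using hch
  let e : X ≃ Fin X.card := X.equivFin
  refine ⟨X.card, Q, fun m a => Ψ (Sum.inl m) a / N, fun m a => Ψ (Sum.inr m.castSucc) a / N,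
    fun j m => ((e.symm j : Fin d ⊕ Fin (d + 1) → ℤ) (Sum.inl m) : ℝ) / N,
    fun j m => ((e.symm j : Fin d ⊕ Fin (d + 1) → ℤ) (Sum.inr m.castSucc) : ℝ) / N,
    n, fun i => e ⟨x i, hxX i⟩, hX, hQ, ⟨hn, ?_, ?_⟩, hcount⟩
  · intro i m
    have h1 := hlabn i (Sum.inl m)
    have h2 : (label N (θ i) (c i) (Sum.inl m) : ℝ) = ⌊N * (θ i).foot m⌋ := rfl
    rw [h2] at h1
    have h3 : (Matrix.mulVec (fun m a => Ψ (Sum.inl m) a / N) (rv (n i))) m =
        (Ψ *ᵥ rv (n i)) (Sum.inl m) / N := by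
      simp only [mulVec, dotProduct]
      rw [Finset.sum_div]
      exact Finset.sum_congr rfl fun a _ => by ring
    rw [h3]
    simp only [Equiv.symm_apply_apply]
    have h4 := abs_sub_floor_div_le hN0 (N * (θ i).foot m)
    have h5 : (θ i).foot m - (x i (Sum.inl m) : ℝ) / N - (Ψ *ᵥ rv (n i)) (Sum.inl m) / N =
        N * (θ i).foot m / N - ⌊N * (θ i).foot m⌋ / N := by
      rw [h1]; field_simp; ring
    rw [h5]; exact h4
  · intro i m
    have h1 := hlabn i (Sum.inr m.castSucc)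
    have h2 : (label N (θ i) (c i) (Sum.inr m.castSucc) : ℝ) =
        ⌊axisPt (θ i) (c i) (height N (c i) * N ^ 2) m / N⌋ := by
      unfold label
      rw [Sum.elim_inr, Fin.snoc_castSucc]
    rw [h2] at h1
    have h3 : (Matrix.mulVec (fun m a => Ψ (Sum.inr m.castSucc) a / N) (rv (n i))) m =
        (Ψ *ᵥ rv (n i)) (Sum.inr m.castSucc) / N := by
      simp only [mulVec, dotProduct]
      rw [Finset.sum_div]
      exact Finset.sum_congr rfl fun a _ => by ring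
    rw [h3]
    simp only [Equiv.symm_apply_apply]
    set b := axisPt (θ i) (c i) (height N (c i) * N ^ 2) m with hb
    have h4 := abs_sub_floor_div_le hN0 (b / N)
    have h5 : b / N ^ 2 - (x i (Sum.inr m.castSucc) : ℝ) / N -
        (Ψ *ᵥ rv (n i)) (Sum.inr m.castSucc) / N = b / N / N - ⌊b / N⌋ / N := by
      rw [h1]; field_simp; ring
    rw [h5]; exact h4

/-- The weak type estimate for a family with small doubling. -/
theorem add_weak (hd : 0 < d)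
    (hcore : ∀ (r : ℕ) (B E₀ ε : ℝ), 0 < ε → ∃ C : ℝ, 0 < C ∧ CoreBound r d B E₀ ε C)
    (hfrei : ∀ D : ℕ, ∃ (R J : ℕ) (A : ℝ), FreimanBound D R J A)
    (K D : ℕ) {κ ε : ℝ} (hκ : 0 < κ) (hε : 0 < ε) :
    ∃ C : ℝ, 1 ≤ C ∧ ∀ N : ℝ, 1 ≤ N → ∀ (ι : Type) [Fintype ι] (θ : ι → Cap d) (c : ι → Sp d),
      IsCapFamily K κ N θ → ∀ H : Finset (Fin d ⊕ Fin (d + 1) → ℤ),
      (∀ i, label N (θ i) (c i) ∈ H) → (H.card : ℝ) ≤ D * N ^ d → (H + H).card ≤ D * H.card →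
      WeakBound N (C * N ^ ε) θ c := by
  obtain ⟨R, J, A, hF⟩ := hfrei D
  set A1 : ℝ := J * (|A| * D) with hA1
  obtain ⟨C0, hC0, hcb⟩ := hcore R (formBound d 1) (fibConst d K κ 1 A1) ε hε
  have hc0 := capConst_nonneg d K 1
  have hadd : 0 ≤ addConst d K 1 C0 := by unfold addConst; positivity
  refine ⟨1 + addConst d K 1 C0 * (J:ℝ) ^ (1 / (d:ℝ)), by
    have : 0 ≤ addConst d K 1 C0 * (J:ℝ) ^ (1 / (d:ℝ)) := by positivity
    linarith, ?_⟩
  intro N hN ι _ θ c hfam H hH hHc hHH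
  have hN0 : 0 < N := by linarith
  have hι : 0 < Fintype.card ι := by
    have h1 : (0:ℝ) < Fintype.card ι := lt_of_lt_of_le (by positivity) hfam.many
    exact_mod_cast h1
  have hne : Nonempty ι := Fintype.card_pos_iff.mp hι
  obtain ⟨J', Q, W, Y, w, y, nn, jj, hJ, hQ, hprog, hcount⟩ := exists_prog hF hN θ c H hH hHH
  have hJr : (J':ℝ) ≤ J := by exact_mod_cast hJ
  have h1 := prog_weak hd hκ zero_le_one hC0.le hcb hN hfam hQ hprog (by
    intro T hT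
    have h2 := hcount T hT
    have h3 : (T.card : ℝ) ≤ |A| * (D * N ^ d) := by
      refine h2.trans ?_
      have h4 : A ≤ |A| := le_abs_self A
      have h5 : (0:ℝ) ≤ H.card := Nat.cast_nonneg _
      have h6 : (0:ℝ) ≤ |A| := abs_nonneg A
      calc A * H.card ≤ |A| * H.card := by gcongr
        _ ≤ _ := by gcongr
    calc (J' * T.card : ℝ) ≤ J * (|A| * (D * N ^ d)) := by gcongr
      _ = A1 * N ^ d := by rw [hA1]; ring)
  refine h1.mono hN0.le ?_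
  have h6 : (J':ℝ) ^ (1 / (d:ℝ)) ≤ (J:ℝ) ^ (1 / (d:ℝ)) :=
    Real.rpow_le_rpow (Nat.cast_nonneg _) hJr (by positivity)
  have h7 : 0 ≤ N ^ ε := by positivity
  calc addConst d K 1 C0 * N ^ ε * (J':ℝ) ^ (1 / (d:ℝ))
      ≤ addConst d K 1 C0 * N ^ ε * (J:ℝ) ^ (1 / (d:ℝ)) := by gcongr
    _ = (addConst d K 1 C0 * (J:ℝ) ^ (1 / (d:ℝ))) * N ^ ε := by ring
    _ ≤ _ := by
      apply mul_le_mul_of_nonneg_right _ h7
      linarith

/-- From the weak type estimate to the volume of the union. -/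
theorem union_of_weak (hd : 0 < d) (K : ℕ) {κ δ : ℝ} (hκ : 0 < κ) (hδ : 0 < δ) :
    ∃ C : ℝ, 0 < C ∧ ∀ N : ℝ, 1 ≤ N → ∀ (ι : Type) [Fintype ι] (θ : ι → Cap d) (c : ι → Sp d),
      IsCapFamily K κ N θ → ∀ W : ℝ, 1 ≤ W → WeakBound N W θ c →
      ∑ i, volume (tube N (θ i) (c i)) ≤
        ENNReal.ofReal (C * (W * N ^ δ) ^ d) * volume (⋃ i, tube N (θ i) (c i)) := by
  set κ' : ℝ := min κ 1 with hκ'
  have hκ'0 : 0 < κ' := lt_min hκ one_pos
  have hκ'1 : κ' ≤ 1 := min_le_right _ _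
  set a : ℝ := 2 * (K * 5 ^ d + 2 ^ (d + 1)) with ha
  have ha1 : 1 ≤ a := by
    have h1 : (1:ℝ) ≤ 2 ^ (d + 1) := one_le_pow₀ (by norm_num)
    have h2 : (0:ℝ) ≤ K * 5 ^ d := by positivity
    rw [ha]; linarith
  set b : ℝ := 3 / δ + 5 + K with hb
  have hb1 : 1 ≤ b := by
    have h1 : 0 < 3 / δ := by positivity
    have h2 : (0:ℝ) ≤ K := Nat.cast_nonneg K
    rw [hb]; linarith
  refine ⟨2 * (2 * (a * b / κ')) ^ d, by positivity, ?_⟩
  intro N hN ι _ θ c hfam W hW hw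
  have hN0 : 0 < N := by linarith
  have hfam' : IsCapFamily K κ' N θ :=
    ⟨hfam.overlap, le_trans (by
      have : κ' ≤ κ := min_le_left _ _
      gcongr) hfam.many⟩
  have hNδ : 1 ≤ N ^ δ := Real.one_le_rpow hN hδ.le
  set L : ℕ := Nat.log 2 ⌊N⌋₊ with hL
  have hgeo : geo 1 (L + 3 + (K + 2)) ≤ b * N ^ δ := by
    have e1 : geo 1 (L + 3 + (K + 2)) = L + 5 + K := by
      unfold geo
      simp
      ring
    rw [e1]
    have hLlog : (L:ℝ) * Real.log 2 ≤ Real.log N := by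
      have h3 : 2 ^ L ≤ ⌊N⌋₊ := Nat.pow_log_le_self 2 (by
        have : 1 ≤ ⌊N⌋₊ := Nat.le_floor (by simpa using hN)
        omega)
      have h4 : (2:ℝ) ^ L ≤ N := by
        calc (2:ℝ) ^ L ≤ (⌊N⌋₊ : ℝ) := by exact_mod_cast h3
          _ ≤ N := Nat.floor_le hN0.le
      rw [← Real.log_pow]
      exact Real.log_le_log (by positivity) h4
    have hlog := Real.log_le_rpow_div hN0.le hδ
    have hl2 : (1:ℝ) / 3 ≤ Real.log 2 := by have := Real.log_two_gt_d9; linarith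
    have h5 : (L:ℝ) ≤ 3 / δ * N ^ δ := by
      have h6 : (L:ℝ) * (1 / 3) ≤ N ^ δ / δ :=
        le_trans (le_trans (by gcongr) hLlog) hlog
      calc (L:ℝ) = 3 * (L * (1 / 3)) := by ring
        _ ≤ 3 * (N ^ δ / δ) := by gcongr
        _ = 3 / δ * N ^ δ := by ring
    have h7 : (0:ℝ) ≤ K := Nat.cast_nonneg K
    have h8 : (5:ℝ) + K ≤ (5 + K) * N ^ δ := le_mul_of_one_le_right (by positivity) hNδ
    calc (L:ℝ) + 5 + K ≤ 3 / δ * N ^ δ + (5 + K) * N ^ δ := by linarith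
      _ = b * N ^ δ := by rw [hb]; ring
  have h1 := upper_of_weak hd hN hW θ c hfam.overlap hw (s := 1) zero_le_one
  rw [min_self, Real.rpow_one, ← hL] at h1
  have hB1 : 1 ≤ a * b / κ' * (W * N ^ δ) := by
    have h2 : 1 ≤ a * b / κ' := by
      rw [one_le_div hκ'0]; nlinarith
    have h3 : 1 ≤ W * N ^ δ := by nlinarith
    nlinarith
  have h2 := union_of_crit hd hN hB1 θ c (h1.trans (ENNReal.ofReal_le_ofReal (by
    have hm := hfam'.many
    have h4 : N ^ (2 * d + 2) = N ^ d * N ^ (d + 2) := by rw [← pow_add]; congr 1; omega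
    have h5 : N ^ d ≤ Fintype.card ι / κ' := by rw [le_div_iff₀ hκ'0]; linarith
    rw [h4, ← ha]
    calc a * W * (N ^ d * N ^ (d + 2)) * geo 1 (L + 3 + (K + 2))
        ≤ a * W * (Fintype.card ι / κ' * N ^ (d + 2)) * (b * N ^ δ) := by
          have hg := geo_nonneg 1 (L + 3 + (K + 2))
          gcongr
      _ = _ := by ring)))
  refine h2.trans (le_of_eq ?_)
  congr 2
  rw [← mul_assoc, mul_pow, mul_pow, mul_pow]
  ring

end Pool.Agent.MPac5134
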