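import Mathlib

/-!
Elementary bounds: powers with exponent below one are absorbed by linear functions, and the towers
that come from the rank are absorbed by exponentials.
-/

namespace Pool.Agent.MPac5134

theorem absorb {c b δ : ℝ} (hc : 0 ≤ c) (hb0 : 0 ≤ b) (hb : b < 1) (hδ : 0 < δ) :
    ∃ C : ℝ, 0 ≤ C ∧ ∀ x : ℝ, 0 ≤ x → c * x ^ b ≤ δ * x + C := by
  set X : ℝ := (c / δ) ^ (1 / (1 - b)) with hX
  have h1b : 0 < 1 - b := by linarith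
  have hcδ : 0 ≤ c / δ := by positivity
  have hX0 : 0 ≤ X := by positivity
  refine ⟨c * X ^ b, by positivity, ?_⟩
  intro x hx
  rcases le_or_gt x X with h | h
  · have h1 : x ^ b ≤ X ^ b := Real.rpow_le_rpow hx h hb0
    have h2 : 0 ≤ δ * x := by positivity
    calc c * x ^ b ≤ c * X ^ b := by gcongr
      _ ≤ _ := by linarith
  · have hx0 : 0 < x := lt_of_le_of_lt hX0 h
    have h1 : c / δ ≤ x ^ (1 - b) := by
      calc c / δ = X ^ (1 - b) := by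
            rw [hX, ← Real.rpow_mul hcδ, one_div_mul_cancel h1b.ne', Real.rpow_one]
        _ ≤ x ^ (1 - b) := Real.rpow_le_rpow hX0 h.le h1b.le
    rw [div_le_iff₀ hδ] at h1
    have h2 : 0 ≤ x ^ b := by positivity
    have h3 : 0 ≤ c * X ^ b := by positivity
    calc c * x ^ b ≤ (x ^ (1 - b) * δ) * x ^ b := by gcongr
      _ = δ * (x ^ (1 - b) * x ^ b) := by ring
      _ = δ * x := by rw [← Real.rpow_add hx0, sub_add_cancel, Real.rpow_one]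
      _ ≤ _ := by linarith

/-- `(c y)^(c y²)` is absorbed by `exp (δ x)` when `y ≤ c' x^(864/2000)`. -/
theorem tower_bound {c c' δ : ℝ} (hc : 1 ≤ c) (hc' : 0 ≤ c') (hδ : 0 < δ) :
    ∃ C : ℝ, 0 < C ∧ ∀ x : ℝ, 1 ≤ x → ∀ y : ℝ, 1 ≤ y → y ≤ c' * x ^ ((864:ℝ) / 2000) →
      (c * y) ^ (c * y ^ 2) ≤ C * Real.exp (δ * x) := by
  obtain ⟨C, hC0, hC⟩ := absorb (c := c * (c ^ ((1:ℝ)/5) * 5) * c' ^ ((11:ℝ)/5))
    (b := (9504:ℝ)/10000) (by positivity) (by norm_num) (by norm_num) hδ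
  refine ⟨Real.exp C, Real.exp_pos C, ?_⟩
  intro x hx y hy hyx
  have hx0 : 0 < x := by linarith
  have hy0 : 0 < y := by linarith
  have hcy : 0 < c * y := by positivity
  rw [← Real.exp_add, Real.rpow_def_of_pos hcy, Real.exp_le_exp]
  have h1 : Real.log (c * y) ≤ (c * y) ^ ((1:ℝ)/5) / (1/5) :=
    Real.log_le_rpow_div hcy.le (by norm_num)
  have h2 : (c * y) ^ ((1:ℝ)/5) / (1/5) = c ^ ((1:ℝ)/5) * 5 * y ^ ((1:ℝ)/5) := by
    rw [Real.mul_rpow (by linarith) hy0.le]; ring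
  rw [h2] at h1
  have h3 : y ^ ((1:ℝ)/5) * y ^ 2 = y ^ ((11:ℝ)/5) := by
    rw [← Real.rpow_natCast y 2, ← Real.rpow_add hy0]; norm_num
  have h4 : y ^ ((11:ℝ)/5) ≤ c' ^ ((11:ℝ)/5) * x ^ ((9504:ℝ)/10000) := by
    calc y ^ ((11:ℝ)/5) ≤ (c' * x ^ ((864:ℝ) / 2000)) ^ ((11:ℝ)/5) :=
          Real.rpow_le_rpow hy0.le hyx (by norm_num)
      _ = c' ^ ((11:ℝ)/5) * x ^ ((9504:ℝ)/10000) := by
          rw [Real.mul_rpow hc' (by positivity), ← Real.rpow_mul hx0.le]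
          norm_num
  calc Real.log (c * y) * (c * y ^ 2)
      ≤ (c ^ ((1:ℝ)/5) * 5 * y ^ ((1:ℝ)/5)) * (c * y ^ 2) := by gcongr
    _ = c * (c ^ ((1:ℝ)/5) * 5) * (y ^ ((1:ℝ)/5) * y ^ 2) := by ring
    _ = c * (c ^ ((1:ℝ)/5) * 5) * y ^ ((11:ℝ)/5) := by rw [h3]
    _ ≤ c * (c ^ ((1:ℝ)/5) * 5) * (c' ^ ((11:ℝ)/5) * x ^ ((9504:ℝ)/10000)) := by gcongr
    _ = c * (c ^ ((1:ℝ)/5) * 5) * c' ^ ((11:ℝ)/5) * x ^ ((9504:ℝ)/10000) := by ring
    _ ≤ δ * x + C := hC x hx0.le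
    _ = C + δ * x := by ring

/-- Products of powers of one base: the bound for all constants together. -/
theorem const_bound {a₀ q F cc ck : ℝ} (ha : 1 ≤ a₀) (hq : 0 ≤ q) (hF : 1 ≤ F) (hcc : 0 ≤ cc)
    (hck : 0 ≤ ck) : ∃ c : ℝ, 1 ≤ c ∧ ∀ (D : ℕ), 1 ≤ D → ∀ (k : ℝ), 0 ≤ k → k ≤ ck * (D + 1) →
      ∀ (R : ℕ), R = 36 * D ^ 24 + 1 → ∀ (J A A1 E₀ : ℝ),
      J = (D:ℝ) ^ 5 * (8 * (R:ℝ)) ^ R → A = 4 ^ R * (D:ℝ) ^ 12 → A1 = J * (A * D) →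
      E₀ = A1 * cc * k →
      q * ((a₀ * (R + 2)) ^ (a₀ * ((R:ℝ) + 1) ^ 2) * (F * (E₀ + 1) ^ 2) ^ R) * J ≤
        (c * ((R:ℝ) + 2)) ^ (c * ((R:ℝ) + 2) ^ 2) := by
  obtain ⟨c, hc⟩ : ∃ c : ℝ, c = 8 + a₀ + q + F + cc + ck + 50 := ⟨_, rfl⟩
  refine ⟨c, by linarith, ?_⟩
  intro D hD k hk0 hk R hR J A A1 E₀ hJ hA hA1 hE
  have hD' : (1:ℝ) ≤ D := by exact_mod_cast hD
  have hR1 : 1 ≤ R := by omega
  have hR' : (1:ℝ) ≤ R := by exact_mod_cast hR1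
  obtain ⟨t, ht⟩ : ∃ t : ℝ, t = c * (R + 2) := ⟨_, rfl⟩
  have hy3 : (3:ℝ) ≤ R + 2 := by linarith
  have hc0 : 0 ≤ c := by linarith
  have hct : c ≤ t := by rw [ht]; nlinarith
  have ht2 : 2 ≤ t := by linarith
  have ht1 : 1 ≤ t := by linarith
  have ht0 : 0 < t := by linarith
  have hDR : (D:ℝ) + 1 ≤ R + 2 := by
    have h1 : D ≤ 36 * D ^ 24 := by
      calc D = D ^ 1 := (pow_one D).symm
        _ ≤ D ^ 24 := Nat.pow_le_pow_right hD (by norm_num)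
        _ ≤ 36 * D ^ 24 := by omega
    have h2 : D + 1 ≤ R + 2 := by omega
    exact_mod_cast h2
  have hyt : (R:ℝ) + 2 ≤ t := by rw [ht]; nlinarith
  have hDt : (D:ℝ) ≤ t := by linarith
  have h8R : 8 * (R:ℝ) ≤ t := by rw [ht]; nlinarith
  have hqt : q ≤ t := by linarith
  have hFt : F ≤ t := by linarith
  have hcct : cc ≤ t := by linarith
  have hkt : k ≤ t := by
    refine hk.trans ?_
    rw [ht]
    have : ck ≤ c := by linarith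
    gcongr
  have h4t : (4:ℝ) ≤ t := by linarith
  have hJ1 : 1 ≤ J := by
    rw [hJ]
    exact one_le_mul_of_one_le_of_one_le (one_le_pow₀ hD') (one_le_pow₀ (by linarith))
  have hJt : J ≤ t ^ (5 + R) := by
    rw [hJ, pow_add t 5 R]
    exact mul_le_mul (pow_le_pow_left₀ (by linarith) hDt 5)
      (pow_le_pow_left₀ (by positivity) h8R R) (by positivity) (by positivity)
  have hAt : A ≤ t ^ (R + 12) := by
    rw [hA, pow_add t R 12]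
    exact mul_le_mul (pow_le_pow_left₀ (by norm_num) h4t R)
      (pow_le_pow_left₀ (by linarith) hDt 12) (by positivity) (by positivity)
  have hA0 : 0 ≤ A := by rw [hA]; positivity
  have hA1t : A1 ≤ t ^ (2 * R + 18) := by
    rw [hA1]
    calc J * (A * D) ≤ t ^ (5 + R) * (t ^ (R + 12) * t) := by gcongr
      _ = t ^ (2 * R + 18) := by ring
  have hA10 : 0 ≤ A1 := by rw [hA1]; positivity
  have hE0 : 0 ≤ E₀ := by rw [hE]; positivity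
  have hEt : E₀ + 1 ≤ t ^ (2 * R + 21) := by
    have h1 : E₀ ≤ t ^ (2 * R + 20) := by
      rw [hE]
      calc A1 * cc * k ≤ t ^ (2 * R + 18) * t * t := by gcongr
        _ = t ^ (2 * R + 20) := by ring
    have h2 : (1:ℝ) ≤ t ^ (2 * R + 20) := one_le_pow₀ ht1
    calc E₀ + 1 ≤ 2 * t ^ (2 * R + 20) := by linarith
      _ ≤ t * t ^ (2 * R + 20) := by gcongr
      _ = _ := by ring
  have hFE : (F * (E₀ + 1) ^ 2) ^ R ≤ t ^ ((4 * R + 43) * R) := by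
    rw [pow_mul t]
    apply pow_le_pow_left₀ (by positivity)
    calc F * (E₀ + 1) ^ 2 ≤ t * (t ^ (2 * R + 21)) ^ 2 := by gcongr
      _ = t ^ (4 * R + 43) := by ring
  have haR : (a₀ * ((R:ℝ) + 2)) ^ (a₀ * ((R:ℝ) + 1) ^ 2) ≤ t ^ (a₀ * ((R:ℝ) + 1) ^ 2) := by
    apply Real.rpow_le_rpow (by positivity) _ (by positivity)
    rw [ht]
    have : a₀ ≤ c := by linarith
    gcongr
  have hexp : a₀ * ((R:ℝ) + 1) ^ 2 + ((1 + (4 * R + 43) * R + (5 + R) : ℕ) : ℝ) ≤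
      c * ((R:ℝ) + 2) ^ 2 := by
    push_cast
    have h1 : (1 + (4 * (R:ℝ) + 43) * R + (5 + R)) ≤ 50 * (R + 2) ^ 2 := by nlinarith
    have h2 : a₀ * ((R:ℝ) + 1) ^ 2 ≤ a₀ * (R + 2) ^ 2 := by gcongr; linarith
    have h3 : (a₀ + 50) * ((R:ℝ) + 2) ^ 2 ≤ c * (R + 2) ^ 2 := by
      apply mul_le_mul_of_nonneg_right _ (by positivity)
      linarith
    linarith
  calc q * ((a₀ * (R + 2)) ^ (a₀ * ((R:ℝ) + 1) ^ 2) * (F * (E₀ + 1) ^ 2) ^ R) * J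
      ≤ t * (t ^ (a₀ * ((R:ℝ) + 1) ^ 2) * t ^ ((4 * R + 43) * R)) * t ^ (5 + R) := by
        gcongr
    _ = t ^ (a₀ * ((R:ℝ) + 1) ^ 2) * t ^ (1 + (4 * R + 43) * R + (5 + R)) := by
        rw [pow_add t (1 + (4 * R + 43) * R) (5 + R), pow_add t 1 ((4 * R + 43) * R), pow_one]
        ring
    _ = t ^ (a₀ * ((R:ℝ) + 1) ^ 2 + ((1 + (4 * R + 43) * R + (5 + R) : ℕ) : ℝ)) := by
        rw [Real.rpow_add ht0, Real.rpow_natCast]
    _ ≤ t ^ (c * ((R:ℝ) + 2) ^ 2) := Real.rpow_le_rpow_of_exponent_le ht1 hexp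
    _ = _ := by rw [ht]

end Pool.Agent.MPac5134
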