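import Pool.Agent.Lib.MP_ac5134_an.AddNorm
import Pool.Agent.Lib.MP_ac5134_an.AddQ1
import Pool.Agent.Lib.MP_ac5134_an.KM.Core
import Pool.Agent.Lib.MP_ac5134_an.FR.Final

/-!
The weak type estimate and the volume estimate with constants that are explicit in the doubling.
-/

namespace Pool.Agent.MPac5134

open MeasureTheory Matrix Pool.Agent.MPac5134.Lat
open scoped ENNReal Pointwise

variable {d : ℕ}

theorem addConst_eq (d K : ℕ) (A C0 : ℝ) : addConst d K A C0 = addConst d K A 1 * C0 := by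
  unfold addConst; ring

theorem one_le_formBound {d : ℕ} {A : ℝ} : 1 ≤ formBound d A := by
  unfold formBound
  have h1 : 0 ≤ d * (2 + 2 * A) ^ 2 := by positivity
  have h2 : 0 ≤ d * (3 * d + 2 * A + 4 * A * (d + 2)) ^ 2 := by positivity
  linarith

/-- The weak type estimate for a family with doubling at most a small power of `log N`. -/
theorem add_weak_quant (hd : 0 < d) (K : ℕ) {B κ ε : ℝ} (hB : 1 ≤ B) (hκ : 0 < κ) (hε : 0 < ε) :
    ∃ C : ℝ, 1 ≤ C ∧ ∀ N : ℝ, 1 ≤ N → ∀ D : ℕ, 1 ≤ D →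
      (D:ℝ) ≤ B * (1 + Real.log N) ^ ((36:ℝ) / 2000) →
      ∀ κ' : ℝ, 0 < κ' → 1 / κ' ≤ (K + 1) / κ * (D + 1) →
      ∀ (ι : Type) [Fintype ι] (θ : ι → Cap d) (c : ι → Sp d), IsCapFamily K κ' N θ →
      ∀ H : Finset (Fin d ⊕ Fin (d + 1) → ℤ), (∀ i, label N (θ i) (c i) ∈ H) →
      (H.card : ℝ) ≤ D * N ^ d → (H + H).card ≤ D * H.card → WeakBound N (C * N ^ ε) θ c := by
  have hε2 : 0 < ε / 2 := by positivity
  obtain ⟨a₀, ha₀, hcore⟩ := core_explicit d hd hε2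
  have hcc1 := capConst_nonneg d K 1
  have hcc2 := capConst_nonneg d K (1 + 1)
  have hq : 0 ≤ addConst d K 1 1 := by unfold addConst; positivity
  obtain ⟨c5, hc5, hconst⟩ := const_bound (a₀ := a₀) (q := addConst d K 1 1)
    (F := formBound d 1) (cc := capConst d K 1 * capConst d K (1 + 1)) (ck := (K + 1) / κ)
    ha₀ hq one_le_formBound (by positivity) (by positivity)
  obtain ⟨Ct, hCt, htow⟩ := tower_bound (c := c5) (c' := 39 * B ^ 24) hc5 (by positivity) hε2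
  refine ⟨1 + Ct * Real.exp (ε / 2), by
    have : 0 < Ct * Real.exp (ε / 2) := by positivity
    linarith, ?_⟩
  intro N hN D hD hDx κ' hκ' hkk ι _ θ c hfam H hH hHc hHH
  have hN0 : 0 < N := by linarith
  have hlog : 0 ≤ Real.log N := Real.log_nonneg hN
  obtain ⟨x, hx⟩ : ∃ x : ℝ, x = 1 + Real.log N := ⟨_, rfl⟩
  rw [← hx] at hDx
  have hx1 : 1 ≤ x := by linarith
  have hD' : (1:ℝ) ≤ D := by exact_mod_cast hD
  have hι : 0 < Fintype.card ι := by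
    have h1 : (0:ℝ) < Fintype.card ι := lt_of_lt_of_le (by positivity) hfam.many
    exact_mod_cast h1
  have hne : Nonempty ι := Fintype.card_pos_iff.mp hι
  obtain ⟨R, hR⟩ : ∃ R : ℕ, R = 36 * D ^ 24 + 1 := ⟨_, rfl⟩
  obtain ⟨J, hJ⟩ : ∃ J : ℕ, J = D ^ 5 * (8 * R) ^ R := ⟨_, rfl⟩
  obtain ⟨A, hA⟩ : ∃ A : ℝ, A = 4 ^ R * (D:ℝ) ^ 12 := ⟨_, rfl⟩
  have hF : FreimanBound D R J A := by
    rw [hJ, hA, hR]
    intro σ _ _ G hG hGG
    exact FR.freiman_explicit D G hG hGG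
  have hA0 : 0 ≤ A := by rw [hA]; positivity
  have hJr : (J:ℝ) = (D:ℝ) ^ 5 * (8 * (R:ℝ)) ^ R := by rw [hJ]; push_cast; ring
  have hR1 : (1:ℝ) ≤ R := by
    have : 1 ≤ R := by omega
    exact_mod_cast this
  have hJ1 : (1:ℝ) ≤ J := by
    rw [hJr]
    exact one_le_mul_of_one_le_of_one_le (one_le_pow₀ hD') (one_le_pow₀ (by linarith))
  obtain ⟨A1, hA1⟩ : ∃ A1 : ℝ, A1 = (J:ℝ) * (A * D) := ⟨_, rfl⟩
  have hA10 : 0 ≤ A1 := by rw [hA1]; positivity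
  obtain ⟨E₀, hE₀⟩ : ∃ E₀ : ℝ, E₀ = fibConst d K κ' 1 A1 := ⟨_, rfl⟩
  have hE0 : 0 ≤ E₀ := by rw [hE₀]; unfold fibConst; positivity
  have hE₀' : E₀ = A1 * (capConst d K 1 * capConst d K (1 + 1)) * (1 / κ') := by
    rw [hE₀]; unfold fibConst; ring
  obtain ⟨C0, hC0⟩ : ∃ C0 : ℝ, C0 = (a₀ * (R + 2)) ^ (a₀ * ((R:ℝ) + 1) ^ 2) *
    (formBound d 1 * (E₀ + 1) ^ 2) ^ R := ⟨_, rfl⟩
  have hF1 : 1 ≤ formBound d 1 := one_le_formBound
  have hC00 : 0 ≤ C0 := by rw [hC0]; positivity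
  have hcb : CoreBound R d (formBound d 1) (fibConst d K κ' 1 A1) (ε / 2) C0 := by
    rw [← hE₀, hC0]
    exact hcore R (formBound d 1) E₀ hF1 hE0
  obtain ⟨J', Q, W, Y, w, y, nn, jj, hJJ, hQ, hprog, hcount⟩ := exists_prog hF hN θ c H hH hHH
  have hJJr : (J':ℝ) ≤ J := by exact_mod_cast hJJ
  have h1 := prog_weak hd hκ' zero_le_one hC00 hcb hN hfam hQ hprog (by
    intro T hT
    have h2 := hcount T hT
    have h3 : (T.card : ℝ) ≤ A * (D * N ^ d) := h2.trans (by gcongr)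
    calc (J' * T.card : ℝ) ≤ J * (A * (D * N ^ d)) := by gcongr
      _ = A1 * N ^ d := by rw [hA1]; ring)
  refine h1.mono hN0.le ?_
  have hJp : (J':ℝ) ^ (1 / (d:ℝ)) ≤ J := by
    have hd1 : 1 / (d:ℝ) ≤ 1 := by
      have : (1:ℝ) ≤ d := by exact_mod_cast hd
      rw [div_le_one (by linarith)]; exact this
    calc (J':ℝ) ^ (1 / (d:ℝ)) ≤ (J:ℝ) ^ (1 / (d:ℝ)) :=
          Real.rpow_le_rpow (Nat.cast_nonneg _) hJJr (by positivity)
      _ ≤ (J:ℝ) ^ (1:ℝ) := Real.rpow_le_rpow_of_exponent_le hJ1 hd1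
      _ = J := Real.rpow_one _
  have h2 := hconst D hD (1 / κ') (by positivity) hkk R hR J A A1 E₀ hJr hA hA1 hE₀'
  have h3 : (R:ℝ) + 2 ≤ 39 * B ^ 24 * x ^ ((864:ℝ) / 2000) := by
    have e1 : (R:ℝ) + 2 ≤ 39 * (D:ℝ) ^ 24 := by
      rw [hR]; push_cast
      have : (1:ℝ) ≤ (D:ℝ) ^ 24 := one_le_pow₀ hD'
      linarith
    have e2 : (D:ℝ) ^ 24 ≤ (B * x ^ ((36:ℝ) / 2000)) ^ 24 := pow_le_pow_left₀ (by linarith) hDx 24
    have e3 : (B * x ^ ((36:ℝ) / 2000)) ^ 24 = B ^ 24 * x ^ ((864:ℝ) / 2000) := by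
      rw [mul_pow, ← Real.rpow_natCast (x ^ ((36:ℝ) / 2000)) 24, ← Real.rpow_mul (by linarith)]
      norm_num
    calc (R:ℝ) + 2 ≤ 39 * (D:ℝ) ^ 24 := e1
      _ ≤ 39 * (B ^ 24 * x ^ ((864:ℝ) / 2000)) := by rw [← e3]; gcongr
      _ = _ := by ring
  have h4 := htow x hx1 (R + 2) (by linarith) h3
  have h5 : Real.exp (ε / 2 * x) = Real.exp (ε / 2) * N ^ (ε / 2) := by
    rw [hx, mul_add, mul_one, Real.exp_add, Real.rpow_def_of_pos hN0, mul_comm (Real.log N)]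
  have hNp : 0 ≤ N ^ (ε / 2) := by positivity
  have h6 : N ^ (ε / 2) * N ^ (ε / 2) = N ^ ε := by
    rw [← Real.rpow_add hN0]; congr 1; ring
  have hNε : 0 ≤ N ^ ε := by positivity
  have hadd0 : 0 ≤ addConst d K 1 C0 := by rw [addConst_eq]; positivity
  calc addConst d K 1 C0 * N ^ (ε / 2) * (J':ℝ) ^ (1 / (d:ℝ))
      ≤ addConst d K 1 C0 * N ^ (ε / 2) * J := by gcongr
    _ = (addConst d K 1 1 * C0 * J) * N ^ (ε / 2) := by rw [addConst_eq d K 1 C0]; ring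
    _ ≤ (c5 * (R + 2)) ^ (c5 * ((R:ℝ) + 2) ^ 2) * N ^ (ε / 2) := by
        rw [hC0]; gcongr
    _ ≤ (Ct * Real.exp (ε / 2 * x)) * N ^ (ε / 2) := by gcongr
    _ = (Ct * Real.exp (ε / 2)) * N ^ ε := by rw [h5, ← h6]; ring
    _ ≤ _ := by
        apply mul_le_mul_of_nonneg_right _ hNε
        linarith

/-- From the weak type estimate to the volume of the union, explicit in `κ`. -/
theorem union_explicit (hd : 0 < d) (K : ℕ) {δ : ℝ} (hδ : 0 < δ) :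
    ∃ b : ℝ, 1 ≤ b ∧ ∀ κ : ℝ, 0 < κ → κ ≤ 1 → ∀ N : ℝ, 1 ≤ N →
      ∀ (ι : Type) [Fintype ι] (θ : ι → Cap d) (c : ι → Sp d),
      IsCapFamily K κ N θ → ∀ W : ℝ, 1 ≤ W → WeakBound N W θ c →
      ∑ i, volume (tube N (θ i) (c i)) ≤
        ENNReal.ofReal (2 * (b / κ * (W * N ^ δ)) ^ d) * volume (⋃ i, tube N (θ i) (c i)) := by
  obtain ⟨a, ha⟩ : ∃ a : ℝ, a = 2 * (K * 5 ^ d + 2 ^ (d + 1)) := ⟨_, rfl⟩
  have ha1 : 1 ≤ a := by
    have h1 : (1:ℝ) ≤ 2 ^ (d + 1) := one_le_pow₀ (by norm_num)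
    have h2 : (0:ℝ) ≤ K * 5 ^ d := by positivity
    rw [ha]; linarith
  obtain ⟨b, hb⟩ : ∃ b : ℝ, b = 3 / δ + 5 + K := ⟨_, rfl⟩
  have hb1 : 1 ≤ b := by
    have h1 : 0 < 3 / δ := by positivity
    have h2 : (0:ℝ) ≤ K := Nat.cast_nonneg K
    rw [hb]; linarith
  have hab : 1 ≤ a * b := one_le_mul_of_one_le_of_one_le ha1 hb1
  refine ⟨2 * (a * b), by linarith, ?_⟩
  intro κ hκ hκ1 N hN ι _ θ c hfam W hW hw
  have hN0 : 0 < N := by linarith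
  have hNδ : 1 ≤ N ^ δ := Real.one_le_rpow hN hδ.le
  obtain ⟨L, hL⟩ : ∃ L : ℕ, L = Nat.log 2 ⌊N⌋₊ := ⟨_, rfl⟩
  have hgeo : geo 1 (L + 3 + (K + 2)) ≤ b * N ^ δ := by
    have e1 : geo 1 (L + 3 + (K + 2)) = L + 5 + K := by
      unfold geo
      simp
      ring
    rw [e1]
    have hLlog : (L:ℝ) * Real.log 2 ≤ Real.log N := by
      have h3 : 2 ^ L ≤ ⌊N⌋₊ := by
        rw [hL]
        exact Nat.pow_log_le_self 2 (by
          have : 1 ≤ ⌊N⌋₊ := Nat.le_floor (by simpa using hN)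
          omega)
      have h4 : (2:ℝ) ^ L ≤ N := by
        calc (2:ℝ) ^ L ≤ (⌊N⌋₊ : ℝ) := by exact_mod_cast h3
          _ ≤ N := Nat.floor_le hN0.le
      rw [← Real.log_pow]
      exact Real.log_le_log (by positivity) h4
    have hlog := Real.log_le_rpow_div hN0.le hδ
    have hl2 : (1:ℝ) / 3 ≤ Real.log 2 := by have := Real.log_two_gt_d9; linarith
    have h5 : (L:ℝ) ≤ 3 / δ * N ^ δ := by
      have h6 : (L:ℝ) * (1 / 3) ≤ N ^ δ / δ :=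
        le_trans (le_trans (by gcongr) hLlog) hlog
      calc (L:ℝ) = 3 * (L * (1 / 3)) := by ring
        _ ≤ 3 * (N ^ δ / δ) := by gcongr
        _ = 3 / δ * N ^ δ := by ring
    have h7 : (0:ℝ) ≤ K := Nat.cast_nonneg K
    have h8 : (5:ℝ) + K ≤ (5 + K) * N ^ δ := le_mul_of_one_le_right (by positivity) hNδ
    calc (L:ℝ) + 5 + K ≤ 3 / δ * N ^ δ + (5 + K) * N ^ δ := by linarith
      _ = b * N ^ δ := by rw [hb]; ring
  have h1 := upper_of_weak hd hN hW θ c hfam.overlap hw (s := 1) zero_le_one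
  rw [min_self, Real.rpow_one, ← hL] at h1
  have h2' : 1 ≤ a * b / κ := by
    rw [one_le_div hκ]; linarith
  have h3' : 1 ≤ W * N ^ δ := one_le_mul_of_one_le_of_one_le hW hNδ
  have hB1 : 1 ≤ a * b / κ * (W * N ^ δ) := one_le_mul_of_one_le_of_one_le h2' h3'
  have h2 := union_of_crit hd hN hB1 θ c (h1.trans (ENNReal.ofReal_le_ofReal (by
    have hm := hfam.many
    have h4 : N ^ (2 * d + 2) = N ^ d * N ^ (d + 2) := by rw [← pow_add]; congr 1; omega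
    have h5 : N ^ d ≤ Fintype.card ι / κ := by rw [le_div_iff₀ hκ]; linarith
    rw [h4, ← ha]
    calc a * W * (N ^ d * N ^ (d + 2)) * geo 1 (L + 3 + (K + 2))
        ≤ a * W * (Fintype.card ι / κ * N ^ (d + 2)) * (b * N ^ δ) := by
          have hg := geo_nonneg 1 (L + 3 + (K + 2))
          gcongr
      _ = _ := by ring)))
  refine h2.trans (le_of_eq ?_)
  congr 4
  ring

end Pool.Agent.MPac5134
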