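import Pool.Agent.Lib.MP_ac5134_an.AddProg

/-!
Sub-families: the function of a sub-family and comparison with the centred tubes of the whole
family.
-/

namespace Pool.Agent.MPac5134

open MeasureTheory Matrix Pool.Agent.MPac5134.Lat
open scoped ENNReal Pointwise

variable {d : ℕ}

/-- The function `∑_{θ ∈ S} T_θ` of the tubes in `S`. -/
noncomputable def multOn {ι : Type*} (S : Finset ι) (N : ℝ) (θ : ι → Cap d) (c : ι → Sp d)
    (x : Sp d) : ℝ := ∑ i ∈ S, (tube N (θ i) (c i)).indicator (fun _ => (1 : ℝ)) x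

theorem multOn_eq {ι : Type*} (S : Finset ι) (N : ℝ) (θ : ι → Cap d) (c : ι → Sp d) :
    multOn S N θ c = mult N (fun i : {i // i ∈ S} => θ i) (fun i : {i // i ∈ S} => c i) := by
  funext x
  unfold multOn mult
  exact (Finset.sum_coe_sort S fun i => (tube N (θ i) (c i)).indicator (fun _ => (1 : ℝ)) x).symm

theorem multOn_le {ι : Type*} [Fintype ι] (S : Finset ι) (N : ℝ) (θ : ι → Cap d) (c : ι → Sp d)
    (x : Sp d) : multOn S N θ c x ≤ mult N θ c x := by
  unfold multOn mult
  exact Finset.sum_le_sum_of_subset_of_nonneg (Finset.subset_univ _)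
    fun i _ _ => Set.indicator_nonneg (fun _ _ => zero_le_one) _

theorem eLpNorm_multOn_le {ι : Type*} [Fintype ι] (S : Finset ι) (N : ℝ) (θ : ι → Cap d)
    (c : ι → Sp d) (p : ℝ≥0∞) :
    eLpNorm (multOn S N θ c) p volume ≤ eLpNorm (mult N θ c) p volume := by
  apply eLpNorm_mono
  intro x
  have h0 : 0 ≤ multOn S N θ c x :=
    Finset.sum_nonneg fun i _ => Set.indicator_nonneg (fun _ _ => zero_le_one) _
  rw [Real.norm_of_nonneg h0, Real.norm_of_nonneg (mult_nonneg N θ c x)]
  exact multOn_le S N θ c x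

/-- The sub-family of the tubes with labels in `G'`, when `G'` is a large part of the set of
labels. -/
theorem sub_family {K : ℕ} {κ N : ℝ} {ι : Type} [Fintype ι] {θ : ι → Cap d}
    {c : ι → Sp d} (hfam : IsCapFamily K κ N θ) {G G' : Finset (Fin d ⊕ Fin (d + 1) → ℤ)}
    (hG : G = Finset.univ.image (fun i => label N (θ i) (c i))) (hG' : G' ⊆ G) {E : ℕ}
    (hE : G.card ≤ E * G'.card) {S : Finset ι}
    (hS : ∀ i, i ∈ S ↔ label N (θ i) (c i) ∈ G') :
    (Fintype.card ι : ℝ) ≤ (K + 1) * (E + 1) * S.card ∧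
      IsCapFamily K (κ / ((K + 1) * (E + 1))) N (fun i : {i // i ∈ S} => θ i) := by
  classical
  have hcardG : Fintype.card ι ≤ K * G.card := by
    rw [hG, ← Finset.card_univ]
    apply Finset.card_le_mul_card_image
    intro g _
    apply hfam.overlap (fun m => g (Sum.inl m))
    intro i hi
    have h3 := (Finset.mem_filter.1 hi).2
    funext m
    rw [← h3]; rfl
  have hSG : G'.card ≤ S.card := by
    have h3 : G' ⊆ S.image (fun i => label N (θ i) (c i)) := by
      intro g hg
      have h4 := hG' hg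
      rw [hG, Finset.mem_image] at h4
      obtain ⟨i, -, hi⟩ := h4
      rw [Finset.mem_image]
      exact ⟨i, (hS i).2 (by rw [hi]; exact hg), hi⟩
    exact (Finset.card_le_card h3).trans Finset.card_image_le
  have hιS : (Fintype.card ι : ℝ) ≤ (K + 1) * (E + 1) * S.card := by
    have h3 : (Fintype.card ι : ℝ) ≤ K * (E * S.card) := by
      exact_mod_cast hcardG.trans (Nat.mul_le_mul_left K (hE.trans (Nat.mul_le_mul_left E hSG)))
    refine h3.trans ?_
    have h4 : (0:ℝ) ≤ S.card := Nat.cast_nonneg _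
    have h5 : (0:ℝ) ≤ K := Nat.cast_nonneg _
    have h6 : (0:ℝ) ≤ E := Nat.cast_nonneg _
    calc (K:ℝ) * (E * S.card) ≤ (K + 1) * ((E + 1) * S.card) := by gcongr <;> linarith
      _ = _ := by ring
  refine ⟨hιS, ?_, ?_⟩
  · intro z s hs
    have h3 := hfam.overlap z (s.map (Function.Embedding.subtype _)) (by
      intro i hi
      rw [Finset.mem_map] at hi
      obtain ⟨j, hj, rfl⟩ := hi
      exact hs j hj)
    rwa [Finset.card_map] at h3
  · rw [Fintype.card_coe, div_mul_eq_mul_div, div_le_iff₀ (by positivity)]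
    have := hfam.many.trans hιS
    linarith

end Pool.Agent.MPac5134
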