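import Pool.Agent.Lib.MP_ac5134_an.AddVol

/-!
The weak type estimate for tube families in progressions, from the bound for the number of
lattice points in a one-parameter family of ellipsoids.
-/

namespace Pool.Agent.MPac5134

open MeasureTheory Matrix Pool.Agent.MPac5134.Lat
open scoped ENNReal

variable {d : ℕ}

/-- the bound for the number of lattice points -/
def CoreBound (r d : ℕ) (B E₀ ε C : ℝ) : Prop :=
    ∀ N : ℝ, 1 ≤ N → ∀ A : Matrix (Fin r) (Fin r) ℝ, A.PosDef → ∀ X₀ X₁ : Matrix (Fin d) (Fin r) ℝ,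
    (∀ v : Fin r → ℝ, (X₁ *ᵥ v) ⬝ᵥ (X₁ *ᵥ v) ≤ 4 * N ^ 2 * (v ⬝ᵥ (A *ᵥ v))) →
    (∀ T : Finset (Fin r → ℤ), (∀ n ∈ T, qf (A + X₁ᵀ * X₁) n ≤ 1) → (T.card : ℝ) ≤ E₀) →
    ∀ a lam : ℝ, 0 < lam →
    volume {s : ℝ | s ∈ Set.Icc a (a + 1) ∧ ∃ T : Finset (Fin r → ℤ),
        (∀ n ∈ T, qf (formAt A X₀ X₁ s) n ≤ B) ∧ lam ≤ (T.card : ℝ)} ≤
      ENNReal.ofReal (C * N ^ ε * lam ^ (-(1 / (d : ℝ))))

/-- the constant in the fibre bound -/
noncomputable def fibConst (d K : ℕ) (κ A A1 : ℝ) : ℝ :=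
  A1 * capConst d K A * capConst d K (A + 1) / κ

/-- the constant in the weak type bound -/
noncomputable def addConst (d K : ℕ) (A C0 : ℝ) : ℝ :=
  K * 5 ^ d * ((4 * d + 9) * ((3 * d) ^ d * ((2 * d + 4) * C0 *
    ((2 * d + 5) * (capConst d K A + 1)) ^ (1 / (d:ℝ)))))

/-- a measurable set that contains the bad heights -/
theorem exists_badSet {r : ℕ} {B E₀ ε C0 : ℝ} (hcore : CoreBound r d B E₀ ε C0) {N : ℝ}
    (hN : 1 ≤ N) {A : Matrix (Fin r) (Fin r) ℝ} (hA : A.PosDef) (X₀ X₁ : Matrix (Fin d) (Fin r) ℝ)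
    (h1 : ∀ v : Fin r → ℝ, (X₁ *ᵥ v) ⬝ᵥ (X₁ *ᵥ v) ≤ 4 * N ^ 2 * (v ⬝ᵥ (A *ᵥ v)))
    (h2 : ∀ T : Finset (Fin r → ℤ), (∀ n ∈ T, qf (A + X₁ᵀ * X₁) n ≤ 1) → (T.card : ℝ) ≤ E₀)
    {lam : ℝ} (hlam : 0 < lam) :
    ∃ E : Set ℝ, MeasurableSet E ∧ (∀ s ∈ E, |s| ≤ d + 2) ∧
      volume E ≤ (2 * d + 4 : ℕ) * ENNReal.ofReal (C0 * N ^ ε * lam ^ (-(1 / (d : ℝ)))) ∧
      ∀ s : ℝ, |s| ≤ d + 2 → (∃ T : Finset (Fin r → ℤ),
        (∀ n ∈ T, qf (formAt A X₀ X₁ s) n ≤ B) ∧ lam ≤ (T.card : ℝ)) → s ∈ E := by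
  set Bd : ℤ → Set ℝ := fun k => {s : ℝ | s ∈ Set.Icc (k:ℝ) (k + 1) ∧ ∃ T : Finset (Fin r → ℤ),
        (∀ n ∈ T, qf (formAt A X₀ X₁ s) n ≤ B) ∧ lam ≤ (T.card : ℝ)} with hBd
  set I : Finset ℤ := Finset.Ico (-((d:ℤ) + 2)) (d + 2) with hI
  have hIc : I.card = 2 * d + 4 := by
    rw [hI, Int.card_Ico]; omega
  refine ⟨⋃ k ∈ I, toMeasurable volume (Bd k) ∩ Set.Icc (k:ℝ) (k + 1), ?_, ?_, ?_, ?_⟩
  · exact Finset.measurableSet_biUnion _ fun k _ =>
      (measurableSet_toMeasurable _ _).inter measurableSet_Icc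
  · intro s hs
    simp only [Set.mem_iUnion] at hs
    obtain ⟨k, hk, -, hs1, hs2⟩ := hs
    rw [hI, Finset.mem_Ico] at hk
    have e1 : (-((d:ℝ) + 2)) ≤ k := by exact_mod_cast hk.1
    have e2 : (k:ℝ) + 1 ≤ d + 2 := by exact_mod_cast hk.2
    rw [abs_le]
    constructor <;> linarith
  · refine (measure_biUnion_finset_le _ _).trans ?_
    calc ∑ k ∈ I, volume (toMeasurable volume (Bd k) ∩ Set.Icc (k:ℝ) (k + 1))
        ≤ ∑ _k ∈ I, ENNReal.ofReal (C0 * N ^ ε * lam ^ (-(1 / (d : ℝ)))) := by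
          apply Finset.sum_le_sum
          intro k _
          refine (measure_mono Set.inter_subset_left).trans ?_
          rw [measure_toMeasurable]
          exact hcore N hN A hA X₀ X₁ h1 h2 k lam hlam
      _ = _ := by rw [Finset.sum_const, hIc, nsmul_eq_mul]
  · intro s hs hT
    rw [abs_le] at hs
    -- the integer part
    obtain ⟨k, hk, hks⟩ : ∃ k ∈ I, s ∈ Set.Icc (k:ℝ) (k + 1) := by
      by_cases hsd : s < d + 2
      · refine ⟨⌊s⌋, ?_, Int.floor_le s, (Int.lt_floor_add_one s).le⟩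
        rw [hI, Finset.mem_Ico, Int.le_floor, Int.floor_lt]
        push_cast
        exact ⟨hs.1, hsd⟩
      · have hsd' : s = d + 2 := le_antisymm hs.2 (not_lt.mp hsd)
        refine ⟨(d:ℤ) + 1, ?_, ?_, ?_⟩
        · rw [hI, Finset.mem_Ico]; constructor <;> omega
        · push_cast; linarith
        · push_cast; linarith
    simp only [Set.mem_iUnion]
    exact ⟨k, hk, subset_toMeasurable _ _ ⟨hks, hT⟩, hks⟩

theorem prog_weak (hd : 0 < d) {K : ℕ} {κ A A1 ε C0 : ℝ} (hκ : 0 < κ) (hA : 0 ≤ A) (hC0 : 0 ≤ C0)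
    {r : ℕ} (hcore : CoreBound r d (formBound d A) (fibConst d K κ A A1) ε C0)
    {N : ℝ} (hN : 1 ≤ N) {ι : Type*} [Fintype ι] {θ : ι → Cap d} {c : ι → Sp d}
    (hfam : IsCapFamily K κ N θ) {J : ℕ}
    {Q : Matrix (Fin r) (Fin r) ℝ} (hQ : Q.PosDef) {W Y : Matrix (Fin d) (Fin r) ℝ}
    {w y : Fin J → Fin d → ℝ} {nn : ι → Fin r → ℤ} {jj : ι → Fin J}
    (h : InProg A N θ c Q W Y w y nn jj)
    (hcount : ∀ T : Finset (Fin r → ℤ), (∀ n ∈ T, qf Q n ≤ 4) → (J * T.card : ℝ) ≤ A1 * N ^ d) :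
    WeakBound N (addConst d K A C0 * N ^ ε * (J:ℝ) ^ (1 / (d:ℝ))) θ c := by
  classical
  intro lam hlam
  have hN0 : 0 < N := by linarith
  have hd' : (0:ℝ) < d := by exact_mod_cast hd
  have hι : 0 < Fintype.card ι := by
    have h1 : (0:ℝ) < Fintype.card ι := lt_of_lt_of_le (by positivity) hfam.many
    exact_mod_cast h1
  obtain ⟨i0⟩ := Fintype.card_pos_iff.mp hι
  have hJ : 1 ≤ J := by
    have := (jj i0).isLt; omega
  have hJ' : (1:ℝ) ≤ J := by exact_mod_cast hJ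
  have hJ0 : (0:ℝ) < J := by linarith
  have hcc := capConst_nonneg d K A
  set c1 : ℝ := capConst d K A + 1 with hc1
  have hc10 : 0 < c1 := by linarith
  set lam' : ℝ := lam / ((2 * d + 5) * J * c1) with hlam'
  have hD : 0 < (2 * (d:ℝ) + 5) * J * c1 := by positivity
  have hlam'0 : 0 < lam' := by positivity
  have hA0 : (Q + Wᵀ * W).PosDef := by
    apply hQ.add_posSemidef
    have := Matrix.posSemidef_conjTranspose_mul_self W
    rwa [conjTranspose_eq_transpose_of_trivial] at this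
  have hX1 : ∀ v : Fin r → ℝ, (((2 * N) • W) *ᵥ v) ⬝ᵥ (((2 * N) • W) *ᵥ v) ≤
      4 * N ^ 2 * (v ⬝ᵥ ((Q + Wᵀ * W) *ᵥ v)) := by
    intro v
    have e1 : v ⬝ᵥ ((Wᵀ * W) *ᵥ v) = (W *ᵥ v) ⬝ᵥ (W *ᵥ v) := by
      rw [← mulVec_mulVec, dotProduct_mulVec, vecMul_transpose]
    have e2 : 0 ≤ v ⬝ᵥ (Q *ᵥ v) := by
      have := hQ.posSemidef.dotProduct_mulVec_nonneg v
      simpa using this
    rw [smul_mulVec, smul_dotProduct, dotProduct_smul, smul_eq_mul, smul_eq_mul, add_mulVec,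
      dotProduct_add, e1]
    have hNN : 0 ≤ 4 * N ^ 2 := by positivity
    nlinarith [mul_nonneg hNN e2]
  have hfib : ∀ T : Finset (Fin r → ℤ),
      (∀ n ∈ T, qf (Q + Wᵀ * W + ((2 * N) • W)ᵀ * ((2 * N) • W)) n ≤ 1) →
      (T.card : ℝ) ≤ fibConst d K κ A A1 := by
    intro T hT
    apply fibre_bound hN hκ hfam hQ.posSemidef h hcount T
    intro n hn
    have h1 := hT n hn
    rw [qf_add, qf_add, qf_transpose_mul, qf_transpose_mul] at h1
    have h2 : 0 ≤ qf Q n := by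
      have := hQ.posSemidef.dotProduct_mulVec_nonneg (rv n)
      simpa [qf] using this
    have h3 : 0 ≤ ∑ i, (W *ᵥ rv n) i ^ 2 := Finset.sum_nonneg fun i _ => sq_nonneg _
    have h4 : 0 ≤ ∑ i, (((2 * N) • W) *ᵥ rv n) i ^ 2 := Finset.sum_nonneg fun i _ => sq_nonneg _
    refine ⟨by linarith, fun m => ?_⟩
    have h5 : (((2 * N) • W) *ᵥ rv n) m ^ 2 ≤ 1 := by
      have := Finset.single_le_sum (f := fun i => (((2 * N) • W) *ᵥ rv n) i ^ 2)
        (fun i _ => sq_nonneg _) (Finset.mem_univ m)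
      linarith
    rw [smul_mulVec, Pi.smul_apply, smul_eq_mul] at h5
    have h6 : |2 * N * (W *ᵥ rv n) m| ≤ 1 := by
      rw [← sq_le_one_iff_abs_le_one]; exact h5
    rw [abs_mul, abs_of_pos (by positivity : 0 < 2 * N)] at h6
    rw [le_div_iff₀ hN0]
    have h7 : 0 ≤ |(W *ᵥ rv n) m| := abs_nonneg _
    nlinarith
  obtain ⟨E, hEm, hEb, hEv, hE⟩ := exists_badSet hcore hN hA0 (N • Y) ((2 * N) • W) hX1 hfib
    hlam'0
  set v : ℝ := C0 * N ^ ε * lam' ^ (-(1 / (d : ℝ))) with hv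
  have hv0 : 0 ≤ v := by positivity
  -- the set of all bad points
  set G : Set (Sp d) := {x | ∃ t : ℤ, x (Fin.last d) / N ^ 2 - t ∈ E} with hG
  have hGm : MeasurableSet G := by
    have : G = ⋃ t : ℤ, {x : Sp d | x (Fin.last d) / N ^ 2 - t ∈ E} := by ext x; simp [hG]
    rw [this]
    refine MeasurableSet.iUnion fun t => ?_
    have hm : Measurable fun x : Sp d => x (Fin.last d) / N ^ 2 - t := by fun_prop
    exact hm hEm
  have hsub : {x : Sp d | lam < mult N θ c x} ⊆ {x | lam < mult N θ c x} ∩ G := by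
    intro x hx
    refine ⟨hx, ?_⟩
    obtain ⟨t, ht, T, hT, hTc⟩ := many_short hN hA hfam.overlap hQ.posSemidef h hlam hx
    refine ⟨t, hE _ ht ⟨T, hT, ?_⟩⟩
    rw [hlam', div_le_iff₀ hD]
    have h1 : (0:ℝ) ≤ T.card := Nat.cast_nonneg _
    calc lam ≤ (2 * d + 5) * J * (capConst d K A * T.card) := hTc
      _ ≤ (2 * d + 5) * J * (c1 * T.card) := by gcongr; linarith
      _ = _ := by ring
  -- the part of a tube in it
  have htube : ∀ i, volume (tube N (θ i) (c i) ∩ G) ≤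
      (4 * d + 9 : ℕ) * (ENNReal.ofReal (N ^ 2) * volume E * ENNReal.ofReal (3 * d * N) ^ d) := by
    intro i
    set T := height N (c i) with hT
    set I : Finset ℤ := Finset.Icc (T - (2 * d + 4)) (T + (2 * d + 4)) with hI
    have hIc : I.card = 4 * d + 9 := by rw [hI, Int.card_Icc]; omega
    have hs : tube N (θ i) (c i) ∩ G ⊆
        ⋃ t ∈ I, tube N (θ i) (c i) ∩ {x : Sp d | x (Fin.last d) / N ^ 2 - (t:ℝ) ∈ E} := by
      rintro x ⟨hx, t, ht⟩
      simp only [Set.mem_iUnion]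
      refine ⟨t, ?_, hx, ht⟩
      have h1 := tube_height' hN (θ i) (c i) hx
      have h2 := hEb _ ht
      rw [abs_le] at h1 h2
      rw [hI, Finset.mem_Icc]
      constructor
      · have : ((T - (2 * d + 4) : ℤ) : ℝ) ≤ (t:ℝ) := by
          push_cast; linarith [h1.1, h1.2, h2.1, h2.2]
        exact_mod_cast this
      · have : (t:ℝ) ≤ ((T + (2 * d + 4) : ℤ) : ℝ) := by
          push_cast; linarith [h1.1, h1.2, h2.1, h2.2]
        exact_mod_cast this
    refine (measure_mono hs).trans ((measure_biUnion_finset_le _ _).trans ?_)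
    calc _ ≤ ∑ _t ∈ I, ENNReal.ofReal (N ^ 2) * volume E * ENNReal.ofReal (3 * d * N) ^ d :=
          Finset.sum_le_sum fun t _ => volume_tube_inter_le hN (θ i) (c i) hEm t
      _ = _ := by rw [Finset.sum_const, hIc, nsmul_eq_mul]
  -- Markov
  have hmark : ENNReal.ofReal lam * volume {x : Sp d | lam < mult N θ c x} ≤
      ∑ i, volume (tube N (θ i) (c i) ∩ G) := by
    have h1 : ∫⁻ x in G, ENNReal.ofReal (mult N θ c x) = ∑ i, volume (tube N (θ i) (c i) ∩ G) := by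
      unfold mult
      have e1 : ∀ x : Sp d,
          ENNReal.ofReal (∑ i, (tube N (θ i) (c i)).indicator (fun _ => (1:ℝ)) x) =
          ∑ i, (tube N (θ i) (c i)).indicator (fun _ => (1:ℝ≥0∞)) x := by
        intro x
        rw [ENNReal.ofReal_sum_of_nonneg
          (fun i _ => Set.indicator_nonneg (fun _ _ => zero_le_one) _)]
        apply Finset.sum_congr rfl; intro i _
        by_cases h : x ∈ tube N (θ i) (c i)
        · rw [Set.indicator_of_mem h, Set.indicator_of_mem h, ENNReal.ofReal_one]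
        · rw [Set.indicator_of_notMem h, Set.indicator_of_notMem h, ENNReal.ofReal_zero]
      simp_rw [e1]
      rw [lintegral_finsetSum _ fun i _ => measurable_const.indicator (measurableSet_tube _ _ _)]
      apply Finset.sum_congr rfl
      intro i _
      rw [lintegral_indicator_const (measurableSet_tube _ _ _), one_mul,
        Measure.restrict_apply (measurableSet_tube _ _ _)]
    rw [← h1]
    have h2 := mul_meas_ge_le_lintegral₀ (μ := volume.restrict G)
      ((measurable_mult N θ c).ennreal_ofReal.aemeasurable) (ENNReal.ofReal lam)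
    refine le_trans ?_ h2
    refine mul_le_mul' le_rfl ?_
    calc volume {x : Sp d | lam < mult N θ c x}
        ≤ volume ({x | lam < mult N θ c x} ∩ G) := measure_mono hsub
      _ ≤ volume.restrict G {x | lam < mult N θ c x} := Measure.le_restrict_apply _ _
      _ ≤ _ := by
        apply measure_mono
        intro x hx
        exact ENNReal.ofReal_le_ofReal (le_of_lt hx)
  have hcardι := card_le hN θ hfam.overlap
  have hfinal : ENNReal.ofReal lam * volume {x : Sp d | lam < mult N θ c x} ≤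
      ENNReal.ofReal (K * 5 ^ d * N ^ d * ((4 * d + 9) * (N ^ 2 * ((2 * d + 4) * v) *
        (3 * d * N) ^ d))) := by
    refine hmark.trans ?_
    have hEv' : volume E ≤ ENNReal.ofReal ((2 * d + 4) * v) := by
      refine hEv.trans (le_of_eq ?_)
      rw [ENNReal.ofReal_mul (p := 2 * (d:ℝ) + 4) (by positivity)]
      congr 1
      rw [← ENNReal.ofReal_natCast]
      congr 1
      push_cast; ring
    calc ∑ i, volume (tube N (θ i) (c i) ∩ G)
        ≤ ∑ _i : ι, ENNReal.ofReal ((4 * d + 9) * (N ^ 2 * ((2 * d + 4) * v) *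
            (3 * d * N) ^ d)) := by
          apply Finset.sum_le_sum
          intro i _
          refine (htube i).trans ?_
          rw [ENNReal.ofReal_mul (p := 4 * (d:ℝ) + 9) (by positivity),
            ENNReal.ofReal_mul (p := N ^ 2 * ((2 * (d:ℝ) + 4) * v)) (by positivity),
            ENNReal.ofReal_mul (p := N ^ 2) (by positivity),
            ENNReal.ofReal_pow (p := 3 * (d:ℝ) * N) (by positivity)]
          have e1 : ((4 * d + 9 : ℕ) : ℝ≥0∞) = ENNReal.ofReal (4 * (d:ℝ) + 9) := by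
            rw [← ENNReal.ofReal_natCast]; congr 1; push_cast; ring
          rw [e1]
          gcongr
      _ = ENNReal.ofReal (Fintype.card ι * ((4 * d + 9) * (N ^ 2 * ((2 * d + 4) * v) *
            (3 * d * N) ^ d))) := by
          rw [Finset.sum_const, Finset.card_univ, nsmul_eq_mul,
            ENNReal.ofReal_mul (by positivity : (0:ℝ) ≤ (Fintype.card ι : ℝ)),
            ENNReal.ofReal_natCast]
      _ ≤ _ := by
          apply ENNReal.ofReal_le_ofReal
          gcongr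
  -- division by `lam`
  have hdiv : volume {x : Sp d | lam < mult N θ c x} ≤
      ENNReal.ofReal (K * 5 ^ d * N ^ d * ((4 * d + 9) * (N ^ 2 * ((2 * d + 4) * v) *
        (3 * d * N) ^ d)) / lam) := by
    rw [ENNReal.ofReal_div_of_pos hlam, ENNReal.le_div_iff_mul_le
      (Or.inl (by simpa using hlam)) (Or.inl ENNReal.ofReal_ne_top), mul_comm]
    exact hfinal
  refine hdiv.trans (ENNReal.ofReal_le_ofReal (le_of_eq ?_))
  have e1 : lam' ^ (-(1 / (d:ℝ))) = lam ^ (-(1 / (d:ℝ))) * (J:ℝ) ^ (1 / (d:ℝ)) *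
      ((2 * d + 5) * c1) ^ (1 / (d:ℝ)) := by
    rw [hlam', Real.div_rpow hlam.le hD.le, Real.rpow_neg hD.le, div_inv_eq_mul]
    have : (2 * (d:ℝ) + 5) * J * c1 = J * ((2 * d + 5) * c1) := by ring
    rw [this, Real.mul_rpow hJ0.le (by positivity)]
    ring
  have e2 : lam ^ (-(1 + 1 / (d:ℝ))) = lam⁻¹ * lam ^ (-(1 / (d:ℝ))) := by
    rw [← Real.rpow_neg_one lam, ← Real.rpow_add hlam]
    congr 1; ring
  rw [e2, hv, e1]
  unfold addConst
  rw [← hc1]
  have e3 : N ^ (2 * d + 2) = N ^ d * N ^ d * N ^ 2 := by ring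
  rw [e3, mul_pow (3 * (d:ℝ)) N d]
  field_simp

end Pool.Agent.MPac5134
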