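import Mathlib

/-!
The area inequality for maps with bounded multiplicity: if every point has at most `B` preimages
at which the derivative is invertible, then `∫ |det f'| ≤ B · volume` over the preimage of a set.
-/

namespace Pool.Agent.MPac5134

open MeasureTheory Set Function
open scoped ENNReal NNReal

variable {E : Type*} [NormedAddCommGroup E] [NormedSpace ℝ E] [FiniteDimensional ℝ E]
  [MeasurableSpace E] [BorelSpace E]

/-- a partition of the set into countably many pieces on which the map is injective -/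
theorem exists_partition_injOn (f : E → E) (s : Set E) (f' : E → E →L[ℝ] E)
    (hf' : ∀ x ∈ s, HasFDerivWithinAt f (f' x) s x) (hdet : ∀ x ∈ s, (f' x).det ≠ 0) :
    ∃ t : ℕ → Set E, Pairwise (Disjoint on t) ∧ (∀ n, MeasurableSet (t n)) ∧
      (s ⊆ ⋃ n, t n) ∧ ∀ n, InjOn f (s ∩ t n) := by
  classical
  have hr : ∀ A : E →L[ℝ] E, ∃ r : ℝ≥0, r ≠ 0 ∧ (A.det ≠ 0 →
      ∀ u : Set E, ApproximatesLinearOn f A u r → InjOn f u) := by
    intro A
    by_cases hA : A.det = 0
    · exact ⟨1, one_ne_zero, fun h => absurd hA h⟩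
    · rcases subsingleton_or_nontrivial E with hE | hE
      · exact ⟨1, one_ne_zero, fun _ u _ => (injective_of_subsingleton f).injOn⟩
      · set A' : E ≃L[ℝ] E := A.toContinuousLinearEquivOfDetNeZero hA with hA'
        have hAA : (A' : E →L[ℝ] E) = A := by
          ext x; rfl
        have hpos : 0 < ‖(A'.symm : E →L[ℝ] E)‖₊⁻¹ := by
          rw [inv_pos]
          have := A'.symm.norm_pos
          exact_mod_cast this
        refine ⟨‖(A'.symm : E →L[ℝ] E)‖₊⁻¹ / 2, (half_pos hpos).ne', ?_⟩
        intro _ u hu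
        rw [← hAA] at hu
        exact hu.injOn (Or.inr (half_lt_self hpos))
  choose r hr0 hr1 using hr
  obtain ⟨t, A, hdis, hmeas, hcov, happ, hA⟩ :=
    exists_partition_approximatesLinearOn_of_hasFDerivWithinAt f s f' hf' r hr0
  refine ⟨t, hdis, hmeas, hcov, ?_⟩
  intro n
  rcases s.eq_empty_or_nonempty with hs | hs
  · rw [hs, empty_inter]; exact injOn_empty f
  · obtain ⟨y, hy, hAy⟩ := hA hs n
    apply hr1 (A n) _ _ (happ n)
    rw [hAy]; exact hdet y hy

theorem area_mult (μ : Measure E) [μ.IsAddHaarMeasure] {κ : Type*} [Countable κ]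
    (s : κ → Set E) (hs : ∀ m, MeasurableSet (s m)) (hdis : Pairwise (Disjoint on s))
    (f : E → E) (f' : E → E →L[ℝ] E)
    (hf' : ∀ m, ∀ x ∈ s m, HasFDerivWithinAt f (f' x) (s m) x)
    (hdet : ∀ m, ∀ x ∈ s m, (f' x).det ≠ 0)
    {V : Set E} (hV : MeasurableSet V) (hmap : ∀ m, ∀ x ∈ s m, f x ∈ V) (B : ℕ)
    (hB : ∀ y : E, ∀ S : Finset E, (∀ x ∈ S, x ∈ ⋃ m, s m) → (∀ x ∈ S, f x = y) →
      S.card ≤ B) :
    ∑' m, ∫⁻ x in s m, ENNReal.ofReal |(f' x).det| ∂μ ≤ B * μ V := by
  classical
  have hpart : ∀ m, ∃ t : ℕ → Set E, Pairwise (Disjoint on t) ∧ (∀ n, MeasurableSet (t n)) ∧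
      (s m ⊆ ⋃ n, t n) ∧ ∀ n, InjOn f (s m ∩ t n) := fun m =>
    exists_partition_injOn f (s m) f' (hf' m) (hdet m)
  choose t ht1 ht2 ht3 ht4 using hpart
  have hmeas : ∀ m n, MeasurableSet (s m ∩ t m n) := fun m n => (hs m).inter (ht2 m n)
  have hder : ∀ m n, ∀ x ∈ s m ∩ t m n, HasFDerivWithinAt f (f' x) (s m ∩ t m n) x :=
    fun m n x hx => (hf' m x hx.1).mono inter_subset_left
  have himg : ∀ m n, MeasurableSet (f '' (s m ∩ t m n)) := fun m n =>
    measurable_image_of_fderivWithin (hmeas m n) (hder m n) (ht4 m n)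
  have h1 : ∀ m, ∫⁻ x in s m, ENNReal.ofReal |(f' x).det| ∂μ =
      ∑' n, μ (f '' (s m ∩ t m n)) := by
    intro m
    have e1 : s m = ⋃ n, s m ∩ t m n := by
      rw [← inter_iUnion]
      exact (inter_eq_left.2 (ht3 m)).symm
    conv_lhs => rw [e1]
    rw [lintegral_iUnion (hmeas m)]
    · apply tsum_congr
      intro n
      exact lintegral_abs_det_fderiv_eq_addHaar_image μ (hmeas m n) (hder m n) (ht4 m n)
    · intro i j hij
      exact ((ht1 m) hij).mono inter_subset_right inter_subset_right
  calc ∑' m, ∫⁻ x in s m, ENNReal.ofReal |(f' x).det| ∂μ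
      = ∑' m, ∑' n, μ (f '' (s m ∩ t m n)) := tsum_congr h1
    _ = ∑' q : κ × ℕ, μ (f '' (s q.1 ∩ t q.1 q.2)) := by
        rw [ENNReal.tsum_prod']
    _ = ∑' q : κ × ℕ, ∫⁻ y, (f '' (s q.1 ∩ t q.1 q.2)).indicator (fun _ => (1:ℝ≥0∞)) y ∂μ := by
        apply tsum_congr
        intro q
        rw [lintegral_indicator_const (himg q.1 q.2), one_mul]
    _ = ∫⁻ y, ∑' q : κ × ℕ, (f '' (s q.1 ∩ t q.1 q.2)).indicator (fun _ => (1:ℝ≥0∞)) y ∂μ := by
        rw [lintegral_tsum]
        intro q
        exact (measurable_const.indicator (himg q.1 q.2)).aemeasurable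
    _ ≤ ∫⁻ y, V.indicator (fun _ => (B:ℝ≥0∞)) y ∂μ := by
        apply lintegral_mono
        intro y
        simp only
        by_cases hy : y ∈ V
        · rw [indicator_of_mem hy, ENNReal.tsum_eq_iSup_sum]
          apply iSup_le
          intro S
          -- the pairs whose image contains `y`
          set S' := S.filter (fun q => y ∈ f '' (s q.1 ∩ t q.1 q.2)) with hS'
          have e1 : ∑ q ∈ S, (f '' (s q.1 ∩ t q.1 q.2)).indicator (fun _ => (1:ℝ≥0∞)) y =
              S'.card := by
            rw [hS', Finset.card_filter]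
            push_cast
            apply Finset.sum_congr rfl
            intro q _
            rw [indicator_apply]
          rw [e1]
          have hch : ∀ q ∈ S', ∃ x, x ∈ s q.1 ∩ t q.1 q.2 ∧ f x = y := fun q hq =>
            (Finset.mem_filter.1 hq).2
          choose! g hg1 hg2 using hch
          have hinj : Set.InjOn g S' := by
            intro q hq q' hq' hqq
            have a1 := hg1 q hq
            have a2 := hg1 q' hq'
            rw [← hqq] at a2
            have b1 : q.1 = q'.1 := by
              by_contra hne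
              exact Set.disjoint_left.1 (hdis hne) a1.1 a2.1
            have b2 : q.2 = q'.2 := by
              by_contra hne
              rw [← b1] at a2
              exact Set.disjoint_left.1 (ht1 q.1 hne) a1.2 a2.2
            exact Prod.ext b1 b2
          have h2 := hB y (S'.image g) (by
            intro x hx
            obtain ⟨q, hq, rfl⟩ := Finset.mem_image.1 hx
            exact mem_iUnion.2 ⟨q.1, (hg1 q hq).1⟩) (by
            intro x hx
            obtain ⟨q, hq, rfl⟩ := Finset.mem_image.1 hx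
            exact hg2 q hq)
          rw [Finset.card_image_of_injOn hinj] at h2
          exact_mod_cast h2
        · rw [indicator_of_notMem hy, nonpos_iff_eq_zero, ENNReal.tsum_eq_zero]
          intro q
          apply indicator_of_notMem
          rintro ⟨x, hx, rfl⟩
          exact hy (hmap q.1 x hx.1)
    _ = B * μ V := by
        rw [lintegral_indicator_const hV]

end Pool.Agent.MPac5134
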