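import Pool.Agent.Lib.MP_ac5134_an.Defs

/-!
Volumes of boxes in orthonormal frames, and of the part of a tube in a transversal slab.
-/

namespace Pool.Agent.MPac5134

open MeasureTheory
open scoped ENNReal InnerProductSpace

variable {d : ℕ}

theorem volume_frame_box (b : OrthonormalBasis (Fin (d + 1)) ℝ (Sp d)) (c : Sp d)
    (lo hi : Fin (d + 1) → ℝ) :
    volume {x : Sp d | ∀ i, ⟪b i, x - c⟫_ℝ ∈ Set.Icc (lo i) (hi i)} =
      ∏ i, ENNReal.ofReal (hi i - lo i) := by
  have h1 : MeasurePreserving (fun x : Sp d => x - c) volume volume :=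
    measurePreserving_sub_right volume c
  have h2 := b.measurePreserving_repr
  have h3 := PiLp.volume_preserving_ofLp (Fin (d + 1))
  have h := (h3.comp h2).comp h1
  have hset : {x : Sp d | ∀ i, ⟪b i, x - c⟫_ℝ ∈ Set.Icc (lo i) (hi i)} =
      ((@WithLp.ofLp 2 (Fin (d + 1) → ℝ) ∘ b.repr) ∘ fun x : Sp d => x - c) ⁻¹'
        (Set.Icc lo hi) := by
    ext x
    simp only [Set.mem_ofPred_eq, Set.mem_preimage, Function.comp_apply, Set.mem_Icc,
      Pi.le_def, ← forall_and]
    apply forall_congr'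
    intro i
    rw [← b.repr_apply_apply]
  rw [hset, h.measure_preimage measurableSet_Icc.nullMeasurableSet, Real.volume_Icc_pi]

/-- the box in an orthonormal frame with the last side restricted to `[α, β]` -/
def frameBox (N : ℝ) (b : OrthonormalBasis (Fin (d + 1)) ℝ (Sp d)) (c : Sp d) (α β : ℝ) :
    Set (Sp d) :=
  {x | (∀ i : Fin d, |⟪b i.castSucc, x - c⟫_ℝ| ≤ N / 2) ∧
    ⟪b (Fin.last d), x - c⟫_ℝ ∈ Set.Icc α β}

theorem volume_frameBox (N : ℝ) (b : OrthonormalBasis (Fin (d + 1)) ℝ (Sp d)) (c : Sp d)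
    (α β : ℝ) :
    volume (frameBox N b c α β) = ENNReal.ofReal N ^ d * ENNReal.ofReal (β - α) := by
  have h := volume_frame_box b c (Fin.snoc (fun _ => -(N / 2)) α : Fin (d + 1) → ℝ)
    (Fin.snoc (fun _ => N / 2) β : Fin (d + 1) → ℝ)
  rw [Fin.prod_univ_castSucc] at h
  simp only [Fin.snoc_castSucc, Fin.snoc_last, Finset.prod_const, Finset.card_univ,
    Fintype.card_fin] at h
  have e : N / 2 - -(N / 2) = N := by ring
  rw [e] at h
  rw [← h]
  congr 1
  ext x
  simp only [frameBox, Set.mem_ofPred_eq, Fin.forall_fin_succ', Fin.snoc_castSucc, Fin.snoc_last,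
    Set.mem_Icc, abs_le]

theorem tube_eq (N : ℝ) (θ : Cap d) (c : Sp d) :
    tube N θ c = frameBox N θ.frame c (-(N ^ 2 / 2)) (N ^ 2 / 2) := by
  ext x
  simp only [tube, frameBox, Set.mem_ofPred_eq, Set.mem_Icc, abs_le]

theorem volume_tube {N : ℝ} (hN : 0 ≤ N) (θ : Cap d) (c : Sp d) :
    volume (tube N θ c) = ENNReal.ofReal (N ^ (d + 2)) := by
  rw [tube_eq, volume_frameBox, ← ENNReal.ofReal_pow hN, ← ENNReal.ofReal_mul (by positivity)]
  congr 1
  ring

theorem measurableSet_frameBox (N : ℝ) (b : OrthonormalBasis (Fin (d + 1)) ℝ (Sp d)) (c : Sp d)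
    (α β : ℝ) : MeasurableSet (frameBox N b c α β) := by
  have hc : ∀ i, Continuous fun x : Sp d => ⟪b i, x - c⟫_ℝ := by
    intro i
    fun_prop
  have : frameBox N b c α β = (⋂ i : Fin d, {x | |⟪b i.castSucc, x - c⟫_ℝ| ≤ N / 2}) ∩
      {x | ⟪b (Fin.last d), x - c⟫_ℝ ∈ Set.Icc α β} := by
    ext x; simp [frameBox]
  rw [this]
  refine MeasurableSet.inter (MeasurableSet.iInter fun i => ?_) ?_
  · exact (isClosed_le (continuous_abs.comp (hc _)) continuous_const).measurableSet
  · exact (isClosed_Icc.preimage (hc _)).measurableSet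

theorem measurableSet_tube (N : ℝ) (θ : Cap d) (c : Sp d) : MeasurableSet (tube N θ c) := by
  rw [tube_eq]; exact measurableSet_frameBox _ _ _ _ _

theorem abs_coord_le_one (b : OrthonormalBasis (Fin (d + 1)) ℝ (Sp d)) (i j : Fin (d + 1)) :
    |(b i) j| ≤ 1 := by
  have h := EuclideanSpace.norm_eq (b i)
  have h1 : ‖b i‖ = 1 := b.orthonormal.1 i
  have h2 : |(b i) j| ≤ ‖b i‖ := by
    have := PiLp.norm_apply_le (b i) j
    rwa [Real.norm_eq_abs] at this
  rwa [h1] at h2

theorem normalVec_castSucc (ω : Fin d → ℝ) (k : Fin d) :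
    (normalVec ω) k.castSucc = -2 * ω k := by
  simp [normalVec]

theorem normalVec_last (ω : Fin d → ℝ) : (normalVec ω) (Fin.last d) = 1 := by
  simp [normalVec]

theorem norm_normalVec_sq (ω : Fin d → ℝ) : ‖normalVec ω‖ ^ 2 = 4 * ∑ i, ω i ^ 2 + 1 := by
  rw [EuclideanSpace.norm_sq_eq, Fin.sum_univ_castSucc, normalVec_last]
  simp only [normalVec_castSucc, Real.norm_eq_abs, sq_abs, one_pow, abs_one]
  congr 1
  rw [Finset.mul_sum]
  apply Finset.sum_congr rfl
  intro i _
  ring

/-- the scalar relating the short direction to the normal vector is bounded below -/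
theorem Cap.exists_scalar (θ : Cap d) :
    ∃ a : ℝ, θ.frame (Fin.last d) = a • normalVec θ.foot ∧ 1 / 3 ≤ |a| := by
  obtain ⟨a, ha⟩ := θ.normal
  refine ⟨a, ha, ?_⟩
  have h1 : ‖θ.frame (Fin.last d)‖ = 1 := θ.frame.orthonormal.1 _
  rw [ha, norm_smul, Real.norm_eq_abs] at h1
  have h2 := norm_normalVec_sq θ.foot
  have h3 : ‖normalVec θ.foot‖ ≤ 3 := by
    have := θ.foot_mem
    nlinarith [norm_nonneg (normalVec θ.foot)]
  have h4 : 0 ≤ |a| := abs_nonneg a
  nlinarith [norm_nonneg (normalVec θ.foot)]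

theorem expand_coord (b : OrthonormalBasis (Fin (d + 1)) ℝ (Sp d)) (y : Sp d)
    (j : Fin (d + 1)) :
    y j = ∑ i : Fin d, ⟪b i.castSucc, y⟫_ℝ * (b i.castSucc) j +
      ⟪b (Fin.last d), y⟫_ℝ * (b (Fin.last d)) j := by
  have h := b.sum_repr' y
  have h2 := congrArg (fun v : Sp d => v j) h
  simp only at h2
  rw [← h2, Fin.sum_univ_castSucc]
  simp

/-- The part of a tube in a slab whose hyperplane makes angle `≥ |z - z_k| / N` with it. -/
theorem volume_tube_slab {N : ℝ} (hN : 1 ≤ N) {A : ℝ} (hA : 0 ≤ A) (θ : Cap d) (c : Sp d)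
    (k : Fin d) (z : ℤ) (hz : |(z : ℝ)| ≤ 2 * N) (β : ℝ) :
    volume (tube N θ c ∩
      {x | |x k.castSucc + 2 * ((z : ℝ) / N) * x (Fin.last d) - β| ≤ A * N}) ≤
      ENNReal.ofReal ((1 + 6 * (2 * A + 5 * d)) * N ^ (d + 2) *
        (max 1 |((z - cell N θ k : ℤ) : ℝ)|)⁻¹) := by
  have hN0 : 0 < N := by linarith
  rcases le_or_gt |((z - cell N θ k : ℤ) : ℝ)| 1 with hsm | hbig
  · refine (measure_mono Set.inter_subset_left).trans ?_
    rw [volume_tube hN0.le, max_eq_left hsm]
    apply ENNReal.ofReal_le_ofReal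
    have : 0 ≤ 6 * (2 * A + 5 * (d:ℝ)) * N ^ (d + 2) := by positivity
    simp only [inv_one, mul_one]
    linarith
  · -- the transversal case
    rw [max_eq_right hbig.le]
    have hint : 2 ≤ |((z - cell N θ k : ℤ) : ℝ)| := by
      have h1 : 1 < |z - cell N θ k| := by
        have : (1:ℝ) < ((|z - cell N θ k| : ℤ) : ℝ) := by
          push_cast at hbig ⊢
          exact hbig
        exact_mod_cast this
      have h2 : (2:ℤ) ≤ |z - cell N θ k| := h1
      have : ((2:ℤ):ℝ) ≤ ((|z - cell N θ k| : ℤ) : ℝ) := by exact_mod_cast h2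
      push_cast at this ⊢
      exact this
    set m : ℝ := |((z - cell N θ k : ℤ) : ℝ)| with hm
    have hmpos : 0 < m := by linarith
    obtain ⟨a, ha, ha3⟩ := θ.exists_scalar
    -- the linear functional
    set L : Sp d → ℝ := fun y => y k.castSucc + 2 * ((z : ℝ) / N) * y (Fin.last d) with hL
    have hLν : L (θ.frame (Fin.last d)) = a * (2 * ((z : ℝ) / N) - 2 * θ.foot k) := by
      rw [hL, ha]
      simp only [PiLp.smul_apply, smul_eq_mul, normalVec_castSucc, normalVec_last]
      ring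
    have hfloor1 := Int.floor_le (N * θ.foot k)
    have hfloor2 := Int.lt_floor_add_one (N * θ.foot k)
    have hcell : cell N θ k = ⌊N * θ.foot k⌋ := rfl
    have hdist : m / 2 ≤ |(z:ℝ) - N * θ.foot k| := by
      have e1 : m ≤ |(z:ℝ) - N * θ.foot k| + 1 := by
        have : ((z - cell N θ k : ℤ) : ℝ) =
            ((z:ℝ) - N * θ.foot k) + (N * θ.foot k - (cell N θ k : ℝ)) := by
          push_cast; ring
        rw [hm, this]
        refine (abs_add_le _ _).trans ?_
        gcongr
        rw [hcell, abs_le]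
        constructor <;> linarith
      linarith
    have hLabs : m / (3 * N) ≤ |L (θ.frame (Fin.last d))| := by
      rw [hLν, abs_mul]
      have e2 : 2 * ((z : ℝ) / N) - 2 * θ.foot k = 2 * ((z:ℝ) - N * θ.foot k) / N := by
        field_simp
      rw [e2, abs_div, abs_mul, abs_of_pos hN0, abs_of_pos (by norm_num : (0:ℝ) < 2)]
      calc m / (3 * N) = (1 / 3) * (2 * (m / 2) / N) := by field_simp
        _ ≤ |a| * (2 * |(z:ℝ) - N * θ.foot k| / N) := by gcongr
    have hLpos : 0 < |L (θ.frame (Fin.last d))| := lt_of_lt_of_le (by positivity) hLabs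
    have hLne : L (θ.frame (Fin.last d)) ≠ 0 := abs_pos.1 hLpos
    have hLb : ∀ i : Fin d, |L (θ.frame i.castSucc)| ≤ 5 := by
      intro i
      rw [hL]
      simp only
      refine (abs_add_le _ _).trans ?_
      rw [abs_mul, abs_mul, abs_div, abs_of_pos hN0, abs_of_pos (by norm_num : (0:ℝ) < 2)]
      have e3 := abs_coord_le_one θ.frame i.castSucc k.castSucc
      have e4 := abs_coord_le_one θ.frame i.castSucc (Fin.last d)
      have e5 : |(z:ℝ)| / N ≤ 2 := by
        rw [div_le_iff₀ hN0]; exact hz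
      have e6 : 2 * (|(z:ℝ)| / N) * |(θ.frame i.castSucc) (Fin.last d)| ≤ 2 * 2 * 1 := by
        gcongr
      linarith
    -- inclusion in a short frame box
    set γ : ℝ := (β - L c) / L (θ.frame (Fin.last d)) with hγ
    set ρ : ℝ := (A * N + 5 * d * N / 2) / |L (θ.frame (Fin.last d))| with hρ
    have hsub : tube N θ c ∩
        {x | |x k.castSucc + 2 * ((z : ℝ) / N) * x (Fin.last d) - β| ≤ A * N} ⊆
        frameBox N θ.frame c (γ - ρ) (γ + ρ) := by
      rintro x ⟨⟨hx1, hx2⟩, hx3⟩
      refine ⟨hx1, ?_⟩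
      have hx3' : |L x - β| ≤ A * N := hx3
      have hlin : L x = L c + ∑ i : Fin d, ⟪θ.frame i.castSucc, x - c⟫_ℝ *
          L (θ.frame i.castSucc) + ⟪θ.frame (Fin.last d), x - c⟫_ℝ *
          L (θ.frame (Fin.last d)) := by
        have p1 := expand_coord θ.frame (x - c) k.castSucc
        have p2 := expand_coord θ.frame (x - c) (Fin.last d)
        have q1 : x k.castSucc = c k.castSucc + (x - c) k.castSucc := by simp
        have q2 : x (Fin.last d) = c (Fin.last d) + (x - c) (Fin.last d) := by simp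
        simp only [hL]
        rw [q1, q2, p1, p2]
        simp only [mul_add, Finset.mul_sum, Finset.sum_add_distrib]
        have : ∀ i : Fin d, ⟪θ.frame i.castSucc, x - c⟫_ℝ *
            (2 * ((z:ℝ) / N) * (θ.frame i.castSucc) (Fin.last d)) =
            2 * ((z:ℝ) / N) * (⟪θ.frame i.castSucc, x - c⟫_ℝ *
              (θ.frame i.castSucc) (Fin.last d)) := by
          intro i; ring
        simp only [this]
        ring
      have hsum : |∑ i : Fin d, ⟪θ.frame i.castSucc, x - c⟫_ℝ * L (θ.frame i.castSucc)| ≤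
          5 * d * N / 2 := by
        refine (Finset.abs_sum_le_sum_abs _ _).trans ?_
        calc _ ≤ ∑ _i : Fin d, (N / 2) * 5 := by
              apply Finset.sum_le_sum
              intro i _
              rw [abs_mul]
              exact mul_le_mul (hx1 i) (hLb i) (abs_nonneg _) (by positivity)
          _ = 5 * d * N / 2 := by
              rw [Finset.sum_const, Finset.card_univ, Fintype.card_fin, nsmul_eq_mul]
              ring
      set y : ℝ := ⟪θ.frame (Fin.last d), x - c⟫_ℝ with hy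
      set Sg : ℝ := ∑ i : Fin d, ⟪θ.frame i.castSucc, x - c⟫_ℝ * L (θ.frame i.castSucc)
        with hSg
      have hyγ : |y - γ| ≤ ρ := by
        rw [hρ, le_div_iff₀ hLpos, ← abs_mul]
        have e6 : (y - γ) * L (θ.frame (Fin.last d)) = (L x - β) - Sg := by
          rw [hlin, hγ, sub_mul, div_mul_cancel₀ _ hLne]
          ring
        rw [e6]
        refine (abs_sub _ _).trans ?_
        linarith
      rw [abs_le] at hyγ
      constructor <;> linarith [hyγ.1, hyγ.2]
    refine (measure_mono hsub).trans ?_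
    rw [volume_frameBox, ← ENNReal.ofReal_pow hN0.le, ← ENNReal.ofReal_mul (by positivity)]
    apply ENNReal.ofReal_le_ofReal
    have hρle : ρ ≤ (A * N + 5 * d * N / 2) * (3 * N) / m := by
      rw [hρ, div_le_div_iff₀ hLpos hmpos]
      have : m ≤ 3 * N * |L (θ.frame (Fin.last d))| := by
        rw [div_le_iff₀ (by positivity)] at hLabs
        linarith
      have h0 : 0 ≤ A * N + 5 * d * N / 2 := by positivity
      calc (A * N + 5 * d * N / 2) * m
          ≤ (A * N + 5 * d * N / 2) * (3 * N * |L (θ.frame (Fin.last d))|) := by gcongr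
        _ = _ := by ring
    calc N ^ d * (γ + ρ - (γ - ρ)) = N ^ d * (2 * ρ) := by ring
      _ ≤ N ^ d * (2 * ((A * N + 5 * d * N / 2) * (3 * N) / m)) := by gcongr
      _ = (3 * (2 * A + 5 * d)) * N ^ (d + 2) * m⁻¹ := by
          rw [div_eq_mul_inv]; ring
      _ ≤ (1 + 6 * (2 * A + 5 * d)) * N ^ (d + 2) * m⁻¹ := by
          have : 0 ≤ 2 * A + 5 * (d:ℝ) := by positivity
          gcongr
          linarith

end Pool.Agent.MPac5134
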