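import Pool.Agent.Lib.MP_ac5134_an.Kraft
import Pool.Agent.Lib.MP_ac5134_an.Geom

/-!
The estimate at the critical exponent `1 + 1/d = n/(n-1)` for plane-sorted families.
-/

namespace Pool.Agent.MPac5134

open MeasureTheory
open scoped ENNReal InnerProductSpace

variable {d : ℕ} {ι : Type*} [Fintype ι]

theorem mult_eq_card [DecidableEq ι] (N : ℝ) (θ : ι → Cap d) (c : ι → Sp d) (x : Sp d)
    [DecidablePred fun i => x ∈ tube N (θ i) (c i)] :
    mult N θ c x = ((Finset.univ.filter fun i => x ∈ tube N (θ i) (c i)).card : ℝ) := by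
  unfold mult
  rw [Finset.card_filter]
  push_cast
  apply Finset.sum_congr rfl
  intro i _
  by_cases h : x ∈ tube N (θ i) (c i)
  · simp [h]
  · simp [h]

theorem cell_bounds {N : ℝ} (hN : 1 ≤ N) (θ : Cap d) (k : Fin d) :
    cell N θ k ∈ Finset.Icc (-(⌊N⌋ + 1)) (⌊N⌋ + 1) := by
  have h1 : θ.foot k ^ 2 ≤ 1 :=
    (Finset.single_le_sum (f := fun i => θ.foot i ^ 2) (fun i _ => sq_nonneg _)
      (Finset.mem_univ k)).trans θ.foot_mem
  have h2 : |θ.foot k| ≤ 1 := by
    rw [← sq_le_one_iff_abs_le_one]; exact h1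
  rw [abs_le] at h2
  unfold cell
  rw [Finset.mem_Icc]
  constructor
  · have e1 : ((-(⌊N⌋ + 1) : ℤ) : ℝ) ≤ N * θ.foot k := by
      push_cast
      have := Int.lt_floor_add_one N
      nlinarith
    exact Int.le_floor.2 e1
  · have e2 : ⌊N * θ.foot k⌋ ≤ ⌊N⌋ := Int.floor_le_floor (by nlinarith)
    omega

theorem abs_le_two_mul {N : ℝ} (hN : 1 ≤ N) {z : ℤ}
    (hz : z ∈ Finset.Icc (-(⌊N⌋ + 1)) (⌊N⌋ + 1)) : |(z : ℝ)| ≤ 2 * N := by
  rw [Finset.mem_Icc] at hz
  have h1 := Int.floor_le N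
  have h2 : ((-(⌊N⌋ + 1) : ℤ) : ℝ) ≤ z := by exact_mod_cast hz.1
  have h3 : (z : ℝ) ≤ ((⌊N⌋ + 1 : ℤ) : ℝ) := by exact_mod_cast hz.2
  push_cast at h2 h3
  rw [abs_le]
  constructor <;> linarith

/-- the slab associated with the prefix `s_{<k}` and the next entry `z` -/
def slabAt (A N : ℝ) (b : Fin d → (Fin d → ℤ) → ℝ) (k : Fin d) (s : Fin d → ℤ) (z : ℤ) :
    Set (Sp d) :=
  {x | |x k.castSucc + 2 * ((z : ℝ) / N) * x (Fin.last d) - b k (Function.update s k z)| ≤ A * N}

/-- pointwise inequality -/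
theorem mult_pow_le (hd : 0 < d) {K : ℕ} {A N : ℝ} (hN : 1 ≤ N) (θ : ι → Cap d)
    (c : ι → Sp d) (hK : ∀ z : Fin d → ℤ, ∀ s : Finset ι, (∀ i ∈ s, cell N (θ i) = z) → s.card ≤ K)
    (b : Fin d → (Fin d → ℤ) → ℝ)
    (hb1 : ∀ (k : Fin d) (z z' : Fin d → ℤ), (∀ j, j ≤ k → z j = z' j) → b k z = b k z')
    (hb2 : ∀ (i : ι) (k : Fin d), ∀ x ∈ tube N (θ i) (c i),
      |x k.castSucc + 2 * ((cell N (θ i) k : ℝ) / N) * x (Fin.last d) -
        b k (cell N (θ i))| ≤ A * N) (x : Sp d) :
    (mult N θ c x) ^ (1 + 1 / (d:ℝ)) ≤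
      (K : ℝ) ^ (1 + 1 / (d:ℝ)) / d * ∑ i, ∑ k : Fin d,
        ∑ z ∈ Finset.Icc (-(⌊N⌋ + 1)) (⌊N⌋ + 1),
        (tube N (θ i) (c i) ∩ slabAt A N b k (cell N (θ i)) z).indicator
          (fun _ => (1:ℝ)) x := by
  classical
  have hd' : (0:ℝ) < d := by exact_mod_cast hd
  rw [mult_eq_card]
  set S : Finset ι := Finset.univ.filter fun i => x ∈ tube N (θ i) (c i) with hS
  set S' : Finset (Fin d → ℤ) := S.image (fun i => cell N (θ i)) with hS'
  have hcard : S.card ≤ K * S'.card := by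
    apply Finset.card_le_mul_card_image
    intro z _
    apply hK z
    intro i hi
    exact (Finset.mem_filter.1 hi).2
  have htree := tree_ineq hd S'
  have hbr : ∀ s ∈ S', ∀ k : Fin d, ((branches S' k s).card : ℝ) ≤
      ∑ z ∈ Finset.Icc (-(⌊N⌋ + 1)) (⌊N⌋ + 1),
        (slabAt A N b k s z).indicator (fun _ => (1:ℝ)) x := by
    intro s _ k
    have hsub : branches S' k s ⊆ (Finset.Icc (-(⌊N⌋ + 1)) (⌊N⌋ + 1)).filter
        (fun z => x ∈ slabAt A N b k s z) := by
      intro z hz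
      unfold branches at hz
      obtain ⟨t, ht, rfl⟩ := Finset.mem_image.1 hz
      obtain ⟨ht1, ht2⟩ := Finset.mem_filter.1 ht
      obtain ⟨i, hi, rfl⟩ := Finset.mem_image.1 ht1
      have hix : x ∈ tube N (θ i) (c i) := (Finset.mem_filter.1 hi).2
      rw [Finset.mem_filter]
      refine ⟨cell_bounds hN (θ i) k, ?_⟩
      have h1 := hb2 i k x hix
      have h2 : b k (cell N (θ i)) = b k (Function.update s k (cell N (θ i) k)) := by
        apply hb1
        intro j hj
        rcases lt_or_eq_of_le hj with hj | rfl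
        · rw [Function.update_of_ne hj.ne]
          exact ht2 j hj
        · simp
      rw [h2] at h1
      exact h1
    calc ((branches S' k s).card : ℝ)
        ≤ (((Finset.Icc (-(⌊N⌋ + 1)) (⌊N⌋ + 1)).filter
          (fun z => x ∈ slabAt A N b k s z)).card : ℝ) := by
          exact_mod_cast Finset.card_le_card hsub
      _ = _ := by
          rw [Finset.card_filter]
          push_cast
          apply Finset.sum_congr rfl
          intro z _
          by_cases h : x ∈ slabAt A N b k s z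
          · simp [h]
          · simp [h]
  set g : (Fin d → ℤ) → ℝ := fun s => ∑ k : Fin d, ∑ z ∈ Finset.Icc (-(⌊N⌋ + 1)) (⌊N⌋ + 1),
        (slabAt A N b k s z).indicator (fun _ => (1:ℝ)) x with hg
  have hgnn : ∀ s, 0 ≤ g s := by
    intro s
    apply Finset.sum_nonneg; intro k _
    apply Finset.sum_nonneg; intro z _
    exact Set.indicator_nonneg (fun _ _ => zero_le_one) _
  have h1 : ∑ s ∈ S', ∑ k : Fin d, ((branches S' k s).card : ℝ) ≤ ∑ s ∈ S', g s := by
    apply Finset.sum_le_sum; intro s hs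
    apply Finset.sum_le_sum; intro k _
    exact hbr s hs k
  have h2 : ∑ s ∈ S', g s ≤ ∑ i ∈ S, g (cell N (θ i)) := by
    rw [hS']
    exact Finset.sum_image_le_of_nonneg (fun s _ => hgnn s)
  have h3 : ∑ i ∈ S, g (cell N (θ i)) = ∑ i, ∑ k : Fin d,
        ∑ z ∈ Finset.Icc (-(⌊N⌋ + 1)) (⌊N⌋ + 1),
        (tube N (θ i) (c i) ∩ slabAt A N b k (cell N (θ i)) z).indicator
          (fun _ => (1:ℝ)) x := by
    rw [hS, Finset.sum_filter]
    apply Finset.sum_congr rfl
    intro i _
    by_cases h : x ∈ tube N (θ i) (c i)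
    · rw [if_pos h]
      apply Finset.sum_congr rfl; intro k _
      apply Finset.sum_congr rfl; intro z _
      by_cases h' : x ∈ slabAt A N b k (cell N (θ i)) z
      · rw [Set.indicator_of_mem h', Set.indicator_of_mem (Set.mem_inter h h')]
      · rw [Set.indicator_of_notMem h', Set.indicator_of_notMem (fun h'' => h' h''.2)]
    · rw [if_neg h]
      symm
      apply Finset.sum_eq_zero; intro k _
      apply Finset.sum_eq_zero; intro z _
      rw [Set.indicator_of_notMem (fun h'' => h h''.1)]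
  rw [← h3]
  have h4 : (d:ℝ) * (S'.card : ℝ) ^ (1 + 1 / (d:ℝ)) ≤ ∑ i ∈ S, g (cell N (θ i)) :=
    htree.trans (h1.trans h2)
  have h5 : (S.card : ℝ) ^ (1 + 1 / (d:ℝ)) ≤
      ((K:ℝ) * S'.card) ^ (1 + 1 / (d:ℝ)) := by
    apply Real.rpow_le_rpow (by positivity) (by exact_mod_cast hcard) (by positivity)
  rw [Real.mul_rpow (by positivity) (by positivity)] at h5
  refine h5.trans ?_
  rw [div_mul_eq_mul_div, le_div_iff₀ hd', mul_assoc]
  apply mul_le_mul_of_nonneg_left _ (by positivity)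
  rw [mul_comm]
  exact h4

theorem sum_union_le_aux {α : Type*} [DecidableEq α] (A B : Finset α) (f : α → ℝ)
    (hf : ∀ a, 0 ≤ f a) : ∑ a ∈ A ∪ B, f a ≤ ∑ a ∈ A, f a + ∑ a ∈ B, f a := by
  have := Finset.sum_union_inter (s₁ := A) (s₂ := B) (f := f)
  have h2 : 0 ≤ ∑ a ∈ A ∩ B, f a := Finset.sum_nonneg fun a _ => hf a
  linarith

/-- harmonic sum over the possible cells -/
theorem sum_inv_le {N : ℝ} (hN : 1 ≤ N) {m : ℤ}
    (hm : m ∈ Finset.Icc (-(⌊N⌋ + 1)) (⌊N⌋ + 1)) :
    ∑ z ∈ Finset.Icc (-(⌊N⌋ + 1)) (⌊N⌋ + 1), (max 1 |((z - m : ℤ) : ℝ)|)⁻¹ ≤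
      8 * (1 + Real.log N) := by
  classical
  have hN0 : 0 < N := by linarith
  obtain ⟨R, hR⟩ : ∃ R : ℕ, (R : ℤ) = ⌊N⌋ + 1 :=
    Int.eq_ofNat_of_zero_le (by have := Int.floor_nonneg.2 hN0.le; omega) |>.imp
      fun _ h => h.symm
  rw [← hR] at hm ⊢
  have hRN : (R : ℝ) ≤ 2 * N := by
    have h1 := Int.floor_le N
    have h2 : ((R : ℤ) : ℝ) = ((⌊N⌋ + 1 : ℤ) : ℝ) := by rw [hR]
    push_cast at h2
    linarith
  have hR1 : 1 ≤ R := by
    have : 1 ≤ ⌊N⌋ := Int.le_floor.2 (by simpa using hN)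
    omega
  -- shift to j = z - m
  have hsub : (Finset.Icc (-(R:ℤ)) R).image (fun z => z - m) ⊆
      Finset.Icc (-(2 * R : ℤ)) (2 * R) := by
    intro j hj
    obtain ⟨z, hz, rfl⟩ := Finset.mem_image.1 hj
    rw [Finset.mem_Icc] at hz hm ⊢
    omega
  have h1 : ∑ z ∈ Finset.Icc (-(R:ℤ)) R, (max 1 |((z - m : ℤ) : ℝ)|)⁻¹ =
      ∑ j ∈ (Finset.Icc (-(R:ℤ)) R).image (fun z => z - m), (max 1 |(j : ℝ)|)⁻¹ := by
    rw [Finset.sum_image]
    intro a _ b _ hab
    simpa using hab
  rw [h1]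
  refine (Finset.sum_le_sum_of_subset_of_nonneg hsub (fun _ _ _ => by positivity)).trans ?_
  -- split into zero, positive, negative
  have hcover : Finset.Icc (-(2 * R : ℤ)) (2 * R) ⊆
      ({0} : Finset ℤ) ∪ ((Finset.range (2 * R)).image (fun n : ℕ => ((n : ℤ) + 1)) ∪
        (Finset.range (2 * R)).image (fun n : ℕ => (-((n : ℤ) + 1)))) := by
    intro j hj
    rw [Finset.mem_Icc] at hj
    simp only [Finset.mem_union, Finset.mem_singleton, Finset.mem_image, Finset.mem_range]
    rcases lt_trichotomy j 0 with h | h | h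
    · right; right
      refine ⟨(-j - 1).toNat, by omega, by omega⟩
    · left; exact h
    · right; left
      refine ⟨(j - 1).toNat, by omega, by omega⟩
  refine (Finset.sum_le_sum_of_subset_of_nonneg hcover (fun _ _ _ => by positivity)).trans ?_
  set f : ℤ → ℝ := fun j => (max 1 |(j : ℝ)|)⁻¹ with hf
  have hfnn : ∀ j, 0 ≤ f j := fun j => by positivity
  have hharm : ∑ n ∈ Finset.range (2 * R), (((n:ℝ) + 1))⁻¹ ≤ 1 + Real.log ((2 * R : ℕ) : ℝ) := by
    have h2 := harmonic_le_one_add_log (2 * R)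
    unfold harmonic at h2
    push_cast at h2 ⊢
    exact h2
  have hA : ∑ a ∈ (Finset.range (2 * R)).image (fun n : ℕ => ((n : ℤ) + 1)), f a ≤
      1 + Real.log ((2 * R : ℕ) : ℝ) := by
    refine (Finset.sum_image_le_of_nonneg (fun s _ => hfnn s)).trans ?_
    refine le_trans (Finset.sum_le_sum fun n _ => ?_) hharm
    rw [hf]
    simp only
    push_cast
    apply inv_anti₀ (by positivity)
    refine le_trans ?_ (le_max_right _ _)
    exact le_abs_self _
  have hB : ∑ a ∈ (Finset.range (2 * R)).image (fun n : ℕ => (-((n : ℤ) + 1))), f a ≤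
      1 + Real.log ((2 * R : ℕ) : ℝ) := by
    refine (Finset.sum_image_le_of_nonneg (fun s _ => hfnn s)).trans ?_
    refine le_trans (Finset.sum_le_sum fun n _ => ?_) hharm
    rw [hf]
    simp only
    push_cast
    apply inv_anti₀ (by positivity)
    refine le_trans ?_ (le_max_right _ _)
    rw [abs_neg]
    exact le_abs_self _
  have h0 : ∑ a ∈ ({0} : Finset ℤ), f a = 1 := by
    rw [Finset.sum_singleton, hf]; simp
  have hlog : Real.log ((2 * R : ℕ) : ℝ) ≤ 2 * Real.log 2 + Real.log N := by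
    have h2 : ((2 * R : ℕ) : ℝ) ≤ 4 * N := by push_cast; linarith
    have h3 : (0:ℝ) < ((2 * R : ℕ) : ℝ) := by
      have : (1:ℝ) ≤ R := by exact_mod_cast hR1
      push_cast; linarith
    have h4 := Real.log_le_log h3 h2
    rw [Real.log_mul (by norm_num) hN0.ne'] at h4
    have h5 : Real.log 4 = 2 * Real.log 2 := by
      rw [show (4:ℝ) = 2 ^ 2 by norm_num, Real.log_pow]; norm_num
    linarith
  have hlog2 : Real.log 2 ≤ 1 := by
    have := Real.log_two_lt_d9
    linarith
  have hlogN : 0 ≤ Real.log N := Real.log_nonneg hN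
  have u1 := sum_union_le_aux ({0} : Finset ℤ) ((Finset.range (2 * R)).image
    (fun n : ℕ => ((n : ℤ) + 1)) ∪ (Finset.range (2 * R)).image (fun n : ℕ => (-((n : ℤ) + 1))))
    f hfnn
  have u2 := sum_union_le_aux ((Finset.range (2 * R)).image
    (fun n : ℕ => ((n : ℤ) + 1))) ((Finset.range (2 * R)).image (fun n : ℕ => (-((n : ℤ) + 1))))
    f hfnn
  linarith

/-- The estimate at the critical exponent. -/
theorem critical_bound (hd : 0 < d) {K : ℕ} {A N : ℝ} (hN : 1 ≤ N) (hA : 0 ≤ A)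
    (θ : ι → Cap d) (c : ι → Sp d)
    (hK : ∀ z : Fin d → ℤ, ∀ s : Finset ι, (∀ i ∈ s, cell N (θ i) = z) → s.card ≤ K)
    (hps : PlaneSorted A N θ c) :
    ∫⁻ x, ENNReal.ofReal ((mult N θ c x) ^ (1 + 1 / (d:ℝ))) ≤
      ENNReal.ofReal ((K : ℝ) ^ (1 + 1 / (d:ℝ)) * (8 * (1 + 6 * (2 * A + 5 * d))) *
        (1 + Real.log N) * (Fintype.card ι * N ^ (d + 2))) := by
  classical
  obtain ⟨b, hb1, hb2⟩ := hps
  have hd' : (0:ℝ) < d := by exact_mod_cast hd
  have hN0 : 0 < N := by linarith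
  set C1 : ℝ := 1 + 6 * (2 * A + 5 * d) with hC1
  have hC1pos : 0 ≤ C1 := by positivity
  set KK : ℝ := (K : ℝ) ^ (1 + 1 / (d:ℝ)) with hKK
  have hKKnn : 0 ≤ KK := by positivity
  set Z : Finset ℤ := Finset.Icc (-(⌊N⌋ + 1)) (⌊N⌋ + 1) with hZ
  have hmeas : ∀ (i : ι) (k : Fin d) (z : ℤ),
      MeasurableSet (tube N (θ i) (c i) ∩ slabAt A N b k (cell N (θ i)) z) := by
    intro i k z
    refine (measurableSet_tube _ _ _).inter ?_
    have hc : Continuous fun x : Sp d => |x k.castSucc + 2 * ((z : ℝ) / N) * x (Fin.last d) -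
        b k (Function.update (cell N (θ i)) k z)| := by fun_prop
    exact (isClosed_le hc continuous_const).measurableSet
  calc ∫⁻ x, ENNReal.ofReal ((mult N θ c x) ^ (1 + 1 / (d:ℝ)))
      ≤ ∫⁻ x, ENNReal.ofReal (KK / d * ∑ i, ∑ k : Fin d, ∑ z ∈ Z,
        (tube N (θ i) (c i) ∩ slabAt A N b k (cell N (θ i)) z).indicator
          (fun _ => (1:ℝ)) x) := by
        apply lintegral_mono
        intro x
        exact ENNReal.ofReal_le_ofReal (mult_pow_le hd hN θ c hK b hb1 hb2 x)
    _ = ENNReal.ofReal (KK / d) * ∑ i, ∑ k : Fin d, ∑ z ∈ Z,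
        volume (tube N (θ i) (c i) ∩ slabAt A N b k (cell N (θ i)) z) := by
        have e1 : ∀ x : Sp d, ENNReal.ofReal (KK / d * ∑ i, ∑ k : Fin d, ∑ z ∈ Z,
            (tube N (θ i) (c i) ∩ slabAt A N b k (cell N (θ i)) z).indicator
              (fun _ => (1:ℝ)) x) = ENNReal.ofReal (KK / d) * ∑ i, ∑ k : Fin d, ∑ z ∈ Z,
            (tube N (θ i) (c i) ∩ slabAt A N b k (cell N (θ i)) z).indicator
              (fun _ => (1:ℝ≥0∞)) x := by
          intro x
          rw [ENNReal.ofReal_mul (by positivity)]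
          congr 1
          have hnn : ∀ (s : Set (Sp d)), 0 ≤ s.indicator (fun _ => (1:ℝ)) x := fun s =>
            Set.indicator_nonneg (fun _ _ => zero_le_one) _
          rw [ENNReal.ofReal_sum_of_nonneg (fun i _ => Finset.sum_nonneg fun k _ =>
            Finset.sum_nonneg fun z _ => hnn _)]
          apply Finset.sum_congr rfl; intro i _
          rw [ENNReal.ofReal_sum_of_nonneg (fun k _ => Finset.sum_nonneg fun z _ => hnn _)]
          apply Finset.sum_congr rfl; intro k _
          rw [ENNReal.ofReal_sum_of_nonneg (fun z _ => hnn _)]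
          apply Finset.sum_congr rfl; intro z _
          by_cases h : x ∈ tube N (θ i) (c i) ∩ slabAt A N b k (cell N (θ i)) z
          · rw [Set.indicator_of_mem h, Set.indicator_of_mem h, ENNReal.ofReal_one]
          · rw [Set.indicator_of_notMem h, Set.indicator_of_notMem h, ENNReal.ofReal_zero]
        simp_rw [e1]
        rw [lintegral_const_mul']
        · congr 1
          rw [lintegral_finsetSum]
          · apply Finset.sum_congr rfl; intro i _
            rw [lintegral_finsetSum]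
            · apply Finset.sum_congr rfl; intro k _
              rw [lintegral_finsetSum]
              · apply Finset.sum_congr rfl; intro z _
                rw [lintegral_indicator_const (hmeas i k z), one_mul]
              · intro z _
                exact measurable_const.indicator (hmeas i k z)
            · intro k _
              exact Finset.measurable_sum _ fun z _ => measurable_const.indicator (hmeas i k z)
          · intro i _
            exact Finset.measurable_sum _ fun k _ => Finset.measurable_sum _ fun z _ =>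
              measurable_const.indicator (hmeas i k z)
        · exact ENNReal.ofReal_ne_top
    _ ≤ ENNReal.ofReal (KK / d) * ∑ i : ι, ∑ k : Fin d, ∑ z ∈ Z,
        ENNReal.ofReal (C1 * N ^ (d + 2) * (max 1 |((z - cell N (θ i) k : ℤ) : ℝ)|)⁻¹) := by
        gcongr with i _ k _ z hz
        exact volume_tube_slab hN hA (θ i) (c i) k z (abs_le_two_mul hN hz) _
    _ ≤ ENNReal.ofReal (KK / d) * ∑ i : ι, ∑ k : Fin d,
        ENNReal.ofReal (C1 * N ^ (d + 2) * (8 * (1 + Real.log N))) := by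
        gcongr with i _ k _
        rw [← ENNReal.ofReal_sum_of_nonneg (fun z _ => by positivity), ← Finset.mul_sum]
        apply ENNReal.ofReal_le_ofReal
        apply mul_le_mul_of_nonneg_left _ (by positivity)
        exact sum_inv_le hN (cell_bounds hN (θ i) k)
    _ = _ := by
        have hlogN : 0 ≤ Real.log N := Real.log_nonneg hN
        simp only [Finset.sum_const, Finset.card_univ, Fintype.card_fin, nsmul_eq_mul]
        rw [← ENNReal.ofReal_natCast, ← ENNReal.ofReal_natCast,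
          ← ENNReal.ofReal_mul (by positivity), ← ENNReal.ofReal_mul (by positivity),
          ← ENNReal.ofReal_mul (by positivity)]
        congr 1
        field_simp

end Pool.Agent.MPac5134
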