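import Pool.Agent.Lib.MP_ac5134_an.Shear
import Pool.Agent.Lib.MP_ac5134_an.Critical

/-!
Product Besicovitch sets.
-/

namespace Pool.Agent.MPac5134

open MeasureTheory
open scoped ENNReal InnerProductSpace

variable {d : ℕ}

/-- dyadic truncation of `v` to `i` binary places -/
noncomputable def dy (i : ℕ) (v : ℝ) : ℝ := (⌊2 ^ i * v⌋ : ℝ) / 2 ^ i

theorem dy_le (i : ℕ) (v : ℝ) : dy i v ≤ v := by
  unfold dy
  rw [div_le_iff₀ (by positivity), mul_comm]
  exact Int.floor_le _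

theorem sub_dy_le (i : ℕ) (v : ℝ) : v - dy i v ≤ (1 / 2) ^ i := by
  unfold dy
  have h := Int.lt_floor_add_one (2 ^ i * v)
  have hp : (0:ℝ) < 2 ^ i := by positivity
  have : v < ((⌊2 ^ i * v⌋ : ℝ) + 1) / 2 ^ i := by
    rw [lt_div_iff₀ hp]; linarith
  rw [add_div] at this
  have e : (1 / 2 : ℝ) ^ i = 1 / 2 ^ i := by rw [div_pow, one_pow]
  rw [e]
  linarith

theorem dy_dy {i j : ℕ} (hij : i ≤ j) (v : ℝ) : dy i (dy j v) = dy i v := by
  unfold dy
  congr 2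
  have e1 : (2:ℝ) ^ i * v = (2 ^ j * v) / ((2 ^ (j - i) : ℕ) : ℝ) := by
    push_cast
    rw [eq_div_iff (by positivity)]
    have : (2:ℝ) ^ j = 2 ^ i * 2 ^ (j - i) := by rw [← pow_add]; congr 1; omega
    rw [this]; ring
  have e2 : (2:ℝ) ^ i * ((⌊2 ^ j * v⌋ : ℝ) / 2 ^ j) =
      ((⌊2 ^ j * v⌋ : ℤ) : ℝ) / ((2 ^ (j - i) : ℕ) : ℝ) := by
    push_cast
    rw [eq_div_iff (by positivity)]
    have : (2:ℝ) ^ j = 2 ^ i * 2 ^ (j - i) := by rw [← pow_add]; congr 1; omega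
    rw [this]; field_simp
  rw [e1, e2, Int.floor_div_natCast, Int.floor_div_natCast, Int.floor_intCast]

/-- The base point function: `T v - Δ ∑_{i<m} dy_i(v)`. -/
noncomputable def bes (T Δ : ℝ) (m : ℕ) (v : ℝ) : ℝ := T * v - Δ * ∑ i ∈ Finset.range m, dy i v

/-- centre of the covering interval at time `t` in the `j`-th time interval -/
noncomputable def cen (T Δ : ℝ) (m j : ℕ) (P : ℝ) (t : ℝ) : ℝ :=
  (T - t - (m - 1 - j) * Δ) * P - Δ * ∑ i ∈ Finset.range (j + 1), dy i P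

theorem bes_approx {T Δ : ℝ} (hΔ : 0 ≤ Δ) {m j : ℕ} (hj : j < m) {t : ℝ}
    (ht1 : 0 ≤ T - t - (m - 1 - j) * Δ) (ht2 : T - t - (m - 1 - j) * Δ ≤ Δ) (v : ℝ) :
    |bes T Δ m v - t * v - cen T Δ m j (dy j v) t| ≤ 2 * Δ * (1 / 2) ^ j := by
  unfold bes cen
  set ρ : ℝ := T - t - (m - 1 - j) * Δ with hρ
  have h1 : ∑ i ∈ Finset.range (j + 1), dy i (dy j v) = ∑ i ∈ Finset.range (j + 1), dy i v := by
    apply Finset.sum_congr rfl
    intro i hi
    exact dy_dy (by have := Finset.mem_range.1 hi; omega) v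
  rw [h1]
  have h2 : ∑ i ∈ Finset.range m, dy i v = ∑ i ∈ Finset.range (j + 1), dy i v +
      ∑ i ∈ Finset.Ico (j + 1) m, dy i v := by
    rw [← Finset.sum_range_add_sum_Ico _ (by omega : j + 1 ≤ m)]
  have h3 : ∑ i ∈ Finset.Ico (j + 1) m, (v - dy i v) =
      (m - 1 - j) * v - ∑ i ∈ Finset.Ico (j + 1) m, dy i v := by
    rw [Finset.sum_sub_distrib, Finset.sum_const, Nat.card_Ico, nsmul_eq_mul]
    have : ((m - (j + 1) : ℕ) : ℝ) = m - 1 - j := by
      rw [Nat.cast_sub (by omega)]; push_cast; ring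
    rw [this]
  have key : T * v - Δ * ∑ i ∈ Finset.range m, dy i v - t * v -
      (ρ * dy j v - Δ * ∑ i ∈ Finset.range (j + 1), dy i v) =
      ρ * (v - dy j v) + Δ * ∑ i ∈ Finset.Ico (j + 1) m, (v - dy i v) := by
    rw [h3, h2, hρ]; ring
  rw [key]
  have hs : ∑ i ∈ Finset.Ico (j + 1) m, (v - dy i v) ≤ (1 / 2) ^ j := by
    calc _ ≤ ∑ i ∈ Finset.Ico (j + 1) m, (1 / 2 : ℝ) ^ i :=
          Finset.sum_le_sum fun i _ => sub_dy_le i v
      _ ≤ (1 / 2) ^ j := by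
          have hgeom : ∀ n : ℕ, ∑ i ∈ Finset.Ico (j + 1) (j + 1 + n), (1 / 2 : ℝ) ^ i =
              (1 / 2) ^ j - (1 / 2) ^ (j + n) := by
            intro n
            induction n with
            | zero => simp
            | succ n ih =>
              rw [← add_assoc (j + 1) n 1, Finset.sum_Ico_succ_top (by omega), ih]
              ring
          obtain ⟨n, rfl⟩ : ∃ n, m = j + 1 + n := ⟨m - (j + 1), by omega⟩
          rw [hgeom n]
          have : (0:ℝ) ≤ (1 / 2) ^ (j + n) := by positivity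
          linarith
  have hs0 : 0 ≤ ∑ i ∈ Finset.Ico (j + 1) m, (v - dy i v) :=
    Finset.sum_nonneg fun i _ => by have := dy_le i v; linarith
  have hv0 : 0 ≤ v - dy j v := by have := dy_le j v; linarith
  have hv1 := sub_dy_le j v
  rw [abs_of_nonneg (by positivity)]
  have h5 : ρ * (v - dy j v) ≤ Δ * (1 / 2) ^ j := mul_le_mul ht2 hv1 hv0 hΔ
  have h6 : Δ * ∑ i ∈ Finset.Ico (j + 1) m, (v - dy i v) ≤ Δ * (1 / 2) ^ j :=
    mul_le_mul_of_nonneg_left hs hΔ
  linarith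

/-- every time in `[-T, T]` lies in one of the `m` intervals -/
theorem exists_interval {T : ℝ} (hT : 0 < T) {m : ℕ} (hm : 0 < m) {t : ℝ} (ht : |t| ≤ T) :
    ∃ j : ℕ, j < m ∧ 0 ≤ T - t - (m - 1 - j) * (2 * T / m) ∧
      T - t - (m - 1 - j) * (2 * T / m) ≤ 2 * T / m := by
  have hm' : (0:ℝ) < m := by exact_mod_cast hm
  set Δ : ℝ := 2 * T / m with hΔ
  have hΔ0 : 0 < Δ := by positivity
  rw [abs_le] at ht
  have hmΔ : m * Δ = 2 * T := by rw [hΔ]; field_simp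
  by_cases h : T ≤ t
  · have ht' : t = T := le_antisymm ht.2 h
    refine ⟨m - 1, by omega, ?_, ?_⟩
    · rw [ht', Nat.cast_sub (by omega)]; push_cast; ring_nf; exact le_rfl
    · rw [ht', Nat.cast_sub (by omega)]; push_cast; ring_nf; exact hΔ0.le
  · rw [not_le] at h
    set u : ℝ := (t + T) / Δ with hu
    have hu0 : 0 ≤ u := div_nonneg (by linarith) hΔ0.le
    have hum : u < m := by
      rw [hu, div_lt_iff₀ hΔ0, hmΔ]; linarith
    refine ⟨⌊u⌋₊, (Nat.floor_lt hu0).2 hum, ?_, ?_⟩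
    · have h1 := Nat.lt_floor_add_one u
      have h2 : t + T ≤ (⌊u⌋₊ + 1) * Δ := by
        rw [hu, div_lt_iff₀ hΔ0] at h1
        exact h1.le
      have : T - t - (m - 1 - ⌊u⌋₊) * Δ = (⌊u⌋₊ + 1) * Δ - (t + T) + (2 * T - m * Δ) := by ring
      rw [this, hmΔ]; linarith
    · have h1 := Nat.floor_le hu0
      have h2 : ⌊u⌋₊ * Δ ≤ t + T := by
        rw [hu, le_div_iff₀ hΔ0] at h1
        exact h1
      have : T - t - (m - 1 - ⌊u⌋₊) * Δ = Δ - (t + T - ⌊u⌋₊ * Δ) + (2 * T - m * Δ) := by ring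
      rw [this, hmΔ]; linarith

theorem continuous_cen (T Δ : ℝ) (m j : ℕ) (P : ℝ) : Continuous (cen T Δ m j P) := by
  unfold cen; fun_prop

variable {ι : Type*} [Fintype ι]

/-- parameter of the cell -/
noncomputable def par (N : ℝ) (z : ℤ) : ℝ := ((z : ℝ) / N + 1) / 2

/-- the translates of the product Besicovitch configuration -/
noncomputable def besCentre (N : ℝ) (m : ℕ) (θ : Cap d) : Sp d :=
  WithLp.toLp 2 (Fin.snoc (fun k => 4 * bes ((d + 1) * N ^ 2) (2 * ((d + 1) * N ^ 2) / m) m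
    (par N (cell N θ k))) 0 : Fin (d + 1) → ℝ)

theorem besCentre_last (N : ℝ) (m : ℕ) (θ : Cap d) : (besCentre N m θ) (Fin.last d) = 0 := by
  simp [besCentre]

theorem besCentre_castSucc (N : ℝ) (m : ℕ) (θ : Cap d) (k : Fin d) :
    (besCentre N m θ) k.castSucc = 4 * bes ((d + 1) * N ^ 2) (2 * ((d + 1) * N ^ 2) / m) m
    (par N (cell N θ k)) := by
  simp [besCentre]

/-- the equation of a tube in terms of its cell -/
theorem besTube_eq {N : ℝ} (hN : 1 ≤ N) (m : ℕ) (θ : Cap d) {x : Sp d}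
    (hx : x ∈ tube N θ (besCentre N m θ)) :
    |x (Fin.last d)| ≤ (d + 1) * N ^ 2 ∧ ∀ k : Fin d,
      |x k.castSucc + 2 * ((cell N θ k : ℝ) / N) * x (Fin.last d) -
        4 * bes ((d + 1) * N ^ 2) (2 * ((d + 1) * N ^ 2) / m) m (par N (cell N θ k))| ≤
        4 * (d + 1) * N := by
  have hN0 : 0 < N := by linarith
  have hd0 : (0:ℝ) ≤ d := Nat.cast_nonneg d
  have hlast := tube_last hN θ _ hx
  have e1 : (x - besCentre N m θ) (Fin.last d) = x (Fin.last d) := by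
    rw [PiLp.sub_apply, besCentre_last, sub_zero]
  rw [e1] at hlast
  refine ⟨hlast, fun k => ?_⟩
  have h1 := tube_functional hN0.le θ _ hx k
  rw [e1, PiLp.sub_apply, besCentre_castSucc] at h1
  have hfl1 := Int.floor_le (N * θ.foot k)
  have hfl2 := Int.lt_floor_add_one (N * θ.foot k)
  have hcell : cell N θ k = ⌊N * θ.foot k⌋ := rfl
  rw [← hcell] at hfl1 hfl2
  have hdiff : |θ.foot k - (cell N θ k : ℝ) / N| ≤ 1 / N := by
    have : θ.foot k - (cell N θ k : ℝ) / N = (N * θ.foot k - cell N θ k) / N := by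
      field_simp
    rw [this, abs_div, abs_of_pos hN0]
    gcongr
    rw [abs_le]; constructor <;> linarith
  have h2 : |2 * (θ.foot k - (cell N θ k : ℝ) / N) * x (Fin.last d)| ≤ 2 * (d + 1) * N := by
    rw [abs_mul, abs_mul, abs_of_pos (by norm_num : (0:ℝ) < 2)]
    calc 2 * |θ.foot k - (cell N θ k : ℝ) / N| * |x (Fin.last d)|
        ≤ 2 * (1 / N) * ((d + 1) * N ^ 2) := by gcongr
      _ = 2 * (d + 1) * N := by field_simp
  set b := 4 * bes ((d + 1) * N ^ 2) (2 * ((d + 1) * N ^ 2) / m) m (par N (cell N θ k))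
  have e3 : x k.castSucc + 2 * ((cell N θ k : ℝ) / N) * x (Fin.last d) - b =
      (x k.castSucc - b + 2 * θ.foot k * x (Fin.last d)) -
        2 * (θ.foot k - (cell N θ k : ℝ) / N) * x (Fin.last d) := by ring
  rw [e3]
  refine (abs_sub _ _).trans ?_
  nlinarith

omit [Fintype ι] in
/-- the configuration is plane-sorted -/
theorem besCentre_planeSorted {N : ℝ} (hN : 1 ≤ N) (m : ℕ) (θ : ι → Cap d) :
    PlaneSorted (4 * (d + 1)) N θ (fun i => besCentre N m (θ i)) := by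
  refine ⟨fun k z => 4 * bes ((d + 1) * N ^ 2) (2 * ((d + 1) * N ^ 2) / m) m (par N (z k)),
    ?_, ?_⟩
  · intro k z z' h
    simp only
    rw [h k le_rfl]
  · intro i k x hx
    have := (besTube_eq hN m (θ i) hx).2 k
    simpa using this

omit [Fintype ι] in
/-- the union of all tubes is covered by sheared boxes -/
theorem bes_cover {N : ℝ} (hN : 1 ≤ N) {m : ℕ} (hm : 0 < m) (hmN : (m:ℝ) * 2 ^ m ≤ 2 * N)
    (θ : ι → Cap d) :
    (⋃ i, tube N (θ i) (besCentre N m (θ i))) ⊆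
      ⋃ j ∈ Finset.range m, ⋃ P ∈ Fintype.piFinset
        (fun _ : Fin d => Finset.Icc (-1 : ℤ) (2 ^ j)),
      shearBox (fun t k => 4 * cen ((d + 1) * N ^ 2) (2 * ((d + 1) * N ^ 2) / m) m j
          ((P k : ℝ) / 2 ^ j) t + 2 * t)
        (-((d + 1) * N ^ 2) + j * (2 * ((d + 1) * N ^ 2) / m))
        (-((d + 1) * N ^ 2) + (j + 1) * (2 * ((d + 1) * N ^ 2) / m))
        (10 * (2 * ((d + 1) * N ^ 2) / m) * (1 / 2) ^ j) := by
  have hN0 : 0 < N := by linarith
  have hd0 : (0:ℝ) ≤ d := Nat.cast_nonneg d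
  have hm' : (0:ℝ) < m := by exact_mod_cast hm
  set T : ℝ := (d + 1) * N ^ 2 with hT
  have hT0 : 0 < T := by positivity
  set Δ : ℝ := 2 * T / m with hΔ
  have hΔ0 : 0 < Δ := by positivity
  have hmΔ : m * Δ = 2 * T := by rw [hΔ]; field_simp
  intro x hx
  obtain ⟨i, hi⟩ := Set.mem_iUnion.1 hx
  obtain ⟨hlast, hco⟩ := besTube_eq hN m (θ i) hi
  rw [← hT] at hlast
  obtain ⟨j, hj, hj1, hj2⟩ := exists_interval hT0 hm hlast
  rw [← hΔ] at hj1 hj2
  simp only [Set.mem_iUnion]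
  refine ⟨j, Finset.mem_range.2 hj, fun k => ⌊2 ^ j * par N (cell N (θ i) k)⌋, ?_, ?_, ?_⟩
  · rw [Fintype.mem_piFinset]
    intro k
    rw [Finset.mem_Icc]
    have hfoot : |(θ i).foot k| ≤ 1 := by
      have h1 : (θ i).foot k ^ 2 ≤ 1 :=
        (Finset.single_le_sum (f := fun l => (θ i).foot l ^ 2) (fun l _ => sq_nonneg _)
          (Finset.mem_univ k)).trans (θ i).foot_mem
      rw [← sq_le_one_iff_abs_le_one]; exact h1
    rw [abs_le] at hfoot
    have hfl1 := Int.floor_le (N * (θ i).foot k)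
    have hfl2 := Int.lt_floor_add_one (N * (θ i).foot k)
    have hcell : cell N (θ i) k = ⌊N * (θ i).foot k⌋ := rfl
    rw [← hcell] at hfl1 hfl2
    have hv1 : par N (cell N (θ i) k) ≤ 1 := by
      unfold par
      have : (cell N (θ i) k : ℝ) / N ≤ 1 := by
        rw [div_le_one hN0]; nlinarith [hfoot.2]
      linarith
    have hv0 : -(1 / (2 * N)) ≤ par N (cell N (θ i) k) := by
      unfold par
      have : -1 - 1 / N ≤ (cell N (θ i) k : ℝ) / N := by
        rw [le_div_iff₀ hN0]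
        have : (-1 - 1 / N) * N = -N - 1 := by field_simp
        rw [this]
        nlinarith [hfoot.1]
      have e : 1 / (2 * N) = (1 / N) / 2 := by field_simp
      rw [e]; linarith
    have h2j : (2:ℝ) ^ j ≤ 2 * N := by
      calc (2:ℝ) ^ j ≤ 2 ^ m := pow_le_pow_right₀ (by norm_num) hj.le
        _ ≤ m * 2 ^ m := by
            have : (1:ℝ) ≤ m := by exact_mod_cast hm
            have h2m : (0:ℝ) < 2 ^ m := by positivity
            nlinarith
        _ ≤ 2 * N := hmN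
    constructor
    · rw [Int.le_floor]
      push_cast
      have h3 : -(1:ℝ) ≤ 2 ^ j * (-(1 / (2 * N))) := by
        have : 2 ^ j * (1 / (2 * N)) ≤ 1 := by
          rw [mul_one_div, div_le_one (by positivity)]; exact h2j
        linarith
      have h4 : (2:ℝ) ^ j * (-(1 / (2 * N))) ≤ 2 ^ j * par N (cell N (θ i) k) := by gcongr
      linarith
    · have h5 : ⌊2 ^ j * par N (cell N (θ i) k)⌋ ≤ ⌊(2:ℝ) ^ j⌋ := by
        apply Int.floor_le_floor
        have : (0:ℝ) < 2 ^ j := by positivity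
        nlinarith
      have h6 : ⌊(2:ℝ) ^ j⌋ = 2 ^ j := by
        have : ((2:ℝ) ^ j) = (((2:ℤ) ^ j : ℤ) : ℝ) := by push_cast; rfl
        rw [this, Int.floor_intCast]
      rw [h6] at h5
      exact h5
  · rw [Set.mem_Icc]
    constructor
    · linarith
    · linarith
  · intro k
    set v : ℝ := par N (cell N (θ i) k) with hv
    have happ := bes_approx hΔ0.le hj hj1 hj2 v
    have hck := hco k
    rw [← hT, ← hΔ, ← hv] at hck
    have hzv : (cell N (θ i) k : ℝ) / N = 2 * v - 1 := by rw [hv]; unfold par; ring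
    rw [hzv] at hck
    have hdy : ((⌊2 ^ j * v⌋ : ℤ) : ℝ) / 2 ^ j = dy j v := rfl
    simp only
    rw [hdy]
    set t := x (Fin.last d) with ht
    have e4 : x k.castSucc - (4 * cen T Δ m j (dy j v) t + 2 * t) =
        (x k.castSucc + 2 * (2 * v - 1) * t - 4 * bes T Δ m v) +
          4 * (bes T Δ m v - t * v - cen T Δ m j (dy j v) t) := by ring
    rw [e4]
    refine (abs_add_le _ _).trans ?_
    rw [abs_mul, abs_of_pos (by norm_num : (0:ℝ) < 4)]
    -- compare 4 (d+1) N with Δ 2^{-j}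
    have hsmall : 4 * ((d:ℝ) + 1) * N ≤ 2 * Δ * (1 / 2) ^ j := by
      have h7 : (1 / 2 : ℝ) ^ (m - 1) ≤ (1 / 2) ^ j :=
        pow_le_pow_of_le_one (by norm_num) (by norm_num) (by omega)
      have h8 : (1 / 2 : ℝ) ^ (m - 1) = 2 / 2 ^ m := by
        obtain ⟨m', rfl⟩ : ∃ m', m = m' + 1 := ⟨m - 1, by omega⟩
        rw [Nat.add_sub_cancel, div_pow, one_pow, pow_succ]
        field_simp
      have h9 : 4 * ((d:ℝ) + 1) * N ≤ 2 * Δ * (2 / 2 ^ m) := by
        rw [hΔ, hT]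
        rw [show 2 * (2 * (((d:ℝ) + 1) * N ^ 2) / m) * (2 / 2 ^ m) =
          (8 * (((d:ℝ) + 1) * N ^ 2)) / (m * 2 ^ m) by field_simp; norm_num]
        rw [le_div_iff₀ (by positivity)]
        calc 4 * ((d:ℝ) + 1) * N * (m * 2 ^ m) ≤ 4 * ((d:ℝ) + 1) * N * (2 * N) := by gcongr
          _ = 8 * (((d:ℝ) + 1) * N ^ 2) := by ring
      calc 4 * ((d:ℝ) + 1) * N ≤ 2 * Δ * (2 / 2 ^ m) := h9
        _ = 2 * Δ * (1 / 2) ^ (m - 1) := by rw [h8]
        _ ≤ 2 * Δ * (1 / 2) ^ j := by gcongr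
    linarith

/-- volume bound for the union -/
theorem bes_volume {N : ℝ} (hN : 1 ≤ N) {m : ℕ} (hm : 0 < m) (hmN : (m:ℝ) * 2 ^ m ≤ 2 * N)
    (θ : ι → Cap d) :
    volume (⋃ i, tube N (θ i) (besCentre N m (θ i))) ≤
      ENNReal.ofReal (2 * ((d + 1) * N ^ 2) * (60 * (2 * ((d + 1) * N ^ 2) / m)) ^ d) := by
  have hN0 : 0 < N := by linarith
  have hd0 : (0:ℝ) ≤ d := Nat.cast_nonneg d
  have hm' : (0:ℝ) < m := by exact_mod_cast hm
  set T : ℝ := (d + 1) * N ^ 2 with hT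
  have hT0 : 0 < T := by positivity
  set Δ : ℝ := 2 * T / m with hΔ
  have hΔ0 : 0 < Δ := by positivity
  have hmΔ : m * Δ = 2 * T := by rw [hΔ]; field_simp
  refine (measure_mono (bes_cover hN hm hmN θ)).trans ?_
  refine (measure_biUnion_finset_le _ _).trans ?_
  have hj : ∀ j ∈ Finset.range m, volume (⋃ P ∈ Fintype.piFinset
        (fun _ : Fin d => Finset.Icc (-1 : ℤ) (2 ^ j)),
      shearBox (fun t k => 4 * cen T Δ m j ((P k : ℝ) / 2 ^ j) t + 2 * t)
        (-T + j * Δ) (-T + (j + 1) * Δ) (10 * Δ * (1 / 2) ^ j)) ≤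
      ENNReal.ofReal (Δ * (60 * Δ) ^ d) := by
    intro j _
    refine (measure_biUnion_finset_le _ _).trans ?_
    have hP : ∀ P ∈ Fintype.piFinset (fun _ : Fin d => Finset.Icc (-1 : ℤ) (2 ^ j)),
        volume (shearBox (fun t k => 4 * cen T Δ m j ((P k : ℝ) / 2 ^ j) t + 2 * t)
        (-T + j * Δ) (-T + (j + 1) * Δ) (10 * Δ * (1 / 2) ^ j)) ≤
        ENNReal.ofReal (Δ * (20 * Δ * (1 / 2) ^ j) ^ d) := by
      intro P _
      have hc : Continuous (fun (t : ℝ) (k : Fin d) =>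
          4 * cen T Δ m j ((P k : ℝ) / 2 ^ j) t + 2 * t) := by
        apply continuous_pi
        intro k
        have := continuous_cen T Δ m j ((P k : ℝ) / 2 ^ j)
        fun_prop
      refine (volume_shearBox_le _ hc).trans ?_
      rw [← ENNReal.ofReal_pow (by positivity)]
      have e1 : -T + (j + 1) * Δ - (-T + j * Δ) = Δ := by ring
      have e2 : 2 * (10 * Δ * (1 / 2) ^ j) = 20 * Δ * (1 / 2) ^ j := by ring
      rw [e1, e2, ← ENNReal.ofReal_mul hΔ0.le]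
    refine (Finset.sum_le_sum hP).trans ?_
    rw [Finset.sum_const, nsmul_eq_mul, Fintype.card_piFinset, Finset.prod_const,
      Finset.card_univ, Fintype.card_fin, Int.card_Icc, ← ENNReal.ofReal_natCast,
      ← ENNReal.ofReal_mul (by positivity)]
    apply ENNReal.ofReal_le_ofReal
    have h1 : (((2 ^ j + 1 - -1 : ℤ).toNat : ℕ) : ℝ) ≤ 3 * 2 ^ j := by
      have h2 : ((2 ^ j + 1 - -1 : ℤ).toNat : ℤ) = 2 ^ j + 2 := by
        have : (0:ℤ) ≤ 2 ^ j := by positivity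
        omega
      have h3 : (((2 ^ j + 1 - -1 : ℤ).toNat : ℤ) : ℝ) = 2 ^ j + 2 := by
        rw [h2]; push_cast; rfl
      rw [← Int.cast_natCast, h3]
      have : (1:ℝ) ≤ 2 ^ j := one_le_pow₀ (by norm_num)
      linarith
    push_cast
    calc (((2 ^ j + 1 - -1 : ℤ).toNat : ℕ) : ℝ) ^ d * (Δ * (20 * Δ * (1 / 2) ^ j) ^ d)
        ≤ (3 * 2 ^ j) ^ d * (Δ * (20 * Δ * (1 / 2) ^ j) ^ d) := by gcongr
      _ = Δ * ((3 * 2 ^ j) * (20 * Δ * (1 / 2) ^ j)) ^ d := by rw [mul_pow (3 * 2 ^ j)]; ring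
      _ = Δ * (60 * Δ) ^ d := by
          congr 2
          have : (2:ℝ) ^ j * (1 / 2) ^ j = 1 := by rw [← mul_pow]; norm_num
          calc (3 * 2 ^ j) * (20 * Δ * (1 / 2) ^ j) = 60 * Δ * (2 ^ j * (1 / 2) ^ j) := by ring
            _ = 60 * Δ := by rw [this, mul_one]
  refine (Finset.sum_le_sum hj).trans ?_
  rw [Finset.sum_const, Finset.card_range, nsmul_eq_mul, ← ENNReal.ofReal_natCast,
    ← ENNReal.ofReal_mul (by positivity)]
  apply ENNReal.ofReal_le_ofReal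
  apply le_of_eq
  rw [← mul_assoc, hmΔ]

/-- choice of the number of binary places -/
theorem exists_places {N : ℝ} (hN : 2 ≤ N) :
    ∃ m : ℕ, 0 < m ∧ (m:ℝ) * 2 ^ m ≤ 2 * N ∧ 1 + Real.log N ≤ 3 * m := by
  have hN0 : 0 < N := by linarith
  set M : ℕ := ⌊N⌋₊ with hM
  have hM2 : 2 ≤ M := Nat.le_floor (by exact_mod_cast hN)
  have hMle : (M:ℝ) ≤ N := Nat.floor_le hN0.le
  set l : ℕ := Nat.log 2 M with hl
  have hl1 : 1 ≤ l := by
    rw [hl]; exact Nat.log_pos (by norm_num) hM2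
  have h2l : 2 ^ l ≤ M := Nat.pow_log_le_self 2 (by omega)
  have hMlt : M < 2 ^ (l + 1) := Nat.lt_pow_succ_log_self (by norm_num) M
  refine ⟨l / 2 + 1, by omega, ?_, ?_⟩
  · have h1 : l / 2 + 1 ≤ 2 ^ (l / 2) := Nat.lt_two_pow_self
    have h2 : (l / 2 + 1) * 2 ^ (l / 2 + 1) ≤ 2 * M := by
      calc (l / 2 + 1) * 2 ^ (l / 2 + 1) ≤ 2 ^ (l / 2) * 2 ^ (l / 2 + 1) :=
            Nat.mul_le_mul_right _ h1
        _ = 2 * 2 ^ (l / 2 + l / 2) := by ring
        _ ≤ 2 * 2 ^ l := by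
            apply Nat.mul_le_mul_left
            exact Nat.pow_le_pow_right (by norm_num) (by omega)
        _ ≤ 2 * M := Nat.mul_le_mul_left _ h2l
    have h3 : (((l / 2 + 1) * 2 ^ (l / 2 + 1) : ℕ) : ℝ) ≤ ((2 * M : ℕ) : ℝ) := by
      exact_mod_cast h2
    push_cast at h3 ⊢
    linarith
  · have h4 : N < (2:ℝ) ^ (l + 1) := by
      have h5 : N < M + 1 := Nat.lt_floor_add_one N
      have h6 : ((M + 1 : ℕ) : ℝ) ≤ ((2 ^ (l + 1) : ℕ) : ℝ) := by exact_mod_cast hMlt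
      push_cast at h6
      linarith
    have h7 : Real.log N ≤ (l + 1) * Real.log 2 := by
      have := Real.log_le_log hN0 h4.le
      rw [Real.log_pow] at this
      push_cast at this
      exact this
    have h8 : Real.log 2 ≤ 1 := by have := Real.log_two_lt_d9; linarith
    have h9 : ((l + 1 : ℕ) : ℝ) ≤ ((2 * (l / 2 + 1) : ℕ) : ℝ) := by
      exact_mod_cast (by omega : l + 1 ≤ 2 * (l / 2 + 1))
    have h10 : (1:ℝ) ≤ ((l / 2 + 1 : ℕ) : ℝ) := by exact_mod_cast (by omega : 1 ≤ l / 2 + 1)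
    have h11 : (0:ℝ) ≤ l + 1 := by positivity
    have h12 : (l + 1 : ℝ) * Real.log 2 ≤ (l + 1) * 1 := by gcongr
    push_cast at h9 h10 ⊢
    linarith

end Pool.Agent.MPac5134
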