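import Mathlib

/-!
A bound for the number of nondegenerate real solutions of a polynomial system (a weak form of
Bezout's theorem, with the bound `(d D)^d`).
-/

namespace Pool.Agent.MPac5134

open MvPolynomial Filter Topology

variable {d : ℕ}

/-- Lagrange interpolation -/
theorem exists_lagrange (S : Finset (Fin d → ℝ)) :
    ∃ l : (Fin d → ℝ) → MvPolynomial (Fin d) ℝ,
      ∀ a ∈ S, ∀ b ∈ S, eval b (l a) = if a = b then 1 else 0 := by
  classical
  have h1 : ∀ a b : Fin d → ℝ, ∃ p : MvPolynomial (Fin d) ℝ,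
      a ≠ b → eval a p = 1 ∧ eval b p = 0 := by
    intro a b
    by_cases hab : a = b
    · exact ⟨0, fun h => absurd hab h⟩
    · obtain ⟨k, hk⟩ := Function.ne_iff.1 hab
      refine ⟨C (a k - b k)⁻¹ * (X k - C (b k)), fun _ => ⟨?_, ?_⟩⟩
      · have : a k - b k ≠ 0 := sub_ne_zero.2 hk
        simp only [map_mul, map_sub, eval_C, eval_X]
        field_simp
      · simp
  choose p hp using h1
  refine ⟨fun a => ∏ b ∈ S.erase a, p a b, ?_⟩
  intro a _ b hb
  rw [map_prod]
  by_cases hab : a = b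
  · rw [if_pos hab]
    apply Finset.prod_eq_one
    intro c hc
    rw [← hab]
    exact (hp a c (Finset.ne_of_mem_erase hc).symm).1
  · rw [if_neg hab]
    apply Finset.prod_eq_zero (i := b)
    · exact Finset.mem_erase.2 ⟨fun h => hab h.symm, hb⟩
    · exact (hp a b hab).2

/-- the power product `P^α` -/
noncomputable def powProd (P : Fin d → MvPolynomial (Fin d) ℝ) {M : ℕ} (α : Fin d → Fin M) :
    MvPolynomial (Fin d) ℝ := ∏ k, P k ^ (α k : ℕ)

theorem totalDegree_powProd_le {D : ℕ} (P : Fin d → MvPolynomial (Fin d) ℝ)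
    (hP : ∀ k, (P k).totalDegree ≤ D) {M : ℕ} (α : Fin d → Fin M) :
    (powProd P α).totalDegree ≤ d * (M * D) := by
  unfold powProd
  refine (totalDegree_finsetProd _ _).trans ?_
  calc ∑ k, (P k ^ (α k : ℕ)).totalDegree ≤ ∑ _k : Fin d, M * D := by
        apply Finset.sum_le_sum
        intro k _
        refine (totalDegree_pow _ _).trans ?_
        exact Nat.mul_le_mul (α k).2.le (hP k)
    _ = d * (M * D) := by simp

theorem exists_large (d D E s : ℕ) (hs : (d * D) ^ d < s) :
    ∃ M : ℕ, (d * (M * D) + E + 1) ^ d < M ^ d * s := by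
  have h1 : Tendsto (fun M : ℕ => ((d:ℝ) * D + ((E:ℝ) + 1) / M) ^ d) atTop
      (𝓝 (((d:ℝ) * D + 0) ^ d)) := by
    apply Tendsto.pow
    apply Tendsto.add tendsto_const_nhds
    exact tendsto_const_div_atTop_nhds_zero_nat _
  rw [add_zero] at h1
  have h2 : ((d:ℝ) * D) ^ d < s := by exact_mod_cast hs
  obtain ⟨M, hM1, hM2⟩ := ((h1.eventually (gt_mem_nhds h2)).and (eventually_gt_atTop 0)).exists
  refine ⟨M, ?_⟩
  have hM : (0:ℝ) < M := by exact_mod_cast hM2
  have h3 : ((d:ℝ) * (M * D) + E + 1) ^ d < (M:ℝ) ^ d * s := by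
    have e1 : (d:ℝ) * (M * D) + E + 1 = M * ((d:ℝ) * D + ((E:ℝ) + 1) / M) := by
      field_simp
      ring
    rw [e1, mul_pow]
    gcongr
  exact_mod_cast h3

theorem card_nondegenerate_le {D : ℕ} (P : Fin d → MvPolynomial (Fin d) ℝ)
    (hP : ∀ k, (P k).totalDegree ≤ D) (S : Finset (Fin d → ℝ))
    (hzero : ∀ x ∈ S, ∀ k, eval x (P k) = 0)
    (f' : (Fin d → ℝ) → (Fin d → ℝ) →L[ℝ] (Fin d → ℝ))
    (hder : ∀ x ∈ S, HasFDerivAt (fun x k => eval x (P k)) (f' x) x)
    (hdet : ∀ x ∈ S, (f' x).det ≠ 0) : S.card ≤ (d * D) ^ d := by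
  classical
  by_contra hcon
  rw [not_le] at hcon
  obtain ⟨l, hl⟩ := exists_lagrange S
  set E : ℕ := ∑ a ∈ S, (l a).totalDegree with hE
  obtain ⟨M, hM⟩ := exists_large d D E S.card hcon
  set T : ℕ := d * (M * D) + E with hT
  -- the polynomial attached to a vector of coefficients
  let Q : ((Fin d → Fin M) × S → ℝ) →ₗ[ℝ] MvPolynomial (Fin d) ℝ :=
    { toFun := fun c => ∑ q, c q • (powProd P q.1 * l q.2)
      map_add' := by
        intro c c'
        simp only [Pi.add_apply, add_smul, Finset.sum_add_distrib]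
      map_smul' := by
        intro r c
        simp only [Pi.smul_apply, smul_eq_mul, mul_smul, Finset.smul_sum, RingHom.id_apply] }
  let co : MvPolynomial (Fin d) ℝ →ₗ[ℝ] ((Fin d → Fin (T + 1)) → ℝ) :=
    { toFun := fun p β => coeff (Finsupp.equivFunOnFinite.symm (fun k => (β k : ℕ))) p
      map_add' := by
        intro p p'
        ext β
        simp
      map_smul' := by
        intro r p
        ext β
        simp }
  have hker : LinearMap.ker (co ∘ₗ Q) ≠ ⊥ := by
    apply LinearMap.ker_ne_bot_of_finrank_lt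
    rw [Module.finrank_fintype_fun_eq_card, Module.finrank_fintype_fun_eq_card, Fintype.card_prod,
      Fintype.card_fun, Fintype.card_fun, Fintype.card_fin, Fintype.card_fin, Fintype.card_fin,
      Fintype.card_coe]
    exact hM
  obtain ⟨c, hc, hc0⟩ := Submodule.exists_mem_ne_zero_of_ne_bot hker
  have hco : co (Q c) = 0 := hc
  have hQdeg : (Q c).totalDegree ≤ T := by
    change (∑ q, c q • (powProd P q.1 * l q.2)).totalDegree ≤ T
    apply totalDegree_finsetSum_le
    intro q _
    refine (totalDegree_smul_le _ _).trans ?_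
    refine (totalDegree_mul _ _).trans ?_
    rw [hT]
    apply Nat.add_le_add (totalDegree_powProd_le P hP _)
    rw [hE]
    exact Finset.single_le_sum (f := fun a => (l a).totalDegree) (fun _ _ => Nat.zero_le _) q.2.2
  have hQ0 : Q c = 0 := by
    ext β
    rw [coeff_zero]
    by_cases hβ : ∀ k, β k < T + 1
    · have h1 := congrFun hco (fun k => ⟨β k, hβ k⟩)
      have h2 : co (Q c) (fun k => ⟨β k, hβ k⟩) = coeff β (Q c) := by
        change coeff (Finsupp.equivFunOnFinite.symm (fun k => β k)) (Q c) = _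
        congr 1
        ext k; rfl
      rw [← h2, h1]; rfl
    · apply coeff_eq_zero_of_totalDegree_lt
      refine lt_of_le_of_lt hQdeg ?_
      obtain ⟨k, hk⟩ := not_forall.1 hβ
      rw [not_lt] at hk
      by_cases hks : k ∈ β.support
      · calc T < β k := hk
          _ ≤ ∑ i ∈ β.support, β i :=
            Finset.single_le_sum (f := fun i => β i) (fun _ _ => Nat.zero_le _) hks
      · rw [Finsupp.notMem_support_iff.1 hks] at hk
        omega
  -- weights
  set wt : (Fin d → Fin M) → ℕ := fun α => ∑ k, (α k : ℕ) with hwt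
  have hex : ∃ m : ℕ, ∃ q, c q ≠ 0 ∧ wt q.1 = m := by
    obtain ⟨q, hq⟩ := Function.ne_iff.1 hc0
    exact ⟨wt q.1, q, hq, rfl⟩
  set m : ℕ := Nat.find hex with hm
  obtain ⟨q0, hq0, hwq0⟩ := Nat.find_spec hex
  have hmin : ∀ q, c q ≠ 0 → m ≤ wt q.1 := fun q hq => Nat.find_min' hex ⟨q, hq, rfl⟩
  obtain ⟨α0, a⟩ := q0
  -- evaluation of the lowest order part at `a`
  have key : ∀ v : Fin d → ℝ, ∑ α : Fin d → Fin M,
      (if wt α = m then c (α, a) * ∏ k, v k ^ (α k : ℕ) else 0) = 0 := by
    intro v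
    have hunit := hdet a a.2
    -- direction
    obtain ⟨w, hw⟩ : ∃ w, f' a w = v := by
      refine ⟨((f' a).toContinuousLinearEquivOfDetNeZero hunit).symm v, ?_⟩
      exact ((f' a).toContinuousLinearEquivOfDetNeZero hunit).apply_symm_apply v
    -- derivative along the line
    have hline : HasDerivAt (fun r : ℝ => (a:Fin d → ℝ) + r • w) w 0 := by
      have h1 : HasDerivAt (fun r : ℝ => r • w) ((1:ℝ) • w) 0 := (hasDerivAt_id (0:ℝ)).smul_const w
      rw [one_smul] at h1
      exact h1.const_add _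
    have hd1 : HasDerivAt (fun r : ℝ => (fun k => eval ((a:Fin d → ℝ) + r • w) (P k)))
        (f' a w) 0 := by
      have h2 : HasFDerivAt (fun x k => eval x (P k)) (f' a) ((a:Fin d → ℝ) + (0:ℝ) • w) := by
        rw [zero_smul, add_zero]; exact hder a a.2
      exact h2.comp_hasDerivAt (0:ℝ) hline
    have hlim : ∀ k, Tendsto (fun r : ℝ => r⁻¹ * eval ((a:Fin d → ℝ) + r • w) (P k))
        (𝓝[≠] 0) (𝓝 (v k)) := by
      intro k
      have h3 := (hasDerivAt_pi.1 hd1 k).tendsto_slope_zero
      rw [hw] at h3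
      refine h3.congr ?_
      intro r
      simp only [zero_add, smul_eq_mul, zero_smul, add_zero, hzero a a.2 k, sub_zero]
    have hcont : ∀ p : MvPolynomial (Fin d) ℝ,
        Tendsto (fun r : ℝ => eval ((a:Fin d → ℝ) + r • w) p) (𝓝[≠] 0) (𝓝 (eval (a:Fin d → ℝ) p)) := by
      intro p
      have h4 : Continuous fun r : ℝ => eval ((a:Fin d → ℝ) + r • w) p :=
        (MvPolynomial.continuous_eval p).comp (by fun_prop)
      have h5 := h4.tendsto 0
      rw [zero_smul, add_zero] at h5
      exact h5.mono_left nhdsWithin_le_nhds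
    -- the scaled identity
    have hid : ∀ r : ℝ, r ≠ 0 → ∑ q : (Fin d → Fin M) × S, c q * (r ^ (wt q.1 - m) *
        ((∏ k, (r⁻¹ * eval ((a:Fin d → ℝ) + r • w) (P k)) ^ (q.1 k : ℕ)) *
          eval ((a:Fin d → ℝ) + r • w) (l q.2))) = 0 := by
      intro r hr
      have h6 : eval ((a:Fin d → ℝ) + r • w) (Q c) = 0 := by rw [hQ0, map_zero]
      have h7 : eval ((a:Fin d → ℝ) + r • w) (Q c) = ∑ q : (Fin d → Fin M) × S, c q *
          ((∏ k, (eval ((a:Fin d → ℝ) + r • w) (P k)) ^ (q.1 k : ℕ)) *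
            eval ((a:Fin d → ℝ) + r • w) (l q.2)) := by
        change eval ((a:Fin d → ℝ) + r • w) (∑ q, c q • (powProd P q.1 * l q.2)) = _
        rw [map_sum]
        apply Finset.sum_congr rfl
        intro q _
        rw [smul_eval, map_mul, powProd, map_prod]
        simp only [map_pow]
      rw [h7] at h6
      have h8 : ∑ q : (Fin d → Fin M) × S, c q * (r ^ (wt q.1 - m) *
        ((∏ k, (r⁻¹ * eval ((a:Fin d → ℝ) + r • w) (P k)) ^ (q.1 k : ℕ)) *
          eval ((a:Fin d → ℝ) + r • w) (l q.2))) = (r ^ m)⁻¹ * ∑ q : (Fin d → Fin M) × S, c q *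
          ((∏ k, (eval ((a:Fin d → ℝ) + r • w) (P k)) ^ (q.1 k : ℕ)) *
            eval ((a:Fin d → ℝ) + r • w) (l q.2)) := by
        rw [Finset.mul_sum]
        apply Finset.sum_congr rfl
        intro q _
        by_cases hcq : c q = 0
        · rw [hcq]; ring
        · have h9 := hmin q hcq
          have h10 : ∏ k, (r⁻¹ * eval ((a:Fin d → ℝ) + r • w) (P k)) ^ (q.1 k : ℕ) =
              (r ^ wt q.1)⁻¹ * ∏ k, (eval ((a:Fin d → ℝ) + r • w) (P k)) ^ (q.1 k : ℕ) := by
            simp only [mul_pow]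
            rw [Finset.prod_mul_distrib, Finset.prod_pow_eq_pow_sum, inv_pow]
          have h11 : r ^ (wt q.1 - m) * (r ^ wt q.1)⁻¹ = (r ^ m)⁻¹ := by
            have h12 : r ^ wt q.1 = r ^ (wt q.1 - m) * r ^ m := by
              rw [← pow_add]; congr 1; omega
            rw [h12]
            have : r ^ (wt q.1 - m) ≠ 0 := pow_ne_zero _ hr
            have : r ^ m ≠ 0 := pow_ne_zero _ hr
            field_simp
          rw [h10]
          calc c q * (r ^ (wt q.1 - m) * ((r ^ wt q.1)⁻¹ *
                (∏ k, (eval ((a:Fin d → ℝ) + r • w) (P k)) ^ (q.1 k : ℕ)) *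
                eval ((a:Fin d → ℝ) + r • w) (l q.2)))
              = (r ^ (wt q.1 - m) * (r ^ wt q.1)⁻¹) * (c q *
                ((∏ k, (eval ((a:Fin d → ℝ) + r • w) (P k)) ^ (q.1 k : ℕ)) *
                eval ((a:Fin d → ℝ) + r • w) (l q.2))) := by ring
            _ = _ := by rw [h11]
      rw [h8, h6, mul_zero]
    have hlim2 : Tendsto (fun r : ℝ => ∑ q : (Fin d → Fin M) × S, c q * (r ^ (wt q.1 - m) *
        ((∏ k, (r⁻¹ * eval ((a:Fin d → ℝ) + r • w) (P k)) ^ (q.1 k : ℕ)) *
          eval ((a:Fin d → ℝ) + r • w) (l q.2)))) (𝓝[≠] 0)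
        (𝓝 (∑ q : (Fin d → Fin M) × S, c q * ((0:ℝ) ^ (wt q.1 - m) *
        ((∏ k, v k ^ (q.1 k : ℕ)) * eval (a:Fin d → ℝ) (l q.2))))) := by
      apply tendsto_finsetSum
      intro q _
      apply Tendsto.mul tendsto_const_nhds
      apply Tendsto.mul
      · have h4 : Continuous fun r : ℝ => r ^ (wt q.1 - m) := by fun_prop
        exact (h4.tendsto 0).mono_left nhdsWithin_le_nhds
      · apply Tendsto.mul
        · apply tendsto_finsetProd
          intro k _
          exact (hlim k).pow _
        · exact hcont _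
    have hlim3 : Tendsto (fun r : ℝ => ∑ q : (Fin d → Fin M) × S, c q * (r ^ (wt q.1 - m) *
        ((∏ k, (r⁻¹ * eval ((a:Fin d → ℝ) + r • w) (P k)) ^ (q.1 k : ℕ)) *
          eval ((a:Fin d → ℝ) + r • w) (l q.2)))) (𝓝[≠] 0) (𝓝 0) := by
      refine tendsto_const_nhds.congr' ?_
      filter_upwards [self_mem_nhdsWithin] with r hr
      exact (hid r hr).symm
    have huniq := tendsto_nhds_unique hlim2 hlim3
    refine Eq.trans ?_ huniq
    rw [Fintype.sum_prod_type]
    apply Finset.sum_congr rfl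
    intro α _
    have h13 : ∀ b : S, eval (a:Fin d → ℝ) (l b) = if b = a then 1 else 0 := by
      intro b
      rw [hl b b.2 a a.2]
      simp only [Subtype.ext_iff]
    simp only [h13]
    by_cases hα : wt α = m
    · rw [if_pos hα]
      simp [hα, Finset.sum_ite_eq']
    · rw [if_neg hα]
      symm
      apply Finset.sum_eq_zero
      intro b _
      by_cases hcb : c (α, b) = 0
      · rw [hcb, zero_mul]
      · have h14 : m ≤ wt α := hmin (α, b) hcb
        have h15 : wt α - m ≠ 0 := by omega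
        rw [zero_pow h15]
        ring
  -- conclude with the polynomial identity
  set R : MvPolynomial (Fin d) ℝ := ∑ α : Fin d → Fin M,
    (if wt α = m then monomial (Finsupp.equivFunOnFinite.symm (fun k => (α k : ℕ))) (c (α, a))
      else 0) with hR
  have hR0 : R = 0 := by
    apply MvPolynomial.funext
    intro v
    rw [map_zero, hR, map_sum, ← key v]
    apply Finset.sum_congr rfl
    intro α _
    by_cases hα : wt α = m
    · rw [if_pos hα, if_pos hα, eval_monomial]
      congr 1
      rw [Finsupp.prod_fintype _ _ (fun _ => pow_zero _)]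
      rfl
    · rw [if_neg hα, if_neg hα, map_zero]
  have hcoef : coeff (Finsupp.equivFunOnFinite.symm (fun k => (α0 k : ℕ))) R = c (α0, a) := by
    rw [hR, coeff_sum, Finset.sum_eq_single α0]
    · rw [if_pos hwq0, coeff_monomial, if_pos rfl]
    · intro α _ hα
      by_cases hαm : wt α = m
      · rw [if_pos hαm, coeff_monomial, if_neg]
        intro h
        apply hα
        have h16 := Finsupp.equivFunOnFinite.symm.injective h
        funext k
        have h17 := congrFun h16 k
        exact Fin.ext h17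
      · rw [if_neg hαm, coeff_zero]
    · intro h; exact absurd (Finset.mem_univ _) h
  rw [hR0, coeff_zero] at hcoef
  exact hq0 hcoef.symm

end Pool.Agent.MPac5134
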