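import Pool.Agent.Lib.MP_ac5134_an.Geom

/-!
Volume of sheared boxes.
-/

namespace Pool.Agent.MPac5134

open MeasureTheory
open scoped ENNReal InnerProductSpace

variable {d : ℕ}

/-- sheared box: the last coordinate lies in `[α, β]`, the others are within `R` of `φ_k(x_n)` -/
def shearBox (φ : ℝ → Fin d → ℝ) (α β R : ℝ) : Set (Sp d) :=
  {x | x (Fin.last d) ∈ Set.Icc α β ∧ ∀ k : Fin d, |x k.castSucc - φ (x (Fin.last d)) k| ≤ R}

theorem volume_shearBox_le (φ : ℝ → Fin d → ℝ) (hφ : Continuous φ) {α β R : ℝ} :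
    volume (shearBox φ α β R) ≤ ENNReal.ofReal (β - α) * ENNReal.ofReal (2 * R) ^ d := by
  have h3 := PiLp.volume_preserving_ofLp (Fin (d + 1))
  have h4 := volume_preserving_piFinSuccAbove (fun _ : Fin (d + 1) => ℝ) (Fin.last d)
  have h := h4.comp h3
  set S : Set (ℝ × (Fin d → ℝ)) := {q | q.1 ∈ Set.Icc α β ∧ ∀ k, |q.2 k - φ q.1 k| ≤ R}
    with hS
  have hSm : MeasurableSet S := by
    have h1 : MeasurableSet {q : ℝ × (Fin d → ℝ) | q.1 ∈ Set.Icc α β} :=
      (isClosed_Icc.preimage continuous_fst).measurableSet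
    have h2 : MeasurableSet {q : ℝ × (Fin d → ℝ) | ∀ k, |q.2 k - φ q.1 k| ≤ R} := by
      have : {q : ℝ × (Fin d → ℝ) | ∀ k, |q.2 k - φ q.1 k| ≤ R} =
          ⋂ k, {q | |q.2 k - φ q.1 k| ≤ R} := by ext; simp
      rw [this]
      refine MeasurableSet.iInter fun k => ?_
      have hc : Continuous fun q : ℝ × (Fin d → ℝ) => |q.2 k - φ q.1 k| := by
        have : Continuous fun q : ℝ × (Fin d → ℝ) => φ q.1 := hφ.comp continuous_fst
        fun_prop
      exact (isClosed_le hc continuous_const).measurableSet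
    exact h1.inter h2
  have hset : shearBox φ α β R =
      ((MeasurableEquiv.piFinSuccAbove (fun _ : Fin (d + 1) => ℝ) (Fin.last d)) ∘
        @WithLp.ofLp 2 (Fin (d + 1) → ℝ)) ⁻¹' S := by
    ext x
    simp only [shearBox, hS, Set.mem_preimage, Function.comp_apply, Set.mem_ofPred_eq,
      MeasurableEquiv.piFinSuccAbove_apply, Fin.insertNthEquiv_symm_apply, Fin.removeNth_apply,
      Fin.succAbove_last]
  rw [hset, h.measure_preimage hSm.nullMeasurableSet]
  have hvol : (volume : Measure (ℝ × (Fin d → ℝ))) = (volume : Measure ℝ).prod volume := rfl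
  rw [hvol, Measure.prod_apply hSm]
  have hslice : ∀ t, volume (Prod.mk t ⁻¹' S) ≤
      (Set.Icc α β).indicator (fun _ => ENNReal.ofReal (2 * R) ^ d) t := by
    intro t
    by_cases ht : t ∈ Set.Icc α β
    · rw [Set.indicator_of_mem ht]
      have hsub : Prod.mk t ⁻¹' S ⊆ Set.Icc (fun k => φ t k - R) (fun k => φ t k + R) := by
        intro y hy
        have hy2 : ∀ k, |y k - φ t k| ≤ R := hy.2
        constructor
        · intro k
          have := (abs_le.1 (hy2 k)).1
          simp only; linarith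
        · intro k
          have := (abs_le.1 (hy2 k)).2
          simp only; linarith
      refine (measure_mono hsub).trans ?_
      rw [Real.volume_Icc_pi]
      have e : ∀ k : Fin d, φ t k + R - (φ t k - R) = 2 * R := by intro k; ring
      simp_rw [e]
      simp
    · rw [Set.indicator_of_notMem ht]
      have : Prod.mk t ⁻¹' S = ∅ := by
        ext y
        simp only [Set.mem_preimage, Set.mem_empty_iff_false, iff_false]
        intro hy
        exact ht hy.1
      rw [this, measure_empty]
  refine (lintegral_mono hslice).trans ?_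
  rw [lintegral_indicator_const measurableSet_Icc, Real.volume_Icc, mul_comm]

/-- linear functional `y_k + 2 ω_k y_n` is small on centred tubes -/
theorem tube_functional {N : ℝ} (hN : 0 ≤ N) (θ : Cap d) (c : Sp d) {x : Sp d}
    (hx : x ∈ tube N θ c) (k : Fin d) :
    |(x - c) k.castSucc + 2 * θ.foot k * (x - c) (Fin.last d)| ≤ 3 * d * N / 2 := by
  obtain ⟨a, ha⟩ := θ.normal
  have hfoot : |θ.foot k| ≤ 1 := by
    have h1 : θ.foot k ^ 2 ≤ 1 :=
      (Finset.single_le_sum (f := fun i => θ.foot i ^ 2) (fun i _ => sq_nonneg _)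
        (Finset.mem_univ k)).trans θ.foot_mem
    rw [← sq_le_one_iff_abs_le_one]; exact h1
  have hν : (θ.frame (Fin.last d)) k.castSucc +
      2 * θ.foot k * (θ.frame (Fin.last d)) (Fin.last d) = 0 := by
    rw [ha]
    simp only [PiLp.smul_apply, smul_eq_mul, normalVec_castSucc, normalVec_last]
    ring
  have hb : ∀ i : Fin d, |(θ.frame i.castSucc) k.castSucc +
      2 * θ.foot k * (θ.frame i.castSucc) (Fin.last d)| ≤ 3 := by
    intro i
    refine (abs_add_le _ _).trans ?_
    rw [abs_mul, abs_mul, abs_of_pos (by norm_num : (0:ℝ) < 2)]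
    have e3 := abs_coord_le_one θ.frame i.castSucc k.castSucc
    have e4 := abs_coord_le_one θ.frame i.castSucc (Fin.last d)
    have : 2 * |θ.foot k| * |(θ.frame i.castSucc) (Fin.last d)| ≤ 2 * 1 * 1 := by gcongr
    linarith
  have p1 := expand_coord θ.frame (x - c) k.castSucc
  have p2 := expand_coord θ.frame (x - c) (Fin.last d)
  have key : (x - c) k.castSucc + 2 * θ.foot k * (x - c) (Fin.last d) =
      ∑ i : Fin d, ⟪θ.frame i.castSucc, x - c⟫_ℝ * ((θ.frame i.castSucc) k.castSucc +
      2 * θ.foot k * (θ.frame i.castSucc) (Fin.last d)) := by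
    calc (x - c) k.castSucc + 2 * θ.foot k * (x - c) (Fin.last d)
        = ∑ i : Fin d, ⟪θ.frame i.castSucc, x - c⟫_ℝ * ((θ.frame i.castSucc) k.castSucc +
          2 * θ.foot k * (θ.frame i.castSucc) (Fin.last d)) +
          ⟪θ.frame (Fin.last d), x - c⟫_ℝ * ((θ.frame (Fin.last d)) k.castSucc +
          2 * θ.foot k * (θ.frame (Fin.last d)) (Fin.last d)) := by
          rw [p1, p2]
          simp only [mul_add, Finset.mul_sum, Finset.sum_add_distrib]
          have : ∀ i : Fin d, ⟪θ.frame i.castSucc, x - c⟫_ℝ *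
              (2 * θ.foot k * (θ.frame i.castSucc) (Fin.last d)) =
              2 * θ.foot k * (⟪θ.frame i.castSucc, x - c⟫_ℝ *
                (θ.frame i.castSucc) (Fin.last d)) := by
            intro i; ring
          simp only [this]
          ring
      _ = _ := by rw [hν, mul_zero, add_zero]
  rw [key]
  refine (Finset.abs_sum_le_sum_abs _ _).trans ?_
  calc _ ≤ ∑ _i : Fin d, (N / 2) * 3 := by
        apply Finset.sum_le_sum
        intro i _
        rw [abs_mul]
        exact mul_le_mul (hx.1 i) (hb i) (abs_nonneg _) (by positivity)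
    _ = 3 * d * N / 2 := by
        rw [Finset.sum_const, Finset.card_univ, Fintype.card_fin, nsmul_eq_mul]
        ring

theorem tube_last {N : ℝ} (hN : 1 ≤ N) (θ : Cap d) (c : Sp d) {x : Sp d}
    (hx : x ∈ tube N θ c) : |(x - c) (Fin.last d)| ≤ (d + 1) * N ^ 2 := by
  have p2 := expand_coord θ.frame (x - c) (Fin.last d)
  rw [p2]
  refine (abs_add_le _ _).trans ?_
  have h1 : |∑ i : Fin d, ⟪θ.frame i.castSucc, x - c⟫_ℝ *
      (θ.frame i.castSucc) (Fin.last d)| ≤ d * (N / 2) := by
    refine (Finset.abs_sum_le_sum_abs _ _).trans ?_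
    calc _ ≤ ∑ _i : Fin d, (N / 2) * 1 := by
          apply Finset.sum_le_sum
          intro i _
          rw [abs_mul]
          exact mul_le_mul (hx.1 i) (abs_coord_le_one _ _ _) (abs_nonneg _) (by positivity)
      _ = d * (N / 2) := by
          rw [Finset.sum_const, Finset.card_univ, Fintype.card_fin, nsmul_eq_mul, mul_one]
  have h2 : |⟪θ.frame (Fin.last d), x - c⟫_ℝ * (θ.frame (Fin.last d)) (Fin.last d)| ≤
      N ^ 2 / 2 * 1 := by
    rw [abs_mul]
    exact mul_le_mul hx.2 (abs_coord_le_one _ _ _) (abs_nonneg _) (by positivity)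
  have hNN : N ≤ N ^ 2 := by nlinarith
  have hd0 : (0:ℝ) ≤ d := Nat.cast_nonneg d
  nlinarith

end Pool.Agent.MPac5134
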