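import Pool.Agent.Lib.MP_ac5134_an.Lower
import Pool.Agent.Lib.MP_ac5134_an.Shear

/-!
Upper bound for the centred configuration below the critical exponent.
-/

namespace Pool.Agent.MPac5134

open MeasureTheory
open scoped ENNReal InnerProductSpace

variable {d : ℕ} {ι : Type*} [Fintype ι]

theorem card_Icc_ceil_floor_le {a r : ℝ} (hr : 0 ≤ r) :
    ((Finset.Icc ⌈a - r⌉ ⌊a + r⌋).card : ℝ) ≤ 2 * r + 1 := by
  rw [Int.card_Icc]
  have h1 := Int.floor_le (a + r)
  have h2 := Int.le_ceil (a - r)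
  have h3 : (((⌊a + r⌋ + 1 - ⌈a - r⌉).toNat : ℕ) : ℝ) =
      ((max (⌊a + r⌋ + 1 - ⌈a - r⌉) 0 : ℤ) : ℝ) := by
    rw [← Int.cast_natCast, Int.toNat_eq_max]
  rw [h3]
  push_cast
  apply max_le
  · linarith
  · linarith

/-- count of the centred tubes through a point with `x_n ≠ 0` -/
theorem mult_centred_le {K : ℕ} {N : ℝ} (hN : 1 ≤ N) (θ : ι → Cap d)
    (hK : ∀ z : Fin d → ℤ, ∀ s : Finset ι, (∀ i ∈ s, cell N (θ i) = z) → s.card ≤ K)
    {x : Sp d} (hx : x (Fin.last d) ≠ 0) :
    mult N θ (fun _ => 0) x ≤ K * (3 * d * N ^ 2 / (2 * |x (Fin.last d)|) + 3) ^ d := by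
  classical
  have hN0 : 0 < N := by linarith
  have hxn : 0 < |x (Fin.last d)| := abs_pos.2 hx
  rw [mult_eq_card]
  set S : Finset ι := Finset.univ.filter fun i => x ∈ tube N (θ i) 0 with hS
  set S' : Finset (Fin d → ℤ) := S.image (fun i => cell N (θ i)) with hS'
  have hcard : S.card ≤ K * S'.card := by
    apply Finset.card_le_mul_card_image
    intro z _
    apply hK z
    intro i hi
    exact (Finset.mem_filter.1 hi).2
  set a : Fin d → ℝ := fun k => -(N * x k.castSucc / (2 * x (Fin.last d))) with ha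
  set r : ℝ := 3 * d * N ^ 2 / (4 * |x (Fin.last d)|) + 1 with hr
  have hr0 : 0 ≤ r := by positivity
  have hsub : S' ⊆ Fintype.piFinset (fun k : Fin d => Finset.Icc ⌈a k - r⌉ ⌊a k + r⌋) := by
    intro z hz
    obtain ⟨i, hi, rfl⟩ := Finset.mem_image.1 hz
    have hix : x ∈ tube N (θ i) 0 := (Finset.mem_filter.1 hi).2
    rw [Fintype.mem_piFinset]
    intro k
    have h1 := tube_functional hN0.le (θ i) 0 hix k
    rw [sub_zero] at h1
    have hfl1 := Int.floor_le (N * (θ i).foot k)
    have hfl2 := Int.lt_floor_add_one (N * (θ i).foot k)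
    have hcell : cell N (θ i) k = ⌊N * (θ i).foot k⌋ := rfl
    rw [← hcell] at hfl1 hfl2
    have h2 : |N * (θ i).foot k - a k| ≤ 3 * d * N ^ 2 / (4 * |x (Fin.last d)|) := by
      have e1 : N * (θ i).foot k - a k = N / (2 * x (Fin.last d)) *
          (x k.castSucc + 2 * (θ i).foot k * x (Fin.last d)) := by
        rw [ha]; field_simp; ring
      rw [e1, abs_mul, abs_div, abs_mul, abs_of_pos hN0, abs_of_pos (by norm_num : (0:ℝ) < 2)]
      calc N / (2 * |x (Fin.last d)|) * |x k.castSucc + 2 * (θ i).foot k * x (Fin.last d)|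
          ≤ N / (2 * |x (Fin.last d)|) * (3 * d * N / 2) := by gcongr
        _ = 3 * d * N ^ 2 / (4 * |x (Fin.last d)|) := by field_simp; ring
    rw [abs_le] at h2
    rw [Finset.mem_Icc, Int.ceil_le, Int.le_floor]
    constructor <;> linarith [h2.1, h2.2]
  have hcount : (S'.card : ℝ) ≤ (3 * d * N ^ 2 / (2 * |x (Fin.last d)|) + 3) ^ d := by
    calc (S'.card : ℝ) ≤ ((Fintype.piFinset
          (fun k : Fin d => Finset.Icc ⌈a k - r⌉ ⌊a k + r⌋)).card : ℝ) := by
          exact_mod_cast Finset.card_le_card hsub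
      _ = ∏ k : Fin d, ((Finset.Icc ⌈a k - r⌉ ⌊a k + r⌋).card : ℝ) := by
          rw [Fintype.card_piFinset]; push_cast; rfl
      _ ≤ ∏ _k : Fin d, (3 * d * N ^ 2 / (2 * |x (Fin.last d)|) + 3) := by
          apply Finset.prod_le_prod
          · intro k _; positivity
          · intro k _
            refine (card_Icc_ceil_floor_le hr0).trans (le_of_eq ?_)
            rw [hr]; field_simp; ring
      _ = _ := by rw [Finset.prod_const, Finset.card_univ, Fintype.card_fin]
  calc (S.card : ℝ) ≤ ((K * S'.card : ℕ) : ℝ) := by exact_mod_cast hcard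
    _ = K * (S'.card : ℝ) := by push_cast; rfl
    _ ≤ _ := by gcongr

/-- pointwise bound in terms of the position along one of the tubes -/
theorem mult_centred_le' (hd : 0 < d) {K : ℕ} {N : ℝ} (hN : 1 ≤ N) (θ : ι → Cap d)
    (hK : ∀ z : Fin d → ℤ, ∀ s : Finset ι, (∀ i ∈ s, cell N (θ i) = z) → s.card ≤ K)
    (i : ι) {x : Sp d} (hx : x ∈ tube N (θ i) 0) :
    mult N θ (fun _ => 0) x ≤
      K * (20 * d * (N ^ 2 / max |⟪(θ i).frame (Fin.last d), x⟫_ℝ| N)) ^ d := by
  have hN0 : 0 < N := by linarith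
  have hd1 : (1:ℝ) ≤ d := by exact_mod_cast hd
  set y : ℝ := ⟪(θ i).frame (Fin.last d), x⟫_ℝ with hy
  rcases le_or_gt (3 * d * N) |y| with hbig | hsmall
  · have hy0 : 0 < |y| := lt_of_lt_of_le (by positivity) hbig
    have hmax : max |y| N = |y| := max_eq_left (by nlinarith)
    rw [hmax]
    -- lower bound for |x_n|
    obtain ⟨a, ha, ha3⟩ := (θ i).exists_scalar
    have hν : (θ i).frame (Fin.last d) (Fin.last d) = a := by
      rw [ha]; simp [normalVec_last]
    have p2 := expand_coord (θ i).frame x (Fin.last d)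
    rw [hν, ← hy] at p2
    have hsum : |∑ j : Fin d, ⟪(θ i).frame j.castSucc, x⟫_ℝ *
        ((θ i).frame j.castSucc) (Fin.last d)| ≤ d * (N / 2) := by
      refine (Finset.abs_sum_le_sum_abs _ _).trans ?_
      calc _ ≤ ∑ _j : Fin d, (N / 2) * 1 := by
            apply Finset.sum_le_sum
            intro j _
            rw [abs_mul]
            have := hx.1 j
            rw [sub_zero] at this
            exact mul_le_mul this (abs_coord_le_one _ _ _) (abs_nonneg _) (by positivity)
        _ = d * (N / 2) := by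
            rw [Finset.sum_const, Finset.card_univ, Fintype.card_fin, nsmul_eq_mul, mul_one]
    have hya : |y| / 3 ≤ |y * a| := by
      rw [abs_mul]
      nlinarith
    have hxn : |y| / 6 ≤ |x (Fin.last d)| := by
      rw [p2]
      have h1 := abs_sub_abs_le_abs_sub (y * a) (-(∑ j : Fin d, ⟪(θ i).frame j.castSucc, x⟫_ℝ *
        ((θ i).frame j.castSucc) (Fin.last d)))
      rw [abs_neg, sub_neg_eq_add, add_comm (y * a)] at h1
      linarith
    have hxn0 : 0 < |x (Fin.last d)| := lt_of_lt_of_le (by positivity) hxn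
    refine (mult_centred_le hN θ hK (abs_pos.1 hxn0)).trans ?_
    have hy2 : |y| ≤ N ^ 2 / 2 := by
      have := hx.2
      rw [sub_zero] at this
      exact this
    have h2 : 3 * d * N ^ 2 / (2 * |x (Fin.last d)|) + 3 ≤ 20 * d * (N ^ 2 / |y|) := by
      have h3 : 3 * d * N ^ 2 / (2 * |x (Fin.last d)|) ≤ 9 * d * (N ^ 2 / |y|) := by
        rw [mul_div_assoc', div_le_div_iff₀ (by positivity) hy0]
        nlinarith [mul_nonneg (by positivity : (0:ℝ) ≤ d) (sq_nonneg N)]
      have h4 : 3 ≤ 2 * d * (N ^ 2 / |y|) := by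
        have h5 : 2 ≤ N ^ 2 / |y| := by rw [le_div_iff₀ hy0]; linarith
        nlinarith
      have h6 : 0 ≤ d * (N ^ 2 / |y|) := by positivity
      linarith
    gcongr
  · -- all cells
    have h1 : mult N θ (fun _ => 0) x ≤ K * 5 ^ d * N ^ d :=
      (mult_le_card N θ _ x).trans (card_le hN θ hK)
    refine h1.trans ?_
    rw [mul_assoc, ← mul_pow]
    have hmax : max |y| N ≤ 3 * d * N := max_le hsmall.le (by nlinarith)
    have hmax0 : 0 < max |y| N := lt_of_lt_of_le hN0 (le_max_right _ _)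
    have h2 : 5 * N ≤ 20 * d * (N ^ 2 / max |y| N) := by
      rw [mul_div_assoc', le_div_iff₀ hmax0]
      calc 5 * N * max |y| N ≤ 5 * N * (3 * d * N) := by gcongr
        _ ≤ 20 * d * N ^ 2 := by nlinarith [sq_nonneg N]
    gcongr

/-- Subcritical bound for the centred configuration. -/
theorem centred_upper (hd : 0 < d) (K : ℕ) {p : ℝ} (hp1 : 1 ≤ p) (hp2 : p < 1 + 1 / (d:ℝ)) :
    ∃ C : ℝ, 0 < C ∧ ∀ N : ℝ, 1 ≤ N → ∀ (ι : Type*) [Fintype ι] (θ : ι → Cap d),
      (∀ z : Fin d → ℤ, ∀ s : Finset ι, (∀ i ∈ s, cell N (θ i) = z) → s.card ≤ K) →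
      ∫⁻ x, ENNReal.ofReal (mult N θ (fun _ => 0) x ^ p) ≤
        ENNReal.ofReal (C * (Fintype.card ι * N ^ (d + 2))) := by
  classical
  have hd' : (0:ℝ) < d := by exact_mod_cast hd
  set s : ℝ := d * (p - 1) with hs
  have hs0 : 0 ≤ s := mul_nonneg hd'.le (by linarith)
  have hs1 : s < 1 := by
    rw [hs]
    have : p - 1 < 1 / d := by linarith
    calc d * (p - 1) < d * (1 / d) := by gcongr
      _ = 1 := by field_simp
  set q : ℝ := (2:ℝ) ^ (s - 1) with hq
  have hq0 : 0 < q := by positivity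
  have hq1 : q < 1 := Real.rpow_lt_one_of_one_lt_of_neg (by norm_num) (by linarith)
  set A : ℝ := ((K:ℝ) * (20 * d) ^ d) ^ (p - 1) with hA
  have hA0 : 0 ≤ A := by positivity
  refine ⟨A * (4 * (1 - q)⁻¹) + 1, by
    have : 0 < (1 - q)⁻¹ := by
      rw [inv_pos]; linarith
    positivity, ?_⟩
  intro N hN ι _ θ hK
  have hN0 : 0 < N := by linarith
  -- split `M^p = ∑_i 1_{T_i} M^{p-1}`
  have hsplit : ∀ x, ENNReal.ofReal (mult N θ (fun _ => 0) x ^ p) ≤
      ∑ i, (tube N (θ i) 0).indicator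
        (fun x => ENNReal.ofReal (mult N θ (fun _ => 0) x ^ (p - 1))) x := by
    intro x
    have h0 := mult_nonneg N θ (fun _ => 0) x
    rcases h0.eq_or_lt with h | h
    · rw [← h, Real.zero_rpow (by linarith), ENNReal.ofReal_zero]
      exact zero_le
    · have e1 : mult N θ (fun _ => 0) x ^ p =
          mult N θ (fun _ => 0) x * mult N θ (fun _ => 0) x ^ (p - 1) := by
        rw [← Real.rpow_one_add' h0 (by linarith)]; congr 1; ring
      rw [e1, ENNReal.ofReal_mul h0]
      have e2 : ENNReal.ofReal (mult N θ (fun _ => 0) x) =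
          ∑ i, (tube N (θ i) 0).indicator (fun _ => (1:ℝ≥0∞)) x := by
        unfold mult
        rw [ENNReal.ofReal_sum_of_nonneg
          (fun i _ => Set.indicator_nonneg (fun _ _ => zero_le_one) _)]
        apply Finset.sum_congr rfl; intro i _
        by_cases h : x ∈ tube N (θ i) 0
        · rw [Set.indicator_of_mem h, Set.indicator_of_mem h, ENNReal.ofReal_one]
        · rw [Set.indicator_of_notMem h, Set.indicator_of_notMem h, ENNReal.ofReal_zero]
      rw [e2, Finset.sum_mul]
      apply Finset.sum_le_sum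
      intro i _
      by_cases h : x ∈ tube N (θ i) 0
      · rw [Set.indicator_of_mem h, Set.indicator_of_mem h, one_mul]
      · rw [Set.indicator_of_notMem h, Set.indicator_of_notMem h, zero_mul]
  -- the number of dyadic levels
  obtain ⟨L, hL⟩ : ∃ L : ℕ, N < 2 ^ L := pow_unbounded_of_one_lt N (by norm_num)
  -- pointwise bound of the weight on one tube
  have hweight : ∀ (i : ι) (x : Sp d), (tube N (θ i) 0).indicator
      (fun x => ENNReal.ofReal (mult N θ (fun _ => 0) x ^ (p - 1))) x ≤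
      ∑ j ∈ Finset.range L, (frameBox N (θ i).frame 0 (-(N ^ 2 * (1 / 2) ^ j))
        (N ^ 2 * (1 / 2) ^ j)).indicator
        (fun _ => ENNReal.ofReal (A * (2 ^ s) ^ (j + 1))) x := by
    intro i x
    by_cases hx : x ∈ tube N (θ i) 0
    · rw [Set.indicator_of_mem hx]
      set y : ℝ := ⟪(θ i).frame (Fin.last d), x⟫_ℝ with hy
      set Q : ℝ := N ^ 2 / max |y| N with hQ
      have hmax0 : 0 < max |y| N := lt_of_lt_of_le hN0 (le_max_right _ _)
      have hQN : Q ≤ N := by
        rw [hQ, div_le_iff₀ hmax0]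
        have := le_max_right |y| N
        nlinarith
      have hy2 : |y| ≤ N ^ 2 / 2 := by
        have := hx.2
        rw [sub_zero] at this
        exact this
      have hQ1 : 1 ≤ Q := by
        rw [hQ, le_div_iff₀ hmax0, one_mul]
        apply max_le
        · have : 0 ≤ N ^ 2 := sq_nonneg N
          linarith
        · nlinarith
      obtain ⟨j, hj1, hj2⟩ := exists_nat_pow_near hQ1 (by norm_num : (1:ℝ) < 2)
      have hjL : j < L := by
        have : (2:ℝ) ^ j < 2 ^ L := lt_of_le_of_lt (hj1.trans hQN) hL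
        exact (pow_lt_pow_iff_right₀ (by norm_num)).1 this
      have hmem : x ∈ frameBox N (θ i).frame 0 (-(N ^ 2 * (1 / 2) ^ j))
          (N ^ 2 * (1 / 2) ^ j) := by
        refine ⟨hx.1, ?_⟩
        rw [sub_zero, Set.mem_Icc, ← abs_le, ← hy]
        have h1 : |y| * 2 ^ j ≤ N ^ 2 := by
          calc |y| * 2 ^ j ≤ max |y| N * Q := by
                gcongr
                exact le_max_left _ _
            _ = N ^ 2 := by rw [hQ]; field_simp
        have h2 : (0:ℝ) < 2 ^ j := by positivity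
        rw [div_pow, one_pow, mul_one_div, le_div_iff₀ h2]
        exact h1
      refine le_trans ?_ (Finset.single_le_sum (f := fun j =>
        (frameBox N (θ i).frame 0 (-(N ^ 2 * (1 / 2) ^ j)) (N ^ 2 * (1 / 2) ^ j)).indicator
        (fun _ => ENNReal.ofReal (A * (2 ^ s) ^ (j + 1))) x) (fun _ _ => zero_le)
        (Finset.mem_range.2 hjL))
      rw [Set.indicator_of_mem hmem]
      apply ENNReal.ofReal_le_ofReal
      have h0 := mult_nonneg N θ (fun _ => 0) x
      have h3 := mult_centred_le' hd hN θ hK i hx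
      rw [← hy, ← hQ] at h3
      have hQs : ((20 * (d:ℝ) * Q) ^ d) = (20 * d) ^ d * Q ^ d := by rw [mul_pow]
      rw [hQs, ← mul_assoc] at h3
      calc mult N θ (fun _ => 0) x ^ (p - 1)
          ≤ ((K:ℝ) * (20 * d) ^ d * Q ^ d) ^ (p - 1) :=
            Real.rpow_le_rpow h0 h3 (by linarith)
        _ = A * (Q ^ d) ^ (p - 1) := by
            rw [Real.mul_rpow (by positivity) (by positivity)]
        _ = A * Q ^ s := by
            congr 1
            rw [← Real.rpow_natCast, ← Real.rpow_mul (by linarith)]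
        _ ≤ A * ((2:ℝ) ^ (j + 1)) ^ s := by
            gcongr
        _ = A * (2 ^ s) ^ (j + 1) := by
            congr 1
            rw [← Real.rpow_natCast, ← Real.rpow_natCast, ← Real.rpow_mul (by norm_num),
              ← Real.rpow_mul (by norm_num), mul_comm]
    · rw [Set.indicator_of_notMem hx]; exact zero_le
  have hint : ∀ i : ι, ∫⁻ x, (tube N (θ i) 0).indicator
      (fun x => ENNReal.ofReal (mult N θ (fun _ => 0) x ^ (p - 1))) x ≤
      ENNReal.ofReal ((A * (4 * (1 - q)⁻¹)) * N ^ (d + 2)) := by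
    intro i
    refine (lintegral_mono (hweight i)).trans ?_
    rw [lintegral_finsetSum _ fun j _ =>
      measurable_const.indicator (measurableSet_frameBox _ _ _ _ _)]
    simp_rw [lintegral_indicator_const (measurableSet_frameBox _ _ _ _ _), volume_frameBox]
    have hterm : ∀ j ∈ Finset.range L, ENNReal.ofReal (A * (2 ^ s) ^ (j + 1)) *
        (ENNReal.ofReal N ^ d * ENNReal.ofReal (N ^ 2 * (1 / 2) ^ j - -(N ^ 2 * (1 / 2) ^ j))) =
        ENNReal.ofReal (A * (2 * 2 ^ s) * N ^ (d + 2) * q ^ j) := by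
      intro j _
      rw [← ENNReal.ofReal_pow hN0.le, ← ENNReal.ofReal_mul (by positivity),
        ← ENNReal.ofReal_mul (by positivity)]
      congr 1
      have e1 : q = 2 ^ s * (1 / 2) := by
        rw [hq, Real.rpow_sub (by norm_num), Real.rpow_one]; ring
      rw [e1, mul_pow]
      ring
    rw [Finset.sum_congr rfl hterm, ← ENNReal.ofReal_sum_of_nonneg (fun j _ => by positivity),
      ← Finset.mul_sum]
    apply ENNReal.ofReal_le_ofReal
    have hgeom : ∑ j ∈ Finset.range L, q ^ j ≤ (1 - q)⁻¹ := by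
      rw [geom_sum_eq hq1.ne]
      have h1q : 0 < 1 - q := by linarith
      have e1 : (q ^ L - 1) / (q - 1) = (1 - q ^ L) / (1 - q) := by
        rw [div_eq_div_iff (by linarith) h1q.ne']; ring
      rw [e1, inv_eq_one_div]
      gcongr
      have : 0 ≤ q ^ L := by positivity
      linarith
    have h2s : (2:ℝ) ^ s ≤ 2 := by
      calc (2:ℝ) ^ s ≤ 2 ^ (1:ℝ) := Real.rpow_le_rpow_of_exponent_le (by norm_num) hs1.le
        _ = 2 := Real.rpow_one 2
    have hinv : 0 < (1 - q)⁻¹ := by rw [inv_pos]; linarith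
    calc A * (2 * 2 ^ s) * N ^ (d + 2) * ∑ j ∈ Finset.range L, q ^ j
        ≤ A * (2 * 2) * N ^ (d + 2) * (1 - q)⁻¹ := by gcongr
      _ = _ := by ring
  calc ∫⁻ x, ENNReal.ofReal (mult N θ (fun _ => 0) x ^ p)
      ≤ ∫⁻ x, ∑ i, (tube N (θ i) 0).indicator
        (fun x => ENNReal.ofReal (mult N θ (fun _ => 0) x ^ (p - 1))) x :=
        lintegral_mono hsplit
    _ = ∑ i, ∫⁻ x, (tube N (θ i) 0).indicator
        (fun x => ENNReal.ofReal (mult N θ (fun _ => 0) x ^ (p - 1))) x := by
        rw [lintegral_finsetSum]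
        intro i _
        exact ((measurable_mult N θ _).pow_const _).ennreal_ofReal.indicator
          (measurableSet_tube _ _ _)
    _ ≤ ∑ _i : ι, ENNReal.ofReal ((A * (4 * (1 - q)⁻¹)) * N ^ (d + 2)) :=
        Finset.sum_le_sum fun i _ => hint i
    _ ≤ _ := by
        rw [Finset.sum_const, Finset.card_univ, nsmul_eq_mul, ← ENNReal.ofReal_natCast,
          ← ENNReal.ofReal_mul (by positivity)]
        apply ENNReal.ofReal_le_ofReal
        have h0 : 0 ≤ (Fintype.card ι : ℝ) * N ^ (d + 2) := by positivity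
        nlinarith

end Pool.Agent.MPac5134
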