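import Pool.Agent.Lib.MP_ac5134_an.Defs
import Pool.Agent.Lib.MP_ac5134_an.Norms
import Pool.Agent.Lib.MP_ac5134_an.Besic
import Pool.Agent.Lib.MP_ac5134_an.Centred

/-!
A compression of tubes in `R^n` by the factor `(log N)^{n-1}`, and the resulting lower bound
for the constant in the `L^p` inequality below the critical exponent.
-/

namespace Pool.Agent.MPac5134

open MeasureTheory
open scoped ENNReal

theorem compression_thm (d : ℕ) (hd : 1 ≤ d) (K : ℕ) (κ : ℝ) (hκ : 0 < κ) (p : ℝ) (hp1 : 1 ≤ p)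
    (hp2 : p < 1 + 1 / (d : ℝ)) :
    ∃ C : ℝ, 0 < C ∧ ∀ N : ℝ, 2 ≤ N → ∀ (ι : Type) [Fintype ι] (θ : ι → Cap d),
      IsCapFamily K κ N θ → ∃ c : ι → Sp d,
        PlaneSorted (4 * (d + 1)) N θ c ∧
        volume (⋃ i, tube N (θ i) (c i)) ≤
          ENNReal.ofReal (C * (1 + Real.log N) ^ (-(d : ℝ))) *
            ∑ i, volume (tube N (θ i) (c i)) ∧
        ENNReal.ofReal ((1 + Real.log N) ^ ((d : ℝ) * (1 - 1 / p))) *
            eLpNorm (mult N θ (fun _ => 0)) (ENNReal.ofReal p) volume ≤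
          ENNReal.ofReal C * eLpNorm (mult N θ c) (ENNReal.ofReal p) volume := by
  have hd' : (0:ℝ) < d := by exact_mod_cast hd
  have hd1 : (1:ℝ) ≤ d := by exact_mod_cast hd
  have hp0 : 0 < p := by linarith
  obtain ⟨C0, hC0, hcent⟩ := centred_upper (d := d) (by omega) K hp1 hp2
  -- constant of the volume bound
  set E : ℝ := 2 * ((d:ℝ) + 1) * (360 * (d + 1)) ^ d with hE
  have hE0 : 0 < E := by positivity
  set C1 : ℝ := E / κ with hC1
  have hC10 : 0 < C1 := by positivity
  set C2 : ℝ := 2 * C0 * (2 * C1) ^ (p - 1) with hC2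
  have hC20 : 0 < C2 := by positivity
  refine ⟨C1 + (1 + C2), by linarith, ?_⟩
  intro N hN2 ι _ θ hfam
  have hN : 1 ≤ N := by linarith
  have hN0 : 0 < N := by linarith
  have hlogN : 0 ≤ Real.log N := Real.log_nonneg hN
  obtain ⟨m, hm, hmN, hlogm⟩ := exists_places hN2
  have hm' : (0:ℝ) < m := by exact_mod_cast hm
  set L : ℝ := 1 + Real.log N with hL
  have hL1 : 1 ≤ L := by linarith
  have hL0 : 0 < L := by linarith
  set c : ι → Sp d := fun i => besCentre N m (θ i) with hc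
  set M : ℝ := (Fintype.card ι : ℝ) with hM
  have hmany : κ * N ^ d ≤ M := hfam.many
  have hMpos : 0 < M := lt_of_lt_of_le (by positivity) hmany
  -- volume bound
  have hvol0 := bes_volume hN hm hmN θ
  have hvol : volume (⋃ i, tube N (θ i) (c i)) ≤
      ENNReal.ofReal (C1 * L ^ (-(d:ℝ)) * (M * N ^ (d + 2))) := by
    refine hvol0.trans (ENNReal.ofReal_le_ofReal ?_)
    have e1 : (60 * (2 * (((d:ℝ) + 1) * N ^ 2) / m)) ^ d ≤
        (360 * (d + 1)) ^ d * N ^ (2 * d) * L ^ (-(d:ℝ)) := by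
      have h1 : 60 * (2 * (((d:ℝ) + 1) * N ^ 2) / m) ≤ (360 * (d + 1)) * N ^ 2 * L⁻¹ := by
        rw [mul_div_assoc', div_le_iff₀ hm']
        have h2 : 1 ≤ 3 * (L⁻¹ * m) := by
          have : L⁻¹ * L ≤ L⁻¹ * (3 * m) := by gcongr
          rw [inv_mul_cancel₀ hL0.ne'] at this
          linarith
        have h3 : 0 ≤ 120 * (((d:ℝ) + 1) * N ^ 2) := by positivity
        nlinarith
      calc (60 * (2 * (((d:ℝ) + 1) * N ^ 2) / m)) ^ d
          ≤ ((360 * (d + 1)) * N ^ 2 * L⁻¹) ^ d := by gcongr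
        _ = (360 * (d + 1)) ^ d * N ^ (2 * d) * L ^ (-(d:ℝ)) := by
            rw [mul_pow, mul_pow, ← pow_mul, Real.rpow_neg hL0.le, Real.rpow_natCast, inv_pow]
    calc 2 * (((d:ℝ) + 1) * N ^ 2) * (60 * (2 * (((d:ℝ) + 1) * N ^ 2) / m)) ^ d
        ≤ 2 * (((d:ℝ) + 1) * N ^ 2) * ((360 * (d + 1)) ^ d * N ^ (2 * d) * L ^ (-(d:ℝ))) := by
          gcongr
      _ = E * L ^ (-(d:ℝ)) * (N ^ d * N ^ (d + 2)) := by rw [hE]; ring
      _ = C1 * L ^ (-(d:ℝ)) * ((κ * N ^ d) * N ^ (d + 2)) := by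
          rw [hC1]; field_simp
      _ ≤ C1 * L ^ (-(d:ℝ)) * (M * N ^ (d + 2)) := by gcongr
  have hsum : ∑ i, volume (tube N (θ i) (c i)) = ENNReal.ofReal (M * N ^ (d + 2)) := by
    simp_rw [volume_tube hN0.le]
    rw [Finset.sum_const, Finset.card_univ, nsmul_eq_mul, ENNReal.ofReal_mul (by positivity),
      hM, ENNReal.ofReal_natCast]
  refine ⟨c, besCentre_planeSorted hN m θ, ?_, ?_⟩
  · rw [hsum, ← ENNReal.ofReal_mul (by positivity)]
    refine hvol.trans (ENNReal.ofReal_le_ofReal ?_)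
    gcongr
    linarith
  · -- the `L^p` lower bound
    set U : Set (Sp d) := ⋃ i, tube N (θ i) (c i) with hU
    have hUm : MeasurableSet U := MeasurableSet.iUnion fun i => measurableSet_tube _ _ _
    set X : ℝ := M * N ^ (d + 2) with hX
    have hX0 : 0 < X := by positivity
    set Y : ℝ := C1 * L ^ (-(d:ℝ)) * X with hY
    have hY0 : 0 < Y := by positivity
    have hmassU : ∫⁻ x in U, ENNReal.ofReal (mult N θ c x) = ENNReal.ofReal X := by
      rw [hX, hM, ← lintegral_mult hN0.le θ c]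
      apply setLIntegral_eq_of_support_aux hUm
      intro x hx
      have : mult N θ c x = 0 := by
        unfold mult
        apply Finset.sum_eq_zero
        intro i _
        apply Set.indicator_of_notMem
        intro hxi
        exact hx (Set.mem_iUnion.2 ⟨i, hxi⟩)
      rw [this, ENNReal.ofReal_zero]
    have hlow := lintegral_rpow_lower (mult_nonneg N θ c) (measurable_mult N θ c)
      hX0 hY0 hp1 hmassU.ge hvol
    have hlow2 := hlow.trans (setLIntegral_le_lintegral U _)
    have hup := hcent N hN ι θ hfam.overlap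
    -- comparison of integrals
    have hint : ENNReal.ofReal (L ^ (d * (p - 1))) *
        ∫⁻ x, ENNReal.ofReal (mult N θ (fun _ => 0) x ^ p) ≤
        ENNReal.ofReal C2 * ∫⁻ x, ENNReal.ofReal (mult N θ c x ^ p) := by
      refine (mul_le_mul' le_rfl hup).trans (le_trans ?_ (mul_le_mul' le_rfl hlow2))
      rw [← ENNReal.ofReal_mul (by positivity), ← ENNReal.ofReal_mul (by positivity)]
      apply ENNReal.ofReal_le_ofReal
      have e1 : X / (2 * Y) = (2 * C1)⁻¹ * L ^ (d:ℝ) := by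
        rw [hY, Real.rpow_neg hL0.le]
        field_simp
      have e2 : (X / (2 * Y)) ^ (p - 1) = ((2 * C1) ^ (p - 1))⁻¹ * L ^ (d * (p - 1)) := by
        rw [e1, Real.mul_rpow (by positivity) (by positivity), Real.inv_rpow (by positivity),
          ← Real.rpow_mul hL0.le]
      rw [e2, hC2]
      have h2C : 0 < (2 * C1) ^ (p - 1) := by positivity
      apply le_of_eq
      rw [← hM, ← hX]
      field_simp
    -- pass to norms
    have hpE0 : ENNReal.ofReal p ≠ 0 := by simpa using hp0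
    have hpR : (ENNReal.ofReal p).toReal = p := ENNReal.toReal_ofReal hp0.le
    rw [eLpNorm_mult N θ _ hpE0 ENNReal.ofReal_ne_top,
      eLpNorm_mult N θ _ hpE0 ENNReal.ofReal_ne_top, hpR]
    have h1 := ENNReal.rpow_le_rpow hint (z := 1 / p) (by positivity)
    rw [ENNReal.mul_rpow_of_nonneg _ _ (by positivity),
      ENNReal.mul_rpow_of_nonneg _ _ (by positivity),
      ENNReal.ofReal_rpow_of_nonneg (by positivity) (by positivity),
      ENNReal.ofReal_rpow_of_nonneg (by positivity) (by positivity),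
      ← Real.rpow_mul hL0.le] at h1
    have e3 : (d:ℝ) * (p - 1) * (1 / p) = d * (1 - 1 / p) := by field_simp
    rw [e3] at h1
    refine h1.trans ?_
    gcongr
    calc C2 ^ (1 / p) ≤ (1 + C2) ^ (1 / p) := by gcongr; linarith
      _ ≤ (1 + C2) ^ (1:ℝ) := by
          apply Real.rpow_le_rpow_of_exponent_le (by linarith)
          rw [div_le_one hp0]; exact hp1
      _ = 1 + C2 := Real.rpow_one _
      _ ≤ C1 + (1 + C2) := by linarith

end Pool.Agent.MPac5134
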