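import Mathlib

/-!
Definitions for the tube form of the Kakeya problem over the paraboloid.
Throughout `n = d + 1`.
-/

namespace Pool.Agent.MPac5134

open MeasureTheory
open scoped ENNReal InnerProductSpace

/-- `R^n` with `n = d + 1`; the last coordinate is `x_n`. -/
abbrev Sp (d : ℕ) := EuclideanSpace ℝ (Fin (d + 1))

/-- The vector `(-2 ω_1, …, -2 ω_d, 1)`, which is normal to the paraboloid
`ω_n = ω_1^2 + … + ω_d^2` at the point over `ω`. -/
noncomputable def normalVec {d : ℕ} (ω : Fin d → ℝ) : Sp d :=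
  WithLp.toLp 2 (Fin.snoc (fun i => -2 * ω i) 1 : Fin (d + 1) → ℝ)

/-- The data of one box `θ` of the cover of `P`, apart from its size: the foot `ω` of its
centre `(ω, |ω|^2) ∈ P` (so `|ω| ≤ 1`), and an orthonormal frame of side directions of `θ`
whose last vector, the direction of the short side, is normal to `P` at the centre. -/
structure Cap (d : ℕ) where
  foot : Fin d → ℝ
  foot_mem : ∑ i, foot i ^ 2 ≤ 1
  frame : OrthonormalBasis (Fin (d + 1)) ℝ (Sp d)
  normal : ∃ a : ℝ, frame (Fin.last d) = a • normalVec foot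

/-- The translate `c + θ^*` of the dual box `θ^*`: the box centred at `c`, with side length
`N^2` in the direction of the short side of `θ` and `N` in the other side directions. -/
def tube {d : ℕ} (N : ℝ) (θ : Cap d) (c : Sp d) : Set (Sp d) :=
  {x | (∀ i : Fin d, |⟪θ.frame i.castSucc, x - c⟫_ℝ| ≤ N / 2) ∧
    |⟪θ.frame (Fin.last d), x - c⟫_ℝ| ≤ N ^ 2 / 2}

/-- The function `∑_θ T_θ`, where `T_θ` is the indicator function of `c_θ + θ^*`. -/
noncomputable def mult {d : ℕ} {ι : Type*} [Fintype ι] (N : ℝ) (θ : ι → Cap d)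
    (c : ι → Sp d) (x : Sp d) : ℝ :=
  ∑ i, (tube N (θ i) (c i)).indicator (fun _ => (1 : ℝ)) x

/-- The cell of the grid `(1/N) Z^d` that contains the foot of the cap. -/
noncomputable def cell {d : ℕ} (N : ℝ) (θ : Cap d) : Fin d → ℤ := fun k => ⌊N * θ.foot k⌋

/-- A family of caps at scale `1/N` on `P`: at most `K` caps have their foot in one cell of the
grid `(1/N) Z^d`, and there are at least `κ N^d` caps. -/
structure IsCapFamily {d : ℕ} {ι : Type*} [Fintype ι] (K : ℕ) (κ N : ℝ) (θ : ι → Cap d) :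
    Prop where
  overlap : ∀ z : Fin d → ℤ, ∀ s : Finset ι, (∀ i ∈ s, cell N (θ i) = z) → s.card ≤ K
  many : κ * N ^ d ≤ Fintype.card ι

/-- The translates are plane-sorted (with constant `A`): for each `k`, all tubes whose
direction cells have the same first `k` entries `(z_1, …, z_k)` lie in one common slab
`|x_k + 2 (z_k / N) x_n - b| ≤ A N`, with `b` depending only on `(z_1, …, z_k)`.
(The hyperplanes `x_k + 2 ω_k x_n = b` are the ones that are parallel to the tubes whose
direction has `k`-th entry `ω_k`.) -/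
def PlaneSorted {d : ℕ} {ι : Type*} (A N : ℝ) (θ : ι → Cap d) (c : ι → Sp d) : Prop :=
  ∃ b : Fin d → (Fin d → ℤ) → ℝ,
    (∀ (k : Fin d) (z z' : Fin d → ℤ), (∀ j, j ≤ k → z j = z' j) → b k z = b k z') ∧
    ∀ (i : ι) (k : Fin d), ∀ x ∈ tube N (θ i) (c i),
      |x k.castSucc + 2 * ((cell N (θ i) k : ℝ) / N) * x (Fin.last d) -
        b k (cell N (θ i))| ≤ A * N

end Pool.Agent.MPac5134
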