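import Pool.Agent.Lib.MP_ac5134_an.Kraft

/-!
The tree inequality with weights.
-/

namespace Pool.Agent.MPac5134

variable {d : ℕ}

/-- `d |S|^{1+1/d} ≤ ∑_{s ∈ S} ∑_k w_k a_k(s)` when `∏ w_k = 1`. -/
theorem tree_ineq_weighted (hd : 0 < d) (S : Finset (Fin d → ℤ)) (w : Fin d → ℝ)
    (hw : ∀ k, 0 < w k) (hprod : ∏ k, w k = 1) :
    (d : ℝ) * (S.card : ℝ) ^ (1 + 1 / (d : ℝ)) ≤
      ∑ s ∈ S, ∑ k : Fin d, w k * ((branches S k s).card : ℝ) := by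
  have hd' : (0:ℝ) < d := by exact_mod_cast hd
  rcases S.eq_empty_or_nonempty with rfl | hne
  · have h0 : (1 + 1 / (d : ℝ)) ≠ 0 := by positivity
    rw [Finset.card_empty, Nat.cast_zero, Real.zero_rpow h0, mul_zero, Finset.sum_empty]
  have hc : (0:ℝ) < S.card := by exact_mod_cast Finset.card_pos.2 hne
  have hwpos : 0 < (S.card : ℝ) ^ (1 + 1 / (d : ℝ)) := Real.rpow_pos_of_pos hc _
  have e2 : ((S.card : ℝ) ^ (1 + 1 / (d : ℝ))) ^ (1 / ((d:ℝ) + 1)) =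
      (S.card : ℝ) ^ (1 / (d:ℝ)) := by
    rw [← Real.rpow_mul hc.le]
    congr 1
    field_simp
  have h5 : (S.card : ℝ) * (((d:ℝ) + 1) * (S.card : ℝ) ^ (1 / (d:ℝ))) =
      ((d:ℝ) + 1) * (S.card : ℝ) ^ (1 + 1 / (d : ℝ)) := by
    rw [Real.rpow_add hc, Real.rpow_one]
    ring
  have hpt : ∀ s ∈ S, ((d:ℝ) + 1) * (S.card : ℝ) ^ (1 / (d:ℝ)) ≤
      ∑ k : Fin d, w k * ((branches S k s).card : ℝ) +
        (S.card : ℝ) ^ (1 + 1 / (d : ℝ)) * ∏ k : Fin d, ((branches S k s).card : ℝ)⁻¹ := by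
    intro s hs
    have hpos : ∀ k : Fin d, (0:ℝ) < (branches S k s).card := by
      intro k
      exact_mod_cast branches_pos S k hs
    have hP : 0 < ∏ k : Fin d, ((branches S k s).card : ℝ) := Finset.prod_pos fun k _ => hpos k
    rw [Finset.prod_inv_distrib, ← e2]
    apply amgm_aux d _ _ hP hwpos _ (fun k => mul_pos (hw k) (hpos k))
    rw [Finset.prod_mul_distrib, hprod, one_mul]
  have hsum := Finset.sum_le_sum hpt
  rw [Finset.sum_const, nsmul_eq_mul, Finset.sum_add_distrib, ← Finset.mul_sum, h5] at hsum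
  have hk := kraft_ineq S
  have h4 : (S.card : ℝ) ^ (1 + 1 / (d : ℝ)) *
      ∑ s ∈ S, ∏ k : Fin d, ((branches S k s).card : ℝ)⁻¹ ≤
      (S.card : ℝ) ^ (1 + 1 / (d : ℝ)) * 1 := mul_le_mul_of_nonneg_left hk hwpos.le
  linarith

end Pool.Agent.MPac5134
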