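import Pool.Agent.Lib.MP_ac5134_an.FlagCount
import Pool.Agent.Lib.MP_ac5134_an.FlagTree
import Pool.Agent.Lib.MP_ac5134_an.Critical

/-!
The estimate at the critical exponent for families sorted by flags.
-/

namespace Pool.Agent.MPac5134

open MeasureTheory
open scoped ENNReal InnerProductSpace

variable {d : ℕ} {ι : Type*} [Fintype ι]

/-- pointwise inequality -/
theorem flag_pointwise (hd : 0 < d) {A N : ℝ} (θ : ι → Cap d) (c : ι → Sp d)
    (code : ι → Fin d → ℤ) (hinj : Function.Injective code) (H : Fin d → ι → Hyp d)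
    (R : Fin d → Finset ι) (hH : ∀ k i i', code i k = code i' k → H k i = H k i')
    (hsub : ∀ i k, tube N (θ i) (c i) ⊆ (H k i).slab (A * N))
    (hR : ∀ k i, ∃ ρ ∈ R k, ∀ j ≤ k, code ρ j = code i j)
    (w : Fin d → ℝ) (hw : ∀ k, 0 < w k) (hprod : ∏ k, w k = 1) (x : Sp d) :
    (d : ℝ) * (mult N θ c x) ^ (1 + 1 / (d:ℝ)) ≤
      ∑ k : Fin d, w k * ∑ ρ ∈ R k, ∑ i ∈ Finset.univ.filter
        (fun i => ∀ j < k, code i j = code ρ j),
        (tube N (θ i) (c i) ∩ (H k ρ).slab (A * N)).indicator (fun _ => (1:ℝ)) x := by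
  classical
  rw [mult_eq_card]
  set S : Finset ι := Finset.univ.filter fun i => x ∈ tube N (θ i) (c i) with hS
  set S' : Finset (Fin d → ℤ) := S.image code with hS'
  have hcard : S'.card = S.card := Finset.card_image_of_injective _ hinj
  have htree := tree_ineq_weighted hd S' w hw hprod
  rw [hcard] at htree
  refine htree.trans ?_
  have hbr : ∀ i ∈ S, ∀ k : Fin d, ((branches S' k (code i)).card : ℝ) ≤
      ∑ ρ ∈ (R k).filter (fun ρ => ∀ j < k, code i j = code ρ j),
        ((H k ρ).slab (A * N)).indicator (fun _ => (1:ℝ)) x := by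
    intro i _ k
    have hsubs : branches S' k (code i) ⊆ (((R k).filter (fun ρ => ∀ j < k, code i j = code ρ j)).filter
        (fun ρ => x ∈ (H k ρ).slab (A * N))).image (fun ρ => code ρ k) := by
      intro z hz
      unfold branches at hz
      obtain ⟨t, ht, rfl⟩ := Finset.mem_image.1 hz
      obtain ⟨ht1, ht2⟩ := Finset.mem_filter.1 ht
      obtain ⟨i', hi', rfl⟩ := Finset.mem_image.1 ht1
      have hix : x ∈ tube N (θ i') (c i') := (Finset.mem_filter.1 hi').2
      obtain ⟨ρ, hρ, hρi⟩ := hR k i'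
      rw [Finset.mem_image]
      refine ⟨ρ, ?_, hρi k le_rfl⟩
      rw [Finset.mem_filter, Finset.mem_filter]
      refine ⟨⟨hρ, ?_⟩, ?_⟩
      · intro j hj
        rw [hρi j hj.le, ht2 j hj]
      · rw [hH k ρ i' (hρi k le_rfl)]
        exact hsub i' k hix
    calc ((branches S' k (code i)).card : ℝ)
        ≤ (((((R k).filter (fun ρ => ∀ j < k, code i j = code ρ j)).filter
          (fun ρ => x ∈ (H k ρ).slab (A * N))).image (fun ρ => code ρ k)).card : ℝ) := by
          exact_mod_cast Finset.card_le_card hsubs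
      _ ≤ ((((R k).filter (fun ρ => ∀ j < k, code i j = code ρ j)).filter
          (fun ρ => x ∈ (H k ρ).slab (A * N))).card : ℝ) := by
          exact_mod_cast Finset.card_image_le
      _ = _ := by
          rw [Finset.card_filter]
          push_cast
          apply Finset.sum_congr rfl
          intro z _
          by_cases h : x ∈ (H k z).slab (A * N)
          · simp [h]
          · simp [h]
  rw [hS', Finset.sum_image fun a _ b _ hab => hinj hab]
  calc ∑ i ∈ S, ∑ k : Fin d, w k * ((branches (S.image code) k (code i)).card : ℝ)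
      ≤ ∑ i ∈ S, ∑ k : Fin d, w k *
        ∑ ρ ∈ (R k).filter (fun ρ => ∀ j < k, code i j = code ρ j),
        ((H k ρ).slab (A * N)).indicator (fun _ => (1:ℝ)) x := by
        apply Finset.sum_le_sum; intro i hi
        apply Finset.sum_le_sum; intro k _
        exact mul_le_mul_of_nonneg_left (hbr i hi k) (hw k).le
    _ = ∑ i : ι, ∑ k : Fin d, w k *
        ∑ ρ ∈ (R k).filter (fun ρ => ∀ j < k, code i j = code ρ j),
        (tube N (θ i) (c i) ∩ (H k ρ).slab (A * N)).indicator (fun _ => (1:ℝ)) x := by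
        rw [hS, Finset.sum_filter]
        apply Finset.sum_congr rfl
        intro i _
        by_cases h : x ∈ tube N (θ i) (c i)
        · rw [if_pos h]
          apply Finset.sum_congr rfl; intro k _
          congr 1
          apply Finset.sum_congr rfl; intro z _
          by_cases h' : x ∈ (H k z).slab (A * N)
          · rw [Set.indicator_of_mem h', Set.indicator_of_mem (Set.mem_inter h h')]
          · rw [Set.indicator_of_notMem h', Set.indicator_of_notMem (fun h'' => h' h''.2)]
        · rw [if_neg h]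
          symm
          apply Finset.sum_eq_zero; intro k _
          rw [mul_eq_zero]; right
          apply Finset.sum_eq_zero; intro z _
          rw [Set.indicator_of_notMem (fun h'' => h h''.1)]
    _ = _ := by
        rw [Finset.sum_comm]
        apply Finset.sum_congr rfl; intro k _
        rw [← Finset.mul_sum]
        congr 1
        simp_rw [Finset.sum_filter]
        rw [Finset.sum_comm]

theorem inv_max_floor_le (u : ℝ) : (max 1 |u|)⁻¹ ≤ 2 * (max 1 |((⌊u⌋ : ℤ) : ℝ)|)⁻¹ := by
  have h1 : |((⌊u⌋ : ℤ) : ℝ)| ≤ |u| + 1 := by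
    have e1 := Int.floor_le u
    have e2 := Int.lt_floor_add_one u
    have e3 := neg_abs_le u
    have e4 := le_abs_self u
    rw [abs_le]
    constructor <;> linarith
  have h2 : max 1 |((⌊u⌋ : ℤ) : ℝ)| ≤ 2 * max 1 |u| := by
    have e1 := le_max_left 1 |u|
    have e2 := le_max_right 1 |u|
    apply max_le
    · linarith
    · linarith
  have h3 : 0 < max 1 |((⌊u⌋ : ℤ) : ℝ)| := by positivity
  have h4 : 0 < max 1 |u| := by positivity
  rw [inv_le_iff_one_le_mul₀ h4, mul_assoc, ← div_eq_inv_mul, mul_div_assoc', le_div_iff₀ h3,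
    one_mul]
  exact h2

omit [Fintype ι] in
/-- The tubes of one branch against one slab. -/
theorem branch_bound {K : ℕ} {A N : ℝ} (hN : 1 ≤ N) (hA : 0 ≤ A) (θ : ι → Cap d)
    (c : ι → Sp d)
    (hK : ∀ z : Fin d → ℤ, ∀ s : Finset ι, (∀ i ∈ s, cell N (θ i) = z) → s.card ≤ K)
    (b : OrthonormalBasis (Fin d) ℝ (EuclideanSpace ℝ (Fin d))) (t : Fin d → ℝ)
    (k : Fin d) (h : Hyp d) (hb : h.normal = b k) (hs : |h.slope| ≤ 1 + 3 * A)
    (s : Finset ι)
    (hclose : ∀ i ∈ s, ∀ j : Fin d, j < k → N * |⟪b j, (θ i).vec⟫_ℝ - t j| ≤ 3 * A) :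
    ∑ i ∈ s, volume (tube N (θ i) (c i) ∩ h.slab (A * N)) ≤
      ENNReal.ofReal (((1 + 3 * (A + d * (3 + 6 * A) / 2)) * 2 * (2 * (2 + 3 * A + d)) ^ d *
        (4 + 2 * Real.log (4 + 3 * A) + 2)) * K * (1 + Real.log N) *
          (N ^ (d - (k.val + 1)) * N ^ (d + 2))) := by
  classical
  have hN0 : 0 < N := by linarith
  have hlogN : 0 ≤ Real.log N := Real.log_nonneg hN
  have hu : ‖h.normal‖ = 1 := by rw [hb]; exact b.norm_eq_one k
  set C0 : ℝ := 1 + 3 * (A + d * (3 + 6 * A) / 2) with hC0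
  have hC0' : (1 + 3 * (A + d * (1 + 2 * (1 + 3 * A)) / 2)) = C0 := by rw [hC0]; ring
  have hC0pos : 0 < C0 := by positivity
  set p : ι → ℤ := fun i => ⌊N * (⟪b k, (θ i).vec⟫_ℝ - h.slope)⌋ with hp
  have hvol : ∀ i ∈ s, volume (tube N (θ i) (c i) ∩ h.slab (A * N)) ≤
      ENNReal.ofReal (C0 * N ^ (d + 2) * (2 * (max 1 |((p i : ℤ) : ℝ)|)⁻¹)) := by
    intro i _
    refine (volume_tube_hyp hN hA (by positivity) (θ i) (c i) h hu hs).trans ?_
    rw [hC0']
    apply ENNReal.ofReal_le_ofReal
    apply mul_le_mul_of_nonneg_left _ (by positivity)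
    have e1 : N * |h.slope - ⟪h.normal, (θ i).vec⟫_ℝ| =
        |N * (⟪b k, (θ i).vec⟫_ℝ - h.slope)| := by
      rw [abs_mul, abs_of_pos hN0, abs_sub_comm, hb]
    rw [e1]
    exact inv_max_floor_le _
  refine (Finset.sum_le_sum hvol).trans ?_
  rw [← ENNReal.ofReal_sum_of_nonneg (fun i _ => by positivity), ← Finset.mul_sum,
    ← Finset.mul_sum]
  apply ENNReal.ofReal_le_ofReal
  set P : ℕ := ⌈(3 + 3 * A) * N⌉₊ with hP
  have hP1 : 1 ≤ P := by
    rw [hP, Nat.one_le_ceil_iff]; positivity
  have hPN : (P : ℝ) ≤ (4 + 3 * A) * N := by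
    have := Nat.ceil_lt_add_one (a := (3 + 3 * A) * N) (by positivity)
    rw [← hP] at this
    nlinarith
  have hpP : ∀ a ∈ s, |p a| ≤ P := by
    intro a _
    have h1 := abs_inner_vec_le (b.norm_eq_one k) (θ a)
    rw [abs_le] at h1 hs
    have h2 := Nat.le_ceil ((3 + 3 * A) * N)
    rw [← hP] at h2
    have h3 : N * (⟪b k, (θ a).vec⟫_ℝ - h.slope) ≤ (2 + 3 * A) * N := by
      nlinarith [h1.1, h1.2, hs.1, hs.2]
    have h4 : -((2 + 3 * A) * N) ≤ N * (⟪b k, (θ a).vec⟫_ℝ - h.slope) := by
      nlinarith [h1.1, h1.2, hs.1, hs.2]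
    have h5 := Int.floor_le (N * (⟪b k, (θ a).vec⟫_ℝ - h.slope))
    have h6 := Int.lt_floor_add_one (N * (⟪b k, (θ a).vec⟫_ℝ - h.slope))
    rw [abs_le]
    constructor
    · have : ((-(P:ℤ) : ℤ) : ℝ) ≤ ((p a : ℤ) : ℝ) := by
        push_cast
        rw [hp]
        linarith
      exact_mod_cast this
    · have : ((p a : ℤ) : ℝ) ≤ (((P:ℤ) : ℤ) : ℝ) := by
        push_cast
        rw [hp]
        linarith
      exact_mod_cast this
  set M : ℝ := K * ((2 * (1 + (1 + 3 * A) + d)) ^ d * N ^ (d - (k.val + 1))) with hM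
  have hMnn : 0 ≤ M := by positivity
  have hfib : ∀ z : ℤ, ∀ s' ⊆ s, (∀ a ∈ s', p a = z) → (s'.card : ℝ) ≤ M := by
    intro z s' hs' hz
    apply card_flat_le hN θ hK b (fun j => if j < k then t j else h.slope + z / N)
      (by positivity) (k.val + 1) k.isLt s'
    intro i hi j hj
    rcases lt_or_eq_of_le (Nat.lt_succ_iff.1 hj) with hjk | hjk
    · have hjk' : j < k := hjk
      rw [if_pos hjk']
      refine (hclose i (hs' hi) j hjk').trans (by linarith)
    · have hjk' : j = k := Fin.ext hjk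
      subst hjk'
      rw [if_neg (lt_irrefl _)]
      have h5 := Int.floor_le (N * (⟪b j, (θ i).vec⟫_ℝ - h.slope))
      have h6 := Int.lt_floor_add_one (N * (⟪b j, (θ i).vec⟫_ℝ - h.slope))
      have h7 : ⌊N * (⟪b j, (θ i).vec⟫_ℝ - h.slope)⌋ = z := hz i hi
      rw [h7] at h5 h6
      have e1 : N * |⟪b j, (θ i).vec⟫_ℝ - (h.slope + z / N)| =
          |N * (⟪b j, (θ i).vec⟫_ℝ - h.slope) - z| := by
        rw [← abs_of_pos hN0, ← abs_mul, abs_of_pos hN0]
        congr 1
        field_simp
        ring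
      rw [e1, abs_le]
      constructor <;> linarith
  have hsum := sum_inv_fiber_le s p hP1 hpP hMnn hfib
  have hlogP : Real.log P ≤ Real.log (4 + 3 * A) + Real.log N := by
    rw [← Real.log_mul (by positivity) hN0.ne']
    apply Real.log_le_log _ hPN
    exact_mod_cast hP1
  have hlogA : 0 ≤ Real.log (4 + 3 * A) := Real.log_nonneg (by linarith)
  have hfin : 4 + 2 * Real.log P ≤ (4 + 2 * Real.log (4 + 3 * A) + 2) * (1 + Real.log N) := by
    nlinarith
  calc C0 * N ^ (d + 2) * (2 * ∑ i ∈ s, (max 1 |((p i : ℤ) : ℝ)|)⁻¹)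
      ≤ C0 * N ^ (d + 2) * (2 * (M * (4 + 2 * Real.log P))) := by gcongr
    _ ≤ C0 * N ^ (d + 2) * (2 * (M * ((4 + 2 * Real.log (4 + 3 * A) + 2) *
        (1 + Real.log N)))) := by gcongr
    _ = _ := by
        rw [hM]
        have e1 : (1 + (1 + 3 * A) + (d:ℝ)) = 2 + 3 * A + d := by ring
        rw [e1]
        ring

/-- the constant of the critical bound -/
noncomputable def flagConst (d : ℕ) (A : ℝ) : ℝ :=
  ((1 + 3 * (A + d * (3 + 6 * A) / 2)) * 2 * (2 * (2 + 3 * A + d)) ^ d *
        (4 + 2 * Real.log (4 + 3 * A) + 2))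

theorem flagConst_pos (d : ℕ) {A : ℝ} (hA : 0 ≤ A) : 0 < flagConst d A := by
  have hlogA : 0 ≤ Real.log (4 + 3 * A) := Real.log_nonneg (by linarith)
  unfold flagConst
  positivity

theorem measurableSet_slab (h : Hyp d) (w : ℝ) : MeasurableSet (h.slab w) := by
  have hc : Continuous fun x : Sp d => |∑ i : Fin d, h.normal i * x i.castSucc +
      2 * h.slope * x (Fin.last d) - h.offset| := by fun_prop
  exact (isClosed_le hc continuous_const).measurableSet

/-- The estimate at the critical exponent, in terms of codes. -/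
theorem flag_critical (hd : 0 < d) {K : ℕ} {A N : ℝ} (hN : 1 ≤ N) (hA : 0 ≤ A)
    (θ : ι → Cap d) (c : ι → Sp d)
    (hK : ∀ z : Fin d → ℤ, ∀ s : Finset ι, (∀ i ∈ s, cell N (θ i) = z) → s.card ≤ K)
    (code : ι → Fin d → ℤ) (hinj : Function.Injective code) (H : Fin d → ι → Hyp d)
    (R : Fin d → Finset ι) (hH : ∀ k i i', code i k = code i' k → H k i = H k i')
    (hsub : ∀ i k, tube N (θ i) (c i) ⊆ (H k i).slab (A * N))
    (hR : ∀ k i, ∃ ρ ∈ R k, ∀ j ≤ k, code ρ j = code i j)
    (b : ι → OrthonormalBasis (Fin d) ℝ (EuclideanSpace ℝ (Fin d)))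
    (hb : ∀ k i, (H k i).normal = b i k)
    (w : Fin d → ℝ) (hw : ∀ k, 0 < w k) (hprod : ∏ k, w k = 1) :
    ∫⁻ x, ENNReal.ofReal ((mult N θ c x) ^ (1 + 1 / (d:ℝ))) ≤
      ENNReal.ofReal (1 / d * ∑ k : Fin d, w k * ((R k).card *
        (flagConst d A * K * (1 + Real.log N) *
          (N ^ (d - (k.val + 1)) * N ^ (d + 2))))) := by
  classical
  have hd' : (0:ℝ) < d := by exact_mod_cast hd
  have hN0 : 0 < N := by linarith
  have hlogN : 0 ≤ Real.log N := Real.log_nonneg hN
  have hF := flagConst_pos d hA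
  have hmeas : ∀ (i ρ : ι) (k : Fin d),
      MeasurableSet (tube N (θ i) (c i) ∩ (H k ρ).slab (A * N)) := by
    intro i ρ k
    exact (measurableSet_tube _ _ _).inter (measurableSet_slab _ _)
  have hbranch : ∀ (k : Fin d) (ρ : ι), ∑ i ∈ Finset.univ.filter
        (fun i => ∀ j < k, code i j = code ρ j),
        volume (tube N (θ i) (c i) ∩ (H k ρ).slab (A * N)) ≤
        ENNReal.ofReal (flagConst d A * K * (1 + Real.log N) *
          (N ^ (d - (k.val + 1)) * N ^ (d + 2))) := by
    intro k ρ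
    apply branch_bound hN hA θ c hK (b ρ) (fun j => (H j ρ).slope) k (H k ρ) (hb k ρ)
    · refine slope_le hN (θ ρ) (c ρ) (H k ρ) ?_ (hsub ρ k)
      rw [hb k ρ]; exact (b ρ).norm_eq_one k
    · intro i hi j hj
      have h1 : code i j = code ρ j := (Finset.mem_filter.1 hi).2 j hj
      have h2 := slope_close hN (θ i) (c i) (H j i) (hsub i j)
      rw [hH j i ρ h1, hb j ρ] at h2
      rw [abs_sub_comm]
      exact h2
  calc ∫⁻ x, ENNReal.ofReal ((mult N θ c x) ^ (1 + 1 / (d:ℝ)))
      ≤ ∫⁻ x, ENNReal.ofReal (1 / d * ∑ k : Fin d, w k * ∑ ρ ∈ R k, ∑ i ∈ Finset.univ.filter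
        (fun i => ∀ j < k, code i j = code ρ j),
        (tube N (θ i) (c i) ∩ (H k ρ).slab (A * N)).indicator (fun _ => (1:ℝ)) x) := by
        apply lintegral_mono
        intro x
        apply ENNReal.ofReal_le_ofReal
        have h := flag_pointwise hd θ c code hinj H R hH hsub hR w hw hprod x
        rw [one_div_mul_eq_div, le_div_iff₀ hd', mul_comm]
        exact h
    _ = ENNReal.ofReal (1 / d) * ∑ k : Fin d, ENNReal.ofReal (w k) *
        ∑ ρ ∈ R k, ∑ i ∈ Finset.univ.filter
        (fun i => ∀ j < k, code i j = code ρ j),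
        volume (tube N (θ i) (c i) ∩ (H k ρ).slab (A * N)) := by
        have e1 : ∀ x : Sp d, ENNReal.ofReal (1 / d * ∑ k : Fin d, w k *
            ∑ ρ ∈ R k, ∑ i ∈ Finset.univ.filter
            (fun i => ∀ j < k, code i j = code ρ j),
            (tube N (θ i) (c i) ∩ (H k ρ).slab (A * N)).indicator (fun _ => (1:ℝ)) x) =
            ENNReal.ofReal (1 / d) * ∑ k : Fin d, ENNReal.ofReal (w k) *
            ∑ ρ ∈ R k, ∑ i ∈ Finset.univ.filter
            (fun i => ∀ j < k, code i j = code ρ j),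
            (tube N (θ i) (c i) ∩ (H k ρ).slab (A * N)).indicator (fun _ => (1:ℝ≥0∞)) x := by
          intro x
          rw [ENNReal.ofReal_mul (by positivity)]
          congr 1
          have hnn : ∀ (s : Set (Sp d)), 0 ≤ s.indicator (fun _ => (1:ℝ)) x := fun s =>
            Set.indicator_nonneg (fun _ _ => zero_le_one) _
          rw [ENNReal.ofReal_sum_of_nonneg (fun k _ => mul_nonneg (hw k).le
            (Finset.sum_nonneg fun ρ _ => Finset.sum_nonneg fun i _ => hnn _))]
          apply Finset.sum_congr rfl; intro k _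
          rw [ENNReal.ofReal_mul (hw k).le]
          congr 1
          rw [ENNReal.ofReal_sum_of_nonneg (fun ρ _ => Finset.sum_nonneg fun i _ => hnn _)]
          apply Finset.sum_congr rfl; intro ρ _
          rw [ENNReal.ofReal_sum_of_nonneg (fun i _ => hnn _)]
          apply Finset.sum_congr rfl; intro i _
          by_cases h : x ∈ tube N (θ i) (c i) ∩ (H k ρ).slab (A * N)
          · rw [Set.indicator_of_mem h, Set.indicator_of_mem h, ENNReal.ofReal_one]
          · rw [Set.indicator_of_notMem h, Set.indicator_of_notMem h, ENNReal.ofReal_zero]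
        simp_rw [e1]
        rw [lintegral_const_mul' _ _ ENNReal.ofReal_ne_top]
        congr 1
        have hm1 : ∀ (k : Fin d) (ρ : ι), Measurable fun x : Sp d => ∑ i ∈ Finset.univ.filter
            (fun i => ∀ j < k, code i j = code ρ j),
            (tube N (θ i) (c i) ∩ (H k ρ).slab (A * N)).indicator (fun _ => (1:ℝ≥0∞)) x :=
          fun k ρ => Finset.measurable_sum _ fun i _ => measurable_const.indicator (hmeas i ρ k)
        have hm2 : ∀ (k : Fin d), Measurable fun x : Sp d => ∑ ρ ∈ R k,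
            ∑ i ∈ Finset.univ.filter (fun i => ∀ j < k, code i j = code ρ j),
            (tube N (θ i) (c i) ∩ (H k ρ).slab (A * N)).indicator (fun _ => (1:ℝ≥0∞)) x :=
          fun k => Finset.measurable_sum _ fun ρ _ => hm1 k ρ
        rw [lintegral_finsetSum _ (fun k _ => (hm2 k).const_mul _)]
        apply Finset.sum_congr rfl; intro k _
        rw [lintegral_const_mul' _ _ ENNReal.ofReal_ne_top]
        congr 1
        rw [lintegral_finsetSum _ (fun ρ _ => hm1 k ρ)]
        apply Finset.sum_congr rfl; intro ρ _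
        rw [lintegral_finsetSum _ (fun i _ => measurable_const.indicator (hmeas i ρ k))]
        apply Finset.sum_congr rfl; intro i _
        rw [lintegral_indicator_const (hmeas i ρ k), one_mul]
    _ ≤ ENNReal.ofReal (1 / d) * ∑ k : Fin d, ENNReal.ofReal (w k) *
        ∑ _ρ ∈ R k, ENNReal.ofReal (flagConst d A * K * (1 + Real.log N) *
          (N ^ (d - (k.val + 1)) * N ^ (d + 2))) := by
        gcongr with k _ ρ _
        exact hbranch k ρ
    _ = _ := by
        rw [ENNReal.ofReal_mul (by positivity), ENNReal.ofReal_sum_of_nonneg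
          (fun k _ => mul_nonneg (hw k).le (by positivity))]
        congr 1
        apply Finset.sum_congr rfl; intro k _
        rw [ENNReal.ofReal_mul (hw k).le, Finset.sum_const, nsmul_eq_mul,
          ENNReal.ofReal_mul (Nat.cast_nonneg _), ENNReal.ofReal_natCast]

end Pool.Agent.MPac5134
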