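import Pool.Agent.Lib.MP_ac5134_an.FlagGeom

/-!
Counting caps whose feet are close to a flat, and a logarithmic sum.
-/

namespace Pool.Agent.MPac5134

open MeasureTheory
open scoped ENNReal InnerProductSpace

variable {d : ℕ}

theorem volume_basis_box (b : OrthonormalBasis (Fin d) ℝ (EuclideanSpace ℝ (Fin d)))
    (lo hi : Fin d → ℝ) :
    volume {x : EuclideanSpace ℝ (Fin d) | ∀ i, ⟪b i, x⟫_ℝ ∈ Set.Icc (lo i) (hi i)} =
      ∏ i, ENNReal.ofReal (hi i - lo i) := by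
  have h2 := b.measurePreserving_repr
  have h3 := PiLp.volume_preserving_ofLp (Fin d)
  have h := h3.comp h2
  have hset : {x : EuclideanSpace ℝ (Fin d) | ∀ i, ⟪b i, x⟫_ℝ ∈ Set.Icc (lo i) (hi i)} =
      (@WithLp.ofLp 2 (Fin d → ℝ) ∘ b.repr) ⁻¹' (Set.Icc lo hi) := by
    ext x
    simp only [Set.mem_ofPred_eq, Set.mem_preimage, Function.comp_apply, Set.mem_Icc,
      Pi.le_def, ← forall_and]
    apply forall_congr'
    intro i
    rw [← b.repr_apply_apply]
  rw [hset, h.measure_preimage measurableSet_Icc.nullMeasurableSet, Real.volume_Icc_pi]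

/-- the cube of the grid `(1/N) Z^d` with index `z` -/
def cube (N : ℝ) (z : Fin d → ℤ) : Set (EuclideanSpace ℝ (Fin d)) :=
  {x | ∀ i, x i ∈ Set.Ico ((z i : ℝ) / N) (((z i : ℝ) + 1) / N)}

theorem cube_eq (N : ℝ) (z : Fin d → ℤ) : cube N z = @WithLp.ofLp 2 (Fin d → ℝ) ⁻¹'
    (Set.univ.pi fun i => Set.Ico ((z i : ℝ) / N) (((z i : ℝ) + 1) / N)) := by
  ext x
  simp [cube]

theorem measurableSet_cube (N : ℝ) (z : Fin d → ℤ) : MeasurableSet (cube N z) := by
  rw [cube_eq]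
  exact (PiLp.volume_preserving_ofLp (Fin d)).measurable
    (MeasurableSet.univ_pi fun i => measurableSet_Ico)

theorem volume_cube {N : ℝ} (hN : 0 < N) (z : Fin d → ℤ) :
    volume (cube N z) = ENNReal.ofReal (1 / N) ^ d := by
  rw [cube_eq, (PiLp.volume_preserving_ofLp (Fin d)).measure_preimage
    (MeasurableSet.univ_pi fun i => measurableSet_Ico).nullMeasurableSet, Real.volume_pi_Ico]
  have : ∀ i : Fin d, ((z i : ℝ) + 1) / N - (z i : ℝ) / N = 1 / N := by
    intro i; field_simp; ring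
  simp only [this, Finset.prod_const, Finset.card_univ, Fintype.card_fin]

theorem cube_disjoint {N : ℝ} (hN : 0 < N) {z z' : Fin d → ℤ} (h : z ≠ z') :
    Disjoint (cube N z) (cube N z') := by
  rw [Set.disjoint_left]
  intro x hx hx'
  apply h
  ext i
  have h1 := hx i
  have h2 := hx' i
  rw [Set.mem_Ico, div_le_iff₀ hN, lt_div_iff₀ hN] at h1 h2
  have e1 : ⌊x i * N⌋ = z i := Int.floor_eq_iff.2 h1
  have e2 : ⌊x i * N⌋ = z' i := Int.floor_eq_iff.2 h2
  rw [← e1, ← e2]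

theorem vec_mem_cube {N : ℝ} (hN : 0 < N) (θ : Cap d) : θ.vec ∈ cube N (cell N θ) := by
  intro i
  have h1 := Int.floor_le (N * θ.foot i)
  have h2 := Int.lt_floor_add_one (N * θ.foot i)
  have e : θ.vec i = θ.foot i := rfl
  rw [e, Set.mem_Ico, div_le_iff₀ hN, lt_div_iff₀ hN, mul_comm]
  exact ⟨h1, h2⟩

theorem dist_in_cube {N : ℝ} (hN : 0 < N) (z : Fin d → ℤ) {x y : EuclideanSpace ℝ (Fin d)}
    (hx : x ∈ cube N z) (hy : y ∈ cube N z) : ‖x - y‖ ≤ d / N := by
  have h1 : ∀ i, |(x - y) i| ≤ 1 / N := by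
    intro i
    have h2 := hx i
    have h3 := hy i
    rw [Set.mem_Ico] at h2 h3
    have e : ((z i : ℝ) + 1) / N = (z i : ℝ) / N + 1 / N := by field_simp
    rw [e] at h2 h3
    rw [PiLp.sub_apply, abs_le]
    constructor <;> linarith [h2.1, h2.2, h3.1, h3.2]
  have h2 : ‖x - y‖ ^ 2 ≤ (d / N) ^ 2 := by
    rw [EuclideanSpace.norm_eq, Real.sq_sqrt (Finset.sum_nonneg fun i _ => sq_nonneg _)]
    calc ∑ i, ‖(x - y) i‖ ^ 2 ≤ ∑ _i : Fin d, (1 / N) ^ 2 := by
          apply Finset.sum_le_sum; intro i _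
          rw [Real.norm_eq_abs]
          gcongr
          exact h1 i
      _ = d * (1 / N) ^ 2 := by simp
      _ ≤ d ^ 2 * (1 / N) ^ 2 := by
          apply mul_le_mul_of_nonneg_right _ (by positivity)
          rcases Nat.eq_zero_or_pos d with h | h
          · rw [h]; norm_num
          · have : (1:ℝ) ≤ d := by exact_mod_cast h
            nlinarith
      _ = (d / N) ^ 2 := by rw [← mul_pow, mul_one_div]
  exact le_of_sq_le_sq' h2 (by positivity)
where
  le_of_sq_le_sq' {a b : ℝ} (h : a ^ 2 ≤ b ^ 2) (hb : 0 ≤ b) : a ≤ b := by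
    have := abs_le_abs_of_sq_le_sq h
    rw [abs_of_nonneg hb] at this
    exact (le_abs_self a).trans this
  abs_le_abs_of_sq_le_sq {a b : ℝ} (h : a ^ 2 ≤ b ^ 2) : |a| ≤ |b| := sq_le_sq.1 h

/-- Few caps have their foot near a flat of codimension `k`. -/
theorem card_flat_le {ι : Type*} {K : ℕ} {N : ℝ} (hN : 1 ≤ N) (θ : ι → Cap d)
    (hK : ∀ z : Fin d → ℤ, ∀ s : Finset ι, (∀ i ∈ s, cell N (θ i) = z) → s.card ≤ K)
    (b : OrthonormalBasis (Fin d) ℝ (EuclideanSpace ℝ (Fin d))) (t : Fin d → ℝ) {D : ℝ}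
    (hD : 0 ≤ D) (k : ℕ) (hk : k ≤ d) (s : Finset ι)
    (hs : ∀ i ∈ s, ∀ j : Fin d, j.val < k → N * |⟪b j, (θ i).vec⟫_ℝ - t j| ≤ D) :
    (s.card : ℝ) ≤ K * ((2 * (1 + D + d)) ^ d * N ^ (d - k)) := by
  classical
  have hN0 : 0 < N := by linarith
  have hd0 : (0:ℝ) ≤ d := Nat.cast_nonneg d
  set s' : Finset (Fin d → ℤ) := s.image (fun i => cell N (θ i)) with hs'
  have hcard : s.card ≤ K * s'.card := by
    apply Finset.card_le_mul_card_image
    intro z _
    apply hK z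
    intro i hi
    exact (Finset.mem_filter.1 hi).2
  set lo : Fin d → ℝ := fun j => if j.val < k then t j - (D + d) / N else -(1 + d) with hlo
  set hi : Fin d → ℝ := fun j => if j.val < k then t j + (D + d) / N else (1 + d) with hhi
  have hsub : (⋃ z ∈ s', cube N z) ⊆
      {x : EuclideanSpace ℝ (Fin d) | ∀ i, ⟪b i, x⟫_ℝ ∈ Set.Icc (lo i) (hi i)} := by
    intro x hx
    rw [Set.mem_iUnion₂] at hx
    obtain ⟨z, hz, hxz⟩ := hx
    obtain ⟨i, his, hiz⟩ := Finset.mem_image.1 hz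
    have hv : (θ i).vec ∈ cube N z := by
      rw [← hiz]; exact vec_mem_cube hN0 (θ i)
    have hdist := dist_in_cube hN0 z hxz hv
    have hdN : (d:ℝ) / N ≤ d := by
      rw [div_le_iff₀ hN0]; nlinarith
    intro j
    have hin : |⟪b j, x⟫_ℝ - ⟪b j, (θ i).vec⟫_ℝ| ≤ d / N := by
      rw [← inner_sub_right]
      calc _ ≤ ‖b j‖ * ‖x - (θ i).vec‖ := abs_real_inner_le_norm _ _
        _ ≤ 1 * (d / N) := by rw [b.norm_eq_one]; gcongr
        _ = d / N := one_mul _
    rw [abs_le] at hin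
    simp only [hlo, hhi]
    by_cases hj : j.val < k
    · rw [if_pos hj, if_pos hj, Set.mem_Icc]
      have h1 := hs i his j hj
      have h2 : |⟪b j, (θ i).vec⟫_ℝ - t j| ≤ D / N := by
        rw [le_div_iff₀ hN0, mul_comm]; exact h1
      rw [abs_le] at h2
      rw [add_div]
      constructor <;> linarith [h2.1, h2.2, hin.1, hin.2]
    · rw [if_neg hj, if_neg hj, Set.mem_Icc]
      have h2 := abs_inner_vec_le (b.norm_eq_one j) (θ i)
      rw [abs_le] at h2
      constructor <;> linarith [h2.1, h2.2, hin.1, hin.2]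
  have hvol := measure_mono (μ := volume) hsub
  rw [volume_basis_box, measure_biUnion_finset (fun z _ z' _ h => cube_disjoint hN0 h)
    (fun z _ => measurableSet_cube N z)] at hvol
  simp only [volume_cube hN0, Finset.sum_const, nsmul_eq_mul] at hvol
  have hside : ∀ j : Fin d, ENNReal.ofReal (hi j - lo j) ≤
      ENNReal.ofReal (2 * (1 + D + d)) * ENNReal.ofReal (if j.val < k then 1 / N else 1) := by
    intro j
    rw [← ENNReal.ofReal_mul (by positivity)]
    apply ENNReal.ofReal_le_ofReal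
    simp only [hlo, hhi]
    by_cases hj : j.val < k
    · rw [if_pos hj, if_pos hj, if_pos hj]
      have : t j + (D + d) / N - (t j - (D + d) / N) = 2 * (D + d) * (1 / N) := by ring
      rw [this]
      gcongr
      linarith
    · rw [if_neg hj, if_neg hj, if_neg hj]
      linarith
  have hprod : ∏ j : Fin d, ENNReal.ofReal (hi j - lo j) ≤
      ENNReal.ofReal ((2 * (1 + D + d)) ^ d * (1 / N) ^ k) := by
    refine (Finset.prod_le_prod' fun j _ => hside j).trans ?_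
    rw [Finset.prod_mul_distrib, Finset.prod_const, Finset.card_univ, Fintype.card_fin,
      ENNReal.ofReal_mul (p := (2 * (1 + D + d)) ^ d) (by positivity),
      ENNReal.ofReal_pow (p := 2 * (1 + D + d)) (by positivity)]
    gcongr
    have e1 : ∏ j : Fin d, ENNReal.ofReal (if j.val < k then 1 / N else 1) =
        ∏ j ∈ Finset.univ.filter (fun j : Fin d => j.val < k), ENNReal.ofReal (1 / N) := by
      rw [Finset.prod_filter]
      apply Finset.prod_congr rfl
      intro j _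
      by_cases hj : j.val < k
      · rw [if_pos hj, if_pos hj]
      · rw [if_neg hj, if_neg hj, ENNReal.ofReal_one]
    have e2 : (Finset.univ.filter (fun j : Fin d => j.val < k)).card = k := by
      rw [Fin.card_filter_val_lt]
      exact min_eq_right hk
    rw [e1, Finset.prod_const, e2, ENNReal.ofReal_pow (by positivity)]
  have h5 := hvol.trans hprod
  rw [← ENNReal.ofReal_pow (by positivity), ← ENNReal.ofReal_natCast,
    ← ENNReal.ofReal_mul (by positivity), ENNReal.ofReal_le_ofReal_iff (by positivity)] at h5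
  have h6 : (s'.card : ℝ) ≤ (2 * (1 + D + d)) ^ d * N ^ (d - k) := by
    have e3 : N ^ d = N ^ (d - k) * N ^ k := by rw [← pow_add]; congr 1; omega
    have e4 : (s'.card : ℝ) = (s'.card * (1 / N) ^ d) * N ^ d := by
      rw [mul_assoc, ← mul_pow, one_div, inv_mul_cancel₀ hN0.ne', one_pow, mul_one]
    rw [e4]
    calc (s'.card * (1 / N) ^ d) * N ^ d
        ≤ ((2 * (1 + D + d)) ^ d * (1 / N) ^ k) * N ^ d := by gcongr
      _ = (2 * (1 + D + d)) ^ d * N ^ (d - k) * ((1 / N) ^ k * N ^ k) := by rw [e3]; ring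
      _ = _ := by
          rw [← mul_pow, one_div, inv_mul_cancel₀ hN0.ne', one_pow, mul_one]
  calc (s.card : ℝ) ≤ ((K * s'.card : ℕ) : ℝ) := by exact_mod_cast hcard
    _ = K * s'.card := by push_cast; rfl
    _ ≤ _ := by gcongr

/-- a logarithmic sum over the integers `|z| ≤ P` -/
theorem sum_inv_int_le {P : ℕ} (hP : 1 ≤ P) :
    ∑ z ∈ Finset.Icc (-(P:ℤ)) P, (max 1 |(z : ℝ)|)⁻¹ ≤ 4 + 2 * Real.log P := by
  classical
  have h1 : Finset.Icc (-(P:ℤ)) P ⊆ {0} ∪ ((Finset.Icc 1 P).image (fun n : ℕ => (n:ℤ)) ∪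
      (Finset.Icc 1 P).image (fun n : ℕ => -(n:ℤ))) := by
    intro z hz
    rw [Finset.mem_Icc] at hz
    simp only [Finset.mem_union, Finset.mem_singleton, Finset.mem_image, Finset.mem_Icc]
    rcases lt_trichotomy z 0 with h | h | h
    · right; right
      exact ⟨z.natAbs, ⟨by omega, by omega⟩, by omega⟩
    · left; exact h
    · right; left
      exact ⟨z.natAbs, ⟨by omega, by omega⟩, by omega⟩
  have hf : ∀ z : ℤ, 0 ≤ (max 1 |(z : ℝ)|)⁻¹ := fun z => by positivity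
  have hunion : ∀ (A B : Finset ℤ), ∑ z ∈ A ∪ B, (max 1 |(z : ℝ)|)⁻¹ ≤
      ∑ z ∈ A, (max 1 |(z : ℝ)|)⁻¹ + ∑ z ∈ B, (max 1 |(z : ℝ)|)⁻¹ := by
    intro A B
    have := Finset.sum_union_inter (s₁ := A) (s₂ := B) (f := fun z : ℤ => (max 1 |(z : ℝ)|)⁻¹)
    have h0 : 0 ≤ ∑ z ∈ A ∩ B, (max 1 |(z : ℝ)|)⁻¹ := Finset.sum_nonneg fun z _ => hf z
    linarith
  have hharm : ∑ n ∈ Finset.Icc 1 P, ((n:ℝ))⁻¹ ≤ 1 + Real.log P := by
    have h := harmonic_le_one_add_log P
    rw [harmonic_eq_sum_Icc] at h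
    push_cast at h
    exact h
  have hpos : ∀ (g : ℕ → ℤ) (hg : Function.Injective g)
      (_ : ∀ n : ℕ, |((g n : ℤ) : ℝ)| = n),
      ∑ z ∈ (Finset.Icc 1 P).image g, (max 1 |(z : ℝ)|)⁻¹ ≤ 1 + Real.log P := by
    intro g hg habs
    rw [Finset.sum_image fun a _ b _ hab => hg hab]
    refine le_trans (le_of_eq ?_) hharm
    apply Finset.sum_congr rfl
    intro n hn
    rw [Finset.mem_Icc] at hn
    have : (1:ℝ) ≤ n := by exact_mod_cast hn.1
    rw [habs, max_eq_right this]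
  have hA := hpos (fun n : ℕ => (n:ℤ)) (fun a b h => by simpa using h) (fun n => by simp)
  have hB := hpos (fun n : ℕ => -(n:ℤ)) (fun a b h => by simpa using h) (fun n => by simp)
  calc ∑ z ∈ Finset.Icc (-(P:ℤ)) P, (max 1 |(z : ℝ)|)⁻¹
      ≤ ∑ z ∈ {0} ∪ ((Finset.Icc 1 P).image (fun n : ℕ => (n:ℤ)) ∪
      (Finset.Icc 1 P).image (fun n : ℕ => -(n:ℤ))), (max 1 |(z : ℝ)|)⁻¹ :=
        Finset.sum_le_sum_of_subset_of_nonneg h1 fun z _ _ => hf z
    _ ≤ ∑ z ∈ ({0} : Finset ℤ), (max 1 |(z : ℝ)|)⁻¹ +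
        (∑ z ∈ (Finset.Icc 1 P).image (fun n : ℕ => (n:ℤ)), (max 1 |(z : ℝ)|)⁻¹ +
        ∑ z ∈ (Finset.Icc 1 P).image (fun n : ℕ => -(n:ℤ)), (max 1 |(z : ℝ)|)⁻¹) :=
        (hunion _ _).trans (add_le_add le_rfl (hunion _ _))
    _ ≤ 1 + ((1 + Real.log P) + (1 + Real.log P)) := by
        gcongr
        simp
    _ ≤ _ := by
        have : 0 ≤ Real.log P := Real.log_nonneg (by exact_mod_cast hP)
        linarith

/-- sorting a finite set by an integer-valued function -/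
theorem sum_inv_fiber_le {α : Type*} (s : Finset α) (p : α → ℤ) {P : ℕ} (hP : 1 ≤ P)
    (hp : ∀ a ∈ s, |p a| ≤ P) {M : ℝ} (hM : 0 ≤ M)
    (hfib : ∀ z : ℤ, ∀ s' ⊆ s, (∀ a ∈ s', p a = z) → (s'.card : ℝ) ≤ M) :
    ∑ a ∈ s, (max 1 |(p a : ℝ)|)⁻¹ ≤ M * (4 + 2 * Real.log P) := by
  classical
  have h1 : ∑ a ∈ s, (max 1 |(p a : ℝ)|)⁻¹ =
      ∑ z ∈ Finset.Icc (-(P:ℤ)) P, ∑ a ∈ s.filter (fun a => p a = z),
        (max 1 |(p a : ℝ)|)⁻¹ := by
    rw [Finset.sum_fiberwise_of_maps_to]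
    intro a ha
    have := hp a ha
    rw [abs_le] at this
    rw [Finset.mem_Icc]
    exact this
  rw [h1]
  calc ∑ z ∈ Finset.Icc (-(P:ℤ)) P, ∑ a ∈ s.filter (fun a => p a = z),
        (max 1 |(p a : ℝ)|)⁻¹
      ≤ ∑ z ∈ Finset.Icc (-(P:ℤ)) P, M * (max 1 |(z : ℝ)|)⁻¹ := by
        apply Finset.sum_le_sum
        intro z _
        have h2 : ∑ a ∈ s.filter (fun a => p a = z), (max 1 |(p a : ℝ)|)⁻¹ =
            (s.filter (fun a => p a = z)).card * (max 1 |(z : ℝ)|)⁻¹ := by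
          rw [← nsmul_eq_mul, ← Finset.sum_const]
          apply Finset.sum_congr rfl
          intro a ha
          rw [(Finset.mem_filter.1 ha).2]
        rw [h2]
        gcongr
        exact hfib z _ (Finset.filter_subset _ _) fun a ha => (Finset.mem_filter.1 ha).2
    _ = M * ∑ z ∈ Finset.Icc (-(P:ℤ)) P, (max 1 |(z : ℝ)|)⁻¹ := by rw [Finset.mul_sum]
    _ ≤ _ := by
        gcongr
        exact sum_inv_int_le hP

end Pool.Agent.MPac5134
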