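import Pool.Agent.Lib.MP_ac5134_an.FlagBound

/-!
The estimate at the critical exponent for flag-sorted families.
-/

namespace Pool.Agent.MPac5134

open MeasureTheory
open scoped ENNReal InnerProductSpace

theorem slab_mono {d : ℕ} (h : Hyp d) {w w' : ℝ} (hw : w ≤ w') : h.slab w ⊆ h.slab w' := by
  intro x hx
  rw [mem_slab] at hx ⊢
  exact hx.trans hw

/-- extension of `m` orthonormal vectors of `R^{m+1}` to a basis -/
theorem exists_basis {m : ℕ} (u : Fin m → EuclideanSpace ℝ (Fin (m + 1)))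
    (hu : Orthonormal ℝ u) : ∃ b : OrthonormalBasis (Fin (m + 1)) ℝ
      (EuclideanSpace ℝ (Fin (m + 1))), ∀ k : Fin m, b k.castSucc = u k := by
  classical
  set v : Fin (m + 1) → EuclideanSpace ℝ (Fin (m + 1)) :=
    Fin.snoc (α := fun _ => EuclideanSpace ℝ (Fin (m + 1))) u 0 with hv
  set s : Set (Fin (m + 1)) := {k | k.val < m} with hs
  have hrest : Orthonormal ℝ (s.domRestrict v) := by
    have e : s.domRestrict v = u ∘ (fun k : s => (⟨k.1.val, k.2⟩ : Fin m)) := by
      funext k
      obtain ⟨k, hk⟩ := k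
      have h1 : v k = v (⟨k.val, hk⟩ : Fin m).castSucc := congrArg v (Fin.ext rfl)
      have h2 : v (⟨k.val, hk⟩ : Fin m).castSucc = u ⟨k.val, hk⟩ := by
        rw [hv, Fin.snoc_castSucc]
      exact h1.trans h2
    rw [e]
    apply hu.comp
    intro a b hab
    apply Subtype.ext
    apply Fin.ext
    simpa using hab
  obtain ⟨b, hb⟩ := hrest.exists_orthonormalBasis_extension_of_card_eq (by simp)
  refine ⟨b, fun k => ?_⟩
  rw [hb k.castSucc (by simp [hs]), hv, Fin.snoc_castSucc]

/-- The estimate at the critical exponent for flag-sorted families. -/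
theorem flagSorted_critical {m : ℕ} {ι : Type*} [Fintype ι] {K : ℕ} {A Q κ N : ℝ} (hN : 1 ≤ N)
    (hA : 0 ≤ A) (hQ : 0 < Q) (hκ : 0 < κ) (θ : ι → Cap (m + 1)) (c : ι → Sp (m + 1))
    (hfam : IsCapFamily K κ N θ) (hfs : FlagSorted A Q N θ c) :
    ∫⁻ x, ENNReal.ofReal ((mult N θ c x) ^ (1 + 1 / ((m + 1 : ℕ) : ℝ))) ≤
      ENNReal.ofReal (flagConst (m + 1) (A + 3 * (m + 1) / 2) * K * (1 + 1 / κ) *
        Q ^ ((m : ℝ) / (m + 1)) * (1 + Real.log N) * (Fintype.card ι * N ^ (m + 1 + 2))) := by
  classical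
  have hN0 : 0 < N := by linarith
  have hlogN : 0 ≤ Real.log N := Real.log_nonneg hN
  have hcardpos : (0:ℝ) < Fintype.card ι := by
    refine lt_of_lt_of_le ?_ hfam.many
    positivity
  have : Nonempty ι := by
    rw [← Fintype.card_pos_iff]
    exact_mod_cast hcardpos
  obtain ⟨h, horth, hsub, hcount⟩ := hfs
  choose b hb using fun i => exists_basis (fun k => (h k i).normal) (horth i)
  set A' : ℝ := A + 3 * (m + 1) / 2 with hA'
  have hA'nn : 0 ≤ A' := by positivity
  set H : Fin (m + 1) → ι → Hyp (m + 1) := Fin.snoc (α := fun _ => ι → Hyp (m + 1)) h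
    (fun ρ => hypOf (b ρ (Fin.last m)) (θ ρ) (c ρ)) with hH
  have hHc : ∀ k : Fin m, H k.castSucc = h k := by
    intro k; rw [hH, Fin.snoc_castSucc]
  have hHl : H (Fin.last m) = fun ρ => hypOf (b ρ (Fin.last m)) (θ ρ) (c ρ) := by
    rw [hH, Fin.snoc_last]
  set e : ι → ℤ := fun i => ((Fintype.equivFin ι i : ℕ) : ℤ) with he
  have heinj : Function.Injective e := by
    intro i i' hii
    apply (Fintype.equivFin ι).injective
    apply Fin.ext
    have h1 : ((Fintype.equivFin ι i : ℕ) : ℤ) = ((Fintype.equivFin ι i' : ℕ) : ℤ) := hii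
    exact_mod_cast h1
  set code : ι → Fin (m + 1) → ℤ := fun i => Fin.snoc (α := fun _ => ℤ)
    (fun k : Fin m => e (Function.invFun (h k) (h k i))) (e i) with hcode
  have hcc : ∀ i (k : Fin m), code i k.castSucc = e (Function.invFun (h k) (h k i)) := by
    intro i k; rw [hcode]; simp only [Fin.snoc_castSucc]
  have hcl : ∀ i, code i (Fin.last m) = e i := by
    intro i; rw [hcode]; simp only [Fin.snoc_last]
  have hinj : Function.Injective code := by
    intro i i' hii
    apply heinj
    rw [← hcl, ← hcl, hii]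
  have hHcode : ∀ k i i', code i k = code i' k → H k i = H k i' := by
    intro k i i' hk
    induction k using Fin.lastCases with
    | last =>
      rw [hcl, hcl] at hk
      rw [heinj hk]
    | cast k =>
      rw [hcc, hcc] at hk
      rw [hHc]
      have h1 := heinj hk
      have h2 : h k (Function.invFun (h k) (h k i)) = h k i :=
        Function.invFun_eq ⟨i, rfl⟩
      have h3 : h k (Function.invFun (h k) (h k i')) = h k i' :=
        Function.invFun_eq ⟨i', rfl⟩
      rw [← h2, ← h3, h1]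
  have hsub' : ∀ i k, tube N (θ i) (c i) ⊆ (H k i).slab (A' * N) := by
    intro i k
    induction k using Fin.lastCases with
    | last =>
      rw [hHl]
      refine (tube_subset_hypOf hN (b i (Fin.last m)) ((b i).norm_eq_one _) (θ i) (c i)).trans ?_
      apply slab_mono
      apply mul_le_mul_of_nonneg_right _ hN0.le
      rw [hA']; push_cast
      linarith
    | cast k =>
      rw [hHc]
      refine (hsub i k).trans ?_
      apply slab_mono
      apply mul_le_mul_of_nonneg_right _ hN0.le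
      rw [hA']
      have : (0:ℝ) ≤ 3 * (m + 1) / 2 := by positivity
      linarith
  set F : (k : Fin m) → ι → ({j : Fin m // j ≤ k} → Hyp (m + 1)) :=
    fun k i j => h j i with hF
  set R : Fin (m + 1) → Finset ι := Fin.snoc (α := fun _ => Finset ι)
    (fun k : Fin m => Finset.univ.image fun i => Function.invFun (F k) (F k i))
    Finset.univ with hR
  have hRc : ∀ k : Fin m, R k.castSucc = Finset.univ.image fun i =>
      Function.invFun (F k) (F k i) := by
    intro k; rw [hR, Fin.snoc_castSucc]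
  have hRl : R (Fin.last m) = Finset.univ := by rw [hR, Fin.snoc_last]
  have hRrep : ∀ k i, ∃ ρ ∈ R k, ∀ j ≤ k, code ρ j = code i j := by
    intro k i
    induction k using Fin.lastCases with
    | last => exact ⟨i, by rw [hRl]; exact Finset.mem_univ _, fun _ _ => rfl⟩
    | cast k =>
      refine ⟨Function.invFun (F k) (F k i), ?_, ?_⟩
      · rw [hRc]
        exact Finset.mem_image_of_mem _ (Finset.mem_univ i)
      · intro j hj
        have hjm : j.val < m := lt_of_le_of_lt (Fin.le_def.1 hj) (by simp)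
        have hj' : j = (⟨j.val, hjm⟩ : Fin m).castSucc := Fin.ext rfl
        rw [hj', hcc, hcc]
        have h1 : F k (Function.invFun (F k) (F k i)) = F k i := Function.invFun_eq ⟨i, rfl⟩
        have h2 := congrFun h1 ⟨⟨j.val, hjm⟩, by
          rw [Fin.le_def] at hj ⊢
          exact hj⟩
        have h3 : h ⟨j.val, hjm⟩ (Function.invFun (F k) (F k i)) = h ⟨j.val, hjm⟩ i := h2
        rw [h3]
  have hRcard : ∀ k : Fin m, ((R k.castSucc).card : ℝ) ≤ Q * N ^ (k.val + 1) := by
    intro k
    refine le_trans ?_ (hcount k)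
    rw [hRc]
    have e1 : (Finset.univ.image fun i => Function.invFun (F k) (F k i)).card =
        (Function.invFun (F k) '' Set.range (F k)).ncard := by
      rw [← Set.ncard_coe_finset]
      congr 1
      ext z
      simp
    rw [e1]
    exact_mod_cast Set.ncard_image_le (Set.finite_range (F k))
  have hnormal : ∀ k i, (H k i).normal = b i k := by
    intro k i
    induction k using Fin.lastCases with
    | last => rw [hHl]; rfl
    | cast k => rw [hHc]; exact (hb i k).symm
  set w : Fin (m + 1) → ℝ := Fin.snoc (α := fun _ => ℝ)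
    (fun _ : Fin m => Q ^ (-(1 / ((m : ℝ) + 1)))) (Q ^ ((m : ℝ) / (m + 1))) with hw
  have hwc : ∀ k : Fin m, w k.castSucc = Q ^ (-(1 / ((m : ℝ) + 1))) := by
    intro k; rw [hw, Fin.snoc_castSucc]
  have hwl : w (Fin.last m) = Q ^ ((m : ℝ) / (m + 1)) := by rw [hw, Fin.snoc_last]
  have hwpos : ∀ k, 0 < w k := by
    intro k
    induction k using Fin.lastCases with
    | last => rw [hwl]; positivity
    | cast k => rw [hwc]; positivity
  have hm1 : (0:ℝ) < m + 1 := by positivity
  have hwprod : ∏ k, w k = 1 := by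
    rw [Fin.prod_univ_castSucc, hwl]
    simp only [hwc, Finset.prod_const, Finset.card_univ, Fintype.card_fin]
    rw [← Real.rpow_natCast, ← Real.rpow_mul hQ.le, ← Real.rpow_add hQ]
    have : -(1 / ((m:ℝ) + 1)) * (m:ℝ) + m / (m + 1) = 0 := by ring
    rw [this, Real.rpow_zero]
  have hmain := flag_critical (Nat.succ_pos m) hN hA'nn θ c hfam.overlap code hinj H R hHcode
    hsub' hRrep b hnormal w hwpos hwprod
  refine hmain.trans ?_
  apply ENNReal.ofReal_le_ofReal
  set FC := flagConst (m + 1) A' with hFC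
  have hFCpos : 0 < FC := flagConst_pos _ hA'nn
  set X : ℝ := FC * K * (1 + Real.log N) * N ^ (m + 1 + 2) with hX
  have hXnn : 0 ≤ X := by positivity
  have hQm : Q ^ (-(1 / ((m : ℝ) + 1))) * Q = Q ^ ((m : ℝ) / (m + 1)) := by
    conv_lhs => rw [← Real.rpow_one Q, ← Real.rpow_mul hQ.le, one_mul]
    rw [← Real.rpow_add hQ]
    congr 1
    field_simp
    ring
  have hQmpos : 0 < Q ^ ((m : ℝ) / (m + 1)) := by positivity
  have hterm : ∀ k : Fin m, w k.castSucc * ((R k.castSucc).card *
      (FC * K * (1 + Real.log N) * (N ^ (m + 1 - (k.castSucc.val + 1)) * N ^ (m + 1 + 2)))) ≤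
      Q ^ ((m : ℝ) / (m + 1)) * N ^ (m + 1) * X := by
    intro k
    rw [hwc]
    have e3 : N ^ (m + 1) = N ^ (k.val + 1) * N ^ (m + 1 - (k.val + 1)) := by
      rw [← pow_add]; congr 1; omega
    calc Q ^ (-(1 / ((m : ℝ) + 1))) * ((R k.castSucc).card *
      (FC * K * (1 + Real.log N) * (N ^ (m + 1 - (k.castSucc.val + 1)) * N ^ (m + 1 + 2))))
        ≤ Q ^ (-(1 / ((m : ℝ) + 1))) * ((Q * N ^ (k.val + 1)) *
      (FC * K * (1 + Real.log N) * (N ^ (m + 1 - (k.castSucc.val + 1)) * N ^ (m + 1 + 2)))) := by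
          gcongr
          exact hRcard k
      _ = (Q ^ (-(1 / ((m : ℝ) + 1))) * Q) *
          (N ^ (k.val + 1) * N ^ (m + 1 - (k.val + 1))) * X := by
          rw [hX, Fin.val_castSucc]; ring
      _ = _ := by rw [hQm, ← e3]
  have hlast : w (Fin.last m) * ((R (Fin.last m)).card *
      (FC * K * (1 + Real.log N) * (N ^ (m + 1 - ((Fin.last m).val + 1)) * N ^ (m + 1 + 2)))) =
      Q ^ ((m : ℝ) / (m + 1)) * Fintype.card ι * X := by
    rw [hwl, hRl, Finset.card_univ, Fin.val_last, Nat.sub_self, pow_zero, hX]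
    ring
  rw [Fin.sum_univ_castSucc, hlast]
  have hsumle := Finset.sum_le_sum fun k (_ : k ∈ (Finset.univ : Finset (Fin m))) => hterm k
  rw [Finset.sum_const, Finset.card_univ, Fintype.card_fin, nsmul_eq_mul] at hsumle
  have hmany : N ^ (m + 1) ≤ 1 / κ * Fintype.card ι := by
    rw [one_div_mul_eq_div, le_div_iff₀ hκ, mul_comm]
    exact hfam.many
  have hfrac : (1:ℝ) / ((m + 1 : ℕ) : ℝ) * (m + 1) = 1 := by
    push_cast; field_simp
  calc 1 / ((m + 1 : ℕ) : ℝ) * (∑ k : Fin m, w k.castSucc * ((R k.castSucc).card *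
      (FC * K * (1 + Real.log N) * (N ^ (m + 1 - (k.castSucc.val + 1)) * N ^ (m + 1 + 2)))) +
        Q ^ ((m : ℝ) / (m + 1)) * Fintype.card ι * X)
      ≤ 1 / ((m + 1 : ℕ) : ℝ) * (m * (Q ^ ((m : ℝ) / (m + 1)) * N ^ (m + 1) * X) +
        Q ^ ((m : ℝ) / (m + 1)) * Fintype.card ι * X) := by gcongr
    _ ≤ 1 / ((m + 1 : ℕ) : ℝ) * ((m + 1) * (Q ^ ((m : ℝ) / (m + 1)) *
        ((1 + 1 / κ) * Fintype.card ι) * X)) := by
        gcongr
        have e1 : m * (Q ^ ((m : ℝ) / (m + 1)) * N ^ (m + 1) * X) ≤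
            m * (Q ^ ((m : ℝ) / (m + 1)) * (1 / κ * Fintype.card ι) * X) := by gcongr
        have e2 : 0 ≤ Q ^ ((m : ℝ) / (m + 1)) * (1 / κ * Fintype.card ι) * X := by positivity
        have e3 : 0 ≤ m * (Q ^ ((m : ℝ) / (m + 1)) * Fintype.card ι * X) := by positivity
        nlinarith
    _ = _ := by
        rw [← mul_assoc, hfrac, hX]
        ring

end Pool.Agent.MPac5134
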