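import Pool.Agent.Lib.MP_ac5134_an.Defs

/-!
Families of tubes that are organised by flags of hyperplanes. Here `n = d + 1`.
-/

namespace Pool.Agent.MPac5134

/-- A hyperplane `{x : ⟨u, x'⟩ + 2 s x_n = b}` of `R^n`, where `x = (x', x_n)`, with
`u ∈ R^d` the `normal`, `s` the `slope` and `b` the `offset`. -/
structure Hyp (d : ℕ) where
  normal : EuclideanSpace ℝ (Fin d)
  slope : ℝ
  offset : ℝ

/-- The slab `{x : |⟨u, x'⟩ + 2 s x_n - b| ≤ w}` around a hyperplane. -/
def Hyp.slab {d : ℕ} (h : Hyp d) (w : ℝ) : Set (Sp d) :=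
  {x | |∑ i : Fin d, h.normal i * x i.castSucc + 2 * h.slope * x (Fin.last d) - h.offset| ≤ w}

/-- The translates in `R^n`, `n = m + 2`, are flag-sorted with constants `A` and `Q`: for every
tube `T_i` there are hyperplanes `h_0(i), …, h_{m-1}(i)`, whose normals `u ∈ R^{m+1}` are
orthonormal, such that `T_i` lies in the slab of half-width `A N` around each of them, and for
each `k < m` at most `Q N^{k+1}` different sequences `(h_0(i), …, h_k(i))` occur. -/
def FlagSorted {m : ℕ} {ι : Type*} (A Q N : ℝ) (θ : ι → Cap (m + 1))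
    (c : ι → Sp (m + 1)) : Prop :=
  ∃ h : Fin m → ι → Hyp (m + 1),
    (∀ i, Orthonormal ℝ fun k => (h k i).normal) ∧
    (∀ i k, tube N (θ i) (c i) ⊆ (h k i).slab (A * N)) ∧
    ∀ k : Fin m, ((Set.range fun (i : ι) (j : {j : Fin m // j ≤ k}) => h j i).ncard : ℝ) ≤
      Q * N ^ (k.val + 1)

end Pool.Agent.MPac5134
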