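import Pool.Agent.Lib.MP_ac5134_an.FlagDefs
import Pool.Agent.Lib.MP_ac5134_an.Geom

/-!
Tubes and slabs around hyperplanes of arbitrary orientation; caps near a flat.
-/

namespace Pool.Agent.MPac5134

open MeasureTheory
open scoped ENNReal InnerProductSpace

variable {d : ℕ}

/-- the linear part of the hyperplane functional -/
noncomputable def Hyp.lin (h : Hyp d) (y : Sp d) : ℝ :=
  ∑ i : Fin d, h.normal i * y i.castSucc + 2 * h.slope * y (Fin.last d)

/-- the foot of a cap as a vector of `R^d` -/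
noncomputable def Cap.vec (θ : Cap d) : EuclideanSpace ℝ (Fin d) := WithLp.toLp 2 θ.foot

theorem Hyp.lin_add (h : Hyp d) (x y : Sp d) : h.lin (x + y) = h.lin x + h.lin y := by
  unfold Hyp.lin
  simp only [PiLp.add_apply, mul_add, Finset.sum_add_distrib]
  ring

theorem Hyp.lin_smul (h : Hyp d) (r : ℝ) (x : Sp d) : h.lin (r • x) = r * h.lin x := by
  unfold Hyp.lin
  simp only [PiLp.smul_apply, smul_eq_mul]
  rw [mul_add, Finset.mul_sum]
  congr 1
  · apply Finset.sum_congr rfl; intro i _; ring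
  · ring

theorem Hyp.lin_sub (h : Hyp d) (x y : Sp d) : h.lin (x - y) = h.lin x - h.lin y := by
  unfold Hyp.lin
  simp only [PiLp.sub_apply, mul_sub, Finset.sum_sub_distrib]
  ring

theorem Hyp.lin_zero (h : Hyp d) : h.lin 0 = 0 := by
  unfold Hyp.lin; simp

theorem Hyp.lin_sum (h : Hyp d) {α : Type*} (s : Finset α) (f : α → Sp d) :
    h.lin (∑ a ∈ s, f a) = ∑ a ∈ s, h.lin (f a) := by
  classical
  induction s using Finset.induction_on with
  | empty => simp [Hyp.lin_zero]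
  | insert a s ha ih => rw [Finset.sum_insert ha, Finset.sum_insert ha, h.lin_add, ih]

theorem mem_slab (h : Hyp d) (w : ℝ) (x : Sp d) : x ∈ h.slab w ↔ |h.lin x - h.offset| ≤ w :=
  Iff.rfl

theorem norm_vec_le (θ : Cap d) : ‖θ.vec‖ ≤ 1 := by
  rw [EuclideanSpace.norm_eq, Real.sqrt_le_one]
  have : ∑ i, ‖θ.vec i‖ ^ 2 = ∑ i, θ.foot i ^ 2 := by
    apply Finset.sum_congr rfl; intro i _
    rw [Real.norm_eq_abs, sq_abs]; rfl
  rw [this]
  exact θ.foot_mem

theorem inner_vec (u : EuclideanSpace ℝ (Fin d)) (θ : Cap d) :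
    ⟪u, θ.vec⟫_ℝ = ∑ i, u i * θ.foot i := by
  rw [PiLp.inner_apply]
  apply Finset.sum_congr rfl
  intro i _
  simp [Cap.vec, mul_comm]

theorem abs_inner_vec_le {u : EuclideanSpace ℝ (Fin d)} (hu : ‖u‖ = 1) (θ : Cap d) :
    |⟪u, θ.vec⟫_ℝ| ≤ 1 := by
  calc |⟪u, θ.vec⟫_ℝ| ≤ ‖u‖ * ‖θ.vec‖ := abs_real_inner_le_norm _ _
    _ ≤ 1 * 1 := by rw [hu]; gcongr; exact norm_vec_le θ
    _ = 1 := one_mul _

theorem Hyp.lin_last (h : Hyp d) (θ : Cap d) {a : ℝ}
    (ha : θ.frame (Fin.last d) = a • normalVec θ.foot) :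
    h.lin (θ.frame (Fin.last d)) = a * (2 * (h.slope - ⟪h.normal, θ.vec⟫_ℝ)) := by
  rw [ha, h.lin_smul, inner_vec]
  congr 1
  unfold Hyp.lin
  simp only [normalVec_castSucc, normalVec_last]
  rw [mul_sub, Finset.mul_sum]
  have : ∑ i, h.normal i * (-2 * θ.foot i) = - ∑ i, 2 * (h.normal i * θ.foot i) := by
    rw [← Finset.sum_neg_distrib]
    apply Finset.sum_congr rfl; intro i _; ring
  rw [this]; ring

theorem Hyp.abs_lin_le (h : Hyp d) (hu : ‖h.normal‖ = 1) {R : ℝ} (hs : |h.slope| ≤ R)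
    (b : OrthonormalBasis (Fin (d + 1)) ℝ (Sp d)) (j : Fin (d + 1)) :
    |h.lin (b j)| ≤ 1 + 2 * R := by
  unfold Hyp.lin
  have h1 : |∑ i : Fin d, h.normal i * (b j) i.castSucc| ≤ 1 := by
    have hcs := Finset.sum_mul_sq_le_sq_mul_sq Finset.univ (fun i => h.normal i)
      (fun i : Fin d => (b j) i.castSucc)
    have e1 : ∑ i, h.normal i ^ 2 = 1 := by
      have := EuclideanSpace.norm_eq h.normal
      rw [hu] at this
      have h2 : ∑ i, ‖h.normal i‖ ^ 2 = 1 := by
        have h3 := congrArg (fun t => t ^ 2) this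
        simp only at h3
        rw [Real.sq_sqrt (Finset.sum_nonneg fun i _ => sq_nonneg _)] at h3
        linarith
      simpa [Real.norm_eq_abs, sq_abs] using h2
    have e2 : ∑ i : Fin d, (b j) i.castSucc ^ 2 ≤ 1 := by
      have h3 : ‖b j‖ = 1 := b.norm_eq_one j
      have h4 := EuclideanSpace.norm_eq (b j)
      rw [h3] at h4
      have h5 : ∑ i, ‖(b j) i‖ ^ 2 = 1 := by
        have h6 := congrArg (fun t => t ^ 2) h4
        simp only at h6
        rw [Real.sq_sqrt (Finset.sum_nonneg fun i _ => sq_nonneg _)] at h6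
        linarith
      rw [Fin.sum_univ_castSucc] at h5
      simp only [Real.norm_eq_abs, sq_abs] at h5
      nlinarith [sq_nonneg ((b j) (Fin.last d))]
    rw [e1, one_mul] at hcs
    rw [← sq_le_one_iff_abs_le_one]
    linarith
  have h2 : |2 * h.slope * (b j) (Fin.last d)| ≤ 2 * R := by
    rw [abs_mul, abs_mul, abs_of_pos (by norm_num : (0:ℝ) < 2)]
    have h3 := abs_coord_le_one b j (Fin.last d)
    have h4 := abs_nonneg h.slope
    calc 2 * |h.slope| * |(b j) (Fin.last d)| ≤ 2 * |h.slope| * 1 := by gcongr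
      _ ≤ 2 * R := by linarith
  exact (abs_add_le _ _).trans (add_le_add h1 h2)

theorem Hyp.expand (h : Hyp d) (b : OrthonormalBasis (Fin (d + 1)) ℝ (Sp d)) (x c : Sp d) :
    h.lin x = h.lin c + ∑ i : Fin d, ⟪b i.castSucc, x - c⟫_ℝ * h.lin (b i.castSucc) +
      ⟪b (Fin.last d), x - c⟫_ℝ * h.lin (b (Fin.last d)) := by
  have h1 : x = c + (x - c) := by abel
  have h2 := b.sum_repr' (x - c)
  calc h.lin x = h.lin c + h.lin (x - c) := by rw [← h.lin_add]; congr 1
    _ = _ := by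
      conv_lhs => rw [← h2]
      rw [h.lin_sum, Fin.sum_univ_castSucc]
      simp only [h.lin_smul]
      ring

/-- A tube contained in a slab is almost parallel to it. -/
theorem slope_close {N : ℝ} (hN : 1 ≤ N) {A : ℝ} (θ : Cap d) (c : Sp d)
    (h : Hyp d) (hsub : tube N θ c ⊆ h.slab (A * N)) :
    N * |h.slope - ⟪h.normal, θ.vec⟫_ℝ| ≤ 3 * A := by
  have hN0 : 0 < N := by linarith
  obtain ⟨a, ha, ha3⟩ := θ.exists_scalar
  set e : Sp d := θ.frame (Fin.last d) with he
  have hmem : ∀ t : ℝ, |t| ≤ N ^ 2 / 2 → c + t • e ∈ tube N θ c := by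
    intro t ht
    refine ⟨?_, ?_⟩
    · intro i
      have : c + t • e - c = t • e := by abel
      rw [this, real_inner_smul_right, he,
        θ.frame.inner_eq_zero (Fin.castSucc_lt_last i).ne, mul_zero, abs_zero]
      positivity
    · have : c + t • e - c = t • e := by abel
      rw [this, real_inner_smul_right, he, real_inner_self_eq_norm_sq, θ.frame.norm_eq_one]
      simpa using ht
  have h1 := (mem_slab _ _ _).1 (hsub (hmem (N ^ 2 / 2) (by rw [abs_of_nonneg (by positivity)])))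
  have h2 := (mem_slab _ _ _).1 (hsub (hmem (-(N ^ 2 / 2)) (by
    rw [abs_neg, abs_of_nonneg (by positivity)])))
  rw [h.lin_add, h.lin_smul] at h1 h2
  have h3 : |N ^ 2 * h.lin e| ≤ 2 * (A * N) := by
    have : N ^ 2 * h.lin e = (h.lin c + N ^ 2 / 2 * h.lin e - h.offset) -
        (h.lin c + -(N ^ 2 / 2) * h.lin e - h.offset) := by ring
    rw [this]
    refine (abs_sub _ _).trans ?_
    linarith
  rw [h.lin_last θ ha, abs_mul, abs_of_pos (by positivity : (0:ℝ) < N ^ 2), abs_mul, abs_mul,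
    abs_of_pos (by norm_num : (0:ℝ) < 2)] at h3
  set y : ℝ := |h.slope - ⟪h.normal, θ.vec⟫_ℝ| with hy
  have hy0 : 0 ≤ y := abs_nonneg _
  have h4 : N ^ 2 * (1 / 3 * (2 * y)) ≤ N ^ 2 * (|a| * (2 * y)) := by gcongr
  have h5 : N * (N * y) ≤ N * (3 * A) := by nlinarith
  exact le_of_mul_le_mul_left h5 hN0

theorem slope_le {N : ℝ} (hN : 1 ≤ N) {A : ℝ} (θ : Cap d) (c : Sp d)
    (h : Hyp d) (hu : ‖h.normal‖ = 1) (hsub : tube N θ c ⊆ h.slab (A * N)) :
    |h.slope| ≤ 1 + 3 * A := by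
  have h1 := slope_close hN θ c h hsub
  have h2 := abs_inner_vec_le hu θ
  have h3 : |h.slope - ⟪h.normal, θ.vec⟫_ℝ| ≤ N * |h.slope - ⟪h.normal, θ.vec⟫_ℝ| := by
    nlinarith [abs_nonneg (h.slope - ⟪h.normal, θ.vec⟫_ℝ)]
  have h4 : |h.slope| ≤ |h.slope - ⟪h.normal, θ.vec⟫_ℝ| + |⟪h.normal, θ.vec⟫_ℝ| := by
    have : h.slope = (h.slope - ⟪h.normal, θ.vec⟫_ℝ) + ⟪h.normal, θ.vec⟫_ℝ := by ring
    calc |h.slope| = |(h.slope - ⟪h.normal, θ.vec⟫_ℝ) + ⟪h.normal, θ.vec⟫_ℝ| := by rw [← this]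
      _ ≤ _ := abs_add_le _ _
  linarith

/-- the slab through a tube with a given normal -/
noncomputable def hypOf (u : EuclideanSpace ℝ (Fin d)) (θ : Cap d) (c : Sp d) : Hyp d where
  normal := u
  slope := ⟪u, θ.vec⟫_ℝ
  offset := (⟨u, ⟪u, θ.vec⟫_ℝ, 0⟩ : Hyp d).lin c

theorem tube_subset_hypOf {N : ℝ} (hN : 1 ≤ N) (u : EuclideanSpace ℝ (Fin d)) (hu : ‖u‖ = 1)
    (θ : Cap d) (c : Sp d) : tube N θ c ⊆ (hypOf u θ c).slab ((3 * d / 2) * N) := by
  obtain ⟨a, ha, ha3⟩ := θ.exists_scalar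
  rintro x ⟨hx1, hx2⟩
  rw [mem_slab]
  set h := hypOf u θ c with hh
  have hoff : h.offset = h.lin c := rfl
  have hlast : h.lin (θ.frame (Fin.last d)) = 0 := by
    rw [h.lin_last θ ha]
    have : h.slope - ⟪h.normal, θ.vec⟫_ℝ = 0 := by
      rw [hh]; simp [hypOf]
    rw [this]; ring
  rw [h.expand θ.frame x c, hoff, hlast, mul_zero, add_zero, add_sub_cancel_left]
  refine (Finset.abs_sum_le_sum_abs _ _).trans ?_
  have hs : |h.slope| ≤ 1 := abs_inner_vec_le hu θ
  calc _ ≤ ∑ _i : Fin d, (N / 2) * 3 := by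
        apply Finset.sum_le_sum
        intro i _
        rw [abs_mul]
        have := h.abs_lin_le hu hs θ.frame i.castSucc
        exact mul_le_mul (hx1 i) (by linarith) (abs_nonneg _) (by positivity)
    _ = 3 * d / 2 * N := by
        rw [Finset.sum_const, Finset.card_univ, Fintype.card_fin, nsmul_eq_mul]
        ring

/-- The part of a tube in a slab that makes an angle with it. -/
theorem volume_tube_hyp {N : ℝ} (hN : 1 ≤ N) {A R : ℝ} (hA : 0 ≤ A) (hR : 0 ≤ R) (θ : Cap d)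
    (c : Sp d) (h : Hyp d) (hu : ‖h.normal‖ = 1) (hs : |h.slope| ≤ R) :
    volume (tube N θ c ∩ h.slab (A * N)) ≤
      ENNReal.ofReal ((1 + 3 * (A + d * (1 + 2 * R) / 2)) * N ^ (d + 2) *
        (max 1 (N * |h.slope - ⟪h.normal, θ.vec⟫_ℝ|))⁻¹) := by
  have hN0 : 0 < N := by linarith
  set m : ℝ := N * |h.slope - ⟪h.normal, θ.vec⟫_ℝ| with hm
  rcases le_or_gt m 1 with hsm | hbig
  · refine (measure_mono Set.inter_subset_left).trans ?_
    rw [volume_tube hN0.le, max_eq_left hsm]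
    apply ENNReal.ofReal_le_ofReal
    have : 0 ≤ 3 * (A + d * (1 + 2 * R) / 2) * N ^ (d + 2) := by positivity
    simp only [inv_one, mul_one]
    linarith
  · rw [max_eq_right hbig.le]
    have hmpos : 0 < m := by linarith
    obtain ⟨a, ha, ha3⟩ := θ.exists_scalar
    set Ll : ℝ := h.lin (θ.frame (Fin.last d)) with hLl
    have hLabs : 2 * m / (3 * N) ≤ |Ll| := by
      rw [hLl, h.lin_last θ ha, abs_mul, abs_mul, abs_of_pos (by norm_num : (0:ℝ) < 2)]
      calc 2 * m / (3 * N) = (1 / 3) * (2 * |h.slope - ⟪h.normal, θ.vec⟫_ℝ|) := by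
            rw [hm]; field_simp
        _ ≤ _ := by gcongr
    have hLpos : 0 < |Ll| := lt_of_lt_of_le (by positivity) hLabs
    have hLne : Ll ≠ 0 := abs_pos.1 hLpos
    set γ : ℝ := (h.offset - h.lin c) / Ll with hγ
    set ρ : ℝ := (A * N + d * (1 + 2 * R) * N / 2) / |Ll| with hρ
    have hsub : tube N θ c ∩ h.slab (A * N) ⊆ frameBox N θ.frame c (γ - ρ) (γ + ρ) := by
      rintro x ⟨⟨hx1, hx2⟩, hx3⟩
      refine ⟨hx1, ?_⟩
      rw [mem_slab, h.expand θ.frame x c, ← hLl] at hx3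
      set y : ℝ := ⟪θ.frame (Fin.last d), x - c⟫_ℝ with hy
      set Sg : ℝ := ∑ i : Fin d, ⟪θ.frame i.castSucc, x - c⟫_ℝ * h.lin (θ.frame i.castSucc)
        with hSg
      have hsum : |Sg| ≤ d * (1 + 2 * R) * N / 2 := by
        refine (Finset.abs_sum_le_sum_abs _ _).trans ?_
        calc _ ≤ ∑ _i : Fin d, (N / 2) * (1 + 2 * R) := by
              apply Finset.sum_le_sum
              intro i _
              rw [abs_mul]
              exact mul_le_mul (hx1 i) (h.abs_lin_le hu hs θ.frame i.castSucc)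
                (abs_nonneg _) (by positivity)
          _ = _ := by
              rw [Finset.sum_const, Finset.card_univ, Fintype.card_fin, nsmul_eq_mul]
              ring
      have hyγ : |y - γ| ≤ ρ := by
        rw [hρ, le_div_iff₀ hLpos, ← abs_mul]
        have e6 : (y - γ) * Ll = (h.lin c + Sg + y * Ll - h.offset) - Sg := by
          rw [hγ, sub_mul, div_mul_cancel₀ _ hLne]
          ring
        rw [e6]
        refine (abs_sub _ _).trans ?_
        linarith
      rw [abs_le] at hyγ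
      constructor <;> linarith [hyγ.1, hyγ.2]
    refine (measure_mono hsub).trans ?_
    rw [volume_frameBox, ← ENNReal.ofReal_pow hN0.le, ← ENNReal.ofReal_mul (by positivity)]
    apply ENNReal.ofReal_le_ofReal
    have h0 : 0 ≤ A * N + d * (1 + 2 * R) * N / 2 := by positivity
    have hρle : ρ ≤ (A * N + d * (1 + 2 * R) * N / 2) * (3 * N) / (2 * m) := by
      rw [hρ, div_le_div_iff₀ hLpos (by positivity)]
      have : 2 * m ≤ 3 * N * |Ll| := by
        rw [div_le_iff₀ (by positivity)] at hLabs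
        linarith
      calc (A * N + d * (1 + 2 * R) * N / 2) * (2 * m)
          ≤ (A * N + d * (1 + 2 * R) * N / 2) * (3 * N * |Ll|) := by gcongr
        _ = _ := by ring
    calc N ^ d * (γ + ρ - (γ - ρ)) = N ^ d * (2 * ρ) := by ring
      _ ≤ N ^ d * (2 * ((A * N + d * (1 + 2 * R) * N / 2) * (3 * N) / (2 * m))) := by gcongr
      _ = (3 * (A + d * (1 + 2 * R) / 2)) * N ^ (d + 2) * m⁻¹ := by
          rw [div_eq_mul_inv, mul_inv]; ring
      _ ≤ _ := by
          gcongr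
          linarith

end Pool.Agent.MPac5134
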