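import Pool.Agent.Lib.MP_ac5134_an.Lower

/-!
Comparison of the integrals of powers for plane-sorted translates and for centred tubes.
-/

namespace Pool.Agent.MPac5134

open MeasureTheory
open scoped ENNReal InnerProductSpace

variable {d : ℕ} {ι : Type*} [Fintype ι]

theorem le_of_sq_le_sq_of_nonneg_aux {a b : ℝ} (h : a ^ 2 ≤ b ^ 2) (hb : 0 ≤ b) : a ≤ b :=
  (abs_le_of_sq_le_sq' h hb).2

theorem setLIntegral_eq_of_support_aux {G : Set (Sp d)} (hG : MeasurableSet G)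
    {f : Sp d → ℝ≥0∞} (hf : ∀ x, x ∉ G → f x = 0) :
    ∫⁻ x in G, f x = ∫⁻ x, f x := by
  rw [← lintegral_indicator hG]
  congr 1
  ext x
  by_cases hx : x ∈ G
  · rw [Set.indicator_of_mem hx]
  · rw [Set.indicator_of_notMem hx, hf x hx]

theorem three_mul_le_two_pow (d : ℕ) : 3 * (d + 1) ≤ 2 ^ (d + 3) := by
  induction d with
  | zero => norm_num
  | succ d ih =>
    have : 2 ^ (d + 1 + 3) = 2 * 2 ^ (d + 3) := by ring
    have h2 : 2 ^ (d + 3) ≥ 8 := by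
      calc 2 ^ (d + 3) ≥ 2 ^ 3 := Nat.pow_le_pow_right (by norm_num) (by omega)
        _ = 8 := by norm_num
    omega

theorem geo_compare {N : ℝ} (hN : 3 * ((d:ℝ) + 1) ≤ N) {s : ℝ} (hs1 : 1 ≤ s) (hs2 : s ≤ 2) :
    ∃ T : ℕ, (∀ i < T, 3 * ((d:ℝ) + 1) * 2 ^ i ≤ N) ∧
      geo s (Nat.log 2 ⌊N⌋₊ + 3) ≤ (1 + (d + 5 : ℕ) * 2 ^ (d + 5)) * geo s T := by
  have hd0 : (0:ℝ) ≤ d := Nat.cast_nonneg d
  have hb : (0:ℝ) < 3 * ((d:ℝ) + 1) := by positivity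
  have hN0 : 0 < N := lt_of_lt_of_le hb hN
  set M : ℕ := ⌊N / (3 * ((d:ℝ) + 1))⌋₊ with hM
  have hM1 : 1 ≤ M := Nat.le_floor (by rw [Nat.cast_one, le_div_iff₀ hb]; linarith)
  have hMle : (M:ℝ) ≤ N / (3 * ((d:ℝ) + 1)) := Nat.floor_le (by positivity)
  have hMlt : N / (3 * ((d:ℝ) + 1)) < M + 1 := Nat.lt_floor_add_one _
  refine ⟨Nat.log 2 M + 1, ?_, ?_⟩
  · intro i hi
    have h1 : 2 ^ i ≤ M := by
      calc 2 ^ i ≤ 2 ^ Nat.log 2 M := Nat.pow_le_pow_right (by norm_num) (by omega)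
        _ ≤ M := Nat.pow_log_le_self 2 (by omega)
    have h2 : (2:ℝ) ^ i ≤ M := by exact_mod_cast h1
    calc 3 * ((d:ℝ) + 1) * 2 ^ i ≤ 3 * ((d:ℝ) + 1) * (N / (3 * ((d:ℝ) + 1))) := by
          gcongr
          exact h2.trans hMle
      _ = N := by field_simp
  · have hlog : Nat.log 2 ⌊N⌋₊ + 3 ≤ (Nat.log 2 M + 1) + (d + 5) := by
      have h1 : M + 1 ≤ 2 ^ (Nat.log 2 M + 1) := Nat.lt_pow_succ_log_self (by norm_num) M
      have h2 : N < 3 * ((d:ℝ) + 1) * (M + 1) := by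
        rw [div_lt_iff₀ hb] at hMlt
        linarith
      have h3 : ⌊N⌋₊ < 3 * (d + 1) * (M + 1) := by
        have : (⌊N⌋₊ : ℝ) ≤ N := Nat.floor_le hN0.le
        have h4 : (⌊N⌋₊ : ℝ) < ((3 * (d + 1) * (M + 1) : ℕ) : ℝ) := by
          push_cast; linarith
        exact_mod_cast h4
      have h5 : ⌊N⌋₊ < 2 ^ (d + 3 + (Nat.log 2 M + 1)) := by
        calc ⌊N⌋₊ < 3 * (d + 1) * (M + 1) := h3
          _ ≤ 2 ^ (d + 3) * 2 ^ (Nat.log 2 M + 1) :=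
            Nat.mul_le_mul (three_mul_le_two_pow d) h1
          _ = _ := by rw [← pow_add]
      have h6 : Nat.log 2 ⌊N⌋₊ < d + 3 + (Nat.log 2 M + 1) :=
        Nat.log_lt_of_lt_pow (by
          have : 1 ≤ ⌊N⌋₊ := Nat.le_floor (by
            rw [Nat.cast_one]; nlinarith)
          omega) h5
      omega
    have hmono : geo s (Nat.log 2 ⌊N⌋₊ + 3) ≤ geo s ((Nat.log 2 M + 1) + (d + 5)) := by
      unfold geo
      apply Finset.sum_le_sum_of_subset_of_nonneg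
      · exact Finset.range_mono hlog
      · intro i _ _; positivity
    exact hmono.trans (geo_add_le hs1 hs2 (by omega) (d + 5))

/-- range `1 ≤ s ≤ 2`, large `N` -/
theorem ratio_mid (hd : 0 < d) {K : ℕ} {κ A N : ℝ} (hN : 3 * ((d:ℝ) + 1) ≤ N) (hκ : 0 < κ)
    (hκ1 : κ ≤ 1) (hA : 0 ≤ A) (θ : ι → Cap d) (c : ι → Sp d) (hfam : IsCapFamily K κ N θ)
    (hps : PlaneSorted A N θ c) {s : ℝ} (hs1 : 1 ≤ s) (hs2 : s ≤ 2) :
    ∫⁻ x, ENNReal.ofReal ((mult N θ c x) ^ (1 + s / (d:ℝ))) ≤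
      ENNReal.ofReal (((K:ℝ) + 1) ^ 4 * (18 * (1 + 6 * (2 * A + 5 * d))) *
        (1 + (d + 5 : ℕ) * 2 ^ (d + 5)) * 5 ^ d * (4 / κ) * (4 ^ (d + 2) / κ) ^ 2) *
      ∫⁻ x, ENNReal.ofReal ((mult N θ (fun _ => 0) x) ^ (1 + s / (d:ℝ))) := by
  have hd' : (0:ℝ) < d := by exact_mod_cast hd
  have hd1 : (1:ℝ) ≤ d := by exact_mod_cast hd
  have hN1 : 1 ≤ N := by nlinarith
  have hN0 : 0 < N := by linarith
  obtain ⟨T, hT, hgeo⟩ := geo_compare hN hs1 hs2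
  have hup := power_bound hd hN1 hA θ c hfam.overlap hps hs1 hs2
  have hlow := shells_lower hd hN1 hκ θ hfam.many hs1 T hT
  refine hup.trans ?_
  refine le_trans ?_ (mul_le_mul' le_rfl hlow)
  rw [← ENNReal.ofReal_mul (by positivity)]
  apply ENNReal.ofReal_le_ofReal
  have hcard := card_le hN1 θ hfam.overlap
  have hgT := geo_nonneg s T
  have hgL := geo_nonneg s (Nat.log 2 ⌊N⌋₊ + 3)
  have hs0 : 0 ≤ s / (d:ℝ) := by positivity
  have hsd : s / (d:ℝ) ≤ 2 := by rw [div_le_iff₀ hd']; linarith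
  -- K power
  have hK : (K:ℝ) ^ (1 + s / (d:ℝ)) ≤ ((K:ℝ) + 1) ^ 3 := by
    have h0 : (0:ℝ) ≤ K := Nat.cast_nonneg K
    calc (K:ℝ) ^ (1 + s / (d:ℝ)) ≤ ((K:ℝ) + 1) ^ (1 + s / (d:ℝ)) :=
          Real.rpow_le_rpow h0 (by linarith) (by positivity)
      _ ≤ ((K:ℝ) + 1) ^ (3:ℝ) :=
          Real.rpow_le_rpow_of_exponent_le (by linarith) (by linarith)
      _ = ((K:ℝ) + 1) ^ 3 := by norm_cast
  -- κ power
  set w : ℝ := κ / 4 ^ (d + 2) with hw
  have hw0 : 0 < w := by positivity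
  have hw1 : w ≤ 1 := by
    rw [hw, div_le_one (by positivity)]
    have : (1:ℝ) ≤ 4 ^ (d + 2) := one_le_pow₀ (by norm_num)
    linarith
  have hwp : w ^ 2 ≤ w ^ (s / (d:ℝ)) := by
    rw [← Real.rpow_natCast]
    apply Real.rpow_le_rpow_of_exponent_ge hw0 hw1
    exact_mod_cast hsd
  have hwp0 : 0 < w ^ (s / (d:ℝ)) := Real.rpow_pos_of_pos hw0 _
  have hone : 1 ≤ (4 ^ (d + 2) / κ) ^ 2 * w ^ (s / (d:ℝ)) := by
    have e1 : (4 ^ (d + 2) / κ) ^ 2 * w ^ 2 = 1 := by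
      rw [hw]; field_simp
    calc (1:ℝ) = (4 ^ (d + 2) / κ) ^ 2 * w ^ 2 := e1.symm
      _ ≤ _ := by gcongr
  have e2 : (4 / κ) * (κ / 4) = 1 := by field_simp
  calc (K:ℝ) ^ (1 + s / (d:ℝ)) * (18 * (1 + 6 * (2 * A + 5 * d))) *
        geo s (Nat.log 2 ⌊N⌋₊ + 3) * (Fintype.card ι * N ^ (d + 2))
      ≤ ((K:ℝ) + 1) ^ 3 * (18 * (1 + 6 * (2 * A + 5 * d))) *
        ((1 + (d + 5 : ℕ) * 2 ^ (d + 5)) * geo s T) *
        ((((K:ℝ) + 1) * 5 ^ d * N ^ d) * N ^ (d + 2)) := by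
        gcongr
        refine hcard.trans ?_
        have h0 : (0:ℝ) ≤ 5 ^ d * N ^ d := by positivity
        nlinarith
    _ = ((K:ℝ) + 1) ^ 4 * (18 * (1 + 6 * (2 * A + 5 * d))) *
        (1 + (d + 5 : ℕ) * 2 ^ (d + 5)) * 5 ^ d * (N ^ (2 * d + 2) * geo s T) * 1 := by ring
    _ ≤ ((K:ℝ) + 1) ^ 4 * (18 * (1 + 6 * (2 * A + 5 * d))) *
        (1 + (d + 5 : ℕ) * 2 ^ (d + 5)) * 5 ^ d * (N ^ (2 * d + 2) * geo s T) *
        ((4 ^ (d + 2) / κ) ^ 2 * w ^ (s / (d:ℝ))) := by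
        gcongr
    _ = ((K:ℝ) + 1) ^ 4 * (18 * (1 + 6 * (2 * A + 5 * d))) *
        (1 + (d + 5 : ℕ) * 2 ^ (d + 5)) * 5 ^ d * (N ^ (2 * d + 2) * geo s T) *
        ((4 ^ (d + 2) / κ) ^ 2 * w ^ (s / (d:ℝ))) * ((4 / κ) * (κ / 4)) := by
        rw [e2, mul_one]
    _ = _ := by ring

/-- small `N`, any `p ≥ 1` -/
theorem ratio_small {N p : ℝ} (hN1 : 1 ≤ N)
    (hN : N < 3 * ((d:ℝ) + 1)) (hp : 1 ≤ p) (θ : ι → Cap d) (c : ι → Sp d) :
    ∫⁻ x, ENNReal.ofReal ((mult N θ c x) ^ p) ≤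
      ENNReal.ofReal (3 * ((d:ℝ) + 1) ^ (d + 2)) *
      ∫⁻ x, ENNReal.ofReal ((mult N θ (fun _ => 0) x) ^ p) := by
  have hN0 : 0 < N := by linarith
  have hd0 : (0:ℝ) ≤ d := Nat.cast_nonneg d
  have hup : ∫⁻ x, ENNReal.ofReal ((mult N θ c x) ^ p) ≤
      ENNReal.ofReal ((Fintype.card ι : ℝ) ^ (p - 1) * (Fintype.card ι * N ^ (d + 2))) := by
    rw [ENNReal.ofReal_mul (by positivity), ← lintegral_mult hN0.le θ c,
      ← lintegral_const_mul' _ _ ENNReal.ofReal_ne_top]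
    apply lintegral_mono
    intro x
    simp only
    rw [← ENNReal.ofReal_mul (by positivity)]
    apply ENNReal.ofReal_le_ofReal
    have h0 := mult_nonneg N θ c x
    rcases h0.eq_or_lt with h | h
    · rw [← h, Real.zero_rpow (by linarith), mul_zero]
    · have e1 : mult N θ c x ^ p = mult N θ c x ^ (p - 1) * mult N θ c x := by
        rw [← Real.rpow_add_one h.ne']; congr 1; ring
      rw [e1]
      apply mul_le_mul_of_nonneg_right _ h0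
      exact Real.rpow_le_rpow h0 (mult_le_card N θ c x) (by linarith)
  have hlow := core_lower hN1 θ (p := p)
  refine hup.trans (le_trans ?_ (mul_le_mul' le_rfl hlow))
  rw [← ENNReal.ofReal_mul (by positivity)]
  apply ENNReal.ofReal_le_ofReal
  rcases Nat.eq_zero_or_pos (Fintype.card ι) with h | h
  · rw [h, Nat.cast_zero, zero_mul, mul_zero]
    positivity
  · have hc : (0:ℝ) < Fintype.card ι := by exact_mod_cast h
    have e1 : (Fintype.card ι : ℝ) ^ p =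
        (Fintype.card ι : ℝ) ^ (p - 1) * Fintype.card ι := by
      rw [← Real.rpow_add_one hc.ne']; congr 1; ring
    rw [e1, div_pow]
    have e2 : N ^ (d + 2) ≤ 3 * ((d:ℝ) + 1) ^ (d + 2) * (N ^ (d + 1) / ((d:ℝ) + 1) ^ (d + 1)) := by
      rw [mul_div_assoc', le_div_iff₀ (by positivity)]
      calc N ^ (d + 2) * ((d:ℝ) + 1) ^ (d + 1) = N * (N ^ (d + 1) * ((d:ℝ) + 1) ^ (d + 1)) := by
            ring
        _ ≤ (3 * ((d:ℝ) + 1)) * (N ^ (d + 1) * ((d:ℝ) + 1) ^ (d + 1)) := by gcongr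
        _ = _ := by ring
    calc (Fintype.card ι : ℝ) ^ (p - 1) * (Fintype.card ι * N ^ (d + 2))
        ≤ (Fintype.card ι : ℝ) ^ (p - 1) * (Fintype.card ι *
          (3 * ((d:ℝ) + 1) ^ (d + 2) * (N ^ (d + 1) / ((d:ℝ) + 1) ^ (d + 1)))) := by gcongr
      _ = _ := by ring

/-- range `p ≥ 1 + 2/d`, any `N ≥ 1` -/
theorem ratio_large (hd : 0 < d) {K : ℕ} {κ A N p : ℝ} (hN : 1 ≤ N) (hκ : 0 < κ)
    (hκ1 : κ ≤ 1) (hA : 0 ≤ A) (θ : ι → Cap d) (c : ι → Sp d) (hfam : IsCapFamily K κ N θ)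
    (hps : PlaneSorted A N θ c) (hp : 1 + 2 / (d:ℝ) ≤ p) :
    ∫⁻ x, ENNReal.ofReal ((mult N θ c x) ^ p) ≤
      ENNReal.ofReal (((K:ℝ) + 1) ^ 3 * (18 * (1 + 6 * (2 * A + 5 * d))) *
        (8 * ((d:ℝ) + 1) ^ (d + 1)) * κ⁻¹ ^ 2) *
      ∫⁻ x, ENNReal.ofReal ((mult N θ (fun _ => 0) x) ^ p) := by
  have hN0 : 0 < N := by linarith
  have hd' : (0:ℝ) < d := by exact_mod_cast hd
  have hd1 : (1:ℝ) ≤ d := by exact_mod_cast hd
  set p1 : ℝ := 1 + 2 / (d:ℝ) with hp1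
  have hm : 0 < κ * N ^ d := by positivity
  have hc : (0:ℝ) < Fintype.card ι := lt_of_lt_of_le hm hfam.many
  set m : ℝ := (Fintype.card ι : ℝ) with hmdef
  have hgeo : geo 2 (Nat.log 2 ⌊N⌋₊ + 3) ≤ 8 * N := by
    unfold geo
    have e1 : (2:ℝ) ^ ((2:ℝ) - 1) = 2 := by norm_num
    rw [e1]
    have h1 := geom_sum_eq (x := (2:ℝ)) (by norm_num) (Nat.log 2 ⌊N⌋₊ + 3)
    rw [h1]
    have h2 : (2:ℝ) ^ Nat.log 2 ⌊N⌋₊ ≤ N := by
      have h3 : 2 ^ Nat.log 2 ⌊N⌋₊ ≤ ⌊N⌋₊ := Nat.pow_log_le_self 2 (by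
        have : 1 ≤ ⌊N⌋₊ := Nat.le_floor (by simpa using hN)
        omega)
      calc (2:ℝ) ^ Nat.log 2 ⌊N⌋₊ ≤ (⌊N⌋₊ : ℝ) := by exact_mod_cast h3
        _ ≤ N := Nat.floor_le hN0.le
    have h3 : (2:ℝ) ^ (Nat.log 2 ⌊N⌋₊ + 3) = 8 * 2 ^ Nat.log 2 ⌊N⌋₊ := by ring
    rw [h3]
    linarith
  have hup1 := power_bound hd hN hA θ c hfam.overlap hps (s := 2) (by norm_num) le_rfl
  rw [← hp1] at hup1
  have hup : ∫⁻ x, ENNReal.ofReal ((mult N θ c x) ^ p) ≤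
      ENNReal.ofReal (m ^ (p - p1)) * ∫⁻ x, ENNReal.ofReal ((mult N θ c x) ^ p1) := by
    rw [← lintegral_const_mul' _ _ ENNReal.ofReal_ne_top]
    apply lintegral_mono
    intro x
    simp only
    rw [← ENNReal.ofReal_mul (by positivity)]
    apply ENNReal.ofReal_le_ofReal
    have h0 := mult_nonneg N θ c x
    have hp1pos : 0 < p1 := by positivity
    rcases h0.eq_or_lt with h | h
    · rw [← h, Real.zero_rpow (by linarith), Real.zero_rpow hp1pos.ne', mul_zero]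
    · have e1 : mult N θ c x ^ p = mult N θ c x ^ (p - p1) * mult N θ c x ^ p1 := by
        rw [← Real.rpow_add h]; congr 1; ring
      rw [e1]
      apply mul_le_mul_of_nonneg_right _ (by positivity)
      exact Real.rpow_le_rpow h0 (mult_le_card N θ c x) (by linarith)
  have hlow := core_lower hN θ (p := p)
  refine hup.trans ((mul_le_mul' le_rfl hup1).trans (le_trans ?_ (mul_le_mul' le_rfl hlow)))
  rw [← ENNReal.ofReal_mul (by positivity), ← ENNReal.ofReal_mul (by positivity)]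
  apply ENNReal.ofReal_le_ofReal
  rw [← hmdef]
  have hK : (K:ℝ) ^ p1 ≤ ((K:ℝ) + 1) ^ 3 := by
    have h0 : (0:ℝ) ≤ K := Nat.cast_nonneg K
    have h2d : 2 / (d:ℝ) ≤ 2 := by rw [div_le_iff₀ hd']; linarith
    calc (K:ℝ) ^ p1 ≤ ((K:ℝ) + 1) ^ p1 :=
          Real.rpow_le_rpow h0 (by linarith) (by positivity)
      _ ≤ ((K:ℝ) + 1) ^ (3:ℝ) :=
          Real.rpow_le_rpow_of_exponent_le (by linarith) (by rw [hp1]; linarith)
      _ = ((K:ℝ) + 1) ^ 3 := by norm_cast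
  -- m^{p-p1} * m = m^p * m^{-2/d}
  have e1 : m ^ (p - p1) * m = m ^ p * m ^ (-(2 / (d:ℝ))) := by
    rw [← Real.rpow_add_one hc.ne', ← Real.rpow_add hc]
    congr 1
    rw [hp1]; ring
  have e2 : m ^ (-(2 / (d:ℝ))) * N ^ 2 ≤ κ⁻¹ ^ 2 := by
    have h1 : m ^ (-(2 / (d:ℝ))) ≤ (κ * N ^ d) ^ (-(2 / (d:ℝ))) :=
      Real.rpow_le_rpow_of_nonpos hm hfam.many (by
        have : 0 ≤ 2 / (d:ℝ) := by positivity
        linarith)
    have h2 : (κ * N ^ d) ^ (-(2 / (d:ℝ))) = κ ^ (-(2 / (d:ℝ))) * (N ^ 2)⁻¹ := by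
      rw [Real.mul_rpow hκ.le (by positivity)]
      congr 1
      rw [← Real.rpow_natCast, ← Real.rpow_mul hN0.le]
      have : (d:ℝ) * -(2 / (d:ℝ)) = -2 := by field_simp
      rw [this, Real.rpow_neg hN0.le]
      norm_cast
    have h3 : κ ^ (-(2 / (d:ℝ))) ≤ κ⁻¹ ^ 2 := by
      have h4 : κ⁻¹ ^ 2 = κ ^ (-2:ℝ) := by
        rw [Real.rpow_neg hκ.le, inv_pow]; norm_cast
      rw [h4]
      apply Real.rpow_le_rpow_of_exponent_ge hκ hκ1
      have h2d : 2 / (d:ℝ) ≤ 2 := by rw [div_le_iff₀ hd']; linarith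
      linarith
    calc m ^ (-(2 / (d:ℝ))) * N ^ 2 ≤ (κ ^ (-(2 / (d:ℝ))) * (N ^ 2)⁻¹) * N ^ 2 := by
          rw [← h2]; gcongr
      _ = κ ^ (-(2 / (d:ℝ))) := by field_simp
      _ ≤ _ := h3
  have hmp : 0 < m ^ p := Real.rpow_pos_of_pos hc p
  have hgnn := geo_nonneg 2 (Nat.log 2 ⌊N⌋₊ + 3)
  calc m ^ (p - p1) * ((K:ℝ) ^ p1 * (18 * (1 + 6 * (2 * A + 5 * d))) *
        geo 2 (Nat.log 2 ⌊N⌋₊ + 3) * (m * N ^ (d + 2)))
      = (K:ℝ) ^ p1 * (18 * (1 + 6 * (2 * A + 5 * d))) *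
        geo 2 (Nat.log 2 ⌊N⌋₊ + 3) * ((m ^ (p - p1) * m) * N ^ (d + 2)) := by ring
    _ = (K:ℝ) ^ p1 * (18 * (1 + 6 * (2 * A + 5 * d))) *
        geo 2 (Nat.log 2 ⌊N⌋₊ + 3) * (m ^ p * (m ^ (-(2 / (d:ℝ))) * N ^ 2) * N ^ d) := by
        rw [e1]; ring
    _ ≤ ((K:ℝ) + 1) ^ 3 * (18 * (1 + 6 * (2 * A + 5 * d))) *
        (8 * N) * (m ^ p * (κ⁻¹ ^ 2) * N ^ d) := by
        gcongr
    _ = ((K:ℝ) + 1) ^ 3 * (18 * (1 + 6 * (2 * A + 5 * d))) *
        (8 * ((d:ℝ) + 1) ^ (d + 1)) * κ⁻¹ ^ 2 * (m ^ p * (N / ((d:ℝ) + 1)) ^ (d + 1)) := by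
        rw [div_pow]
        field_simp
        ring

/-- For `p ≥ 1 + 1/d` there is no loss. -/
theorem noloss (hd : 0 < d) (K : ℕ) {κ A : ℝ} (hκ : 0 < κ) (hA : 0 ≤ A) :
    ∃ C : ℝ, 1 ≤ C ∧ ∀ (N : ℝ), 1 ≤ N → ∀ (ι : Type*) [Fintype ι] (θ : ι → Cap d)
      (c : ι → Sp d), IsCapFamily K κ N θ → PlaneSorted A N θ c →
      ∀ p : ℝ, 1 + 1 / (d:ℝ) ≤ p →
      ∫⁻ x, ENNReal.ofReal ((mult N θ c x) ^ p) ≤
        ENNReal.ofReal C * ∫⁻ x, ENNReal.ofReal ((mult N θ (fun _ => 0) x) ^ p) := by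
  have hd' : (0:ℝ) < d := by exact_mod_cast hd
  set κ' : ℝ := min κ 1 with hκ'
  have hκ'0 : 0 < κ' := lt_min hκ one_pos
  have hκ'1 : κ' ≤ 1 := min_le_right _ _
  set C1 : ℝ := ((K:ℝ) + 1) ^ 4 * (18 * (1 + 6 * (2 * A + 5 * d))) *
        (1 + (d + 5 : ℕ) * 2 ^ (d + 5)) * 5 ^ d * (4 / κ') * (4 ^ (d + 2) / κ') ^ 2 with hC1
  set C2 : ℝ := 3 * ((d:ℝ) + 1) ^ (d + 2) with hC2
  set C3 : ℝ := ((K:ℝ) + 1) ^ 3 * (18 * (1 + 6 * (2 * A + 5 * d))) *
        (8 * ((d:ℝ) + 1) ^ (d + 1)) * κ'⁻¹ ^ 2 with hC3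
  have h1 : 0 ≤ C1 := by positivity
  have h2 : 0 ≤ C2 := by positivity
  have h3 : 0 ≤ C3 := by positivity
  refine ⟨1 + C1 + C2 + C3, by linarith, ?_⟩
  intro N hN ι _ θ c hfam hps p hp
  have hfam' : IsCapFamily K κ' N θ :=
    ⟨hfam.overlap, le_trans (by
      have : κ' ≤ κ := min_le_left _ _
      gcongr) hfam.many⟩
  rcases le_or_gt (1 + 2 / (d:ℝ)) p with hbig | hsmall
  · refine (ratio_large hd hN hκ'0 hκ'1 hA θ c hfam' hps hbig).trans ?_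
    gcongr
    linarith
  · rcases lt_or_ge N (3 * ((d:ℝ) + 1)) with hNs | hNl
    · refine (ratio_small hN hNs (by
        have : 0 < 1 / (d:ℝ) := by positivity
        linarith) θ c).trans ?_
      gcongr
      linarith
    · have e1 : p = 1 + (d * (p - 1)) / (d:ℝ) := by field_simp; ring
      have hs1 : 1 ≤ d * (p - 1) := by
        have : 1 / (d:ℝ) ≤ p - 1 := by linarith
        rw [div_le_iff₀ hd'] at this
        linarith
      have hs2 : d * (p - 1) ≤ 2 := by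
        have : p - 1 ≤ 2 / (d:ℝ) := by linarith
        rw [le_div_iff₀ hd'] at this
        linarith
      rw [e1]
      refine (ratio_mid hd hNl hκ'0 hκ'1 hA θ c hfam' hps hs1 hs2).trans ?_
      gcongr
      linarith

/-- For `1 ≤ p ≤ 1 + 1/d` the loss is at most `(1 + log N)^{d(p-1)}`. -/
theorem logloss (hd : 0 < d) (K : ℕ) {κ A : ℝ} (hκ : 0 < κ) (hA : 0 ≤ A) :
    ∃ C : ℝ, 1 ≤ C ∧ ∀ (N : ℝ), 1 ≤ N → ∀ (ι : Type*) [Fintype ι] (θ : ι → Cap d)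
      (c : ι → Sp d), IsCapFamily K κ N θ → PlaneSorted A N θ c →
      ∀ p : ℝ, 1 ≤ p → p ≤ 1 + 1 / (d:ℝ) →
      ∫⁻ x, ENNReal.ofReal ((mult N θ c x) ^ p) ≤
        ENNReal.ofReal (C * (1 + Real.log N) ^ (d * (p - 1))) *
          ∫⁻ x, ENNReal.ofReal ((mult N θ (fun _ => 0) x) ^ p) := by
  have hd' : (0:ℝ) < d := by exact_mod_cast hd
  have hd1 : (1:ℝ) ≤ d := by exact_mod_cast hd
  set κ' : ℝ := min κ 1 with hκ'
  have hκ'0 : 0 < κ' := lt_min hκ one_pos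
  have hκ'1 : κ' ≤ 1 := min_le_right _ _
  set C1 : ℝ := (K : ℝ) ^ (1 + 1 / (d:ℝ)) * (8 * (1 + 6 * (2 * A + 5 * d))) with hC1
  have h1 : 0 ≤ C1 := by positivity
  set c0 : ℝ := κ' / (2 * (2 * ((d:ℝ) + 1)) ^ (d + 1)) with hc0
  have hc0pos : 0 < c0 := by positivity
  have hc01 : c0 ≤ 1 := by
    rw [hc0, div_le_one (by positivity)]
    have : (1:ℝ) ≤ (2 * ((d:ℝ) + 1)) ^ (d + 1) := one_le_pow₀ (by linarith)
    linarith
  refine ⟨(1 + C1) * (2 / c0), ?_, ?_⟩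
  · have : 1 ≤ 2 / c0 := by rw [le_div_iff₀ hc0pos]; linarith
    nlinarith
  intro N hN ι _ θ c hfam hps p hp1 hp2
  have hN0 : 0 < N := by linarith
  have hlogN : 0 ≤ Real.log N := Real.log_nonneg hN
  set L : ℝ := 1 + Real.log N with hL
  have hL1 : 1 ≤ L := by linarith
  have hL0 : 0 < L := by linarith
  set m : ℝ := (Fintype.card ι : ℝ) with hm
  have hmN : κ' * N ^ d ≤ m := le_trans (by
      have : κ' ≤ κ := min_le_left _ _
      gcongr) hfam.many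
  have hmpos : 0 < m := lt_of_lt_of_le (by positivity) hmN
  -- upper bound by interpolation
  have hcrit := critical_bound hd hN hA θ c hfam.overlap hps
  have hmass := lintegral_mult hN0.le θ c
  set lam : ℝ := L ^ (d:ℝ) with hlam
  have hlam0 : 0 < lam := Real.rpow_pos_of_pos hL0 _
  have hpt : ∀ x, ENNReal.ofReal ((mult N θ c x) ^ p) ≤
      ENNReal.ofReal (lam ^ (p - 1)) * ENNReal.ofReal (mult N θ c x) +
      ENNReal.ofReal (lam ^ (p - (1 + 1 / (d:ℝ)))) *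
        ENNReal.ofReal ((mult N θ c x) ^ (1 + 1 / (d:ℝ))) := by
    intro x
    have h0 := mult_nonneg N θ c x
    rw [← ENNReal.ofReal_mul (by positivity), ← ENNReal.ofReal_mul (by positivity),
      ← ENNReal.ofReal_add (by positivity) (by positivity)]
    apply ENNReal.ofReal_le_ofReal
    rcases h0.eq_or_lt with h | h
    · rw [← h, Real.zero_rpow (by linarith)]
      positivity
    rcases le_total (mult N θ c x) lam with hle | hge
    · have e1 : mult N θ c x ^ p = mult N θ c x ^ (p - 1) * mult N θ c x := by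
        rw [← Real.rpow_add_one h.ne']; congr 1; ring
      have e2 : mult N θ c x ^ (p - 1) ≤ lam ^ (p - 1) :=
        Real.rpow_le_rpow h0 hle (by linarith)
      have e3 : 0 ≤ lam ^ (p - (1 + 1 / (d:ℝ))) * (mult N θ c x) ^ (1 + 1 / (d:ℝ)) := by
        positivity
      rw [e1]
      nlinarith [mul_le_mul_of_nonneg_right e2 h0]
    · have e1 : mult N θ c x ^ p = mult N θ c x ^ (p - (1 + 1 / (d:ℝ))) *
          mult N θ c x ^ (1 + 1 / (d:ℝ)) := by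
        rw [← Real.rpow_add h]; congr 1; ring
      have e2 : mult N θ c x ^ (p - (1 + 1 / (d:ℝ))) ≤ lam ^ (p - (1 + 1 / (d:ℝ))) :=
        Real.rpow_le_rpow_of_nonpos hlam0 hge (by linarith)
      have e3 : 0 ≤ lam ^ (p - 1) * mult N θ c x := by positivity
      have e4 : 0 ≤ mult N θ c x ^ (1 + 1 / (d:ℝ)) := by positivity
      rw [e1]
      nlinarith [mul_le_mul_of_nonneg_right e2 e4]
  have hup : ∫⁻ x, ENNReal.ofReal ((mult N θ c x) ^ p) ≤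
      ENNReal.ofReal ((1 + C1) * L ^ (d * (p - 1)) * (m * N ^ (d + 2))) := by
    refine (lintegral_mono hpt).trans ?_
    rw [lintegral_add_left ((measurable_mult N θ c).ennreal_ofReal.const_mul _),
      lintegral_const_mul' _ _ ENNReal.ofReal_ne_top,
      lintegral_const_mul' _ _ ENNReal.ofReal_ne_top, hmass]
    refine (add_le_add le_rfl (mul_le_mul' le_rfl hcrit)).trans ?_
    rw [← ENNReal.ofReal_mul (by positivity), ← ENNReal.ofReal_mul (by positivity),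
      ← ENNReal.ofReal_add (by positivity) (by positivity)]
    apply ENNReal.ofReal_le_ofReal
    have e1 : lam ^ (p - 1) = L ^ (d * (p - 1)) := by
      rw [hlam, ← Real.rpow_mul hL0.le]
    have e2 : lam ^ (p - (1 + 1 / (d:ℝ))) * L = L ^ (d * (p - 1)) := by
      rw [hlam, ← Real.rpow_mul hL0.le, ← Real.rpow_add_one hL0.ne']
      congr 1
      field_simp
      ring
    rw [← hm, e1]
    apply le_of_eq
    calc _ = L ^ (d * (p - 1)) * (m * N ^ (d + 2)) +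
          C1 * (lam ^ (p - (1 + 1 / (d:ℝ))) * L) * (m * N ^ (d + 2)) := by
          rw [hC1]; ring
      _ = _ := by rw [e2]; ring
  -- lower bound on the ball of radius (d+1) N^2
  set G : Set (Sp d) := {x | ‖x‖ ≤ ((d:ℝ) + 1) * N ^ 2} with hG
  have hGvol : volume G ≤ ENNReal.ofReal ((2 * (((d:ℝ) + 1) * N ^ 2)) ^ (d + 1)) :=
    volume_ball_le (by positivity)
  have hGm : MeasurableSet G := (isClosed_le continuous_norm continuous_const).measurableSet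
  have hsupp : ∀ x, x ∉ G → mult N θ (fun _ => 0) x = 0 := by
    intro x hx
    unfold mult
    apply Finset.sum_eq_zero
    intro i _
    apply Set.indicator_of_notMem
    rintro ⟨ht1, ht2⟩
    apply hx
    have h1 := sum_sq_frame (θ i).frame x
    have h2 : ∑ j : Fin d, ⟪(θ i).frame j.castSucc, x⟫_ℝ ^ 2 ≤ d * (N / 2) ^ 2 := by
      calc _ ≤ ∑ _j : Fin d, (N / 2) ^ 2 := by
            apply Finset.sum_le_sum
            intro j _
            have := ht1 j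
            rw [sub_zero] at this
            rw [← sq_abs]
            gcongr
        _ = _ := by simp
    have h3 : ⟪(θ i).frame (Fin.last d), x⟫_ℝ ^ 2 ≤ (N ^ 2 / 2) ^ 2 := by
      rw [sub_zero] at ht2
      rw [← sq_abs]
      gcongr
    have hNN : N ≤ N ^ 2 := by nlinarith
    have h4 : ‖x‖ ^ 2 ≤ (((d:ℝ) + 1) * N ^ 2) ^ 2 := by
      have h5 : N ^ 2 ≤ (N ^ 2) ^ 2 := by nlinarith
      have h6 : (d:ℝ) * (N / 2) ^ 2 ≤ d * (N ^ 2) ^ 2 := by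
        apply mul_le_mul_of_nonneg_left _ hd'.le
        nlinarith
      have h7 : (((d:ℝ) + 1) * N ^ 2) ^ 2 = (d ^ 2 + 2 * d + 1) * (N ^ 2) ^ 2 := by ring
      rw [h7, h1]
      have h8 : 0 ≤ (N ^ 2) ^ 2 := by positivity
      nlinarith
    exact le_of_sq_le_sq_of_nonneg_aux h4 (by positivity)
  have hmassG : ∫⁻ x in G, ENNReal.ofReal (mult N θ (fun _ => 0) x) =
      ENNReal.ofReal (m * N ^ (d + 2)) := by
    rw [← lintegral_mult hN0.le θ (fun _ => 0)]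
    apply setLIntegral_eq_of_support_aux hGm
    intro x hx
    rw [hsupp x hx, ENNReal.ofReal_zero]
  set X : ℝ := m * N ^ (d + 2) with hX
  set Y : ℝ := (2 * (((d:ℝ) + 1) * N ^ 2)) ^ (d + 1) with hY
  have hXpos : 0 < X := by positivity
  have hYpos : 0 < Y := by positivity
  have hlow := lintegral_rpow_lower (mult_nonneg N θ (fun _ => 0)) (measurable_mult N θ _)
    hXpos hYpos hp1 hmassG.ge hGvol
  have hlow2 : ENNReal.ofReal (c0 * (X / 2)) ≤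
      ∫⁻ x, ENNReal.ofReal ((mult N θ (fun _ => 0) x) ^ p) := by
    refine le_trans ?_ (hlow.trans (setLIntegral_le_lintegral _ _))
    apply ENNReal.ofReal_le_ofReal
    apply mul_le_mul_of_nonneg_right _ (by positivity)
    have e1 : c0 ≤ X / (2 * Y) := by
      rw [hc0, hX, hY, div_le_div_iff₀ (by positivity) (by positivity)]
      calc κ' * (2 * (2 * (((d:ℝ) + 1) * N ^ 2)) ^ (d + 1))
          = (κ' * N ^ d) * N ^ (d + 2) * (2 * (2 * ((d:ℝ) + 1)) ^ (d + 1)) := by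
            rw [show 2 * (((d:ℝ) + 1) * N ^ 2) = (2 * ((d:ℝ) + 1)) * N ^ 2 by ring, mul_pow]
            ring
        _ ≤ m * N ^ (d + 2) * (2 * (2 * ((d:ℝ) + 1)) ^ (d + 1)) := by gcongr
    calc c0 = c0 ^ (1:ℝ) := (Real.rpow_one _).symm
      _ ≤ c0 ^ (p - 1) := by
          apply Real.rpow_le_rpow_of_exponent_ge hc0pos hc01
          have : 1 / (d:ℝ) ≤ 1 := by rw [div_le_one hd']; exact hd1
          linarith
      _ ≤ (X / (2 * Y)) ^ (p - 1) := Real.rpow_le_rpow hc0pos.le e1 (by linarith)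
  refine hup.trans (le_trans ?_ (mul_le_mul' le_rfl hlow2))
  rw [← ENNReal.ofReal_mul (by positivity)]
  apply ENNReal.ofReal_le_ofReal
  apply le_of_eq
  rw [hX]
  field_simp

end Pool.Agent.MPac5134
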