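import Pool.Agent.Lib.MP_ac5134_an.FlagCrit
import Pool.Agent.Lib.MP_ac5134_an.Ratio

/-!
From a bound at the critical exponent `1 + 1/d` to all exponents.
-/

namespace Pool.Agent.MPac5134

open MeasureTheory
open scoped ENNReal InnerProductSpace

variable {d : ℕ} {ι : Type*} [Fintype ι]

/-- exponents `1 ≤ p ≤ 1 + 1/d` -/
theorem ratio_of_crit_low (hd : 0 < d) {κ C1 L N : ℝ} (hN : 1 ≤ N) (hκ : 0 < κ)
    (hκ1 : κ ≤ 1) (hC1 : 0 ≤ C1) (hL : 1 ≤ L) (θ : ι → Cap d) (c : ι → Sp d)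
    (hmN : κ * N ^ d ≤ (Fintype.card ι : ℝ))
    (hcrit : ∫⁻ x, ENNReal.ofReal ((mult N θ c x) ^ (1 + 1 / (d:ℝ))) ≤
      ENNReal.ofReal (C1 * L * (Fintype.card ι * N ^ (d + 2)))) {p : ℝ} (hp1 : 1 ≤ p)
    (hp2 : p ≤ 1 + 1 / (d:ℝ)) :
    ∫⁻ x, ENNReal.ofReal ((mult N θ c x) ^ p) ≤
      ENNReal.ofReal ((1 + C1) * (2 / (κ / (2 * (2 * ((d:ℝ) + 1)) ^ (d + 1)))) *
        L ^ (d * (p - 1))) *
        ∫⁻ x, ENNReal.ofReal ((mult N θ (fun _ => 0) x) ^ p) := by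
  have hd' : (0:ℝ) < d := by exact_mod_cast hd
  have hd1 : (1:ℝ) ≤ d := by exact_mod_cast hd
  set c0 : ℝ := κ / (2 * (2 * ((d:ℝ) + 1)) ^ (d + 1)) with hc0
  have hc0pos : 0 < c0 := by positivity
  have hc01 : c0 ≤ 1 := by
    rw [hc0, div_le_one (by positivity)]
    have : (1:ℝ) ≤ (2 * ((d:ℝ) + 1)) ^ (d + 1) := one_le_pow₀ (by linarith)
    linarith
  have hN0 : 0 < N := by linarith
  have hL0 : 0 < L := by linarith
  set m : ℝ := (Fintype.card ι : ℝ) with hm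
  have hmpos : 0 < m := lt_of_lt_of_le (by positivity) hmN
  -- upper bound by interpolation
  have hmass := lintegral_mult hN0.le θ c
  set lam : ℝ := L ^ (d:ℝ) with hlam
  have hlam0 : 0 < lam := Real.rpow_pos_of_pos hL0 _
  have hpt : ∀ x, ENNReal.ofReal ((mult N θ c x) ^ p) ≤
      ENNReal.ofReal (lam ^ (p - 1)) * ENNReal.ofReal (mult N θ c x) +
      ENNReal.ofReal (lam ^ (p - (1 + 1 / (d:ℝ)))) *
        ENNReal.ofReal ((mult N θ c x) ^ (1 + 1 / (d:ℝ))) := by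
    intro x
    have h0 := mult_nonneg N θ c x
    rw [← ENNReal.ofReal_mul (by positivity), ← ENNReal.ofReal_mul (by positivity),
      ← ENNReal.ofReal_add (by positivity) (by positivity)]
    apply ENNReal.ofReal_le_ofReal
    rcases h0.eq_or_lt with h | h
    · rw [← h, Real.zero_rpow (by linarith)]
      positivity
    rcases le_total (mult N θ c x) lam with hle | hge
    · have e1 : mult N θ c x ^ p = mult N θ c x ^ (p - 1) * mult N θ c x := by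
        rw [← Real.rpow_add_one h.ne']; congr 1; ring
      have e2 : mult N θ c x ^ (p - 1) ≤ lam ^ (p - 1) :=
        Real.rpow_le_rpow h0 hle (by linarith)
      have e3 : 0 ≤ lam ^ (p - (1 + 1 / (d:ℝ))) * (mult N θ c x) ^ (1 + 1 / (d:ℝ)) := by
        positivity
      rw [e1]
      nlinarith [mul_le_mul_of_nonneg_right e2 h0]
    · have e1 : mult N θ c x ^ p = mult N θ c x ^ (p - (1 + 1 / (d:ℝ))) *
          mult N θ c x ^ (1 + 1 / (d:ℝ)) := by
        rw [← Real.rpow_add h]; congr 1; ring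
      have e2 : mult N θ c x ^ (p - (1 + 1 / (d:ℝ))) ≤ lam ^ (p - (1 + 1 / (d:ℝ))) :=
        Real.rpow_le_rpow_of_nonpos hlam0 hge (by linarith)
      have e3 : 0 ≤ lam ^ (p - 1) * mult N θ c x := by positivity
      have e4 : 0 ≤ mult N θ c x ^ (1 + 1 / (d:ℝ)) := by positivity
      rw [e1]
      nlinarith [mul_le_mul_of_nonneg_right e2 e4]
  have hup : ∫⁻ x, ENNReal.ofReal ((mult N θ c x) ^ p) ≤
      ENNReal.ofReal ((1 + C1) * L ^ (d * (p - 1)) * (m * N ^ (d + 2))) := by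
    refine (lintegral_mono hpt).trans ?_
    rw [lintegral_add_left ((measurable_mult N θ c).ennreal_ofReal.const_mul _),
      lintegral_const_mul' _ _ ENNReal.ofReal_ne_top,
      lintegral_const_mul' _ _ ENNReal.ofReal_ne_top, hmass]
    refine (add_le_add le_rfl (mul_le_mul' le_rfl hcrit)).trans ?_
    rw [← ENNReal.ofReal_mul (by positivity), ← ENNReal.ofReal_mul (by positivity),
      ← ENNReal.ofReal_add (by positivity) (by positivity)]
    apply ENNReal.ofReal_le_ofReal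
    have e1 : lam ^ (p - 1) = L ^ (d * (p - 1)) := by
      rw [hlam, ← Real.rpow_mul hL0.le]
    have e2 : lam ^ (p - (1 + 1 / (d:ℝ))) * L = L ^ (d * (p - 1)) := by
      rw [hlam, ← Real.rpow_mul hL0.le, ← Real.rpow_add_one hL0.ne']
      congr 1
      field_simp
      ring
    rw [← hm, e1]
    apply le_of_eq
    calc _ = L ^ (d * (p - 1)) * (m * N ^ (d + 2)) +
          C1 * (lam ^ (p - (1 + 1 / (d:ℝ))) * L) * (m * N ^ (d + 2)) := by
          ring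
      _ = _ := by rw [e2]; ring
  -- lower bound on the ball of radius (d+1) N^2
  set G : Set (Sp d) := {x | ‖x‖ ≤ ((d:ℝ) + 1) * N ^ 2} with hG
  have hGvol : volume G ≤ ENNReal.ofReal ((2 * (((d:ℝ) + 1) * N ^ 2)) ^ (d + 1)) :=
    volume_ball_le (by positivity)
  have hGm : MeasurableSet G := (isClosed_le continuous_norm continuous_const).measurableSet
  have hsupp : ∀ x, x ∉ G → mult N θ (fun _ => 0) x = 0 := by
    intro x hx
    unfold mult
    apply Finset.sum_eq_zero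
    intro i _
    apply Set.indicator_of_notMem
    rintro ⟨ht1, ht2⟩
    apply hx
    have h1 := sum_sq_frame (θ i).frame x
    have h2 : ∑ j : Fin d, ⟪(θ i).frame j.castSucc, x⟫_ℝ ^ 2 ≤ d * (N / 2) ^ 2 := by
      calc _ ≤ ∑ _j : Fin d, (N / 2) ^ 2 := by
            apply Finset.sum_le_sum
            intro j _
            have := ht1 j
            rw [sub_zero] at this
            rw [← sq_abs]
            gcongr
        _ = _ := by simp
    have h3 : ⟪(θ i).frame (Fin.last d), x⟫_ℝ ^ 2 ≤ (N ^ 2 / 2) ^ 2 := by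
      rw [sub_zero] at ht2
      rw [← sq_abs]
      gcongr
    have hNN : N ≤ N ^ 2 := by nlinarith
    have h4 : ‖x‖ ^ 2 ≤ (((d:ℝ) + 1) * N ^ 2) ^ 2 := by
      have h5 : N ^ 2 ≤ (N ^ 2) ^ 2 := by nlinarith
      have h6 : (d:ℝ) * (N / 2) ^ 2 ≤ d * (N ^ 2) ^ 2 := by
        apply mul_le_mul_of_nonneg_left _ hd'.le
        nlinarith
      have h7 : (((d:ℝ) + 1) * N ^ 2) ^ 2 = (d ^ 2 + 2 * d + 1) * (N ^ 2) ^ 2 := by ring
      rw [h7, h1]
      have h8 : 0 ≤ (N ^ 2) ^ 2 := by positivity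
      nlinarith
    exact le_of_sq_le_sq_of_nonneg_aux h4 (by positivity)
  have hmassG : ∫⁻ x in G, ENNReal.ofReal (mult N θ (fun _ => 0) x) =
      ENNReal.ofReal (m * N ^ (d + 2)) := by
    rw [← lintegral_mult hN0.le θ (fun _ => 0)]
    apply setLIntegral_eq_of_support_aux hGm
    intro x hx
    rw [hsupp x hx, ENNReal.ofReal_zero]
  set X : ℝ := m * N ^ (d + 2) with hX
  set Y : ℝ := (2 * (((d:ℝ) + 1) * N ^ 2)) ^ (d + 1) with hY
  have hXpos : 0 < X := by positivity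
  have hYpos : 0 < Y := by positivity
  have hlow := lintegral_rpow_lower (mult_nonneg N θ (fun _ => 0)) (measurable_mult N θ _)
    hXpos hYpos hp1 hmassG.ge hGvol
  have hlow2 : ENNReal.ofReal (c0 * (X / 2)) ≤
      ∫⁻ x, ENNReal.ofReal ((mult N θ (fun _ => 0) x) ^ p) := by
    refine le_trans ?_ (hlow.trans (setLIntegral_le_lintegral _ _))
    apply ENNReal.ofReal_le_ofReal
    apply mul_le_mul_of_nonneg_right _ (by positivity)
    have e1 : c0 ≤ X / (2 * Y) := by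
      rw [hc0, hX, hY, div_le_div_iff₀ (by positivity) (by positivity)]
      calc κ * (2 * (2 * (((d:ℝ) + 1) * N ^ 2)) ^ (d + 1))
          = (κ * N ^ d) * N ^ (d + 2) * (2 * (2 * ((d:ℝ) + 1)) ^ (d + 1)) := by
            rw [show 2 * (((d:ℝ) + 1) * N ^ 2) = (2 * ((d:ℝ) + 1)) * N ^ 2 by ring, mul_pow]
            ring
        _ ≤ m * N ^ (d + 2) * (2 * (2 * ((d:ℝ) + 1)) ^ (d + 1)) := by gcongr
    calc c0 = c0 ^ (1:ℝ) := (Real.rpow_one _).symm
      _ ≤ c0 ^ (p - 1) := by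
          apply Real.rpow_le_rpow_of_exponent_ge hc0pos hc01
          have : 1 / (d:ℝ) ≤ 1 := by rw [div_le_one hd']; exact hd1
          linarith
      _ ≤ (X / (2 * Y)) ^ (p - 1) := Real.rpow_le_rpow hc0pos.le e1 (by linarith)
  refine hup.trans (le_trans ?_ (mul_le_mul' le_rfl hlow2))
  rw [← ENNReal.ofReal_mul (by positivity)]
  apply ENNReal.ofReal_le_ofReal
  apply le_of_eq
  rw [hX]
  field_simp

/-- exponents `p ≥ 1 + 1/d` -/
theorem ratio_of_crit_high (hd : 0 < d) {κ C1 L N : ℝ} (hN : 1 ≤ N) (hκ : 0 < κ)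
    (hκ1 : κ ≤ 1) (hC1 : 0 ≤ C1) (hL : 1 ≤ L) (θ : ι → Cap d) (c : ι → Sp d)
    (hmN : κ * N ^ d ≤ (Fintype.card ι : ℝ))
    (hcrit : ∫⁻ x, ENNReal.ofReal ((mult N θ c x) ^ (1 + 1 / (d:ℝ))) ≤
      ENNReal.ofReal (C1 * L * (Fintype.card ι * N ^ (d + 2)))) {p : ℝ}
    (hp : 1 + 1 / (d:ℝ) ≤ p) :
    ∫⁻ x, ENNReal.ofReal ((mult N θ c x) ^ p) ≤
      ENNReal.ofReal (C1 * ((d:ℝ) + 1) ^ (d + 1) * κ⁻¹ * L) *
      ∫⁻ x, ENNReal.ofReal ((mult N θ (fun _ => 0) x) ^ p) := by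
  have hN0 : 0 < N := by linarith
  have hL0 : 0 < L := by linarith
  have hd' : (0:ℝ) < d := by exact_mod_cast hd
  have hd1 : (1:ℝ) ≤ d := by exact_mod_cast hd
  set p1 : ℝ := 1 + 1 / (d:ℝ) with hp1
  have hm : 0 < κ * N ^ d := by positivity
  have hc : (0:ℝ) < Fintype.card ι := lt_of_lt_of_le hm hmN
  set m : ℝ := (Fintype.card ι : ℝ) with hmdef
  have hup : ∫⁻ x, ENNReal.ofReal ((mult N θ c x) ^ p) ≤
      ENNReal.ofReal (m ^ (p - p1)) * ∫⁻ x, ENNReal.ofReal ((mult N θ c x) ^ p1) := by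
    rw [← lintegral_const_mul' _ _ ENNReal.ofReal_ne_top]
    apply lintegral_mono
    intro x
    simp only
    rw [← ENNReal.ofReal_mul (by positivity)]
    apply ENNReal.ofReal_le_ofReal
    have h0 := mult_nonneg N θ c x
    have hp1pos : 0 < p1 := by positivity
    rcases h0.eq_or_lt with h | h
    · rw [← h, Real.zero_rpow (by linarith), Real.zero_rpow hp1pos.ne', mul_zero]
    · have e1 : mult N θ c x ^ p = mult N θ c x ^ (p - p1) * mult N θ c x ^ p1 := by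
        rw [← Real.rpow_add h]; congr 1; ring
      rw [e1]
      apply mul_le_mul_of_nonneg_right _ (by positivity)
      exact Real.rpow_le_rpow h0 (mult_le_card N θ c x) (by linarith)
  have hlow := core_lower hN θ (p := p)
  refine hup.trans ((mul_le_mul' le_rfl hcrit).trans (le_trans ?_ (mul_le_mul' le_rfl hlow)))
  rw [← ENNReal.ofReal_mul (by positivity), ← ENNReal.ofReal_mul (by positivity)]
  apply ENNReal.ofReal_le_ofReal
  rw [← hmdef]
  have e1 : m ^ (p - p1) * m = m ^ p * m ^ (-(1 / (d:ℝ))) := by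
    rw [← Real.rpow_add_one hc.ne', ← Real.rpow_add hc]
    congr 1
    rw [hp1]; ring
  have e2 : m ^ (-(1 / (d:ℝ))) * N ≤ κ⁻¹ := by
    have h1 : m ^ (-(1 / (d:ℝ))) ≤ (κ * N ^ d) ^ (-(1 / (d:ℝ))) :=
      Real.rpow_le_rpow_of_nonpos hm hmN (by
        have : 0 ≤ 1 / (d:ℝ) := by positivity
        linarith)
    have h2 : (κ * N ^ d) ^ (-(1 / (d:ℝ))) = κ ^ (-(1 / (d:ℝ))) * N⁻¹ := by
      rw [Real.mul_rpow hκ.le (by positivity)]
      congr 1
      rw [← Real.rpow_natCast, ← Real.rpow_mul hN0.le]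
      have : (d:ℝ) * -(1 / (d:ℝ)) = -1 := by field_simp
      rw [this, Real.rpow_neg_one]
    have h3 : κ ^ (-(1 / (d:ℝ))) ≤ κ⁻¹ := by
      rw [← Real.rpow_neg_one κ]
      apply Real.rpow_le_rpow_of_exponent_ge hκ hκ1
      have h2d : 1 / (d:ℝ) ≤ 1 := by rw [div_le_iff₀ hd']; linarith
      linarith
    calc m ^ (-(1 / (d:ℝ))) * N ≤ (κ ^ (-(1 / (d:ℝ))) * N⁻¹) * N := by
          rw [← h2]; gcongr
      _ = κ ^ (-(1 / (d:ℝ))) := by field_simp
      _ ≤ _ := h3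
  have hmp : 0 < m ^ p := Real.rpow_pos_of_pos hc p
  calc m ^ (p - p1) * (C1 * L * (m * N ^ (d + 2)))
      = C1 * L * ((m ^ (p - p1) * m) * N ^ (d + 2)) := by ring
    _ = C1 * L * (m ^ p * (m ^ (-(1 / (d:ℝ))) * N) * N ^ (d + 1)) := by
        rw [e1]; ring
    _ ≤ C1 * L * (m ^ p * κ⁻¹ * N ^ (d + 1)) := by
        gcongr
    _ = C1 * ((d:ℝ) + 1) ^ (d + 1) * κ⁻¹ * L * (m ^ p * (N / ((d:ℝ) + 1)) ^ (d + 1)) := by
        rw [div_pow]
        field_simp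

theorem one_add_log_le_geo {N : ℝ} (hN : 1 ≤ N) :
    1 + Real.log N ≤ geo 1 (Nat.log 2 ⌊N⌋₊ + 3) := by
  have hN0 : 0 < N := by linarith
  set L := Nat.log 2 ⌊N⌋₊ with hL
  have e1 : geo 1 (L + 3) = L + 3 := by
    unfold geo
    simp
  rw [e1]
  have h1 := Nat.lt_pow_succ_log_self (b := 2) (by norm_num) ⌊N⌋₊
  rw [← hL] at h1
  have h2 : N < 2 ^ (L + 1) := by
    have h3 := Nat.lt_floor_add_one N
    have h4 : (⌊N⌋₊ : ℝ) + 1 ≤ 2 ^ (L + 1) := by
      have : ⌊N⌋₊ + 1 ≤ 2 ^ (L + 1) := h1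
      exact_mod_cast this
    linarith
  have h3 : Real.log N ≤ (L + 1) * Real.log 2 := by
    have := Real.log_le_log hN0 h2.le
    rw [Real.log_pow] at this
    push_cast at this
    exact this
  have h4 : Real.log 2 ≤ 1 := by
    have := Real.log_two_lt_d9
    linarith
  have h5 : (0:ℝ) ≤ L := Nat.cast_nonneg L
  nlinarith

/-- the critical exponent, without the logarithm -/
theorem ratio_of_crit_log (hd : 0 < d) {K : ℕ} {κ C1 Q' N : ℝ} (hN : 1 ≤ N) (hκ : 0 < κ)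
    (hκ1 : κ ≤ 1) (hC1 : 0 ≤ C1) (hQ : 1 ≤ Q') (θ : ι → Cap d) (c : ι → Sp d)
    (hfam : IsCapFamily K κ N θ)
    (hcrit : ∫⁻ x, ENNReal.ofReal ((mult N θ c x) ^ (1 + 1 / (d:ℝ))) ≤
      ENNReal.ofReal (C1 * (Q' * (1 + Real.log N)) * (Fintype.card ι * N ^ (d + 2)))) :
    ∫⁻ x, ENNReal.ofReal ((mult N θ c x) ^ (1 + 1 / (d:ℝ))) ≤
      ENNReal.ofReal ((3 * ((d:ℝ) + 1) ^ (d + 2) + C1 * (1 + (d + 5 : ℕ) * 2 ^ (d + 5)) *
        (K * 5 ^ d) * (4 / κ) * (4 ^ (d + 2) / κ)) * Q') *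
      ∫⁻ x, ENNReal.ofReal ((mult N θ (fun _ => 0) x) ^ (1 + 1 / (d:ℝ))) := by
  have hN0 : 0 < N := by linarith
  have hQ0 : 0 < Q' := by linarith
  have hd' : (0:ℝ) < d := by exact_mod_cast hd
  have hd1 : (1:ℝ) ≤ d := by exact_mod_cast hd
  have hlogN : 0 ≤ Real.log N := Real.log_nonneg hN
  rcases lt_or_ge N (3 * ((d:ℝ) + 1)) with hNs | hNl
  · refine (ratio_small hN hNs (by
      have : 0 < 1 / (d:ℝ) := by positivity
      linarith) θ c).trans ?_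
    refine mul_le_mul' (ENNReal.ofReal_le_ofReal ?_) le_rfl
    have h1 : 0 ≤ C1 * (1 + (d + 5 : ℕ) * 2 ^ (d + 5)) *
        (K * 5 ^ d) * (4 / κ) * (4 ^ (d + 2) / κ) := by positivity
    have h2 : 0 ≤ 3 * ((d:ℝ) + 1) ^ (d + 2) := by positivity
    nlinarith
  obtain ⟨T, hT, hgeo⟩ := geo_compare hNl (s := 1) le_rfl (by norm_num)
  have hlow := shells_lower hd hN hκ θ hfam.many (s := 1) le_rfl T hT
  refine hcrit.trans ?_
  refine le_trans ?_ (mul_le_mul' le_rfl hlow)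
  rw [← ENNReal.ofReal_mul (by positivity)]
  apply ENNReal.ofReal_le_ofReal
  have hcard := card_le hN θ hfam.overlap
  have hgT := geo_nonneg 1 T
  have hlog := (one_add_log_le_geo hN).trans hgeo
  set w : ℝ := κ / 4 ^ (d + 2) with hw
  have hw0 : 0 < w := by positivity
  have hw1 : w ≤ 1 := by
    rw [hw, div_le_one (by positivity)]
    have : (1:ℝ) ≤ 4 ^ (d + 2) := one_le_pow₀ (by norm_num)
    linarith
  have hwp : w ≤ w ^ (1 / (d:ℝ)) := by
    conv_lhs => rw [← Real.rpow_one w]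
    apply Real.rpow_le_rpow_of_exponent_ge hw0 hw1
    rw [div_le_one hd']
    exact hd1
  have hwp0 : 0 < w ^ (1 / (d:ℝ)) := Real.rpow_pos_of_pos hw0 _
  have hone : 1 ≤ (4 ^ (d + 2) / κ) * w ^ (1 / (d:ℝ)) := by
    have e1 : (4 ^ (d + 2) / κ) * w = 1 := by
      rw [hw]; field_simp
    calc (1:ℝ) = (4 ^ (d + 2) / κ) * w := e1.symm
      _ ≤ _ := by gcongr
  have e2 : (4 / κ) * (κ / 4) = 1 := by field_simp
  calc C1 * (Q' * (1 + Real.log N)) * (Fintype.card ι * N ^ (d + 2))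
      ≤ C1 * (Q' * ((1 + (d + 5 : ℕ) * 2 ^ (d + 5)) * geo 1 T)) *
        ((K * 5 ^ d * N ^ d) * N ^ (d + 2)) := by
        gcongr
    _ = (C1 * (1 + (d + 5 : ℕ) * 2 ^ (d + 5)) * (K * 5 ^ d)) * Q' *
        (N ^ (2 * d + 2) * geo 1 T) * 1 := by ring
    _ ≤ (C1 * (1 + (d + 5 : ℕ) * 2 ^ (d + 5)) * (K * 5 ^ d)) * Q' *
        (N ^ (2 * d + 2) * geo 1 T) * ((4 ^ (d + 2) / κ) * w ^ (1 / (d:ℝ))) := by
        gcongr
    _ = (C1 * (1 + (d + 5 : ℕ) * 2 ^ (d + 5)) * (K * 5 ^ d)) * Q' *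
        (N ^ (2 * d + 2) * geo 1 T) * ((4 ^ (d + 2) / κ) * w ^ (1 / (d:ℝ))) *
        ((4 / κ) * (κ / 4)) := by
        rw [e2, mul_one]
    _ = (C1 * (1 + (d + 5 : ℕ) * 2 ^ (d + 5)) *
        (K * 5 ^ d) * (4 / κ) * (4 ^ (d + 2) / κ)) * Q' *
        ((κ / 4) * w ^ (1 / (d:ℝ)) * N ^ (2 * d + 2) * geo 1 T) := by ring
    _ ≤ (3 * ((d:ℝ) + 1) ^ (d + 2) + C1 * (1 + (d + 5 : ℕ) * 2 ^ (d + 5)) *
        (K * 5 ^ d) * (4 / κ) * (4 ^ (d + 2) / κ)) * Q' *
        ((κ / 4) * w ^ (1 / (d:ℝ)) * N ^ (2 * d + 2) * geo 1 T) := by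
        gcongr
        have h2 : 0 ≤ 3 * ((d:ℝ) + 1) ^ (d + 2) := by positivity
        linarith

end Pool.Agent.MPac5134
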