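import Pool.Agent.Lib.MP_ac5134_an.Lip.Z2

/-!
Kakeya sets and Kakeya tube families whose position is an `α`-Hoelder function of the direction,
`α > (n-2)/(n-1)`, in every dimension `n = d + 1 ≥ 3`.
-/

namespace Pool.Agent.Results.MP_ac5134_an.HoelderKakeya

open Pool.Agent.MPac5134 MeasureTheory
open scoped ENNReal

/-- Let `d ≥ 2`, `n = d + 1`, `(d-1)/d < α ≤ 1`.
(i) A set `E ⊆ R^n` that contains, for every `x` in a ball (cube) of radius `R ≤ 1`, the segment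
`{(a(x) - t x, b(x) + t) : 0 ≤ t ≤ 1}` in the direction `(-x, 1)`, where `a`, `b` are `α`-Hoelder
with constant `H ≥ 1`, has outer measure at least `c (R^α H^(-d))^(d/(dα-d+1))`.
(ii) For every full family of caps and translates `c_i` of the tubes that are `α`-Hoelder
functions of the foot up to the thickness of the tubes,
`∑ |T_i| ≤ C L^(d + d²/(dα-d+1)) N^(d(1-α)) |⋃ T_i|`; no loss in `N` for `α = 1`. -/
theorem result (d : ℕ) (hd : 2 ≤ d) (α : ℝ) (hα : ((d : ℝ) - 1) / d < α) (hα1 : α ≤ 1) :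
    (∃ c : ℝ, 0 < c ∧ ∀ (H R : ℝ) (x₀ : Fin d → ℝ), 1 ≤ H → 0 < R → R ≤ 1 → ‖x₀‖ ≤ 1 →
      ∀ (a : (Fin d → ℝ) → (Fin d → ℝ)) (b : (Fin d → ℝ) → ℝ),
      (∀ x ∈ Metric.closedBall x₀ R, ∀ y ∈ Metric.closedBall x₀ R,
        ‖a x - a y‖ ≤ H * ‖x - y‖ ^ α) →
      (∀ x ∈ Metric.closedBall x₀ R, ∀ y ∈ Metric.closedBall x₀ R,
        |b x - b y| ≤ H * ‖x - y‖ ^ α) →
      ∀ E : Set (Sp d), (∀ x ∈ Metric.closedBall x₀ R, ∀ t ∈ Set.Icc (0 : ℝ) 1,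
        (WithLp.toLp 2 (Fin.snoc (a x - t • x) (b x + t) : Fin (d + 1) → ℝ) : Sp d) ∈ E) →
      ENNReal.ofReal (c * (R ^ α * H ^ (-(d : ℝ))) ^ (d / (d * α - d + 1))) ≤ volume E) ∧
    (∀ (K : ℕ) (A : ℝ), 0 ≤ A → ∃ C : ℝ, 0 < C ∧ ∀ (L N : ℝ), 1 ≤ L → 1 ≤ N →
      ∀ (ι : Type) [Fintype ι] (θ : ι → Cap d) (c : ι → Sp d),
      (∀ z : Fin d → ℤ, ∀ s : Finset ι, (∀ i ∈ s, cell N (θ i) = z) → s.card ≤ K) →
      (∀ ω : Fin d → ℝ, ∑ k, ω k ^ 2 ≤ 1 → ∃ i, ∀ k, |(θ i).foot k - ω k| ≤ A / N) →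
      (∀ i j, ∀ k : Fin (d + 1),
        |c i k - c j k| ≤ L * N ^ 2 * ‖(θ i).foot - (θ j).foot‖ ^ α + A * N) →
      ∑ i, volume (tube N (θ i) (c i)) ≤
        ENNReal.ofReal (C * L ^ (d + d ^ 2 / (d * α - d + 1)) * N ^ (d * (1 - α))) *
          volume (⋃ i, tube N (θ i) (c i))) :=
  ⟨Lip.holder_sets hd hα hα1, fun K _ hA => Lip.holder_tubes hd hα hα1 K hA⟩

end Pool.Agent.Results.MP_ac5134_an.HoelderKakeya
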