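import Mathlib

/-!
A combinatorial inequality for finite sets of integer vectors, organised as trees.
-/

namespace Pool.Agent.MPac5134

open Finset

variable {d : ℕ}

/-- the possible values of the `k`-th coordinate, given the coordinates before `k` of `s`,
within the finite set `S` -/
def branches (S : Finset (Fin d → ℤ)) (k : Fin d) (s : Fin d → ℤ) : Finset ℤ :=
  (S.filter (fun s' => ∀ j, j < k → s' j = s j)).image (fun s' => s' k)

/-- truncation after the first `r` coordinates -/
def trunc (r : ℕ) (s : Fin d → ℤ) : Fin d → ℤ := fun j => if j.val < r then s j else 0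

theorem branches_congr (S : Finset (Fin d → ℤ)) (k : Fin d) {s t : Fin d → ℤ}
    (h : ∀ j, j < k → s j = t j) : branches S k s = branches S k t := by
  unfold branches
  congr 1
  apply Finset.filter_congr
  intro s' _
  constructor
  · intro h1 j hj
    rw [h1 j hj, h j hj]
  · intro h1 j hj
    rw [h1 j hj, h j hj]

theorem branches_pos (S : Finset (Fin d → ℤ)) (k : Fin d) {s : Fin d → ℤ} (hs : s ∈ S) :
    0 < (branches S k s).card := by
  apply Finset.card_pos.2
  exact ⟨s k, Finset.mem_image.2 ⟨s, Finset.mem_filter.2 ⟨hs, fun _ _ => rfl⟩, rfl⟩⟩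

theorem trunc_trunc (r : ℕ) (s : Fin d → ℤ) : trunc r (trunc (r + 1) s) = trunc r s := by
  ext j
  unfold trunc
  by_cases h : j.val < r
  · simp [h, Nat.lt_succ_of_lt h]
  · simp [h]

theorem branches_trunc (S : Finset (Fin d → ℤ)) (k : Fin d) (r : ℕ) (hk : k.val ≤ r)
    (s : Fin d → ℤ) : branches S k (trunc r s) = branches S k s := by
  apply branches_congr
  intro j hj
  unfold trunc
  have : j.val < r := lt_of_lt_of_le hj hk
  simp [this]

/-- partial Kraft sums -/
noncomputable def kraft (S : Finset (Fin d → ℤ)) (r : ℕ) : ℝ :=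
  ∑ u ∈ S.image (trunc r), ∏ k ∈ Finset.univ.filter (fun k : Fin d => k.val < r),
    ((branches S k u).card : ℝ)⁻¹

theorem kraft_zero (S : Finset (Fin d → ℤ)) : kraft S 0 ≤ 1 := by
  unfold kraft
  have h1 : S.image (trunc 0) ⊆ {fun _ => 0} := by
    intro u hu
    obtain ⟨s, _, rfl⟩ := Finset.mem_image.1 hu
    simp only [Finset.mem_singleton]
    ext j
    simp [trunc]
  refine (Finset.sum_le_sum_of_subset_of_nonneg h1 ?_).trans ?_
  · intro i _ _
    positivity
  · simp

theorem kraft_succ (S : Finset (Fin d → ℤ)) (r : ℕ) (hr : r < d) :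
    kraft S (r + 1) = kraft S r := by
  unfold kraft
  have hmaps : ∀ u ∈ S.image (trunc (r + 1)), trunc r u ∈ S.image (trunc r) := by
    intro u hu
    obtain ⟨s, hs, rfl⟩ := Finset.mem_image.1 hu
    rw [trunc_trunc]
    exact Finset.mem_image_of_mem _ hs
  rw [← Finset.sum_fiberwise_of_maps_to hmaps]
  apply Finset.sum_congr rfl
  intro v hv
  obtain ⟨s, hs, rfl⟩ := Finset.mem_image.1 hv
  -- product splits
  have hset : Finset.univ.filter (fun k : Fin d => k.val < r + 1) =
      insert ⟨r, hr⟩ (Finset.univ.filter (fun k : Fin d => k.val < r)) := by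
    ext k
    simp only [Finset.mem_filter, Finset.mem_univ, true_and, Finset.mem_insert, Fin.ext_iff]
    omega
  have hnot : (⟨r, hr⟩ : Fin d) ∉ Finset.univ.filter (fun k : Fin d => k.val < r) := by
    simp
  have hterm : ∀ u ∈ (S.image (trunc (r + 1))).filter (fun u => trunc r u = trunc r s),
      ∏ k ∈ Finset.univ.filter (fun k : Fin d => k.val < r + 1),
        ((branches S k u).card : ℝ)⁻¹ =
      ((branches S ⟨r, hr⟩ s).card : ℝ)⁻¹ *
        ∏ k ∈ Finset.univ.filter (fun k : Fin d => k.val < r),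
          ((branches S k (trunc r s)).card : ℝ)⁻¹ := by
    intro u hu
    rw [Finset.mem_filter] at hu
    obtain ⟨_, hu⟩ := hu
    rw [hset, Finset.prod_insert hnot]
    have hb : ∀ k : Fin d, k.val ≤ r → branches S k u = branches S k s := by
      intro k hk
      rw [← branches_trunc S k r hk u, hu, branches_trunc S k r hk s]
    rw [hb ⟨r, hr⟩ le_rfl]
    congr 1
    apply Finset.prod_congr rfl
    intro k hk
    have hk' : k.val < r := (Finset.mem_filter.1 hk).2
    rw [hb k hk'.le, branches_trunc S k r hk'.le s]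
  rw [Finset.sum_congr rfl hterm, Finset.sum_const, nsmul_eq_mul]
  -- the number of terms equals the number of branches
  have hcard : ((S.image (trunc (r + 1))).filter (fun u => trunc r u = trunc r s)).card =
      (branches S ⟨r, hr⟩ s).card := by
    apply Finset.card_nbij (fun u => u ⟨r, hr⟩)
    · intro u hu
      rw [Finset.mem_coe, Finset.mem_filter] at hu
      obtain ⟨hu1, hu2⟩ := hu
      obtain ⟨t, ht, rfl⟩ := Finset.mem_image.1 hu1
      rw [trunc_trunc] at hu2
      rw [Finset.mem_coe]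
      unfold branches
      rw [Finset.mem_image]
      refine ⟨t, Finset.mem_filter.2 ⟨ht, ?_⟩, ?_⟩
      · intro j hj
        have := congrFun hu2 j
        have hj' : j.val < r := hj
        simpa [trunc, hj'] using this
      · simp [trunc]
    · intro u hu w hw huw
      rw [Finset.mem_coe, Finset.mem_filter] at hu hw
      obtain ⟨hu1, hu2⟩ := hu
      obtain ⟨hw1, hw2⟩ := hw
      obtain ⟨t, ht, rfl⟩ := Finset.mem_image.1 hu1
      obtain ⟨t', ht', rfl⟩ := Finset.mem_image.1 hw1
      rw [← hw2, trunc_trunc, trunc_trunc] at hu2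
      ext j
      rcases lt_trichotomy j.val r with hj | hj | hj
      · have := congrFun hu2 j
        simpa [trunc, hj, Nat.lt_succ_of_lt hj] using this
      · have hj' : j = ⟨r, hr⟩ := Fin.ext hj
        rw [hj']
        exact huw
      · have : ¬ j.val < r + 1 := by omega
        simp [trunc, this]
    · intro z hz
      rw [Finset.mem_coe] at hz
      unfold branches at hz
      obtain ⟨t, ht, rfl⟩ := Finset.mem_image.1 hz
      obtain ⟨ht1, ht2⟩ := Finset.mem_filter.1 ht
      refine ⟨trunc (r + 1) t, ?_, ?_⟩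
      · rw [Finset.mem_coe, Finset.mem_filter]
        refine ⟨Finset.mem_image_of_mem _ ht1, ?_⟩
        rw [trunc_trunc]
        ext j
        by_cases hj : j.val < r
        · simp only [trunc, hj, if_true]
          exact ht2 j hj
        · simp [trunc, hj]
      · simp [trunc]
  rw [hcard, ← mul_assoc]
  have hpos : (0 : ℝ) < (branches S ⟨r, hr⟩ s).card := by
    exact_mod_cast branches_pos S ⟨r, hr⟩ hs
  rw [mul_inv_cancel₀ hpos.ne', one_mul]

theorem kraft_le_one (S : Finset (Fin d → ℤ)) (r : ℕ) (hr : r ≤ d) : kraft S r ≤ 1 := by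
  induction r with
  | zero => exact kraft_zero S
  | succ r ih => rw [kraft_succ S r hr]; exact ih (by omega)

/-- Kraft inequality for the tree of prefixes of `S`. -/
theorem kraft_ineq (S : Finset (Fin d → ℤ)) :
    ∑ s ∈ S, ∏ k : Fin d, ((branches S k s).card : ℝ)⁻¹ ≤ 1 := by
  have h := kraft_le_one S d le_rfl
  unfold kraft at h
  have h1 : S.image (trunc d) = S := by
    have : (trunc d : (Fin d → ℤ) → (Fin d → ℤ)) = id := by
      ext s j
      simp [trunc]
    rw [this, Finset.image_id]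
  have h2 : Finset.univ.filter (fun k : Fin d => k.val < d) = Finset.univ := by
    ext k; simp
  rw [h1, h2] at h
  exact h

theorem amgm_aux (d : ℕ) (P w : ℝ) (hP : 0 < P) (hw : 0 < w) (a : Fin d → ℝ)
    (ha : ∀ k, 0 < a k) (haP : ∏ k, a k = P) :
    ((d:ℝ) + 1) * w ^ (1 / ((d:ℝ) + 1)) ≤ ∑ k, a k + w * P⁻¹ := by
  have hd1 : (0:ℝ) < (d:ℝ) + 1 := by positivity
  have hq : 0 < w * P⁻¹ := mul_pos hw (inv_pos.2 hP)
  have amgm := Real.geom_mean_le_arith_mean_weighted (Finset.univ : Finset (Option (Fin d)))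
    (fun _ => 1 / ((d:ℝ) + 1))
    (fun o => o.elim (w * P⁻¹) (fun k => a k))
    (fun _ _ => (one_div_pos.2 hd1).le)
    (by
      simp only [Finset.sum_const, Finset.card_univ, Fintype.card_option, Fintype.card_fin,
        nsmul_eq_mul]
      push_cast
      exact mul_one_div_cancel hd1.ne')
    (by
      intro o _
      cases o with
      | none => exact hq.le
      | some k => exact (ha k).le)
  rw [Fintype.prod_option, Fintype.sum_option] at amgm
  simp only [Option.elim] at amgm
  rw [Real.finsetProd_rpow _ _ (fun k _ => (ha k).le), haP,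
    ← Real.mul_rpow hq.le hP.le, ← Finset.mul_sum, mul_assoc, inv_mul_cancel₀ hP.ne',
    mul_one, ← mul_add] at amgm
  calc ((d:ℝ) + 1) * w ^ (1 / ((d:ℝ) + 1))
      ≤ ((d:ℝ) + 1) * (1 / ((d:ℝ) + 1) * (w * P⁻¹ + ∑ k, a k)) :=
        mul_le_mul_of_nonneg_left amgm hd1.le
    _ = ∑ k, a k + w * P⁻¹ := by
        rw [← mul_assoc, mul_one_div_cancel hd1.ne', one_mul, add_comm]

/-- The tree inequality: `d |S|^{1+1/d} ≤ ∑_{s ∈ S} ∑_k a_k(s)`. -/
theorem tree_ineq (hd : 0 < d) (S : Finset (Fin d → ℤ)) :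
    (d : ℝ) * (S.card : ℝ) ^ (1 + 1 / (d : ℝ)) ≤
      ∑ s ∈ S, ∑ k : Fin d, ((branches S k s).card : ℝ) := by
  have hd' : (0:ℝ) < d := by exact_mod_cast hd
  rcases S.eq_empty_or_nonempty with rfl | hne
  · have h0 : (1 + 1 / (d : ℝ)) ≠ 0 := by positivity
    rw [Finset.card_empty, Nat.cast_zero, Real.zero_rpow h0, mul_zero, Finset.sum_empty]
  have hc : (0:ℝ) < S.card := by exact_mod_cast Finset.card_pos.2 hne
  have hwpos : 0 < (S.card : ℝ) ^ (1 + 1 / (d : ℝ)) := Real.rpow_pos_of_pos hc _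
  have e2 : ((S.card : ℝ) ^ (1 + 1 / (d : ℝ))) ^ (1 / ((d:ℝ) + 1)) =
      (S.card : ℝ) ^ (1 / (d:ℝ)) := by
    rw [← Real.rpow_mul hc.le]
    congr 1
    field_simp
  have h5 : (S.card : ℝ) * (((d:ℝ) + 1) * (S.card : ℝ) ^ (1 / (d:ℝ))) =
      ((d:ℝ) + 1) * (S.card : ℝ) ^ (1 + 1 / (d : ℝ)) := by
    rw [Real.rpow_add hc, Real.rpow_one]
    ring
  have hpt : ∀ s ∈ S, ((d:ℝ) + 1) * (S.card : ℝ) ^ (1 / (d:ℝ)) ≤
      ∑ k : Fin d, ((branches S k s).card : ℝ) +
        (S.card : ℝ) ^ (1 + 1 / (d : ℝ)) * ∏ k : Fin d, ((branches S k s).card : ℝ)⁻¹ := by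
    intro s hs
    have hpos : ∀ k : Fin d, (0:ℝ) < (branches S k s).card := by
      intro k
      exact_mod_cast branches_pos S k hs
    have hP : 0 < ∏ k : Fin d, ((branches S k s).card : ℝ) := Finset.prod_pos fun k _ => hpos k
    rw [Finset.prod_inv_distrib, ← e2]
    exact amgm_aux d _ _ hP hwpos _ hpos rfl
  have hsum := Finset.sum_le_sum hpt
  rw [Finset.sum_const, nsmul_eq_mul, Finset.sum_add_distrib, ← Finset.mul_sum, h5] at hsum
  have hk := kraft_ineq S
  have h4 : (S.card : ℝ) ^ (1 + 1 / (d : ℝ)) *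
      ∑ s ∈ S, ∏ k : Fin d, ((branches S k s).card : ℝ)⁻¹ ≤
      (S.card : ℝ) ^ (1 + 1 / (d : ℝ)) * 1 := mul_le_mul_of_nonneg_left hk hwpos.le
  linarith

end Pool.Agent.MPac5134
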