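import Pool.Agent.Lib.MP_ac5134_an.LatSum

/-!
Positive polynomials indexed by a modular lattice, submodular with respect to it: the set where one
of them is small has small measure, with the sharp exponent and a loss `N ^ ε`.
-/

namespace Pool.Agent.MPac5134.Lat

open Polynomial Finset MeasureTheory

universe u

/-- a lattice with a rank and positive polynomials that are submodular in the logarithm -/
structure PolySys (α : Type u) [Lattice α] (r m : ℕ) where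
  rk : α → ℕ
  rk_le : ∀ x, rk x ≤ r
  rk_add : ∀ x y, rk (x ⊓ y) + rk (x ⊔ y) = rk x + rk y
  rk_lt : ∀ x y, x < y → rk x < rk y
  P : α → ℝ[X]
  deg : ∀ x, (P x).natDegree ≤ m
  pos : ∀ x s, 0 < (P x).eval s
  low : ∃ δ : ℝ, 0 < δ ∧ ∀ x s, δ ≤ (P x).eval s
  sub : ∀ x y s, (P (x ⊓ y)).eval s * (P (x ⊔ y)).eval s ≤ (P x).eval s * (P y).eval s

namespace PolySys

variable {α : Type u} [Lattice α] {r m : ℕ} (S : PolySys α r m)

/-- the weighted inverse of the supremum of `P x` on `[a, b]` -/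
noncomputable def g (κ : ℝ) (a b : ℝ) (x : α) : ℝ :=
  (κ ^ (S.rk x * (r - S.rk x)))⁻¹ / supOn (S.P x) a b

/-- the largest of the weights -/
noncomputable def G (κ : ℝ) (a b : ℝ) : ℝ := ⨆ x, S.g κ a b x

variable {κ a b : ℝ}

theorem sup_pos (hab : a ≤ b) (x : α) : 0 < supOn (S.P x) a b := supOn_pos (S.pos x) hab

theorem g_pos (hκ : 0 < κ) (hab : a ≤ b) (x : α) : 0 < S.g κ a b x := by
  have := S.sup_pos hab x
  unfold g; positivity

theorem g_le_of_sup {ρ : ℝ} (hκ : 1 ≤ κ) (hρ : 0 < ρ) {x : α} (h : ρ ≤ supOn (S.P x) a b) :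
    S.g κ a b x ≤ ρ⁻¹ := by
  unfold g
  have h1 : (κ ^ (S.rk x * (r - S.rk x)))⁻¹ ≤ 1 := inv_le_one_of_one_le₀ (one_le_pow₀ hκ)
  rw [div_eq_mul_inv]
  calc (κ ^ (S.rk x * (r - S.rk x)))⁻¹ * (supOn (S.P x) a b)⁻¹
      ≤ 1 * ρ⁻¹ := by
        apply mul_le_mul h1 _ (by have := hρ.trans_le h; positivity) zero_le_one
        exact inv_anti₀ hρ h
    _ = ρ⁻¹ := one_mul _

theorem bdd (hκ : 1 ≤ κ) (hab : a ≤ b) : BddAbove (Set.range (S.g κ a b)) := by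
  obtain ⟨δ, hδ, h⟩ := S.low
  refine ⟨δ⁻¹, ?_⟩
  rintro _ ⟨x, rfl⟩
  exact S.g_le_of_sup hκ hδ ((h x a).trans (le_supOn _ ⟨le_refl a, hab⟩))

theorem g_le_G (hκ : 1 ≤ κ) (hab : a ≤ b) (x : α) : S.g κ a b x ≤ S.G κ a b :=
  le_ciSup (S.bdd hκ hab) x

theorem G_pos [Nonempty α] (hκ : 1 ≤ κ) (hab : a ≤ b) : 0 < S.G κ a b := by
  obtain ⟨x⟩ := ‹Nonempty α›
  exact (S.g_pos (by linarith) hab x).trans_le (S.g_le_G hκ hab x)

/-- convexity of the exponents -/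
theorem exps {r i k x y : ℕ} (h : i + k = x + y) (hx : i < x) (hy : i < y) (hk : k ≤ r) :
    i * (r - i) + k * (r - k) + 2 ≤ x * (r - x) + y * (r - y) := by
  obtain ⟨u, rfl⟩ := Nat.exists_eq_add_of_lt hx
  obtain ⟨v, rfl⟩ := Nat.exists_eq_add_of_lt hy
  have hk' : k = i + u + v + 2 := by omega
  subst hk'
  obtain ⟨w, rfl⟩ := Nat.exists_eq_add_of_le hk
  have e1 : i + u + v + 2 + w - i = u + v + 2 + w := by omega
  have e2 : i + u + v + 2 + w - (i + u + v + 2) = w := by omega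
  have e3 : i + u + v + 2 + w - (i + u + 1) = v + 1 + w := by omega
  have e4 : i + u + v + 2 + w - (i + v + 1) = u + 1 + w := by omega
  rw [e1, e2, e3, e4]
  nlinarith [Nat.zero_le (u * v)]

/-- near-maximal elements are comparable -/
theorem chain (hm : 1 ≤ m) {σ : ℝ} (hσ : 2 * ((m + 1) * (2 * m) ^ m) < σ) (hσ1 : 1 ≤ σ)
    (hab : a < b) {x y : α} (hx : S.G (σ ^ 2) a b ≤ σ * S.g (σ ^ 2) a b x)
    (hy : S.G (σ ^ 2) a b ≤ σ * S.g (σ ^ 2) a b y) : x ≤ y ∨ y ≤ x := by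
  by_contra hcon
  push Not at hcon
  obtain ⟨h1, h2⟩ := hcon
  have hκ1 : 1 ≤ σ ^ 2 := one_le_pow₀ hσ1
  have hσ0 : 0 < σ := by linarith
  have hm' : (1:ℝ) ≤ m := by exact_mod_cast hm
  set C : ℝ := 2 * ((m + 1) * (2 * m) ^ m) with hC
  have hC0 : 0 < C := by positivity
  have lt1 : x ⊓ y < x := inf_lt_left.2 h1
  have lt2 : x ⊓ y < y := inf_lt_right.2 h2
  have he := exps (S.rk_add x y) (S.rk_lt _ _ lt1) (S.rk_lt _ _ lt2) (S.rk_le _)
  -- submodularity of the suprema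
  obtain ⟨s, hs, h3⟩ := supOn_mul_le hm (S.deg (x ⊓ y)) (S.deg (x ⊔ y)) (S.pos _) (S.pos _) hab
  rw [← hC] at h3
  have h4 : supOn (S.P (x ⊓ y)) a b * supOn (S.P (x ⊔ y)) a b ≤
      C ^ 2 * (supOn (S.P x) a b * supOn (S.P y) a b) := by
    refine h3.trans ?_
    apply mul_le_mul_of_nonneg_left _ (by positivity)
    refine (S.sub x y s).trans ?_
    exact mul_le_mul (le_supOn _ hs) (le_supOn _ hs) (S.pos _ _).le (S.sup_pos hab.le x).le
  have p1 := S.sup_pos hab.le (x ⊓ y)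
  have p2 := S.sup_pos hab.le (x ⊔ y)
  have p3 := S.sup_pos hab.le x
  have p4 := S.sup_pos hab.le y
  have h5 : S.g (σ ^ 2) a b x * S.g (σ ^ 2) a b y * (σ ^ 2) ^ 2 ≤
      C ^ 2 * (S.g (σ ^ 2) a b (x ⊓ y) * S.g (σ ^ 2) a b (x ⊔ y)) := by
    unfold g
    set e1 := S.rk x * (r - S.rk x)
    set e2 := S.rk y * (r - S.rk y)
    set e3 := S.rk (x ⊓ y) * (r - S.rk (x ⊓ y))
    set e4 := S.rk (x ⊔ y) * (r - S.rk (x ⊔ y))
    have h6 : (σ ^ 2) ^ (e3 + e4 + 2) ≤ (σ ^ 2) ^ (e1 + e2) := pow_le_pow_right₀ hκ1 he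
    have h7 : ((σ ^ 2) ^ e1)⁻¹ / supOn (S.P x) a b * (((σ ^ 2) ^ e2)⁻¹ / supOn (S.P y) a b) *
        (σ ^ 2) ^ 2 = (σ ^ 2) ^ 2 / ((σ ^ 2) ^ (e1 + e2) *
          (supOn (S.P x) a b * supOn (S.P y) a b)) := by
      rw [pow_add]; field_simp
    have h8 : C ^ 2 * (((σ ^ 2) ^ e3)⁻¹ / supOn (S.P (x ⊓ y)) a b *
        (((σ ^ 2) ^ e4)⁻¹ / supOn (S.P (x ⊔ y)) a b)) =
        C ^ 2 / ((σ ^ 2) ^ (e3 + e4) *
          (supOn (S.P (x ⊓ y)) a b * supOn (S.P (x ⊔ y)) a b)) := by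
      rw [pow_add]; field_simp
    rw [h7, h8, div_le_div_iff₀ (by positivity) (by positivity)]
    rw [pow_add _ (e3 + e4) 2] at h6
    calc (σ ^ 2) ^ 2 * ((σ ^ 2) ^ (e3 + e4) *
          (supOn (S.P (x ⊓ y)) a b * supOn (S.P (x ⊔ y)) a b))
        = ((σ ^ 2) ^ (e3 + e4) * (σ ^ 2) ^ 2) *
          (supOn (S.P (x ⊓ y)) a b * supOn (S.P (x ⊔ y)) a b) := by ring
      _ ≤ (σ ^ 2) ^ (e1 + e2) * (C ^ 2 * (supOn (S.P x) a b * supOn (S.P y) a b)) := by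
        gcongr
      _ = _ := by ring
  have q1 := S.g_le_G hκ1 hab.le (x ⊓ y)
  have q2 := S.g_le_G hκ1 hab.le (x ⊔ y)
  have q3 := S.g_pos (lt_of_lt_of_le one_pos hκ1) hab.le (x ⊓ y)
  have q4 := S.g_pos (lt_of_lt_of_le one_pos hκ1) hab.le (x ⊔ y)
  have q5 := S.g_pos (lt_of_lt_of_le one_pos hκ1) hab.le x
  have q6 := S.g_pos (lt_of_lt_of_le one_pos hκ1) hab.le y
  have hG : 0 < S.G (σ ^ 2) a b := q3.trans_le q1
  set Gm := S.G (σ ^ 2) a b with hGm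
  have h9 : Gm * Gm * σ ^ 2 ≤ C ^ 2 * (Gm * Gm) := by
    calc Gm * Gm * σ ^ 2
        ≤ (σ * S.g (σ ^ 2) a b x) * (σ * S.g (σ ^ 2) a b y) * σ ^ 2 := by gcongr
      _ = S.g (σ ^ 2) a b x * S.g (σ ^ 2) a b y * (σ ^ 2) ^ 2 := by ring
      _ ≤ C ^ 2 * (S.g (σ ^ 2) a b (x ⊓ y) * S.g (σ ^ 2) a b (x ⊔ y)) := h5
      _ ≤ C ^ 2 * (Gm * Gm) := by gcongr
  have h10 : C ^ 2 < σ ^ 2 := by gcongr
  have : 0 < Gm * Gm := by positivity
  nlinarith

/-- the near-maximal elements -/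
theorem near_finset (hm : 1 ≤ m) {σ : ℝ} (hσ : 2 * ((m + 1) * (2 * m) ^ m) < σ) (hσ1 : 1 ≤ σ)
    (hab : a < b) : ∃ T : Finset α, T.card ≤ r + 1 ∧
      ∀ x, S.G (σ ^ 2) a b ≤ σ * S.g (σ ^ 2) a b x → x ∈ T := by
  classical
  set A : Set α := {x | S.G (σ ^ 2) a b ≤ σ * S.g (σ ^ 2) a b x} with hA
  have hinj : Set.InjOn S.rk A := by
    intro x hx y hy hxy
    by_contra hne
    rcases S.chain hm hσ hσ1 hab hx hy with h | h
    · have := S.rk_lt x y (lt_of_le_of_ne h hne)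
      omega
    · have := S.rk_lt y x (lt_of_le_of_ne h (Ne.symm hne))
      omega
  have hsub : S.rk '' A ⊆ (range (r + 1) : Set ℕ) := by
    rintro _ ⟨x, -, rfl⟩
    rw [Finset.coe_range]
    exact Nat.lt_succ_of_le (S.rk_le x)
  have hfin : A.Finite := Set.Finite.of_finite_image ((Finset.finite_toSet _).subset hsub) hinj
  refine ⟨hfin.toFinset, ?_, fun x hx => hfin.mem_toFinset.2 hx⟩
  have h1 : (hfin.toFinset).card ≤ (range (r + 1)).card := by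
    apply Finset.card_le_card_of_injOn S.rk
    · intro x hx
      have := S.rk_le x
      simp only [Finset.coe_range, Set.mem_Iio]
      omega
    · intro x hx y hy hxy
      exact hinj (by simpa using hx) (by simpa using hy) hxy
  simpa using h1

end PolySys

end Pool.Agent.MPac5134.Lat
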