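import Mathlib

/-!
Real polynomials of bounded degree on an interval: values at separated points control the
supremum; consequences for subintervals and for products.
-/

namespace Pool.Agent.MPac5134.Lat

open Polynomial Finset

/-- A polynomial of degree at most `m` on `[a, b]` is controlled by its values at `m + 1` points
with mutual distances at least `δ (b - a)`. -/
theorem interp_bound {ι : Type*} [DecidableEq ι] {m : ℕ} {p : ℝ[X]} (hp : p.natDegree ≤ m)
    {a b δ : ℝ} (hab : a < b) (hδ : 0 < δ) (s : Finset ι) (hs : s.card = m + 1)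
    (v : ι → ℝ) (hv : ∀ i ∈ s, v i ∈ Set.Icc a b)
    (hsep : ∀ i ∈ s, ∀ j ∈ s, i ≠ j → δ * (b - a) ≤ |v i - v j|)
    {B : ℝ} (hB : ∀ i ∈ s, |p.eval (v i)| ≤ B) {x : ℝ} (hx : x ∈ Set.Icc a b) :
    |p.eval x| ≤ (m + 1) * (δ⁻¹) ^ m * B := by
  have hba : 0 < b - a := by linarith
  have hinj : Set.InjOn v s := by
    intro i hi j hj hij
    by_contra hne
    have h := hsep i hi j hj hne
    rw [hij, sub_self, abs_zero] at h
    nlinarith [mul_pos hδ hba]
  have hdeg : p.degree < (s.card : WithBot ℕ) := by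
    rw [hs]
    refine lt_of_le_of_lt Polynomial.degree_le_natDegree ?_
    exact_mod_cast Nat.lt_succ_of_le hp
  have hB0 : 0 ≤ B := by
    have hne : s.Nonempty := by rw [← Finset.card_pos, hs]; omega
    obtain ⟨i, hi⟩ := hne
    exact (abs_nonneg _).trans (hB i hi)
  have h1 := Lagrange.eq_interpolate hinj hdeg
  have h2 : p.eval x = ∑ i ∈ s, p.eval (v i) * (Lagrange.basis s v i).eval x := by
    conv_lhs => rw [h1]
    rw [Lagrange.interpolate_apply, eval_finsetSum]
    simp
  have h3 : ∀ i ∈ s, |(Lagrange.basis s v i).eval x| ≤ (δ⁻¹) ^ m := by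
    intro i hi
    have hcard : (s.erase i).card = m := by rw [Finset.card_erase_of_mem hi, hs]; rfl
    rw [Lagrange.basis, eval_prod, Finset.abs_prod, ← hcard]
    have hle : ∀ j ∈ s.erase i, |(Lagrange.basisDivisor (v i) (v j)).eval x| ≤ δ⁻¹ := ?_
    · calc ∏ j ∈ s.erase i, |(Lagrange.basisDivisor (v i) (v j)).eval x|
          ≤ ∏ _j ∈ s.erase i, δ⁻¹ := Finset.prod_le_prod (fun _ _ => abs_nonneg _) hle
        _ = δ⁻¹ ^ (s.erase i).card := by rw [Finset.prod_const]
    intro j hj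
    have hj' := Finset.mem_erase.mp hj
    have hs' := hsep i hi j hj'.2 (Ne.symm hj'.1)
    have hpos : 0 < |v i - v j| := lt_of_lt_of_le (mul_pos hδ hba) hs'
    have hxj : |x - v j| ≤ b - a := by
      have := hv j hj'.2
      rw [abs_le]; constructor <;> linarith [this.1, this.2, hx.1, hx.2]
    simp only [Lagrange.basisDivisor, eval_mul, eval_C, eval_sub, eval_X, abs_mul, abs_inv]
    rw [inv_mul_le_iff₀ hpos]
    calc |x - v j| ≤ b - a := hxj
      _ = (δ * (b - a)) * δ⁻¹ := by field_simp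
      _ ≤ |v i - v j| * δ⁻¹ := by gcongr
  rw [h2]
  calc |∑ i ∈ s, p.eval (v i) * (Lagrange.basis s v i).eval x|
      ≤ ∑ i ∈ s, |p.eval (v i) * (Lagrange.basis s v i).eval x| := Finset.abs_sum_le_sum_abs _ _
    _ ≤ ∑ _i ∈ s, B * (δ⁻¹) ^ m := by
        apply Finset.sum_le_sum
        intro i hi
        rw [abs_mul]
        exact mul_le_mul (hB i hi) (h3 i hi) (abs_nonneg _) hB0
    _ = (m + 1) * (δ⁻¹) ^ m * B := by
        rw [Finset.sum_const, hs, nsmul_eq_mul]; push_cast; ring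

/-- the supremum of the values of `p` on `[a, b]` -/
noncomputable def supOn (p : ℝ[X]) (a b : ℝ) : ℝ := sSup ((fun s => p.eval s) '' Set.Icc a b)

theorem bddAbove_image (p : ℝ[X]) (a b : ℝ) : BddAbove ((fun s => p.eval s) '' Set.Icc a b) :=
  (isCompact_Icc.image (by fun_prop)).bddAbove

theorem le_supOn (p : ℝ[X]) {a b s : ℝ} (hs : s ∈ Set.Icc a b) : p.eval s ≤ supOn p a b :=
  le_csSup (bddAbove_image p a b) ⟨s, hs, rfl⟩

theorem supOn_le {p : ℝ[X]} {a b B : ℝ} (hab : a ≤ b) (h : ∀ s ∈ Set.Icc a b, p.eval s ≤ B) :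
    supOn p a b ≤ B := by
  refine csSup_le ⟨p.eval a, Set.mem_image_of_mem _ ⟨le_refl a, hab⟩⟩ ?_
  rintro _ ⟨s, hs, rfl⟩
  exact h s hs

theorem supOn_mono (p : ℝ[X]) {a b a' b' : ℝ} (hab : a' ≤ b') (h1 : a ≤ a') (h2 : b' ≤ b) :
    supOn p a' b' ≤ supOn p a b :=
  supOn_le hab fun s hs => le_supOn p ⟨h1.trans hs.1, hs.2.trans h2⟩

theorem supOn_pos {p : ℝ[X]} (hp : ∀ s, 0 < p.eval s) {a b : ℝ} (hab : a ≤ b) :
    0 < supOn p a b := (hp a).trans_le (le_supOn p ⟨le_refl a, hab⟩)

theorem exists_supOn (p : ℝ[X]) {a b : ℝ} (hab : a ≤ b) :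
    ∃ s ∈ Set.Icc a b, p.eval s = supOn p a b := by
  have h := (isCompact_Icc (a := a) (b := b)).exists_sSup_image_eq ⟨a, le_refl a, hab⟩
    (f := fun s => p.eval s) (by fun_prop)
  obtain ⟨s, hs, h⟩ := h
  exact ⟨s, hs, h.symm⟩

/-- `m + 1` separated points at which a positive polynomial is at most `B` bound the supremum. -/
theorem supOn_le_of_points {ι : Type*} [DecidableEq ι] {m : ℕ} {p : ℝ[X]}
    (hp : p.natDegree ≤ m) (hpos : ∀ s, 0 < p.eval s)
    {a b δ : ℝ} (hab : a < b) (hδ : 0 < δ) (s : Finset ι) (hs : m + 1 ≤ s.card)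
    (v : ι → ℝ) (hv : ∀ i ∈ s, v i ∈ Set.Icc a b)
    (hsep : ∀ i ∈ s, ∀ j ∈ s, i ≠ j → δ * (b - a) ≤ |v i - v j|)
    {B : ℝ} (hB : ∀ i ∈ s, p.eval (v i) ≤ B) :
    supOn p a b ≤ (m + 1) * (δ⁻¹) ^ m * B := by
  obtain ⟨t, hts, htc⟩ := Finset.exists_subset_card_eq hs
  apply supOn_le hab.le
  intro x hx
  refine (le_abs_self _).trans (interp_bound hp hab hδ t htc v (fun i hi => hv i (hts hi))
    (fun i hi j hj hij => hsep i (hts hi) j (hts hj) hij) ?_ hx)
  intro i hi
  rw [abs_of_pos (hpos _)]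
  exact hB i (hts hi)

/-- Bound on a subinterval of relative length `1 / M`. -/
theorem supOn_le_sub {m : ℕ} (hm : 1 ≤ m) {p : ℝ[X]} (hp : p.natDegree ≤ m)
    (hpos : ∀ s, 0 < p.eval s) {a b a' b' : ℝ} (hab : a < b) {M : ℝ} (hM : 0 < M)
    (h1 : a ≤ a') (h2 : b' ≤ b) (h3 : (b - a) / M ≤ b' - a') :
    supOn p a b ≤ (m + 1) * (m * M) ^ m * supOn p a' b' := by
  have hba : 0 < b - a := by linarith
  have hm' : (1 : ℝ) ≤ m := by exact_mod_cast hm
  have hm0 : (0 : ℝ) < m := by linarith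
  have hlen : 0 < b' - a' := lt_of_lt_of_le (by positivity) h3
  have hδ : 0 < ((m : ℝ) * M)⁻¹ := by positivity
  have key := supOn_le_of_points (ι := ℕ) hp hpos hab hδ (Finset.range (m + 1)) (by simp)
    (fun i => a' + i * ((b' - a') / m)) ?_ ?_ (B := supOn p a' b') ?_
  · rwa [inv_inv] at key
  · intro i hi
    have hi' : (i : ℝ) ≤ m := by
      have := Finset.mem_range.mp hi; exact_mod_cast Nat.lt_succ_iff.mp this
    have h4 : (0:ℝ) ≤ i * ((b' - a') / m) := by positivity
    have h5 : (i:ℝ) * ((b' - a') / m) ≤ b' - a' := by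
      calc (i:ℝ) * ((b' - a') / m) ≤ m * ((b' - a') / m) := by gcongr
        _ = b' - a' := by field_simp
    constructor <;> linarith
  · intro i _ j _ hij
    have h6 : (a' + i * ((b' - a') / m)) - (a' + j * ((b' - a') / m)) =
        ((i:ℝ) - j) * ((b' - a') / m) := by ring
    rw [h6, abs_mul, abs_of_pos (by positivity : 0 < (b' - a') / m)]
    have h7 : (1:ℝ) ≤ |(i:ℝ) - j| := by
      have : (1:ℤ) ≤ |(i:ℤ) - j| := Int.one_le_abs (by omega)
      exact_mod_cast this
    calc ((m:ℝ) * M)⁻¹ * (b - a) = (b - a) / M / m := by field_simp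
      _ ≤ (b' - a') / m := by gcongr
      _ ≤ |(i:ℝ) - j| * ((b' - a') / m) := by
        have : 0 < (b' - a') / m := by positivity
        nlinarith
  · intro i hi
    apply le_supOn
    have hi' : (i : ℝ) ≤ m := by
      have := Finset.mem_range.mp hi; exact_mod_cast Nat.lt_succ_iff.mp this
    have h4 : (0:ℝ) ≤ i * ((b' - a') / m) := by positivity
    have h5 : (i:ℝ) * ((b' - a') / m) ≤ b' - a' := by
      calc (i:ℝ) * ((b' - a') / m) ≤ m * ((b' - a') / m) := by gcongr
        _ = b' - a' := by field_simp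
    constructor <;> linarith

/-- The supremum of a product of two positive polynomials. -/
theorem supOn_mul_le {m : ℕ} (hm : 1 ≤ m) {p q : ℝ[X]} (hp : p.natDegree ≤ m)
    (hq : q.natDegree ≤ m) (hpp : ∀ s, 0 < p.eval s) (hqp : ∀ s, 0 < q.eval s)
    {a b : ℝ} (hab : a < b) :
    ∃ s ∈ Set.Icc a b, supOn p a b * supOn q a b ≤
      (2 * ((m + 1) * (2 * m) ^ m)) ^ 2 * (p.eval s * q.eval s) := by
  classical
  have hba : 0 < b - a := by linarith
  have hm' : (1 : ℝ) ≤ m := by exact_mod_cast hm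
  have hm0 : (0 : ℝ) < m := by linarith
  set c : ℝ := (m + 1) * (2 * m) ^ m with hc
  have hc0 : 0 < c := by positivity
  set v : ℕ → ℝ := fun i => a + i * ((b - a) / (2 * m)) with hv
  have hmem : ∀ i ∈ Finset.range (2 * m + 1), v i ∈ Set.Icc a b := by
    intro i hi
    have hi' : (i : ℝ) ≤ 2 * m := by
      have := Finset.mem_range.mp hi; exact_mod_cast Nat.lt_succ_iff.mp this
    have h4 : (0:ℝ) ≤ i * ((b - a) / (2 * m)) := by positivity
    have h5 : (i:ℝ) * ((b - a) / (2 * m)) ≤ b - a := by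
      calc (i:ℝ) * ((b - a) / (2 * m)) ≤ (2 * m) * ((b - a) / (2 * m)) := by gcongr
        _ = b - a := by field_simp
    constructor <;> simp only [hv] <;> linarith
  have hsep : ∀ i ∈ Finset.range (2 * m + 1), ∀ j ∈ Finset.range (2 * m + 1), i ≠ j →
      (2 * (m:ℝ))⁻¹ * (b - a) ≤ |v i - v j| := by
    intro i _ j _ hij
    have h6 : v i - v j = ((i:ℝ) - j) * ((b - a) / (2 * m)) := by simp only [hv]; ring
    rw [h6, abs_mul, abs_of_pos (by positivity : 0 < (b - a) / (2 * m))]
    have h7 : (1:ℝ) ≤ |(i:ℝ) - j| := by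
      have : (1:ℤ) ≤ |(i:ℤ) - j| := Int.one_le_abs (by omega)
      exact_mod_cast this
    have h8 : (2 * (m:ℝ))⁻¹ * (b - a) = (b - a) / (2 * m) := by field_simp
    rw [h8]
    have : 0 < (b - a) / (2 * m) := by positivity
    nlinarith
  have main : ∀ f : ℝ[X], f.natDegree ≤ m → (∀ s, 0 < f.eval s) →
      ((Finset.range (2 * m + 1)).filter
        (fun i => 2 * c * f.eval (v i) < supOn f a b)).card ≤ m := by
    intro f hf hfp
    by_contra hcon
    push Not at hcon
    have hS := supOn_pos hfp hab.le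
    have := supOn_le_of_points (ι := ℕ) hf hfp hab
      (δ := (2 * (m:ℝ))⁻¹) (by positivity) _ hcon v
      (fun i hi => hmem i (Finset.mem_filter.mp hi).1)
      (fun i hi j hj hij => hsep i (Finset.mem_filter.mp hi).1 j (Finset.mem_filter.mp hj).1 hij)
      (B := supOn f a b / (2 * c)) (by
        intro i hi
        have := (Finset.mem_filter.mp hi).2
        rw [le_div_iff₀ (by positivity)]; linarith)
    rw [inv_inv, ← hc] at this
    have h9 : c * (supOn f a b / (2 * c)) = supOn f a b / 2 := by field_simp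
    rw [h9] at this
    linarith
  have h1 := main p hp hpp
  have h2 := main q hq hqp
  have h3 : ∃ i ∈ Finset.range (2 * m + 1), ¬ (2 * c * p.eval (v i) < supOn p a b) ∧
      ¬ (2 * c * q.eval (v i) < supOn q a b) := by
    by_contra hcon
    push Not at hcon
    have hsub : Finset.range (2 * m + 1) ⊆
        (Finset.range (2 * m + 1)).filter (fun i => 2 * c * p.eval (v i) < supOn p a b) ∪
        (Finset.range (2 * m + 1)).filter (fun i => 2 * c * q.eval (v i) < supOn q a b) := by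
      intro i hi
      rw [Finset.mem_union, Finset.mem_filter, Finset.mem_filter]
      by_cases hpi : 2 * c * p.eval (v i) < supOn p a b
      · exact Or.inl ⟨hi, hpi⟩
      · exact Or.inr ⟨hi, hcon i hi (not_lt.mp hpi)⟩
    have := (Finset.card_le_card hsub).trans (Finset.card_union_le _ _)
    rw [Finset.card_range] at this
    omega
  obtain ⟨i, hi, h4, h5⟩ := h3
  rw [not_lt] at h4 h5
  refine ⟨v i, hmem i hi, ?_⟩
  calc supOn p a b * supOn q a b ≤ (2 * c * p.eval (v i)) * (2 * c * q.eval (v i)) := by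
        apply mul_le_mul h4 h5 (supOn_pos hqp hab.le).le
        have := hpp (v i); positivity
    _ = _ := by ring

end Pool.Agent.MPac5134.Lat
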