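import Pool.Agent.Lib.MP_ac5134_an.LatCore

/-!
One subdivision step: the average of `G ^ (1/m)` over `M` equal parts.
-/

namespace Pool.Agent.MPac5134.Lat

open Polynomial Finset MeasureTheory

universe u

namespace PolySys

/-- One step, with a constant that is explicit in the rank. -/
theorem step_explicit {m : ℕ} (hm : 1 ≤ m) : ∃ c : ℝ, 1 ≤ c ∧ ∀ (r : ℕ) (α : Type u) [Lattice α]
    [Nonempty α] (S : PolySys α r m) (M : ℕ) (σ : ℝ), 1 ≤ M → 1 ≤ σ →
    2 * ((m + 1) * (2 * m) ^ m) < σ → ((m:ℝ) + 1) * (m * M) ^ m ≤ σ → ∀ a b : ℝ, a < b →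
    ∑ t ∈ range M, S.G (σ ^ 2) (part a b M t) (part a b M (t + 1)) ^ (1 / (m:ℝ)) ≤
      (1 + (r + 1) * c) * (M * (1 + Real.log M)) * S.G (σ ^ 2) a b ^ (1 / (m:ℝ)) := by
  classical
  obtain ⟨c, hc1, hc⟩ := sum_rpow_le hm
  refine ⟨c, hc1, ?_⟩
  intro r α _ _ S M σ hM hσ1 hσ hσM a b hab
  have hm' : (1:ℝ) ≤ m := by exact_mod_cast hm
  have hm0 : (0:ℝ) < m := by linarith
  have hM' : (1:ℝ) ≤ M := by exact_mod_cast hM
  have hκ1 : 1 ≤ σ ^ 2 := one_le_pow₀ hσ1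
  have hκ0 : 0 < σ ^ 2 := by positivity
  have hq : 0 < 1 / (m:ℝ) := by positivity
  obtain ⟨T, hTc, hT⟩ := S.near_finset hm hσ hσ1 hab
  set Gm := S.G (σ ^ 2) a b with hGm
  have hG0 : 0 < Gm := S.G_pos hκ1 hab.le
  have hlog : 0 ≤ Real.log M := Real.log_nonneg hM'
  -- bound on one part
  have hpart : ∀ t ∈ range M, S.G (σ ^ 2) (part a b M t) (part a b M (t + 1)) ^ (1 / (m:ℝ)) ≤
      Gm ^ (1 / (m:ℝ)) +
        ∑ x ∈ T, S.g (σ ^ 2) (part a b M t) (part a b M (t + 1)) x ^ (1 / (m:ℝ)) := by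
    intro t ht
    have htM := mem_range.mp ht
    have hlt := part_lt hab (t := t) hM
    have hx : ∀ x, S.g (σ ^ 2) (part a b M t) (part a b M (t + 1)) x ≤
        (Gm ^ (1 / (m:ℝ)) +
        ∑ x ∈ T, S.g (σ ^ 2) (part a b M t) (part a b M (t + 1)) x ^ (1 / (m:ℝ))) ^ (m:ℝ) := by
      intro x
      have hsum0 : ∀ y ∈ T, 0 ≤
          S.g (σ ^ 2) (part a b M t) (part a b M (t + 1)) y ^ (1 / (m:ℝ)) := by
        intro y _
        exact Real.rpow_nonneg (S.g_pos hκ0 hlt.le y).le _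
      have hgx := S.g_pos hκ0 hlt.le x
      have e1 : S.g (σ ^ 2) (part a b M t) (part a b M (t + 1)) x =
          (S.g (σ ^ 2) (part a b M t) (part a b M (t + 1)) x ^ (1 / (m:ℝ))) ^ (m:ℝ) := by
        rw [← Real.rpow_mul hgx.le, one_div_mul_cancel hm0.ne', Real.rpow_one]
      by_cases hxT : x ∈ T
      · rw [e1]
        apply Real.rpow_le_rpow (Real.rpow_nonneg hgx.le _) _ hm0.le
        have := Finset.single_le_sum hsum0 hxT
        have h0 : 0 ≤ Gm ^ (1 / (m:ℝ)) := Real.rpow_nonneg hG0.le _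
        linarith
      · have hfar : σ * S.g (σ ^ 2) a b x < Gm := by
          by_contra hcon
          push Not at hcon
          exact hxT (hT x hcon)
        have h1 : S.g (σ ^ 2) (part a b M t) (part a b M (t + 1)) x ≤ σ * S.g (σ ^ 2) a b x := by
          unfold g
          have p1 := S.sup_pos hab.le x
          have p2 := S.sup_pos hlt.le x
          have h2 := supOn_le_sub hm (S.deg x) (S.pos x) hab (M := (M:ℝ)) (by linarith)
            (part_mem hab.le hM htM.le).1 (part_mem hab.le hM htM).2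
            (by rw [part_succ]; linarith)
          rw [← mul_div_assoc, div_le_div_iff₀ p2 p1]
          calc ((σ ^ 2) ^ (S.rk x * (r - S.rk x)))⁻¹ * supOn (S.P x) a b
              ≤ ((σ ^ 2) ^ (S.rk x * (r - S.rk x)))⁻¹ *
                (((m:ℝ) + 1) * (m * M) ^ m *
                  supOn (S.P x) (part a b M t) (part a b M (t + 1))) := by gcongr
            _ ≤ ((σ ^ 2) ^ (S.rk x * (r - S.rk x)))⁻¹ *
                (σ * supOn (S.P x) (part a b M t) (part a b M (t + 1))) := by gcongr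
            _ = _ := by ring
        have h3 : S.g (σ ^ 2) (part a b M t) (part a b M (t + 1)) x ≤ Gm := h1.trans hfar.le
        rw [e1]
        apply Real.rpow_le_rpow (Real.rpow_nonneg hgx.le _) _ hm0.le
        have h4 : S.g (σ ^ 2) (part a b M t) (part a b M (t + 1)) x ^ (1 / (m:ℝ)) ≤
            Gm ^ (1 / (m:ℝ)) := Real.rpow_le_rpow hgx.le h3 hq.le
        have := Finset.sum_nonneg hsum0
        linarith
    have h5 : S.G (σ ^ 2) (part a b M t) (part a b M (t + 1)) ≤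
        (Gm ^ (1 / (m:ℝ)) +
        ∑ x ∈ T, S.g (σ ^ 2) (part a b M t) (part a b M (t + 1)) x ^ (1 / (m:ℝ))) ^ (m:ℝ) :=
      ciSup_le hx
    have h6 : 0 ≤ Gm ^ (1 / (m:ℝ)) +
        ∑ x ∈ T, S.g (σ ^ 2) (part a b M t) (part a b M (t + 1)) x ^ (1 / (m:ℝ)) := by
      have h0 : 0 ≤ Gm ^ (1 / (m:ℝ)) := Real.rpow_nonneg hG0.le _
      have := Finset.sum_nonneg (s := T) (f := fun x =>
        S.g (σ ^ 2) (part a b M t) (part a b M (t + 1)) x ^ (1 / (m:ℝ)))
        (fun y _ => Real.rpow_nonneg (S.g_pos hκ0 hlt.le y).le _)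
      linarith
    calc _ ≤ ((Gm ^ (1 / (m:ℝ)) +
        ∑ x ∈ T, S.g (σ ^ 2) (part a b M t) (part a b M (t + 1)) x ^ (1 / (m:ℝ))) ^ (m:ℝ)) ^
          (1 / (m:ℝ)) :=
          Real.rpow_le_rpow (S.G_pos hκ1 hlt.le).le h5 hq.le
      _ = _ := by rw [← Real.rpow_mul h6, mul_one_div_cancel hm0.ne', Real.rpow_one]
  -- the sum of one near-maximal element over the parts
  have hone : ∀ x ∈ T, ∑ t ∈ range M,
      S.g (σ ^ 2) (part a b M t) (part a b M (t + 1)) x ^ (1 / (m:ℝ)) ≤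
        c * (M * (1 + Real.log M)) * Gm ^ (1 / (m:ℝ)) := by
    intro x _
    have e : ∀ a' b' : ℝ, a' ≤ b' → S.g (σ ^ 2) a' b' x ^ (1 / (m:ℝ)) =
        (((σ ^ 2) ^ (S.rk x * (r - S.rk x)))⁻¹) ^ (1 / (m:ℝ)) *
          supOn (S.P x) a' b' ^ (-(1 / (m:ℝ))) := by
      intro a' b' h
      have := S.sup_pos h x
      unfold g
      rw [div_eq_mul_inv, Real.mul_rpow (by positivity) (by positivity), Real.inv_rpow this.le,
        Real.rpow_neg this.le]
    have h1 : ∀ t ∈ range M, S.g (σ ^ 2) (part a b M t) (part a b M (t + 1)) x ^ (1 / (m:ℝ)) =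
        (((σ ^ 2) ^ (S.rk x * (r - S.rk x)))⁻¹) ^ (1 / (m:ℝ)) *
          supOn (S.P x) (part a b M t) (part a b M (t + 1)) ^ (-(1 / (m:ℝ))) :=
      fun t _ => e _ _ (part_lt hab hM).le
    rw [Finset.sum_congr rfl h1, ← Finset.mul_sum]
    have h2 := hc (S.P x) (S.deg x) (S.pos x) a b hab M hM
    calc (((σ ^ 2) ^ (S.rk x * (r - S.rk x)))⁻¹) ^ (1 / (m:ℝ)) *
          ∑ t ∈ range M, supOn (S.P x) (part a b M t) (part a b M (t + 1)) ^ (-(1 / (m:ℝ)))
        ≤ (((σ ^ 2) ^ (S.rk x * (r - S.rk x)))⁻¹) ^ (1 / (m:ℝ)) *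
          (c * (M * (1 + Real.log M)) * supOn (S.P x) a b ^ (-(1 / (m:ℝ)))) := by
          gcongr
      _ = c * (M * (1 + Real.log M)) * S.g (σ ^ 2) a b x ^ (1 / (m:ℝ)) := by
          rw [e a b hab.le]; ring
      _ ≤ c * (M * (1 + Real.log M)) * Gm ^ (1 / (m:ℝ)) := by
          have := S.g_le_G hκ1 hab.le x
          have := S.g_pos hκ0 hab.le x
          gcongr
  calc ∑ t ∈ range M, S.G (σ ^ 2) (part a b M t) (part a b M (t + 1)) ^ (1 / (m:ℝ))
      ≤ ∑ t ∈ range M, (Gm ^ (1 / (m:ℝ)) +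
        ∑ x ∈ T, S.g (σ ^ 2) (part a b M t) (part a b M (t + 1)) x ^ (1 / (m:ℝ))) :=
        Finset.sum_le_sum hpart
    _ = M * Gm ^ (1 / (m:ℝ)) + ∑ x ∈ T, ∑ t ∈ range M,
        S.g (σ ^ 2) (part a b M t) (part a b M (t + 1)) x ^ (1 / (m:ℝ)) := by
        rw [Finset.sum_add_distrib, Finset.sum_const, Finset.card_range, nsmul_eq_mul,
          Finset.sum_comm]
    _ ≤ M * Gm ^ (1 / (m:ℝ)) + ∑ _x ∈ T, c * (M * (1 + Real.log M)) * Gm ^ (1 / (m:ℝ)) := by
        gcongr with x hx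
        exact hone x hx
    _ = M * Gm ^ (1 / (m:ℝ)) + T.card * (c * (M * (1 + Real.log M)) * Gm ^ (1 / (m:ℝ))) := by
        rw [Finset.sum_const, nsmul_eq_mul]
    _ ≤ (M * (1 + Real.log M)) * Gm ^ (1 / (m:ℝ)) +
          (r + 1) * (c * (M * (1 + Real.log M)) * Gm ^ (1 / (m:ℝ))) := by
        have hG' : 0 ≤ Gm ^ (1 / (m:ℝ)) := by positivity
        have hT' : (T.card : ℝ) ≤ r + 1 := by exact_mod_cast hTc
        have h1 : (M:ℝ) ≤ M * (1 + Real.log M) := by nlinarith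
        gcongr
    _ = _ := by ring

end PolySys

end Pool.Agent.MPac5134.Lat
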