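import Pool.Agent.Lib.MP_ac5134_an.LatPoly

/-!
Averages of negative powers of suprema of a positive polynomial over the parts of a subdivision.
-/

namespace Pool.Agent.MPac5134.Lat

open Polynomial Finset

/-- the `t`-th of `M` equal parts of `[a, b]`: left end point -/
noncomputable def part (a b : ℝ) (M t : ℕ) : ℝ := a + t * ((b - a) / M)

theorem part_succ (a b : ℝ) (M t : ℕ) : part a b M (t + 1) = part a b M t + (b - a) / M := by
  unfold part; push_cast; ring

theorem part_mem {a b : ℝ} (hab : a ≤ b) {M t : ℕ} (hM : 0 < M) (ht : t ≤ M) :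
    part a b M t ∈ Set.Icc a b := by
  unfold part
  have hM' : (0:ℝ) < M := by exact_mod_cast hM
  have ht' : (t:ℝ) ≤ M := by exact_mod_cast ht
  have h0 : 0 ≤ (b - a) / M := div_nonneg (by linarith) hM'.le
  have h1 : (t:ℝ) * ((b - a) / M) ≤ b - a := by
    calc (t:ℝ) * ((b - a) / M) ≤ M * ((b - a) / M) := by gcongr
      _ = b - a := by field_simp
  have h2 : 0 ≤ (t:ℝ) * ((b - a) / M) := by positivity
  constructor <;> linarith

theorem part_lt {a b : ℝ} (hab : a < b) {M t : ℕ} (hM : 0 < M) :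
    part a b M t < part a b M (t + 1) := by
  rw [part_succ]
  have hM' : (0:ℝ) < M := by exact_mod_cast hM
  have : 0 < (b - a) / M := div_pos (by linarith) hM'
  linarith

/-- few parts on which the polynomial is small -/
theorem card_small {m : ℕ} (hm : 1 ≤ m) {p : ℝ[X]} (hp : p.natDegree ≤ m)
    (hpos : ∀ s, 0 < p.eval s) {a b : ℝ} (hab : a < b) {M : ℕ} (hM : 1 ≤ M) {lam : ℝ}
    (hlam : 0 < lam) :
    (((range M).filter (fun t => supOn p (part a b M t) (part a b M (t + 1)) * lam ^ m <
      supOn p a b)).card : ℝ) ≤ m + m * (m + 1) * M / lam := by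
  classical
  set T := (range M).filter (fun t => supOn p (part a b M t) (part a b M (t + 1)) * lam ^ m <
      supOn p a b) with hT
  set n := T.card with hn
  have hba : 0 < b - a := by linarith
  have hM' : (0:ℝ) < M := by exact_mod_cast hM
  have hm' : (1:ℝ) ≤ m := by exact_mod_cast hm
  rcases Nat.eq_zero_or_pos n with h0 | hn0
  · rw [h0]; push_cast; positivity
  set q := (n - 1) / m with hq
  have hq1 : n ≤ m * (q + 1) := by
    have h1 : n - 1 < m * (q + 1) := by
      rw [hq]; exact Nat.lt_mul_div_succ (n - 1) (by omega)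
    omega
  have hq2 : m * q + 1 ≤ n := by
    have h1 : m * q ≤ n - 1 := by rw [hq]; exact Nat.mul_div_le (n - 1) m
    omega
  have hS := supOn_pos hpos hab.le
  -- the key inequality
  have key : (q : ℝ) ≤ (m + 1) * M / lam := by
    by_contra hcon
    push Not at hcon
    have hq0 : 0 < q := by
      rcases Nat.eq_zero_or_pos q with h | h
      · rw [h] at hcon
        have : (0:ℝ) < (m + 1) * M / lam := by positivity
        push_cast at hcon; linarith
      · exact h
    have hq0' : (0:ℝ) < q := by exact_mod_cast hq0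
    let e := T.orderEmbOfFin hn.symm
    have he : ∀ i ∈ range (m + 1), i * q < n := by
      intro i hi
      have : i ≤ m := Nat.lt_succ_iff.mp (mem_range.mp hi)
      calc i * q ≤ m * q := Nat.mul_le_mul_right q this
        _ < n := by omega
    let t : ℕ → ℕ := fun i => if h : i * q < n then e ⟨i * q, h⟩ else 0
    have ht : ∀ i ∈ range (m + 1), t i ∈ T := by
      intro i hi
      have h := he i hi
      simp only [t, dif_pos h]
      exact T.orderEmbOfFin_mem hn.symm _
    have hmono : ∀ (i j : Fin n), i ≤ j → (j:ℕ) - (i:ℕ) ≤ e j - e i ∧ e i ≤ e j := by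
      intro i j hij
      have hle : e i ≤ e j := e.monotone hij
      refine ⟨?_, hle⟩
      obtain ⟨i, hi⟩ := i
      obtain ⟨j, hj⟩ := j
      have hij' : i ≤ j := hij
      clear hij hle
      induction j, hij' using Nat.le_induction with
      | base => simp
      | succ k hk ih =>
        have hk' : k < n := by omega
        have h1 := ih hk'
        have h2 : e ⟨k, hk'⟩ < e ⟨k + 1, hj⟩ := e.strictMono (by
          rw [Fin.lt_def]; exact Nat.lt_succ_self k)
        have h3 : e ⟨i, hi⟩ ≤ e ⟨k, hk'⟩ := e.monotone (by rw [Fin.le_def]; exact hk)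
        simp only at h1 ⊢
        omega
    have hgap : ∀ i ∈ range (m + 1), ∀ j ∈ range (m + 1), i < j → q ≤ t j - t i ∧ t i ≤ t j := by
      intro i hi j hj hij
      have h1 := he i hi
      have h2 := he j hj
      simp only [t, dif_pos h1, dif_pos h2]
      have h3 := hmono ⟨i * q, h1⟩ ⟨j * q, h2⟩ (by
        rw [Fin.le_def]; exact Nat.mul_le_mul_right q hij.le)
      refine ⟨le_trans ?_ h3.1, h3.2⟩
      simp only
      have h4 : (i + 1) * q ≤ j * q := Nat.mul_le_mul_right q hij
      have h5 : (i + 1) * q = i * q + q := by ring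
      omega
    have hsep : ∀ i ∈ range (m + 1), ∀ j ∈ range (m + 1), i ≠ j →
        (q / M : ℝ) * (b - a) ≤ |part a b M (t i) - part a b M (t j)| := by
      have aux : ∀ i ∈ range (m + 1), ∀ j ∈ range (m + 1), i < j →
          (q / M : ℝ) * (b - a) ≤ |part a b M (t i) - part a b M (t j)| := by
        intro i hi j hj hij
        obtain ⟨h1, h2⟩ := hgap i hi j hj hij
        have h3 : (q:ℝ) ≤ (t j : ℝ) - t i := by
          have : q + t i ≤ t j := by omega
          have : ((q + t i : ℕ) : ℝ) ≤ t j := by exact_mod_cast this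
          push_cast at this; linarith
        have h4 : part a b M (t i) - part a b M (t j) = -(((t j:ℝ) - t i) * ((b - a) / M)) := by
          unfold part; ring
        rw [h4, abs_neg, abs_of_nonneg (by
          have : 0 < (b - a) / M := by positivity
          nlinarith)]
        calc (q / M : ℝ) * (b - a) = q * ((b - a) / M) := by ring
          _ ≤ _ := by gcongr
      intro i hi j hj hij
      rcases lt_or_gt_of_ne hij with h | h
      · exact aux i hi j hj h
      · rw [abs_sub_comm]; exact aux j hj i hi h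
    have hb := supOn_le_of_points (ι := ℕ) hp hpos hab (δ := (q / M : ℝ)) (by positivity)
      (range (m + 1)) (by simp) (fun i => part a b M (t i))
      (fun i hi => part_mem hab.le hM (by
        have := (mem_filter.mp (ht i hi)).1
        exact (mem_range.mp this).le))
      hsep (B := supOn p a b / lam ^ m) (by
        intro i hi
        rw [le_div_iff₀ (by positivity)]
        have h1 := (mem_filter.mp (ht i hi)).2
        refine le_trans ?_ h1.le
        gcongr
        exact le_supOn p ⟨le_refl _, (part_lt hab hM).le⟩)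
    have h5 : ((q / M : ℝ)⁻¹) ^ m ≤ (lam / (m + 1)) ^ m := by
      apply pow_le_pow_left₀ (by positivity)
      rw [inv_div, div_le_div_iff₀ hq0' (by positivity)]
      have h6 : (m + 1) * (M:ℝ) < q * lam := by
        rwa [div_lt_iff₀ hlam] at hcon
      nlinarith
    have h7 : ((m:ℝ) + 1) ≤ (m + 1) ^ m := by
      calc ((m:ℝ) + 1) = (m + 1) ^ 1 := (pow_one _).symm
        _ ≤ (m + 1) ^ m := pow_le_pow_right₀ (by linarith) hm
    have h8 : supOn p a b ≤ (m + 1) * (lam / (m + 1)) ^ m * (supOn p a b / lam ^ m) := by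
      refine hb.trans ?_
      gcongr
    have h9 : ((m:ℝ) + 1) * (lam / (m + 1)) ^ m * (supOn p a b / lam ^ m) =
        ((m + 1) / (m + 1) ^ m) * supOn p a b := by
      rw [div_pow]; field_simp
    -- strictness
    have h10 : ((q / M : ℝ)⁻¹) < lam / (m + 1) := by
      rw [inv_div, div_lt_div_iff₀ hq0' (by positivity)]
      have h6 : (m + 1) * (M:ℝ) < q * lam := by
        rwa [div_lt_iff₀ hlam] at hcon
      nlinarith
    have h11 : ((q / M : ℝ)⁻¹) ^ m < (lam / (m + 1)) ^ m :=
      pow_lt_pow_left₀ h10 (by positivity) (by omega)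
    have h12 : supOn p a b < (m + 1) * (lam / (m + 1)) ^ m * (supOn p a b / lam ^ m) := by
      refine hb.trans_lt ?_
      gcongr
    rw [h9] at h12
    have h13 : ((m:ℝ) + 1) / (m + 1) ^ m ≤ 1 := by
      rw [div_le_one (by positivity)]; exact h7
    nlinarith
  have h1 : (n:ℝ) ≤ m * (q + 1) := by exact_mod_cast hq1
  calc (n:ℝ) ≤ m * (q + 1) := h1
    _ ≤ m * ((m + 1) * M / lam + 1) := by gcongr
    _ = m + m * (m + 1) * M / lam := by ring

theorem le_dyadic (K : ℕ) {w : ℝ} (hw : w ≤ 2 ^ K) :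
    w ≤ 1 + ∑ k ∈ range K, (if (2:ℝ) ^ k < w then (2:ℝ) ^ k else 0) := by
  induction K with
  | zero => simpa using hw
  | succ K ih =>
    by_cases h : w ≤ 2 ^ K
    · refine (ih h).trans ?_
      rw [Finset.sum_range_succ]
      have : (0:ℝ) ≤ if (2:ℝ) ^ K < w then (2:ℝ) ^ K else 0 := by split_ifs <;> positivity
      linarith
    · push Not at h
      have h1 : ∀ k ∈ range (K + 1), (if (2:ℝ) ^ k < w then (2:ℝ) ^ k else 0) = 2 ^ k := by
        intro k hk
        rw [if_pos]
        refine lt_of_le_of_lt (pow_le_pow_right₀ (by norm_num) ?_) h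
        exact Nat.lt_succ_iff.mp (mem_range.mp hk)
      rw [Finset.sum_congr rfl h1]
      have h2 : ∑ k ∈ range (K + 1), (2:ℝ) ^ k = 2 ^ (K + 1) - 1 := by
        have := geom_sum_eq (x := (2:ℝ)) (by norm_num) (K + 1)
        rw [this]; norm_num
      rw [h2]; linarith

/-- the average of `(sup_{J_t} p)^(-1/m)` over `M` equal parts `J_t` -/
theorem sum_rpow_le {m : ℕ} (hm : 1 ≤ m) : ∃ C : ℝ, 1 ≤ C ∧ ∀ p : ℝ[X], p.natDegree ≤ m →
    (∀ s, 0 < p.eval s) → ∀ a b : ℝ, a < b → ∀ M : ℕ, 1 ≤ M →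
    ∑ t ∈ range M, (supOn p (part a b M t) (part a b M (t + 1))) ^ (-(1 / (m:ℝ))) ≤
      C * (M * (1 + Real.log M)) * (supOn p a b) ^ (-(1 / (m:ℝ))) := by
  have hm' : (1:ℝ) ≤ m := by exact_mod_cast hm
  have hm0 : (0:ℝ) < m := by linarith
  set c : ℝ := Real.log (m * (m + 1)) with hc
  have hc0 : 0 ≤ c := Real.log_nonneg (by nlinarith)
  refine ⟨1 + 2 * m ^ 2 * (m + 1) + m * (m + 1) * (1 + 2 * c + 2), ?_, ?_⟩
  · have : 0 ≤ 2 * (m:ℝ) ^ 2 * (m + 1) + m * (m + 1) * (1 + 2 * c + 2) := by positivity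
    linarith
  intro p hp hpos a b hab M hM
  have hM' : (1:ℝ) ≤ M := by exact_mod_cast hM
  set S := supOn p a b with hSdef
  set u : ℕ → ℝ := fun t => supOn p (part a b M t) (part a b M (t + 1)) with hu
  have hS : 0 < S := supOn_pos hpos hab.le
  have hu0 : ∀ t, 0 < u t := fun t => supOn_pos hpos (part_lt hab hM).le
  set w : ℕ → ℝ := fun t => (S / u t) ^ (1 / (m:ℝ)) with hw
  have hw0 : ∀ t, 0 ≤ w t := fun t => by
    have := hu0 t
    simp only [hw]; positivity
  have hwm : ∀ t, w t ^ m = S / u t := by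
    intro t
    simp only [hw]
    rw [← Real.rpow_natCast, ← Real.rpow_mul (by have := hu0 t; positivity)]
    rw [one_div_mul_cancel hm0.ne', Real.rpow_one]
  have huw : ∀ t, u t ^ (-(1 / (m:ℝ))) = w t * S ^ (-(1 / (m:ℝ))) := by
    intro t
    simp only [hw]
    rw [Real.div_rpow hS.le (hu0 t).le, Real.rpow_neg hS.le, Real.rpow_neg (hu0 t).le]
    have : S ^ (1 / (m:ℝ)) ≠ 0 := (Real.rpow_pos_of_pos hS _).ne'
    field_simp
  have hsum : ∑ t ∈ range M, u t ^ (-(1 / (m:ℝ))) = (∑ t ∈ range M, w t) * S ^ (-(1 / (m:ℝ))) := by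
    rw [Finset.sum_mul]; exact Finset.sum_congr rfl fun t _ => huw t
  change ∑ t ∈ range M, u t ^ (-(1 / (m:ℝ))) ≤ _
  rw [hsum]
  have hSp : 0 ≤ S ^ (-(1 / (m:ℝ))) := by positivity
  refine mul_le_mul_of_nonneg_right ?_ hSp
  -- size of w
  set W : ℕ := m * (m + 1) * M with hW
  have hW1 : 1 ≤ W := by
    rw [hW]; exact Nat.mul_pos (Nat.mul_pos (by omega) (by omega)) (by omega)
  have hwW : ∀ t ∈ range M, w t ≤ W := by
    intro t ht
    have htM := mem_range.mp ht
    have h1 := supOn_le_sub hm hp hpos hab (M := (M:ℝ)) (by linarith)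
      (part_mem hab.le hM htM.le).1 (part_mem hab.le hM htM).2 (by rw [part_succ]; linarith)
    have h2 : w t ^ m ≤ (W:ℝ) ^ m := by
      rw [hwm t, div_le_iff₀ (hu0 t)]
      refine h1.trans ?_
      have : ((m:ℝ) + 1) * (m * M) ^ m ≤ (W:ℝ) ^ m := by
        rw [hW]; push_cast
        calc ((m:ℝ) + 1) * (m * M) ^ m ≤ (m + 1) ^ m * (m * M) ^ m := by
              gcongr
              calc ((m:ℝ) + 1) = (m + 1) ^ 1 := (pow_one _).symm
                _ ≤ (m + 1) ^ m := pow_le_pow_right₀ (by linarith) hm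
          _ = (m * (m + 1) * M) ^ m := by rw [← mul_pow]; ring
      exact mul_le_mul_of_nonneg_right this (hu0 t).le
    exact le_of_pow_le_pow_left₀ (by omega) (by positivity) h2
  set K := Nat.clog 2 W with hK
  have hWK : W ≤ 2 ^ K := Nat.le_pow_clog (by norm_num) W
  have hKW : (2:ℝ) ^ K ≤ 2 * W := by
    rcases Nat.eq_zero_or_pos K with h | h
    · rw [h, pow_zero]
      have : (1:ℝ) ≤ W := by exact_mod_cast hW1
      linarith
    · have h1 : 2 ^ (K - 1) < W := by
        have hW2 : 1 < W := by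
          by_contra hcon
          have : W = 1 := by omega
          rw [hK, this] at h; simp at h
        exact Nat.pow_pred_clog_lt_self (by norm_num) hW2
      have h2 : (2:ℕ) ^ K = 2 * 2 ^ (K - 1) := by
        rw [← pow_succ']; congr 1; omega
      have h3 : 2 ^ K ≤ 2 * W := by rw [h2]; omega
      exact_mod_cast h3
  have hlogK : (K:ℝ) ≤ 1 + 2 * c + 2 * Real.log M := by
    have h1 : (K:ℝ) * Real.log 2 ≤ Real.log (2 * W) := by
      rw [← Real.log_pow]
      exact Real.log_le_log (by positivity) hKW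
    have hW0 : (0:ℝ) < W := by exact_mod_cast hW1
    have h2 : Real.log (2 * W) = Real.log 2 + (c + Real.log M) := by
      rw [Real.log_mul (by norm_num) hW0.ne', hW]
      push_cast
      rw [Real.log_mul (by positivity) (by positivity)]
    have h3 : (1:ℝ)/2 < Real.log 2 := by have := Real.log_two_gt_d9; linarith
    have h4 : 0 ≤ Real.log M := Real.log_nonneg hM'
    rw [h2] at h1
    by_contra hcon
    push Not at hcon
    nlinarith
  have hT : ∀ k ∈ range K, ∑ t ∈ range M, (if (2:ℝ) ^ k < w t then (2:ℝ) ^ k else 0) ≤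
      (m:ℝ) * 2 ^ k + (m:ℝ) * ((m:ℝ) + 1) * (M:ℝ) := by
    intro k _
    rw [← Finset.sum_filter, Finset.sum_const, nsmul_eq_mul]
    have h2k : (0:ℝ) < 2 ^ k := by positivity
    have h1 := card_small hm hp hpos hab hM h2k
    have h2 : (range M).filter (fun t => (2:ℝ) ^ k < w t) =
        (range M).filter (fun t => u t * (2 ^ k) ^ m < S) := by
      apply Finset.filter_congr
      intro t _
      rw [← lt_div_iff₀' (hu0 t), ← hwm t]
      constructor
      · intro h; exact pow_lt_pow_left₀ h (by positivity) (by omega)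
      · intro h; exact lt_of_pow_lt_pow_left₀ m (hw0 t) h
    rw [h2]
    calc _ ≤ ((m:ℝ) + (m:ℝ) * ((m:ℝ) + 1) * (M:ℝ) / 2 ^ k) * 2 ^ k :=
          mul_le_mul_of_nonneg_right h1 h2k.le
      _ = (m:ℝ) * 2 ^ k + (m:ℝ) * ((m:ℝ) + 1) * (M:ℝ) := by field_simp
  have hfin : ∑ t ∈ range M, w t ≤
      (M:ℝ) + ((m:ℝ) * 2 ^ K + (K:ℝ) * ((m:ℝ) * ((m:ℝ) + 1) * (M:ℝ))) := by
    calc ∑ t ∈ range M, w t
        ≤ ∑ t ∈ range M, (1 + ∑ k ∈ range K, (if (2:ℝ) ^ k < w t then (2:ℝ) ^ k else 0)) := by
          apply Finset.sum_le_sum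
          intro t ht
          apply le_dyadic
          refine (hwW t ht).trans ?_
          exact_mod_cast hWK
      _ = (M:ℝ) + ∑ k ∈ range K, ∑ t ∈ range M, (if (2:ℝ) ^ k < w t then (2:ℝ) ^ k else 0) := by
          rw [Finset.sum_add_distrib, Finset.sum_comm, Finset.sum_const, Finset.card_range,
            nsmul_eq_mul, mul_one]
      _ ≤ (M:ℝ) + ∑ k ∈ range K, ((m:ℝ) * 2 ^ k + (m:ℝ) * ((m:ℝ) + 1) * (M:ℝ)) :=
          add_le_add le_rfl (Finset.sum_le_sum hT)
      _ = (M:ℝ) + ((m:ℝ) * (2 ^ K - 1) + (K:ℝ) * ((m:ℝ) * ((m:ℝ) + 1) * (M:ℝ))) := by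
          rw [Finset.sum_add_distrib, ← Finset.mul_sum]
          have : ∑ k ∈ range K, (2:ℝ) ^ k = 2 ^ K - 1 := by
            rw [geom_sum_eq (by norm_num)]; norm_num
          rw [this, Finset.sum_const, Finset.card_range, nsmul_eq_mul]
      _ ≤ _ := by
          have : (m:ℝ) * (2 ^ K - 1) ≤ m * 2 ^ K := by nlinarith
          linarith
  refine hfin.trans ?_
  have h4 : 0 ≤ Real.log M := Real.log_nonneg hM'
  have h5 : (m:ℝ) * 2 ^ K ≤ m * (2 * (m * (m + 1) * M)) := by
    gcongr
    refine hKW.trans ?_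
    rw [hW]; push_cast; exact le_refl _
  have h6 : (K:ℝ) * (m * (m + 1) * M) ≤ (1 + 2 * c + 2 * Real.log M) * (m * (m + 1) * M) := by
    gcongr
  calc M + ((m:ℝ) * 2 ^ K + K * (m * (m + 1) * M))
      ≤ M + (m * (2 * (m * (m + 1) * M)) + (1 + 2 * c + 2 * Real.log M) * (m * (m + 1) * M)) := by
        gcongr
    _ = (1 + 2 * m ^ 2 * (m + 1)) * M + (m * (m + 1)) * (1 + 2 * c + 2 * Real.log M) * M := by ring
    _ ≤ _ := by
        have hA : 0 ≤ (1 + 2 * (m:ℝ) ^ 2 * (m + 1)) * M * Real.log M := by positivity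
        have hB : 0 ≤ (m:ℝ) * (m + 1) * M := by positivity
        have hC : 0 ≤ (1 + 2 * c) * Real.log M := by positivity
        nlinarith [mul_nonneg hB hC]

end Pool.Agent.MPac5134.Lat
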