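import Pool.Agent.Lib.MP_ac5134_an.LatStep

/-!
The measure of the set where one of the polynomials of a `PolySys` is small.
-/

namespace Pool.Agent.MPac5134.Lat

open Polynomial Finset MeasureTheory

universe u

namespace PolySys

variable {α : Type u} [Lattice α] {r m : ℕ}

/-- the set where one of the polynomials is at most `η` -/
def bad (S : PolySys α r m) (η a b : ℝ) : Set ℝ := {s | s ∈ Set.Icc a b ∧ ∃ x, (S.P x).eval s ≤ η}

theorem exponent_le (S : PolySys α r m) (x : α) : S.rk x * (r - S.rk x) ≤ r * r :=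
  Nat.mul_le_mul (S.rk_le x) (Nat.sub_le _ _)

theorem Icc_subset_parts {a b : ℝ} (hab : a < b) {M : ℕ} (hM : 1 ≤ M) {s : ℝ}
    (hs : s ∈ Set.Icc a b) : ∃ t ∈ range M, s ∈ Set.Icc (part a b M t) (part a b M (t + 1)) := by
  have hM' : (0:ℝ) < M := by exact_mod_cast hM
  have hh : 0 < (b - a) / M := div_pos (by linarith) hM'
  by_cases hb : s = b
  · refine ⟨M - 1, mem_range.mpr (by omega), ?_⟩
    have h1 : M - 1 + 1 = M := by omega
    have h2 : part a b M M = b := by unfold part; field_simp; ring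
    have h3 := part_lt hab (t := M - 1) hM
    rw [h1, h2] at *
    exact ⟨by rw [hb]; exact h3.le, by rw [hb]⟩
  · have hsb : s < b := lt_of_le_of_ne hs.2 hb
    set u : ℝ := (s - a) / ((b - a) / M) with hu
    have hu0 : 0 ≤ u := div_nonneg (by linarith [hs.1]) hh.le
    have hsu : s = a + u * ((b - a) / M) := by
      rw [hu, div_mul_cancel₀ _ hh.ne']; ring
    have huM : u < M := by
      rw [hu, div_lt_iff₀ hh]
      have : (M:ℝ) * ((b - a) / M) = b - a := by field_simp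
      rw [this]; linarith
    refine ⟨⌊u⌋₊, mem_range.mpr ?_, ?_, ?_⟩
    · exact (Nat.floor_lt hu0).mpr huM
    · unfold part
      rw [hsu]
      have := Nat.floor_le hu0
      gcongr
    · rw [part_succ]
      unfold part
      have := (Nat.lt_floor_add_one u).le
      calc s = a + u * ((b - a) / M) := hsu
        _ ≤ a + ((⌊u⌋₊ : ℝ) + 1) * ((b - a) / M) := by gcongr
        _ = _ := by ring

omit [Lattice α] in
/-- The tree induction. -/
theorem tree (hm : 1 ≤ m) : ∃ c : ℝ, 1 ≤ c ∧ ∀ (r : ℕ) (α : Type u) [Lattice α] [Nonempty α]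
    (S : PolySys α r m) (M : ℕ) (σ : ℝ), 1 ≤ M → 1 ≤ σ →
    2 * ((m + 1) * (2 * m) ^ m) < σ → ((m:ℝ) + 1) * (m * M) ^ m ≤ σ →
    ∀ (D h : ℝ), 1 ≤ D → 0 < h →
    (∀ x s s', |s - s'| ≤ h → (S.P x).eval s' ≤ D * (S.P x).eval s) →
    ∀ η : ℝ, 0 < η → ∀ k : ℕ, ∀ a b : ℝ, a < b → b - a ≤ M ^ k * h →
    volume (S.bad η a b) ≤ ENNReal.ofReal ((b - a) * ((1 + (r + 1) * c) * (1 + Real.log M)) ^ k *
      (D * (σ ^ 2) ^ (r * r) * η * S.G (σ ^ 2) a b) ^ (1 / (m:ℝ))) := by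
  obtain ⟨c, hc1, hc⟩ := step_explicit.{u} hm
  refine ⟨c, hc1, ?_⟩
  intro r α _ _ S M σ hM hσ1 hσ hσM D h hD hh hcomp η hη k
  set C : ℝ := 1 + (r + 1) * c with hCdef
  have hC1 : 1 ≤ C := by
    have : (0:ℝ) ≤ (r + 1) * c := by positivity
    linarith
  have hC := hc r
  have hm' : (1:ℝ) ≤ m := by exact_mod_cast hm
  have hm0 : (0:ℝ) < m := by linarith
  have hM' : (1:ℝ) ≤ M := by exact_mod_cast hM
  have hκ1 : 1 ≤ σ ^ 2 := one_le_pow₀ hσ1
  have hκ0 : 0 < σ ^ 2 := by positivity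
  have hq : 0 < 1 / (m:ℝ) := by positivity
  have hlog : 0 ≤ Real.log M := Real.log_nonneg hM'
  induction k with
  | zero =>
    intro a b hab hlen
    rw [pow_zero, one_mul] at hlen
    rw [pow_zero, mul_one]
    rcases Set.eq_empty_or_nonempty (S.bad η a b) with he | ⟨s, hs, x, hx⟩
    · rw [he]; simp
    · have h1 : supOn (S.P x) a b ≤ D * η := by
        apply supOn_le hab.le
        intro s' hs'
        refine (hcomp x s s' ?_).trans (by gcongr)
        rw [abs_le]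
        constructor <;> linarith [hs.1, hs.2, hs'.1, hs'.2]
      have h2 : 1 ≤ D * (σ ^ 2) ^ (r * r) * η * S.G (σ ^ 2) a b := by
        have h3 := S.g_le_G hκ1 hab.le x
        have h4 := S.sup_pos hab.le x
        have h5 : 1 ≤ D * (σ ^ 2) ^ (r * r) * η * S.g (σ ^ 2) a b x := by
          unfold g
          have h6 : (σ ^ 2) ^ (S.rk x * (r - S.rk x)) ≤ (σ ^ 2) ^ (r * r) :=
            pow_le_pow_right₀ hκ1 (S.exponent_le x)
          have h7 : D * (σ ^ 2) ^ (r * r) * η *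
              (((σ ^ 2) ^ (S.rk x * (r - S.rk x)))⁻¹ / supOn (S.P x) a b) =
              ((σ ^ 2) ^ (r * r) * (D * η)) / ((σ ^ 2) ^ (S.rk x * (r - S.rk x)) *
                supOn (S.P x) a b) := by field_simp
          rw [h7, one_le_div (by positivity)]
          gcongr
        refine h5.trans ?_
        gcongr
      have h8 : 1 ≤ (D * (σ ^ 2) ^ (r * r) * η * S.G (σ ^ 2) a b) ^ (1 / (m:ℝ)) :=
        Real.one_le_rpow h2 hq.le
      calc volume (S.bad η a b) ≤ volume (Set.Icc a b) := measure_mono fun s hs => hs.1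
        _ = ENNReal.ofReal (b - a) := Real.volume_Icc
        _ ≤ _ := by
          apply ENNReal.ofReal_le_ofReal
          nlinarith
  | succ k ih =>
    intro a b hab hlen
    have hlenM : ∀ t, part a b M (t + 1) - part a b M t = (b - a) / M := by
      intro t; rw [part_succ]; ring
    have hsub : S.bad η a b ⊆ ⋃ t ∈ range M, S.bad η (part a b M t) (part a b M (t + 1)) := by
      intro s hs
      obtain ⟨t, ht, hst⟩ := Icc_subset_parts hab hM hs.1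
      simp only [Set.mem_iUnion]
      exact ⟨t, ht, hst, hs.2⟩
    have hL : 0 ≤ (C * (1 + Real.log M)) ^ k := by positivity
    set Γ : ℝ := D * (σ ^ 2) ^ (r * r) * η with hΓ
    have hΓ0 : 0 < Γ := by positivity
    have hpart : ∀ t ∈ range M, volume (S.bad η (part a b M t) (part a b M (t + 1))) ≤
        ENNReal.ofReal ((b - a) / M * (C * (1 + Real.log M)) ^ k *
          (Γ ^ (1 / (m:ℝ)) *
            S.G (σ ^ 2) (part a b M t) (part a b M (t + 1)) ^ (1 / (m:ℝ)))) := by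
      intro t _
      have hlt := part_lt hab (t := t) hM
      have h1 := ih (part a b M t) (part a b M (t + 1)) hlt (by
        rw [hlenM]
        rw [div_le_iff₀ (by linarith)]
        calc b - a ≤ M ^ (k + 1) * h := hlen
          _ = M ^ k * h * M := by ring)
      rw [hlenM] at h1
      rw [← Real.mul_rpow hΓ0.le (S.G_pos hκ1 hlt.le).le]
      exact h1
    have hba : 0 < b - a := by linarith
    calc volume (S.bad η a b)
        ≤ volume (⋃ t ∈ range M, S.bad η (part a b M t) (part a b M (t + 1))) :=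
          measure_mono hsub
      _ ≤ ∑ t ∈ range M, volume (S.bad η (part a b M t) (part a b M (t + 1))) :=
          measure_biUnion_finset_le _ _
      _ ≤ ∑ t ∈ range M, ENNReal.ofReal ((b - a) / M * (C * (1 + Real.log M)) ^ k *
          (Γ ^ (1 / (m:ℝ)) *
            S.G (σ ^ 2) (part a b M t) (part a b M (t + 1)) ^ (1 / (m:ℝ)))) :=
          Finset.sum_le_sum hpart
      _ = ENNReal.ofReal (∑ t ∈ range M, (b - a) / M * (C * (1 + Real.log M)) ^ k *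
          (Γ ^ (1 / (m:ℝ)) *
            S.G (σ ^ 2) (part a b M t) (part a b M (t + 1)) ^ (1 / (m:ℝ)))) := by
          rw [ENNReal.ofReal_sum_of_nonneg]
          intro t _
          have := S.G_pos hκ1 (part_lt hab (t := t) hM).le
          positivity
      _ ≤ _ := by
          apply ENNReal.ofReal_le_ofReal
          have h2 := hC α S M σ hM hσ1 hσ hσM a b hab
          have hG := S.G_pos hκ1 hab.le
          rw [← Finset.mul_sum, ← Finset.mul_sum]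
          calc (b - a) / M * (C * (1 + Real.log M)) ^ k * (Γ ^ (1 / (m:ℝ)) *
                ∑ t ∈ range M, S.G (σ ^ 2) (part a b M t) (part a b M (t + 1)) ^ (1 / (m:ℝ)))
              ≤ (b - a) / M * (C * (1 + Real.log M)) ^ k * (Γ ^ (1 / (m:ℝ)) *
                (C * (M * (1 + Real.log M)) * S.G (σ ^ 2) a b ^ (1 / (m:ℝ)))) := by gcongr
            _ = (b - a) * (C * (1 + Real.log M)) ^ (k + 1) *
                (Γ ^ (1 / (m:ℝ)) * S.G (σ ^ 2) a b ^ (1 / (m:ℝ))) := by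
                have hMM : (b - a) / M * M = b - a := by field_simp
                rw [pow_succ (C * (1 + Real.log M)) k]
                linear_combination ((C * (1 + Real.log M)) ^ k * (Γ ^ (1 / (m:ℝ)) *
                  (C * (1 + Real.log M) * S.G (σ ^ 2) a b ^ (1 / (m:ℝ))))) * hMM
            _ = _ := by rw [← Real.mul_rpow hΓ0.le hG.le]

omit [Lattice α] in
/-- Sharp nondivergence with a loss `N ^ ε` and a constant that is explicit in the rank. -/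
theorem nondiv_explicit (hm : 1 ≤ m) {ε : ℝ} (hε : 0 < ε) : ∃ A : ℝ, 1 ≤ A ∧
    ∀ (r : ℕ) (D : ℝ), 1 ≤ D → ∀ (α : Type u) [Lattice α] [Nonempty α] (S : PolySys α r m)
    (N : ℝ), 1 ≤ N →
    (∀ x s s', |s - s'| ≤ 1 / N → (S.P x).eval s' ≤ D * (S.P x).eval s) →
    ∀ (ρ a : ℝ), 0 < ρ → (∀ x, ρ ≤ supOn (S.P x) a (a + 1)) →
    ∀ η : ℝ, 0 < η → volume (S.bad η a (a + 1)) ≤
      ENNReal.ofReal (D * (A * (r + 2)) ^ (A * ((r:ℝ) + 1) ^ 2) * N ^ ε *
        (η / ρ) ^ (1 / (m:ℝ))) := by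
  obtain ⟨c, hc1, hc⟩ := tree.{u} hm
  have hm' : (1:ℝ) ≤ m := by exact_mod_cast hm
  have hm0 : (0:ℝ) < m := by linarith
  have hq : 0 < 1 / (m:ℝ) := by positivity
  have hq1 : 1 / (m:ℝ) ≤ 1 := by rw [div_le_one hm0]; exact hm'
  set A0 : ℝ := (1 + c) * (1 + 2 / ε) with hA0
  have h2ε : 0 < 2 / ε := by positivity
  have hA01 : 1 ≤ A0 := one_le_mul_of_one_le_of_one_le (by linarith) (by linarith)
  set A1 : ℝ := 8 * m * (m + 1) with hA1
  have hA11 : 1 ≤ A1 := one_le_mul_of_one_le_of_one_le (by linarith) (by linarith)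
  set b : ℝ := 1 + 2 / ε with hb
  have hb1 : 1 ≤ b := by rw [hb]; linarith
  set A : ℝ := 3 * A1 * A0 + b * (ε + 2) with hA
  have hAA : 3 * A1 * A0 ≤ A := by
    have : 0 ≤ b * (ε + 2) := by positivity
    rw [hA]; linarith
  have hAb : b * (ε + 2) ≤ A := by
    have : 0 ≤ 3 * A1 * A0 := by positivity
    rw [hA]; linarith
  have h31 : 1 ≤ 3 * A1 * A0 := one_le_mul_of_one_le_of_one_le (by linarith) hA01
  refine ⟨A, h31.trans hAA, ?_⟩
  intro r D hD α _ _ S N hN hcomp ρ a hρ hsup η hη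
  have hN0 : 0 < N := by linarith
  have hr0 : (0:ℝ) ≤ r := Nat.cast_nonneg r
  -- choice of `M`
  set Z : ℝ := (r + 2) * A0 with hZ
  have hZ1 : 1 ≤ Z := one_le_mul_of_one_le_of_one_le (by linarith) hA01
  set M : ℕ := ⌈Z ^ (2 / ε)⌉₊ + 1 with hM
  have hZp : 1 ≤ Z ^ (2 / ε) := Real.one_le_rpow hZ1 h2ε.le
  have hMZ : Z ^ (2 / ε) ≤ M := by
    rw [hM]; push_cast
    have := Nat.le_ceil (Z ^ (2 / ε))
    linarith
  have hMZ' : (M:ℝ) ≤ 3 * Z ^ (2 / ε) := by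
    rw [hM]; push_cast
    have := Nat.ceil_lt_add_one (by positivity : 0 ≤ Z ^ (2 / ε))
    linarith
  have hM2 : 2 ≤ M := by
    have h1 : 1 ≤ ⌈Z ^ (2 / ε)⌉₊ := Nat.one_le_ceil_iff.mpr (by linarith)
    omega
  have hMr : (2:ℝ) ≤ M := by exact_mod_cast hM2
  have hM0 : (0:ℝ) < M := by linarith
  have hlog : 0 ≤ Real.log M := Real.log_nonneg (by linarith)
  set L : ℝ := (1 + (r + 1) * c) * (1 + Real.log M) with hL
  have hL0 : 0 < L := by positivity
  have hMhalf : Z ≤ (M:ℝ) ^ (ε / 2) := by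
    calc Z = (Z ^ (2 / ε)) ^ (ε / 2) := by
          rw [← Real.rpow_mul (by linarith)]
          have : 2 / ε * (ε / 2) = 1 := by field_simp
          rw [this, Real.rpow_one]
      _ ≤ (M:ℝ) ^ (ε / 2) := Real.rpow_le_rpow (by positivity) hMZ (by positivity)
  have hMh1 : 1 ≤ (M:ℝ) ^ (ε / 2) := hZ1.trans hMhalf
  have hLM : L ≤ (M:ℝ) ^ ε := by
    have h1 : Real.log M ≤ (M:ℝ) ^ (ε / 2) / (ε / 2) :=
      Real.log_le_rpow_div hM0.le (by positivity)
    have h2 : 1 + Real.log M ≤ (1 + 2 / ε) * (M:ℝ) ^ (ε / 2) := by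
      have : (M:ℝ) ^ (ε / 2) / (ε / 2) = 2 / ε * (M:ℝ) ^ (ε / 2) := by field_simp
      rw [this] at h1
      linarith
    have h3 : 1 + (r + 1) * c ≤ (r + 2) * (1 + c) := by
      have e : ((r:ℝ) + 2) * (1 + c) = 1 + (r + 1) * c + (r + 1 + c) := by ring
      rw [e]; linarith
    calc L ≤ ((r + 2) * (1 + c)) * ((1 + 2 / ε) * (M:ℝ) ^ (ε / 2)) := by
          rw [hL]; gcongr
      _ = Z * (M:ℝ) ^ (ε / 2) := by rw [hZ, hA0]; ring
      _ ≤ (M:ℝ) ^ (ε / 2) * (M:ℝ) ^ (ε / 2) := by gcongr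
      _ = (M:ℝ) ^ ε := by rw [← Real.rpow_add hM0]; congr 1; ring
  set σ : ℝ := 4 * ((m:ℝ) + 1) * (2 * m * M) ^ m with hσ
  have hpow1 : (1:ℝ) ≤ (2 * m * M) ^ m :=
    one_le_pow₀ (one_le_mul_of_one_le_of_one_le (by linarith) (by linarith))
  have hσ1 : 1 ≤ σ := one_le_mul_of_one_le_of_one_le (by linarith) hpow1
  have hσ0 : 0 < σ := by linarith
  have hσa : 2 * (((m:ℝ) + 1) * (2 * m) ^ m) < σ := by
    have h1 : (2 * (m:ℝ)) ^ m ≤ (2 * m * M) ^ m :=
      pow_le_pow_left₀ (by positivity) (le_mul_of_one_le_right (by positivity) (by linarith)) m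
    have h2 : 0 < ((m:ℝ) + 1) * (2 * (m:ℝ)) ^ m := by positivity
    have h3 := mul_le_mul_of_nonneg_left h1 (by positivity : 0 ≤ 4 * ((m:ℝ) + 1))
    rw [hσ]
    linarith
  have hσb : ((m:ℝ) + 1) * (m * M) ^ m ≤ σ := by
    have h0 : 0 ≤ (m:ℝ) * M := by positivity
    have h1 : ((m:ℝ) * M) ^ m ≤ (2 * m * M) ^ m :=
      pow_le_pow_left₀ (by positivity) (by linarith) m
    exact mul_le_mul (by linarith) h1 (by positivity) (by positivity)
  have hκ1 : 1 ≤ σ ^ 2 := one_le_pow₀ hσ1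
  -- choice of `k`
  set k : ℕ := ⌈Real.log N / Real.log M⌉₊ with hk
  have hlogM : 0 < Real.log M := Real.log_pos (by linarith)
  have hkN : N ≤ (M:ℝ) ^ k := by
    have h1 : Real.log N / Real.log M ≤ k := Nat.le_ceil _
    rw [div_le_iff₀ hlogM] at h1
    have h2 : Real.log N ≤ Real.log ((M:ℝ) ^ k) := by rw [Real.log_pow]; exact h1
    exact (Real.log_le_log_iff hN0 (by positivity)).mp h2
  have hkL : L ^ k ≤ (M:ℝ) ^ ε * N ^ ε := by
    have h1 : (k:ℝ) ≤ Real.log N / Real.log M + 1 :=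
      (Nat.ceil_lt_add_one (div_nonneg (Real.log_nonneg hN) hlogM.le)).le
    have h2 : L ^ k ≤ ((M:ℝ) ^ ε) ^ k := pow_le_pow_left₀ hL0.le hLM k
    refine h2.trans ?_
    rw [← Real.rpow_natCast, ← Real.rpow_mul hM0.le]
    have h3 : N = (M:ℝ) ^ (Real.log N / Real.log M) := by
      rw [Real.rpow_def_of_pos hM0, mul_div_cancel₀ _ hlogM.ne', Real.exp_log hN0]
    calc (M:ℝ) ^ (ε * k) ≤ (M:ℝ) ^ (ε * (Real.log N / Real.log M + 1)) := by
          apply Real.rpow_le_rpow_of_exponent_le (by linarith)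
          gcongr
      _ = (M:ℝ) ^ ε * ((M:ℝ) ^ (Real.log N / Real.log M)) ^ ε := by
          rw [← Real.rpow_mul hM0.le, ← Real.rpow_add hM0]
          congr 1; ring
      _ = (M:ℝ) ^ ε * N ^ ε := by rw [← h3]
  have h1 := hc r α S M σ (by omega) hσ1 hσa hσb D (1 / N) hD (by positivity)
    hcomp η hη k a (a + 1) (by linarith) (by
      rw [add_sub_cancel_left, mul_one_div, le_div_iff₀ hN0, one_mul]
      exact hkN)
  refine h1.trans (ENNReal.ofReal_le_ofReal ?_)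
  rw [add_sub_cancel_left, one_mul, ← hL]
  have hG : S.G (σ ^ 2) a (a + 1) ≤ ρ⁻¹ :=
    ciSup_le fun x => S.g_le_of_sup hκ1 hρ (hsup x)
  have hG0 := S.G_pos hκ1 (a := a) (b := a + 1) (by linarith)
  have h2 : (D * (σ ^ 2) ^ (r * r) * η * S.G (σ ^ 2) a (a + 1)) ^ (1 / (m:ℝ)) ≤
      (D * (σ ^ 2) ^ (r * r)) ^ (1 / (m:ℝ)) * (η / ρ) ^ (1 / (m:ℝ)) := by
    rw [← Real.mul_rpow (by positivity) (by positivity)]
    apply Real.rpow_le_rpow (by positivity) _ hq.le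
    rw [div_eq_mul_inv, ← mul_assoc]
    gcongr
  -- the constant
  set X : ℝ := 3 * A1 * A0 * (r + 2) with hX
  have hX1 : 1 ≤ X := one_le_mul_of_one_le_of_one_le h31 (by linarith)
  have hA1M : A1 * M ≤ X ^ b := by
    have e1 : X ^ b = X * X ^ (2 / ε) := by
      rw [hb, Real.rpow_add (by linarith), Real.rpow_one]
    rw [e1]
    have e2 : 3 * A1 ≤ X := by
      have h9 : (1:ℝ) ≤ A0 * (r + 2) := one_le_mul_of_one_le_of_one_le hA01 (by linarith)
      rw [hX, mul_assoc (3 * A1)]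
      exact le_mul_of_one_le_right (by positivity) h9
    have e3 : Z ≤ X := by
      have e4 : (1:ℝ) ≤ 3 * A1 := by linarith
      have e5 : 3 * A1 * A0 * ((r:ℝ) + 2) = 3 * A1 * ((r + 2) * A0) := by ring
      rw [hX, hZ, e5]
      exact le_mul_of_one_le_left (by positivity) e4
    calc A1 * M ≤ A1 * (3 * Z ^ (2 / ε)) := by gcongr
      _ = 3 * A1 * Z ^ (2 / ε) := by ring
      _ ≤ X * X ^ (2 / ε) := by gcongr
  have hA1M0 : 0 < A1 * M := by positivity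
  have hσ' : σ ^ (1 / (m:ℝ)) ≤ A1 * M := by
    have e1 : σ ≤ (A1 * M) ^ m := by
      rw [hσ, hA1]
      calc 4 * ((m:ℝ) + 1) * (2 * m * M) ^ m ≤ (4 * ((m:ℝ) + 1)) ^ m * (2 * m * M) ^ m := by
            gcongr
            calc 4 * ((m:ℝ) + 1) = (4 * ((m:ℝ) + 1)) ^ 1 := (pow_one _).symm
              _ ≤ (4 * ((m:ℝ) + 1)) ^ m := pow_le_pow_right₀ (by linarith) hm
        _ = (8 * m * (m + 1) * M) ^ m := by rw [← mul_pow]; congr 1; ring
    calc σ ^ (1 / (m:ℝ)) ≤ ((A1 * M) ^ m) ^ (1 / (m:ℝ)) := Real.rpow_le_rpow hσ0.le e1 hq.le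
      _ = A1 * M := by
        rw [← Real.rpow_natCast, ← Real.rpow_mul hA1M0.le, mul_one_div_cancel hm0.ne',
          Real.rpow_one]
  have h3 : (D * (σ ^ 2) ^ (r * r)) ^ (1 / (m:ℝ)) ≤ D * (X ^ b) ^ (2 * (r:ℝ) ^ 2) := by
    rw [Real.mul_rpow (by linarith) (by positivity)]
    have e1 : D ^ (1 / (m:ℝ)) ≤ D := by
      calc D ^ (1 / (m:ℝ)) ≤ D ^ (1:ℝ) := Real.rpow_le_rpow_of_exponent_le hD hq1
        _ = D := Real.rpow_one D
    have e2 : ((σ ^ 2) ^ (r * r)) ^ (1 / (m:ℝ)) = (σ ^ (1 / (m:ℝ))) ^ (2 * (r:ℝ) ^ 2) := by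
      rw [← Real.rpow_natCast, ← Real.rpow_natCast, ← Real.rpow_mul hσ0.le,
        ← Real.rpow_mul hσ0.le, ← Real.rpow_mul hσ0.le]
      congr 1
      push_cast
      ring
    rw [e2]
    have e3 : (σ ^ (1 / (m:ℝ))) ^ (2 * (r:ℝ) ^ 2) ≤ (X ^ b) ^ (2 * (r:ℝ) ^ 2) :=
      Real.rpow_le_rpow (by positivity) (hσ'.trans hA1M) (by positivity)
    gcongr
  have h4 : (M:ℝ) ^ ε ≤ (X ^ b) ^ ε := by
    apply Real.rpow_le_rpow hM0.le _ hε.le
    exact le_trans (le_mul_of_one_le_left hM0.le hA11) hA1M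
  have h5 : (X ^ b) ^ ε * (X ^ b) ^ (2 * (r:ℝ) ^ 2) ≤
      (A * (r + 2)) ^ (A * ((r:ℝ) + 1) ^ 2) := by
    rw [← Real.rpow_mul (by linarith), ← Real.rpow_mul (by linarith),
      ← Real.rpow_add (by linarith)]
    have e1 : b * ε + b * (2 * (r:ℝ) ^ 2) ≤ A * ((r:ℝ) + 1) ^ 2 := by
      have e2 : ε + 2 * (r:ℝ) ^ 2 ≤ (ε + 2) * ((r:ℝ) + 1) ^ 2 := by
        have e : (ε + 2) * ((r:ℝ) + 1) ^ 2 = ε + 2 * (r:ℝ) ^ 2 +
          (ε * (r:ℝ) ^ 2 + 2 * ε * r + 4 * r + 2) := by ring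
        have e' : 0 ≤ ε * (r:ℝ) ^ 2 + 2 * ε * r + 4 * r + 2 := by positivity
        rw [e]; linarith
      calc b * ε + b * (2 * (r:ℝ) ^ 2) = b * (ε + 2 * (r:ℝ) ^ 2) := by ring
        _ ≤ b * ((ε + 2) * ((r:ℝ) + 1) ^ 2) := by gcongr
        _ = (b * (ε + 2)) * ((r:ℝ) + 1) ^ 2 := by ring
        _ ≤ A * ((r:ℝ) + 1) ^ 2 := by gcongr
    have e3 : X ≤ A * (r + 2) := by rw [hX]; gcongr
    calc X ^ (b * ε + b * (2 * (r:ℝ) ^ 2)) ≤ X ^ (A * ((r:ℝ) + 1) ^ 2) :=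
          Real.rpow_le_rpow_of_exponent_le hX1 e1
      _ ≤ _ := Real.rpow_le_rpow (by linarith) e3 (by positivity)
  have hηρ : 0 ≤ (η / ρ) ^ (1 / (m:ℝ)) := by positivity
  calc L ^ k * (D * (σ ^ 2) ^ (r * r) * η * S.G (σ ^ 2) a (a + 1)) ^ (1 / (m:ℝ))
      ≤ ((M:ℝ) ^ ε * N ^ ε) * ((D * (σ ^ 2) ^ (r * r)) ^ (1 / (m:ℝ)) *
        (η / ρ) ^ (1 / (m:ℝ))) := by gcongr
    _ ≤ ((X ^ b) ^ ε * N ^ ε) * ((D * (X ^ b) ^ (2 * (r:ℝ) ^ 2)) *
        (η / ρ) ^ (1 / (m:ℝ))) := by gcongr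
    _ = D * ((X ^ b) ^ ε * (X ^ b) ^ (2 * (r:ℝ) ^ 2)) * N ^ ε * (η / ρ) ^ (1 / (m:ℝ)) := by ring
    _ ≤ _ := by gcongr

/-- Sharp nondivergence with a loss `N ^ ε`. -/
theorem nondiv (hm : 1 ≤ m) {D : ℝ} (hD : 1 ≤ D) {ε : ℝ} (hε : 0 < ε) : ∃ C : ℝ, 0 < C ∧
    ∀ (α : Type u) [Lattice α] [Nonempty α] (S : PolySys α r m) (N : ℝ), 1 ≤ N →
    (∀ x s s', |s - s'| ≤ 1 / N → (S.P x).eval s' ≤ D * (S.P x).eval s) →
    ∀ (ρ a : ℝ), 0 < ρ → (∀ x, ρ ≤ supOn (S.P x) a (a + 1)) →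
    ∀ η : ℝ, 0 < η → volume (S.bad η a (a + 1)) ≤
      ENNReal.ofReal (C * N ^ ε * (η / ρ) ^ (1 / (m:ℝ))) := by
  obtain ⟨A, hA, h⟩ := nondiv_explicit.{u} hm hε
  exact ⟨D * (A * (r + 2)) ^ (A * ((r:ℝ) + 1) ^ 2), by positivity,
    fun α _ _ S N hN hcomp ρ a hρ hsup η hη => h r D hD α S N hN hcomp ρ a hρ hsup η hη⟩

end PolySys

end Pool.Agent.MPac5134.Lat
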