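import Pool.Agent.Lib.MP_ac5134_an.Upper

/-!
Lower bounds for the integrals of powers of the centred multiplicity function, and the upper
bound for the number of caps.
-/

namespace Pool.Agent.MPac5134

open MeasureTheory
open scoped ENNReal InnerProductSpace

variable {d : ℕ} {ι : Type*} [Fintype ι]

theorem mult_nonneg (N : ℝ) (θ : ι → Cap d) (c : ι → Sp d) (x : Sp d) : 0 ≤ mult N θ c x :=
  Finset.sum_nonneg fun _ _ => Set.indicator_nonneg (fun _ _ => zero_le_one) _

theorem mult_le_card (N : ℝ) (θ : ι → Cap d) (c : ι → Sp d) (x : Sp d) :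
    mult N θ c x ≤ Fintype.card ι := by
  unfold mult
  calc _ ≤ ∑ _i : ι, (1:ℝ) := by
        apply Finset.sum_le_sum
        intro i _
        apply Set.indicator_le_self' (fun _ _ => zero_le_one)
    _ = _ := by simp

theorem measurable_mult (N : ℝ) (θ : ι → Cap d) (c : ι → Sp d) : Measurable (mult N θ c) := by
  unfold mult
  exact Finset.measurable_sum _ fun i _ => measurable_const.indicator (measurableSet_tube _ _ _)

theorem lintegral_mult {N : ℝ} (hN : 0 ≤ N) (θ : ι → Cap d) (c : ι → Sp d) :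
    ∫⁻ x, ENNReal.ofReal (mult N θ c x) = ENNReal.ofReal (Fintype.card ι * N ^ (d + 2)) := by
  unfold mult
  have e1 : ∀ x : Sp d, ENNReal.ofReal (∑ i, (tube N (θ i) (c i)).indicator (fun _ => (1:ℝ)) x) =
      ∑ i, (tube N (θ i) (c i)).indicator (fun _ => (1:ℝ≥0∞)) x := by
    intro x
    rw [ENNReal.ofReal_sum_of_nonneg
      (fun i _ => Set.indicator_nonneg (fun _ _ => zero_le_one) _)]
    apply Finset.sum_congr rfl; intro i _
    by_cases h : x ∈ tube N (θ i) (c i)
    · rw [Set.indicator_of_mem h, Set.indicator_of_mem h, ENNReal.ofReal_one]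
    · rw [Set.indicator_of_notMem h, Set.indicator_of_notMem h, ENNReal.ofReal_zero]
  simp_rw [e1]
  rw [lintegral_finsetSum _ fun i _ => measurable_const.indicator (measurableSet_tube _ _ _)]
  simp_rw [lintegral_indicator_const (measurableSet_tube _ _ _), one_mul, volume_tube hN]
  rw [Finset.sum_const, Finset.card_univ, nsmul_eq_mul, ENNReal.ofReal_mul (by positivity),
    ENNReal.ofReal_natCast]

/-- A convexity estimate: lower bound for the integral of a power over a set of finite measure. -/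
theorem lintegral_rpow_lower {f : Sp d → ℝ} (hf : ∀ x, 0 ≤ f x) (hfm : Measurable f)
    {G : Set (Sp d)} {X Y p : ℝ} (hX : 0 < X) (hY : 0 < Y) (hp : 1 ≤ p)
    (h1 : ENNReal.ofReal X ≤ ∫⁻ x in G, ENNReal.ofReal (f x))
    (h2 : volume G ≤ ENNReal.ofReal Y) :
    ENNReal.ofReal ((X / (2 * Y)) ^ (p - 1) * (X / 2)) ≤
      ∫⁻ x in G, ENNReal.ofReal (f x ^ p) := by
  set m : ℝ := X / (2 * Y) with hm
  have hmpos : 0 < m := by positivity
  have hpt : ∀ x, ENNReal.ofReal (m ^ (p - 1)) * ENNReal.ofReal (f x) ≤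
      ENNReal.ofReal (f x ^ p) + ENNReal.ofReal (m ^ p) := by
    intro x
    rw [← ENNReal.ofReal_mul (by positivity),
      ← ENNReal.ofReal_add (Real.rpow_nonneg (hf x) p) (by positivity)]
    apply ENNReal.ofReal_le_ofReal
    rcases le_total m (f x) with h | h
    · have hfpos : 0 < f x := lt_of_lt_of_le hmpos h
      have e1 : f x ^ p = f x ^ (p - 1) * f x := by
        rw [← Real.rpow_add_one hfpos.ne']; congr 1; ring
      have e2 : m ^ (p - 1) ≤ f x ^ (p - 1) := Real.rpow_le_rpow hmpos.le h (by linarith)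
      have e3 : m ^ (p - 1) * f x ≤ f x ^ (p - 1) * f x :=
        mul_le_mul_of_nonneg_right e2 (hf x)
      have e4 : 0 ≤ m ^ p := by positivity
      linarith
    · have e1 : m ^ p = m ^ (p - 1) * m := by
        rw [← Real.rpow_add_one hmpos.ne']; congr 1; ring
      have e3 : m ^ (p - 1) * f x ≤ m ^ (p - 1) * m :=
        mul_le_mul_of_nonneg_left h (by positivity)
      have e4 : 0 ≤ f x ^ p := Real.rpow_nonneg (hf x) p
      linarith
  have hint : ENNReal.ofReal (m ^ (p - 1)) * ∫⁻ x in G, ENNReal.ofReal (f x) ≤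
      (∫⁻ x in G, ENNReal.ofReal (f x ^ p)) + ENNReal.ofReal (m ^ p) * volume G := by
    rw [← lintegral_const_mul' _ _ ENNReal.ofReal_ne_top]
    refine (lintegral_mono hpt).trans ?_
    rw [lintegral_add_right _ measurable_const, setLIntegral_const]
  have h3 : ENNReal.ofReal (m ^ (p - 1) * X) ≤
      (∫⁻ x in G, ENNReal.ofReal (f x ^ p)) + ENNReal.ofReal (m ^ p * Y) := by
    rw [ENNReal.ofReal_mul (by positivity), ENNReal.ofReal_mul (by positivity)]
    refine (mul_le_mul' le_rfl h1).trans (hint.trans ?_)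
    gcongr
  have e5 : m ^ p * Y = m ^ (p - 1) * (X / 2) := by
    have e1 : m ^ p = m ^ (p - 1) * m := by
      rw [← Real.rpow_add_one hmpos.ne']; congr 1; ring
    rw [e1, hm]
    field_simp
  have e6 : m ^ (p - 1) * X = m ^ (p - 1) * (X / 2) + m ^ (p - 1) * (X / 2) := by ring
  rw [e5, e6, ENNReal.ofReal_add (by positivity) (by positivity)] at h3
  exact (ENNReal.add_le_add_iff_right ENNReal.ofReal_ne_top).1 h3

/-- number of caps -/
theorem card_le {K : ℕ} {N : ℝ} (hN : 1 ≤ N) (θ : ι → Cap d)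
    (hK : ∀ z : Fin d → ℤ, ∀ s : Finset ι, (∀ i ∈ s, cell N (θ i) = z) → s.card ≤ K) :
    (Fintype.card ι : ℝ) ≤ K * 5 ^ d * N ^ d := by
  classical
  have h1 : (Finset.univ : Finset ι).card ≤
      K * ((Finset.univ : Finset ι).image (fun i => cell N (θ i))).card := by
    apply Finset.card_le_mul_card_image
    intro z _
    apply hK z
    intro i hi
    exact (Finset.mem_filter.1 hi).2
  have h2 : (Finset.univ : Finset ι).image (fun i => cell N (θ i)) ⊆
      Fintype.piFinset (fun _ : Fin d => Finset.Icc (-(⌊N⌋ + 1)) (⌊N⌋ + 1)) := by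
    intro z hz
    obtain ⟨i, _, rfl⟩ := Finset.mem_image.1 hz
    rw [Fintype.mem_piFinset]
    exact fun k => cell_bounds hN (θ i) k
  have h3 := Finset.card_le_card h2
  rw [Fintype.card_piFinset, Finset.prod_const, Finset.card_univ, Fintype.card_fin,
    Int.card_Icc] at h3
  have h4 : (((⌊N⌋ + 1 + 1 - -(⌊N⌋ + 1)).toNat : ℕ) : ℝ) ≤ 5 * N := by
    have hfl := Int.floor_le N
    have h0 : 0 ≤ ⌊N⌋ := Int.floor_nonneg.2 (by linarith)
    have h5 : ((⌊N⌋ + 1 + 1 - -(⌊N⌋ + 1)).toNat : ℤ) = 2 * ⌊N⌋ + 3 := by omega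
    have h6 : (((⌊N⌋ + 1 + 1 - -(⌊N⌋ + 1)).toNat : ℤ) : ℝ) = 2 * (⌊N⌋ : ℝ) + 3 := by
      rw [h5]; push_cast; ring
    rw [← Int.cast_natCast, h6]
    linarith
  rw [Finset.card_univ] at h1
  calc (Fintype.card ι : ℝ) ≤ ((K * ((⌊N⌋ + 1 + 1 - -(⌊N⌋ + 1)).toNat) ^ d : ℕ) : ℝ) := by
        exact_mod_cast h1.trans (Nat.mul_le_mul_left K h3)
    _ = K * (((⌊N⌋ + 1 + 1 - -(⌊N⌋ + 1)).toNat : ℕ) : ℝ) ^ d := by push_cast; rfl
    _ ≤ K * (5 * N) ^ d := by gcongr
    _ = K * 5 ^ d * N ^ d := by rw [mul_pow]; ring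

theorem sum_sq_frame (b : OrthonormalBasis (Fin (d + 1)) ℝ (Sp d)) (x : Sp d) :
    ‖x‖ ^ 2 = ∑ i : Fin d, ⟪b i.castSucc, x⟫_ℝ ^ 2 + ⟪b (Fin.last d), x⟫_ℝ ^ 2 := by
  have h := b.sum_sq_norm_inner_right x
  rw [← h, Fin.sum_univ_castSucc]
  simp only [Real.norm_eq_abs, sq_abs]

theorem abs_inner_le_norm (b : OrthonormalBasis (Fin (d + 1)) ℝ (Sp d)) (x : Sp d)
    (i : Fin (d + 1)) : |⟪b i, x⟫_ℝ| ≤ ‖x‖ := by
  have h := abs_real_inner_le_norm (b i) x
  rwa [b.orthonormal.1 i, one_mul] at h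

/-- the central cube -/
theorem core_lower {N : ℝ} (hN : 1 ≤ N) (θ : ι → Cap d) {p : ℝ} :
    ENNReal.ofReal ((Fintype.card ι : ℝ) ^ p * (N / (d + 1)) ^ (d + 1)) ≤
      ∫⁻ x, ENNReal.ofReal (mult N θ (fun _ => 0) x ^ p) := by
  have hN0 : 0 < N := by linarith
  set e := EuclideanSpace.basisFun (Fin (d + 1)) ℝ with he
  set Q : Set (Sp d) := {x : Sp d | ∀ i, ⟪e i, x - 0⟫_ℝ ∈
    Set.Icc (-(N / (2 * (d + 1)))) (N / (2 * (d + 1)))} with hQ
  have hvol : volume Q = ENNReal.ofReal ((N / (d + 1)) ^ (d + 1)) := by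
    rw [hQ, volume_frame_box e 0 (fun _ => -(N / (2 * (d + 1)))) (fun _ => N / (2 * (d + 1)))]
    rw [Finset.prod_const, Finset.card_univ, Fintype.card_fin, ← ENNReal.ofReal_pow]
    · congr 2
      field_simp
      ring
    · have : 0 ≤ N / (2 * ((d:ℝ) + 1)) := by positivity
      linarith
  have hmem : ∀ x ∈ Q, mult N θ (fun _ => 0) x = Fintype.card ι := by
    intro x hx
    have hn : ‖x‖ ≤ N / 2 := by
      have h1 : ‖x‖ ≤ ∑ i, |x i| := by
        rw [EuclideanSpace.norm_eq]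
        apply Real.sqrt_le_iff.2
        refine ⟨by positivity, ?_⟩
        simp only [Real.norm_eq_abs]
        exact Finset.sum_sq_le_sq_sum_of_nonneg (fun i _ => abs_nonneg _)
      refine h1.trans ?_
      calc ∑ i, |x i| ≤ ∑ _i : Fin (d + 1), N / (2 * ((d:ℝ) + 1)) := by
            apply Finset.sum_le_sum
            intro i _
            have := hx i
            rw [sub_zero, he, EuclideanSpace.basisFun_apply, EuclideanSpace.inner_single_left,
              Set.mem_Icc] at this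
            rw [abs_le]
            simpa using this
        _ = N / 2 := by
            rw [Finset.sum_const, Finset.card_univ, Fintype.card_fin, nsmul_eq_mul]
            push_cast
            field_simp
    unfold mult
    have : ∀ i, (tube N (θ i) 0).indicator (fun _ => (1:ℝ)) x = 1 := by
      intro i
      apply Set.indicator_of_mem
      refine ⟨fun j => ?_, ?_⟩
      · rw [sub_zero]
        exact (abs_inner_le_norm _ x _).trans hn
      · rw [sub_zero]
        refine (abs_inner_le_norm _ x _).trans (hn.trans ?_)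
        have : N ≤ N ^ 2 := by nlinarith
        linarith
    simp_rw [this]
    simp
  have hQm : MeasurableSet Q := by
    have : Q = ⋂ i, {x : Sp d | ⟪e i, x - 0⟫_ℝ ∈
        Set.Icc (-(N / (2 * ((d:ℝ) + 1)))) (N / (2 * (d + 1)))} := by
      ext x; simp [hQ]
    rw [this]
    refine MeasurableSet.iInter fun i => ?_
    have hc : Continuous fun x : Sp d => ⟪e i, x - 0⟫_ℝ := by fun_prop
    exact (isClosed_Icc.preimage hc).measurableSet
  calc ENNReal.ofReal ((Fintype.card ι : ℝ) ^ p * (N / (d + 1)) ^ (d + 1))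
      = ENNReal.ofReal ((Fintype.card ι : ℝ) ^ p) * volume Q := by
        rw [hvol, ENNReal.ofReal_mul (by positivity)]
    _ = ∫⁻ _x in Q, ENNReal.ofReal ((Fintype.card ι : ℝ) ^ p) := by
        rw [setLIntegral_const]
    _ = ∫⁻ x in Q, ENNReal.ofReal (mult N θ (fun _ => 0) x ^ p) := by
        apply setLIntegral_congr_fun hQm
        intro x hx
        simp only
        rw [hmem x hx]
    _ ≤ _ := setLIntegral_le_lintegral _ _

/-- the dyadic shell -/
def shell (d : ℕ) (r : ℝ) : Set (Sp d) := {x | r ≤ ‖x‖ ∧ ‖x‖ < 2 * r}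

theorem measurableSet_shell (r : ℝ) : MeasurableSet (shell d r) := by
  have h1 : MeasurableSet {x : Sp d | r ≤ ‖x‖} :=
    (isClosed_le continuous_const continuous_norm).measurableSet
  have h2 : MeasurableSet {x : Sp d | ‖x‖ < 2 * r} :=
    (isOpen_lt continuous_norm continuous_const).measurableSet
  exact h1.inter h2

theorem volume_ball_le {r : ℝ} (hr : 0 ≤ r) :
    volume {x : Sp d | ‖x‖ ≤ r} ≤ ENNReal.ofReal ((2 * r) ^ (d + 1)) := by
  set e := EuclideanSpace.basisFun (Fin (d + 1)) ℝ with he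
  have h1 := volume_frame_box e 0 (fun _ => -r) (fun _ => r)
  rw [Finset.prod_const, Finset.card_univ, Fintype.card_fin, ← ENNReal.ofReal_pow (by linarith)]
    at h1
  have e1 : r - -r = 2 * r := by ring
  rw [e1] at h1
  rw [← h1]
  apply measure_mono
  intro x hx i
  have h2 := abs_inner_le_norm e x i
  have hx' : ‖x‖ ≤ r := hx
  rw [sub_zero, Set.mem_Icc]
  exact abs_le.1 (h2.trans hx')

theorem volume_shell_le {r : ℝ} (hr : 0 ≤ r) :
    volume (shell d r) ≤ ENNReal.ofReal ((4 * r) ^ (d + 1)) := by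
  have h := volume_ball_le (d := d) (r := 2 * r) (by linarith)
  have e1 : 2 * (2 * r) = 4 * r := by ring
  rw [e1] at h
  exact (measure_mono fun x hx => hx.2.le).trans h

/-- mass of the centred tubes in a shell -/
theorem shell_mass {N r : ℝ} (hN : 1 ≤ N) (hr1 : (d + 1) * N ≤ r) (hr2 : 3 * r ≤ N ^ 2)
    (θ : ι → Cap d) :
    ENNReal.ofReal (Fintype.card ι * (N ^ d * (r / 2))) ≤
      ∫⁻ x in shell d r, ENNReal.ofReal (mult N θ (fun _ => 0) x) := by
  have hN0 : 0 < N := by linarith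
  have hd0 : (0:ℝ) ≤ d := Nat.cast_nonneg d
  have hr0 : 0 < r := lt_of_lt_of_le (by positivity) hr1
  have hrN : N ≤ r := by nlinarith
  unfold mult
  have e1 : ∀ x : Sp d, ENNReal.ofReal (∑ i, (tube N (θ i) 0).indicator (fun _ => (1:ℝ)) x) =
      ∑ i, (tube N (θ i) 0).indicator (fun _ => (1:ℝ≥0∞)) x := by
    intro x
    rw [ENNReal.ofReal_sum_of_nonneg
      (fun i _ => Set.indicator_nonneg (fun _ _ => zero_le_one) _)]
    apply Finset.sum_congr rfl; intro i _
    by_cases h : x ∈ tube N (θ i) 0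
    · rw [Set.indicator_of_mem h, Set.indicator_of_mem h, ENNReal.ofReal_one]
    · rw [Set.indicator_of_notMem h, Set.indicator_of_notMem h, ENNReal.ofReal_zero]
  simp_rw [e1]
  rw [lintegral_finsetSum _ fun i _ => measurable_const.indicator (measurableSet_tube _ _ _)]
  have hpart : ∀ i, ENNReal.ofReal (N ^ d * (r / 2)) ≤
      ∫⁻ x in shell d r, (tube N (θ i) 0).indicator (fun _ => (1:ℝ≥0∞)) x := by
    intro i
    rw [lintegral_indicator_const (measurableSet_tube _ _ _), one_mul,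
      Measure.restrict_apply (measurableSet_tube _ _ _)]
    have hsub : frameBox N (θ i).frame 0 r (3 * r / 2) ⊆ tube N (θ i) 0 ∩ shell d r := by
      rintro x ⟨hx1, hx2⟩
      rw [Set.mem_Icc] at hx2
      refine ⟨⟨hx1, ?_⟩, ?_, ?_⟩
      · rw [abs_le]
        constructor <;> linarith [hx2.1, hx2.2]
      · have := abs_inner_le_norm (θ i).frame x (Fin.last d)
        rw [sub_zero] at hx2
        exact (hx2.1.trans (le_abs_self _)).trans this
      · have h1 := sum_sq_frame (θ i).frame x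
        rw [sub_zero] at hx2
        have h2 : ∑ j : Fin d, ⟪(θ i).frame j.castSucc, x⟫_ℝ ^ 2 ≤ d * (N / 2) ^ 2 := by
          calc _ ≤ ∑ _j : Fin d, (N / 2) ^ 2 := by
                apply Finset.sum_le_sum
                intro j _
                have := hx1 j
                rw [sub_zero] at this
                rw [← sq_abs]
                gcongr
            _ = _ := by simp
        have h3 : ⟪(θ i).frame (Fin.last d), x⟫_ℝ ^ 2 ≤ (3 * r / 2) ^ 2 := by
          apply pow_le_pow_left₀ _ hx2.2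
          linarith [hx2.1]
        have h4 : (d:ℝ) * (N / 2) ^ 2 ≤ r ^ 2 / 4 := by
          have : (d:ℝ) * N ^ 2 ≤ r ^ 2 := by
            calc (d:ℝ) * N ^ 2 ≤ ((d + 1) * N) * N := by nlinarith
              _ ≤ r * r := by gcongr
              _ = r ^ 2 := by ring
          nlinarith
        have h5 : ‖x‖ ^ 2 < (2 * r) ^ 2 := by nlinarith
        exact lt_of_pow_lt_pow_left₀ 2 (by positivity) h5
    refine le_trans ?_ (measure_mono hsub)
    rw [volume_frameBox, ← ENNReal.ofReal_pow hN0.le, ← ENNReal.ofReal_mul (by positivity)]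
    apply ENNReal.ofReal_le_ofReal
    apply le_of_eq
    ring
  calc ENNReal.ofReal (Fintype.card ι * (N ^ d * (r / 2)))
      = ∑ _i : ι, ENNReal.ofReal (N ^ d * (r / 2)) := by
        rw [Finset.sum_const, Finset.card_univ, nsmul_eq_mul,
          ENNReal.ofReal_mul (by positivity), ENNReal.ofReal_natCast]
    _ ≤ _ := Finset.sum_le_sum fun i _ => hpart i

/-- contribution of one shell -/
theorem shell_lower (hd : 0 < d) {N κ : ℝ} (hN : 1 ≤ N) (hκ : 0 < κ) (θ : ι → Cap d)
    (hcard : κ * N ^ d ≤ Fintype.card ι) {s : ℝ} (hs1 : 1 ≤ s) (i : ℕ)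
    (hi : 3 * (d + 1) * 2 ^ i ≤ N) :
    ENNReal.ofReal ((κ / 4) * (κ / 4 ^ (d + 2)) ^ (s / d) * N ^ (2 * d + 2) *
      ((2:ℝ) ^ (s - 1)) ^ i) ≤
      ∫⁻ x in shell d (N ^ 2 / (3 * 2 ^ i)),
        ENNReal.ofReal (mult N θ (fun _ => 0) x ^ (1 + s / (d:ℝ))) := by
  have hN0 : 0 < N := by linarith
  have hd' : (0:ℝ) < d := by exact_mod_cast hd
  set u : ℝ := 3 * 2 ^ i with hu
  have hu0 : 0 < u := by positivity
  set r : ℝ := N ^ 2 / u with hr
  have hr0 : 0 < r := by positivity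
  have hr1 : (d + 1) * N ≤ r := by
    rw [hr, le_div_iff₀ hu0]
    calc (d + 1) * N * u = (3 * (d + 1) * 2 ^ i) * N := by rw [hu]; ring
      _ ≤ N * N := by gcongr
      _ = N ^ 2 := by ring
  have hr2 : 3 * r ≤ N ^ 2 := by
    rw [hr, hu]
    have h1 : (1:ℝ) ≤ 2 ^ i := one_le_pow₀ (by norm_num)
    rw [mul_div_assoc', div_le_iff₀ (by positivity)]
    nlinarith [sq_nonneg N]
  set X : ℝ := κ * N ^ d * (N ^ d * (r / 2)) with hX
  set Y : ℝ := (4 * r) ^ (d + 1) with hY
  have hXpos : 0 < X := by positivity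
  have hYpos : 0 < Y := by positivity
  have h1 : ENNReal.ofReal X ≤
      ∫⁻ x in shell d r, ENNReal.ofReal (mult N θ (fun _ => 0) x) := by
    refine le_trans ?_ (shell_mass hN hr1 hr2 θ)
    apply ENNReal.ofReal_le_ofReal
    rw [hX]
    gcongr
  have h2 := lintegral_rpow_lower (mult_nonneg N θ (fun _ => 0)) (measurable_mult N θ _)
    hXpos hYpos (p := 1 + s / (d:ℝ)) (by have : 0 ≤ s / (d:ℝ) := by positivity
                                         linarith) h1 (volume_shell_le hr0.le)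
  refine le_trans ?_ h2
  apply ENNReal.ofReal_le_ofReal
  have e1 : X / (2 * Y) = (κ / 4 ^ (d + 2)) * u ^ d := by
    have hru : N ^ 2 = r * u := by rw [hr]; field_simp
    have hNN : N ^ d * N ^ d = r ^ d * u ^ d := by
      rw [← mul_pow, ← mul_pow, ← hru]; ring
    have hX' : X = κ * (r ^ d * u ^ d) * (r / 2) := by rw [hX, ← hNN]; ring
    rw [hX', hY, mul_pow, div_mul_eq_mul_div, div_eq_div_iff (by positivity) (by positivity)]
    ring
  have e2 : (1 + s / (d:ℝ)) - 1 = s / d := by ring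
  have e3 : (u ^ d) ^ (s / (d:ℝ)) = u ^ s := by
    rw [← Real.rpow_natCast, ← Real.rpow_mul hu0.le]
    congr 1
    field_simp
  rw [e1, e2, Real.mul_rpow (by positivity) (by positivity), e3]
  have e4 : X / 2 = (κ / 4) * N ^ (2 * d + 2) / u := by
    rw [hX, hr]
    field_simp
    ring
  rw [e4]
  have e5 : u ^ s = u ^ (s - 1) * u := by
    rw [← Real.rpow_add_one hu0.ne']; congr 1; ring
  have e6 : ((2:ℝ) ^ (s - 1)) ^ i ≤ u ^ (s - 1) := by
    have e7 : ((2:ℝ) ^ (s - 1)) ^ i = ((2:ℝ) ^ i) ^ (s - 1) := by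
      rw [← Real.rpow_natCast, ← Real.rpow_natCast, ← Real.rpow_mul (by norm_num),
        ← Real.rpow_mul (by norm_num), mul_comm]
    rw [e7]
    apply Real.rpow_le_rpow (by positivity) _ (by linarith)
    rw [hu]
    have : (0:ℝ) < 2 ^ i := by positivity
    linarith
  rw [e5]
  calc (κ / 4) * (κ / 4 ^ (d + 2)) ^ (s / (d:ℝ)) * N ^ (2 * d + 2) * ((2:ℝ) ^ (s - 1)) ^ i
      ≤ (κ / 4) * (κ / 4 ^ (d + 2)) ^ (s / (d:ℝ)) * N ^ (2 * d + 2) * u ^ (s - 1) := by
        gcongr
    _ = (κ / 4 ^ (d + 2)) ^ (s / (d:ℝ)) * (u ^ (s - 1) * u) *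
        ((κ / 4) * N ^ (2 * d + 2) / u) := by
        field_simp

/-- sum over the shells -/
theorem shells_lower (hd : 0 < d) {N κ : ℝ} (hN : 1 ≤ N) (hκ : 0 < κ) (θ : ι → Cap d)
    (hcard : κ * N ^ d ≤ Fintype.card ι) {s : ℝ} (hs1 : 1 ≤ s) (T : ℕ)
    (hT : ∀ i < T, 3 * ((d:ℝ) + 1) * 2 ^ i ≤ N) :
    ENNReal.ofReal ((κ / 4) * (κ / 4 ^ (d + 2)) ^ (s / d) * N ^ (2 * d + 2) * geo s T) ≤
      ∫⁻ x, ENNReal.ofReal (mult N θ (fun _ => 0) x ^ (1 + s / (d:ℝ))) := by
  have hN0 : 0 < N := by linarith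
  set F : Sp d → ℝ≥0∞ := fun x => ENNReal.ofReal (mult N θ (fun _ => 0) x ^ (1 + s / (d:ℝ)))
    with hF
  have hdisj : Set.PairwiseDisjoint (Finset.range T : Set ℕ)
      (fun i => shell d (N ^ 2 / (3 * 2 ^ i))) := by
    have key : ∀ i j : ℕ, i < j → Disjoint (shell d (N ^ 2 / (3 * 2 ^ i)))
        (shell d (N ^ 2 / (3 * 2 ^ j))) := by
      intro i j hij
      rw [Set.disjoint_left]
      rintro x ⟨h1, _⟩ ⟨_, h4⟩
      have h5 : 2 * (N ^ 2 / (3 * 2 ^ j)) ≤ N ^ 2 / (3 * 2 ^ i) := by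
        have h6 : (2:ℝ) ^ (i + 1) ≤ 2 ^ j := pow_le_pow_right₀ (by norm_num) hij
        rw [mul_div_assoc', div_le_div_iff₀ (by positivity) (by positivity)]
        have : 2 * N ^ 2 * (3 * 2 ^ i) = 3 * N ^ 2 * 2 ^ (i + 1) := by ring
        rw [this]
        calc 3 * N ^ 2 * 2 ^ (i + 1) ≤ 3 * N ^ 2 * 2 ^ j := by gcongr
          _ = _ := by ring
      linarith
    intro i _ j _ hij
    rcases lt_or_gt_of_ne hij with h | h
    · exact key i j h
    · exact (key j i h).symm
  calc ENNReal.ofReal ((κ / 4) * (κ / 4 ^ (d + 2)) ^ (s / (d:ℝ)) * N ^ (2 * d + 2) * geo s T)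
      = ∑ i ∈ Finset.range T, ENNReal.ofReal ((κ / 4) * (κ / 4 ^ (d + 2)) ^ (s / (d:ℝ)) *
          N ^ (2 * d + 2) * ((2:ℝ) ^ (s - 1)) ^ i) := by
        rw [← ENNReal.ofReal_sum_of_nonneg (fun i _ => by positivity), ← Finset.mul_sum]
        rfl
    _ ≤ ∑ i ∈ Finset.range T, ∫⁻ x in shell d (N ^ 2 / (3 * 2 ^ i)), F x := by
        apply Finset.sum_le_sum
        intro i hi
        exact shell_lower hd hN hκ θ hcard hs1 i (hT i (Finset.mem_range.1 hi))
    _ = ∫⁻ x in ⋃ i ∈ Finset.range T, shell d (N ^ 2 / (3 * 2 ^ i)), F x := by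
        rw [lintegral_biUnion_finset hdisj (fun i _ => measurableSet_shell _)]
    _ ≤ ∫⁻ x, F x := setLIntegral_le_lintegral _ _

theorem geo_add_le {s : ℝ} (hs1 : 1 ≤ s) (hs2 : s ≤ 2) {T : ℕ} (hT : 0 < T) (u : ℕ) :
    geo s (T + u) ≤ (1 + u * 2 ^ u) * geo s T := by
  set q : ℝ := (2:ℝ) ^ (s - 1) with hq
  have hq1 : 1 ≤ q := Real.one_le_rpow (by norm_num) (by linarith)
  have hq2 : q ≤ 2 := by
    calc q ≤ (2:ℝ) ^ (1:ℝ) := Real.rpow_le_rpow_of_exponent_le (by norm_num) (by linarith)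
      _ = 2 := Real.rpow_one 2
  unfold geo
  rw [← hq, Finset.sum_range_add]
  obtain ⟨T', rfl⟩ : ∃ T', T = T' + 1 := ⟨T - 1, by omega⟩
  have hlast : q ^ T' ≤ ∑ i ∈ Finset.range (T' + 1), q ^ i :=
    Finset.single_le_sum (f := fun i => q ^ i) (fun i _ => by positivity)
      (Finset.mem_range.2 (Nat.lt_succ_self T'))
  have h1 : ∑ x ∈ Finset.range u, q ^ (T' + 1 + x) ≤
      u * 2 ^ u * ∑ i ∈ Finset.range (T' + 1), q ^ i := by
    calc _ ≤ ∑ _x ∈ Finset.range u, (2:ℝ) ^ u * ∑ i ∈ Finset.range (T' + 1), q ^ i := by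
          apply Finset.sum_le_sum
          intro x hx
          have hx' := Finset.mem_range.1 hx
          calc q ^ (T' + 1 + x) = q ^ (x + 1) * q ^ T' := by ring
            _ ≤ 2 ^ (x + 1) * q ^ T' := by gcongr
            _ ≤ 2 ^ u * q ^ T' := by
                gcongr
                · norm_num
                · omega
            _ ≤ _ := by gcongr
      _ = _ := by rw [Finset.sum_const, Finset.card_range, nsmul_eq_mul]; ring
  rw [add_mul, one_mul]
  gcongr

end Pool.Agent.MPac5134
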