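import Pool.Agent.Lib.MP_ac5134_an.Defs
import Pool.Agent.Lib.MP_ac5134_an.Norms

/-!
The `L^p` Kakeya inequality for plane-sorted translates, in every dimension `n = d + 1 ≥ 2`
and for every `p`: no loss at all for `p ≥ n/(n-1)`, and a loss of at most
`(1 + log N)^{(n-1)(1 - 1/p)}` for every `p`.
-/

namespace Pool.Agent.MPac5134

open MeasureTheory
open scoped ENNReal

theorem planeSorted_thm (d : ℕ) (hd : 1 ≤ d) (K : ℕ) (κ A : ℝ) (hκ : 0 < κ) (hA : 0 ≤ A) :
    ∃ C : ℝ, 0 < C ∧ ∀ N : ℝ, 1 ≤ N → ∀ (ι : Type) [Fintype ι] (θ : ι → Cap d)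
      (c : ι → Sp d), IsCapFamily K κ N θ → PlaneSorted A N θ c →
      (∀ p : ℝ≥0∞, 1 + 1 / (d : ℝ≥0∞) ≤ p →
        eLpNorm (mult N θ c) p volume ≤
          ENNReal.ofReal C * eLpNorm (mult N θ (fun _ => 0)) p volume) ∧
      (∀ p : ℝ≥0∞, 1 ≤ p →
        eLpNorm (mult N θ c) p volume ≤
          ENNReal.ofReal (C * (1 + Real.log N) ^ ((d : ℝ) * (1 - 1 / p.toReal))) *
            eLpNorm (mult N θ (fun _ => 0)) p volume) := by
  have hd' : (0:ℝ) < d := by exact_mod_cast hd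
  obtain ⟨C1, hC1, h1⟩ := noloss (d := d) (by omega) K hκ hA
  obtain ⟨C2, hC2, h2⟩ := logloss (d := d) (by omega) K hκ hA
  refine ⟨C1 + C2, by linarith, ?_⟩
  intro N hN ι _ θ c hfam hps
  have hlogN : 0 ≤ Real.log N := Real.log_nonneg hN
  have hL : 1 ≤ 1 + Real.log N := by linarith
  have hdE : (1 + 1 / (d : ℝ≥0∞)) ≠ ⊤ := by
    have : (d : ℝ≥0∞) ≠ 0 := by
      have : d ≠ 0 := by omega
      exact_mod_cast this
    simp [this]
  have hdR : (1 + 1 / (d : ℝ≥0∞)).toReal = 1 + 1 / (d:ℝ) := by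
    have h0 : (d : ℝ≥0∞) ≠ 0 := by
      have : d ≠ 0 := by omega
      exact_mod_cast this
    rw [ENNReal.toReal_add ENNReal.one_ne_top (by simp [h0]), ENNReal.toReal_div]
    simp
  have hA1 : ∀ p : ℝ≥0∞, 1 + 1 / (d : ℝ≥0∞) ≤ p →
        eLpNorm (mult N θ c) p volume ≤
          ENNReal.ofReal (C1 + C2) * eLpNorm (mult N θ (fun _ => 0)) p volume := by
    intro p hp
    by_cases hpt : p = ⊤
    · subst hpt
      refine (eLpNorm_top_le N θ c).trans ((eLpNorm_top_ge hN θ).trans ?_)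
      calc _ = 1 * eLpNorm (mult N θ (fun _ => 0)) ⊤ volume := (one_mul _).symm
        _ ≤ _ := by
          gcongr
          rw [← ENNReal.ofReal_one]
          exact ENNReal.ofReal_le_ofReal (by linarith)
    · have hp1 : 1 ≤ p := le_trans (by simp) hp
      have hr : 1 + 1 / (d:ℝ) ≤ p.toReal := by
        rw [← hdR]; exact ENNReal.toReal_mono hpt hp
      have h3 := norm_of_ratio (N := N) (a := 0) hC1 le_rfl θ c hL hp1 hpt (by
        rw [Real.rpow_zero, mul_one]
        exact h1 N hN ι θ c hfam hps p.toReal hr)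
      rw [zero_div, Real.rpow_zero, mul_one] at h3
      refine h3.trans ?_
      gcongr
      linarith
  refine ⟨hA1, ?_⟩
  intro p hp1
  have hexp : 0 ≤ (d : ℝ) * (1 - 1 / p.toReal) := by
    apply mul_nonneg hd'.le
    by_cases hpt : p = ⊤
    · subst hpt; simp
    · have hr1 : 1 ≤ p.toReal := by
        have := ENNReal.toReal_mono hpt hp1
        simpa using this
      have : 1 / p.toReal ≤ 1 := by rw [div_le_one (by linarith)]; exact hr1
      linarith
  rcases le_total (1 + 1 / (d : ℝ≥0∞)) p with hp | hp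
  · refine (hA1 p hp).trans ?_
    gcongr
    have h4 : 1 ≤ (1 + Real.log N) ^ ((d : ℝ) * (1 - 1 / p.toReal)) :=
      Real.one_le_rpow hL hexp
    nlinarith
  · have hpt : p ≠ ⊤ := ne_top_of_le_ne_top hdE hp
    have hr1 : 1 ≤ p.toReal := by
      have := ENNReal.toReal_mono hpt hp1
      simpa using this
    have hr2 : p.toReal ≤ 1 + 1 / (d:ℝ) := by
      rw [← hdR]; exact ENNReal.toReal_mono hdE hp
    have h3 := norm_of_ratio (N := N) (a := d * (p.toReal - 1)) hC2
      (mul_nonneg hd'.le (by linarith)) θ c hL hp1 hpt (h2 N hN ι θ c hfam hps p.toReal hr1 hr2)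
    have e1 : (d : ℝ) * (p.toReal - 1) / p.toReal = (d : ℝ) * (1 - 1 / p.toReal) := by
      have : p.toReal ≠ 0 := by linarith
      field_simp
    rw [e1] at h3
    refine h3.trans ?_
    gcongr
    linarith

end Pool.Agent.MPac5134
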