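import Mathlib

/-!
Multivariate Taylor polynomials as `MvPolynomial`s, with the Lagrange type bound on a convex set.
-/

namespace Pool.Agent.MPac5134

open MvPolynomial
open scoped Nat

/-- The homogeneous Taylor term of order `m` at `a`, `j`-th coordinate, as a polynomial. -/
noncomputable def taylorTerm {d : ℕ} (F : (Fin d → ℝ) → (Fin d → ℝ)) (a : Fin d → ℝ) (m : ℕ)
    (j : Fin d) : MvPolynomial (Fin d) ℝ :=
  ∑ s : Fin m → Fin d,
    C ((m ! : ℝ)⁻¹ * iteratedFDeriv ℝ m F a (fun i => Pi.single (s i) 1) j) *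
      ∏ i, (X (s i) - C (a (s i)))

theorem totalDegree_taylorTerm {d : ℕ} (F : (Fin d → ℝ) → (Fin d → ℝ)) (a : Fin d → ℝ) (m : ℕ)
    (j : Fin d) : (taylorTerm F a m j).totalDegree ≤ m := by
  unfold taylorTerm
  apply totalDegree_finsetSum_le
  intro s _
  refine (totalDegree_mul _ _).trans ?_
  rw [totalDegree_C, zero_add]
  refine (totalDegree_finsetProd _ _).trans ?_
  calc ∑ i : Fin m, (X (s i) - C (a (s i)) : MvPolynomial (Fin d) ℝ).totalDegree
      ≤ ∑ _i : Fin m, 1 := by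
        apply Finset.sum_le_sum
        intro i _
        refine (totalDegree_sub _ _).trans ?_
        simp [totalDegree_X, totalDegree_C]
    _ = m := by simp

theorem eval_taylorTerm {d : ℕ} (F : (Fin d → ℝ) → (Fin d → ℝ)) (a : Fin d → ℝ) (m : ℕ)
    (j : Fin d) (x : Fin d → ℝ) :
    eval x (taylorTerm F a m j) =
      ((m ! : ℝ)⁻¹ • iteratedFDeriv ℝ m F a (fun _ => x - a)) j := by
  have h1 : iteratedFDeriv ℝ m F a (fun _ => x - a) =
      ∑ s : Fin m → Fin d, (∏ i, (x (s i) - a (s i))) •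
        iteratedFDeriv ℝ m F a (fun i => Pi.single (s i) 1) := by
    have hv : (fun _ : Fin m => x - a) =
        fun _ : Fin m => ∑ i : Fin d, (x i - a i) • (Pi.single i (1:ℝ) : Fin d → ℝ) := by
      funext _
      ext i
      simp [Finset.sum_apply, Pi.single_apply]
    rw [hv]
    have h2 := (iteratedFDeriv ℝ m F a).toMultilinearMap.map_sum
      (fun (_ : Fin m) (i : Fin d) => (x i - a i) • (Pi.single i (1:ℝ) : Fin d → ℝ))
    simp only [ContinuousMultilinearMap.coe_coe] at h2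
    rw [h2]
    apply Finset.sum_congr rfl
    intro s _
    have h3 := (iteratedFDeriv ℝ m F a).toMultilinearMap.map_smul_univ
      (fun i : Fin m => x (s i) - a (s i)) (fun i => (Pi.single (s i) (1:ℝ) : Fin d → ℝ))
    simpa only [ContinuousMultilinearMap.coe_coe] using h3
  unfold taylorTerm
  rw [h1]
  simp only [map_sum, map_mul, map_prod, eval_C, eval_X, map_sub, Pi.smul_apply, smul_eq_mul,
    Finset.sum_apply, Finset.mul_sum]
  apply Finset.sum_congr rfl
  intro s _
  ring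

theorem exists_taylor {d k : ℕ} (hk : 1 ≤ k) (F : (Fin d → ℝ) → (Fin d → ℝ))
    (hF : ContDiff ℝ k F) (M : ℝ) (S : Set (Fin d → ℝ)) (hS : Convex ℝ S)
    (hM : ∀ x ∈ S, ‖iteratedFDeriv ℝ k F x‖ ≤ M) (a : Fin d → ℝ) (ha : a ∈ S) :
    ∃ P : Fin d → MvPolynomial (Fin d) ℝ, (∀ j, (P j).totalDegree ≤ k - 1) ∧
      ∀ x ∈ S, ∀ j, |MvPolynomial.eval x (P j) - F x j| ≤ M * ‖x - a‖ ^ k := by
  obtain ⟨n, rfl⟩ : ∃ n, k = n + 1 := ⟨k - 1, by omega⟩
  refine ⟨fun j => ∑ m ∈ Finset.range (n + 1), taylorTerm F a m j, ?_, ?_⟩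
  · intro j
    rw [Nat.add_sub_cancel]
    apply totalDegree_finsetSum_le
    intro m hm
    exact (totalDegree_taylorTerm F a m j).trans (Nat.lt_succ_iff.1 (Finset.mem_range.1 hm))
  · intro x hx j
    have h1 := map_add_eq_sum_add_integral_iteratedFDeriv (f := F) (x := a) (y := x - a) (n := n)
      (fun t _ => hF.contDiffAt)
    rw [add_sub_cancel] at h1
    have hM0 : 0 ≤ M := (norm_nonneg _).trans (hM a ha)
    have h2 : ‖(n ! : ℝ)⁻¹ • ∫ t in (0:ℝ)..1, (1 - t) ^ n •
        iteratedFDeriv ℝ (n + 1) F (a + t • (x - a)) (fun _ => x - a)‖ ≤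
        M * ‖x - a‖ ^ (n + 1) := by
      have h3 : ‖∫ t in (0:ℝ)..1, (1 - t) ^ n •
          iteratedFDeriv ℝ (n + 1) F (a + t • (x - a)) (fun _ => x - a)‖ ≤
          M * ‖x - a‖ ^ (n + 1) * |1 - 0| := by
        apply intervalIntegral.norm_integral_le_of_norm_le_const
        intro t ht
        rw [Set.uIoc_of_le zero_le_one] at ht
        have hmem : a + t • (x - a) ∈ S :=
          hS.add_smul_sub_mem ha hx ⟨ht.1.le, ht.2⟩
        rw [norm_smul]
        have h4 : ‖(1 - t) ^ n‖ ≤ 1 := by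
          rw [norm_pow, Real.norm_eq_abs]
          apply pow_le_one₀ (abs_nonneg _)
          rw [abs_le]
          constructor <;> linarith [ht.1, ht.2]
        have h5 : ‖iteratedFDeriv ℝ (n + 1) F (a + t • (x - a)) (fun _ => x - a)‖ ≤
            M * ‖x - a‖ ^ (n + 1) := by
          refine (ContinuousMultilinearMap.le_opNorm _ _).trans ?_
          rw [Finset.prod_const, Finset.card_univ, Fintype.card_fin]
          exact mul_le_mul_of_nonneg_right (hM _ hmem) (by positivity)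
        calc ‖(1 - t) ^ n‖ * ‖iteratedFDeriv ℝ (n + 1) F (a + t • (x - a)) (fun _ => x - a)‖
            ≤ 1 * (M * ‖x - a‖ ^ (n + 1)) :=
              mul_le_mul h4 h5 (norm_nonneg _) zero_le_one
          _ = _ := one_mul _
      rw [sub_zero, abs_one, mul_one] at h3
      rw [norm_smul, norm_inv, Real.norm_natCast]
      have h6 : ((n ! : ℕ) : ℝ)⁻¹ ≤ 1 := by
        apply inv_le_one_of_one_le₀
        exact_mod_cast Nat.factorial_pos n
      calc ((n ! : ℕ) : ℝ)⁻¹ * _ ≤ 1 * (M * ‖x - a‖ ^ (n + 1)) :=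
            mul_le_mul h6 h3 (norm_nonneg _) zero_le_one
        _ = _ := one_mul _
    have h7 : MvPolynomial.eval x (∑ m ∈ Finset.range (n + 1), taylorTerm F a m j) - F x j =
        -(((n ! : ℝ)⁻¹ • ∫ t in (0:ℝ)..1, (1 - t) ^ n •
        iteratedFDeriv ℝ (n + 1) F (a + t • (x - a)) (fun _ => x - a)) j) := by
      rw [map_sum]
      simp_rw [eval_taylorTerm]
      have h8 := congrFun h1 j
      rw [Pi.add_apply, Finset.sum_apply] at h8
      rw [h8]
      ring
    rw [h7, abs_neg, ← Real.norm_eq_abs]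
    exact (norm_le_pi_norm _ j).trans h2

end Pool.Agent.MPac5134
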