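import Pool.Agent.Lib.MP_ac5134_an.WeakType
import Pool.Agent.Lib.MP_ac5134_an.WeakStrong
import Pool.Agent.Lib.MP_ac5134_an.Bezout
import Pool.Agent.Lib.MP_ac5134_an.Taylor

/-!
Piecewise Taylor polynomials of a smooth map satisfy the hypotheses of the weak type estimate.
-/

namespace Pool.Agent.MPac5134

open MeasureTheory Set Function
open scoped ENNReal NNReal

variable {d : ℕ}

theorem convex_unitB : Convex ℝ (unitB d) := by
  intro x hx y hy a b ha hb hab
  have h : ∀ i, (a • x + b • y) i ^ 2 ≤ a * x i ^ 2 + b * y i ^ 2 := by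
    intro i
    simp only [Pi.add_apply, Pi.smul_apply, smul_eq_mul]
    have e : a * x i ^ 2 + b * y i ^ 2 - (a * x i + b * y i) ^ 2 =
        a * b * (x i - y i) ^ 2 + (1 - (a + b)) * (a * x i ^ 2 + b * y i ^ 2) := by ring
    rw [hab] at e
    have : 0 ≤ a * b * (x i - y i) ^ 2 := by positivity
    linarith
  have h1 := Finset.sum_le_sum (fun i (_ : i ∈ Finset.univ) => h i)
  rw [Finset.sum_add_distrib, ← Finset.mul_sum, ← Finset.mul_sum] at h1
  have hx' : ∑ i, x i ^ 2 ≤ 1 := hx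
  have hy' : ∑ i, y i ^ 2 ≤ 1 := hy
  change ∑ i, (a • x + b • y) i ^ 2 ≤ 1
  nlinarith [mul_le_mul_of_nonneg_left hx' ha, mul_le_mul_of_nonneg_left hy' hb]

/-- the polynomial map attached to polynomials -/
noncomputable def polyMap (P : Fin d → MvPolynomial (Fin d) ℝ) (x : Fin d → ℝ) : Fin d → ℝ :=
  fun j => MvPolynomial.eval x (P j)

theorem contDiff_eval (p : MvPolynomial (Fin d) ℝ) :
    ContDiff ℝ 1 fun x : Fin d → ℝ => MvPolynomial.eval x p := by
  induction p using MvPolynomial.induction_on with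
  | C a => simp only [MvPolynomial.eval_C]; exact contDiff_const
  | add p q hp hq => simp only [map_add]; exact hp.add hq
  | mul_X p i hp =>
    simp only [map_mul, MvPolynomial.eval_X]
    exact hp.mul (contDiff_apply ℝ ℝ i)

theorem contDiff_polyMap (P : Fin d → MvPolynomial (Fin d) ℝ) : ContDiff ℝ 1 (polyMap P) :=
  contDiff_pi.2 fun j => contDiff_eval (P j)

/-- number of solutions of one polynomial piece -/
theorem poly_few {k : ℕ} (hk : 1 ≤ k) (P : Fin d → MvPolynomial (Fin d) ℝ)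
    (hP : ∀ j, (P j).totalDegree ≤ k - 1) (t : ℝ) (y : Fin d → ℝ) (S : Finset (Fin d → ℝ))
    (hS : ∀ x ∈ S, (∀ j, polyMap P x j - 2 * t * x j = y j) ∧
      jac (fderiv ℝ (polyMap P) x) t ≠ 0) : S.card ≤ (d * k) ^ d := by
  set Q : Fin d → MvPolynomial (Fin d) ℝ := fun j =>
    P j - MvPolynomial.C (2 * t) * MvPolynomial.X j - MvPolynomial.C (y j) with hQ
  have heval : ∀ x : Fin d → ℝ, ∀ j, MvPolynomial.eval x (Q j) =
      polyMap P x j - 2 * t * x j - y j := by
    intro x j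
    simp [hQ, polyMap]
  apply card_nondegenerate_le Q _ S _ (fun x => fderiv ℝ (polyMap P) x -
    (2 * t) • ContinuousLinearMap.id ℝ (Fin d → ℝ))
  · intro x _
    have h1 : HasFDerivAt (polyMap P) (fderiv ℝ (polyMap P) x) x :=
      ((contDiff_polyMap P).differentiable (by norm_num)).differentiableAt.hasFDerivAt
    have h2 : HasFDerivAt (fun x : Fin d → ℝ => (2 * t) • x)
        ((2 * t) • ContinuousLinearMap.id ℝ (Fin d → ℝ)) x :=
      (ContinuousLinearMap.id ℝ (Fin d → ℝ)).hasFDerivAt.const_smul (2 * t)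
    have h3 := (h1.sub h2).sub_const y
    refine h3.congr_of_eventuallyEq (Filter.Eventually.of_forall fun x => ?_)
    funext j
    change MvPolynomial.eval x (Q j) = polyMap P x j - ((2 * t) • x) j - y j
    rw [heval, Pi.smul_apply, smul_eq_mul]
  · intro x hx
    exact (hS x hx).2
  · intro j
    rw [hQ]
    refine (MvPolynomial.totalDegree_sub _ _).trans ?_
    rw [MvPolynomial.totalDegree_C]
    apply max_le _ (Nat.zero_le _)
    refine (MvPolynomial.totalDegree_sub _ _).trans ?_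
    apply max_le
    · exact (hP j).trans (Nat.sub_le _ _)
    · refine (MvPolynomial.totalDegree_mul _ _).trans ?_
      rw [MvPolynomial.totalDegree_C, MvPolynomial.totalDegree_X]
      omega
  · intro x hx j
    rw [heval, (hS x hx).1 j, sub_self]

/-- the cell of the grid `(1/m) Z^d` -/
noncomputable def gcell (m : ℕ) (ω : Fin d → ℝ) : Fin d → ℤ := fun j => ⌊(m:ℝ) * ω j⌋

theorem measurable_gcell (m : ℕ) : Measurable (gcell m : (Fin d → ℝ) → (Fin d → ℤ)) := by
  apply measurable_pi_lambda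
  intro j
  exact Int.measurable_floor.comp ((measurable_pi_apply j).const_mul _)

theorem measurable_glue {β : Type*} [MeasurableSpace β] (m : ℕ)
    (g : (Fin d → ℤ) → (Fin d → ℝ) → β) (hg : ∀ z, Measurable (g z)) :
    Measurable fun x => g (gcell m x) x := by
  have h1 : Measurable fun q : (Fin d → ℤ) × (Fin d → ℝ) => g q.1 q.2 :=
    measurable_from_prod_countable_right hg
  exact h1.comp ((measurable_gcell m).prodMk measurable_id)

theorem exists_pieces {k : ℕ} (hk : 1 ≤ k) (F : (Fin d → ℝ) → (Fin d → ℝ))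
    (hF : ContDiff ℝ k F) {M : ℝ} (hM : ∀ x ∈ unitB d, ‖iteratedFDeriv ℝ k F x‖ ≤ M) (m : ℕ)
    (hm : 0 < m) :
    ∃ (G : (Fin d → ℝ) → (Fin d → ℝ)) (G' : (Fin d → ℝ) → (Fin d → ℝ) →L[ℝ] (Fin d → ℝ))
      (U : (Fin d → ℤ) → Set (Fin d → ℝ)),
      FewSolutions G G' U (((2 * m + 1) * (d * k)) ^ d) ∧
      ∀ x ∈ unitB d, ∀ j, |G x j - F x j| ≤ M * (1 / m) ^ k := by
  classical
  have hm' : (0:ℝ) < m := by exact_mod_cast hm
  have hM0 : 0 ≤ M := (norm_nonneg _).trans (hM 0 (by simp [unitB]))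
  -- the polynomials
  have hch : ∀ z : Fin d → ℤ, ∃ P : Fin d → MvPolynomial (Fin d) ℝ,
      (∀ j, (P j).totalDegree ≤ k - 1) ∧ ∀ x ∈ unitB d, gcell m x = z → ∀ j,
        |MvPolynomial.eval x (P j) - F x j| ≤ M * (1 / m) ^ k := by
    intro z
    by_cases hz : ∃ a ∈ unitB d, gcell m a = z
    · obtain ⟨a, ha, haz⟩ := hz
      obtain ⟨P, hP1, hP2⟩ := exists_taylor hk F hF M (unitB d) convex_unitB hM a ha
      refine ⟨P, hP1, ?_⟩
      intro x hx hxz j
      refine (hP2 x hx j).trans ?_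
      have hxa : ‖x - a‖ ≤ 1 / m := by
        rw [pi_norm_le_iff_of_nonneg (by positivity)]
        intro i
        rw [Pi.sub_apply, Real.norm_eq_abs, le_div_iff₀ hm']
        have h1 : ⌊(m:ℝ) * x i⌋ = ⌊(m:ℝ) * a i⌋ := by
          have := congrFun (hxz.trans haz.symm) i
          exact this
        have h2 := Int.abs_sub_lt_one_of_floor_eq_floor h1
        have h3 : |x i - a i| * m = |(m:ℝ) * x i - m * a i| := by
          rw [← mul_sub, abs_mul, abs_of_pos hm', mul_comm]
        rw [h3]; exact h2.le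
      gcongr
    · refine ⟨fun _ => 0, fun j => by simp, ?_⟩
      intro x hx hxz
      exact absurd ⟨x, hx, hxz⟩ hz
  choose P hP1 hP2 using hch
  set G : (Fin d → ℝ) → (Fin d → ℝ) := fun x => polyMap (P (gcell m x)) x with hG
  set G' : (Fin d → ℝ) → (Fin d → ℝ) →L[ℝ] (Fin d → ℝ) :=
    fun x => fderiv ℝ (polyMap (P (gcell m x))) x with hG'
  have hGm : Measurable G := measurable_glue m (fun z => polyMap (P z)) fun z =>
    (contDiff_polyMap (P z)).continuous.measurable
  have hG'm : Measurable G' := measurable_glue m (fun z => fderiv ℝ (polyMap (P z))) fun z =>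
    ((contDiff_polyMap (P z)).continuous_fderiv (by norm_num)).measurable
  refine ⟨G, G', fun z => {x | gcell m x = z}, ?_, ?_⟩
  · refine ⟨?_, ?_, ?_, hGm, hG'm, ?_, ?_⟩
    · intro z
      exact measurable_gcell m (measurableSet_singleton z)
    · intro z z' hzz
      rw [Function.onFun, Set.disjoint_left]
      intro x hx hx'
      exact hzz (hx.symm.trans hx')
    · intro x _
      exact mem_iUnion.2 ⟨gcell m x, rfl⟩
    · rintro z x ⟨hxz, hx⟩
      have hxz' : gcell m x = z := hxz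
      have h1 : HasFDerivAt (polyMap (P z)) (fderiv ℝ (polyMap (P z)) x) x :=
        ((contDiff_polyMap (P z)).differentiable (by norm_num)).differentiableAt.hasFDerivAt
      have h2 : HasFDerivWithinAt (polyMap (P z)) (fderiv ℝ (polyMap (P z)) x)
          ({x | gcell m x = z} ∩ unitB d) x := h1.hasFDerivWithinAt
      have e : G' x = fderiv ℝ (polyMap (P z)) x := by rw [hG']; simp only [hxz']
      rw [e]
      apply h2.congr
      · rintro w ⟨hw, _⟩
        have hw' : gcell m w = z := hw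
        rw [hG]; simp only [hw']
      · rw [hG]; simp only [hxz']
    · intro t y S hS
      have h1 : S.card ≤ (d * k) ^ d * (S.image (gcell m)).card := by
        apply Finset.card_le_mul_card_image
        intro z _
        apply poly_few hk (P z) (hP1 z) t y
        intro x hx
        obtain ⟨hxS, hxz⟩ := Finset.mem_filter.1 hx
        obtain ⟨_, h2, h3⟩ := hS x hxS
        constructor
        · intro j
          have := h2 j
          rw [hG] at this
          simp only [hxz] at this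
          exact this
        · rw [hG'] at h3
          simp only [hxz] at h3
          exact h3
      have h2 : S.image (gcell m) ⊆
          Fintype.piFinset (fun _ : Fin d => Finset.Icc (-(m:ℤ)) m) := by
        intro z hz
        obtain ⟨x, hx, rfl⟩ := Finset.mem_image.1 hz
        rw [Fintype.mem_piFinset]
        intro j
        have h3 := abs_le_one_of_unitB (hS x hx).1 j
        rw [abs_le] at h3
        rw [Finset.mem_Icc]
        constructor
        · apply Int.le_floor.2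
          push_cast
          nlinarith [h3.1]
        · have h4 : (⌊(m:ℝ) * x j⌋ : ℝ) ≤ m := by
            refine (Int.floor_le _).trans ?_
            nlinarith [h3.2]
          exact_mod_cast h4
      have h3 := Finset.card_le_card h2
      rw [Fintype.card_piFinset, Finset.prod_const, Finset.card_univ, Fintype.card_fin,
        Int.card_Icc] at h3
      have h4 : ((m:ℤ) + 1 - -(m:ℤ)).toNat = 2 * m + 1 := by omega
      rw [h4] at h3
      calc S.card ≤ (d * k) ^ d * (S.image (gcell m)).card := h1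
        _ ≤ (d * k) ^ d * (2 * m + 1) ^ d := Nat.mul_le_mul_left _ h3
        _ = _ := by rw [← mul_pow, mul_comm]
  · intro x hx j
    exact hP2 (gcell m x) x hx rfl j

/-- dependence of the weak type constant on the Lipschitz constant -/
theorem weakConst_le (hd : 0 < d) (K : ℕ) {A : ℝ} (hA : 0 ≤ A) :
    ∃ w : ℝ, 0 ≤ w ∧ ∀ L : ℝ, 0 ≤ L → weakConst d K A 1 L ≤ w * (1 + L) ^ (d + 1) := by
  have hd' : (0:ℝ) < d := by exact_mod_cast hd
  set a : ℝ := A + 3 * d / 2 + 11 with ha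
  have ha0 : 0 < a := by rw [ha]; positivity
  set b : ℝ := K * (4 * d) ^ d with hb
  have hb0 : 0 ≤ b := by positivity
  set e : ℝ := K * 5 ^ d * (K * (2 * (⌈2 * (A + 3 * d / 2)⌉₊ + 1) + 1 : ℕ) ^ d) ^ (1 / (d:ℝ))
    with he
  have he0 : 0 ≤ e := by positivity
  refine ⟨2 * b * ((K * 10 ^ d) * ((2 * a) ^ d * (2 * d * ((2 * b) ^ (1 / (d:ℝ)) * (2 * a))))) +
    e, by positivity, ?_⟩
  intro L hL
  have h1L : 1 ≤ 1 + L := by linarith
  have hr : A + 1 + 3 * d / 2 + 6 * L + 4 ≤ a * (1 + L) := by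
    rw [ha]
    nlinarith [mul_nonneg hA hL, mul_nonneg hd'.le hL]
  have hr0 : 0 < A + 1 + 3 * (d:ℝ) / 2 + 6 * L + 4 := by positivity
  unfold weakConst
  rw [← hb, ← he]
  set r0 : ℝ := A + 1 + 3 * (d:ℝ) / 2 + 6 * L + 4 with hr0def
  have h2 : (2 * r0) ^ d ≤ (2 * a) ^ d * (1 + L) ^ d := by
    rw [← mul_pow]
    apply pow_le_pow_left₀ (by positivity)
    linarith
  have h3 : (2 * b * (2 * r0) ^ d) ^ (1 / (d:ℝ)) ≤ (2 * b) ^ (1 / (d:ℝ)) * (2 * a) * (1 + L) := by
    rw [Real.mul_rpow (by positivity) (by positivity)]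
    have e1 : ((2 * r0) ^ d) ^ (1 / (d:ℝ)) = 2 * r0 := by
      rw [← Real.rpow_natCast, ← Real.rpow_mul (by positivity), mul_one_div_cancel hd'.ne',
        Real.rpow_one]
    rw [e1]
    calc (2 * b) ^ (1 / (d:ℝ)) * (2 * r0) ≤ (2 * b) ^ (1 / (d:ℝ)) * (2 * (a * (1 + L))) := by
          gcongr
      _ = _ := by ring
  have h4 : e ≤ e * (1 + L) ^ (d + 1) := le_mul_of_one_le_right he0 (one_le_pow₀ h1L)
  calc 2 * b * ((K * 10 ^ d) * ((2 * r0) ^ d * (2 * d * (2 * b * (2 * r0) ^ d) ^ (1 / (d:ℝ))))) + e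
      ≤ 2 * b * ((K * 10 ^ d) * (((2 * a) ^ d * (1 + L) ^ d) *
          (2 * d * ((2 * b) ^ (1 / (d:ℝ)) * (2 * a) * (1 + L))))) + e * (1 + L) ^ (d + 1) := by
        gcongr
    _ = _ := by ring

/-- The weak type estimate for smooth maps. -/
theorem smooth_weak (hd : 0 < d) (K : ℕ) {A : ℝ} (hA : 0 ≤ A) :
    ∃ w : ℝ, 1 ≤ w ∧ ∀ (J k : ℕ) (L M : ℝ), 1 ≤ J → 1 ≤ k → 0 ≤ L →
      ∀ F : Fin J → (Fin d → ℝ) → (Fin d → ℝ),
      (∀ j, ContDiff ℝ k (F j)) → (∀ j, LipB (F j) L) →
      (∀ j, ∀ x ∈ unitB d, ‖iteratedFDeriv ℝ k (F j) x‖ ≤ M) →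
      ∀ N : ℝ, 1 ≤ N → ∀ (ι : Type) [Fintype ι] (θ : ι → Cap d) (c : ι → Sp d) (s : ι → Fin J),
        (∀ z : Fin d → ℤ, ∀ s : Finset ι, (∀ i ∈ s, cell N (θ i) = z) → s.card ≤ K) →
        Follows F s A N θ c →
        WeakBound N (w * ((1 + L) ^ (d + 1) * (k * (1 + (M * N) ^ (1 / (k:ℝ)))) *
          (J:ℝ) ^ (1 / (d:ℝ)))) θ c := by
  have hd' : (0:ℝ) < d := by exact_mod_cast hd
  obtain ⟨w1, hw1, hw1'⟩ := weakConst_le hd K hA
  refine ⟨1 + w1 * (5 * d), by nlinarith, ?_⟩
  intro J k L M hJ hk hL F hF hlip hM N hN ι _ θ c s hK hfol lam hlam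
  set w0 : ℝ := weakConst d K A 1 L with hw0
  have hw0nn : 0 ≤ w0 := by rw [hw0]; unfold weakConst; positivity
  have hw0le : w0 ≤ w1 * (1 + L) ^ (d + 1) := hw1' L hL
  have hN0 : 0 < N := by linarith
  have hk' : (1:ℝ) ≤ k := by exact_mod_cast hk
  have hM0 : 0 ≤ M := (norm_nonneg _).trans (hM ⟨0, hJ⟩ 0 (by simp [unitB]))
  set X : ℝ := (M * N) ^ (1 / (k:ℝ)) with hX
  have hX0 : 0 ≤ X := by positivity
  set m : ℕ := ⌈X⌉₊ + 1 with hm
  have hm0 : 0 < m := by omega
  have hm' : (0:ℝ) < m := by exact_mod_cast hm0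
  have hXm : X ≤ m := by
    rw [hm]; push_cast
    have := Nat.le_ceil X
    linarith
  have hmX : (m:ℝ) ≤ X + 2 := by
    rw [hm]; push_cast
    have := Nat.ceil_lt_add_one hX0
    linarith
  have hpieces := fun j => exists_pieces hk (F j) (hF j) (hM j) m hm0
  choose G G' U hfew happ using hpieces
  have happ' : ∀ j, ∀ x ∈ unitB d, ∀ i, |G j x i - F j x i| ≤ 1 / N := by
    intro j x hx i
    refine (happ j x hx i).trans ?_
    rw [le_div_iff₀ hN0]
    have h1 : M * N ≤ (m:ℝ) ^ k := by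
      have h2 : X ^ k = M * N := by
        rw [hX, ← Real.rpow_natCast, ← Real.rpow_mul (by positivity), one_div_mul_cancel
          (by positivity), Real.rpow_one]
      rw [← h2]
      gcongr
    calc M * (1 / m) ^ k * N = (M * N) * (1 / m) ^ k := by ring
      _ ≤ (m:ℝ) ^ k * (1 / m) ^ k := by gcongr
      _ = 1 := by rw [← mul_pow, mul_one_div_cancel hm'.ne', one_pow]
  have hB : 1 ≤ Fintype.card (Fin J) * ((2 * m + 1) * (d * k)) ^ d := by
    rw [Fintype.card_fin]
    exact Nat.one_le_iff_ne_zero.2 (by positivity)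
  have h1 := weak_type hd hfew hB hA zero_le_one hN hL hfol hlip happ' hK hlam
  refine h1.trans ?_
  apply ENNReal.ofReal_le_ofReal
  have e1 : ((Fintype.card (Fin J) : ℝ) * (((2 * m + 1) * (d * k)) ^ d : ℕ)) ^ (1 / (d:ℝ)) =
      (J:ℝ) ^ (1 / (d:ℝ)) * ((2 * m + 1) * (d * k)) := by
    rw [Fintype.card_fin, Real.mul_rpow (by positivity) (by positivity)]
    congr 1
    rw [Nat.cast_pow, ← Real.rpow_natCast, ← Real.rpow_mul (by positivity),
      mul_one_div_cancel hd'.ne', Real.rpow_one]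
    push_cast
    ring
  rw [e1, ← hw0]
  have hJ0 : 0 ≤ (J:ℝ) ^ (1 / (d:ℝ)) := by positivity
  have h2 : w0 * ((2 * m + 1) * (d * k)) ≤
      (1 + w1 * (5 * d)) * ((1 + L) ^ (d + 1) * (k * (1 + X))) := by
    have h3 : (2 * (m:ℝ) + 1) ≤ 5 * (1 + X) := by linarith
    calc w0 * ((2 * m + 1) * (d * k))
        ≤ (w1 * (1 + L) ^ (d + 1)) * ((5 * (1 + X)) * (d * k)) := by gcongr
      _ = (w1 * (5 * d)) * ((1 + L) ^ (d + 1) * (k * (1 + X))) := by ring
      _ ≤ (1 + w1 * (5 * d)) * ((1 + L) ^ (d + 1) * (k * (1 + X))) := by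
        gcongr
        linarith
  calc w0 * ((J:ℝ) ^ (1 / (d:ℝ)) * ((2 * m + 1) * (d * k))) * N ^ (2 * d + 2) *
        lam ^ (-(1 + 1 / (d:ℝ)))
      = (w0 * ((2 * m + 1) * (d * k))) * (J:ℝ) ^ (1 / (d:ℝ)) * N ^ (2 * d + 2) *
        lam ^ (-(1 + 1 / (d:ℝ))) := by ring
    _ ≤ ((1 + w1 * (5 * d)) * ((1 + L) ^ (d + 1) * (k * (1 + X)))) * (J:ℝ) ^ (1 / (d:ℝ)) *
        N ^ (2 * d + 2) * lam ^ (-(1 + 1 / (d:ℝ))) := by gcongr
    _ = _ := by ring

end Pool.Agent.MPac5134
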