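import Pool.Agent.Lib.MP_ac5134_an.Critical

/-!
Estimates for exponents `p = 1 + s/d` with `s ≥ 1`.
-/

namespace Pool.Agent.MPac5134

open MeasureTheory
open scoped ENNReal InnerProductSpace

variable {d : ℕ} {ι : Type*} [Fintype ι]

/-- power version of the tree inequality -/
theorem tree_ineq_rpow (hd : 0 < d) (S : Finset (Fin d → ℤ)) {s : ℝ} (hs : 1 ≤ s) :
    (d : ℝ) * (S.card : ℝ) ^ (1 + s / (d : ℝ)) ≤
      ∑ t ∈ S, ∑ k : Fin d, ((branches S k t).card : ℝ) ^ s := by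
  have hd' : (0:ℝ) < d := by exact_mod_cast hd
  rcases S.eq_empty_or_nonempty with rfl | hne
  · have h0 : (1 + s / (d : ℝ)) ≠ 0 := by positivity
    rw [Finset.card_empty, Nat.cast_zero, Real.zero_rpow h0, mul_zero, Finset.sum_empty]
  have hc : (0:ℝ) < S.card := by exact_mod_cast Finset.card_pos.2 hne
  have h1 := tree_ineq hd S
  rw [← Finset.sum_product'] at h1 ⊢
  set P : Finset ((Fin d → ℤ) × Fin d) := S ×ˢ Finset.univ with hP
  have hPcard : (P.card : ℝ) = S.card * d := by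
    rw [hP, Finset.card_product, Finset.card_univ, Fintype.card_fin]
    push_cast
    ring
  have hPpos : (0:ℝ) < P.card := by rw [hPcard]; positivity
  have hmean := Real.rpow_arith_mean_le_arith_mean_rpow P (fun _ => 1 / (P.card : ℝ))
    (fun q => ((branches S q.2 q.1).card : ℝ)) (fun _ _ => by positivity)
    (by rw [Finset.sum_const, nsmul_eq_mul]; exact mul_one_div_cancel hPpos.ne')
    (fun _ _ => Nat.cast_nonneg _) hs
  rw [← Finset.mul_sum, ← Finset.mul_sum] at hmean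
  have h2 : (S.card : ℝ) ^ (1 / (d:ℝ)) ≤
      1 / (P.card : ℝ) * ∑ q ∈ P, ((branches S q.2 q.1).card : ℝ) := by
    rw [one_div_mul_eq_div, le_div_iff₀ hPpos, hPcard]
    calc (S.card : ℝ) ^ (1 / (d:ℝ)) * (S.card * d) =
        (d : ℝ) * (S.card : ℝ) ^ (1 + 1 / (d : ℝ)) := by
          rw [Real.rpow_add hc, Real.rpow_one]; ring
      _ ≤ _ := h1
  have h3 : ((S.card : ℝ) ^ (1 / (d:ℝ))) ^ s ≤
      1 / (P.card : ℝ) * ∑ q ∈ P, ((branches S q.2 q.1).card : ℝ) ^ s :=
    (Real.rpow_le_rpow (by positivity) h2 (by linarith)).trans hmean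
  rw [one_div_mul_eq_div, le_div_iff₀ hPpos, hPcard, ← Real.rpow_mul hc.le] at h3
  calc (d : ℝ) * (S.card : ℝ) ^ (1 + s / (d : ℝ)) =
      (S.card : ℝ) ^ (1 / (d:ℝ) * s) * (S.card * d) := by
        rw [Real.rpow_add hc, Real.rpow_one, one_div_mul_eq_div]; ring
    _ ≤ _ := h3

/-- `b^s ≤ (b-1)^s + s b^{s-1}` -/
theorem rpow_sub_le {s b : ℝ} (hs : 1 ≤ s) (hb : 1 ≤ b) :
    b ^ s ≤ (b - 1) ^ s + s * b ^ (s - 1) := by
  have hb0 : 0 < b := by linarith
  have h1 : 1 + s * (-(1 / b)) ≤ (1 + -(1 / b)) ^ s := by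
    apply one_add_mul_self_le_rpow_one_add _ hs
    have : 1 / b ≤ 1 := by rw [div_le_one hb0]; exact hb
    linarith
  have h2 : (b - 1) ^ s = b ^ s * (1 + -(1 / b)) ^ s := by
    rw [← Real.mul_rpow hb0.le]
    · congr 1
      field_simp
      ring
    · have : 1 / b ≤ 1 := by rw [div_le_one hb0]; exact hb
      linarith
  have h3 : b ^ (s - 1) = b ^ s / b := by
    rw [Real.rpow_sub hb0, Real.rpow_one]
  have hbs : 0 < b ^ s := Real.rpow_pos_of_pos hb0 s
  rw [h2, h3]
  have h4 : b ^ s * (1 + s * (-(1 / b))) ≤ b ^ s * (1 + -(1 / b)) ^ s :=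
    mul_le_mul_of_nonneg_left h1 hbs.le
  have h5 : b ^ s * (1 + s * (-(1 / b))) + s * (b ^ s / b) = b ^ s := by
    field_simp
    ring
  linarith

/-- sorted counting -/
theorem card_rpow_le (B : Finset ℤ) (m : ℤ) {s : ℝ} (hs : 1 ≤ s) :
    (B.card : ℝ) ^ s ≤ ∑ z ∈ B, s * (2 * |((z - m : ℤ) : ℝ)| + 1) ^ (s - 1) := by
  classical
  induction' hn : B.card with n ih generalizing B
  · have : s ≠ 0 := by linarith
    rw [Nat.cast_zero, Real.zero_rpow this]
    exact Finset.sum_nonneg fun z _ => by positivity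
  · have hne : B.Nonempty := by
      rw [← Finset.card_pos, hn]; omega
    obtain ⟨w, hw, hmax⟩ := Finset.exists_max_image B (fun z => |z - m|) hne
    have h1 := ih (B.erase w) (by rw [Finset.card_erase_of_mem hw, hn]; rfl)
    rw [← Finset.sum_erase_add B _ hw]
    have hsub : B ⊆ Finset.Icc (m - |w - m|) (m + |w - m|) := by
      intro z hz
      have := hmax z hz
      rw [Finset.mem_Icc]
      have h2 := neg_abs_le (z - m)
      have h3 := le_abs_self (z - m)
      constructor <;> linarith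
    have hcard := Finset.card_le_card hsub
    rw [Int.card_Icc, hn] at hcard
    have hcard' : ((n + 1 : ℕ) : ℝ) ≤ 2 * |((w - m : ℤ) : ℝ)| + 1 := by
      have h4 : ((n + 1 : ℕ) : ℤ) ≤ 2 * |w - m| + 1 := by
        have h5 := abs_nonneg (w - m)
        omega
      have h6 : (((n + 1 : ℕ) : ℤ) : ℝ) ≤ ((2 * |w - m| + 1 : ℤ) : ℝ) := by exact_mod_cast h4
      push_cast at h6 ⊢
      exact h6
    have hb : (1:ℝ) ≤ ((n + 1 : ℕ) : ℝ) := by
      push_cast
      have : (0:ℝ) ≤ n := Nat.cast_nonneg n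
      linarith
    have h7 := rpow_sub_le hs hb
    have h8 : ((n + 1 : ℕ) : ℝ) - 1 = n := by push_cast; ring
    rw [h8] at h7
    have h9 : s * ((n + 1 : ℕ) : ℝ) ^ (s - 1) ≤ s * (2 * |((w - m : ℤ) : ℝ)| + 1) ^ (s - 1) := by
      apply mul_le_mul_of_nonneg_left _ (by linarith)
      exact Real.rpow_le_rpow (by positivity) hcard' (by linarith)
    linarith

/-- pointwise inequality for the exponent `1 + s/d` -/
theorem mult_rpow_le (hd : 0 < d) {K : ℕ} {A N : ℝ} (hN : 1 ≤ N) (θ : ι → Cap d)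
    (c : ι → Sp d) (hK : ∀ z : Fin d → ℤ, ∀ s : Finset ι, (∀ i ∈ s, cell N (θ i) = z) → s.card ≤ K)
    (b : Fin d → (Fin d → ℤ) → ℝ)
    (hb1 : ∀ (k : Fin d) (z z' : Fin d → ℤ), (∀ j, j ≤ k → z j = z' j) → b k z = b k z')
    (hb2 : ∀ (i : ι) (k : Fin d), ∀ x ∈ tube N (θ i) (c i),
      |x k.castSucc + 2 * ((cell N (θ i) k : ℝ) / N) * x (Fin.last d) -
        b k (cell N (θ i))| ≤ A * N) {s : ℝ} (hs : 1 ≤ s) (x : Sp d) :
    (mult N θ c x) ^ (1 + s / (d:ℝ)) ≤
      (K : ℝ) ^ (1 + s / (d:ℝ)) / d * ∑ i, ∑ k : Fin d,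
        ∑ z ∈ Finset.Icc (-(⌊N⌋ + 1)) (⌊N⌋ + 1),
        (s * (2 * |((z - cell N (θ i) k : ℤ) : ℝ)| + 1) ^ (s - 1)) *
        (tube N (θ i) (c i) ∩ slabAt A N b k (cell N (θ i)) z).indicator
          (fun _ => (1:ℝ)) x := by
  classical
  have hd' : (0:ℝ) < d := by exact_mod_cast hd
  rw [mult_eq_card]
  set S : Finset ι := Finset.univ.filter fun i => x ∈ tube N (θ i) (c i) with hS
  set S' : Finset (Fin d → ℤ) := S.image (fun i => cell N (θ i)) with hS'
  have hcard : S.card ≤ K * S'.card := by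
    apply Finset.card_le_mul_card_image
    intro z _
    apply hK z
    intro i hi
    exact (Finset.mem_filter.1 hi).2
  have htree := tree_ineq_rpow hd S' hs
  set g : (Fin d → ℤ) → ℝ := fun t => ∑ k : Fin d, ∑ z ∈ Finset.Icc (-(⌊N⌋ + 1)) (⌊N⌋ + 1),
        (s * (2 * |((z - t k : ℤ) : ℝ)| + 1) ^ (s - 1)) *
        (slabAt A N b k t z).indicator (fun _ => (1:ℝ)) x with hg
  have hind : ∀ (k : Fin d) (t : Fin d → ℤ) (z : ℤ),
      0 ≤ (slabAt A N b k t z).indicator (fun _ => (1:ℝ)) x := fun k t z =>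
    Set.indicator_nonneg (fun _ _ => zero_le_one) _
  have hgnn : ∀ t, 0 ≤ g t := by
    intro t
    apply Finset.sum_nonneg; intro k _
    apply Finset.sum_nonneg; intro z _
    have := hind k t z
    positivity
  have hbr : ∀ t ∈ S', ∀ k : Fin d, ((branches S' k t).card : ℝ) ^ s ≤
      ∑ z ∈ Finset.Icc (-(⌊N⌋ + 1)) (⌊N⌋ + 1),
        (s * (2 * |((z - t k : ℤ) : ℝ)| + 1) ^ (s - 1)) *
        (slabAt A N b k t z).indicator (fun _ => (1:ℝ)) x := by
    intro t _ k
    have hsub : branches S' k t ⊆ (Finset.Icc (-(⌊N⌋ + 1)) (⌊N⌋ + 1)).filter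
        (fun z => x ∈ slabAt A N b k t z) := by
      intro z hz
      unfold branches at hz
      obtain ⟨t', ht, rfl⟩ := Finset.mem_image.1 hz
      obtain ⟨ht1, ht2⟩ := Finset.mem_filter.1 ht
      obtain ⟨i, hi, rfl⟩ := Finset.mem_image.1 ht1
      have hix : x ∈ tube N (θ i) (c i) := (Finset.mem_filter.1 hi).2
      rw [Finset.mem_filter]
      refine ⟨cell_bounds hN (θ i) k, ?_⟩
      have h1 := hb2 i k x hix
      have h2 : b k (cell N (θ i)) = b k (Function.update t k (cell N (θ i) k)) := by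
        apply hb1
        intro j hj
        rcases lt_or_eq_of_le hj with hj | rfl
        · rw [Function.update_of_ne hj.ne]
          exact ht2 j hj
        · simp
      rw [h2] at h1
      exact h1
    refine (card_rpow_le (branches S' k t) (t k) hs).trans ?_
    calc _ ≤ ∑ z ∈ (Finset.Icc (-(⌊N⌋ + 1)) (⌊N⌋ + 1)).filter
          (fun z => x ∈ slabAt A N b k t z),
          s * (2 * |((z - t k : ℤ) : ℝ)| + 1) ^ (s - 1) :=
          Finset.sum_le_sum_of_subset_of_nonneg hsub (fun _ _ _ => by positivity)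
      _ = _ := by
          rw [Finset.sum_filter]
          apply Finset.sum_congr rfl
          intro z _
          by_cases h : x ∈ slabAt A N b k t z
          · simp [h]
          · simp [h]
  have h1 : ∑ t ∈ S', ∑ k : Fin d, ((branches S' k t).card : ℝ) ^ s ≤ ∑ t ∈ S', g t := by
    apply Finset.sum_le_sum; intro t ht
    apply Finset.sum_le_sum; intro k _
    exact hbr t ht k
  have h2 : ∑ t ∈ S', g t ≤ ∑ i ∈ S, g (cell N (θ i)) := by
    rw [hS']
    exact Finset.sum_image_le_of_nonneg (fun t _ => hgnn t)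
  have h3 : ∑ i ∈ S, g (cell N (θ i)) = ∑ i, ∑ k : Fin d,
        ∑ z ∈ Finset.Icc (-(⌊N⌋ + 1)) (⌊N⌋ + 1),
        (s * (2 * |((z - cell N (θ i) k : ℤ) : ℝ)| + 1) ^ (s - 1)) *
        (tube N (θ i) (c i) ∩ slabAt A N b k (cell N (θ i)) z).indicator
          (fun _ => (1:ℝ)) x := by
    rw [hS, Finset.sum_filter]
    apply Finset.sum_congr rfl
    intro i _
    by_cases h : x ∈ tube N (θ i) (c i)
    · rw [if_pos h]
      apply Finset.sum_congr rfl; intro k _
      apply Finset.sum_congr rfl; intro z _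
      by_cases h' : x ∈ slabAt A N b k (cell N (θ i)) z
      · rw [Set.indicator_of_mem h', Set.indicator_of_mem (Set.mem_inter h h')]
      · rw [Set.indicator_of_notMem h', Set.indicator_of_notMem (fun h'' => h' h''.2)]
    · rw [if_neg h]
      symm
      apply Finset.sum_eq_zero; intro k _
      apply Finset.sum_eq_zero; intro z _
      rw [Set.indicator_of_notMem (fun h'' => h h''.1), mul_zero]
  rw [← h3]
  have h4 : (d:ℝ) * (S'.card : ℝ) ^ (1 + s / (d:ℝ)) ≤ ∑ i ∈ S, g (cell N (θ i)) :=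
    htree.trans (h1.trans h2)
  have h5 : (S.card : ℝ) ^ (1 + s / (d:ℝ)) ≤
      ((K:ℝ) * S'.card) ^ (1 + s / (d:ℝ)) := by
    apply Real.rpow_le_rpow (by positivity) (by exact_mod_cast hcard) (by positivity)
  rw [Real.mul_rpow (by positivity) (by positivity)] at h5
  refine h5.trans ?_
  rw [div_mul_eq_mul_div, le_div_iff₀ hd', mul_assoc]
  apply mul_le_mul_of_nonneg_left _ (by positivity)
  rw [mul_comm]
  exact h4

end Pool.Agent.MPac5134
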