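import Mathlib

/-!
Sublevel sets of monic polynomials and of `t ↦ det (A - 2 t)`.
-/

namespace Pool.Agent.MPac5134

open MeasureTheory Set Polynomial
open scoped ENNReal NNReal

theorem prod_lt_of_forall {α : Type*} (s : Multiset α) (g : α → ℝ) {a : ℝ} (ha : 0 < a)
    (h : ∀ z ∈ s, a < g z) (hs : s ≠ 0) : a ^ s.card < (s.map g).prod := by
  classical
  induction s using Multiset.induction_on with
  | empty => exact absurd rfl hs
  | cons z s ih =>
    rw [Multiset.map_cons, Multiset.prod_cons, Multiset.card_cons, pow_succ']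
    by_cases h0 : s = 0
    · subst h0
      simp only [Multiset.card_zero, pow_zero, mul_one, Multiset.map_zero, Multiset.prod_zero]
      exact h z (Multiset.mem_cons_self z 0)
    · have h1 := ih (fun w hw => h w (Multiset.mem_cons_of_mem hw)) h0
      have h2 := h z (Multiset.mem_cons_self z s)
      have h3 : 0 < a ^ s.card := by positivity
      exact mul_lt_mul'' h2 h1 ha.le h3.le

theorem volume_sublevel_monic (p : ℝ[X]) (hp : p.Monic) (hd : 0 < p.natDegree) {σ : ℝ}
    (hσ : 0 < σ) :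
    volume {t : ℝ | |p.eval t| ≤ σ} ≤
      ENNReal.ofReal (2 * p.natDegree * σ ^ (1 / (p.natDegree : ℝ))) := by
  classical
  set d := p.natDegree with hdef
  have hd' : (0:ℝ) < d := by exact_mod_cast hd
  set q : ℂ[X] := p.map (algebraMap ℝ ℂ) with hq
  have hqm : q.Monic := hp.map _
  have hqs : q.Splits := IsAlgClosed.splits q
  have hqd : q.natDegree = d := by rw [hq, natDegree_map]
  have hcard : q.roots.card = d := by
    rw [← hqd]; exact hqs.natDegree_eq_card_roots.symm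
  set a : ℝ := σ ^ (1 / (d:ℝ)) with ha
  have ha0 : 0 < a := Real.rpow_pos_of_pos hσ _
  have had : a ^ d = σ := by
    rw [ha, ← Real.rpow_natCast, ← Real.rpow_mul hσ.le, one_div_mul_cancel hd'.ne', Real.rpow_one]
  have heval : ∀ t : ℝ, |p.eval t| = (q.roots.map (fun z => ‖(t:ℂ) - z‖)).prod := by
    intro t
    have h1 : ((p.eval t : ℝ) : ℂ) = q.eval (t:ℂ) := by
      rw [hq, ← Complex.coe_algebraMap, Polynomial.eval_map_algebraMap,
        Polynomial.aeval_algebraMap_apply]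
      rfl
    have h2 := hqs.eval_eq_prod_roots_of_monic hqm (t:ℂ)
    have h3 : |p.eval t| = ‖q.eval (t:ℂ)‖ := by
      rw [← h1, Complex.norm_real, Real.norm_eq_abs]
    rw [h3, h2]
    have h4 : ∀ s : Multiset ℂ, ‖(s.map (fun z => (t:ℂ) - z)).prod‖ =
        (s.map (fun z => ‖(t:ℂ) - z‖)).prod := by
      intro s
      induction s using Multiset.induction_on with
      | empty => simp
      | cons z s ih => simp only [Multiset.map_cons, Multiset.prod_cons, norm_mul, ih]
    exact h4 _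
  have hsub : {t : ℝ | |p.eval t| ≤ σ} ⊆
      ⋃ z ∈ q.roots.toFinset, Icc (z.re - a) (z.re + a) := by
    intro t ht
    by_contra hcon
    simp only [mem_iUnion, not_exists] at hcon
    have h1 : ∀ z ∈ q.roots, a < ‖(t:ℂ) - z‖ := by
      intro z hz
      have h2 := hcon z (Multiset.mem_toFinset.2 hz)
      have h3 : a < |t - z.re| := by
        by_contra h4
        rw [not_lt, abs_le] at h4
        apply h2
        constructor <;> linarith [h4.1, h4.2]
      have h5 : |t - z.re| ≤ ‖(t:ℂ) - z‖ := by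
        have := Complex.abs_re_le_norm ((t:ℂ) - z)
        simpa using this
      linarith
    have hne : q.roots ≠ 0 := by
      intro h0
      rw [h0, Multiset.card_zero] at hcard
      omega
    have h6 := prod_lt_of_forall q.roots (fun z => ‖(t:ℂ) - z‖) ha0 h1 hne
    rw [← heval, hcard, had] at h6
    exact absurd ht (not_le.2 h6)
  calc volume {t : ℝ | |p.eval t| ≤ σ}
      ≤ volume (⋃ z ∈ q.roots.toFinset, Icc (z.re - a) (z.re + a)) := measure_mono hsub
    _ ≤ ∑ z ∈ q.roots.toFinset, volume (Icc (z.re - a) (z.re + a)) :=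
        measure_biUnion_finset_le _ _
    _ = ∑ _z ∈ q.roots.toFinset, ENNReal.ofReal (2 * a) := by
        apply Finset.sum_congr rfl
        intro z _
        rw [Real.volume_Icc]
        congr 1
        ring
    _ = q.roots.toFinset.card * ENNReal.ofReal (2 * a) := by
        rw [Finset.sum_const, nsmul_eq_mul]
    _ ≤ (d:ℝ≥0∞) * ENNReal.ofReal (2 * a) := by
        gcongr
        rw [← hcard]
        exact_mod_cast Multiset.toFinset_card_le _
    _ = ENNReal.ofReal (2 * d * a) := by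
        rw [← ENNReal.ofReal_natCast, ← ENNReal.ofReal_mul (by positivity)]
        congr 1
        ring

variable {d : ℕ}

/-- `det (A - 2 t)` -/
noncomputable def jac (A : (Fin d → ℝ) →L[ℝ] (Fin d → ℝ)) (t : ℝ) : ℝ :=
  (A - (2 * t) • ContinuousLinearMap.id ℝ (Fin d → ℝ)).det

theorem continuous_jac :
    Continuous fun q : ((Fin d → ℝ) →L[ℝ] (Fin d → ℝ)) × ℝ => jac q.1 q.2 := by
  unfold jac
  exact ContinuousLinearMap.continuous_det.comp (by fun_prop)

theorem volume_jac_le (hd : 0 < d) (A : (Fin d → ℝ) →L[ℝ] (Fin d → ℝ)) {σ : ℝ} (hσ : 0 < σ) :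
    volume {t : ℝ | |jac A t| ≤ σ} ≤ ENNReal.ofReal (2 * d * σ ^ (1 / (d:ℝ))) := by
  set f : (Fin d → ℝ) →ₗ[ℝ] (Fin d → ℝ) := ((1/2:ℝ) • (A : (Fin d → ℝ) →ₗ[ℝ] (Fin d → ℝ)))
    with hf
  have hdeg : f.charpoly.natDegree = d := by
    rw [LinearMap.charpoly_natDegree]; simp
  have h1 := volume_sublevel_monic f.charpoly f.charpoly_monic (by rw [hdeg]; exact hd) hσ
  rw [hdeg] at h1
  refine le_trans (measure_mono ?_) h1
  intro t ht
  have ht' : |jac A t| ≤ σ := ht
  change |f.charpoly.eval t| ≤ σ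
  rw [LinearMap.eval_charpoly]
  have e1 : (algebraMap ℝ (Module.End ℝ (Fin d → ℝ)) t - f) = (-(1/2:ℝ)) •
      ((A - (2 * t) • ContinuousLinearMap.id ℝ (Fin d → ℝ) :
        (Fin d → ℝ) →L[ℝ] (Fin d → ℝ)) : (Fin d → ℝ) →ₗ[ℝ] (Fin d → ℝ)) := by
    ext v i
    simp [hf, Algebra.algebraMap_eq_smul_one]
    ring
  rw [e1, LinearMap.det_smul]
  have e2 : LinearMap.det ((A - (2 * t) • ContinuousLinearMap.id ℝ (Fin d → ℝ) :
        (Fin d → ℝ) →L[ℝ] (Fin d → ℝ)) : (Fin d → ℝ) →ₗ[ℝ] (Fin d → ℝ)) = jac A t := rfl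
  rw [e2, abs_mul, abs_pow, abs_neg, abs_of_pos (by norm_num : (0:ℝ) < 1/2)]
  have h2 : (1/2:ℝ) ^ Module.finrank ℝ (Fin d → ℝ) ≤ 1 := pow_le_one₀ (by norm_num) (by norm_num)
  calc (1/2:ℝ) ^ Module.finrank ℝ (Fin d → ℝ) * |jac A t| ≤ 1 * |jac A t| := by gcongr
    _ ≤ σ := by rw [one_mul]; exact ht'

/-- the scaled version -/
theorem volume_jac_scaled_le (hd : 0 < d) (A : (Fin d → ℝ) →L[ℝ] (Fin d → ℝ)) {σ R : ℝ}
    (hσ : 0 < σ) (hR : 0 < R) :
    volume {t : ℝ | |jac A (t / R)| ≤ σ} ≤ ENNReal.ofReal (2 * d * R * σ ^ (1 / (d:ℝ))) := by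
  have h1 : {t : ℝ | |jac A (t / R)| ≤ σ} = (fun t => R⁻¹ * t) ⁻¹' {t : ℝ | |jac A t| ≤ σ} := by
    ext t
    simp only [mem_ofPred_eq, mem_preimage]
    rw [div_eq_inv_mul]
  rw [h1, Real.volume_preimage_mul_left (inv_pos.2 hR).ne', inv_inv, abs_of_pos hR]
  calc ENNReal.ofReal R * volume {t : ℝ | |jac A t| ≤ σ}
      ≤ ENNReal.ofReal R * ENNReal.ofReal (2 * d * σ ^ (1 / (d:ℝ))) := by
        gcongr
        exact volume_jac_le hd A hσ
    _ = _ := by
        rw [← ENNReal.ofReal_mul hR.le]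
        congr 1
        ring

end Pool.Agent.MPac5134
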