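import Pool.Agent.Lib.MP_ac5134_an.Power

/-!
Upper bounds for the integrals of powers of the multiplicity function of a plane-sorted family.
-/

namespace Pool.Agent.MPac5134

open MeasureTheory
open scoped ENNReal InnerProductSpace

variable {d : ℕ} {ι : Type*} [Fintype ι]

/-- geometric sum with ratio `2^{s-1}` -/
noncomputable def geo (s : ℝ) (T : ℕ) : ℝ := ∑ i ∈ Finset.range T, ((2:ℝ) ^ (s - 1)) ^ i

theorem geo_nonneg (s : ℝ) (T : ℕ) : 0 ≤ geo s T := by
  unfold geo; positivity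

theorem one_le_geo (s : ℝ) {T : ℕ} (hT : 0 < T) : 1 ≤ geo s T := by
  unfold geo
  have h0 : (0:ℕ) ∈ Finset.range T := Finset.mem_range.2 hT
  have := Finset.single_le_sum (f := fun i => ((2:ℝ) ^ (s - 1)) ^ i)
    (fun i _ => by positivity) h0
  simpa using this

theorem sum_Ico_rpow_le {s : ℝ} (hs2 : s ≤ 2) (T : ℕ) :
    ∑ n ∈ (Finset.Ico 1 (2 ^ T) : Finset ℕ), (n:ℝ) ^ (s - 2) ≤ geo s T := by
  induction T with
  | zero => simp [geo]
  | succ T ih =>
    unfold geo at ih ⊢
    rw [Finset.sum_range_succ]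
    have h1 : (1:ℕ) ≤ 2 ^ T := Nat.one_le_two_pow
    have h2 : 2 ^ T ≤ 2 ^ (T + 1) := Nat.pow_le_pow_right (by norm_num) (by omega)
    rw [← Finset.sum_Ico_consecutive _ h1 h2]
    have h3 : ∑ n ∈ (Finset.Ico (2 ^ T) (2 ^ (T + 1)) : Finset ℕ), (n:ℝ) ^ (s - 2) ≤
        ((2:ℝ) ^ (s - 1)) ^ T := by
      calc _ ≤ ∑ _n ∈ (Finset.Ico (2 ^ T) (2 ^ (T + 1)) : Finset ℕ), ((2:ℝ) ^ T) ^ (s - 2) := by
            apply Finset.sum_le_sum
            intro n hn
            rw [Finset.mem_Ico] at hn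
            apply Real.rpow_le_rpow_of_nonpos (by positivity) _ (by linarith)
            exact_mod_cast hn.1
        _ = ((2:ℝ) ^ (s - 1)) ^ T := by
            rw [Finset.sum_const, Nat.card_Ico, nsmul_eq_mul]
            have e1 : ((2 ^ (T + 1) - 2 ^ T : ℕ) : ℝ) = (2:ℝ) ^ T := by
              rw [pow_succ]
              have : 2 ^ T * 2 - 2 ^ T = 2 ^ T := by omega
              rw [this]; push_cast; rfl
            rw [e1]
            have e2 : ((2:ℝ) ^ (s - 1)) ^ T = ((2:ℝ) ^ T) ^ (s - 1) := by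
              rw [← Real.rpow_natCast, ← Real.rpow_natCast, ← Real.rpow_mul (by norm_num),
                ← Real.rpow_mul (by norm_num), mul_comm]
            rw [e2]
            have hpos : (0:ℝ) < (2:ℝ) ^ T := by positivity
            have e3 : s - 1 = 1 + (s - 2) := by ring
            rw [e3, Real.rpow_add hpos, Real.rpow_one]
    linarith

/-- weighted sum over the possible cells -/
theorem sum_weight_le {N : ℝ} (hN : 1 ≤ N) {s : ℝ} (hs1 : 1 ≤ s) (hs2 : s ≤ 2) {m : ℤ}
    (hm : m ∈ Finset.Icc (-(⌊N⌋ + 1)) (⌊N⌋ + 1)) :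
    ∑ z ∈ Finset.Icc (-(⌊N⌋ + 1)) (⌊N⌋ + 1),
      (s * (2 * |((z - m : ℤ) : ℝ)| + 1) ^ (s - 1)) * (max 1 |((z - m : ℤ) : ℝ)|)⁻¹ ≤
      18 * geo s (Nat.log 2 ⌊N⌋₊ + 3) := by
  classical
  have hN0 : 0 < N := by linarith
  set L := Nat.log 2 ⌊N⌋₊ with hL
  obtain ⟨R, hR⟩ : ∃ R : ℕ, (R : ℤ) = ⌊N⌋ + 1 :=
    Int.eq_ofNat_of_zero_le (by have := Int.floor_nonneg.2 hN0.le; omega) |>.imp
      fun _ h => h.symm
  have hRn : R = ⌊N⌋₊ + 1 := by
    have : (⌊N⌋₊ : ℤ) = ⌊N⌋ := Int.natCast_floor_eq_floor hN0.le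
    omega
  rw [← hR] at hm ⊢
  have hfl1 : 1 ≤ ⌊N⌋₊ := Nat.le_floor (by simpa using hN)
  have hRlt : 2 * R < 2 ^ (L + 3) := by
    have h1 := Nat.lt_pow_succ_log_self (b := 2) (by norm_num) ⌊N⌋₊
    rw [← hL] at h1
    have h2 : 2 ^ (L + 3) = 4 * 2 ^ (L + 1) := by ring
    have h3 : L.succ = L + 1 := rfl
    omega
  -- termwise bound
  have hterm : ∀ z : ℤ, (s * (2 * |((z - m : ℤ) : ℝ)| + 1) ^ (s - 1)) *
      (max 1 |((z - m : ℤ) : ℝ)|)⁻¹ ≤ 6 * (max 1 |((z - m : ℤ) : ℝ)|) ^ (s - 2) := by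
    intro z
    set a : ℝ := max 1 |((z - m : ℤ) : ℝ)| with ha
    have ha1 : 1 ≤ a := le_max_left _ _
    have ha0 : 0 < a := by linarith
    have h1 : 2 * |((z - m : ℤ) : ℝ)| + 1 ≤ 3 * a := by
      have := le_max_right 1 |((z - m : ℤ) : ℝ)|
      rw [← ha] at this
      linarith
    have h2 : (2 * |((z - m : ℤ) : ℝ)| + 1) ^ (s - 1) ≤ 3 * a ^ (s - 1) := by
      calc _ ≤ (3 * a) ^ (s - 1) := Real.rpow_le_rpow (by positivity) h1 (by linarith)
        _ = 3 ^ (s - 1) * a ^ (s - 1) := Real.mul_rpow (by norm_num) ha0.le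
        _ ≤ 3 ^ (1:ℝ) * a ^ (s - 1) := by
            gcongr
            · norm_num
            · linarith
        _ = 3 * a ^ (s - 1) := by rw [Real.rpow_one]
    have h3 : a ^ (s - 2) = a ^ (s - 1) * a⁻¹ := by
      have : s - 2 = (s - 1) + (-1) := by ring
      rw [this, Real.rpow_add ha0, Real.rpow_neg_one]
    rw [h3, ← mul_assoc]
    apply mul_le_mul_of_nonneg_right _ (by positivity)
    calc s * (2 * |((z - m : ℤ) : ℝ)| + 1) ^ (s - 1) ≤ 2 * (3 * a ^ (s - 1)) := by
          gcongr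
      _ = 6 * a ^ (s - 1) := by ring
  refine (Finset.sum_le_sum fun z _ => hterm z).trans ?_
  rw [← Finset.mul_sum]
  have hsub : (Finset.Icc (-(R:ℤ)) R).image (fun z => z - m) ⊆
      Finset.Icc (-(2 * R : ℤ)) (2 * R) := by
    intro j hj
    obtain ⟨z, hz, rfl⟩ := Finset.mem_image.1 hj
    rw [Finset.mem_Icc] at hz hm ⊢
    omega
  have h1 : ∑ z ∈ Finset.Icc (-(R:ℤ)) R, (max 1 |((z - m : ℤ) : ℝ)|) ^ (s - 2) =
      ∑ j ∈ (Finset.Icc (-(R:ℤ)) R).image (fun z => z - m), (max 1 |(j : ℝ)|) ^ (s - 2) := by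
    rw [Finset.sum_image]
    intro a _ b _ hab
    simpa using hab
  rw [h1]
  have hcover : Finset.Icc (-(2 * R : ℤ)) (2 * R) ⊆
      ({0} : Finset ℤ) ∪ ((Finset.Ico 1 (2 ^ (L + 3))).image (fun n : ℕ => (n : ℤ)) ∪
        (Finset.Ico 1 (2 ^ (L + 3))).image (fun n : ℕ => (-(n : ℤ)))) := by
    intro j hj
    rw [Finset.mem_Icc] at hj
    simp only [Finset.mem_union, Finset.mem_singleton, Finset.mem_image, Finset.mem_Ico]
    rcases lt_trichotomy j 0 with h | h | h
    · right; right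
      refine ⟨(-j).toNat, ⟨by omega, by omega⟩, by omega⟩
    · left; exact h
    · right; left
      refine ⟨j.toNat, ⟨by omega, by omega⟩, by omega⟩
  set f : ℤ → ℝ := fun j => (max 1 |(j : ℝ)|) ^ (s - 2) with hf
  have hfnn : ∀ j, 0 ≤ f j := fun j => by positivity
  have h2 : ∑ j ∈ (Finset.Icc (-(R:ℤ)) R).image (fun z => z - m), f j ≤
      ∑ j ∈ ({0} : Finset ℤ) ∪ ((Finset.Ico 1 (2 ^ (L + 3))).image (fun n : ℕ => (n : ℤ)) ∪
        (Finset.Ico 1 (2 ^ (L + 3))).image (fun n : ℕ => (-(n : ℤ)))), f j :=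
    Finset.sum_le_sum_of_subset_of_nonneg (hsub.trans hcover) (fun j _ _ => hfnn j)
  have hgeo := sum_Ico_rpow_le hs2 (L + 3)
  have hA : ∑ a ∈ (Finset.Ico 1 (2 ^ (L + 3))).image (fun n : ℕ => (n : ℤ)), f a ≤
      geo s (L + 3) := by
    refine (Finset.sum_image_le_of_nonneg (fun s _ => hfnn s)).trans ?_
    refine le_trans (Finset.sum_le_sum fun n hn => ?_) hgeo
    rw [Finset.mem_Ico] at hn
    have hn1 : (1:ℝ) ≤ n := by exact_mod_cast hn.1
    rw [hf]
    simp only [Int.cast_natCast]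
    rw [abs_of_nonneg (by positivity), max_eq_right hn1]
  have hB : ∑ a ∈ (Finset.Ico 1 (2 ^ (L + 3))).image (fun n : ℕ => (-(n : ℤ))), f a ≤
      geo s (L + 3) := by
    refine (Finset.sum_image_le_of_nonneg (fun s _ => hfnn s)).trans ?_
    refine le_trans (Finset.sum_le_sum fun n hn => ?_) hgeo
    rw [Finset.mem_Ico] at hn
    have hn1 : (1:ℝ) ≤ n := by exact_mod_cast hn.1
    rw [hf]
    simp only [Int.cast_neg, Int.cast_natCast]
    rw [abs_neg, abs_of_nonneg (by positivity), max_eq_right hn1]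
  have h0 : ∑ a ∈ ({0} : Finset ℤ), f a = 1 := by
    rw [Finset.sum_singleton, hf]; simp
  have hone := one_le_geo s (T := L + 3) (by omega)
  have u1 := sum_union_le_aux ({0} : Finset ℤ) ((Finset.Ico 1 (2 ^ (L + 3))).image
    (fun n : ℕ => (n : ℤ)) ∪ (Finset.Ico 1 (2 ^ (L + 3))).image (fun n : ℕ => (-(n : ℤ))))
    f hfnn
  have u2 := sum_union_le_aux ((Finset.Ico 1 (2 ^ (L + 3))).image
    (fun n : ℕ => (n : ℤ))) ((Finset.Ico 1 (2 ^ (L + 3))).image (fun n : ℕ => (-(n : ℤ))))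
    f hfnn
  linarith

/-- The estimate at the exponent `1 + s/d`, `1 ≤ s ≤ 2`. -/
theorem power_bound (hd : 0 < d) {K : ℕ} {A N : ℝ} (hN : 1 ≤ N) (hA : 0 ≤ A)
    (θ : ι → Cap d) (c : ι → Sp d)
    (hK : ∀ z : Fin d → ℤ, ∀ s : Finset ι, (∀ i ∈ s, cell N (θ i) = z) → s.card ≤ K)
    (hps : PlaneSorted A N θ c) {s : ℝ} (hs1 : 1 ≤ s) (hs2 : s ≤ 2) :
    ∫⁻ x, ENNReal.ofReal ((mult N θ c x) ^ (1 + s / (d:ℝ))) ≤
      ENNReal.ofReal ((K : ℝ) ^ (1 + s / (d:ℝ)) * (18 * (1 + 6 * (2 * A + 5 * d))) *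
        geo s (Nat.log 2 ⌊N⌋₊ + 3) * (Fintype.card ι * N ^ (d + 2))) := by
  classical
  obtain ⟨b, hb1, hb2⟩ := hps
  have hd' : (0:ℝ) < d := by exact_mod_cast hd
  have hN0 : 0 < N := by linarith
  set C1 : ℝ := 1 + 6 * (2 * A + 5 * d) with hC1
  have hC1pos : 0 ≤ C1 := by positivity
  set KK : ℝ := (K : ℝ) ^ (1 + s / (d:ℝ)) with hKK
  have hKKnn : 0 ≤ KK := by positivity
  set Z : Finset ℤ := Finset.Icc (-(⌊N⌋ + 1)) (⌊N⌋ + 1) with hZ
  set w : ℤ → ℝ := fun j => s * (2 * |(j : ℝ)| + 1) ^ (s - 1) with hw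
  have hwnn : ∀ j, 0 ≤ w j := fun j => by positivity
  have hmeas : ∀ (i : ι) (k : Fin d) (z : ℤ),
      MeasurableSet (tube N (θ i) (c i) ∩ slabAt A N b k (cell N (θ i)) z) := by
    intro i k z
    refine (measurableSet_tube _ _ _).inter ?_
    have hc : Continuous fun x : Sp d => |x k.castSucc + 2 * ((z : ℝ) / N) * x (Fin.last d) -
        b k (Function.update (cell N (θ i)) k z)| := by fun_prop
    exact (isClosed_le hc continuous_const).measurableSet
  calc ∫⁻ x, ENNReal.ofReal ((mult N θ c x) ^ (1 + s / (d:ℝ)))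
      ≤ ∫⁻ x, ENNReal.ofReal (KK / d * ∑ i, ∑ k : Fin d, ∑ z ∈ Z,
        w (z - cell N (θ i) k) *
        (tube N (θ i) (c i) ∩ slabAt A N b k (cell N (θ i)) z).indicator
          (fun _ => (1:ℝ)) x) := by
        apply lintegral_mono
        intro x
        exact ENNReal.ofReal_le_ofReal (mult_rpow_le hd hN θ c hK b hb1 hb2 hs1 x)
    _ = ENNReal.ofReal (KK / d) * ∑ i, ∑ k : Fin d, ∑ z ∈ Z,
        ENNReal.ofReal (w (z - cell N (θ i) k)) *
        volume (tube N (θ i) (c i) ∩ slabAt A N b k (cell N (θ i)) z) := by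
        have e1 : ∀ x : Sp d, ENNReal.ofReal (KK / d * ∑ i, ∑ k : Fin d, ∑ z ∈ Z,
            w (z - cell N (θ i) k) *
            (tube N (θ i) (c i) ∩ slabAt A N b k (cell N (θ i)) z).indicator
              (fun _ => (1:ℝ)) x) = ENNReal.ofReal (KK / d) * ∑ i, ∑ k : Fin d, ∑ z ∈ Z,
            ENNReal.ofReal (w (z - cell N (θ i) k)) *
            (tube N (θ i) (c i) ∩ slabAt A N b k (cell N (θ i)) z).indicator
              (fun _ => (1:ℝ≥0∞)) x := by
          intro x
          rw [ENNReal.ofReal_mul (by positivity)]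
          congr 1
          have hnn : ∀ (j : ℤ) (s : Set (Sp d)), 0 ≤ w j * s.indicator (fun _ => (1:ℝ)) x :=
            fun j s => mul_nonneg (hwnn j) (Set.indicator_nonneg (fun _ _ => zero_le_one) _)
          rw [ENNReal.ofReal_sum_of_nonneg (fun i _ => Finset.sum_nonneg fun k _ =>
            Finset.sum_nonneg fun z _ => hnn _ _)]
          apply Finset.sum_congr rfl; intro i _
          rw [ENNReal.ofReal_sum_of_nonneg (fun k _ => Finset.sum_nonneg fun z _ => hnn _ _)]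
          apply Finset.sum_congr rfl; intro k _
          rw [ENNReal.ofReal_sum_of_nonneg (fun z _ => hnn _ _)]
          apply Finset.sum_congr rfl; intro z _
          rw [ENNReal.ofReal_mul (hwnn _)]
          congr 1
          by_cases h : x ∈ tube N (θ i) (c i) ∩ slabAt A N b k (cell N (θ i)) z
          · rw [Set.indicator_of_mem h, Set.indicator_of_mem h, ENNReal.ofReal_one]
          · rw [Set.indicator_of_notMem h, Set.indicator_of_notMem h, ENNReal.ofReal_zero]
        simp_rw [e1]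
        have hm1 : ∀ (i : ι) (k : Fin d) (z : ℤ), Measurable fun x : Sp d =>
            ENNReal.ofReal (w (z - cell N (θ i) k)) *
            (tube N (θ i) (c i) ∩ slabAt A N b k (cell N (θ i)) z).indicator
              (fun _ => (1:ℝ≥0∞)) x := fun i k z =>
          (measurable_const.indicator (hmeas i k z)).const_mul _
        rw [lintegral_const_mul' _ _ ENNReal.ofReal_ne_top]
        congr 1
        rw [lintegral_finsetSum]
        · apply Finset.sum_congr rfl; intro i _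
          rw [lintegral_finsetSum]
          · apply Finset.sum_congr rfl; intro k _
            rw [lintegral_finsetSum]
            · apply Finset.sum_congr rfl; intro z _
              rw [lintegral_const_mul' _ _ ENNReal.ofReal_ne_top,
                lintegral_indicator_const (hmeas i k z), one_mul]
            · intro z _
              exact hm1 i k z
          · intro k _
            exact Finset.measurable_sum _ fun z _ => hm1 i k z
        · intro i _
          exact Finset.measurable_sum _ fun k _ => Finset.measurable_sum _ fun z _ =>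
            hm1 i k z
    _ ≤ ENNReal.ofReal (KK / d) * ∑ i : ι, ∑ k : Fin d, ∑ z ∈ Z,
        ENNReal.ofReal (w (z - cell N (θ i) k)) *
        ENNReal.ofReal (C1 * N ^ (d + 2) * (max 1 |((z - cell N (θ i) k : ℤ) : ℝ)|)⁻¹) := by
        gcongr with i _ k _ z hz
        exact volume_tube_slab hN hA (θ i) (c i) k z (abs_le_two_mul hN hz) _
    _ ≤ ENNReal.ofReal (KK / d) * ∑ i : ι, ∑ k : Fin d,
        ENNReal.ofReal (C1 * N ^ (d + 2) * (18 * geo s (Nat.log 2 ⌊N⌋₊ + 3))) := by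
        gcongr with i _ k _
        simp_rw [← ENNReal.ofReal_mul (hwnn _)]
        rw [← ENNReal.ofReal_sum_of_nonneg (fun z _ => by
          have := hwnn (z - cell N (θ i) k)
          positivity)]
        apply ENNReal.ofReal_le_ofReal
        have h5 := sum_weight_le hN hs1 hs2 (cell_bounds hN (θ i) k)
        calc _ = C1 * N ^ (d + 2) * ∑ z ∈ Z, (s * (2 * |((z - cell N (θ i) k : ℤ) : ℝ)| + 1) ^
              (s - 1)) * (max 1 |((z - cell N (θ i) k : ℤ) : ℝ)|)⁻¹ := by
              rw [Finset.mul_sum]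
              apply Finset.sum_congr rfl
              intro z _
              simp only [hw]
              ring
          _ ≤ _ := mul_le_mul_of_nonneg_left h5 (by positivity)
    _ = _ := by
        have hg := geo_nonneg s (Nat.log 2 ⌊N⌋₊ + 3)
        simp only [Finset.sum_const, Finset.card_univ, Fintype.card_fin, nsmul_eq_mul]
        rw [← ENNReal.ofReal_natCast, ← ENNReal.ofReal_natCast,
          ← ENNReal.ofReal_mul (by positivity), ← ENNReal.ofReal_mul (by positivity),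
          ← ENNReal.ofReal_mul (by positivity)]
        congr 1
        field_simp

end Pool.Agent.MPac5134
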