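import Pool.Agent.Lib.MP_ac5134_an.Shear
import Pool.Agent.Lib.MP_ac5134_an.Lower
import Pool.Agent.Lib.MP_ac5134_an.AreaMult
import Pool.Agent.Lib.MP_ac5134_an.Sublevel

/-!
Preparations for the weak type estimate: coordinates, boxes, and the two integral bounds.
-/

namespace Pool.Agent.MPac5134

open MeasureTheory Set Function
open scoped ENNReal NNReal InnerProductSpace

variable {d : ℕ}

/-- the closed unit ball of `R^d`, which contains the feet of all caps -/
def unitB (d : ℕ) : Set (Fin d → ℝ) := {ω | ∑ i, ω i ^ 2 ≤ 1}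

theorem measurableSet_unitB : MeasurableSet (unitB d) := by
  have h : Continuous fun ω : Fin d → ℝ => ∑ i, ω i ^ 2 := by fun_prop
  exact (isClosed_le h continuous_const).measurableSet

theorem abs_le_one_of_unitB {ω : Fin d → ℝ} (h : ω ∈ unitB d) (k : Fin d) : |ω k| ≤ 1 := by
  have h1 : ω k ^ 2 ≤ 1 :=
    (Finset.single_le_sum (f := fun i => ω i ^ 2) (fun i _ => sq_nonneg _)
      (Finset.mem_univ k)).trans h
  rw [← sq_le_one_iff_abs_le_one]; exact h1

/-- closed box in `R^d` -/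
def box (a : Fin d → ℝ) (r : ℝ) : Set (Fin d → ℝ) := {ω | ∀ k, |a k - ω k| ≤ r}

theorem box_eq (a : Fin d → ℝ) (r : ℝ) : box a r = Icc (fun k => a k - r) (fun k => a k + r) := by
  ext ω
  simp only [box, mem_ofPred_eq, mem_Icc, Pi.le_def, ← forall_and]
  apply forall_congr'
  intro k
  rw [abs_le]
  constructor
  · rintro ⟨h1, h2⟩; constructor <;> linarith
  · rintro ⟨h1, h2⟩; constructor <;> linarith

theorem measurableSet_box (a : Fin d → ℝ) (r : ℝ) : MeasurableSet (box a r) := by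
  rw [box_eq]; exact measurableSet_Icc

theorem volume_box (a : Fin d → ℝ) {r : ℝ} (hr : 0 ≤ r) :
    volume (box a r) = ENNReal.ofReal ((2 * r) ^ d) := by
  rw [box_eq, Real.volume_Icc_pi]
  have : ∀ k : Fin d, a k + r - (a k - r) = 2 * r := fun k => by ring
  simp only [this, Finset.prod_const, Finset.card_univ, Fintype.card_fin]
  rw [← ENNReal.ofReal_pow (by linarith)]

theorem volume_unitB_le : volume (unitB d) ≤ ENNReal.ofReal (2 ^ d) := by
  have h := volume_box (0 : Fin d → ℝ) (r := 1) zero_le_one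
  rw [mul_one] at h
  rw [← h]
  apply measure_mono
  intro ω hω k
  simpa using abs_le_one_of_unitB hω k

/-- the last coordinate and the others -/
def split (x : Sp d) : ℝ × (Fin d → ℝ) := (x (Fin.last d), fun k => x k.castSucc)

theorem measurePreserving_split :
    MeasurePreserving (split : Sp d → ℝ × (Fin d → ℝ)) volume volume := by
  have h1 := PiLp.volume_preserving_ofLp (Fin (d + 1))
  have h2 := volume_preserving_piFinSuccAbove (fun _ : Fin (d + 1) => ℝ) (Fin.last d)
  have h3 := h2.comp h1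
  have e : (split : Sp d → ℝ × (Fin d → ℝ)) =
      (MeasurableEquiv.piFinSuccAbove (fun _ : Fin (d + 1) => ℝ) (Fin.last d)) ∘
        (@WithLp.ofLp 2 (Fin (d + 1) → ℝ)) := by
    funext x
    refine Prod.ext rfl ?_
    funext k
    have : (Fin.last d).succAbove k = k.castSucc := Fin.succAbove_last_apply k
    change x k.castSucc = x ((Fin.last d).succAbove k)
    rw [this]
  rw [e]
  exact h3

theorem measurable_jac_comp {α : Type*} [MeasurableSpace α]
    {A : α → (Fin d → ℝ) →L[ℝ] (Fin d → ℝ)} {t : α → ℝ} (hA : Measurable A)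
    (ht : Measurable t) : Measurable fun a => |jac (A a) (t a)| := by
  have h1 : Measurable ((fun q : ((Fin d → ℝ) →L[ℝ] (Fin d → ℝ)) × ℝ => |jac q.1 q.2|) ∘
      fun a => (A a, t a)) :=
    (continuous_abs.comp continuous_jac).measurable.comp (hA.prodMk ht)
  exact h1

/-- The assumption on the map: piecewise differentiable, and every value of `G - 2 t` has at most
`B` preimages in the unit ball at which the derivative is invertible. -/
structure FewSolutions {κ : Type*} (G : (Fin d → ℝ) → (Fin d → ℝ))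
    (G' : (Fin d → ℝ) → (Fin d → ℝ) →L[ℝ] (Fin d → ℝ)) (U : κ → Set (Fin d → ℝ)) (B : ℕ) :
    Prop where
  meas : ∀ m, MeasurableSet (U m)
  disj : Pairwise (Disjoint on U)
  cover : unitB d ⊆ ⋃ m, U m
  measG : Measurable G
  measG' : Measurable G'
  deriv : ∀ m, ∀ x ∈ U m ∩ unitB d, HasFDerivWithinAt G (G' x) (U m ∩ unitB d) x
  few : ∀ (t : ℝ) (y : Fin d → ℝ) (S : Finset (Fin d → ℝ)),
    (∀ x ∈ S, x ∈ unitB d ∧ (∀ k, G x k - 2 * t * x k = y k) ∧ jac (G' x) t ≠ 0) → S.card ≤ B

variable {κ : Type*} {G : (Fin d → ℝ) → (Fin d → ℝ)}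
  {G' : (Fin d → ℝ) → (Fin d → ℝ) →L[ℝ] (Fin d → ℝ)} {U : κ → Set (Fin d → ℝ)} {B : ℕ}

/-- the part of the fibre over `(τ, η)` where the Jacobian is large -/
theorem volume_large_le [Countable κ] (h : FewSolutions G G' U B) {σ r : ℝ} (hσ : 0 < σ)
    (hr : 0 ≤ r) (t : ℝ) (η : Fin d → ℝ) :
    volume {ω : Fin d → ℝ | ω ∈ unitB d ∧ (∀ k, |G ω k - 2 * t * ω k - η k| ≤ r) ∧
      σ < |jac (G' ω) t|} ≤ ENNReal.ofReal (B * (2 * r) ^ d / σ) := by
  set f : (Fin d → ℝ) → (Fin d → ℝ) := fun ω => G ω - (2 * t) • ω with hf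
  set f' : (Fin d → ℝ) → (Fin d → ℝ) →L[ℝ] (Fin d → ℝ) :=
    fun ω => G' ω - (2 * t) • ContinuousLinearMap.id ℝ (Fin d → ℝ) with hf'
  have hfm : Measurable f := Measurable.sub h.measG (by fun_prop)
  have hjm : Measurable fun ω => |jac (G' ω) t| := measurable_jac_comp h.measG' measurable_const
  set V : Set (Fin d → ℝ) := box η r with hV
  have hmemV : ∀ ω, f ω ∈ V ↔ ∀ k, |G ω k - 2 * t * ω k - η k| ≤ r := by
    intro ω
    rw [hV]
    simp only [box, mem_ofPred_eq, hf, Pi.sub_apply, Pi.smul_apply, smul_eq_mul]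
    apply forall_congr'
    intro k
    rw [abs_sub_comm]
  set s : κ → Set (Fin d → ℝ) := fun m => (U m ∩ unitB d) ∩ (f ⁻¹' V ∩ {ω | σ < |jac (G' ω) t|})
    with hs
  have hsm : ∀ m, MeasurableSet (s m) := fun m =>
    ((h.meas m).inter measurableSet_unitB).inter
      ((hfm (measurableSet_box η r)).inter (measurableSet_lt measurable_const hjm))
  have hdis : Pairwise (Disjoint on s) := fun i j hij =>
    (h.disj hij).mono (fun x hx => hx.1.1) (fun x hx => hx.1.1)
  have hmain := area_mult volume s hsm hdis f f'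
    (fun m x hx => by
      have h1 := (h.deriv m x hx.1).mono (inter_subset_left (s := U m ∩ unitB d)
        (t := f ⁻¹' V ∩ {ω | σ < |jac (G' ω) t|}))
      exact h1.sub ((ContinuousLinearMap.id ℝ (Fin d → ℝ)).hasFDerivWithinAt.const_smul (2 * t)))
    (fun m x hx => by
      have h1 : σ < |jac (G' x) t| := hx.2.2
      have h2 : (0:ℝ) < |jac (G' x) t| := hσ.trans h1
      exact abs_pos.1 h2)
    (measurableSet_box η r) (fun m x hx => hx.2.1) B
    (fun y S hS1 hS2 => by
      apply h.few t y S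
      intro x hx
      obtain ⟨m, hm⟩ := mem_iUnion.1 (hS1 x hx)
      refine ⟨hm.1.2, ?_, ?_⟩
      · intro k
        have h3 := congrFun (hS2 x hx) k
        simpa [hf] using h3
      · have h1 : σ < |jac (G' x) t| := hm.2.2
        exact abs_pos.1 (hσ.trans h1))
  have hunion : {ω : Fin d → ℝ | ω ∈ unitB d ∧ (∀ k, |G ω k - 2 * t * ω k - η k| ≤ r) ∧
      σ < |jac (G' ω) t|} = ⋃ m, s m := by
    ext ω
    simp only [mem_ofPred_eq, mem_iUnion]
    constructor
    · rintro ⟨h1, h2, h3⟩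
      obtain ⟨m, hm⟩ := mem_iUnion.1 (h.cover h1)
      exact ⟨m, ⟨hm, h1⟩, (hmemV ω).2 h2, h3⟩
    · rintro ⟨m, ⟨_, h1⟩, h2, h3⟩
      exact ⟨h1, (hmemV ω).1 h2, h3⟩
  rw [hunion, measure_iUnion hdis hsm]
  have h4 : ENNReal.ofReal σ * ∑' m, volume (s m) ≤ B * volume V := by
    rw [← ENNReal.tsum_mul_left]
    refine le_trans (ENNReal.tsum_le_tsum fun m => ?_) hmain
    rw [← setLIntegral_const]
    apply setLIntegral_mono_ae' (hsm m)
    filter_upwards with x hx
    apply ENNReal.ofReal_le_ofReal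
    have h1 : σ < |jac (G' x) t| := hx.2.2
    exact h1.le
  rw [hV, volume_box η hr] at h4
  have h5 : ENNReal.ofReal (B * (2 * r) ^ d / σ) =
      (ENNReal.ofReal σ)⁻¹ * (B * ENNReal.ofReal ((2 * r) ^ d)) := by
    rw [← ENNReal.ofReal_inv_of_pos hσ, ← ENNReal.ofReal_natCast,
      ← ENNReal.ofReal_mul (by positivity), ← ENNReal.ofReal_mul (by positivity)]
    congr 1
    rw [div_eq_inv_mul]
  rw [h5]
  have hσ0 : ENNReal.ofReal σ ≠ 0 := by simpa using hσ
  calc ∑' m, volume (s m) = (ENNReal.ofReal σ)⁻¹ * (ENNReal.ofReal σ * ∑' m, volume (s m)) := by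
        rw [← mul_assoc, ENNReal.inv_mul_cancel hσ0 ENNReal.ofReal_ne_top, one_mul]
    _ ≤ _ := by gcongr

/-- the part over `Ω` of the fibre over `(τ, η)` -/
def fib (Ω : Set (Fin d → ℝ)) (G : (Fin d → ℝ) → (Fin d → ℝ)) (R r : ℝ)
    (q : ℝ × (Fin d → ℝ)) : Set (Fin d → ℝ) :=
  {ω | ω ∈ Ω ∧ ∀ k, |R * G ω k - 2 * q.1 * ω k - q.2 k| ≤ r}

/-- the part of the fibre where the Jacobian is small -/
def fibSmall (Ω : Set (Fin d → ℝ)) (G : (Fin d → ℝ) → (Fin d → ℝ))
    (G' : (Fin d → ℝ) → (Fin d → ℝ) →L[ℝ] (Fin d → ℝ))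
    (R r σ : ℝ) (q : ℝ × (Fin d → ℝ)) : Set (Fin d → ℝ) :=
  {ω | (ω ∈ Ω ∧ ∀ k, |R * G ω k - 2 * q.1 * ω k - q.2 k| ≤ r) ∧
    |jac (G' ω) (q.1 / R)| ≤ σ}

theorem measurableSet_fibSmall_aux {Ω : Set (Fin d → ℝ)} (hΩ : MeasurableSet Ω)
    (hG : Measurable G) (hG' : Measurable G') (R r σ : ℝ) :
    MeasurableSet {z : (ℝ × (Fin d → ℝ)) × (Fin d → ℝ) |
      (z.2 ∈ Ω ∧ ∀ k, |R * G z.2 k - 2 * z.1.1 * z.2 k - z.1.2 k| ≤ r) ∧
      |jac (G' z.2) (z.1.1 / R)| ≤ σ} := by
  have h1 : MeasurableSet {z : (ℝ × (Fin d → ℝ)) × (Fin d → ℝ) | z.2 ∈ Ω} :=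
    measurable_snd hΩ
  have h2 : ∀ k, MeasurableSet {z : (ℝ × (Fin d → ℝ)) × (Fin d → ℝ) |
      |R * G z.2 k - 2 * z.1.1 * z.2 k - z.1.2 k| ≤ r} := by
    intro k
    have hGk : Measurable fun z : (ℝ × (Fin d → ℝ)) × (Fin d → ℝ) => G z.2 k :=
      (measurable_pi_apply k).comp (hG.comp measurable_snd)
    apply measurableSet_le _ measurable_const
    apply Measurable.abs
    apply Measurable.sub
    · apply Measurable.sub
      · exact hGk.const_mul R
      · fun_prop
    · fun_prop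
  have h3 : MeasurableSet {z : (ℝ × (Fin d → ℝ)) × (Fin d → ℝ) |
      |jac (G' z.2) (z.1.1 / R)| ≤ σ} := by
    exact measurableSet_le (measurable_jac_comp (hG'.comp measurable_snd) (by fun_prop))
      measurable_const
  have h4 : MeasurableSet {z : (ℝ × (Fin d → ℝ)) × (Fin d → ℝ) |
      ∀ k, |R * G z.2 k - 2 * z.1.1 * z.2 k - z.1.2 k| ≤ r} := by
    have : {z : (ℝ × (Fin d → ℝ)) × (Fin d → ℝ) |
      ∀ k, |R * G z.2 k - 2 * z.1.1 * z.2 k - z.1.2 k| ≤ r} =
      ⋂ k, {z | |R * G z.2 k - 2 * z.1.1 * z.2 k - z.1.2 k| ≤ r} := by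
      ext z; simp
    rw [this]
    exact MeasurableSet.iInter h2
  exact (h1.inter h4).inter h3

/-- the integral of the small part -/
theorem lintegral_fibSmall_le {Ω : Set (Fin d → ℝ)} (hΩ : MeasurableSet Ω) (hd : 0 < d)
    (hG : Measurable G) (hG' : Measurable G') {R r σ : ℝ}
    (hR : 0 < R) (hr : 0 ≤ r) (hσ : 0 < σ) :
    ∫⁻ q : ℝ × (Fin d → ℝ), volume (fibSmall Ω G G' R r σ q) ≤
      ENNReal.ofReal ((2 * r) ^ d * (2 * d * R * σ ^ (1 / (d:ℝ)))) * volume Ω := by
  have hZ := measurableSet_fibSmall_aux hΩ hG hG' R r σ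
  set Z : Set ((ℝ × (Fin d → ℝ)) × (Fin d → ℝ)) := {z |
      (z.2 ∈ Ω ∧ ∀ k, |R * G z.2 k - 2 * z.1.1 * z.2 k - z.1.2 k| ≤ r) ∧
      |jac (G' z.2) (z.1.1 / R)| ≤ σ} with hZdef
  have e1 : ∫⁻ q : ℝ × (Fin d → ℝ), volume (fibSmall Ω G G' R r σ q) =
      ((volume : Measure (ℝ × (Fin d → ℝ))).prod (volume : Measure (Fin d → ℝ))) Z := by
    rw [Measure.prod_apply hZ]
    rfl
  rw [e1, Measure.prod_apply_symm hZ]
  set C0 : ℝ := (2 * r) ^ d * (2 * d * R * σ ^ (1 / (d:ℝ))) with hC0
  have hC0' : 0 ≤ C0 := by positivity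
  calc ∫⁻ ω, volume ((fun q => (q, ω)) ⁻¹' Z)
      ≤ ∫⁻ ω, Ω.indicator (fun _ => ENNReal.ofReal C0) ω := by
        apply lintegral_mono
        intro ω
        simp only
        by_cases hω : ω ∈ Ω
        · rw [indicator_of_mem hω]
          have hZω : MeasurableSet ((fun q : ℝ × (Fin d → ℝ) => (q, ω)) ⁻¹' Z) :=
            measurable_prodMk_right hZ
          have e2 : (volume : Measure (ℝ × (Fin d → ℝ))) =
              (volume : Measure ℝ).prod (volume : Measure (Fin d → ℝ)) := rfl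
          rw [e2, Measure.prod_apply hZω]
          have hJm : MeasurableSet {τ : ℝ | |jac (G' ω) (τ / R)| ≤ σ} := by
            exact measurableSet_le (measurable_jac_comp measurable_const (by fun_prop))
              measurable_const
          calc ∫⁻ τ, volume (Prod.mk τ ⁻¹' ((fun q : ℝ × (Fin d → ℝ) => (q, ω)) ⁻¹' Z))
              ≤ ∫⁻ τ, {τ : ℝ | |jac (G' ω) (τ / R)| ≤ σ}.indicator
                  (fun _ => ENNReal.ofReal ((2 * r) ^ d)) τ := by
                apply lintegral_mono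
                intro τ
                simp only
                by_cases hτ : |jac (G' ω) (τ / R)| ≤ σ
                · rw [indicator_of_mem (by exact hτ)]
                  rw [← volume_box (fun k => R * G ω k - 2 * τ * ω k) hr]
                  apply measure_mono
                  intro η hη
                  exact hη.1.2
                · have : (Prod.mk τ ⁻¹' ((fun q : ℝ × (Fin d → ℝ) => (q, ω)) ⁻¹' Z)) = ∅ := by
                    ext η
                    simp only [mem_preimage, mem_empty_iff_false, iff_false]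
                    intro hη
                    exact hτ hη.2
                  rw [this, measure_empty]
                  exact zero_le
            _ = ENNReal.ofReal ((2 * r) ^ d) * volume {τ : ℝ | |jac (G' ω) (τ / R)| ≤ σ} := by
                rw [lintegral_indicator_const hJm]
            _ ≤ ENNReal.ofReal ((2 * r) ^ d) *
                ENNReal.ofReal (2 * d * R * σ ^ (1 / (d:ℝ))) := by
                gcongr
                exact volume_jac_scaled_le hd (G' ω) hσ hR
            _ = ENNReal.ofReal C0 := by rw [hC0, ← ENNReal.ofReal_mul (by positivity)]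
        · have : ((fun q : ℝ × (Fin d → ℝ) => (q, ω)) ⁻¹' Z) = ∅ := by
            ext q
            simp only [mem_preimage, mem_empty_iff_false, iff_false]
            intro hq
            exact hω hq.1.1
          rw [this, measure_empty]
          exact zero_le
    _ = ENNReal.ofReal C0 * volume Ω := by
        rw [lintegral_indicator_const hΩ]

/-- splitting of the fibre -/
theorem volume_fib_le [Countable κ] (h : FewSolutions G G' U B) {Ω : Set (Fin d → ℝ)}
    (hΩ : Ω ⊆ unitB d) {R r σ : ℝ} (hR : 0 < R)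
    (hr : 0 ≤ r) (hσ : 0 < σ) (q : ℝ × (Fin d → ℝ)) :
    volume (fib Ω G R r q) ≤ volume (fibSmall Ω G G' R r σ q) +
      ENNReal.ofReal (B * (2 * (r / R)) ^ d / σ) := by
  have h1 := volume_large_le h hσ (r := r / R) (by positivity) (q.1 / R) (fun k => q.2 k / R)
  refine le_trans ?_ (add_le_add le_rfl h1)
  refine le_trans (measure_mono ?_) (measure_union_le _ _)
  intro ω hω
  rcases le_or_gt |jac (G' ω) (q.1 / R)| σ with hj | hj
  · exact Or.inl ⟨hω, hj⟩
  · refine Or.inr ⟨hΩ hω.1, ?_, hj⟩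
    intro k
    have h2 := hω.2 k
    have e1 : G ω k - 2 * (q.1 / R) * ω k - q.2 k / R =
        (R * G ω k - 2 * q.1 * ω k - q.2 k) / R := by
      field_simp
    rw [e1, abs_div, abs_of_pos hR]
    gcongr

end Pool.Agent.MPac5134
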