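import Pool.Agent.Lib.MP_ac5134_an.WeakPre

/-!
The weak type `(1 + 1/d)` estimate for tubes whose axes meet `x_n = 0` near `N² F(ω)`.
-/

namespace Pool.Agent.MPac5134

open MeasureTheory Set Function
open scoped ENNReal NNReal InnerProductSpace

variable {d : ℕ} {ι : Type*} [Fintype ι]

/-- The axis of `T_θ` meets the hyperplane `x_n = 0` within distance about `A N` of
`N² F_j(ω_θ)`, where `j` is the sheet of `θ`. -/
def Follows {τ : Type*} (F : τ → (Fin d → ℝ) → (Fin d → ℝ)) (s : ι → τ) (A N : ℝ) (θ : ι → Cap d)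
    (c : ι → Sp d) : Prop :=
  ∀ i k, |c i k.castSucc + 2 * (θ i).foot k * c i (Fin.last d) -
    N ^ 2 * F (s i) (θ i).foot k| ≤ A * N

/-- Lipschitz on the unit ball -/
def LipB (F : (Fin d → ℝ) → (Fin d → ℝ)) (L : ℝ) : Prop :=
  ∀ x ∈ unitB d, ∀ y ∈ unitB d, ∀ k, |F x k - F y k| ≤ L * ‖x - y‖

open Classical in
/-- the tubes through a point -/
noncomputable def through (N : ℝ) (θ : ι → Cap d) (c : ι → Sp d) (x : Sp d) : Finset ι :=
  Finset.univ.filter fun i => x ∈ tube N (θ i) (c i)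

theorem mult_eq_through (N : ℝ) (θ : ι → Cap d) (c : ι → Sp d) (x : Sp d) :
    mult N θ c x = (through N θ c x).card := by
  classical
  unfold mult through
  rw [Finset.card_filter]
  push_cast
  apply Finset.sum_congr rfl
  intro i _
  rw [indicator_apply]

variable {τ : Type*}

theorem through_bound {F : τ → (Fin d → ℝ) → (Fin d → ℝ)} {s : ι → τ} {A N : ℝ} (hN : 1 ≤ N)
    {θ : ι → Cap d} {c : ι → Sp d} (h : Follows F s A N θ c) {x : Sp d} {i : ι}
    (hi : i ∈ through N θ c x) (k : Fin d) :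
    |N ^ 2 * F (s i) (θ i).foot k - 2 * x (Fin.last d) * (θ i).foot k - x k.castSucc| ≤
      (A + 3 * d / 2) * N := by
  classical
  have hx : x ∈ tube N (θ i) (c i) := (Finset.mem_filter.1 hi).2
  have h1 := tube_functional (by linarith) (θ i) (c i) hx k
  have h2 := h i k
  rw [abs_le] at h1 h2 ⊢
  rw [PiLp.sub_apply, PiLp.sub_apply] at h1
  constructor <;> nlinarith [h1.1, h1.2, h2.1, h2.2]

omit [Fintype ι] in
theorem card_cells_le {K : ℕ} {N : ℝ} (θ : ι → Cap d)
    (hK : ∀ z : Fin d → ℤ, ∀ s : Finset ι, (∀ i ∈ s, cell N (θ i) = z) → s.card ≤ K)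
    (S : Finset ι) (z0 : Fin d → ℤ) (m : ℕ)
    (hS : ∀ i ∈ S, ∀ k, |cell N (θ i) k - z0 k| ≤ m) : S.card ≤ K * (2 * m + 1) ^ d := by
  classical
  have h1 : S.card ≤ K * (S.image (fun i => cell N (θ i))).card := by
    apply Finset.card_le_mul_card_image
    intro z _
    apply hK z
    intro i hi
    exact (Finset.mem_filter.1 hi).2
  have h2 : S.image (fun i => cell N (θ i)) ⊆
      Fintype.piFinset (fun k : Fin d => Finset.Icc (z0 k - m) (z0 k + m)) := by
    intro z hz
    obtain ⟨i, hi, rfl⟩ := Finset.mem_image.1 hz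
    rw [Fintype.mem_piFinset]
    intro k
    have := hS i hi k
    rw [abs_le] at this
    rw [Finset.mem_Icc]
    constructor <;> linarith [this.1, this.2]
  have h3 := Finset.card_le_card h2
  rw [Fintype.card_piFinset] at h3
  have h4 : ∀ k : Fin d, (Finset.Icc (z0 k - m) (z0 k + m)).card = 2 * m + 1 := by
    intro k
    rw [Int.card_Icc]
    omega
  simp only [h4, Finset.prod_const, Finset.card_univ, Fintype.card_fin] at h3
  exact h1.trans (Nat.mul_le_mul_left K h3)

theorem cell_diff_le {N : ℝ} (θ : Cap d) (ω : Fin d → ℝ) (k : Fin d) {m : ℕ}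
    (h : |N * θ.foot k - N * ω k| ≤ m) : |cell N θ k - ⌊N * ω k⌋| ≤ ((m + 1 : ℕ) : ℤ) := by
  have hc : cell N θ k = ⌊N * θ.foot k⌋ := rfl
  rw [hc]
  rw [abs_le] at h
  have h1 := Int.floor_le (N * θ.foot k)
  have h2 := Int.lt_floor_add_one (N * θ.foot k)
  have h3 := Int.floor_le (N * ω k)
  have h4 := Int.lt_floor_add_one (N * ω k)
  have h5 : ((⌊N * θ.foot k⌋ - ⌊N * ω k⌋ : ℤ) : ℝ) < ((m + 1 : ℕ) : ℝ) := by
    push_cast; linarith [h.2]
  have h6 : -((m + 1 : ℕ) : ℝ) < ((⌊N * θ.foot k⌋ - ⌊N * ω k⌋ : ℤ) : ℝ) := by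
    push_cast; linarith [h.1]
  rw [abs_le]
  constructor
  · have : (-((m + 1 : ℕ) : ℤ) : ℤ) < ⌊N * θ.foot k⌋ - ⌊N * ω k⌋ := by exact_mod_cast h6
    exact this.le
  · have : ⌊N * θ.foot k⌋ - ⌊N * ω k⌋ < ((m + 1 : ℕ) : ℤ) := by exact_mod_cast h5
    exact this.le

/-- far from the base hyperplane the multiplicity is bounded -/
theorem mult_far [Fintype τ] (hd : 0 < d) {F : τ → (Fin d → ℝ) → (Fin d → ℝ)} {s : ι → τ}
    {A N L : ℝ} (hN : 1 ≤ N) (hL : 0 ≤ L) {θ : ι → Cap d}
    {c : ι → Sp d} (h : Follows F s A N θ c) (hF : ∀ j, LipB (F j) L) {K : ℕ}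
    (hK : ∀ z : Fin d → ℤ, ∀ s : Finset ι, (∀ i ∈ s, cell N (θ i) = z) → s.card ≤ K)
    {x : Sp d} (hx : (L + 1) * N ^ 2 < |x (Fin.last d)|) :
    mult N θ c x ≤ Fintype.card τ * (K * (2 * (⌈2 * (A + 3 * d / 2)⌉₊ + 1) + 1 : ℕ) ^ d) := by
  classical
  have hN0 : 0 < N := by linarith
  rw [mult_eq_through]
  set m : ℕ := ⌈2 * (A + 3 * d / 2)⌉₊ with hm
  have hsheet : ∀ j : τ, ((through N θ c x).filter (fun i => s i = j)).card ≤
      K * (2 * (m + 1) + 1) ^ d := by
    intro j
    rcases ((through N θ c x).filter (fun i => s i = j)).eq_empty_or_nonempty with he | ⟨i0, hi0'⟩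
    · rw [he, Finset.card_empty]; exact Nat.zero_le _
    obtain ⟨hi0, hs0⟩ := Finset.mem_filter.1 hi0'
    have hbound : ∀ i ∈ (through N θ c x).filter (fun i => s i = j),
        ‖(θ i).foot - (θ i0).foot‖ ≤ 2 * (A + 3 * d / 2) / N := by
      intro i hi'
      obtain ⟨hi, hsi⟩ := Finset.mem_filter.1 hi'
      set D : ℝ := ‖(θ i).foot - (θ i0).foot‖ with hD
      have hD0 : 0 ≤ D := norm_nonneg _
      have hne : Nonempty (Fin d) := ⟨⟨0, hd⟩⟩
      obtain ⟨k, hk⟩ : ∃ k, |(θ i).foot k - (θ i0).foot k| = D := by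
        obtain ⟨k, hk⟩ := Finite.exists_max (fun k => |(θ i).foot k - (θ i0).foot k|)
        refine ⟨k, le_antisymm ?_ ?_⟩
        · have := norm_le_pi_norm ((θ i).foot - (θ i0).foot) k
          simpa using this
        · rw [hD, pi_norm_le_iff_of_nonneg (abs_nonneg _)]
          intro j
          simpa using hk j
      have h1 := through_bound hN h hi k
      have h2 := through_bound hN h hi0 k
      rw [hsi] at h1
      rw [hs0] at h2
      have h3 := hF j _ (θ i).foot_mem _ (θ i0).foot_mem k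
      rw [← hD] at h3
      have h4 : 2 * |x (Fin.last d)| * D ≤ N ^ 2 * (L * D) + 2 * ((A + 3 * d / 2) * N) := by
        rw [← hk]
        calc 2 * |x (Fin.last d)| * |(θ i).foot k - (θ i0).foot k|
            = |2 * x (Fin.last d) * ((θ i).foot k - (θ i0).foot k)| := by
              rw [abs_mul, abs_mul, abs_of_pos (by norm_num : (0:ℝ) < 2)]
          _ = |N ^ 2 * (F j (θ i).foot k - F j (θ i0).foot k) +
                ((N ^ 2 * F j (θ i0).foot k - 2 * x (Fin.last d) * (θ i0).foot k -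
                  x k.castSucc) -
                (N ^ 2 * F j (θ i).foot k - 2 * x (Fin.last d) * (θ i).foot k -
                  x k.castSucc))| := by
              congr 1; ring
          _ ≤ |N ^ 2 * (F j (θ i).foot k - F j (θ i0).foot k)| +
                (|N ^ 2 * F j (θ i0).foot k - 2 * x (Fin.last d) * (θ i0).foot k -
                  x k.castSucc| +
                |N ^ 2 * F j (θ i).foot k - 2 * x (Fin.last d) * (θ i).foot k -
                  x k.castSucc|) := by
              refine (abs_add_le _ _).trans ?_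
              gcongr
              exact abs_sub _ _
          _ ≤ N ^ 2 * (L * D) + ((A + 3 * d / 2) * N + (A + 3 * d / 2) * N) := by
              rw [abs_mul, abs_of_pos (by positivity : (0:ℝ) < N ^ 2)]
              gcongr
          _ = N ^ 2 * (L * |(θ i).foot k - (θ i0).foot k|) + 2 * ((A + 3 * d / 2) * N) := by
              rw [hk]; ring
      rw [le_div_iff₀ hN0]
      have h5 : N ^ 2 * D ≤ 2 * ((A + 3 * d / 2) * N) := by
        have h6 : 2 * ((L + 1) * N ^ 2) * D ≤ 2 * |x (Fin.last d)| * D := by gcongr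
        nlinarith [mul_nonneg (mul_nonneg hL (sq_nonneg N)) hD0, mul_nonneg (sq_nonneg N) hD0]
      have h7 : N * (D * N) ≤ N * (2 * (A + 3 * d / 2)) := by nlinarith
      exact le_of_mul_le_mul_left h7 hN0
    exact card_cells_le θ hK _ (fun k => ⌊N * (θ i0).foot k⌋) (m + 1) (by
      intro i hi k
      apply cell_diff_le
      have h9 := hbound i hi
      rw [le_div_iff₀ hN0] at h9
      have h10 : |(θ i).foot k - (θ i0).foot k| ≤ ‖(θ i).foot - (θ i0).foot‖ := by
        have := norm_le_pi_norm ((θ i).foot - (θ i0).foot) k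
        simpa using this
      calc |N * (θ i).foot k - N * (θ i0).foot k| = |(θ i).foot k - (θ i0).foot k| * N := by
            rw [← mul_sub, abs_mul, abs_of_pos hN0, mul_comm]
        _ ≤ ‖(θ i).foot - (θ i0).foot‖ * N := by gcongr
        _ ≤ 2 * (A + 3 * d / 2) := h9
        _ ≤ m := Nat.le_ceil _)
  have htot : (through N θ c x).card ≤ Fintype.card τ * (K * (2 * (m + 1) + 1) ^ d) := by
    rw [Finset.card_eq_sum_card_fiberwise (f := s) (t := Finset.univ)
      (fun _ _ => Finset.mem_coe.2 (Finset.mem_univ _))]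
    calc ∑ j : τ, ((through N θ c x).filter (fun i => s i = j)).card
        ≤ ∑ _j : τ, K * (2 * (m + 1) + 1) ^ d := Finset.sum_le_sum fun j _ => hsheet j
      _ = _ := by rw [Finset.sum_const, Finset.card_univ, smul_eq_mul]
  exact_mod_cast htot

/-- a box in the unit ball near the foot of a cap -/
def bx (N : ℝ) (θ : ι → Cap d) (i : ι) : Set (Fin d → ℝ) :=
  box (fun k => (1 - 1 / N) * (θ i).foot k) (1 / (d * N))

omit [Fintype ι] in
theorem volume_bx {N : ℝ} (hN : 1 ≤ N) (θ : ι → Cap d) (i : ι) :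
    volume (bx N θ i) = ENNReal.ofReal ((2 / (d * N)) ^ d) := by
  have hN0 : 0 < N := by linarith
  unfold bx
  rw [volume_box _ (by positivity)]
  congr 2
  ring

omit [Fintype ι] in
theorem bx_subset (hd : 0 < d) {N : ℝ} (hN : 1 ≤ N) (θ : ι → Cap d) (i : ι) :
    bx N θ i ⊆ unitB d := by
  have hN0 : 0 < N := by linarith
  have hd' : (0:ℝ) < d := by exact_mod_cast hd
  have hd1 : (1:ℝ) ≤ d := by exact_mod_cast hd
  have hN1 : 1 / N ≤ 1 := by rw [div_le_one hN0]; exact hN
  have hNpos : 0 ≤ 1 / N := by positivity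
  intro ω hω
  have h1 : ∀ k, ω k ^ 2 ≤ (1 - 1 / N) * (θ i).foot k ^ 2 + (1 / N) * (1 / d) ^ 2 := by
    intro k
    have h2 : |(1 - 1 / N) * (θ i).foot k - ω k| ≤ 1 / (d * N) := hω k
    set u : ℝ := (ω k - (1 - 1 / N) * (θ i).foot k) * N with hu
    have h3 : |u| ≤ 1 / d := by
      rw [hu, abs_mul, abs_of_pos hN0, abs_sub_comm]
      calc |(1 - 1 / N) * (θ i).foot k - ω k| * N ≤ 1 / (d * N) * N := by gcongr
        _ = 1 / d := by field_simp
    have h4 : u ^ 2 ≤ (1 / (d:ℝ)) ^ 2 := by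
      rw [← sq_abs]; gcongr
    have h5 : ω k = (1 - 1 / N) * (θ i).foot k + (1 / N) * u := by
      rw [hu]; field_simp; ring
    rw [h5]
    have h6 : ((1 - 1 / N) * (θ i).foot k + (1 / N) * u) ^ 2 ≤
        (1 - 1 / N) * (θ i).foot k ^ 2 + (1 / N) * u ^ 2 := by
      have h7 : (1 - 1 / N) * (θ i).foot k ^ 2 + (1 / N) * u ^ 2 -
          ((1 - 1 / N) * (θ i).foot k + (1 / N) * u) ^ 2 =
          (1 - 1 / N) * (1 / N) * ((θ i).foot k - u) ^ 2 := by ring
      have h8 : 0 ≤ (1 - 1 / N) * (1 / N) * ((θ i).foot k - u) ^ 2 := by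
        apply mul_nonneg (mul_nonneg (by linarith) hNpos) (sq_nonneg _)
      linarith
    have h9 : (1 / N) * u ^ 2 ≤ (1 / N) * (1 / (d:ℝ)) ^ 2 := by gcongr
    linarith
  have h2 := Finset.sum_le_sum (fun k (_ : k ∈ Finset.univ) => h1 k)
  rw [Finset.sum_add_distrib, ← Finset.mul_sum, Finset.sum_const, Finset.card_univ,
    Fintype.card_fin, nsmul_eq_mul] at h2
  have h3 : (1 - 1 / N) * ∑ k, (θ i).foot k ^ 2 ≤ (1 - 1 / N) * 1 := by
    apply mul_le_mul_of_nonneg_left (θ i).foot_mem (by linarith)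
  have h4 : (d:ℝ) * (1 / N * (1 / d) ^ 2) ≤ 1 / N := by
    have : (d:ℝ) * (1 / N * (1 / d) ^ 2) = 1 / N * (1 / d) := by field_simp
    rw [this]
    have : 1 / (d:ℝ) ≤ 1 := by rw [div_le_one hd']; exact hd1
    nlinarith
  change ∑ k, ω k ^ 2 ≤ 1
  linarith

omit [Fintype ι] in
theorem bx_close (hd : 0 < d) {N : ℝ} (hN : 1 ≤ N) (θ : ι → Cap d) (i : ι) {ω : Fin d → ℝ}
    (hω : ω ∈ bx N θ i) (k : Fin d) : |(θ i).foot k - ω k| ≤ 2 / N := by
  have hN0 : 0 < N := by linarith
  have hd1 : (1:ℝ) ≤ d := by exact_mod_cast hd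
  have hNpos : 0 ≤ 1 / N := by positivity
  have h2 : |(1 - 1 / N) * (θ i).foot k - ω k| ≤ 1 / (d * N) := hω k
  have h3 : 1 / (d * N) ≤ 1 / N := by
    apply one_div_le_one_div_of_le hN0; nlinarith
  have h4 := abs_le_one_of_unitB (θ i).foot_mem k
  have h5 : (θ i).foot k - ω k = ((1 - 1 / N) * (θ i).foot k - ω k) + 1 / N * (θ i).foot k := by
    ring
  rw [h5]
  refine (abs_add_le _ _).trans ?_
  rw [abs_mul, abs_of_nonneg hNpos]
  have h6 : 1 / N * |(θ i).foot k| ≤ 1 / N * 1 := by gcongr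
  have h7 : 2 / N = 1 / N + 1 / N := by ring
  linarith

/-- the union of the boxes of one sheet -/
def Om (N : ℝ) (θ : ι → Cap d) (s : ι → τ) (j : τ) : Set (Fin d → ℝ) :=
  ⋃ i ∈ {i : ι | s i = j}, bx N θ i

theorem measurableSet_Om (N : ℝ) (θ : ι → Cap d) (s : ι → τ) (j : τ) :
    MeasurableSet (Om N θ s j) := by
  apply MeasurableSet.biUnion (Set.to_countable _)
  intro i _
  exact measurableSet_box _ _

omit [Fintype ι] in
theorem Om_subset (hd : 0 < d) {N : ℝ} (hN : 1 ≤ N) (θ : ι → Cap d) (s : ι → τ) (j : τ) :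
    Om N θ s j ⊆ unitB d :=
  iUnion₂_subset fun i _ => bx_subset hd hN θ i

theorem sum_volume_Om_le [Fintype τ] (hd : 0 < d) {N : ℝ} (hN : 1 ≤ N) (θ : ι → Cap d)
    (s : ι → τ) {K : ℕ}
    (hK : ∀ z : Fin d → ℤ, ∀ s : Finset ι, (∀ i ∈ s, cell N (θ i) = z) → s.card ≤ K) :
    ∑ j, volume (Om N θ s j) ≤ ENNReal.ofReal (K * 10 ^ d) := by
  classical
  have hN0 : 0 < N := by linarith
  have hd1 : (1:ℝ) ≤ d := by exact_mod_cast hd
  have h1 : ∀ j, volume (Om N θ s j) ≤
      ∑ i ∈ Finset.univ.filter (fun i => s i = j), ENNReal.ofReal ((2 / (d * N)) ^ d) := by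
    intro j
    have e : Om N θ s j = ⋃ i ∈ Finset.univ.filter (fun i => s i = j), bx N θ i := by
      ext ω
      simp [Om]
    rw [e]
    refine (measure_biUnion_finset_le _ _).trans ?_
    apply Finset.sum_le_sum
    intro i _
    exact (volume_bx hN θ i).le
  refine (Finset.sum_le_sum fun j _ => h1 j).trans ?_
  have hfw := Finset.sum_fiberwise (Finset.univ : Finset ι) s
    (fun _ => ENNReal.ofReal ((2 / ((d:ℝ) * N)) ^ d))
  rw [hfw, Finset.sum_const, Finset.card_univ, nsmul_eq_mul,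
    ← ENNReal.ofReal_natCast, ← ENNReal.ofReal_mul (by positivity)]
  apply ENNReal.ofReal_le_ofReal
  have h2 := card_le hN θ hK
  calc (Fintype.card ι : ℝ) * (2 / (d * N)) ^ d
      ≤ (K * 5 ^ d * N ^ d) * (2 / (1 * N)) ^ d := by gcongr
    _ = K * 10 ^ d := by
        rw [one_mul, mul_assoc, mul_assoc, ← mul_pow, ← mul_pow]
        congr 2
        field_simp
        norm_num

/-- near the base hyperplane the multiplicity is at most a sum of averages -/
theorem mult_near [Fintype τ] (hd : 0 < d) {F G : τ → (Fin d → ℝ) → (Fin d → ℝ)} {s : ι → τ}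
    {A A' N L : ℝ} (hN : 1 ≤ N)
    (hL : 0 ≤ L) {θ : ι → Cap d}
    {c : ι → Sp d} (h : Follows F s A N θ c) (hF : ∀ j, LipB (F j) L)
    (hFG : ∀ j, ∀ x ∈ unitB d, ∀ k, |G j x k - F j x k| ≤ A' / N) {K : ℕ}
    (hK : ∀ z : Fin d → ℤ, ∀ s : Finset ι, (∀ i ∈ s, cell N (θ i) = z) → s.card ≤ K)
    (hG : ∀ j, Measurable (G j))
    {x : Sp d} (hx : |x (Fin.last d)| ≤ (L + 1) * N ^ 2) :
    ENNReal.ofReal (mult N θ c x) ≤ ENNReal.ofReal (K * (4 * d) ^ d * N ^ d) *
      ∑ j, volume (fib (Om N θ s j) (G j) (N ^ 2)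
        ((A + A' + 3 * d / 2 + 6 * L + 4) * N) (split x)) := by
  classical
  have hN0 : 0 < N := by linarith
  have hd' : (0:ℝ) < d := by exact_mod_cast hd
  have hd1 : (1:ℝ) ≤ d := by exact_mod_cast hd
  set I := through N θ c x with hI
  set W : τ → Set (Fin d → ℝ) := fun j => fib (Om N θ s j) (G j) (N ^ 2)
    ((A + A' + 3 * d / 2 + 6 * L + 4) * N) (split x) with hW
  have hbm : ∀ i, MeasurableSet (bx N θ i) := fun i => measurableSet_box _ _
  have hsub : ∀ i ∈ I, bx N θ i ⊆ W (s i) := by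
    intro i hi ω hω
    refine ⟨mem_iUnion₂.2 ⟨i, rfl, hω⟩, ?_⟩
    intro k
    have hball := bx_subset hd hN θ i hω
    have h1 := through_bound hN h hi k
    have h2 := hF (s i) ω hball _ (θ i).foot_mem k
    have h3 := hFG (s i) ω hball k
    have h4 := bx_close hd hN θ i hω k
    have h5 : ‖ω - (θ i).foot‖ ≤ 2 / N := by
      rw [pi_norm_le_iff_of_nonneg (by positivity)]
      intro j
      rw [Pi.sub_apply, Real.norm_eq_abs, abs_sub_comm]
      exact bx_close hd hN θ i hω j
    change |N ^ 2 * G (s i) ω k - 2 * x (Fin.last d) * ω k - x k.castSucc| ≤ _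
    have e1 : N ^ 2 * G (s i) ω k - 2 * x (Fin.last d) * ω k - x k.castSucc =
        N ^ 2 * (G (s i) ω k - F (s i) ω k) + N ^ 2 * (F (s i) ω k - F (s i) (θ i).foot k) +
        2 * x (Fin.last d) * ((θ i).foot k - ω k) +
        (N ^ 2 * F (s i) (θ i).foot k - 2 * x (Fin.last d) * (θ i).foot k - x k.castSucc) := by
      ring
    rw [e1]
    have t1 : |N ^ 2 * (G (s i) ω k - F (s i) ω k)| ≤ A' * N := by
      rw [abs_mul, abs_of_pos (by positivity : (0:ℝ) < N ^ 2)]
      calc N ^ 2 * |G (s i) ω k - F (s i) ω k| ≤ N ^ 2 * (A' / N) := by gcongr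
        _ = A' * N := by field_simp
    have t2 : |N ^ 2 * (F (s i) ω k - F (s i) (θ i).foot k)| ≤ 2 * L * N := by
      rw [abs_mul, abs_of_pos (by positivity : (0:ℝ) < N ^ 2)]
      calc N ^ 2 * |F (s i) ω k - F (s i) (θ i).foot k|
          ≤ N ^ 2 * (L * ‖ω - (θ i).foot‖) := by gcongr
        _ ≤ N ^ 2 * (L * (2 / N)) := by gcongr
        _ = 2 * L * N := by field_simp
    have t3 : |2 * x (Fin.last d) * ((θ i).foot k - ω k)| ≤ (4 * L + 4) * N := by
      rw [abs_mul, abs_mul, abs_of_pos (by norm_num : (0:ℝ) < 2)]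
      calc 2 * |x (Fin.last d)| * |(θ i).foot k - ω k|
          ≤ 2 * ((L + 1) * N ^ 2) * (2 / N) := by gcongr
        _ = (4 * L + 4) * N := by field_simp; ring
    have a1 := abs_add_le (N ^ 2 * (G (s i) ω k - F (s i) ω k) +
        N ^ 2 * (F (s i) ω k - F (s i) (θ i).foot k) +
        2 * x (Fin.last d) * ((θ i).foot k - ω k))
        (N ^ 2 * F (s i) (θ i).foot k - 2 * x (Fin.last d) * (θ i).foot k - x k.castSucc)
    have a2 := abs_add_le (N ^ 2 * (G (s i) ω k - F (s i) ω k) +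
        N ^ 2 * (F (s i) ω k - F (s i) (θ i).foot k))
        (2 * x (Fin.last d) * ((θ i).foot k - ω k))
    have a3 := abs_add_le (N ^ 2 * (G (s i) ω k - F (s i) ω k))
      (N ^ 2 * (F (s i) ω k - F (s i) (θ i).foot k))
    have e2 : (A + A' + 3 * d / 2 + 6 * L + 4) * N =
        A' * N + 2 * L * N + (4 * L + 4) * N + (A + 3 * d / 2) * N := by ring
    rw [e2]
    linarith
  -- overlap
  have hover : ∀ (J : Finset ι) (ω : Fin d → ℝ),
      (J.filter (fun i => ω ∈ bx N θ i)).card ≤ K * 7 ^ d := by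
    intro J ω
    have h1 := card_cells_le θ hK (J.filter (fun i => ω ∈ bx N θ i)) (fun k => ⌊N * ω k⌋) 3 (by
      intro i hi k
      have h2 := bx_close hd hN θ i (Finset.mem_filter.1 hi).2 k
      apply cell_diff_le (m := 2)
      rw [← mul_sub, abs_mul, abs_of_pos hN0]
      calc N * |(θ i).foot k - ω k| ≤ N * (2 / N) := by gcongr
        _ = ((2:ℕ):ℝ) := by push_cast; field_simp)
    exact h1
  have hWm : ∀ j, MeasurableSet (W j) := by
    intro j
    have h1 : MeasurableSet {ω : Fin d → ℝ | ∀ k, |N ^ 2 * G j ω k - 2 * (split x).1 * ω k -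
        (split x).2 k| ≤ (A + A' + 3 * d / 2 + 6 * L + 4) * N} := by
      have : {ω : Fin d → ℝ | ∀ k, |N ^ 2 * G j ω k - 2 * (split x).1 * ω k -
        (split x).2 k| ≤ (A + A' + 3 * d / 2 + 6 * L + 4) * N} =
        ⋂ k, {ω | |N ^ 2 * G j ω k - 2 * (split x).1 * ω k -
        (split x).2 k| ≤ (A + A' + 3 * d / 2 + 6 * L + 4) * N} := by
        ext z; simp
      rw [this]
      refine MeasurableSet.iInter fun k => ?_
      apply measurableSet_le _ measurable_const
      apply Measurable.abs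
      apply Measurable.sub _ measurable_const
      apply Measurable.sub
      · exact ((measurable_pi_apply k).comp (hG j)).const_mul _
      · fun_prop
    exact (measurableSet_Om N θ s j).inter h1
  have hsumj : ∀ j, ((I.filter (fun i => s i = j)).card : ℝ≥0∞) *
      ENNReal.ofReal ((2 / (d * N)) ^ d) ≤ (K * 7 ^ d : ℕ) * volume (W j) := by
    intro j
    set Ij := I.filter (fun i => s i = j) with hIj
    calc (Ij.card : ℝ≥0∞) * ENNReal.ofReal ((2 / (d * N)) ^ d)
        = ∑ i ∈ Ij, volume (bx N θ i) := by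
          simp only [volume_bx hN, Finset.sum_const, nsmul_eq_mul]
      _ = ∑ i ∈ Ij, ∫⁻ ω, (bx N θ i).indicator (fun _ => (1:ℝ≥0∞)) ω := by
          apply Finset.sum_congr rfl
          intro i _
          rw [lintegral_indicator_const (hbm i), one_mul]
      _ = ∫⁻ ω, ∑ i ∈ Ij, (bx N θ i).indicator (fun _ => (1:ℝ≥0∞)) ω := by
          rw [lintegral_finsetSum _ fun i _ => measurable_const.indicator (hbm i)]
      _ ≤ ∫⁻ ω, (W j).indicator (fun _ => ((K * 7 ^ d : ℕ) : ℝ≥0∞)) ω := by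
          apply lintegral_mono
          intro ω
          simp only
          have e1 : ∑ i ∈ Ij, (bx N θ i).indicator (fun _ => (1:ℝ≥0∞)) ω =
              (Ij.filter (fun i => ω ∈ bx N θ i)).card := by
            rw [Finset.card_filter]
            push_cast
            apply Finset.sum_congr rfl
            intro i _
            rw [indicator_apply]
          rw [e1]
          by_cases hω : ω ∈ W j
          · rw [indicator_of_mem hω]
            exact_mod_cast hover Ij ω
          · rw [indicator_of_notMem hω]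
            have : Ij.filter (fun i => ω ∈ bx N θ i) = ∅ := by
              rw [Finset.filter_eq_empty_iff]
              intro i hi hiω
              obtain ⟨hi1, hi2⟩ := Finset.mem_filter.1 hi
              have := hsub i hi1 hiω
              rw [hi2] at this
              exact hω this
            rw [this, Finset.card_empty, Nat.cast_zero]
      _ = _ := by rw [lintegral_indicator_const (hWm j)]
  have hsum : (I.card : ℝ≥0∞) * ENNReal.ofReal ((2 / (d * N)) ^ d) ≤
      (K * 7 ^ d : ℕ) * ∑ j, volume (W j) := by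
    rw [Finset.card_eq_sum_card_fiberwise (f := s) (t := Finset.univ)
      (fun _ _ => Finset.mem_coe.2 (Finset.mem_univ _)), Nat.cast_sum, Finset.sum_mul,
      Finset.mul_sum]
    exact Finset.sum_le_sum fun j _ => hsumj j
  rw [mult_eq_through, ENNReal.ofReal_natCast]
  have hq : 0 < (2 / ((d:ℝ) * N)) ^ d := by positivity
  have hq0 : ENNReal.ofReal ((2 / ((d:ℝ) * N)) ^ d) ≠ 0 := by simpa using hq
  calc (I.card : ℝ≥0∞) = (I.card : ℝ≥0∞) * ENNReal.ofReal ((2 / (d * N)) ^ d) *
        (ENNReal.ofReal ((2 / (d * N)) ^ d))⁻¹ := by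
        rw [mul_assoc, ENNReal.mul_inv_cancel hq0 ENNReal.ofReal_ne_top, mul_one]
    _ ≤ (K * 7 ^ d : ℕ) * (∑ j, volume (W j)) * (ENNReal.ofReal ((2 / (d * N)) ^ d))⁻¹ := by
        gcongr
    _ = ((K * 7 ^ d : ℕ) * (ENNReal.ofReal ((2 / (d * N)) ^ d))⁻¹) * ∑ j, volume (W j) := by ring
    _ ≤ _ := by
        gcongr
        rw [← ENNReal.ofReal_inv_of_pos hq, ← ENNReal.ofReal_natCast,
          ← ENNReal.ofReal_mul (by positivity)]
        apply ENNReal.ofReal_le_ofReal
        push_cast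
        rw [← inv_pow, inv_div]
        have e1 : (K:ℝ) * 7 ^ d * (d * N / 2) ^ d = K * (7 * (d * N / 2)) ^ d := by
          rw [mul_pow]; ring
        have e2 : (K:ℝ) * (4 * d) ^ d * N ^ d = K * (4 * d * N) ^ d := by
          rw [mul_pow]; ring
        rw [e1, e2]
        have h0 : 0 < (d:ℝ) * N := by positivity
        have h1 : 7 * ((d:ℝ) * N / 2) ≤ 4 * d * N := by linarith
        exact mul_le_mul_of_nonneg_left (pow_le_pow_left₀ (by positivity) h1 d) (by positivity)

/-- the constant in the weak type estimate -/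
noncomputable def weakConst (d K : ℕ) (A A' L : ℝ) : ℝ :=
  2 * (K * (4 * d) ^ d) * ((K * 10 ^ d) * ((2 * (A + A' + 3 * d / 2 + 6 * L + 4)) ^ d * (2 * d *
    (2 * (K * (4 * d) ^ d) * (2 * (A + A' + 3 * d / 2 + 6 * L + 4)) ^ d) ^ (1 / (d:ℝ))))) +
  K * 5 ^ d * (K * (2 * (⌈2 * (A + 3 * d / 2)⌉₊ + 1) + 1 : ℕ) ^ d) ^ (1 / (d:ℝ))

/-- The weak type estimate. -/
theorem weak_type [Fintype τ] (hd : 0 < d) {κ : Type*} [Countable κ]
    {F G : τ → (Fin d → ℝ) → (Fin d → ℝ)}
    {G' : τ → (Fin d → ℝ) → (Fin d → ℝ) →L[ℝ] (Fin d → ℝ)} {U : τ → κ → Set (Fin d → ℝ)} {B : ℕ}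
    (hG : ∀ j, FewSolutions (G j) (G' j) (U j) B) (hB : 1 ≤ Fintype.card τ * B)
    {A A' N L : ℝ} (hA : 0 ≤ A) (hA' : 0 ≤ A')
    (hN : 1 ≤ N) (hL : 0 ≤ L) {s : ι → τ} {θ : ι → Cap d}
    {c : ι → Sp d} (h : Follows F s A N θ c) (hF : ∀ j, LipB (F j) L)
    (hFG : ∀ j, ∀ x ∈ unitB d, ∀ k, |G j x k - F j x k| ≤ A' / N) {K : ℕ}
    (hK : ∀ z : Fin d → ℤ, ∀ s : Finset ι, (∀ i ∈ s, cell N (θ i) = z) → s.card ≤ K)
    {lam : ℝ} (hlam : 0 < lam) :
    volume {x : Sp d | lam < mult N θ c x} ≤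
      ENNReal.ofReal (weakConst d K A A' L * ((Fintype.card τ : ℝ) * B) ^ (1 / (d:ℝ)) *
        N ^ (2 * d + 2) * lam ^ (-(1 + 1 / (d:ℝ)))) := by
  classical
  have hN0 : 0 < N := by linarith
  have hd' : (0:ℝ) < d := by exact_mod_cast hd
  set JB : ℝ := (Fintype.card τ : ℝ) * B with hJB
  have hJB1 : (1:ℝ) ≤ JB := by rw [hJB]; exact_mod_cast hB
  have hB1 : 1 ≤ B := by
    rcases Nat.eq_zero_or_pos B with h0 | h0
    · rw [h0, mul_zero] at hB; omega
    · exact h0
  have hB' : (1:ℝ) ≤ B := by exact_mod_cast hB1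
  have hJ1 : 1 ≤ Fintype.card τ := by
    rcases Nat.eq_zero_or_pos (Fintype.card τ) with h0 | h0
    · rw [h0, zero_mul] at hB; omega
    · exact h0
  have hJ' : (1:ℝ) ≤ Fintype.card τ := by exact_mod_cast hJ1
  have hlp : ∀ {a : ℝ}, 0 ≤ a → lam⁻¹ * (a / lam) ^ (1 / (d:ℝ)) =
      a ^ (1 / (d:ℝ)) * lam ^ (-(1 + 1 / (d:ℝ))) := by
    intro a ha
    rw [Real.div_rpow ha hlam.le]
    have e1 : lam ^ (-(1 + 1 / (d:ℝ))) = lam⁻¹ * (lam ^ (1 / (d:ℝ)))⁻¹ := by
      rw [Real.rpow_neg hlam.le, Real.rpow_add hlam, Real.rpow_one, mul_inv]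
    rw [e1, div_eq_mul_inv]
    ring
  -- the near part
  have hnear : volume {x : Sp d | lam < mult N θ c x ∧ |x (Fin.last d)| ≤ (L + 1) * N ^ 2} ≤
      ENNReal.ofReal (2 * (K * (4 * d) ^ d) * ((K * 10 ^ d) *
        ((2 * (A + A' + 3 * d / 2 + 6 * L + 4)) ^ d *
        (2 * d * (2 * (K * (4 * d) ^ d) * (2 * (A + A' + 3 * d / 2 + 6 * L + 4)) ^ d)
        ^ (1 / (d:ℝ))))) * JB ^ (1 / (d:ℝ)) * N ^ (2 * d + 2) *
        lam ^ (-(1 + 1 / (d:ℝ)))) := by
    set r0 : ℝ := A + A' + 3 * d / 2 + 6 * L + 4 with hr0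
    have hr0pos : 0 < r0 := by rw [hr0]; positivity
    rcases Nat.eq_zero_or_pos K with hK0 | hKpos
    · -- no caps at all
      have hempty : ∀ x : Sp d, mult N θ c x = 0 := by
        intro x
        rw [mult_eq_through]
        have h1 : (through N θ c x) = ∅ := by
          rw [Finset.eq_empty_iff_forall_notMem]
          intro i _
          have h2 := hK (cell N (θ i)) {i} (by
            intro j hj
            rw [Finset.mem_singleton.1 hj])
          rw [Finset.card_singleton] at h2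
          omega
        rw [h1]; simp
      have : {x : Sp d | lam < mult N θ c x ∧ |x (Fin.last d)| ≤ (L + 1) * N ^ 2} = ∅ := by
        ext x
        simp only [mem_ofPred_eq, mem_empty_iff_false, iff_false]
        rintro ⟨h1, _⟩
        rw [hempty x] at h1
        linarith
      rw [this, measure_empty]
      exact zero_le
    have hK' : (0:ℝ) < K := by exact_mod_cast hKpos
    set C1 : ℝ := K * (4 * d) ^ d with hC1
    have hC1pos : 0 < C1 := by positivity
    set σ : ℝ := 2 * C1 * (2 * r0) ^ d * JB / lam with hσ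
    have hσpos : 0 < σ := by positivity
    set R : ℝ := N ^ 2 with hR
    have hRpos : 0 < R := by positivity
    set H : ℝ × (Fin d → ℝ) → ℝ≥0∞ := fun q =>
      ∑ j, volume (fibSmall (Om N θ s j) (G j) (G' j) R (r0 * N) σ q) with hH
    have hHj : ∀ j, Measurable fun q =>
        volume (fibSmall (Om N θ s j) (G j) (G' j) R (r0 * N) σ q) := by
      intro j
      have hZ := measurableSet_fibSmall_aux (measurableSet_Om N θ s j) (hG j).measG (hG j).measG'
        R (r0 * N) σ
      exact measurable_measure_prodMk_left hZ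
    have hHm : Measurable H := Finset.measurable_sum _ fun j _ => hHj j
    have hpt : ∀ x : Sp d, lam < mult N θ c x → |x (Fin.last d)| ≤ (L + 1) * N ^ 2 →
        ENNReal.ofReal (lam / 2) ≤ ENNReal.ofReal (C1 * N ^ d) * H (split x) := by
      intro x hx1 hx2
      have h1 := mult_near hd hN hL h hF hFG hK (fun j => (hG j).measG) hx2
      have h2 : ∑ j, volume (fib (Om N θ s j) (G j) R (r0 * N) (split x)) ≤
          H (split x) + ENNReal.ofReal (Fintype.card τ * (B * (2 * (r0 * N / R)) ^ d / σ)) := by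
        calc ∑ j, volume (fib (Om N θ s j) (G j) R (r0 * N) (split x))
            ≤ ∑ j, (volume (fibSmall (Om N θ s j) (G j) (G' j) R (r0 * N) σ (split x)) +
              ENNReal.ofReal (B * (2 * (r0 * N / R)) ^ d / σ)) :=
              Finset.sum_le_sum fun j _ => volume_fib_le (hG j) (Om_subset hd hN θ s j) hRpos
                (r := r0 * N) (by positivity) hσpos (split x)
          _ = _ := by
              rw [Finset.sum_add_distrib, Finset.sum_const, Finset.card_univ, nsmul_eq_mul,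
                ENNReal.ofReal_mul (by positivity : (0:ℝ) ≤ Fintype.card τ),
                ENNReal.ofReal_natCast]
      have h3 : ENNReal.ofReal lam ≤ ENNReal.ofReal (C1 * N ^ d) * H (split x) +
          ENNReal.ofReal (lam / 2) := by
        calc ENNReal.ofReal lam ≤ ENNReal.ofReal (mult N θ c x) :=
              ENNReal.ofReal_le_ofReal hx1.le
          _ ≤ ENNReal.ofReal (C1 * N ^ d) *
              ∑ j, volume (fib (Om N θ s j) (G j) R (r0 * N) (split x)) := h1
          _ ≤ ENNReal.ofReal (C1 * N ^ d) * (H (split x) +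
              ENNReal.ofReal (Fintype.card τ * (B * (2 * (r0 * N / R)) ^ d / σ))) := by gcongr
          _ = ENNReal.ofReal (C1 * N ^ d) * H (split x) +
              ENNReal.ofReal (C1 * N ^ d * (Fintype.card τ *
                (B * (2 * (r0 * N / R)) ^ d / σ))) := by
              rw [mul_add, ← ENNReal.ofReal_mul (by positivity)]
          _ = _ := by
              congr 2
              rw [hσ, hR, hJB]
              have e1 : 2 * (r0 * N / N ^ 2) = 2 * r0 / N := by field_simp
              rw [e1, div_pow]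
              have e2 : (Fintype.card τ : ℝ) ≠ 0 := by positivity
              field_simp
      have h4 : ENNReal.ofReal lam = ENNReal.ofReal (lam / 2) + ENNReal.ofReal (lam / 2) := by
        rw [← ENNReal.ofReal_add (by positivity) (by positivity)]
        congr 1; ring
      rw [h4] at h3
      exact (ENNReal.add_le_add_iff_right ENNReal.ofReal_ne_top).1 h3
    have hint : ∫⁻ x : Sp d, ENNReal.ofReal (C1 * N ^ d) * H (split x) ≤
        ENNReal.ofReal (C1 * N ^ d * (((2 * (r0 * N)) ^ d *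
          (2 * d * R * σ ^ (1 / (d:ℝ)))) * (K * 10 ^ d))) := by
      rw [lintegral_const_mul' _ _ ENNReal.ofReal_ne_top]
      have e1 : ∫⁻ x : Sp d, H (split x) = ∫⁻ q, H q :=
        measurePreserving_split.lintegral_comp hHm
      rw [e1]
      rw [ENNReal.ofReal_mul (by positivity : (0:ℝ) ≤ C1 * N ^ d)]
      gcongr
      rw [hH, lintegral_finsetSum _ fun j _ => hHj j]
      calc ∑ j, ∫⁻ q, volume (fibSmall (Om N θ s j) (G j) (G' j) R (r0 * N) σ q)
          ≤ ∑ j, ENNReal.ofReal ((2 * (r0 * N)) ^ d * (2 * d * R * σ ^ (1 / (d:ℝ)))) *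
            volume (Om N θ s j) := Finset.sum_le_sum fun j _ =>
            lintegral_fibSmall_le (measurableSet_Om N θ s j) hd (hG j).measG (hG j).measG' hRpos
              (by positivity) hσpos
        _ ≤ ENNReal.ofReal ((2 * (r0 * N)) ^ d * (2 * d * R * σ ^ (1 / (d:ℝ)))) *
            ENNReal.ofReal (K * 10 ^ d) := by
            rw [← Finset.mul_sum]
            gcongr
            exact sum_volume_Om_le hd hN θ s hK
        _ = _ := by rw [← ENNReal.ofReal_mul (by positivity)]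
    have hmarkov : ENNReal.ofReal (lam / 2) *
        volume {x : Sp d | lam < mult N θ c x ∧ |x (Fin.last d)| ≤ (L + 1) * N ^ 2} ≤
        ∫⁻ x : Sp d, ENNReal.ofReal (C1 * N ^ d) * H (split x) := by
      have hm : Measurable fun x : Sp d => ENNReal.ofReal (C1 * N ^ d) * H (split x) :=
        (hHm.comp measurePreserving_split.measurable).const_mul _
      refine le_trans ?_ (mul_meas_ge_le_lintegral hm (ENNReal.ofReal (lam / 2)))
      refine mul_le_mul' le_rfl (measure_mono ?_)
      exact fun x hx => hpt x hx.1 hx.2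
    have hfin := hmarkov.trans hint
    have hl2 : ENNReal.ofReal (lam / 2) ≠ 0 := by simpa using hlam
    have hgoal : volume {x : Sp d | lam < mult N θ c x ∧ |x (Fin.last d)| ≤ (L + 1) * N ^ 2} ≤
        (ENNReal.ofReal (lam / 2))⁻¹ * ENNReal.ofReal (C1 * N ^ d * (((2 * (r0 * N)) ^ d *
          (2 * d * R * σ ^ (1 / (d:ℝ)))) * (K * 10 ^ d))) := by
      calc volume {x : Sp d | lam < mult N θ c x ∧ |x (Fin.last d)| ≤ (L + 1) * N ^ 2}
          = (ENNReal.ofReal (lam / 2))⁻¹ * (ENNReal.ofReal (lam / 2) *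
            volume {x : Sp d | lam < mult N θ c x ∧ |x (Fin.last d)| ≤ (L + 1) * N ^ 2}) := by
            rw [← mul_assoc, ENNReal.inv_mul_cancel hl2 ENNReal.ofReal_ne_top, one_mul]
        _ ≤ _ := by gcongr
    refine hgoal.trans ?_
    rw [← ENNReal.ofReal_inv_of_pos (by positivity), ← ENNReal.ofReal_mul (by positivity)]
    apply ENNReal.ofReal_le_ofReal
    apply le_of_eq
    have e1 : (lam / 2)⁻¹ * (C1 * N ^ d * (((2 * (r0 * N)) ^ d *
          (2 * d * R * σ ^ (1 / (d:ℝ)))) * (K * 10 ^ d))) =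
        2 * C1 * ((K * 10 ^ d) * ((2 * r0) ^ d * (2 * d))) * N ^ (2 * d + 2) *
          (lam⁻¹ * σ ^ (1 / (d:ℝ))) := by
      have : (2 * (r0 * N)) ^ d = (2 * r0) ^ d * N ^ d := by rw [← mul_pow]; ring
      rw [this, hR]
      field_simp
      ring
    rw [e1, hσ, hlp (by positivity), Real.mul_rpow (by positivity) (by positivity)]
    ring
  -- the far part
  set C2 : ℝ := K * (2 * (⌈2 * (A + 3 * d / 2)⌉₊ + 1) + 1 : ℕ) ^ d with hC2
  have hC2nn : 0 ≤ C2 := by positivity
  have hfar : volume {x : Sp d | lam < mult N θ c x ∧ (L + 1) * N ^ 2 < |x (Fin.last d)|} ≤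
      ENNReal.ofReal (K * 5 ^ d * C2 ^ (1 / (d:ℝ)) * JB ^ (1 / (d:ℝ)) * N ^ (2 * d + 2) *
        lam ^ (-(1 + 1 / (d:ℝ)))) := by
    rcases le_or_gt (Fintype.card τ * C2) lam with hc | hc
    · have : {x : Sp d | lam < mult N θ c x ∧ (L + 1) * N ^ 2 < |x (Fin.last d)|} = ∅ := by
        ext x
        simp only [mem_ofPred_eq, mem_empty_iff_false, iff_false]
        rintro ⟨h1, h2⟩
        have h3 := mult_far hd hN hL h hF hK h2
        rw [← hC2] at h3
        linarith
      rw [this, measure_empty]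
      exact zero_le
    · have hmass := lintegral_mult hN0.le θ c
      have hcard := card_le hN θ hK
      have hmarkov : ENNReal.ofReal lam *
          volume {x : Sp d | lam < mult N θ c x ∧ (L + 1) * N ^ 2 < |x (Fin.last d)|} ≤
          ∫⁻ x : Sp d, ENNReal.ofReal (mult N θ c x) := by
        refine le_trans ?_ (mul_meas_ge_le_lintegral (measurable_mult N θ c).ennreal_ofReal
          (ENNReal.ofReal lam))
        refine mul_le_mul' le_rfl (measure_mono ?_)
        intro x hx
        exact ENNReal.ofReal_le_ofReal hx.1.le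
      rw [hmass] at hmarkov
      have hl2 : ENNReal.ofReal lam ≠ 0 := by simpa using hlam
      have hgoal : volume {x : Sp d | lam < mult N θ c x ∧ (L + 1) * N ^ 2 < |x (Fin.last d)|} ≤
          (ENNReal.ofReal lam)⁻¹ * ENNReal.ofReal (Fintype.card ι * N ^ (d + 2)) := by
        calc volume {x : Sp d | lam < mult N θ c x ∧ (L + 1) * N ^ 2 < |x (Fin.last d)|}
            = (ENNReal.ofReal lam)⁻¹ * (ENNReal.ofReal lam *
            volume {x : Sp d | lam < mult N θ c x ∧ (L + 1) * N ^ 2 < |x (Fin.last d)|}) := by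
              rw [← mul_assoc, ENNReal.inv_mul_cancel hl2 ENNReal.ofReal_ne_top, one_mul]
          _ ≤ _ := by gcongr
      refine hgoal.trans ?_
      rw [← ENNReal.ofReal_inv_of_pos hlam, ← ENNReal.ofReal_mul (by positivity)]
      apply ENNReal.ofReal_le_ofReal
      have h1 : lam⁻¹ ≤ (C2 * JB) ^ (1 / (d:ℝ)) * lam ^ (-(1 + 1 / (d:ℝ))) := by
        rw [← hlp (by positivity)]
        have h2 : 1 ≤ (C2 * JB / lam) ^ (1 / (d:ℝ)) := by
          apply Real.one_le_rpow
          · rw [le_div_iff₀ hlam, one_mul]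
            refine hc.le.trans ?_
            rw [hJB, mul_comm C2]
            apply mul_le_mul_of_nonneg_right _ hC2nn
            exact le_mul_of_one_le_right (by linarith) hB'
          · positivity
        have : 0 < lam⁻¹ := by positivity
        nlinarith
      rw [Real.mul_rpow hC2nn (by linarith)] at h1
      calc lam⁻¹ * (Fintype.card ι * N ^ (d + 2))
          ≤ (C2 ^ (1 / (d:ℝ)) * JB ^ (1 / (d:ℝ)) * lam ^ (-(1 + 1 / (d:ℝ)))) *
            ((K * 5 ^ d * N ^ d) * N ^ (d + 2)) := by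
            gcongr
        _ = _ := by ring
  have hunion : {x : Sp d | lam < mult N θ c x} ⊆
      {x : Sp d | lam < mult N θ c x ∧ |x (Fin.last d)| ≤ (L + 1) * N ^ 2} ∪
      {x : Sp d | lam < mult N θ c x ∧ (L + 1) * N ^ 2 < |x (Fin.last d)|} := by
    intro x hx
    rcases le_or_gt |x (Fin.last d)| ((L + 1) * N ^ 2) with h1 | h1
    · exact Or.inl ⟨hx, h1⟩
    · exact Or.inr ⟨hx, h1⟩
  refine (measure_mono hunion).trans ((measure_union_le _ _).trans ?_)
  refine (add_le_add hnear hfar).trans ?_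
  rw [← ENNReal.ofReal_add (by positivity) (by positivity)]
  apply ENNReal.ofReal_le_ofReal
  apply le_of_eq
  rw [weakConst, ← hC2]
  ring

end Pool.Agent.MPac5134
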